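import Pool.Agent.TFin.Targets
import Pool.Agent.AntiSid.Tree

/-!
# Large trees in tournaments (MP_d27362_co): almost all labelled trees

For a fixed vertex `b` let `N k` be the number of the trees on `V` in which `b` has degree `k`.
Moving an edge at `b` shows `j * N (j + 1) ≤ N j`, so the degrees of a random labelled tree have
a factorial tail, and almost all labelled trees are tame.
-/

set_option autoImplicit false
set_option linter.unusedSectionVars false

namespace Pool.Agent.TFin

open Finset

/-- LAB (from T_FIN): almost all labelled trees have a good orientation. -/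
def T_LAB : Prop := ∀ ε : ℝ, 0 < ε → ∃ N : ℕ, ∀ (V : Type) [Fintype V], N ≤ Fintype.card V →
  ({T : SimpleGraph V | T.IsTree ∧ ¬ GoodTree T}.ncard : ℝ) ≤
    ε * ({T : SimpleGraph V | T.IsTree}.ncard : ℝ)

namespace LAB_

open Classical

noncomputable section

variable {V : Type} [Fintype V]

/-- `par` is the parent function of the tree `T` rooted at `b` -/
def PF (b : V) (par : V → V) (T : SimpleGraph V) : Prop :=
  par b = b ∧ (∀ u v, T.Adj u v ↔ (u ≠ b ∧ par u = v) ∨ (v ≠ b ∧ par v = u)) ∧
  ∃ dep : V → ℕ, ∀ v, v ≠ b → dep (par v) < dep v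

theorem exists_PF {T : SimpleGraph V} (hT : T.IsTree) (b : V) : ∃ par, PF b par T := by
  obtain ⟨par, h0, h1, h2⟩ := AntiSid.exists_parent hT b
  refine ⟨par, h0, fun u v => ⟨fun h => AntiSid.adj_iff_parent hT b par h1 h2 h, ?_⟩,
    fun v => T.dist v b, h2⟩
  rintro (⟨hu, rfl⟩ | ⟨hv, rfl⟩)
  · exact h1 u hu
  · exact (h1 v hv).symm

theorem isTree_of_PF {b : V} {par : V → V} {T : SimpleGraph V} (h : PF b par T) : T.IsTree := by
  obtain ⟨h0, h1, dep, hd⟩ := h
  have hadj : ∀ v, v ≠ b → T.Adj v (par v) := fun v hv => (h1 v (par v)).mpr (Or.inl ⟨hv, rfl⟩)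
  rw [SimpleGraph.isTree_iff_connected_and_card]
  constructor
  · rw [SimpleGraph.connected_iff_exists_forall_reachable]
    refine ⟨b, ?_⟩
    have key : ∀ k v, dep v = k → T.Reachable b v := by
      intro k
      induction k using Nat.strong_induction_on with
      | _ k ih =>
        intro v hv
        by_cases hvb : v = b
        · rw [hvb]
        · have h2 := hd v hvb
          exact (ih (dep (par v)) (by omega) (par v) rfl).trans (hadj v hvb).symm.reachable
    exact fun v => key _ v rfl
  · have h2 : T.edgeSet = (fun v => s(v, par v)) '' ((univ.erase b : Finset V) : Set V) := by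
      ext e
      induction e using Sym2.ind with
      | _ x y =>
        rw [SimpleGraph.mem_edgeSet, h1]
        constructor
        · rintro (⟨hx, rfl⟩ | ⟨hy, rfl⟩)
          · exact ⟨x, by simpa using hx, rfl⟩
          · exact ⟨y, by simpa using hy, Sym2.eq_swap⟩
        · rintro ⟨v, hv, hve⟩
          have hvb : v ≠ b := by simpa using hv
          rw [Sym2.eq_iff] at hve
          rcases hve with ⟨rfl, h3⟩ | ⟨rfl, h3⟩
          · exact Or.inl ⟨hvb, h3⟩
          · exact Or.inr ⟨hvb, h3⟩
    have h3 : Set.InjOn (fun v => s(v, par v)) ((univ.erase b : Finset V) : Set V) := by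
      intro x hx y hy hxy
      have hxb : x ≠ b := by simpa using hx
      have hyb : y ≠ b := by simpa using hy
      simp only [Sym2.eq_iff] at hxy
      rcases hxy with h | h
      · exact h.1
      · have h3 := hd x hxb
        have h4 := hd y hyb
        rw [h.2] at h3
        rw [← h.1] at h4
        omega
    rw [Nat.card_coe_set_eq, h2, Set.InjOn.ncard_image h3, Set.ncard_coe_finset,
      Finset.card_erase_of_mem (mem_univ b), Finset.card_univ, Nat.card_eq_fintype_card]
    have : 0 < Fintype.card V := Fintype.card_pos_iff.2 ⟨b⟩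
    omega

theorem PF_unique {b : V} {par par' : V → V} {T : SimpleGraph V} (h : PF b par T)
    (h' : PF b par' T) : par = par' := by
  obtain ⟨h0, h1, -⟩ := h
  obtain ⟨h0', h1', dep, hd⟩ := h'
  have key : ∀ k v, dep v = k → par v = par' v := by
    intro k
    induction k using Nat.strong_induction_on with
    | _ k ih =>
      intro v hv
      by_cases hvb : v = b
      · rw [hvb, h0, h0']
      · have h2 : T.Adj v (par' v) := (h1' v (par' v)).mpr (Or.inl ⟨hvb, rfl⟩)
        rcases (h1 _ _).mp h2 with h3 | h3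
        · exact h3.2
        · exfalso
          have h4 := hd v hvb
          have h5 := ih (dep (par' v)) (by omega) (par' v) rfl
          have h6 := hd (par' v) h3.1
          rw [← h5, h3.2] at h6
          omega
  exact funext fun v => key _ v rfl

theorem PF_ext {b : V} {par : V → V} {T T' : SimpleGraph V} (h : PF b par T)
    (h' : PF b par T') : T = T' := by
  ext u v
  rw [h.2.1, h'.2.1]

/-- the tree of a parent function -/
def mk (b : V) (par : V → V) : SimpleGraph V :=
  SimpleGraph.fromRel fun u v => u ≠ b ∧ par u = v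

theorem PF_mk (b : V) (par : V → V) (h0 : par b = b) (dep : V → ℕ)
    (hd : ∀ v, v ≠ b → dep (par v) < dep v) : PF b par (mk b par) := by
  refine ⟨h0, fun u v => ?_, dep, hd⟩
  rw [mk, SimpleGraph.fromRel_adj]
  constructor
  · exact fun h => h.2
  · intro h
    refine ⟨?_, h⟩
    rintro rfl
    have : u ≠ b ∧ par u = u := by tauto
    have h3 := hd u this.1
    rw [this.2] at h3
    exact lt_irrefl _ h3

/-- `x` is a descendant of `c` (or equal to it) -/
def Dsc (par : V → V) (c x : V) : Prop := ∃ k, par^[k] x = c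

theorem PF_update {b : V} {par : V → V} {T : SimpleGraph V} (h : PF b par T) {c w : V}
    (hc : c ≠ b) (hw : ¬ Dsc par c w) :
    PF b (Function.update par c w) (mk b (Function.update par c w)) := by
  obtain ⟨h0, h1, dep, hd⟩ := h
  apply PF_mk b _ _ (fun x => dep x + if Dsc par c x then dep w + 1 else 0)
  · intro v hv
    by_cases hvc : v = c
    · subst hvc
      rw [Function.update_self]
      show dep w + (if Dsc par v w then dep w + 1 else 0) <
        dep v + (if Dsc par v v then dep w + 1 else 0)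
      rw [if_neg hw, if_pos ⟨0, rfl⟩]
      omega
    · rw [Function.update_of_ne hvc]
      have h2 := hd v hv
      have h3 : Dsc par c (par v) ↔ Dsc par c v := by
        constructor
        · rintro ⟨k, hk⟩
          exact ⟨k + 1, hk⟩
        · rintro ⟨k, hk⟩
          cases k with
          | zero => exact absurd hk hvc
          | succ k => exact ⟨k, hk⟩
      show dep (par v) + (if Dsc par c (par v) then dep w + 1 else 0) <
        dep v + (if Dsc par c v then dep w + 1 else 0)
      by_cases h4 : Dsc par c v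
      · rw [if_pos h4, if_pos (h3.mpr h4)]
        omega
      · rw [if_neg h4, if_neg (fun h5 => h4 (h3.mp h5))]
        omega
  · rw [Function.update_of_ne (Ne.symm hc), h0]

theorem Dsc_unique {b : V} {par : V → V} {T : SimpleGraph V} (h : PF b par T) {w c c' : V}
    (hc : c ≠ b) (hc' : c' ≠ b) (hp : par c = b) (hp' : par c' = b) (hw : Dsc par c w)
    (hw' : Dsc par c' w) : c = c' := by
  obtain ⟨h0, h1, dep, hd⟩ := h
  obtain ⟨i, hi⟩ := hw
  obtain ⟨j, hj⟩ := hw'
  rcases le_total i j with hij | hij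
  · exact AntiSid.chain_unique b par dep h0 hd w c c' hc' i j hi hj (hp.trans hp'.symm) hij
  · exact (AntiSid.chain_unique b par dep h0 hd w c' c hc j i hj hi (hp'.trans hp.symm) hij).symm

/-- all trees -/
def TS (V : Type) [Fintype V] : Finset (SimpleGraph V) := univ.filter fun T => T.IsTree

/-- neighbours -/
def nbh (T : SimpleGraph V) (b : V) : Finset V := univ.filter fun v => T.Adj b v

/-- the trees in which `b` has degree `k` -/
def TD (b : V) (k : ℕ) : Finset (SimpleGraph V) := (TS V).filter fun T => (nbh T b).card = k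

theorem nbh_PF {b : V} {par : V → V} {T : SimpleGraph V} (h : PF b par T) :
    nbh T b = univ.filter fun c => c ≠ b ∧ par c = b := by
  ext c
  simp only [nbh, mem_filter, mem_univ, true_and, h.2.1]
  constructor
  · rintro (h1 | h1)
    · exact absurd rfl h1.1
    · exact h1
  · exact Or.inr

/-- a chosen parent function -/
def pr (b : V) (T : SimpleGraph V) : V → V := if h : T.IsTree then (exists_PF h b).choose else id

theorem pr_PF (b : V) {T : SimpleGraph V} (h : T.IsTree) : PF b (pr b T) T := by
  rw [pr, dif_pos h]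
  exact (exists_PF h b).choose_spec

theorem card_TD (b : V) (j : ℕ) : j * (TD b (j + 1)).card ≤ (TD b j).card := by
  have hn : 0 < Fintype.card V := Fintype.card_pos_iff.2 ⟨b⟩
  by_cases hn1 : Fintype.card V = 1
  · have h1 : (TD b (j + 1)).card = 0 := by
      rw [card_eq_zero, TD, filter_eq_empty_iff]
      intro T _ hT
      have h2 : nbh T b ⊆ univ.erase b := by
        intro c hc
        rw [nbh, mem_filter] at hc
        exact mem_erase.mpr ⟨hc.2.ne', mem_univ _⟩
      have h3 := card_le_card h2
      rw [card_erase_of_mem (mem_univ b), card_univ] at h3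
      omega
    rw [h1]
    omega
  -- the moves
  set D := ((TD b (j + 1)) ×ˢ (univ.erase b)).sigma
    (fun p => (nbh p.1 b).filter fun c => ¬ Dsc (pr b p.1) c p.2) with hD
  have hTD : ∀ T k, T ∈ TD b k → T.IsTree ∧ (nbh T b).card = k := by
    intro T k hT
    rw [TD, TS, mem_filter, mem_filter] at hT
    exact ⟨hT.1.2, hT.2⟩
  have hDcard : (TD b (j + 1)).card * (Fintype.card V - 1) * j ≤ D.card := by
    rw [hD, card_sigma]
    have h1 : ∑ _p ∈ (TD b (j + 1)) ×ˢ (univ.erase b), j =
        (TD b (j + 1)).card * (Fintype.card V - 1) * j := by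
      rw [sum_const, card_product, card_erase_of_mem (mem_univ b), card_univ, smul_eq_mul]
    rw [← h1]
    apply sum_le_sum
    rintro ⟨T, w⟩ hp
    rw [mem_product] at hp
    obtain ⟨hT, hdeg⟩ := hTD T _ hp.1
    have hPF := pr_PF b hT
    have h2 : ((nbh T b).filter fun c => Dsc (pr b T) c w).card ≤ 1 := by
      rw [card_le_one]
      intro c hc c' hc'
      rw [nbh_PF hPF, mem_filter, mem_filter] at hc hc'
      exact Dsc_unique hPF hc.1.2.1 hc'.1.2.1 hc.1.2.2 hc'.1.2.2 hc.2 hc'.2
    have h3 := card_filter_add_card_filter_not (s := nbh T b) (fun c => Dsc (pr b T) c w)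
    show j ≤ ((nbh T b).filter fun c => ¬ Dsc (pr b T) c w).card
    omega
  have hmap : D.card ≤ ((TD b j) ×ˢ (univ.erase b)).card := by
    apply card_le_card_of_injOn
      (fun q => (mk b (Function.update (pr b q.1.1) q.2 q.1.2), q.2))
    · rintro ⟨⟨T, w⟩, c⟩ hq
      rw [mem_coe, hD, mem_sigma, mem_product, mem_filter] at hq
      obtain ⟨⟨hT1, hw⟩, hc, hdc⟩ := hq
      obtain ⟨hT, hdeg⟩ := hTD T _ hT1
      have hPF := pr_PF b hT
      have hcm := hc
      simp only at hc hw hdc hcm
      rw [nbh_PF hPF, mem_filter] at hc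
      have hwb : w ≠ b := (mem_erase.mp hw).1
      have hPF' := PF_update hPF hc.2.1 hdc
      rw [mem_coe, mem_product]
      refine ⟨?_, mem_erase.mpr ⟨hc.2.1, mem_univ _⟩⟩
      show mk b (Function.update (pr b T) c w) ∈ TD b j
      rw [TD, TS, mem_filter, mem_filter]
      refine ⟨⟨mem_univ _, isTree_of_PF hPF'⟩, ?_⟩
      have h4 : nbh (mk b (Function.update (pr b T) c w)) b = (nbh T b).erase c := by
        rw [nbh_PF hPF', nbh_PF hPF]
        ext x
        simp only [mem_filter, mem_univ, true_and, mem_erase]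
        by_cases hxc : x = c
        · subst hxc
          rw [Function.update_self]
          tauto
        · rw [Function.update_of_ne hxc]
          tauto
      rw [h4, card_erase_of_mem hcm, hdeg]
      omega
    · rintro ⟨⟨T, w⟩, c⟩ hq ⟨⟨T', w'⟩, c'⟩ hq' heq
      rw [mem_coe, hD, mem_sigma, mem_product, mem_filter] at hq hq'
      obtain ⟨⟨hT1, hw⟩, hc, hdc⟩ := hq
      obtain ⟨⟨hT1', hw'⟩, hc', hdc'⟩ := hq'
      obtain ⟨hT, hdeg⟩ := hTD T _ hT1
      obtain ⟨hT', hdeg'⟩ := hTD T' _ hT1'
      have hPF := pr_PF b hT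
      have hPF' := pr_PF b hT'
      simp only at hc hw hdc hc' hw' hdc'
      rw [nbh_PF hPF, mem_filter] at hc
      rw [nbh_PF hPF', mem_filter] at hc'
      simp only [Prod.mk.injEq] at heq
      obtain ⟨heq1, heq2⟩ := heq
      subst heq2
      have hu := PF_update hPF hc.2.1 hdc
      have hu' := PF_update hPF' hc'.2.1 hdc'
      rw [← heq1] at hu'
      have h5 := PF_unique hu hu'
      have h6 : w = w' := by
        have := congrFun h5 c
        rwa [Function.update_self, Function.update_self] at this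
      subst h6
      have h7 : pr b T = pr b T' := by
        funext x
        by_cases hxc : x = c
        · rw [hxc, hc.2.2, hc'.2.2]
        · have := congrFun h5 x
          rwa [Function.update_of_ne hxc, Function.update_of_ne hxc] at this
      have h8 : T = T' := by
        rw [← h7] at hPF'
        exact PF_ext hPF hPF'
      subst h8
      rfl
  rw [card_product, card_erase_of_mem (mem_univ b), card_univ] at hmap
  have h9 : (Fintype.card V - 1) * (j * (TD b (j + 1)).card) ≤
      (Fintype.card V - 1) * (TD b j).card := by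
    calc _ = (TD b (j + 1)).card * (Fintype.card V - 1) * j := by ring
      _ ≤ D.card := hDcard
      _ ≤ (TD b j).card * (Fintype.card V - 1) := hmap
      _ = _ := by ring
  exact Nat.le_of_mul_le_mul_left h9 (by omega)

theorem card_TD_fact (b : V) (j : ℕ) : j.factorial * (TD b (j + 1)).card ≤ (TS V).card := by
  induction j with
  | zero =>
    rw [Nat.factorial_zero, one_mul]
    exact card_le_card (filter_subset _ _)
  | succ j ih =>
    calc (j + 1).factorial * (TD b (j + 1 + 1)).card
        = j.factorial * ((j + 1) * (TD b (j + 1 + 1)).card) := by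
          rw [Nat.factorial_succ]; ring
      _ ≤ j.factorial * (TD b (j + 1)).card := Nat.mul_le_mul_left _ (card_TD b (j + 1))
      _ ≤ (TS V).card := ih

/-- tails of the series -/
theorem exists_tail (η : ℝ) (hη : 0 < η) : ∃ D : ℕ, 1 ≤ D ∧ ∀ t : Finset ℕ, (∀ j ∈ t, D ≤ j + 1) →
    ∑ j ∈ t, ((j : ℝ) + 1) / (j.factorial : ℝ) ≤ η := by
  have h1 : Summable fun j : ℕ => ((j : ℝ) + 1) / (j.factorial : ℝ) := by
    apply Summable.of_nonneg_of_le (fun j => by positivity) (fun j => ?_)
      (Real.summable_pow_div_factorial 2)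
    have h2 : (j : ℝ) + 1 ≤ 2 ^ j := by
      have : j + 1 ≤ 2 ^ j := Nat.lt_two_pow_self
      exact_mod_cast this
    exact div_le_div_of_nonneg_right h2 (by positivity)
  obtain ⟨s, hs⟩ := summable_iff_vanishing_norm.mp h1 η hη
  refine ⟨s.sup id + 2, by omega, fun t ht => ?_⟩
  have h2 : Disjoint t s := by
    rw [Finset.disjoint_left]
    intro j hj hjs
    have h3 := ht j hj
    have h4 : id j ≤ s.sup id := le_sup hjs
    simp only [id] at h4
    omega
  exact (le_abs_self _).trans (hs t h2).le

theorem sum_deg (b : V) (η : ℝ) (D : ℕ) (hD1 : 1 ≤ D)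
    (hD : ∀ t : Finset ℕ, (∀ j ∈ t, D ≤ j + 1) →
      ∑ j ∈ t, ((j : ℝ) + 1) / (j.factorial : ℝ) ≤ η) :
    ∑ T ∈ TS V, (if D ≤ (nbh T b).card then ((nbh T b).card : ℝ) else 0) ≤
      η * ((TS V).card : ℝ) := by
  have h1 : ∀ T ∈ TS V, (nbh T b).card ∈ range (Fintype.card V + 1) := by
    intro T _
    rw [mem_range]
    have := card_le_univ (nbh T b)
    omega
  rw [← sum_fiberwise_of_maps_to h1]
  have h2 : ∀ k ∈ range (Fintype.card V + 1),
      ∑ T ∈ (TS V).filter (fun T => (nbh T b).card = k),
        (if D ≤ (nbh T b).card then ((nbh T b).card : ℝ) else 0) =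
      (if D ≤ k then (k : ℝ) else 0) * ((TD b k).card : ℝ) := by
    intro k _
    rw [mul_comm, TD, ← nsmul_eq_mul]
    apply sum_eq_card_nsmul
    intro T hT
    rw [mem_filter] at hT
    rw [hT.2]
  rw [sum_congr rfl h2, sum_range_succ']
  have h3 : (if D ≤ 0 then ((0 : ℕ) : ℝ) else 0) * ((TD b 0).card : ℝ) = 0 := by
    rw [if_neg (by omega)]
    ring
  rw [h3, add_zero]
  calc ∑ j ∈ range (Fintype.card V),
        (if D ≤ j + 1 then ((j + 1 : ℕ) : ℝ) else 0) * ((TD b (j + 1)).card : ℝ)
      ≤ ∑ j ∈ range (Fintype.card V), (if D ≤ j + 1 then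
          ((j : ℝ) + 1) / (j.factorial : ℝ) else 0) * ((TS V).card : ℝ) := by
        apply sum_le_sum
        intro j _
        by_cases h4 : D ≤ j + 1
        · rw [if_pos h4, if_pos h4]
          have h5 : (j.factorial : ℝ) * ((TD b (j + 1)).card : ℝ) ≤ ((TS V).card : ℝ) := by
            exact_mod_cast card_TD_fact b j
          have h6 : (0 : ℝ) < (j.factorial : ℝ) := by exact_mod_cast Nat.factorial_pos j
          rw [div_mul_eq_mul_div, le_div_iff₀ h6]
          push_cast
          have h7 : (0 : ℝ) ≤ (j : ℝ) + 1 := by positivity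
          calc ((j : ℝ) + 1) * ((TD b (j + 1)).card : ℝ) * (j.factorial : ℝ)
              = ((j : ℝ) + 1) * ((j.factorial : ℝ) * ((TD b (j + 1)).card : ℝ)) := by ring
            _ ≤ ((j : ℝ) + 1) * ((TS V).card : ℝ) := mul_le_mul_of_nonneg_left h5 h7
        · rw [if_neg h4, if_neg h4, zero_mul, zero_mul]
    _ = (∑ j ∈ (range (Fintype.card V)).filter (fun j => D ≤ j + 1),
          ((j : ℝ) + 1) / (j.factorial : ℝ)) * ((TS V).card : ℝ) := by
        rw [← sum_mul, sum_filter]
    _ ≤ η * ((TS V).card : ℝ) := by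
        apply mul_le_mul_of_nonneg_right _ (Nat.cast_nonneg _)
        apply hD
        intro j hj
        exact (mem_filter.mp hj).2

theorem nbh_ncard (T : SimpleGraph V) (b : V) : (T.neighborSet b).ncard = (nbh T b).card := by
  rw [← Set.ncard_coe_finset]
  congr 1
  ext v
  simp [nbh]

/-- few trees are bad at level `m` -/
theorem few_bad (m : ℕ) (η : ℝ) (D : ℕ) (hD1 : 1 ≤ D)
    (hD : ∀ t : Finset ℕ, (∀ j ∈ t, D ≤ j + 1) →
      ∑ j ∈ t, ((j : ℝ) + 1) / (j.factorial : ℝ) ≤ η) (hV : 0 < Fintype.card V) :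
    (((TS V).filter fun T => Fintype.card V <
      m * ∑ v ∈ univ.filter (fun v => D ≤ (nbh T v).card), (nbh T v).card).card : ℝ) ≤
      m * η * ((TS V).card : ℝ) := by
  set B := (TS V).filter fun T => Fintype.card V <
      m * ∑ v ∈ univ.filter (fun v => D ≤ (nbh T v).card), (nbh T v).card with hB
  have hVr : (0 : ℝ) < (Fintype.card V : ℝ) := by exact_mod_cast hV
  have h1 : (B.card : ℝ) * (Fintype.card V : ℝ) ≤
      ∑ T ∈ TS V, (m : ℝ) * ∑ v, (if D ≤ (nbh T v).card then ((nbh T v).card : ℝ) else 0) := by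
    calc (B.card : ℝ) * (Fintype.card V : ℝ) = ∑ _T ∈ B, (Fintype.card V : ℝ) := by
          rw [sum_const, nsmul_eq_mul]
      _ ≤ ∑ T ∈ B, (m : ℝ) *
          ∑ v, (if D ≤ (nbh T v).card then ((nbh T v).card : ℝ) else 0) := by
          apply sum_le_sum
          intro T hT
          rw [hB, mem_filter] at hT
          have h2 : ((Fintype.card V : ℕ) : ℝ) ≤
              ((m * ∑ v ∈ univ.filter (fun v => D ≤ (nbh T v).card), (nbh T v).card : ℕ) : ℝ) := by
            exact_mod_cast hT.2.le
          rw [sum_filter] at h2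
          push_cast at h2
          exact h2
      _ ≤ _ := by
          apply sum_le_sum_of_subset_of_nonneg (filter_subset _ _)
          intro T _ _
          apply mul_nonneg (Nat.cast_nonneg _)
          apply sum_nonneg
          intro v _
          split_ifs
          · exact Nat.cast_nonneg _
          · exact le_refl _
  have h2 : ∑ T ∈ TS V, (m : ℝ) *
      ∑ v, (if D ≤ (nbh T v).card then ((nbh T v).card : ℝ) else 0) ≤
      (m : ℝ) * ((Fintype.card V : ℝ) * (η * ((TS V).card : ℝ))) := by
    rw [← mul_sum, sum_comm]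
    apply mul_le_mul_of_nonneg_left _ (Nat.cast_nonneg _)
    calc ∑ v, ∑ T ∈ TS V, (if D ≤ (nbh T v).card then ((nbh T v).card : ℝ) else 0)
        ≤ ∑ _v : V, η * ((TS V).card : ℝ) := sum_le_sum fun v _ => sum_deg v η D hD1 hD
      _ = _ := by rw [sum_const, card_univ, nsmul_eq_mul]
  have h3 : (B.card : ℝ) * (Fintype.card V : ℝ) ≤
      (m * η * ((TS V).card : ℝ)) * (Fintype.card V : ℝ) := by
    calc _ ≤ _ := h1
      _ ≤ _ := h2
      _ = _ := by ring
  exact le_of_mul_le_mul_right h3 hVr

end

end LAB_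

open Classical in
/-- almost all labelled trees -/
theorem p_LAB : T_FIN → T_LAB := by
  intro hF ε hε
  -- choice of the function kappa
  have hex : ∀ m : ℕ, ∃ D : ℕ, 1 ≤ D ∧ ∀ t : Finset ℕ, (∀ j ∈ t, D ≤ j + 1) →
      ∑ j ∈ t, ((j : ℝ) + 1) / (j.factorial : ℝ) ≤ ε / ((m + 1) * 2 ^ (m + 1)) := fun m =>
    LAB_.exists_tail _ (by positivity)
  choose κ hκ1 hκ using hex
  obtain ⟨N, hN⟩ := hF.1 κ
  refine ⟨N + 1, fun V _ hV => ?_⟩
  have hV0 : 0 < Fintype.card V := by omega
  have e1 : {T : SimpleGraph V | T.IsTree}.ncard = (LAB_.TS V).card := by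
    rw [← Set.ncard_coe_finset]
    congr 1
    ext T
    simp [LAB_.TS]
  rw [e1]
  set B : ℕ → Finset (SimpleGraph V) := fun m => (LAB_.TS V).filter fun T => Fintype.card V <
      m * ∑ v ∈ univ.filter (fun v => κ m ≤ (LAB_.nbh T v).card), (LAB_.nbh T v).card with hB
  -- a bad tree is in some `B m`
  have h1 : ∀ T : SimpleGraph V, T.IsTree → ¬ GoodTree T → ∃ m, T ∈ B m := by
    intro T hT hG
    by_contra hcon
    push Not at hcon
    apply hG
    apply hN V T hT (by omega)
    intro m
    have h2 := hcon m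
    rw [hB] at h2
    simp only [mem_filter, not_and, not_lt] at h2
    have h3 := h2 (by simp [LAB_.TS, hT])
    simp only [LAB_.nbh_ncard]
    exact h3
  choose! mm hmm using h1
  set M := ((LAB_.TS V).sup mm) + 1 with hM
  have h4 : {T : SimpleGraph V | T.IsTree ∧ ¬ GoodTree T} ⊆
      (((range M).biUnion B : Finset (SimpleGraph V)) : Set (SimpleGraph V)) := by
    intro T hT
    rw [mem_coe, mem_biUnion]
    refine ⟨mm T, ?_, hmm T hT.1 hT.2⟩
    rw [mem_range, hM]
    have : mm T ≤ (LAB_.TS V).sup mm := le_sup (by simp [LAB_.TS, hT.1])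
    omega
  have h5 : {T : SimpleGraph V | T.IsTree ∧ ¬ GoodTree T}.ncard ≤
      ∑ m ∈ range M, (B m).card := by
    calc _ ≤ ((range M).biUnion B).card := by
          rw [← Set.ncard_coe_finset]
          exact Set.ncard_le_ncard h4 (Finset.finite_toSet _)
      _ ≤ _ := card_biUnion_le
  have h6 : ∀ m, ((B m).card : ℝ) ≤ ε * ((LAB_.TS V).card : ℝ) * (1 / 2 ^ (m + 1)) := by
    intro m
    have h7 := LAB_.few_bad (V := V) m _ (κ m) (hκ1 m) (hκ m) hV0
    refine h7.trans ?_
    have h8 : (m : ℝ) * (ε / ((m + 1) * 2 ^ (m + 1))) ≤ ε * (1 / 2 ^ (m + 1)) := by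
      have h9 : (m : ℝ) / (m + 1) ≤ 1 := by
        rw [div_le_one (by positivity)]
        linarith
      calc (m : ℝ) * (ε / ((m + 1) * 2 ^ (m + 1))) = (m : ℝ) / (m + 1) * (ε * (1 / 2 ^ (m + 1))) := by
            field_simp
        _ ≤ 1 * (ε * (1 / 2 ^ (m + 1))) := mul_le_mul_of_nonneg_right h9 (by positivity)
        _ = _ := one_mul _
    calc (m : ℝ) * (ε / ((m + 1) * 2 ^ (m + 1))) * ((LAB_.TS V).card : ℝ)
        ≤ ε * (1 / 2 ^ (m + 1)) * ((LAB_.TS V).card : ℝ) :=
          mul_le_mul_of_nonneg_right h8 (Nat.cast_nonneg _)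
      _ = _ := by ring
  have h10 : ∑ m ∈ range M, (1 / 2 ^ (m + 1) : ℝ) ≤ 1 := by
    have h11 : ∀ M : ℕ, ∑ m ∈ range M, (1 / 2 ^ (m + 1) : ℝ) = 1 - 1 / 2 ^ M := by
      intro M
      induction M with
      | zero => simp
      | succ M ih => rw [sum_range_succ, ih, pow_succ]; field_simp; ring
    rw [h11]
    have : (0 : ℝ) < 1 / 2 ^ M := by positivity
    linarith
  calc ({T : SimpleGraph V | T.IsTree ∧ ¬ GoodTree T}.ncard : ℝ) ≤
      ((∑ m ∈ range M, (B m).card : ℕ) : ℝ) := by exact_mod_cast h5
    _ = ∑ m ∈ range M, ((B m).card : ℝ) := by push_cast; rfl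
    _ ≤ ∑ m ∈ range M, ε * ((LAB_.TS V).card : ℝ) * (1 / 2 ^ (m + 1)) :=
        sum_le_sum fun m _ => h6 m
    _ = ε * ((LAB_.TS V).card : ℝ) * ∑ m ∈ range M, (1 / 2 ^ (m + 1) : ℝ) := by rw [mul_sum]
    _ ≤ ε * ((LAB_.TS V).card : ℝ) * 1 :=
        mul_le_mul_of_nonneg_left h10 (by positivity)
    _ = _ := mul_one _

end Pool.Agent.TFin
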