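import Pool.Agent.TFin.Targets2

set_option autoImplicit false

/-!
# Large trees in tournaments (MP_d27362_co): the results
-/

namespace Pool.Agent.TFin

open Finset

namespace ALL_

/-- every counterexample contains a small one -/
lemma descent (h2 : T_INV) (h3 : T_TWIN) (N : ℕ)
    (hN : ∀ (V : Type) [Fintype V] [DecidableEq V] (T : SimpleGraph V), T.IsTree →
      N ≤ Fintype.card V → (∀ φ : T ≃g T, (∃ v, φ v = v) → ∀ v, φ v = v) → GoodTree T) :
    ∀ (n : ℕ) (V : Type) [Fintype V] [DecidableEq V] (T : SimpleGraph V), Fintype.card V = n →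
      T.IsTree → ¬ Twin.AntiSidorenko T →
      ∃ k < N, ∃ T₀ : SimpleGraph (Fin k), T₀.IsTree ∧ ¬ Twin.AntiSidorenko T₀ ∧
        Nonempty (T₀ ↪g T) := by
  classical
  intro n
  induction n using Nat.strong_induction_on with
  | _ n ih =>
  intro V _ _ T hcard hT hbad
  obtain ⟨hinv, hgood⟩ := h2
  by_cases hn : n < N
  · -- transport to `Fin n`
    let e : Fin n ≃ V := (Fintype.equivFinOfCardEq hcard).symm
    let T₀ : SimpleGraph (Fin n) := T.comap e
    have iso : T₀ ≃g T := SimpleGraph.Iso.comap e T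
    refine ⟨n, hn, T₀, ?_, ?_, ⟨iso.toEmbedding⟩⟩
    · exact iso.isTree_iff.2 hT
    · intro h
      exact hbad (hinv (Fin n) V T₀ T ⟨iso⟩ h)
  · push Not at hn
    have hex : ¬ (∀ φ : T ≃g T, (∃ v, φ v = v) → ∀ v, φ v = v) := by
      intro h
      have : Nonempty V := hT.1.nonempty
      exact hbad (hgood V T (hN V T hT (by omega) h))
    push Not at hex
    obtain ⟨φ, ⟨v, hv⟩, w, hw⟩ := hex
    obtain ⟨A, B, u, a, hA, hB, hTA, hTB, hiso⟩ := h3 V T hT φ v w hv hw
    have hAB : ¬ Twin.AntiSidorenko (T.induce A) ∨ ¬ Twin.AntiSidorenko (T.induce B) := by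
      by_contra hcon
      push Not at hcon
      exact hbad (hinv _ _ _ _ hiso (Twin.closure (T.induce A) u (T.induce B) a hcon.1 hcon.2))
    have key : ∀ C : Set V, C.ncard < Fintype.card V → (T.induce C).IsTree →
        ¬ Twin.AntiSidorenko (T.induce C) →
        ∃ k < N, ∃ T₀ : SimpleGraph (Fin k), T₀.IsTree ∧ ¬ Twin.AntiSidorenko T₀ ∧
          Nonempty (T₀ ↪g T) := by
      intro C hC hTC hbC
      have hc : Fintype.card C < n := by
        rw [← hcard, ← Nat.card_eq_fintype_card (α := C)]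
        exact hC
      obtain ⟨k, hk, T₀, h4, h5, ⟨f⟩⟩ := ih (Fintype.card C) hc C (T.induce C) rfl hTC hbC
      exact ⟨k, hk, T₀, h4, h5, ⟨(SimpleGraph.Embedding.induce C).comp f⟩⟩
    rcases hAB with h | h
    · exact key A hA hTA h
    · exact key B hB hTB h

end ALL_

open ALL_ in
/-- the results -/
theorem p_ALL (h1 : T_FIN) (h2 : T_INV) (h3 : T_TWIN) : T_ALL := by
  classical
  refine ⟨?_, ?_, ?_⟩
  · intro κ
    obtain ⟨N, hN⟩ := h1.1 κ
    refine ⟨N, ?_⟩
    intro n T hT hn hκ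
    have : Nonempty (Fin n) := hT.1.nonempty
    refine h2.2 (Fin n) T (hN (Fin n) T hT (by rwa [Fintype.card_fin]) ?_)
    intro m
    rw [Fintype.card_fin]
    exact hκ m
  · intro Δ
    obtain ⟨N, hN⟩ := h1.1 fun _ => Δ + 1
    refine ⟨N, ?_⟩
    intro n T hT hn hΔ
    have : Nonempty (Fin n) := hT.1.nonempty
    refine h2.2 (Fin n) T (hN (Fin n) T hT (by rwa [Fintype.card_fin]) ?_)
    intro m
    have : univ.filter (fun v : Fin n => Δ + 1 ≤ (T.neighborSet v).ncard) = ∅ := by
      apply Finset.filter_eq_empty_iff.2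
      intro v _
      have := hΔ v
      omega
    rw [this]
    simp
  · obtain ⟨N, hN⟩ := h1.2
    refine ⟨N, ?_, ?_⟩
    · intro n T hT hn h
      have : Nonempty (Fin n) := hT.1.nonempty
      exact h2.2 (Fin n) T (hN (Fin n) T hT (by rwa [Fintype.card_fin]) h)
    · intro n T hT hbad
      exact descent h2 h3 N hN n (Fin n) T (Fintype.card_fin n) hT hbad

end Pool.Agent.TFin
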