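import Pool.Agent.TFin.Targets
import Pool.Agent.TLT.BAS
import Pool.Agent.TLT.NRM

/-!
# Large trees in tournaments (MP_d27362_co), target BAN

Norms and the operator `S`.
-/

set_option autoImplicit false

namespace Pool.Agent.TFin

open Finset
open Pool.Agent.TLT (av Krn Sop dl xx)

namespace BAN_

variable {W : Type} [Fintype W]

theorem av_add (f g : W → ℝ) : (av fun y => f y + g y) = av f + av g := by
  simp only [av, sum_add_distrib, add_div]

theorem av_sub (f g : W → ℝ) : (av fun y => f y - g y) = av f - av g := by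
  simp only [av, sum_sub_distrib, sub_div]

theorem av_neg (f : W → ℝ) : (av fun y => - f y) = - av f := by
  simp only [av, sum_neg_distrib, neg_div]

theorem av_mul (c : ℝ) (f : W → ℝ) : (av fun y => c * f y) = c * av f := by
  simp only [av, ← mul_sum, mul_div_assoc]

theorem av_mono {f g : W → ℝ} (h : ∀ y, f y ≤ g y) : av f ≤ av g := by
  unfold av
  exact div_le_div_of_nonneg_right (sum_le_sum fun y _ => h y) (Nat.cast_nonneg _)

theorem av_nonneg {f : W → ℝ} (h : ∀ y, 0 ≤ f y) : 0 ≤ av f := by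
  unfold av
  exact div_nonneg (sum_nonneg fun y _ => h y) (Nat.cast_nonneg _)

theorem av_const [Nonempty W] (c : ℝ) : (av fun _ : W => c) = c := by
  unfold av
  have : (Fintype.card W : ℝ) ≠ 0 := by
    exact_mod_cast Fintype.card_ne_zero
  rw [sum_const, card_univ, nsmul_eq_mul]
  field_simp

theorem abs_av_le (f : W → ℝ) : |av f| ≤ n1 f := by
  unfold n1 av
  rw [abs_div, Nat.abs_cast]
  exact div_le_div_of_nonneg_right (abs_sum_le_sum_abs _ _) (Nat.cast_nonneg _)

theorem cs (f g : W → ℝ) : (av fun y => f y * g y) ^ 2 ≤ (av fun y => f y ^ 2) *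
    av fun y => g y ^ 2 := by
  unfold av
  rw [div_pow, div_mul_div_comm, ← sq]
  exact div_le_div_of_nonneg_right (sum_mul_sq_le_sq_mul_sq _ _ _) (sq_nonneg _)

theorem n2_nonneg (f : W → ℝ) : 0 ≤ n2 f := Real.sqrt_nonneg _

theorem n2_sq (f : W → ℝ) : n2 f ^ 2 = av fun y => f y ^ 2 :=
  Real.sq_sqrt (av_nonneg fun _ => sq_nonneg _)

theorem n2_le {f : W → ℝ} {M : ℝ} (hM : 0 ≤ M) (h : (av fun y => f y ^ 2) ≤ M ^ 2) :
    n2 f ≤ M := Real.sqrt_le_iff.mpr ⟨hM, h⟩

theorem n1_nonneg (f : W → ℝ) : 0 ≤ n1 f := av_nonneg fun _ => abs_nonneg _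

theorem abs_av_mul_le (f g : W → ℝ) : |av fun y => f y * g y| ≤ n2 f * n2 g := by
  apply abs_le_of_sq_le_sq' _ (mul_nonneg (n2_nonneg f) (n2_nonneg g)) |> abs_le.mpr
  rw [mul_pow, n2_sq, n2_sq]
  exact cs f g

theorem n2_abs (f : W → ℝ) : (n2 fun y => |f y|) = n2 f := by
  simp only [n2, sq_abs]

theorem n1_mul_le (f g : W → ℝ) : n1 (fun y => f y * g y) ≤ n2 f * n2 g := by
  have h := abs_av_mul_le (fun y => |f y|) (fun y => |g y|)
  rw [n2_abs, n2_abs] at h
  refine le_trans (le_trans (le_of_eq ?_) (le_abs_self _)) h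
  simp only [n1, abs_mul]

theorem n2_add (f g : W → ℝ) : n2 (fun y => f y + g y) ≤ n2 f + n2 g := by
  apply n2_le (add_nonneg (n2_nonneg f) (n2_nonneg g))
  have h1 : (av fun y => (f y + g y) ^ 2) =
      (av fun y => f y ^ 2) + 2 * (av fun y => f y * g y) + av fun y => g y ^ 2 := by
    rw [← av_mul, ← av_add, ← av_add]
    congr 1
    funext y
    ring
  have h2 := le_trans (le_abs_self _) (abs_av_mul_le f g)
  rw [h1, ← n2_sq, ← n2_sq]
  nlinarith

theorem n2_mul (c : ℝ) (f : W → ℝ) : n2 (fun y => c * f y) = |c| * n2 f := by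
  unfold n2
  have : (av fun y => (c * f y) ^ 2) = c ^ 2 * av fun y => f y ^ 2 := by
    rw [← av_mul]
    congr 1
    funext y
    ring
  rw [this, Real.sqrt_mul (sq_nonneg c), Real.sqrt_sq_eq_abs]

theorem n2_sub (f g : W → ℝ) : n2 (fun y => f y - g y) ≤ n2 f + n2 g := by
  have h1 := n2_add f (fun y => (-1) * g y)
  rw [n2_mul] at h1
  simpa [sub_eq_add_neg] using h1

theorem n2_zero : n2 (fun _ : W => (0 : ℝ)) = 0 := by
  have h := n2_mul 0 (fun _ : W => (0 : ℝ))
  simpa using h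

theorem n2_sum (I : Type) (s : Finset I) (f : I → W → ℝ) :
    n2 (fun y => ∑ i ∈ s, f i y) ≤ ∑ i ∈ s, n2 (f i) := by
  induction s using Finset.cons_induction with
  | empty => simp only [sum_empty, n2_zero, le_refl]
  | cons a s ha ih =>
    simp only [sum_cons]
    exact le_trans (n2_add (f a) (fun y => ∑ i ∈ s, f i y)) (add_le_add le_rfl ih)

theorem n1_add (f g : W → ℝ) : n1 (fun y => f y + g y) ≤ n1 f + n1 g := by
  unfold n1
  rw [← av_add]
  exact av_mono fun y => abs_add_le _ _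

theorem n1_mul (c : ℝ) (f : W → ℝ) : n1 (fun y => c * f y) = |c| * n1 f := by
  unfold n1
  rw [← av_mul]
  simp only [abs_mul]

theorem n1_sub (f g : W → ℝ) : n1 (fun y => f y - g y) ≤ n1 f + n1 g := by
  have h1 := n1_add f (fun y => (-1) * g y)
  rw [n1_mul] at h1
  simpa [sub_eq_add_neg] using h1

theorem n1_zero : n1 (fun _ : W => (0 : ℝ)) = 0 := by
  have h := n1_mul 0 (fun _ : W => (0 : ℝ))
  simpa using h

theorem n1_sum (I : Type) (s : Finset I) (f : I → W → ℝ) :
    n1 (fun y => ∑ i ∈ s, f i y) ≤ ∑ i ∈ s, n1 (f i) := by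
  induction s using Finset.cons_induction with
  | empty => simp only [sum_empty, n1_zero, le_refl]
  | cons a s ha ih =>
    simp only [sum_cons]
    exact le_trans (n1_add (f a) (fun y => ∑ i ∈ s, f i y)) (add_le_add le_rfl ih)

theorem n1_le_av {f g : W → ℝ} (h : ∀ y, |f y| ≤ g y) : n1 f ≤ av g := av_mono h

theorem n1_le_n2 [Nonempty W] (f : W → ℝ) : n1 f ≤ n2 f := by
  have h := n1_mul_le f (fun _ => 1)
  have h1 : n2 (fun _ : W => (1 : ℝ)) = 1 := by
    unfold n2
    rw [av_const]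
    norm_num
  simpa [h1] using h

theorem n_le_const [Nonempty W] (f : W → ℝ) (M : ℝ) (h : ∀ y, |f y| ≤ M) :
    n2 f ≤ M ∧ n1 f ≤ M := by
  have hM : 0 ≤ M := le_trans (abs_nonneg _) (h (Classical.arbitrary W))
  constructor
  · apply n2_le hM
    rw [← av_const (W := W) (M ^ 2)]
    apply av_mono
    intro y
    rw [← sq_abs (f y)]
    exact pow_le_pow_left₀ (abs_nonneg _) (h y) 2
  · have := n1_le_av h
    rwa [av_const] at this

theorem abs_Sop_le {K : W → W → ℝ} (hK : Krn K) (f : W → ℝ) (y : W) : |Sop K f y| ≤ n1 f := by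
  have h0 : Sop K f y = av fun z => (K y z - 1) * f z := rfl
  rw [h0]
  refine le_trans (abs_av_le _) (n1_le_av fun z => ?_)
  rw [abs_mul]
  have h1 : |K y z - 1| ≤ 1 := by
    rw [abs_le]
    have := hK.nonneg y z
    have := hK.nonneg z y
    have := hK.add y z
    constructor <;> linarith
  nlinarith [abs_nonneg (f z)]

theorem msg (K : W → W → ℝ) (f : W → ℝ) (e : ℝ) (y : W) :
    av f + e * Sop K f y = av fun z => (1 + e * (K y z - 1)) * f z := by
  have h0 : Sop K f y = av fun z => (K y z - 1) * f z := rfl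
  rw [h0, ← av_mul, ← av_add]
  congr 1
  funext z
  ring

omit [Fintype W] in
theorem coef {K : W → W → ℝ} (hK : Krn K) (e : ℝ) (he : e = 1 ∨ e = -1) (y z : W) :
    0 ≤ 1 + e * (K y z - 1) ∧ 1 + e * (K y z - 1) ≤ 2 := by
  have h1 := hK.nonneg y z
  have h2 := hK.nonneg z y
  have h3 := hK.add y z
  rcases he with rfl | rfl <;> constructor <;> linarith

theorem skew [Nonempty W] {K : W → W → ℝ} (hK : Krn K) (f g : W → ℝ) :
    (av fun y => Sop K f y * g y) = - av fun y => f y * Sop K g y :=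
  (TLT.p_BAS W K hK).2.1 f g

theorem n2_Sop [Nonempty W] {K : W → W → ℝ} (hK : Krn K) (f : W → ℝ) :
    n2 (Sop K f) ≤ 5 / 7 * n2 f := by
  apply n2_le (mul_nonneg (by norm_num) (n2_nonneg f))
  have h := TLT.p_NRM TLT.p_BAS W K hK f
  rw [mul_pow, n2_sq]
  have h0 : 0 ≤ av fun y => f y ^ 2 := av_nonneg fun _ => sq_nonneg _
  linarith

theorem abs_dl [Nonempty W] {K : W → W → ℝ} (hK : Krn K) (y : W) : |dl K y| ≤ 1 := by
  have h := abs_Sop_le hK (fun _ => 1) y
  have h1 : n1 (fun _ : W => (1 : ℝ)) = 1 := by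
    unfold n1
    rw [av_const]
    norm_num
  rwa [h1] at h

theorem n2_iter [Nonempty W] {K : W → W → ℝ} (hK : Krn K) (j : ℕ) :
    n2 ((Sop K)^[j] (dl K)) ≤ (5 / 7 : ℝ) ^ j * del K := by
  induction j with
  | zero =>
    simp only [Function.iterate_zero, id_eq, pow_zero, one_mul]
    exact le_rfl
  | succ j ih =>
    rw [Function.iterate_succ_apply']
    refine le_trans (n2_Sop hK _) ?_
    rw [pow_succ]
    nlinarith

end BAN_

open BAN_ in
theorem p_BAN : T_BAN := by
  intro W _ _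
  refine ⟨n2_add, n2_sub, n2_mul, n2_sum, fun f => ⟨n2_nonneg f, n2_sq f⟩, n1_add, n1_sub, n1_mul,
    n1_sum, fun f => ⟨n1_nonneg f, n1_le_n2 f, abs_av_le f⟩, fun f g h => n1_le_av h, n_le_const,
    fun f g => ⟨n1_mul_le f g, abs_av_mul_le f g⟩, fun K hK => ?_⟩
  have hxx : del K ^ 2 = xx K := n2_sq (dl K)
  refine ⟨abs_Sop_le hK, fun f => ⟨n2_Sop hK f, (n_le_const _ _ (abs_Sop_le hK f)).1⟩, ?_, skew hK,
    ?_, ?_, abs_dl hK, ?_, rfl, Real.sqrt_nonneg _, hxx, ?_, ?_, n2_iter hK, ?_⟩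
  · intro f
    have h := skew hK f (fun _ => 1)
    have h1 : (av fun y => Sop K f y * 1) = av (Sop K f) := by
      simp only [mul_one]
    rw [h1] at h
    rw [h]
    congr 2
    funext y
    exact mul_comm _ _
  · intro f g h e he y
    rw [msg, msg]
    exact av_mono fun z => mul_le_mul_of_nonneg_left (h z) (coef hK e he y z).1
  · intro f h e he y
    rw [msg, ← av_mul]
    exact ⟨av_nonneg fun z => mul_nonneg (coef hK e he y z).1 (h z),
      av_mono fun z => mul_le_mul_of_nonneg_right (coef hK e he y z).2 (h z)⟩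
  · exact (TLT.p_BAS W K hK).2.2.1
  · exact av_nonneg fun _ => sq_nonneg _
  · have h : xx K ≤ av fun _ : W => (1 : ℝ) := av_mono fun y => by
      have h1 := abs_dl hK y
      rw [← sq_abs]
      exact pow_le_one₀ (abs_nonneg _) h1
    rwa [av_const] at h
  · intro j y
    rw [Function.iterate_succ_apply']
    exact le_trans (abs_Sop_le hK _ y) (le_trans (n1_le_n2 _) (n2_iter hK j))

end Pool.Agent.TFin
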