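import Pool.Agent.TFin.REC

/-!
# Large trees in tournaments (MP_d27362_co), target COD

Trees whose siblings have different codes are tame.
-/

set_option autoImplicit false

namespace Pool.Agent.TFin

open Finset

namespace COD_

/-- the codes of the branches with at most `M` vertices -/
def CC : ℕ → Finset ℕ
  | 0 => ∅
  | M + 1 => ((M • (CC M).val).powerset.toFinset).image Encodable.encode

theorem mem_CC (M : ℕ) (s : Multiset ℕ) (h1 : Multiset.card s ≤ M) (h2 : ∀ x ∈ s, x ∈ CC M) :
    Encodable.encode s ∈ CC (M + 1) := by
  rw [CC]
  apply mem_image_of_mem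
  rw [Multiset.mem_toFinset, Multiset.mem_powerset, Multiset.le_iff_count]
  intro a
  by_cases ha : a ∈ s
  · rw [Multiset.count_nsmul, Multiset.count_eq_one_of_mem (CC M).nodup (h2 a ha)]
    have := Multiset.count_le_card a s
    omega
  · rw [Multiset.count_eq_zero_of_notMem ha]
    exact Nat.zero_le _

variable {V : Type} [Fintype V] [DecidableEq V] {par : V → V} {dep : V → ℕ} {r : V}

theorem total (h : RT par dep r) (a w : V → ℕ)
    (hw : ∀ v, w v = a v + ∑ c ∈ ch par r v, w c) : w r = ∑ v, a v := by
  have h6 := (p_REC V par dep r h).2.2.2.2.2 ∅ (notMem_empty r) (fun v => (a v : ℝ))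
    (fun v => (w v : ℝ)) (fun v => by
      have := hw v
      have h1 : (w v : ℝ) = ((a v + ∑ c ∈ ch par r v, w c : ℕ) : ℝ) := by rw [← this]
      rw [sdiff_empty]
      rw [h1]
      push_cast
      rfl)
  have h7 : insert r (∅ : Finset V) = {r} := rfl
  rw [h7, sum_singleton] at h6
  exact_mod_cast h6

theorem exists_w (h : RT par dep r) (a : V → ℕ) :
    ∃ w : V → ℕ, ∀ v, w v = a v + ∑ c ∈ ch par r v, w c :=
  (p_REC V par dep r h).2.2.2.1 ℕ ⟨0⟩ (fun v g => a v + ∑ c ∈ ch par r v, g c)
    (fun v g g' hg => by
      show a v + ∑ c ∈ ch par r v, g c = a v + ∑ c ∈ ch par r v, g' c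
      rw [sum_congr rfl hg])

theorem code_mem (code b : V → ℕ)
    (hcode : ∀ v, code v = Encodable.encode (Multiset.map code (ch par r v).val))
    (hb : ∀ v, b v = 1 + ∑ c ∈ ch par r v, b c) (M : ℕ) : ∀ v, b v ≤ M → code v ∈ CC M := by
  induction M with
  | zero =>
    intro v hv
    have := hb v
    omega
  | succ M ih =>
    intro v hv
    have hv2 : ∑ c ∈ ch par r v, b c ≤ M := by
      have := hb v
      omega
    rw [hcode v]
    apply mem_CC
    · rw [Multiset.card_map]
      have h1 : (ch par r v).card ≤ ∑ c ∈ ch par r v, b c := by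
        rw [card_eq_sum_ones]
        apply sum_le_sum
        intro c _
        have := hb c
        omega
      have h2 : Multiset.card (ch par r v).val = (ch par r v).card := rfl
      omega
    · intro x hx
      rw [Multiset.mem_map] at hx
      obtain ⟨c, hc, rfl⟩ := hx
      apply ih
      have : b c ≤ ∑ c ∈ ch par r v, b c :=
        single_le_sum (f := b) (fun _ _ => Nat.zero_le _) hc
      omega

theorem tame (h : RT par dep r) (code : V → ℕ)
    (hcode : ∀ v, code v = Encodable.encode (Multiset.map code (ch par r v).val))
    (hinj : ∀ v, ∀ c ∈ ch par r v, ∀ c' ∈ ch par r v, code c = code c' → c = c') :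
    Tame (fun m => 2 * (CC (4 * m)).card + 4) par r := by
  intro m
  obtain ⟨b, hb⟩ := exists_w h (fun _ => 1)
  have hbr : b r = Fintype.card V := by
    rw [total h _ b hb]
    simp
  set M := 4 * m with hM
  set g : V → ℕ := fun v => ((ch par r v).filter (fun c => M < b c)).card with hg
  obtain ⟨S, hS⟩ := exists_w h (fun v => g v - 1)
  obtain ⟨L, hL⟩ := exists_w h (fun v => if M < b v ∧ g v = 0 then 1 else 0)
  have hSr := total h _ S hS
  -- degrees
  have hdeg : ∀ v, (ch par r v).card ≤ (CC M).card + g v := by
    intro v
    have h1 : ((ch par r v).filter (fun c => ¬ M < b c)).card ≤ (CC M).card := by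
      apply card_le_card_of_injOn code
      · intro c hc
        rw [mem_coe, mem_filter] at hc
        exact code_mem code b hcode hb M c (by omega)
      · intro c hc c' hc' hcc
        rw [mem_coe, mem_filter] at hc hc'
        exact hinj v c hc.1 c' hc'.1 hcc
    have h2 := card_filter_add_card_filter_not (s := ch par r v) (fun c => M < b c)
    have h3 : g v = ((ch par r v).filter (fun c => M < b c)).card := rfl
    omega
  have hbc : ∀ v, ∀ c ∈ ch par r v, b c < b v := by
    intro v c hc
    have h1 : b c ≤ ∑ c ∈ ch par r v, b c :=
      single_le_sum (f := b) (fun _ _ => Nat.zero_le _) hc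
    have := hb v
    omega
  -- structure of the big vertices
  have key : ∀ v, (b v ≤ M → S v = 0 ∧ L v = 0) ∧ (M < b v → S v + 1 = L v) := by
    apply (p_REC V par dep r h).2.1
    intro v ih
    constructor
    · intro hv
      have h1 : g v = 0 := by
        rw [hg]
        simp only [card_eq_zero]
        rw [filter_eq_empty_iff]
        intro c hc
        have := hbc v c hc
        omega
      have h2 : ∑ c ∈ ch par r v, S c = 0 := sum_eq_zero fun c hc =>
        ((ih c hc).1 (by have := hbc v c hc; omega)).1
      have h3 : ∑ c ∈ ch par r v, L c = 0 := sum_eq_zero fun c hc =>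
        ((ih c hc).1 (by have := hbc v c hc; omega)).2
      have h4 := hS v
      have h5 := hL v
      rw [if_neg (by omega)] at h5
      omega
    · intro hv
      have h6 : ∑ c ∈ ch par r v, L c = ∑ c ∈ ch par r v, S c + g v := by
        have h7 : g v = ∑ c ∈ ch par r v, if M < b c then 1 else 0 := by
          rw [hg]
          simp only [card_filter]
        rw [h7, ← sum_add_distrib]
        apply sum_congr rfl
        intro c hc
        by_cases hcb : M < b c
        · rw [if_pos hcb]
          exact ((ih c hc).2 hcb).symm
        · rw [if_neg hcb]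
          have := (ih c hc).1 (by omega)
          omega
      have h4 := hS v
      have h5 := hL v
      by_cases hg0 : g v = 0
      · rw [if_pos ⟨hv, hg0⟩] at h5
        have h8 : ∑ c ∈ ch par r v, S c = 0 := by
          apply sum_eq_zero
          intro c hc
          have h9 : ¬ M < b c := by
            intro hcb
            have h10 : c ∈ (ch par r v).filter (fun c => M < b c) := mem_filter.mpr ⟨hc, hcb⟩
            have h11 : 0 < ((ch par r v).filter (fun c => M < b c)).card := card_pos.mpr ⟨c, h10⟩
            have h12 : g v = ((ch par r v).filter (fun c => M < b c)).card := rfl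
            omega
          exact ((ih c hc).1 (by omega)).1
        omega
      · rw [if_neg (by omega)] at h5
        omega
  have hML : ∀ v, M * L v ≤ b v := by
    apply (p_REC V par dep r h).2.1
    intro v ih
    have h5 := hL v
    have h13 : M * ∑ c ∈ ch par r v, L c ≤ ∑ c ∈ ch par r v, b c := by
      rw [mul_sum]
      exact sum_le_sum ih
    by_cases hc : M < b v ∧ g v = 0
    · rw [if_pos hc] at h5
      have h8 : ∑ c ∈ ch par r v, L c = 0 := by
        apply sum_eq_zero
        intro c hcc
        have h9 : ¬ M < b c := by
          intro hcb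
          have h10 : c ∈ (ch par r v).filter (fun c => M < b c) := mem_filter.mpr ⟨hcc, hcb⟩
          have h11 : 0 < ((ch par r v).filter (fun c => M < b c)).card := card_pos.mpr ⟨c, h10⟩
          have h12 : g v = ((ch par r v).filter (fun c => M < b c)).card := rfl
          omega
        exact ((key c).1 (by omega)).2
      rw [h5, h8]
      omega
    · rw [if_neg hc] at h5
      rw [h5, zero_add]
      have := hb v
      omega
  have hSL : S r ≤ L r := by
    have h1 := key r
    by_cases hr : M < b r
    · have := h1.2 hr
      omega
    · have := h1.1 (by omega)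
      omega
  have h20 : ∑ v ∈ univ.filter (fun v => 2 * (CC M).card + 4 ≤ (ch par r v).card),
      (ch par r v).card ≤ 4 * ∑ v, (g v - 1) := by
    rw [mul_sum]
    apply le_trans _ (sum_le_sum_of_subset (filter_subset (fun v =>
      2 * (CC M).card + 4 ≤ (ch par r v).card) univ))
    apply sum_le_sum
    intro v hv
    rw [mem_filter] at hv
    have := hdeg v
    omega
  calc m * ∑ v ∈ univ.filter (fun v => 2 * (CC M).card + 4 ≤ (ch par r v).card),
      (ch par r v).card ≤ m * (4 * ∑ v, (g v - 1)) := Nat.mul_le_mul_left _ h20
    _ = M * S r := by rw [hSr, hM]; ring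
    _ ≤ M * L r := Nat.mul_le_mul_left _ hSL
    _ ≤ b r := hML r
    _ = Fintype.card V := hbr

end COD_

theorem p_COD : T_COD :=
  ⟨fun m => 2 * (COD_.CC (4 * m)).card + 4, fun _ _ _ _ _ _ h code hcode hinj =>
    COD_.tame h code hcode hinj⟩

end Pool.Agent.TFin
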