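import Pool.Agent.TFin.Targets
import Pool.Agent.TLT.BAS
import Pool.Agent.TLT.KER
import Pool.Agent.TLT.ELIM

/-!
# Large trees in tournaments (MP_d27362_co), target CONV

From simple graphs to rooted trees and back.
-/

set_option autoImplicit false

namespace Pool.Agent.TFin

open Finset
open Pool.Agent.TLT (av Krn Sop dl xx)

open Classical in
theorem p_CONV : T_CONV := by
  intro V _ _ T hT r
  obtain ⟨par, hb, ha1, ha2⟩ := AntiSid.exists_parent hT r
  have hadj : ∀ u v, T.Adj u v → (u ≠ r ∧ par u = v) ∨ (v ≠ r ∧ par v = u) :=
    fun u v huv => AntiSid.adj_iff_parent hT r par ha1 ha2 huv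
  have hdist1 : ∀ v, T.dist v (par v) ≤ 1 := by
    intro v
    by_cases hv : v = r
    · subst hv; rw [hb, SimpleGraph.dist_self]; omega
    · have := SimpleGraph.dist_le (ha1 v hv).toWalk
      simpa using this
  have hexact : ∀ v, v ≠ r → T.dist v r = T.dist (par v) r + 1 := by
    intro v hv
    have h3 := ha2 v hv
    have h4 := hT.1.dist_triangle (u := v) (v := par v) (w := r)
    have h5 := hdist1 v
    omega
  refine ⟨par, fun v => T.dist v r, ⟨SimpleGraph.dist_self, hexact⟩, ?_, ?_, ?_⟩
  · intro u v
    refine ⟨hadj u v, ?_⟩
    rintro (⟨h3, h4⟩ | ⟨h3, h4⟩)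
    · rw [← h4]; exact ha1 u h3
    · rw [← h4]; exact (ha1 v h3).symm
  · intro v
    rw [← Set.ncard_coe_finset]
    apply Set.ncard_le_ncard _ (Set.toFinite _)
    intro c hc
    rw [Finset.mem_coe] at hc
    simp only [ch, mem_filter, mem_univ, true_and] at hc
    rw [SimpleGraph.mem_neighborSet, ← hc.2]
    exact (ha1 c hc.1).symm
  · rintro ⟨ε, hε, hmain⟩
    set o : V → Bool := fun c => if ε c = 1 then true else false with ho
    set o' : V → Bool := fun c => !o c with ho'
    refine ⟨AntiSid.dirOf r par o', ?_, ?_, ?_⟩
    · intro u v huv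
      rcases hadj u v huv with h | h
      · cases hou : o' u
        · right; right; exact ⟨h.1, h.2, hou⟩
        · left; left; exact ⟨h.1, h.2, hou⟩
      · cases hov : o' v
        · left; right; exact ⟨h.1, h.2, hov⟩
        · right; left; exact ⟨h.1, h.2, hov⟩
    · intro u v huv
      constructor
      · rcases huv with ⟨h3, h4, _⟩ | ⟨h3, h4, _⟩
        · rw [← h4]; exact ha1 u h3
        · rw [← h4]; exact (ha1 v h3).symm
      · intro hvu
        rcases huv with ⟨h3, h4, h5⟩ | ⟨h3, h4, h5⟩ <;>
          rcases hvu with ⟨h6, h7, h8⟩ | ⟨h6, h7, h8⟩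
        · have h9 := hexact u h3
          have h10 := hexact v h6
          rw [h4] at h9; rw [h7] at h10; omega
        · rw [h5] at h8; exact Bool.noConfusion h8
        · rw [h5] at h8; exact Bool.noConfusion h8
        · have h9 := hexact v h3
          have h10 := hexact u h6
          rw [h4] at h9; rw [h7] at h10; omega
    · intro W _ G hne hG
      have hRt : TLT.Rt par (fun v => T.dist v r) (univ : Finset V) r :=
        ⟨mem_univ _, fun _ _ _ => mem_univ _, fun v _ hv => ha2 v hv⟩
      obtain ⟨F, hF, hsum⟩ := TLT.p_ELIM V par (fun v => T.dist v r) univ r hRt W G o hG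
      have hK := TLT.p_KER W G hG
      obtain ⟨-, -, -, hKt, hKf, -⟩ := TLT.p_BAS W (TLT.KG G) hK
      have hval : IsVal par r ∅ ε (TLT.KG G) F := by
        intro v y
        rw [hF v (mem_univ _), sdiff_empty]
        apply prod_congr rfl
        intro c _
        rcases hε c with h | h
        · have : o c = true := by simp [ho, h]
          rw [this, hKt, h, one_mul]
        · have : o c = false := by
            simp only [ho]
            rw [if_neg (by rw [h]; norm_num)]
          rw [this, hKf, h]
          ring
      have hle := hmain W (TLT.KG G) hK F hval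
      have hpos : 0 ≤ (Fintype.card W : ℝ) ^ (Fintype.card V) *
          (1 / 2) ^ ((univ : Finset V).card - 1) := by positivity
      have h3 := hsum.trans (mul_le_of_le_one_right hpos hle)
      have h4 : ∑ f : V → W, AntiSid.FS G par o' Finset.univ r f =
          ({f : V → W | ∀ u v, AntiSid.dirOf r par o' u v → G (f u) (f v)}.ncard : ℝ) := by
        rw [Finset.sum_congr rfl fun f _ => AntiSid.FS_eq W G r par o' f, Finset.sum_boole]
        congr 1
        rw [← Set.ncard_coe_finset]
        congr 1
        ext f
        simp
      rw [h4] at h3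
      have h5 : T.edgeSet.ncard = Fintype.card V - 1 := by
        have h6 := hT.card_edgeFinset
        have h7 : T.edgeSet.ncard = T.edgeFinset.card := by
          rw [← Set.ncard_coe_finset]
          congr 1
          simp
        omega
      rw [h5]
      simpa using h3

end Pool.Agent.TFin
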