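import Pool.Agent.TFin.Targets

set_option autoImplicit false

/-!
# Large trees in tournaments (MP_d27362_co): tame trees
-/

namespace Pool.Agent.TFin

open Finset
open Pool.Agent.TLT (av Krn Sop dl xx)

/-- tame trees -/
theorem p_CORE (h1 : T_PBR) (h2 : T_PA) (h3 : T_LAYX) (h4 : T_LAYF) (h5 : T_CUBE) : T_CORE := by
  intro κ
  set cs : ℝ := 1 / (16 * (κ 16 + 1)) with hcs
  have hcs0 : 0 < cs := by positivity
  obtain ⟨d₀, N1, hd0, H1⟩ := h1 κ cs hcs0
  obtain ⟨N2, H2⟩ := h2 κ cs d₀ hcs0 hd0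
  refine ⟨max 12 (max N1 N2), ?_⟩
  intro V _ _ par dep r hRT htame hN
  have hN12 : 12 ≤ Fintype.card V := le_trans (le_max_left _ _) hN
  have hN1 : N1 ≤ Fintype.card V := le_trans (le_trans (le_max_left _ _) (le_max_right _ _)) hN
  have hN2 : N2 ≤ Fintype.card V := le_trans (le_trans (le_max_right _ _) (le_max_right _ _)) hN
  obtain ⟨π, lab, sn, B, hlay, hcount⟩ := h3 V par dep r κ hRT htame hN12
  have hcnt : cs * Fintype.card V ≤
      (univ.filter fun v => 2 ≤ (ch par r v).card).card + B.card := by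
    have h6 : (Fintype.card V : ℝ) ≤ 16 * (κ 16 + 1) *
        ((univ.filter fun v => 2 ≤ (ch par r v).card).card + B.card) := by
      exact_mod_cast hcount
    rw [hcs, one_div, inv_mul_le_iff₀ (by positivity)]
    exact h6
  obtain ⟨D1, hD1, hE1, hK1⟩ := H1 V par dep r π lab sn B hRT htame hlay hN1 hcnt
  obtain ⟨D2, hD2, hE2, hK2⟩ := H2 V par dep r π lab sn B hRT htame hlay hN2 hcnt
  obtain ⟨hlin, -, -, -, -, hex, -⟩ := h5 V
  have hE : Ex (fun ζ => 1 * D1 ζ + 1 * D2 ζ) < 1 := by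
    rw [hlin 1 1 D1 D2]
    linarith
  obtain ⟨ζ, hζ⟩ := hex _ hE
  have h7 := hD1 ζ
  have h8 := hD2 ζ
  refine ⟨sg lab sn ζ, ((h4 V par dep r π lab sn B hRT hlay).1 ζ).1, ?_⟩
  intro W _ _ K hK F hF
  rcases le_total (xx K) d₀ with h | h
  · exact hK1 ζ (by linarith) W K hK h F hF
  · exact hK2 ζ (by linarith) W K hK h F hF

end Pool.Agent.TFin
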