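import Pool.Agent.TFin.Targets

/-!
# Target CUBE: expectations over bits
-/

set_option autoImplicit false

namespace Pool.Agent.TFin

open Finset
open Pool.Agent.TLT (av Krn Sop dl xx)

namespace CUBE_

variable {V : Type} [Fintype V] [DecidableEq V]

theorem card_bits : (Fintype.card (V → Bool) : ℝ) = 2 ^ Fintype.card V := by
  rw [Fintype.card_fun, Fintype.card_bool]
  push_cast
  rfl

theorem flip_flip (D : Finset V) (ζ : V → Bool) : flipS D (flipS D ζ) = ζ := by
  funext l
  unfold flipS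
  by_cases h : l ∈ D <;> simp [h]

theorem ex_flip (D : Finset V) (F : (V → Bool) → ℝ) : Ex (fun ζ => F (flipS D ζ)) = Ex F := by
  unfold Ex
  congr 1
  have h : Function.Involutive (flipS D) := flip_flip D
  exact Equiv.sum_comp h.toPerm F

theorem ex_mono (F G : (V → Bool) → ℝ) (h : ∀ ζ, F ζ ≤ G ζ) : Ex F ≤ Ex G := by
  unfold Ex
  exact div_le_div_of_nonneg_right (Finset.sum_le_sum fun ζ _ => h ζ) (by positivity)

theorem ex_const (a : ℝ) : Ex (fun _ : V → Bool => a) = a := by
  unfold Ex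
  rw [Finset.sum_const, Finset.card_univ, nsmul_eq_mul, card_bits]
  field_simp

theorem ex_lin (a b : ℝ) (F G : (V → Bool) → ℝ) :
    Ex (fun ζ => a * F ζ + b * G ζ) = a * Ex F + b * Ex G := by
  unfold Ex
  rw [Finset.sum_add_distrib, ← Finset.mul_sum, ← Finset.mul_sum]
  ring

/-- mixing of two assignments -/
def mix (D : Finset V) (z z' : V → Bool) : V → Bool := fun l => if l ∈ D then z l else z' l

theorem mix_mix (D : Finset V) (z z' : V → Bool) : mix D (mix D z z') (mix D z' z) = z := by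
  funext l
  unfold mix
  by_cases h : l ∈ D <;> simp [h]

theorem ex_indep (D : Finset V) (F G : (V → Bool) → ℝ)
    (hF : ∀ ζ ζ', (∀ l ∈ D, ζ l = ζ' l) → F ζ = F ζ')
    (hG : ∀ ζ ζ', (∀ l, l ∉ D → ζ l = ζ' l) → G ζ = G ζ') :
    Ex (fun ζ => F ζ * G ζ) = Ex F * Ex G := by
  have hinv : Function.Involutive
      (fun p : (V → Bool) × (V → Bool) => (mix D p.1 p.2, mix D p.2 p.1)) := by
    intro p
    ext1
    · exact mix_mix D p.1 p.2
    · exact mix_mix D p.2 p.1
  have h1 : (∑ p : (V → Bool) × (V → Bool), F p.1 * G p.2) =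
      ∑ p : (V → Bool) × (V → Bool), F (mix D p.1 p.2) * G (mix D p.1 p.2) := by
    refine Finset.sum_congr rfl fun p _ => ?_
    congr 1
    · refine hF _ _ fun l hl => ?_
      simp [mix, hl]
    · refine hG _ _ fun l hl => ?_
      simp [mix, hl]
  have h2 : (∑ p : (V → Bool) × (V → Bool), F (mix D p.1 p.2) * G (mix D p.1 p.2)) =
      ∑ p : (V → Bool) × (V → Bool), F p.1 * G p.1 :=
    Equiv.sum_comp hinv.toPerm (fun p : (V → Bool) × (V → Bool) => F p.1 * G p.1)
  have h3 : (∑ p : (V → Bool) × (V → Bool), F p.1 * G p.2) = (∑ z, F z) * ∑ z, G z := by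
    rw [Fintype.sum_prod_type, Finset.sum_mul_sum]
  have h4 : (∑ p : (V → Bool) × (V → Bool), F p.1 * G p.1) =
      2 ^ Fintype.card V * ∑ z, F z * G z := by
    rw [Fintype.sum_prod_type]
    simp only [Finset.sum_const, Finset.card_univ, nsmul_eq_mul, card_bits]
    rw [← Finset.mul_sum]
  have h5 : (∑ z, F z) * ∑ z, G z = 2 ^ Fintype.card V * ∑ z, F z * G z := by
    rw [← h3, h1, h2, h4]
  unfold Ex
  have h6 : (2 : ℝ) ^ Fintype.card V ≠ 0 := by positivity
  rw [div_mul_div_comm, h5]
  field_simp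

theorem ex_prod {I : Type} [DecidableEq I] (D : I → Finset V)
    (F : I → (V → Bool) → ℝ) (s : Finset I) :
    (∀ i ∈ s, ∀ ζ ζ', (∀ l ∈ D i, ζ l = ζ' l) → F i ζ = F i ζ') →
    (∀ i ∈ s, ∀ j ∈ s, i ≠ j → Disjoint (D i) (D j)) →
    Ex (fun ζ => ∏ i ∈ s, F i ζ) = ∏ i ∈ s, Ex (F i) := by
  induction s using Finset.induction_on with
  | empty =>
    intro _ _
    simp only [Finset.prod_empty]
    exact ex_const 1
  | insert a s ha ih =>
    intro h1 h2
    simp only [Finset.prod_insert ha]
    rw [← ih (fun i hi => h1 i (Finset.mem_insert_of_mem hi))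
      (fun i hi j hj => h2 i (Finset.mem_insert_of_mem hi) j (Finset.mem_insert_of_mem hj))]
    refine ex_indep (D a) (F a) (fun ζ => ∏ i ∈ s, F i ζ)
      (h1 a (Finset.mem_insert_self a s)) ?_
    intro ζ ζ' h
    refine Finset.prod_congr rfl fun i hi => ?_
    refine h1 i (Finset.mem_insert_of_mem hi) ζ ζ' fun l hl => h l ?_
    have hne : i ≠ a := fun h => ha (h ▸ hi)
    exact Finset.disjoint_left.mp
      (h2 i (Finset.mem_insert_of_mem hi) a (Finset.mem_insert_self a s) hne) hl

end CUBE_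

open CUBE_

theorem p_CUBE : T_CUBE := by
  intro V _ _
  refine ⟨ex_lin, ?_, ex_mono, ex_const, ?_, ?_, ex_flip, ?_, ?_, ?_⟩
  · intro I s F
    unfold Ex
    rw [Finset.sum_comm, Finset.sum_div]
  · intro F
    unfold Ex
    rw [abs_div, abs_of_pos (by positivity : (0 : ℝ) < 2 ^ Fintype.card V)]
    exact div_le_div_of_nonneg_right (Finset.abs_sum_le_sum_abs _ _) (by positivity)
  · intro F hF
    by_contra hcon
    push Not at hcon
    have := ex_mono (fun _ => 1) F hcon
    rw [ex_const] at this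
    linarith
  · intro D F hF
    have h1 := ex_flip D F
    have h2 : Ex (fun ζ => F (flipS D ζ)) = - Ex F := by
      have h3 := ex_lin (-1) 0 F F
      have h4 : (fun ζ => F (flipS D ζ)) = fun ζ => (-1) * F ζ + 0 * F ζ := by
        funext ζ
        rw [hF]
        ring
      rw [h4, h3]
      ring
    linarith
  · intro W _ F
    unfold Ex av
    rw [← Finset.sum_div, ← Finset.sum_div, Finset.sum_comm, div_div, div_div,
      mul_comm (Fintype.card W : ℝ)]
  · intro I _ s D F h1 h2
    exact ex_prod D F s h1 h2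

end Pool.Agent.TFin
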