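import Pool.Agent.TFin.REC

/-!
# Large trees in tournaments (MP_d27362_co), target CUTA

Cutting a tree into pieces of bounded size.
-/

set_option autoImplicit false

namespace Pool.Agent.TFin

open Finset

namespace CUTA_

variable {V : Type} [Fintype V] [DecidableEq V] {par : V → V} {dep : V → ℕ} {r : V}

omit [DecidableEq V] in
theorem exists_class (dep : V → ℕ) (S : ℕ) (hS : 0 < S) :
    ∃ a < S, S * (univ.filter fun v : V => dep v % S = a).card ≤ Fintype.card V := by
  by_contra hcon
  push Not at hcon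
  have h1 : (univ : Finset V).card = ∑ a ∈ range S,
      ((univ : Finset V).filter fun v => dep v % S = a).card :=
    card_eq_sum_card_fiberwise (fun v _ => mem_coe.mpr (mem_range.mpr (Nat.mod_lt _ hS)))
  have h2 : ∑ _a ∈ range S, Fintype.card V < ∑ a ∈ range S,
      S * ((univ : Finset V).filter fun v => dep v % S = a).card :=
    sum_lt_sum_of_nonempty ⟨0, mem_range.mpr hS⟩ fun a ha => hcon a (mem_range.mp ha)
  rw [sum_const, card_range, ← mul_sum, ← h1, card_univ, smul_eq_mul] at h2
  exact lt_irrefl _ h2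

theorem cut_card (A : Finset V) (k : ℕ) :
    ((univ.filter fun v => v ≠ r ∧ (v ∈ A ∨ k ≤ (ch par r (par v)).card)).card) ≤
      A.card + ∑ v ∈ univ.filter (fun v => k ≤ (ch par r v).card), (ch par r v).card := by
  have h1 : (univ.filter fun v => v ≠ r ∧ (v ∈ A ∨ k ≤ (ch par r (par v)).card)) ⊆
      A ∪ (univ.filter (fun v => k ≤ (ch par r v).card)).biUnion (fun v => ch par r v) := by
    intro v hv
    rw [mem_filter] at hv
    obtain ⟨_, hvr, hv2⟩ := hv
    rw [mem_union]
    rcases hv2 with h | h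
    · exact Or.inl h
    · right
      rw [mem_biUnion]
      exact ⟨par v, mem_filter.mpr ⟨mem_univ _, h⟩, REC_.mem_ch.mpr ⟨hvr, rfl⟩⟩
  exact (card_le_card h1).trans ((card_union_le _ _).trans
    (Nat.add_le_add_left card_biUnion_le _))

end CUTA_

theorem p_CUTA : T_CUTA := by
  intro κ η hη
  obtain ⟨m, hm⟩ := exists_nat_gt (2 / η)
  have hm0 : (0 : ℝ) < m := lt_trans (by positivity) hm
  have hmN : 0 < m := by exact_mod_cast hm0
  have hmη : 2 ≤ η * m := by
    rw [div_lt_iff₀ hη] at hm
    linarith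
  refine ⟨m, κ m, ?_⟩
  intro V _ _ par dep r h hT
  obtain ⟨a, ha, hcard⟩ := CUTA_.exists_class dep m hmN
  set A : Finset V := univ.filter fun v : V => dep v % m = a with hA
  refine ⟨univ.filter fun v => v ≠ r ∧ (v ∈ A ∨ κ m ≤ (ch par r (par v)).card),
    fun v => (a + (m - 1) * (dep v + 1)) % m, ?_, ?_, ?_, fun v => Nat.mod_lt _ hmN, ?_⟩
  · simp
  · have h1 := CUTA_.cut_card (par := par) (r := r) A (κ m)
    have h2 := hT m
    have h3 : m * ((univ.filter fun v => v ≠ r ∧
        (v ∈ A ∨ κ m ≤ (ch par r (par v)).card)).card) ≤ 2 * Fintype.card V := by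
      calc _ ≤ m * (A.card + ∑ v ∈ univ.filter (fun v => κ m ≤ (ch par r v).card),
            (ch par r v).card) := Nat.mul_le_mul_left _ h1
        _ = m * A.card + m * ∑ v ∈ univ.filter (fun v => κ m ≤ (ch par r v).card),
            (ch par r v).card := Nat.mul_add _ _ _
        _ ≤ 2 * Fintype.card V := by omega
    have h4 : (m : ℝ) * ((univ.filter fun v => v ≠ r ∧
        (v ∈ A ∨ κ m ≤ (ch par r (par v)).card)).card : ℝ) ≤ 2 * (Fintype.card V : ℝ) := by
      exact_mod_cast h3
    have h5 : 2 * (Fintype.card V : ℝ) ≤ η * m * Fintype.card V :=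
      mul_le_mul_of_nonneg_right hmη (Nat.cast_nonneg _)
    have h6 : (m : ℝ) * ((univ.filter fun v => v ≠ r ∧
        (v ∈ A ∨ κ m ≤ (ch par r (par v)).card)).card : ℝ) ≤
        m * (η * Fintype.card V) := by
      calc _ ≤ 2 * (Fintype.card V : ℝ) := h4
        _ ≤ η * m * Fintype.card V := h5
        _ = m * (η * Fintype.card V) := by ring
    exact le_of_mul_le_mul_left h6 hm0
  · intro v
    by_cases hv : κ m ≤ (ch par r v).card
    · have h1 : ch par r v \ (univ.filter fun v => v ≠ r ∧
          (v ∈ A ∨ κ m ≤ (ch par r (par v)).card)) = ∅ := by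
        rw [sdiff_eq_empty_iff_subset]
        intro c hc
        have hc2 := REC_.mem_ch.mp hc
        rw [mem_filter]
        exact ⟨mem_univ _, hc2.1, Or.inr (by rw [hc2.2]; exact hv)⟩
      rw [h1]
      simp
    · exact (card_le_card sdiff_subset).trans (by omega)
  · intro v c hc
    rw [mem_sdiff, mem_filter] at hc
    obtain ⟨hc1, hc2⟩ := hc
    have hc3 := REC_.mem_ch.mp hc1
    have hd := REC_.dep_ch h hc1
    have hne : dep c % m ≠ a := by
      intro hcon
      apply hc2
      exact ⟨mem_univ _, hc3.1, Or.inl (mem_filter.mpr ⟨mem_univ _, hcon⟩)⟩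
    show (a + (m - 1) * (dep c + 1)) % m < (a + (m - 1) * (dep v + 1)) % m
    rw [hd] at hne ⊢
    obtain ⟨q, hq⟩ : ∃ q, q = m - 1 := ⟨_, rfl⟩
    have hmq : m = q + 1 := by omega
    subst hmq
    rw [← hq]
    -- x = a + q (d + 1), y = a + q (d + 2) = x + q; y + 1 = x mod m
    set x := a + q * (dep v + 1) with hx
    have hy : a + q * (dep v + 1 + 1) = x + q := by rw [hx]; ring
    rw [hy]
    have hx0 : x % (q + 1) ≠ 0 := by
      intro h0
      apply hne
      have h1 : (x + (dep v + 1)) % (q + 1) = (dep v + 1) % (q + 1) := by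
        rw [Nat.add_mod, h0, zero_add, Nat.mod_mod]
      have h2 : x + (dep v + 1) = a + (q + 1) * (dep v + 1) := by rw [hx]; ring
      rw [h2, Nat.add_mul_mod_self_left, Nat.mod_eq_of_lt ha] at h1
      exact h1.symm
    have h3 : (x + q) % (q + 1) + 1 = x % (q + 1) := by
      have h4 : (x + q) = (x / (q + 1)) * (q + 1) + (x % (q + 1) + q) := by
        have := Nat.div_add_mod x (q + 1)
        nlinarith
      obtain ⟨t, ht⟩ : ∃ t, x % (q + 1) = t + 1 := ⟨x % (q + 1) - 1, by omega⟩
      have h5 : t < q + 1 := by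
        have h7 : x % (q + 1) < q + 1 := Nat.mod_lt x (Nat.succ_pos q)
        omega
      rw [h4, Nat.mul_add_mod_self_right, ht]
      have h6 : t + 1 + q = t + (q + 1) := by ring
      rw [h6, Nat.add_mod_right, Nat.mod_eq_of_lt h5]
    omega

end Pool.Agent.TFin
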