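import Pool.Agent.TFin.Targets

set_option autoImplicit false

/-!
# The product at one vertex (job CVA)
-/

namespace Pool.Agent.TFin

open Finset
open Pool.Agent.TLT (av Krn Sop dl xx)

namespace CVA_

section av

variable {W : Type} [Fintype W]

theorem av_add (f g : W → ℝ) : av (fun y => f y + g y) = av f + av g := by
  simp only [av, Finset.sum_add_distrib, add_div]

theorem av_mul (c : ℝ) (f : W → ℝ) : av (fun y => c * f y) = c * av f := by
  simp only [av, ← Finset.mul_sum, mul_div_assoc]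

theorem av_sum {I : Type} (s : Finset I) (f : I → W → ℝ) :
    av (fun y => ∑ i ∈ s, f i y) = ∑ i ∈ s, av (f i) := by
  unfold av
  rw [Finset.sum_comm, Finset.sum_div]

theorem n1_nonneg_eq (f : W → ℝ) (h : ∀ y, 0 ≤ f y) : n1 f = av f := by
  unfold n1
  apply congrArg
  funext y
  exact abs_of_nonneg (h y)

theorem Sop_split (K : W → W → ℝ) (f L : W → ℝ) (y : W) :
    Sop K f y = dl K y + Sop K L y + Sop K (fun z => f z - 1 - L z) y := by
  have e : (fun z => f z - 1 - L z) = f - (fun _ => (1 : ℝ)) - L := by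
    funext z
    rfl
  rw [e, map_sub, map_sub]
  show _ = Sop K (fun _ => 1) y + Sop K L y + (Sop K f y - Sop K (fun _ => 1) y - Sop K L y)
  ring

end av

theorem sq_le_of_card {V : Type} (s : Finset V) (hs : s.card ≤ 1) (w : V → ℝ) :
    (∑ c ∈ s, w c) ^ 2 ≤ ∑ c ∈ s, w c ^ 2 := by
  have h := sq_sum_le_card_mul_sum_sq (s := s) (f := w)
  have h2 : 0 ≤ ∑ c ∈ s, w c ^ 2 := Finset.sum_nonneg fun c _ => sq_nonneg _
  have h3 : (s.card : ℝ) ≤ 1 := by exact_mod_cast hs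
  nlinarith

theorem exp_08 : (2 : ℝ) ≤ Real.exp (4 / 5) := by
  have h := Real.quadratic_le_exp_of_nonneg (x := 4 / 5) (by norm_num)
  linarith

/-- the sum of squares of nonnegative numbers is at most the square of the sum -/
theorem sum_sq_le {V : Type} (s : Finset V) (w : V → ℝ) (hw : ∀ c ∈ s, 0 ≤ w c) :
    ∑ c ∈ s, w c ^ 2 ≤ (∑ c ∈ s, w c) ^ 2 := by
  have h : ∀ c ∈ s, w c ^ 2 ≤ w c * ∑ c' ∈ s, w c' := by
    intro c hc
    rw [sq]
    exact mul_le_mul_of_nonneg_left (Finset.single_le_sum hw hc) (hw c hc)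
  calc ∑ c ∈ s, w c ^ 2 ≤ ∑ c ∈ s, w c * ∑ c' ∈ s, w c' := Finset.sum_le_sum h
    _ = (∑ c ∈ s, w c) ^ 2 := by rw [← Finset.sum_mul, sq]

end CVA_

open CVA_

theorem p_CVA (h1 : T_BAN) (h2 : T_PL) : T_CVA := by
  intro V W _ _ _ K C U π ε f L P Pv R Lv hK h
  obtain ⟨b1, b2, b3, b4, b5, b6, b7, b8, b9, b10, b11, b12, b13, b14⟩ := h1 W
  obtain ⟨k1, k2, k3, k4, k5, k6, k7, k8, k9, k10, k11, k12, k13, k14, k15⟩ := b14 K hK
  have UC := h.UC
  -- basic bounds
  have hn1f : ∀ c ∈ U, n1 (f c) = 1 := fun c hc => by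
    rw [n1_nonneg_eq _ (h.f0 c hc), h.f1 c hc]
  have hphi : ∀ c ∈ U, ∀ y, |Sop K (f c) y| ≤ 1 := fun c hc y => by
    rw [← hn1f c hc]
    exact k1 _ _
  have heps : ∀ c ∈ C, |ε c| = 1 := fun c hc => by
    rcases h.e1 c hc with e | e <;> rw [e] <;> norm_num
  have hnn : ∀ y, 0 ≤ hU K U ε f y := by
    intro y
    refine Finset.prod_nonneg fun c hc => ?_
    have e1 : |ε c * Sop K (f c) y| ≤ 1 := by
      rw [abs_mul, heps c (UC hc), one_mul]
      exact hphi c hc y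
    linarith [(abs_le.1 e1).1]
  have hex0 : ∀ c, 0 ≤ ex f L c := fun c => (b10 _).1
  have hey0 : ∀ c, 0 ≤ ey K f L c := fun c => (b5 _).1
  have heyx : ∀ c, ey K f L c ≤ ex f L c := fun c => (k2 _).2
  have hSL : ∀ c ∈ C, ∀ y, |Sop K (L c) y| ≤ del K * P c := fun c hc y =>
    (k1 _ _).trans (((b10 _).2.1).trans (h.L2 c hc))
  have hSL2 : ∀ c ∈ C, n2 (Sop K (L c)) ≤ 5 / 7 * (del K * P c) := fun c hc =>
    (k2 _).1.trans (mul_le_mul_of_nonneg_left (h.L2 c hc) (by norm_num))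
  have hD : ∀ c y, |Sop K (fun z => f c z - 1 - L c z) y| ≤ ex f L c := fun c y => k1 _ _
  -- the unpaired child
  have hU0c : (U.filter fun c => π c = c).card ≤ 1 := by
    rw [Finset.card_le_one]
    intro a ha b hb
    rw [Finset.mem_filter] at ha hb
    exact h.one a (UC ha.1) b (UC hb.1) ha.2 hb.2
  obtain ⟨U0, hU0⟩ : ∃ U0, U0 = U.filter fun c => π c = c := ⟨_, rfl⟩
  obtain ⟨Up, hUp⟩ : ∃ Up, Up = U.filter fun c => π c ≠ c := ⟨_, rfl⟩
  rw [← hU0] at hU0c
  have hsplit : ∀ g : V → ℝ, ∑ c ∈ U, g c = ∑ c ∈ U0, g c + ∑ c ∈ Up, g c := by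
    intro g
    rw [hU0, hUp]
    exact (Finset.sum_filter_add_sum_filter_not U (fun c => π c = c) g).symm
  have hsplitC : ∀ g : V → ℝ, ∑ c ∈ C, g c =
      ∑ c ∈ U0, g c + ∑ c ∈ Up, g c + ∑ c ∈ C \ U, g c := by
    intro g
    rw [← hsplit g, add_comm]
    exact (Finset.sum_sdiff UC).symm
  have U0U : ∀ c ∈ U0, c ∈ U := fun c hc => by
    rw [hU0] at hc
    exact (Finset.mem_filter.1 hc).1
  have UpU : ∀ c ∈ Up, c ∈ U := fun c hc => by
    rw [hUp] at hc
    exact (Finset.mem_filter.1 hc).1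
  have Upn : ∀ c ∈ Up, π c ≠ c := fun c hc => by
    rw [hUp] at hc
    exact (Finset.mem_filter.1 hc).2
  have Uppi : ∀ c ∈ Up, π c ∈ Up := fun c hc => by
    have hc1 := UpU c hc
    have hc2 := Upn c hc
    rw [hUp, Finset.mem_filter]
    refine ⟨h.pU c hc1, fun e => hc2 ?_⟩
    rw [h.inv c (UC hc1)] at e
    exact e.symm
  have hsum0 : ∑ c ∈ Up, ε c = 0 := by
    refine Finset.sum_involution (fun c _ => π c) ?_ ?_ ?_ ?_
    · intro c hc
      rw [h.e2 c (UC (UpU c hc)) (Upn c hc)]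
      ring
    · intro c hc _
      exact Upn c hc
    · intro c hc
      exact Uppi c hc
    · intro c hc
      exact h.inv c (UC (UpU c hc))
  -- the function `A`
  obtain ⟨A, hA⟩ : ∃ A : W → ℝ, A = fun y => ∑ c ∈ Up, ε c * Sop K (f c) y := ⟨_, rfl⟩
  have hAeq : ∀ y, A y = (∑ c ∈ C, ε c * Sop K (L c) y) - (∑ c ∈ U0, ε c * Sop K (L c) y) -
      (∑ c ∈ C \ U, ε c * Sop K (L c) y) +
      ∑ c ∈ Up, ε c * Sop K (fun z => f c z - 1 - L c z) y := by
    intro y
    rw [hsplitC (fun c => ε c * Sop K (L c) y), hA]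
    show ∑ c ∈ Up, ε c * Sop K (f c) y = _
    have e1 : ∑ c ∈ Up, ε c * Sop K (f c) y = (∑ c ∈ Up, ε c) * dl K y +
        ∑ c ∈ Up, ε c * Sop K (L c) y +
        ∑ c ∈ Up, ε c * Sop K (fun z => f c z - 1 - L c z) y := by
      rw [Finset.sum_mul, ← Finset.sum_add_distrib, ← Finset.sum_add_distrib]
      refine Finset.sum_congr rfl fun c _ => ?_
      rw [Sop_split K (f c) (L c) y]
      ring
    rw [e1, hsum0]
    ring
  have hP0 : ∀ c ∈ C, 0 ≤ P c := h.P0
  have hkp : kp K C U P = del K * ∑ c ∈ C \ U, (1 + P c) := rfl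
  have hkp0 : 0 ≤ kp K C U P := by
    rw [hkp]
    refine mul_nonneg k10 (Finset.sum_nonneg fun c hc => ?_)
    have := hP0 c (Finset.mem_sdiff.1 hc).1
    linarith
  have hkpP : ∑ c ∈ C \ U, del K * P c ≤ kp K C U P := by
    rw [hkp, Finset.mul_sum]
    refine Finset.sum_le_sum fun c _ => ?_
    have := k10
    nlinarith
  have hsumUp : ∀ g : V → ℝ, (∀ c, 0 ≤ g c) → ∑ c ∈ Up, g c ≤ ∑ c ∈ U, g c := by
    intro g hg
    rw [hsplit g]
    have := Finset.sum_nonneg (s := U0) (f := g) fun c _ => hg c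
    linarith
  have hPsum : 0 ≤ ∑ c ∈ U0, P c := Finset.sum_nonneg fun c hc => hP0 c (UC (U0U c hc))
  -- pointwise bound
  have hAp : ∀ y, |A y| ≤ 7 / 5 * (del K * Pv) + del K * ∑ c ∈ U0, P c + kp K C U P +
      ∑ c ∈ U, ex f L c := by
    intro y
    have e1 := h.G1 y
    have e2 : |∑ c ∈ U0, ε c * Sop K (L c) y| ≤ del K * ∑ c ∈ U0, P c := by
      refine (Finset.abs_sum_le_sum_abs _ _).trans ?_
      rw [Finset.mul_sum]
      refine Finset.sum_le_sum fun c hc => ?_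
      rw [abs_mul, heps c (UC (U0U c hc)), one_mul]
      exact hSL c (UC (U0U c hc)) y
    have e3 : |∑ c ∈ C \ U, ε c * Sop K (L c) y| ≤ kp K C U P := by
      refine (Finset.abs_sum_le_sum_abs _ _).trans (le_trans ?_ hkpP)
      refine Finset.sum_le_sum fun c hc => ?_
      have hc' := (Finset.mem_sdiff.1 hc).1
      rw [abs_mul, heps c hc', one_mul]
      exact hSL c hc' y
    have e4 : |∑ c ∈ Up, ε c * Sop K (fun z => f c z - 1 - L c z) y| ≤
        ∑ c ∈ U, ex f L c := by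
      refine (Finset.abs_sum_le_sum_abs _ _).trans (le_trans ?_ (hsumUp _ hex0))
      refine Finset.sum_le_sum fun c hc => ?_
      rw [abs_mul, heps c (UC (UpU c hc)), one_mul]
      exact hD c y
    rw [hAeq y]
    rw [abs_le] at e1 e2 e3 e4 ⊢
    constructor
    · linarith [e1.1, e2.2, e3.2, e4.1]
    · linarith [e1.2, e2.1, e3.1, e4.2]
  -- L2 bound
  have hA2 : n2 A ≤ del K * Pv + 5 / 7 * (del K * ∑ c ∈ U0, P c) + 5 / 7 * kp K C U P +
      ∑ c ∈ U, ey K f L c := by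
    have e0 : A = fun y => (((∑ c ∈ C, ε c * Sop K (L c) y) -
        (∑ c ∈ U0, ε c * Sop K (L c) y)) - (∑ c ∈ C \ U, ε c * Sop K (L c) y)) +
        ∑ c ∈ Up, ε c * Sop K (fun z => f c z - 1 - L c z) y := by
      funext y
      exact hAeq y
    have e2 : n2 (fun y => ∑ c ∈ U0, ε c * Sop K (L c) y) ≤
        5 / 7 * (del K * ∑ c ∈ U0, P c) := by
      refine (b4 V U0 fun c y => ε c * Sop K (L c) y).trans ?_
      rw [Finset.mul_sum, Finset.mul_sum]
      refine Finset.sum_le_sum fun c hc => ?_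
      show n2 (fun y => ε c * Sop K (L c) y) ≤ _
      rw [b3, heps c (UC (U0U c hc)), one_mul]
      exact hSL2 c (UC (U0U c hc))
    have e3 : n2 (fun y => ∑ c ∈ C \ U, ε c * Sop K (L c) y) ≤ 5 / 7 * kp K C U P := by
      refine (b4 V (C \ U) fun c y => ε c * Sop K (L c) y).trans ?_
      refine le_trans ?_ (mul_le_mul_of_nonneg_left hkpP (by norm_num))
      rw [Finset.mul_sum]
      refine Finset.sum_le_sum fun c hc => ?_
      have hc' := (Finset.mem_sdiff.1 hc).1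
      show n2 (fun y => ε c * Sop K (L c) y) ≤ _
      rw [b3, heps c hc', one_mul]
      exact hSL2 c hc'
    have e4 : n2 (fun y => ∑ c ∈ Up, ε c * Sop K (fun z => f c z - 1 - L c z) y) ≤
        ∑ c ∈ U, ey K f L c := by
      refine (b4 V Up fun c y => ε c * Sop K (fun z => f c z - 1 - L c z) y).trans ?_
      refine le_trans ?_ (hsumUp _ hey0)
      refine Finset.sum_le_sum fun c hc => ?_
      show n2 (fun y => ε c * Sop K (fun z => f c z - 1 - L c z) y) ≤ _
      rw [b3, heps c (UC (UpU c hc)), one_mul]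
      exact le_rfl
    have e1 := h.G2
    rw [e0]
    have f1 := b1 (fun y => ((∑ c ∈ C, ε c * Sop K (L c) y) -
        (∑ c ∈ U0, ε c * Sop K (L c) y)) - (∑ c ∈ C \ U, ε c * Sop K (L c) y))
        (fun y => ∑ c ∈ Up, ε c * Sop K (fun z => f c z - 1 - L c z) y)
    have f2 := b2 (fun y => (∑ c ∈ C, ε c * Sop K (L c) y) -
        (∑ c ∈ U0, ε c * Sop K (L c) y)) (fun y => ∑ c ∈ C \ U, ε c * Sop K (L c) y)
    have f3 := b2 (fun y => ∑ c ∈ C, ε c * Sop K (L c) y)
        (fun y => ∑ c ∈ U0, ε c * Sop K (L c) y)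
    linarith
  -- the function `D`
  have hDD : ∀ y, ∑ c ∈ U, (Sop K (f c) y - Sop K (f (π c)) y) ^ 2 / 2 ≤
      4 * ∑ c ∈ U, (xx K * P c ^ 2 + ex f L c ^ 2) := by
    intro y
    obtain ⟨η, hη⟩ : ∃ η : V → ℝ, η = fun c => Sop K (L c) y +
        Sop K (fun z => f c z - 1 - L c z) y := ⟨_, rfl⟩
    have hηb : ∀ c ∈ U, η c ^ 2 ≤ 2 * (xx K * P c ^ 2 + ex f L c ^ 2) := by
      intro c hc
      have e1 := hSL c (UC hc) y
      have e2 := hD c y
      have e3 : |η c| ≤ del K * P c + ex f L c := by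
        rw [hη]
        exact (abs_add_le _ _).trans (add_le_add e1 e2)
      have e4 : η c ^ 2 ≤ (del K * P c + ex f L c) ^ 2 := by
        rw [← sq_abs (η c)]
        exact pow_le_pow_left₀ (abs_nonneg _) e3 2
      rw [← k11]
      nlinarith [sq_nonneg (del K * P c - ex f L c)]
    have e0 : ∑ c ∈ U0, (Sop K (f c) y - Sop K (f (π c)) y) ^ 2 / 2 = 0 := by
      refine Finset.sum_eq_zero fun c hc => ?_
      rw [hU0, Finset.mem_filter] at hc
      rw [hc.2]
      simp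
    have e1 : ∑ c ∈ Up, (Sop K (f c) y - Sop K (f (π c)) y) ^ 2 / 2 ≤
        ∑ c ∈ Up, (η c ^ 2 + η (π c) ^ 2) := by
      refine Finset.sum_le_sum fun c _ => ?_
      have e2 : Sop K (f c) y - Sop K (f (π c)) y = η c - η (π c) := by
        rw [hη, Sop_split K (f c) (L c) y, Sop_split K (f (π c)) (L (π c)) y]
        ring
      rw [e2]
      nlinarith [sq_nonneg (η c + η (π c))]
    have e2 : ∑ c ∈ Up, η (π c) ^ 2 = ∑ c ∈ Up, η c ^ 2 := by
      refine Finset.sum_nbij' π π Uppi Uppi ?_ ?_ ?_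
      · intro c hc
        exact h.inv c (UC (UpU c hc))
      · intro c hc
        exact h.inv c (UC (UpU c hc))
      · intro c _
        rfl
    rw [hsplit (fun c => (Sop K (f c) y - Sop K (f (π c)) y) ^ 2 / 2), e0, zero_add]
    rw [Finset.sum_add_distrib, e2] at e1
    have e3 : ∑ c ∈ Up, η c ^ 2 ≤ ∑ c ∈ U, η c ^ 2 := hsumUp _ fun c => sq_nonneg _
    have e4 : ∑ c ∈ U, η c ^ 2 ≤ 2 * ∑ c ∈ U, (xx K * P c ^ 2 + ex f L c ^ 2) := by
      rw [Finset.mul_sum]
      exact Finset.sum_le_sum hηb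
    linarith
  -- use of PL
  have hPL := fun y => h2 V U π ε (fun c => Sop K (f c) y) (A y)
    (∑ c ∈ U, Sop K (f c) y ^ 2)
    (∑ c ∈ U, (Sop K (f c) y - Sop K (f (π c)) y) ^ 2 / 2) h.pU
    (fun c hc => h.inv c (UC hc)) (fun c hc => h.e1 c (UC hc))
    (fun c hc => h.e2 c (UC hc)) (fun c hc c' hc' => h.one c (UC hc) c' (UC hc'))
    (fun c hc => hphi c hc y) (by rw [hA, hUp]) rfl rfl
  -- the numbers
  have hPc2 : ∀ c ∈ C, P c ^ 2 ≤ (1 + P c) ^ 2 := fun c hc => by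
    have := hP0 c hc
    nlinarith
  have hRU : (1 + Pv) ^ 2 + ∑ c ∈ U, (1 + P c) ^ 2 ≤ R := by
    have e1 := h.hR
    have e2 : ∑ c ∈ U, (1 + P c) ^ 2 ≤ ∑ c ∈ C, (1 + P c) ^ 2 :=
      Finset.sum_le_sum_of_subset_of_nonneg UC fun c _ _ => sq_nonneg _
    linarith
  have hP0sq : (∑ c ∈ U0, P c) ^ 2 ≤ ∑ c ∈ U, (1 + P c) ^ 2 := by
    refine (sq_le_of_card U0 hU0c P).trans ?_
    rw [hsplit (fun c => (1 + P c) ^ 2)]
    have e1 : ∑ c ∈ U0, P c ^ 2 ≤ ∑ c ∈ U0, (1 + P c) ^ 2 :=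
      Finset.sum_le_sum fun c hc => hPc2 c (UC (U0U c hc))
    have e2 : 0 ≤ ∑ c ∈ Up, (1 + P c) ^ 2 := Finset.sum_nonneg fun c _ => sq_nonneg _
    linarith
  have hPU : ∑ c ∈ U, P c ^ 2 ≤ ∑ c ∈ U, (1 + P c) ^ 2 :=
    Finset.sum_le_sum fun c hc => hPc2 c (UC hc)
  have hPv := h.Pv0
  have hexs : 0 ≤ ∑ c ∈ U, ex f L c := Finset.sum_nonneg fun c _ => hex0 c
  have hR1 : 1 ≤ R := by
    have : 0 ≤ ∑ c ∈ U, (1 + P c) ^ 2 := Finset.sum_nonneg fun c _ => sq_nonneg _
    nlinarith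
  have hxR : 0 ≤ xx K * R := mul_nonneg k12 (by linarith)
  have hSU : 0 ≤ ∑ c ∈ U, (1 + P c) ^ 2 := Finset.sum_nonneg fun c _ => sq_nonneg _
  refine ⟨hnn, fun c _ => ⟨hey0 c, heyx c⟩, ?_, ?_⟩
  · intro hx1
    have hX : XV K C U f L P R = xx K * R + ∑ c ∈ U, ex f L c + kp K C U P := rfl
    have hex2 : ∑ c ∈ U, ex f L c ^ 2 ≤ ∑ c ∈ U, ex f L c :=
      Finset.sum_le_sum fun c hc => by
        have := hx1 c hc
        have := hex0 c
        nlinarith
    have hpt : ∀ y, hU K U ε f y ≤ Real.exp (2 + 2 * XV K C U f L P R) := by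
      intro y
      have e1 := (hPL y).1
      have e2 := (abs_le.1 (hAp y)).2
      have e3 := hDD y
      rw [Finset.sum_add_distrib, ← Finset.mul_sum] at e3
      have e4 : A y + (∑ c ∈ U, (Sop K (f c) y - Sop K (f (π c)) y) ^ 2 / 2) / 4 ≤
          6 / 5 + 2 * XV K C U f L P R := by
        rw [hX]
        have g1 : 7 / 5 * (del K * Pv) ≤ 7 / 10 * (1 + xx K * Pv ^ 2) := by
          rw [← k11]
          nlinarith [sq_nonneg (1 - del K * Pv)]
        have g2 : del K * ∑ c ∈ U0, P c ≤ 1 / 2 + xx K * (∑ c ∈ U0, P c) ^ 2 / 2 := by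
          rw [← k11]
          nlinarith [sq_nonneg (1 - del K * ∑ c ∈ U0, P c)]
        have g3 : xx K * Pv ^ 2 ≤ xx K * (1 + Pv) ^ 2 :=
          mul_le_mul_of_nonneg_left (by nlinarith) k12
        have g4 : xx K * (∑ c ∈ U0, P c) ^ 2 ≤ xx K * ∑ c ∈ U, (1 + P c) ^ 2 :=
          mul_le_mul_of_nonneg_left hP0sq k12
        have g5 : xx K * ∑ c ∈ U, P c ^ 2 ≤ xx K * ∑ c ∈ U, (1 + P c) ^ 2 :=
          mul_le_mul_of_nonneg_left hPU k12
        have g6 : xx K * ((1 + Pv) ^ 2 + ∑ c ∈ U, (1 + P c) ^ 2) ≤ xx K * R :=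
          mul_le_mul_of_nonneg_left hRU k12
        have g7 : 0 ≤ xx K * (1 + Pv) ^ 2 := mul_nonneg k12 (sq_nonneg _)
        have g8 : 0 ≤ xx K * ∑ c ∈ U, (1 + P c) ^ 2 := mul_nonneg k12 hSU
        rw [mul_add] at g6
        linarith
      have e5 : hU K U ε f y ≤ 2 * Real.exp (6 / 5 + 2 * XV K C U f L P R) :=
        e1.trans (mul_le_mul_of_nonneg_left (Real.exp_le_exp.2 e4) (by norm_num))
      have e6 : Real.exp (2 + 2 * XV K C U f L P R) =
          Real.exp (4 / 5) * Real.exp (6 / 5 + 2 * XV K C U f L P R) := by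
        rw [← Real.exp_add]
        congr 1
        ring
      rw [e6]
      exact e5.trans (mul_le_mul_of_nonneg_right exp_08 (Real.exp_nonneg _))
    have g1 := (b12 (hU K U ε f) (Real.exp (2 + 2 * XV K C U f L P R)) fun y => by
      rw [abs_of_nonneg (hnn y)]
      exact hpt y).2
    exact (le_abs_self _).trans (((b10 _).2.2).trans g1)
  · intro hX6
    have hX : XV K C U f L P R = xx K * R + ∑ c ∈ U, ex f L c + kp K C U P := rfl
    rw [hX] at hX6
    have hxR6 : xx K * R ≤ 1 / 1000000 := by linarith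
    have hexs6 : ∑ c ∈ U, ex f L c ≤ 1 / 1000000 := by linarith
    have hkp6 : kp K C U P ≤ 1 / 1000000 := by linarith
    have hex1 : ∀ c ∈ U, ex f L c ≤ 1 / 1000000 := fun c hc =>
      (Finset.single_le_sum (fun c _ => hex0 c) hc).trans hexs6
    have hex2 : ∑ c ∈ U, ex f L c ^ 2 ≤ ∑ c ∈ U, ex f L c :=
      Finset.sum_le_sum fun c hc => by
        have := hex1 c hc
        have := hex0 c
        nlinarith
    have small : ∀ a : ℝ, 0 ≤ a → a ^ 2 ≤ 1 / 1000000 → a ≤ 1 / 1000 := by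
      intro a ha h'
      nlinarith
    have hxRU : xx K * ((1 + Pv) ^ 2 + ∑ c ∈ U, (1 + P c) ^ 2) ≤ xx K * R :=
      mul_le_mul_of_nonneg_left hRU k12
    rw [mul_add] at hxRU
    have q1 : 0 ≤ xx K * (1 + Pv) ^ 2 := mul_nonneg k12 (sq_nonneg _)
    have q2 : 0 ≤ xx K * ∑ c ∈ U, (1 + P c) ^ 2 := mul_nonneg k12 hSU
    have q3 : xx K * Pv ^ 2 ≤ xx K * (1 + Pv) ^ 2 :=
      mul_le_mul_of_nonneg_left (by nlinarith) k12
    have q4 : xx K * (∑ c ∈ U0, P c) ^ 2 ≤ xx K * ∑ c ∈ U, (1 + P c) ^ 2 :=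
      mul_le_mul_of_nonneg_left hP0sq k12
    have s1 : del K * Pv ≤ 1 / 1000 := by
      refine small _ (mul_nonneg k10 hPv) ?_
      rw [mul_pow, k11]
      linarith
    have s2 : del K * ∑ c ∈ U0, P c ≤ 1 / 1000 := by
      refine small _ (mul_nonneg k10 hPsum) ?_
      rw [mul_pow, k11]
      linarith
    have s3 : ∑ c ∈ U0, del K * (1 + P c) ≤ 1 / 1000 := by
      refine small _ (Finset.sum_nonneg fun c hc => mul_nonneg k10 ?_) ?_
      · have := hP0 c (UC (U0U c hc))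
        linarith
      · refine (sq_le_of_card U0 hU0c fun c => del K * (1 + P c)).trans ?_
        have e1 : ∑ c ∈ U0, (del K * (1 + P c)) ^ 2 = xx K * ∑ c ∈ U0, (1 + P c) ^ 2 := by
          rw [Finset.mul_sum]
          refine Finset.sum_congr rfl fun c _ => ?_
          rw [mul_pow, k11]
        rw [e1]
        have e2 : ∑ c ∈ U0, (1 + P c) ^ 2 ≤ ∑ c ∈ U, (1 + P c) ^ 2 := by
          rw [hsplit (fun c => (1 + P c) ^ 2)]
          have : 0 ≤ ∑ c ∈ Up, (1 + P c) ^ 2 := Finset.sum_nonneg fun c _ => sq_nonneg _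
          linarith
        have e3 := mul_le_mul_of_nonneg_left e2 k12
        linarith
    have hAs : ∀ y, |A y| ≤ 2402 / 1000000 := by
      intro y
      have := hAp y
      linarith
    have hD1 : ∀ y, A y + (∑ c ∈ U, (Sop K (f c) y - Sop K (f (π c)) y) ^ 2 / 2) / 4 ≤ 1 := by
      intro y
      have e1 := (abs_le.1 (hAs y)).2
      have e3 := hDD y
      rw [Finset.sum_add_distrib, ← Finset.mul_sum] at e3
      have g5 : xx K * ∑ c ∈ U, P c ^ 2 ≤ xx K * ∑ c ∈ U, (1 + P c) ^ 2 :=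
        mul_le_mul_of_nonneg_left hPU k12
      linarith
    have hphi2 : ∀ c ∈ U, n2 (Sop K (f c)) ≤ del K * (1 + P c) + ey K f L c := by
      intro c hc
      have e0 : Sop K (f c) = fun y => (dl K y + Sop K (L c) y) +
          Sop K (fun z => f c z - 1 - L c z) y := by
        funext y
        exact Sop_split K (f c) (L c) y
      rw [e0]
      have f1 := b1 (fun y => dl K y + Sop K (L c) y)
        (fun y => Sop K (fun z => f c z - 1 - L c z) y)
      have f2 := b1 (fun y => dl K y) (fun y => Sop K (L c) y)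
      have f3 := hSL2 c (UC hc)
      have f4 : n2 (fun y => Sop K (fun z => f c z - 1 - L c z) y) = ey K f L c := rfl
      have f5 : n2 (fun y => dl K y) = del K := k9
      have f6 : n2 (fun y => Sop K (L c) y) ≤ 5 / 7 * (del K * P c) := f3
      have f7 : 0 ≤ del K * P c := mul_nonneg k10 (hP0 c (UC hc))
      rw [f4] at f1
      rw [f5] at f2
      linarith
    constructor
    · -- the L1 bound
      have e1 : n1 (fun y => hU K U ε f y - 1 - ∑ c ∈ U, ε c * Sop K (f c) y) ≤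
          av (fun y => 11 * (A y ^ 2 + ∑ c ∈ U, Sop K (f c) y ^ 2)) :=
        b11 _ _ fun y => (hPL y).2 (hD1 y)
      have e2 : av (fun y => 11 * (A y ^ 2 + ∑ c ∈ U, Sop K (f c) y ^ 2)) =
          11 * (n2 A ^ 2 + ∑ c ∈ U, n2 (Sop K (f c)) ^ 2) := by
        rw [av_mul, av_add, av_sum, (b5 A).2]
        congr 2
        refine Finset.sum_congr rfl fun c _ => ?_
        exact ((b5 (Sop K (f c))).2).symm
      rw [e2] at e1
      refine e1.trans ?_
      -- numerical estimate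
      have hey1 : ∑ c ∈ U, ey K f L c ≤ 1 / 1000000 :=
        (Finset.sum_le_sum fun c _ => heyx c).trans hexs6
      have heys : 0 ≤ ∑ c ∈ U, ey K f L c := Finset.sum_nonneg fun c _ => hey0 c
      obtain ⟨Y, hY⟩ : ∃ Y, Y = ∑ c ∈ U, ey K f L c := ⟨_, rfl⟩
      obtain ⟨k, hk⟩ : ∃ k, k = kp K C U P := ⟨_, rfl⟩
      have t1 : ∑ c ∈ U, n2 (Sop K (f c)) ^ 2 ≤
          2 * (xx K * ∑ c ∈ U, (1 + P c) ^ 2) + 2 * Y ^ 2 := by
        have g1 : ∀ c ∈ U, n2 (Sop K (f c)) ^ 2 ≤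
            2 * (xx K * (1 + P c) ^ 2) + 2 * ey K f L c ^ 2 := by
          intro c hc
          have g2 := pow_le_pow_left₀ (b5 (Sop K (f c))).1 (hphi2 c hc) 2
          rw [← k11]
          nlinarith [sq_nonneg (del K * (1 + P c) - ey K f L c)]
        refine (Finset.sum_le_sum g1).trans ?_
        rw [Finset.sum_add_distrib, ← Finset.mul_sum, ← Finset.mul_sum, ← Finset.mul_sum, hY]
        have g3 := sum_sq_le U (fun c => ey K f L c) fun c _ => hey0 c
        linarith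
      have t2 : n2 A ^ 2 ≤ 4 * (xx K * Pv ^ 2) +
          100 / 49 * (xx K * (∑ c ∈ U0, P c) ^ 2) + 100 / 49 * k ^ 2 + 4 * Y ^ 2 := by
        have g1 := pow_le_pow_left₀ (b5 A).1 hA2 2
        rw [← hk, ← hY] at g1
        refine g1.trans ?_
        rw [← k11]
        obtain ⟨a, ha⟩ : ∃ a, a = del K * Pv := ⟨_, rfl⟩
        obtain ⟨b, hb⟩ : ∃ b, b = del K * ∑ c ∈ U0, P c := ⟨_, rfl⟩
        have ea : del K ^ 2 * Pv ^ 2 = a ^ 2 := by
          rw [ha]
          ring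
        have eb : del K ^ 2 * (∑ c ∈ U0, P c) ^ 2 = b ^ 2 := by
          rw [hb]
          ring
        rw [ea, eb, ← ha, ← hb]
        nlinarith [sq_nonneg (a - 5 / 7 * b), sq_nonneg (a - 5 / 7 * k), sq_nonneg (a - Y),
          sq_nonneg (5 / 7 * b - 5 / 7 * k), sq_nonneg (5 / 7 * b - Y),
          sq_nonneg (5 / 7 * k - Y)]
      have t3 : k ^ 2 ≤ 1 / 1000000 * k := by
        rw [hk]
        nlinarith
      have t4 : Y ^ 2 ≤ 1 / 1000000 * Y := by
        rw [hY]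
        nlinarith
      have hk0 : 0 ≤ k := by
        rw [hk]
        exact hkp0
      have hY0 : 0 ≤ Y := by
        rw [hY]
        exact heys
      rw [← hk, ← hY]
      linarith
    · -- the L2 bound
      have e0 : (fun y => ∑ c ∈ U, ε c * Sop K (f c) y) =
          fun y => (∑ c ∈ U0, ε c * Sop K (f c) y) + A y := by
        funext y
        rw [hsplit (fun c => ε c * Sop K (f c) y), hA]
      rw [e0]
      have f1 := b1 (fun y => ∑ c ∈ U0, ε c * Sop K (f c) y) A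
      have f2 := (b12 A _ hAs).1
      have f3 : n2 (fun y => ∑ c ∈ U0, ε c * Sop K (f c) y) ≤
          ∑ c ∈ U0, (del K * (1 + P c) + ey K f L c) := by
        refine (b4 V U0 fun c y => ε c * Sop K (f c) y).trans ?_
        refine Finset.sum_le_sum fun c hc => ?_
        show n2 (fun y => ε c * Sop K (f c) y) ≤ _
        rw [b3, heps c (UC (U0U c hc)), one_mul]
        exact hphi2 c (U0U c hc)
      rw [Finset.sum_add_distrib] at f3
      have f4 : ∑ c ∈ U0, ey K f L c ≤ 1 / 1000000 := by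
        refine le_trans ?_ hexs6
        rw [hsplit (fun c => ex f L c)]
        have g1 : ∑ c ∈ U0, ey K f L c ≤ ∑ c ∈ U0, ex f L c :=
          Finset.sum_le_sum fun c _ => heyx c
        have g2 : 0 ≤ ∑ c ∈ Up, ex f L c := Finset.sum_nonneg fun c _ => hex0 c
        linarith
      linarith

end Pool.Agent.TFin
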