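import Pool.Agent.TFin.Targets

/-!
# Large trees in tournaments (MP_d27362_co), target CVB

The density at one vertex.
-/

set_option autoImplicit false

namespace Pool.Agent.TFin

open Finset
open Pool.Agent.TLT (av Krn Sop dl xx)

namespace CVB_

variable {W : Type} [Fintype W]

theorem av_add (f g : W → ℝ) : (av fun y => f y + g y) = av f + av g := by
  simp only [av, sum_add_distrib, add_div]

theorem av_mul (c : ℝ) (f : W → ℝ) : (av fun y => c * f y) = c * av f := by
  simp only [av, ← mul_sum, mul_div_assoc]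

theorem av_sum {I : Type} (s : Finset I) (f : I → W → ℝ) :
    (av fun y => ∑ i ∈ s, f i y) = ∑ i ∈ s, av (f i) := by
  simp only [av]
  rw [sum_comm, sum_div]

theorem av_const [Nonempty W] (c : ℝ) : (av fun _ : W => c) = c := by
  unfold av
  have : (Fintype.card W : ℝ) ≠ 0 := by
    exact_mod_cast Fintype.card_ne_zero
  rw [sum_const, card_univ, nsmul_eq_mul]
  field_simp

theorem Sop_add (K : W → W → ℝ) (f g : W → ℝ) (y : W) :
    Sop K (fun z => f z + g z) y = Sop K f y + Sop K g y := by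
  have : (fun z => f z + g z) = f + g := rfl
  rw [this, map_add]
  rfl

theorem Sop_sub (K : W → W → ℝ) (f g : W → ℝ) (y : W) :
    Sop K (fun z => f z - g z) y = Sop K f y - Sop K g y := by
  have : (fun z => f z - g z) = f - g := rfl
  rw [this, map_sub]
  rfl

theorem Sop_mul (K : W → W → ℝ) (c : ℝ) (f : W → ℝ) (y : W) :
    Sop K (fun z => c * f z) y = c * Sop K f y := by
  have : (fun z => c * f z) = c • f := rfl
  rw [this, map_smul]
  rfl

end CVB_

open CVB_ in
theorem p_CVB (h1 : T_BAN) (h2 : T_CVA) : T_CVB := by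
  intro V W _ _ _ K C U π ε f L P Pv R Lv hK O hX
  obtain ⟨hU0, hey, -, hgood⟩ := h2 V W K C U π ε f L P Pv R Lv hK O
  obtain ⟨hE1, hn2⟩ := hgood hX
  obtain ⟨n2add, n2sub, n2mul, n2sum, n2sq, n1add, n1sub, n1mul, n1sum, n1le, n1av, nsup, nCS,
    hKK⟩ := h1 W
  obtain ⟨Spt, S2, Sav, Sadj, Smono, Smsg, dlb, avdl, n2dl, del0, del2, xx0, xx1, it2, itp⟩ :=
    hKK K hK
  have n1n2 : ∀ g : W → ℝ, n1 g ≤ n2 g := fun g => (n1le g).2.1
  have n1nn : ∀ g : W → ℝ, 0 ≤ n1 g := fun g => (n1le g).1
  have n2nn : ∀ g : W → ℝ, 0 ≤ n2 g := fun g => (n2sq g).1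
  have eabs : ∀ c ∈ C, |ε c| = 1 := by
    intro c hc
    rcases O.e1 c hc with h | h <;> rw [h] <;> norm_num
  -- the quantities
  have hR1 : 1 ≤ R := by
    have h3 : 0 ≤ ∑ c ∈ C, (1 + P c) ^ 2 := sum_nonneg fun c _ => sq_nonneg _
    have h4 := O.hR
    nlinarith [O.Pv0]
  have hUP : ∑ c ∈ U, P c ≤ R / 4 := by
    have h3 : ∑ c ∈ U, P c ≤ ∑ c ∈ U, (1 + P c) ^ 2 / 4 := by
      refine sum_le_sum fun c _ => ?_
      nlinarith [sq_nonneg (1 - P c)]
    have h4 : ∑ c ∈ U, (1 + P c) ^ 2 / 4 ≤ ∑ c ∈ C, (1 + P c) ^ 2 / 4 :=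
      sum_le_sum_of_subset_of_nonneg O.UC fun c _ _ => by positivity
    have h5 : ∑ c ∈ C, (1 + P c) ^ 2 / 4 = (∑ c ∈ C, (1 + P c) ^ 2) / 4 := by rw [sum_div]
    have h6 := O.hR
    nlinarith [O.Pv0]
  have hkp0 : 0 ≤ kp K C U P := by
    unfold kp
    refine mul_nonneg del0 (sum_nonneg fun c hc => ?_)
    have := O.P0 c (sdiff_subset hc)
    linarith
  set xR : ℝ := xx K * R with hxR
  set κ : ℝ := kp K C U P with hκ
  set Y : ℝ := ∑ c ∈ U, ey K f L c with hY
  set Xs : ℝ := ∑ c ∈ U, ex f L c with hXs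
  have hxR0 : 0 ≤ xR := mul_nonneg xx0 (by linarith)
  have hxR1 : xx K ≤ xR := by
    have := mul_le_mul_of_nonneg_left hR1 xx0
    linarith
  have hY0 : 0 ≤ Y := sum_nonneg fun c hc => (hey c hc).1
  have hYX : Y ≤ Xs := sum_le_sum fun c hc => (hey c hc).2
  have hXV : XV K C U f L P R = xR + Xs + κ := rfl
  rw [hXV] at hX ⊢
  set E : W → ℝ := fun y => hU K U ε f y - 1 - ∑ c ∈ U, ε c * Sop K (f c) y with hE
  set D : V → W → ℝ := fun c => Sop K (fun z => f c z - 1 - L c z) with hD
  have hD2 : ∀ c, n2 (D c) = ey K f L c := fun c => rfl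
  have hphi : ∀ c y, Sop K (f c) y = dl K y + Sop K (L c) y + D c y := by
    intro c y
    have h3 : D c y = Sop K (f c) y - dl K y - Sop K (L c) y := by
      rw [hD]
      show Sop K (fun z => (f c z - 1) - L c z) y = _
      rw [Sop_sub, Sop_sub]
      rfl
    linarith
  -- the average
  set Z : ℝ := av (hU K U ε f) with hZ
  have hav : ∀ c ∈ U, |av (Sop K (f c))| ≤ xx K * P c + ey K f L c := by
    intro c hc
    have hcC := O.UC hc
    have h3 : av (Sop K (f c)) = av (Sop K (L c)) + av (D c) := by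
      have h4 : Sop K (f c) = fun y => (dl K y + Sop K (L c) y) + D c y := by
        funext y
        exact hphi c y
      rw [h4, av_add (fun y => dl K y + Sop K (L c) y) (D c), av_add (dl K) (Sop K (L c)), avdl,
        zero_add]
    rw [h3]
    have h5 : |av (Sop K (L c))| ≤ xx K * P c := by
      rw [Sav, abs_neg]
      have h6 := (nCS (dl K) (L c)).2
      rw [n2dl] at h6
      have h7 := mul_le_mul_of_nonneg_left (O.L2 c hcC) del0
      have h8 : del K * (del K * P c) = xx K * P c := by rw [← del2]; ring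
      linarith
    have h6 : |av (D c)| ≤ ey K f L c := by
      rw [← hD2]
      exact le_trans (n1le (D c)).2.2 (n1n2 _)
    exact le_trans (abs_add_le _ _) (add_le_add h5 h6)
  have hZE : Z - 1 = av E + ∑ c ∈ U, ε c * av (Sop K (f c)) := by
    have h3 : hU K U ε f = fun y => (E y + 1) + ∑ c ∈ U, ε c * Sop K (f c) y := by
      funext y
      simp only [hE]
      ring
    have h4 : Z = av E + 1 + ∑ c ∈ U, ε c * av (Sop K (f c)) := by
      rw [hZ]
      conv_lhs => rw [h3]
      rw [av_add (fun y => E y + 1) (fun y => ∑ c ∈ U, ε c * Sop K (f c) y),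
        av_add E (fun _ => 1), av_const, av_sum]
      congr 1
      exact sum_congr rfl fun c _ => av_mul _ _
    rw [h4]
    ring
  have hZ1 : |Z - 1| ≤ 181 / 4 * xR + 1 / 1000 * κ + 1001 / 1000 * Y := by
    rw [hZE]
    have h3 : |av E| ≤ n1 E := (n1le E).2.2
    have h4 : |∑ c ∈ U, ε c * av (Sop K (f c))| ≤ xx K * ∑ c ∈ U, P c + Y := by
      refine le_trans (abs_sum_le_sum_abs _ _) ?_
      rw [hY, mul_sum, ← sum_add_distrib]
      refine sum_le_sum fun c hc => ?_
      rw [abs_mul, eabs c (O.UC hc), one_mul]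
      exact hav c hc
    have h5 : xx K * ∑ c ∈ U, P c ≤ xR / 4 := by
      have := mul_le_mul_of_nonneg_left hUP xx0
      rw [hxR]
      linarith
    have h6 := abs_add_le (av E) (∑ c ∈ U, ε c * av (Sop K (f c)))
    linarith
  have hZX : |Z - 1| ≤ 46 * (xR + Xs + κ) := by linarith
  have hZs : |Z - 1| ≤ 46 / 1000000 := by linarith
  have hZpos : 99 / 100 ≤ Z := by
    have := (abs_le.1 hZs).1
    linarith
  have hZ0 : 0 < Z := by linarith
  -- decomposition
  set A1 : W → ℝ := fun y => ∑ c ∈ U, ε c * D c y with hA1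
  set B1 : W → ℝ := fun y => ∑ c ∈ C \ U, ε c * (dl K y + Sop K (L c) y) with hB1
  set F : W → ℝ := fun y => hU K U ε f y / Z with hF
  have hnA : n2 A1 ≤ Y := by
    refine le_trans (n2sum V U fun c y => ε c * D c y) ?_
    refine sum_le_sum fun c hc => ?_
    rw [n2mul, eabs c (O.UC hc), one_mul]
    exact le_of_eq (hD2 c)
  have hnB : n2 B1 ≤ κ := by
    refine le_trans (n2sum V (C \ U) fun c y => ε c * (dl K y + Sop K (L c) y)) ?_
    rw [hκ, kp, mul_sum]
    refine sum_le_sum fun c hc => ?_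
    have hcC := sdiff_subset hc
    rw [n2mul, eabs c hcC, one_mul]
    have h3 := n2add (dl K) (Sop K (L c))
    rw [n2dl] at h3
    have h4 := (S2 (L c)).1
    have h5 := O.L2 c hcC
    have h6 : 0 ≤ del K * P c := mul_nonneg del0 (O.P0 c hcC)
    have h7 : del K * (1 + P c) = del K + del K * P c := by ring
    rw [h7]
    linarith
  have hdec : ∀ y, F y - 1 - Lv y = ((E y + A1 y) - B1 y) + (1 - Z) * F y := by
    intro y
    have h3 : Lv y = ∑ c ∈ U, ε c * (dl K y + Sop K (L c) y) + B1 y := by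
      rw [O.Lv y, hB1]
      simp only
      rw [add_comm, sum_sdiff O.UC]
    have h4 : ∑ c ∈ U, ε c * Sop K (f c) y =
        ∑ c ∈ U, ε c * (dl K y + Sop K (L c) y) + A1 y := by
      rw [hA1]
      simp only
      rw [← sum_add_distrib]
      refine sum_congr rfl fun c _ => ?_
      rw [hphi]
      ring
    have h5 : (1 - Z) * F y = F y - hU K U ε f y := by
      simp only [hF]
      field_simp
    rw [h5, h3]
    simp only [hE]
    rw [h4]
    ring
  have hF0 : ∀ y, 0 ≤ F y := fun y => div_nonneg (hU0 y) hZ0.le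
  have hFav : av F = 1 := by
    have h3 : F = fun y => Z⁻¹ * hU K U ε f y := by
      funext y
      simp only [hF]
      rw [div_eq_inv_mul]
    rw [h3, av_mul, ← hZ]
    exact inv_mul_cancel₀ hZ0.ne'
  have hF1 : n1 F = 1 := by
    have h3 : n1 F = av F := by
      unfold n1
      congr 1
      funext y
      exact abs_of_nonneg (hF0 y)
    rw [h3, hFav]
  have hfun : (fun y => hU K U ε f y / Z - 1 - Lv y) =
      fun y => ((E y + A1 y) - B1 y) + (1 - Z) * F y := by
    funext y
    exact hdec y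
  have habs : |1 - Z| = |Z - 1| := abs_sub_comm _ _
  refine ⟨hZX, ?_, ?_⟩
  · rw [hfun]
    have h3 := n1add (fun y => (E y + A1 y) - B1 y) (fun y => (1 - Z) * F y)
    have h4 := n1sub (fun y => E y + A1 y) B1
    have h5 := n1add E A1
    have h6 : n1 (fun y => (1 - Z) * F y) = |Z - 1| := by rw [n1mul, hF1, mul_one, habs]
    have h7 : n1 A1 ≤ Y := le_trans (n1n2 _) hnA
    have h8 : n1 B1 ≤ κ := le_trans (n1n2 _) hnB
    rw [h6] at h3
    linarith
  · rw [hfun]
    have hs : ∀ y, Sop K (fun y => ((E y + A1 y) - B1 y) + (1 - Z) * F y) y =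
        ((Sop K E y + Sop K A1 y) - Sop K B1 y) + (1 - Z) * Sop K F y := by
      intro y
      rw [Sop_add, Sop_sub, Sop_add, Sop_mul]
    have hs' : Sop K (fun y => ((E y + A1 y) - B1 y) + (1 - Z) * F y) =
        fun y => ((Sop K E y + Sop K A1 y) - Sop K B1 y) + (1 - Z) * Sop K F y := funext hs
    rw [hs']
    have h3 := n2add (fun y => (Sop K E y + Sop K A1 y) - Sop K B1 y)
      (fun y => (1 - Z) * Sop K F y)
    have h4 := n2sub (fun y => Sop K E y + Sop K A1 y) (Sop K B1)
    have h5 := n2add (Sop K E) (Sop K A1)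
    have h6 : n2 (fun y => (1 - Z) * Sop K F y) = |Z - 1| * n2 (Sop K F) := by
      rw [n2mul, habs]
    have h7 : n2 (Sop K A1) ≤ 5 / 7 * Y := by
      have := (S2 A1).1
      linarith
    have h8 : n2 (Sop K B1) ≤ 5 / 7 * κ := by
      have := (S2 B1).1
      linarith
    have h9 : n2 (Sop K E) ≤ n1 E := (S2 E).2
    have hdel : del K ≤ 1 / 1000 := by
      have h10 : del K ^ 2 ≤ (1 / 1000) ^ 2 := by
        rw [del2]
        linarith
      exact (pow_le_pow_iff_left₀ del0 (by norm_num) two_ne_zero).1 h10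
    -- `S F`
    have hSF : n2 (Sop K F) ≤ 4 / 1000 := by
      set G : W → ℝ := fun y => ∑ c ∈ U, ε c * Sop K (f c) y with hG
      have h10 : hU K U ε f = fun y => ((fun _ => (1 : ℝ)) y + G y) + E y := by
        funext y
        simp only [hE, hG]
        ring
      have h11 : ∀ y, Sop K (hU K U ε f) y = (dl K y + Sop K G y) + Sop K E y := by
        intro y
        conv_lhs => rw [h10]
        rw [Sop_add K (fun y => (fun _ => (1 : ℝ)) y + G y) E, Sop_add K (fun _ => (1 : ℝ)) G]
        rfl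
      have h12 : n2 (Sop K (hU K U ε f)) ≤ del K + 5 / 7 * (7 / 2000) + n1 E := by
        have e1 : Sop K (hU K U ε f) = fun y => (dl K y + Sop K G y) + Sop K E y := funext h11
        rw [e1]
        have e2 := n2add (fun y => dl K y + Sop K G y) (Sop K E)
        have e3 := n2add (dl K) (Sop K G)
        rw [n2dl] at e3
        have e4 := (S2 G).1
        have e5 : n2 G ≤ 7 / 2000 := hn2
        linarith
      have h13 : F = fun y => Z⁻¹ * hU K U ε f y := by
        funext y
        simp only [hF]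
        rw [div_eq_inv_mul]
      have h14 : Sop K F = fun y => Z⁻¹ * Sop K (hU K U ε f) y := by
        conv_lhs => rw [h13]
        funext y
        exact Sop_mul K _ _ y
      rw [h14, n2mul, abs_of_pos (inv_pos.2 hZ0), inv_mul_le_iff₀ hZ0]
      have h15 : n1 E ≤ 46 / 1000000 := by linarith
      nlinarith
    have h10 : |Z - 1| * n2 (Sop K F) ≤ |Z - 1| * (4 / 1000) :=
      mul_le_mul_of_nonneg_left hSF (abs_nonneg _)
    rw [h6] at h3
    linarith

end Pool.Agent.TFin
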