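import Pool.Agent.TLT.Targets

set_option autoImplicit false

/-!
# Large trees in tournaments (MP_d27362_co): definitions

Kernels, averages and the skew operator are those of `Pool.Agent.TLT.Defs`:
`av f` is the average of `f`, `Krn K` says that `K` is nonnegative with `K x y + K y x = 2`,
`Sop K f x = av (fun y => (K x y - 1) * f y)`, `dl K = Sop K 1`, `xx K = av (dl K ^ 2)`.
-/

namespace Pool.Agent.TFin

open Finset
open Pool.Agent.TLT (av Krn Sop dl xx)

noncomputable section

/-! ### Trees -/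

/-- A rooted tree on `V` given by its parent map and its depth function. -/
structure RT {V : Type} (par : V → V) (dep : V → ℕ) (r : V) : Prop where
  root : dep r = 0
  step : ∀ v, v ≠ r → dep v = dep (par v) + 1

section Tree

variable {V : Type} [Fintype V] [DecidableEq V]

/-- the children of `v` -/
def ch (par : V → V) (r v : V) : Finset V := univ.filter fun c => c ≠ r ∧ par c = v

/-- sum over the descendants at distance `j` -/
def Dj (par : V → V) (r : V) (F : V → ℝ) : ℕ → V → ℝ
  | 0, v => F v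
  | j + 1, v => ∑ c ∈ ch par r v, Dj par r F j c

/-- number of descendants at distance `j` -/
def dn (par : V → V) (r : V) (j : ℕ) (v : V) : ℝ := Dj par r (fun _ => 1) j v

/-- discounted sum over all descendants -/
def hat (par : V → V) (r : V) (F : V → ℝ) (v : V) : ℝ :=
  ∑ j ∈ range (Fintype.card V), (3 / 4 : ℝ) ^ j * Dj par r F j v

/-- The vertices with many children carry few edges. -/
def Tame (κ : ℕ → ℕ) (par : V → V) (r : V) : Prop :=
  ∀ m : ℕ, m * ∑ v ∈ univ.filter (fun v => κ m ≤ (ch par r v).card), (ch par r v).card ≤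
    Fintype.card V

/-- A pairing of the children of every vertex, with at most one child left alone. -/
structure Pairing (par : V → V) (r : V) (π : V → V) : Prop where
  inv : ∀ c, π (π c) = c
  root : π r = r
  hpar : ∀ c, c ≠ r → par (π c) = par c
  single : ∀ c c', c ≠ r → c' ≠ r → par c = par c' → π c = c → π c' = c' → c = c'

/-- signs, opposite on partners -/
def Sgn (π : V → V) (ε : V → ℝ) : Prop :=
  (∀ c, ε c = 1 ∨ ε c = -1) ∧ ∀ c, π c ≠ c → ε (π c) = - ε c

/-- signed number of descendants at distance `j` -/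
def NN (par : V → V) (r : V) (ε : V → ℝ) : ℕ → V → ℝ
  | 0, _ => 1
  | j + 1, v => ∑ c ∈ ch par r v, ε c * NN par r ε j c

/-- `P_v` -/
def PP (par : V → V) (r : V) (ε : V → ℝ) (v : V) : ℝ :=
  ∑ j ∈ range (Fintype.card V), (5 / 7 : ℝ) ^ j * |NN par r ε (j + 1) v|

/-- `q_v` -/
def qq (par : V → V) (r : V) (ε : V → ℝ) (v : V) : ℝ :=
  ∑ i ∈ range (Fintype.card V + 1), (5 / 8 : ℝ) ^ i * NN par r ε i v ^ 2

/-- `R_v` -/
def RR (par : V → V) (r : V) (ε : V → ℝ) (v : V) : ℝ :=
  11 * (qq par r ε v + ∑ c ∈ ch par r v, qq par r ε c)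

/-- the sum of the large values of `hat R` -/
def Ups (par : V → V) (r : V) (ε : V → ℝ) (k : ℝ) : ℝ :=
  ∑ v ∈ univ.filter (fun v => k < hat par r (RR par r ε) v), hat par r (RR par r ε) v

/-- second order sums -/
def BB (par : V → V) (r : V) (ε : V → ℝ) (i j : ℕ) : ℝ :=
  ∑ v, ∑ c ∈ ch par r v, ∑ c' ∈ (ch par r v).erase c,
    ε c * ε c' * NN par r ε i c * NN par r ε j c'

/-- second order sums -/
def MM (par : V → V) (r : V) (ε : V → ℝ) (m : ℕ) : ℝ := ∑ v, NN par r ε m v

/-- all second order sums together -/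
def SEC (par : V → V) (r : V) (ε : V → ℝ) : ℝ :=
  ∑ i ∈ range (Fintype.card V), (5 / 7 : ℝ) ^ (i + 1) *
      (|BB par r ε (i + 1) 0| + |MM par r ε (i + 3)|) +
    1 / 2 * ∑ i ∈ range (Fintype.card V), ∑ j ∈ range (Fintype.card V),
      (5 / 7 : ℝ) ^ (i + j + 2) * |BB par r ε (i + 1) (j + 1)|

/-- the sign of the parent edge -/
def ev (r : V) (ε : V → ℝ) (v : V) : ℝ := if v = r then 0 else ε v

/-- the sign of the single child (`0` if there is none) -/
def s0 (par : V → V) (r : V) (π : V → V) (ε : V → ℝ) (v : V) : ℝ :=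
  ∑ c ∈ (ch par r v).filter (fun c => π c = c), ε c

/-- the number of pairs of children -/
def np (par : V → V) (r : V) (v : V) : ℕ := (ch par r v).card / 2

/-- first order sums, by classes; `A` is the set of the middle vertices of the cherries -/
def PUR (par : V → V) (r : V) (π : V → V) (A : Finset V) (ε : V → ℝ) (k : ℕ) : ℝ :=
  ∑ m ∈ range (k + 1),
    ((m : ℝ) * |∑ v ∈ univ.filter (fun v => (ch par r v).card ≤ k ∧ np par r v = m),
        (s0 par r π ε v - ev r ε v)| +
      |∑ v ∈ univ.filter (fun v => (ch par r v).card ≤ k ∧ np par r v = m),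
        (s0 par r π ε v * ev r ε v - if v ∈ A then 1 else 0)|)

end Tree

/-! ### Norms -/

/-- `L¹` norm -/
def n1 {W : Type} [Fintype W] (f : W → ℝ) : ℝ := av fun y => |f y|

/-- `L²` norm -/
def n2 {W : Type} [Fintype W] (f : W → ℝ) : ℝ := Real.sqrt (av fun y => f y ^ 2)

/-- `δ` -/
def del {W : Type} [Fintype W] (K : W → W → ℝ) : ℝ := Real.sqrt (xx K)

section TreeKernel

variable {V : Type} [Fintype V] [DecidableEq V] {W : Type} [Fintype W]

/-- the linear field `L_v` -/
def LL (par : V → V) (r : V) (ε : V → ℝ) (K : W → W → ℝ) (v : V) (y : W) : ℝ :=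
  ∑ j ∈ range (Fintype.card V), NN par r ε (j + 1) v * ((Sop K)^[j] (dl K)) y

/-- the contribution of the removed children -/
def kap (par : V → V) (r : V) (ε : V → ℝ) (K : W → W → ℝ) (Cut : Finset V) (v : V) : ℝ :=
  del K * ∑ c ∈ ch par r v ∩ Cut, (1 + PP par r ε c)

/-- the densities of the branches of a forest: all edges above the vertices of `Cut` are
removed -/
def IsVal (par : V → V) (r : V) (Cut : Finset V) (ε : V → ℝ) (K : W → W → ℝ)
    (F : V → W → ℝ) : Prop :=
  ∀ v y, F v y = ∏ c ∈ ch par r v \ Cut, (av (F c) + ε c * Sop K (F c) y)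

/-- The adaptive recursion near regular kernels. -/
structure Run (par : V → V) (r : V) (π : V → V) (ε : V → ℝ) (K : W → W → ℝ) (τ : ℝ)
    (f h : V → W → ℝ) (X : V → ℝ) (Cut : Finset V) : Prop where
  cut : ∀ v, v ∈ Cut ↔ v ≠ r ∧ (τ < X v ∨ τ < X (π v))
  hh : ∀ v y, h v y = ∏ c ∈ ch par r v \ Cut, (1 + ε c * Sop K (f c) y)
  ff : ∀ v y, f v y = h v y / av (h v)
  XX : ∀ v, X v = xx K * RR par r ε v +
    ∑ c ∈ ch par r v \ Cut, n1 (fun y => f c y - 1 - LL par r ε K c y) +
    kap par r ε K Cut v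

/-- the main term at a vertex with set of children `C` -/
def Th (K : W → W → ℝ) (C : Finset V) (ε : V → ℝ) (e : ℝ) (L : V → W → ℝ) : ℝ :=
  (av (fun y => (∏ c ∈ C, (1 + ε c * dl K y)) * (1 - e * dl K y)) - 1) +
    ∑ c ∈ C, ∑ c' ∈ C.erase c, ε c * ε c' * av (fun y => dl K y * Sop K (L c) y) +
    1 / 2 * ∑ c ∈ C, ∑ c' ∈ C.erase c,
      ε c * ε c' * av (fun y => Sop K (L c) y * Sop K (L c') y) -
    e * ∑ c ∈ C, ε c * av (fun y => dl K y * Sop K (L c) y)

end TreeKernel

/-! ### Random signs -/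

section Random

variable {V : Type} [Fintype V] [DecidableEq V]

/-- expectation over all assignments of bits to the labels -/
def Ex (F : (V → Bool) → ℝ) : ℝ := (∑ ζ : V → Bool, F ζ) / 2 ^ Fintype.card V

/-- flip the bits in `D` -/
def flipS (D : Finset V) (ζ : V → Bool) : V → Bool := fun l => if l ∈ D then !ζ l else ζ l

/-- the sign of the edge above `c` -/
def sg (lab : V → V) (sn : V → ℝ) (ζ : V → Bool) (c : V) : ℝ :=
  sn c * (if ζ (lab c) then 1 else -1)

/-- The layout of the random signs: `π` is the pairing of the children, `lab` gives the labels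
of the edges, `sn` fixed signs, and `B` is a set of lower ends of vertical cherries
`w, par w, par (par w)` inside threads, whose two edges get the same sign. -/
structure Lay (par : V → V) (dep : V → ℕ) (r : V) (π lab : V → V) (sn : V → ℝ)
    (B : Finset V) : Prop where
  pr : Pairing par r π
  sn1 : ∀ c, sn c = 1 ∨ sn c = -1
  snpi : ∀ c, π c ≠ c → sn (π c) = - sn c
  labpi : ∀ c, lab (π c) = lab c
  Br : ∀ w ∈ B, w ≠ r ∧ par w ≠ r ∧ par (par w) ≠ r
  Bc : ∀ w ∈ B, (ch par r w).card ≤ 1 ∧ ch par r (par w) = {w} ∧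
    ch par r (par (par w)) = {par w} ∧ ch par r (par (par (par w))) = {par (par w)}
  Bl : ∀ w ∈ B, lab w = lab (par w) ∧ sn w = sn (par w)
  Bd : ∃ a, ∀ w ∈ B, dep w % 3 = a
  inj : ∀ c c', c ≠ r → c' ≠ r → lab c = lab c' →
    c' = c ∨ c' = π c ∨ (c ∈ B ∧ c' = par c) ∨ (c' ∈ B ∧ c = par c')
  two : ∀ l, (univ.filter fun c => c ≠ r ∧ lab c = l).card ≤ 2

/-- `v` is the top of a cherry none of whose two edges is removed -/
def Top (par : V → V) (B Cut : Finset V) (v : V) : Prop :=
  ∃ w ∈ B, par (par w) = v ∧ w ∉ Cut ∧ par w ∉ Cut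

/-- `v` has a pair of children none of whose two edges is removed -/
def HasPair (par : V → V) (r : V) (π : V → V) (Cut : Finset V) (v : V) : Prop :=
  ∃ c ∈ ch par r v, π c ≠ c ∧ c ∉ Cut ∧ π c ∉ Cut

open Classical in
/-- the recursion for the expected densities of the branches -/
def IsMean {W : Type} [Fintype W] (par : V → V) (r : V) (π : V → V) (sn : V → ℝ)
    (B Cut : Finset V) (K : W → W → ℝ) (g : V → W → ℝ) : Prop :=
  (∀ v, ¬ Top par B Cut v → ∀ y, g v y =
    (∏ c ∈ (ch par r v \ Cut).filter (fun c => π c ≠ c ∧ π c ∉ Cut ∧ sn c = 1),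
      (av (g c) * av (g (π c)) - Sop K (g c) y * Sop K (g (π c)) y)) *
    ∏ c ∈ (ch par r v \ Cut).filter (fun c => π c = c ∨ π c ∈ Cut), av (g c)) ∧
  (∀ w ∈ B, w ∉ Cut → par w ∉ Cut → ∀ y,
    g (par (par w)) y = av (g w) * (1 + Sop K (dl K) y))

end Random

end

end Pool.Agent.TFin
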