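import Pool.Agent.TFin.Targets

set_option autoImplicit false

/-!
# ES: the Efron-Stein inequality on the cube (MP_d27362_co)
-/

namespace Pool.Agent.TFin

open Finset

namespace ES_

variable {V : Type} [DecidableEq V]

lemma fflip (D : Finset V) (ζ : V → Bool) : flipS D (flipS D ζ) = ζ := by
  funext l
  unfold flipS
  by_cases h : l ∈ D <;> simp [h]

lemma flip_comm (D D' : Finset V) (ζ : V → Bool) :
    flipS D (flipS D' ζ) = flipS D' (flipS D ζ) := by
  funext l
  unfold flipS
  by_cases h : l ∈ D <;> by_cases h' : l ∈ D' <;> simp [h, h']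

lemma flip_insert {l : V} {D : Finset V} (h : l ∉ D) (ζ : V → Bool) :
    flipS (insert l D) ζ = flipS {l} (flipS D ζ) := by
  funext j
  unfold flipS
  by_cases h1 : j = l
  · subst h1
    simp [h]
  · by_cases h2 : j ∈ D <;> simp [h1, h2]

lemma flip_empty (ζ : V → Bool) : flipS (∅ : Finset V) ζ = ζ := by
  funext l
  unfold flipS
  simp

/-- a function invariant under all flips is constant -/
lemma const_of_flip [Fintype V] (G : (V → Bool) → ℝ) (h : ∀ l ζ, G (flipS {l} ζ) = G ζ) (ζ ζ' : V → Bool) :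
    G ζ = G ζ' := by
  have h1 : ∀ D : Finset V, ∀ ζ, G (flipS D ζ) = G ζ := by
    intro D
    induction D using Finset.induction_on with
    | empty => intro ζ; rw [flip_empty]
    | insert l D hl ih =>
      intro ζ
      rw [flip_insert hl, h, ih]
  have h2 : ζ' = flipS (univ.filter fun l => ζ l ≠ ζ' l) ζ := by
    funext l
    unfold flipS
    by_cases h3 : ζ l = ζ' l
    · simp [h3]
    · simp only [mem_filter, mem_univ, true_and, ne_eq, h3, not_false_eq_true, if_true]
      cases h4 : ζ l <;> cases h5 : ζ' l <;> simp_all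
  rw [h2, h1]

end ES_

open ES_ in
theorem p_ES (h1 : T_CUBE) : T_ES := by
  intro V _ _ F C hC hF
  obtain ⟨hlin, -, hmono, hconst, -, -, hflip, hanti, -, -⟩ := h1 V
  -- the variance bound
  have key : ∀ (A : Finset V) (G : (V → Bool) → ℝ), (∀ ζ l, |G (flipS {l} ζ) - G ζ| ≤ C) →
      (∀ l, l ∉ A → ∀ ζ, G (flipS {l} ζ) = G ζ) →
      Ex (fun ζ => (G ζ - Ex G) ^ 2) ≤ A.card * (C ^ 2 / 4) := by
    intro A
    induction A using Finset.induction_on with
    | empty =>
      intro G _ hG
      have hc : ∀ ζ, G ζ = Ex G := by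
        intro ζ
        have h2 : G = fun _ => G ζ := by
          funext ζ'
          exact const_of_flip G (fun l ζ => hG l (by simp) ζ) ζ' ζ
        have h3 : Ex G = G ζ := by
          conv_lhs => rw [h2]
          exact hconst (G ζ)
        exact h3.symm
      have h4 : (fun ζ : V → Bool => (G ζ - Ex G) ^ 2) = fun _ => (0 : ℝ) := by
        funext ζ
        rw [hc ζ, sub_self]
        norm_num
      rw [h4, hconst]
      simp
    | insert l A hl ih =>
      intro G hG hinv
      set H : (V → Bool) → ℝ := fun ζ => 1 / 2 * G ζ + 1 / 2 * G (flipS {l} ζ) with hH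
      set K : (V → Bool) → ℝ := fun ζ => 1 / 2 * G ζ + (-1 / 2) * G (flipS {l} ζ) with hK
      have hEH : Ex H = Ex G := by
        rw [hH, hlin, hflip]
        ring
      have hH1 : ∀ ζ j, |H (flipS {j} ζ) - H ζ| ≤ C := by
        intro ζ j
        have a1 := hG ζ j
        have a2 := hG (flipS {l} ζ) j
        have a3 : H (flipS {j} ζ) - H ζ = 1 / 2 * (G (flipS {j} ζ) - G ζ) +
            1 / 2 * (G (flipS {j} (flipS {l} ζ)) - G (flipS {l} ζ)) := by
          rw [hH]
          simp only
          rw [flip_comm {l} {j}]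
          ring
        rw [a3]
        refine (abs_add_le _ _).trans ?_
        rw [abs_mul, abs_mul, abs_of_nonneg (by norm_num : (0 : ℝ) ≤ 1 / 2)]
        linarith
      have hHl : ∀ ζ, H (flipS {l} ζ) = H ζ := by
        intro ζ
        rw [hH]
        simp only
        rw [fflip]
        ring
      have hH2 : ∀ j, j ∉ A → ∀ ζ, H (flipS {j} ζ) = H ζ := by
        intro j hj ζ
        by_cases hjl : j = l
        · rw [hjl]; exact hHl ζ
        · have hj' : j ∉ insert l A := by
            rw [Finset.mem_insert, not_or]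
            exact ⟨hjl, hj⟩
          rw [hH]
          simp only
          rw [flip_comm {l} {j}, hinv j hj', hinv j hj']
      have hih := ih H hH1 hH2
      have hKa : ∀ ζ, K (flipS {l} ζ) = - K ζ := by
        intro ζ
        rw [hK]
        simp only
        rw [fflip]
        ring
      have hcross : Ex (fun ζ => (H ζ - Ex G) * K ζ) = 0 := by
        refine hanti {l} _ fun ζ => ?_
        rw [hHl, hKa]
        ring
      have hK2 : ∀ ζ, K ζ ^ 2 ≤ C ^ 2 / 4 := by
        intro ζ
        have a1 := hG ζ l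
        have a2 : K ζ = -(1 / 2) * (G (flipS {l} ζ) - G ζ) := by
          rw [hK]
          ring
        rw [a2]
        have a3 : (G (flipS {l} ζ) - G ζ) ^ 2 ≤ C ^ 2 := by
          rw [← sq_abs]
          exact pow_le_pow_left₀ (abs_nonneg _) a1 2
        nlinarith
      have hdec : Ex (fun ζ => (G ζ - Ex G) ^ 2) =
          Ex (fun ζ => (H ζ - Ex G) ^ 2) + Ex (fun ζ => K ζ ^ 2) := by
        have b1 : (fun ζ => (G ζ - Ex G) ^ 2) =
            fun ζ => 1 * ((H ζ - Ex G) ^ 2) + 1 * (K ζ ^ 2 + 2 * ((H ζ - Ex G) * K ζ)) := by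
          funext ζ
          have : G ζ = H ζ + K ζ := by rw [hH, hK]; ring
          rw [this]
          ring
        have b2 : (fun ζ => K ζ ^ 2 + 2 * ((H ζ - Ex G) * K ζ)) =
            fun ζ => 1 * K ζ ^ 2 + 2 * ((H ζ - Ex G) * K ζ) := by
          funext ζ
          ring
        rw [b1, hlin, b2, hlin, hcross]
        ring
      have hEK : Ex (fun ζ => K ζ ^ 2) ≤ C ^ 2 / 4 := by
        refine (hmono _ (fun _ => C ^ 2 / 4) hK2).trans ?_
        rw [hconst]
      rw [hdec, Finset.card_insert_of_notMem hl]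
      rw [hEH] at hih
      push_cast
      linarith
  have hvar := key univ F hF (fun l hl => absurd (mem_univ l) hl)
  rw [Finset.card_univ] at hvar
  set m := Ex F with hm
  set a := Ex (fun ζ => |F ζ - m|) with ha
  have hJ : a ^ 2 ≤ Ex (fun ζ => (F ζ - m) ^ 2) := by
    have c1 : 0 ≤ Ex (fun ζ => (|F ζ - m| - a) ^ 2) := by
      have := hmono (fun _ => 0) (fun ζ => (|F ζ - m| - a) ^ 2) (fun ζ => sq_nonneg _)
      rwa [hconst] at this
    have c2 : (fun ζ => (|F ζ - m| - a) ^ 2) =
        fun ζ => 1 * (F ζ - m) ^ 2 + 1 * ((-2 * a) * |F ζ - m| + a ^ 2 * 1) := by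
      funext ζ
      have := sq_abs (F ζ - m)
      nlinarith
    rw [c2, hlin, hlin, hconst, ← ha] at c1
    nlinarith
  have hn : (0 : ℝ) ≤ Fintype.card V := Nat.cast_nonneg _
  have h5 : a ^ 2 ≤ (C * Real.sqrt (Fintype.card V)) ^ 2 := by
    rw [mul_pow, Real.sq_sqrt hn]
    nlinarith [mul_nonneg hn (sq_nonneg C)]
  have h6 : 0 ≤ C * Real.sqrt (Fintype.card V) := mul_nonneg hC (Real.sqrt_nonneg _)
  exact abs_le_of_sq_le_sq' h5 h6 |>.2

end Pool.Agent.TFin
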