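import Pool.Agent.TFin.Targets

set_option autoImplicit false

/-!
# TFin: EXP, third order expansion of a product
-/

namespace Pool.Agent.TFin

open Finset

/-- the induction hypothesis -/
private structure EXPH (A B b θ P H SB SE DE DD T : ℝ) : Prop where
  aP : |P| ≤ A
  aH : |H| ≤ B
  b1 : ∀ t : ℝ, 0 ≤ t → t ≤ 1 → t * |P - 1| ≤ A * (T + t ^ 2)
  b2 : |b| * |P - 1| ≤ A * T
  c : |P - H| ≤ A * θ
  d : |P - 1 - SB - SE| ≤ A * T
  e : |b| * |P - H - SE| ≤ A * (θ * T)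
  f : |P - H - SE - DE - 1 / 2 * DD| ≤ A * (θ * T)
  g1 : |b| * |H - 1| ≤ B * b ^ 2
  g2 : |H - 1 - SB| ≤ B * b ^ 2

private theorem EXPstep (A B b θ P H SB SE DE DD T be ee : ℝ) (hA : 0 ≤ A)
    (hb : |b| ≤ 1) (hθ : 0 ≤ θ) (hθ1 : θ ≤ 1) (hT : b ^ 2 ≤ T) (hbe : |be| = |b|)
    (hee : |ee| ≤ θ) (h : EXPH A B b θ P H SB SE DE DD T) :
    EXPH (3 * A) (2 * B) b θ (P * (1 + be + ee)) (H * (1 + be)) (SB + be) (SE + ee)
      (DE + ee * SB + be * SE) (DD + 2 * (ee * SE)) (T + ee ^ 2) := by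
  obtain ⟨aP, aH, b1, b2, c, d, e, f, g1, g2⟩ := h
  have hb0 := abs_nonneg b
  have he0 := abs_nonneg ee
  have hb2 : |b| ^ 2 = b ^ 2 := sq_abs b
  have he2 : |ee| ^ 2 = ee ^ 2 := sq_abs ee
  have heq : 0 ≤ ee ^ 2 := sq_nonneg _
  have hbq : 0 ≤ b ^ 2 := sq_nonneg _
  have hT0 : 0 ≤ T := hbq.trans hT
  have hB0 : 0 ≤ B := (abs_nonneg _).trans aH
  have hAT : 0 ≤ A * T := mul_nonneg hA hT0
  have hAe : 0 ≤ A * ee ^ 2 := mul_nonneg hA heq
  have hAb : A * b ^ 2 ≤ A * T := mul_le_mul_of_nonneg_left hT hA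
  have hbP : |be * P| ≤ |b| * A := by
    rw [abs_mul, hbe]
    exact mul_le_mul_of_nonneg_left aP hb0
  have heP : |ee * P| ≤ |ee| * A := by
    rw [abs_mul]
    exact mul_le_mul_of_nonneg_left aP he0
  have hθT : 0 ≤ θ * T := mul_nonneg hθ hT0
  have hθe : 0 ≤ θ * ee ^ 2 := mul_nonneg hθ heq
  have hAθT : 0 ≤ A * (θ * T) := mul_nonneg hA hθT
  have hAθe : 0 ≤ A * (θ * ee ^ 2) := mul_nonneg hA hθe
  have hP1 : |P * (1 + be + ee) - 1| ≤ |P - 1| + |b| * A + |ee| * A := by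
    have : P * (1 + be + ee) - 1 = (P - 1) + be * P + ee * P := by ring
    rw [this]
    refine (abs_add_le _ _).trans (add_le_add ((abs_add_le _ _).trans ?_) heP)
    linarith
  refine ⟨?_, ?_, ?_, ?_, ?_, ?_, ?_, ?_, ?_, ?_⟩
  · rw [abs_mul]
    have h1 : |1 + be + ee| ≤ 3 := by
      refine (abs_add_le _ _).trans ?_
      have := abs_add_le 1 be
      rw [abs_one] at this
      linarith
    have h2 : |P| * |1 + be + ee| ≤ A * 3 :=
      mul_le_mul aP h1 (abs_nonneg _) hA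
    linarith
  · rw [abs_mul]
    have h1 : |1 + be| ≤ 2 := by
      have := abs_add_le 1 be
      rw [abs_one] at this
      linarith
    have h2 : |H| * |1 + be| ≤ B * 2 := mul_le_mul aH h1 (abs_nonneg _) hB0
    linarith
  · intro t ht0 ht1
    have h1 := b1 t ht0 ht1
    have h2 : t * |P * (1 + be + ee) - 1| ≤ t * (|P - 1| + |b| * A + |ee| * A) :=
      mul_le_mul_of_nonneg_left hP1 ht0
    have h3 : A * (t * |b|) ≤ A * ((b ^ 2 + t ^ 2) / 2) :=
      mul_le_mul_of_nonneg_left (by nlinarith [sq_nonneg (t - |b|)]) hA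
    have h4 : A * (t * |ee|) ≤ A * ((ee ^ 2 + t ^ 2) / 2) :=
      mul_le_mul_of_nonneg_left (by nlinarith [sq_nonneg (t - |ee|)]) hA
    have h5 : 0 ≤ A * t ^ 2 := mul_nonneg hA (sq_nonneg _)
    nlinarith
  · have h2 : |b| * |P * (1 + be + ee) - 1| ≤ |b| * (|P - 1| + |b| * A + |ee| * A) :=
      mul_le_mul_of_nonneg_left hP1 hb0
    have h4 : A * (|b| * |ee|) ≤ A * ((b ^ 2 + ee ^ 2) / 2) :=
      mul_le_mul_of_nonneg_left (by nlinarith [sq_nonneg (|b| - |ee|)]) hA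
    have h5 : |b| * (|b| * A) = A * b ^ 2 := by rw [← hb2]; ring
    nlinarith
  · have : P * (1 + be + ee) - H * (1 + be) = (P - H) + be * (P - H) + ee * P := by ring
    rw [this]
    have h1 : |be * (P - H)| ≤ A * θ := by
      rw [abs_mul, hbe]
      calc |b| * |P - H| ≤ 1 * |P - H| := mul_le_mul_of_nonneg_right hb (abs_nonneg _)
        _ ≤ _ := by linarith
    have h2 : |ee| * A ≤ θ * A := mul_le_mul_of_nonneg_right hee hA
    refine (abs_add_le _ _).trans ?_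
    have h3 := abs_add_le (P - H) (be * (P - H))
    linarith
  · have : P * (1 + be + ee) - 1 - (SB + be) - (SE + ee) =
        (P - 1 - SB - SE) + be * (P - 1) + ee * (P - 1) := by ring
    rw [this]
    have h1 : |be * (P - 1)| ≤ A * T := by rw [abs_mul, hbe]; exact b2
    have h2 : |ee * (P - 1)| ≤ A * (T + ee ^ 2) := by
      rw [abs_mul, ← he2]
      exact b1 |ee| he0 (hee.trans hθ1)
    refine (abs_add_le _ _).trans ?_
    have h3 := abs_add_le (P - 1 - SB - SE) (be * (P - 1))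
    nlinarith
  · have : P * (1 + be + ee) - H * (1 + be) - (SE + ee) =
        (P - H - SE) + be * (P - H) + ee * (P - 1) := by ring
    rw [this]
    have h0 : |(P - H - SE) + be * (P - H) + ee * (P - 1)| ≤
        |P - H - SE| + |b| * |P - H| + |ee| * |P - 1| := by
      refine (abs_add_le _ _).trans ?_
      have h3 := abs_add_le (P - H - SE) (be * (P - H))
      rw [abs_mul, hbe] at h3
      rw [abs_mul ee]
      linarith
    have h1 : |b| * (|b| * |P - H|) ≤ A * (θ * T) := by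
      calc |b| * (|b| * |P - H|) = b ^ 2 * |P - H| := by rw [← hb2]; ring
        _ ≤ T * (A * θ) := mul_le_mul hT c (abs_nonneg _) hT0
        _ = _ := by ring
    have h2 : |b| * (|ee| * |P - 1|) ≤ A * (θ * T) := by
      calc |b| * (|ee| * |P - 1|) = |ee| * (|b| * |P - 1|) := by ring
        _ ≤ θ * (A * T) := mul_le_mul hee b2 (by positivity) hθ
        _ = _ := by ring
    have h3 : |b| * |(P - H - SE) + be * (P - H) + ee * (P - 1)| ≤
        |b| * (|P - H - SE| + |b| * |P - H| + |ee| * |P - 1|) :=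
      mul_le_mul_of_nonneg_left h0 hb0
    nlinarith
  · have : P * (1 + be + ee) - H * (1 + be) - (SE + ee) - (DE + ee * SB + be * SE) -
        1 / 2 * (DD + 2 * (ee * SE)) =
        (P - H - SE - DE - 1 / 2 * DD) + be * (P - H - SE) + ee * (P - 1 - SB - SE) := by ring
    rw [this]
    have h1 : |be * (P - H - SE)| ≤ A * (θ * T) := by rw [abs_mul, hbe]; exact e
    have h2 : |ee * (P - 1 - SB - SE)| ≤ A * (θ * T) := by
      rw [abs_mul]
      calc |ee| * |P - 1 - SB - SE| ≤ θ * (A * T) := mul_le_mul hee d (abs_nonneg _) hθ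
        _ = _ := by ring
    refine (abs_add_le _ _).trans ?_
    have h3 := abs_add_le (P - H - SE - DE - 1 / 2 * DD) (be * (P - H - SE))
    nlinarith
  · have : H * (1 + be) - 1 = (H - 1) + be * H := by ring
    rw [this]
    have h1 : |(H - 1) + be * H| ≤ |H - 1| + |b| * B := by
      refine (abs_add_le _ _).trans (add_le_add le_rfl ?_)
      rw [abs_mul, hbe]
      exact mul_le_mul_of_nonneg_left aH hb0
    have h2 : |b| * |(H - 1) + be * H| ≤ |b| * (|H - 1| + |b| * B) :=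
      mul_le_mul_of_nonneg_left h1 hb0
    have h3 : |b| * (|b| * B) = B * b ^ 2 := by rw [← hb2]; ring
    nlinarith
  · have : H * (1 + be) - 1 - (SB + be) = (H - 1 - SB) + be * (H - 1) := by ring
    rw [this]
    have h1 : |be * (H - 1)| ≤ B * b ^ 2 := by rw [abs_mul, hbe]; exact g1
    refine (abs_add_le _ _).trans ?_
    linarith

private theorem EXPmain {V : Type} [DecidableEq V] (ε e : V → ℝ) (b θ : ℝ) (hb : |b| ≤ 1)
    (hθ : 0 ≤ θ) (hθ1 : θ ≤ 1) (U : Finset V) :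
    (∀ c ∈ U, ε c = 1 ∨ ε c = -1) → (∀ c ∈ U, |e c| ≤ θ) →
    EXPH (3 ^ U.card) (2 ^ U.card) b θ (∏ c ∈ U, (1 + ε c * b + e c)) (∏ c ∈ U, (1 + ε c * b))
      (∑ c ∈ U, ε c * b) (∑ c ∈ U, e c) (∑ c ∈ U, ∑ c' ∈ U.erase c, e c * (ε c' * b))
      (∑ c ∈ U, ∑ c' ∈ U.erase c, e c * e c') (b ^ 2 + ∑ c ∈ U, e c ^ 2) := by
  induction U using Finset.induction_on with
  | empty =>
    intro _ _
    refine ⟨?_, ?_, ?_, ?_, ?_, ?_, ?_, ?_, ?_, ?_⟩
    all_goals try simp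
    · intro t _ _; positivity
    · exact sq_nonneg b
    · exact hθ
    · exact sq_nonneg b
    · positivity
    · positivity
    · exact sq_nonneg b
    · exact sq_nonneg b
  | insert a U ha ih =>
    intro h1 h2
    have ihU := ih (fun c hc => h1 c (Finset.mem_insert_of_mem hc))
      (fun c hc => h2 c (Finset.mem_insert_of_mem hc))
    have hbe : |ε a * b| = |b| := by
      rcases h1 a (Finset.mem_insert_self _ _) with h | h <;> rw [h] <;> simp
    have hT : b ^ 2 ≤ b ^ 2 + ∑ c ∈ U, e c ^ 2 := by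
      have : 0 ≤ ∑ c ∈ U, e c ^ 2 := Finset.sum_nonneg fun _ _ => sq_nonneg _
      linarith
    have hs := EXPstep _ _ b θ _ _ _ _ _ _ _ (ε a * b) (e a) (by positivity) hb hθ hθ1 hT hbe
      (h2 a (Finset.mem_insert_self _ _)) ihU
    have hds : ∀ F : V → V → ℝ, ∑ c ∈ insert a U, ∑ c' ∈ (insert a U).erase c, F c c' =
        ∑ c ∈ U, ∑ c' ∈ U.erase c, F c c' + ∑ c' ∈ U, F a c' + ∑ c ∈ U, F c a := by
      intro F
      rw [Finset.sum_insert ha, Finset.erase_insert ha]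
      have : ∀ c ∈ U, ∑ c' ∈ (insert a U).erase c, F c c' =
          ∑ c' ∈ U.erase c, F c c' + F c a := by
        intro c hc
        have hca : a ≠ c := fun h => ha (h ▸ hc)
        rw [Finset.erase_insert_of_ne hca, Finset.sum_insert]
        · ring
        · intro h; exact ha (Finset.mem_of_mem_erase h)
      rw [Finset.sum_congr rfl this, Finset.sum_add_distrib]
      ring
    rw [hds, hds, Finset.card_insert_of_notMem ha, pow_succ, pow_succ, Finset.prod_insert ha,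
      Finset.prod_insert ha, Finset.sum_insert ha, Finset.sum_insert ha, Finset.sum_insert ha]
    have e1 : (1 + ε a * b + e a) * ∏ c ∈ U, (1 + ε c * b + e c) =
        (∏ c ∈ U, (1 + ε c * b + e c)) * (1 + ε a * b + e a) := mul_comm _ _
    have e2 : (1 + ε a * b) * ∏ c ∈ U, (1 + ε c * b) =
        (∏ c ∈ U, (1 + ε c * b)) * (1 + ε a * b) := mul_comm _ _
    have e3 : ∑ c' ∈ U, e a * (ε c' * b) = e a * ∑ c ∈ U, ε c * b := by
      rw [Finset.mul_sum]
    have e4 : ∑ c ∈ U, e c * (ε a * b) = ε a * b * ∑ c ∈ U, e c := by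
      rw [← Finset.sum_mul]; ring
    have e5 : ∑ c' ∈ U, e a * e c' = e a * ∑ c ∈ U, e c := by rw [Finset.mul_sum]
    have e6 : ∑ c ∈ U, e c * e a = e a * ∑ c ∈ U, e c := by
      rw [← Finset.sum_mul]; ring
    rw [e1, e2, e3, e4, e5, e6, mul_comm ((3 : ℝ) ^ U.card), mul_comm ((2 : ℝ) ^ U.card),
      add_comm (ε a * b), add_comm (e a) (∑ c ∈ U, e c)]
    have e7 : b ^ 2 + (e a ^ 2 + ∑ c ∈ U, e c ^ 2) = b ^ 2 + ∑ c ∈ U, e c ^ 2 + e a ^ 2 := by ring
    have e8 : ∑ c ∈ U, ∑ c' ∈ U.erase c, e c * e c' + e a * ∑ c ∈ U, e c + e a * ∑ c ∈ U, e c =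
        ∑ c ∈ U, ∑ c' ∈ U.erase c, e c * e c' + 2 * (e a * ∑ c ∈ U, e c) := by ring
    rw [e7, e8]
    exact hs

theorem p_EXP : T_EXP := by
  intro V _ U k ε e b θ hk hε hb hθ hθ1 he
  have h := EXPmain ε e b θ hb hθ hθ1 U hε he
  have hT0 : 0 ≤ b ^ 2 + ∑ c ∈ U, e c ^ 2 :=
    add_nonneg (sq_nonneg _) (Finset.sum_nonneg fun _ _ => sq_nonneg _)
  have h3 : (3 : ℝ) ^ U.card ≤ 3 ^ k := pow_le_pow_right₀ (by norm_num) hk
  have h2 : (2 : ℝ) ^ U.card ≤ 2 ^ k := pow_le_pow_right₀ (by norm_num) hk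
  refine ⟨?_, ?_, ?_, ?_⟩
  · refine h.f.trans ?_
    calc (3 : ℝ) ^ U.card * (θ * (b ^ 2 + ∑ c ∈ U, e c ^ 2)) ≤
          3 ^ k * (θ * (b ^ 2 + ∑ c ∈ U, e c ^ 2)) :=
        mul_le_mul_of_nonneg_right h3 (mul_nonneg hθ hT0)
      _ = _ := by ring
  · rw [abs_mul]
    refine h.e.trans ?_
    calc (3 : ℝ) ^ U.card * (θ * (b ^ 2 + ∑ c ∈ U, e c ^ 2)) ≤
          3 ^ k * (θ * (b ^ 2 + ∑ c ∈ U, e c ^ 2)) :=
        mul_le_mul_of_nonneg_right h3 (mul_nonneg hθ hT0)
      _ = _ := by ring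
  · rw [abs_mul]
    exact h.b2.trans (mul_le_mul_of_nonneg_right h3 hT0)
  · rw [Finset.sum_mul]
    exact h.g2.trans (mul_le_mul_of_nonneg_right h2 (sq_nonneg _))

end Pool.Agent.TFin
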