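import Pool.Agent.TFin.Targets

set_option autoImplicit false

/-!
# Large trees in tournaments (MP_d27362_co): existence of the recursions
-/

namespace Pool.Agent.TFin

open Finset
open Pool.Agent.TLT (av Krn Sop dl xx)

section EXV

variable {V : Type} [Fintype V] [DecidableEq V] {W : Type} [Fintype W]

lemma EXV_mem {par : V → V} {r a b : V} : b ∈ ch par r a ↔ b ≠ r ∧ par b = a := by
  unfold ch; simp

lemma EXV_pi {par : V → V} {r : V} {π : V → V} (h : Pairing par r π) {v c : V}
    (hc : c ∈ ch par r v) : π c ∈ ch par r v := by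
  rw [EXV_mem] at hc ⊢
  refine ⟨fun h1 => hc.1 ?_, (h.hpar c hc.1).trans hc.2⟩
  have h2 := h.inv c
  rw [h1, h.root] at h2
  exact h2.symm

open Classical in
/-- the right-hand side of the recursion of `IsMean` -/
noncomputable def EXV_pd (par : V → V) (r : V) (π : V → V) (sn : V → ℝ) (Cut : Finset V)
    (K : W → W → ℝ) (v : V) (g : V → W → ℝ) (y : W) : ℝ :=
  (∏ c ∈ (ch par r v \ Cut).filter (fun c => π c ≠ c ∧ π c ∉ Cut ∧ sn c = 1),
      (av (g c) * av (g (π c)) - Sop K (g c) y * Sop K (g (π c)) y)) *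
    ∏ c ∈ (ch par r v \ Cut).filter (fun c => π c = c ∨ π c ∈ Cut), av (g c)

lemma EXV_pd_congr {par : V → V} {r : V} {π : V → V} (h : Pairing par r π) (sn : V → ℝ)
    (Cut : Finset V) (K : W → W → ℝ) (v : V) (g g' : V → W → ℝ)
    (hg : ∀ c ∈ ch par r v, g c = g' c) :
    EXV_pd par r π sn Cut K v g = EXV_pd par r π sn Cut K v g' := by
  funext y
  unfold EXV_pd
  congr 1
  · refine prod_congr rfl (fun c hc => ?_)
    have hc1 : c ∈ ch par r v := (mem_sdiff.mp (mem_filter.mp hc).1).1
    rw [hg c hc1, hg (π c) (EXV_pi h hc1)]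
  · refine prod_congr rfl (fun c hc => ?_)
    have hc1 : c ∈ ch par r v := (mem_sdiff.mp (mem_filter.mp hc).1).1
    rw [hg c hc1]

open Classical in
/-- the recursion for pairs of functions -/
noncomputable def EXV_phi (par : V → V) (r : V) (π : V → V) (sn : V → ℝ) (B Cut : Finset V)
    (K : W → W → ℝ) (v : V) (g : V → (W → ℝ) × (W → ℝ)) : (W → ℝ) × (W → ℝ) :=
  (if Top par B Cut v then
      fun y => av (∑ c ∈ ch par r v, (g c).2) * (1 + Sop K (dl K) y)
    else EXV_pd par r π sn Cut K v (fun c => (g c).1),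
   ∑ c ∈ ch par r v, (g c).1)

lemma EXV_phi_congr {par : V → V} {r : V} {π : V → V} (h : Pairing par r π) (sn : V → ℝ)
    (B Cut : Finset V) (K : W → W → ℝ) (v : V) (g g' : V → (W → ℝ) × (W → ℝ))
    (hg : ∀ c ∈ ch par r v, g c = g' c) :
    EXV_phi par r π sn B Cut K v g = EXV_phi par r π sn B Cut K v g' := by
  unfold EXV_phi
  have h1 : ∑ c ∈ ch par r v, (g c).2 = ∑ c ∈ ch par r v, (g' c).2 :=
    sum_congr rfl (fun c hc => by rw [hg c hc])
  have h2 : ∑ c ∈ ch par r v, (g c).1 = ∑ c ∈ ch par r v, (g' c).1 :=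
    sum_congr rfl (fun c hc => by rw [hg c hc])
  rw [h1, h2, EXV_pd_congr h sn Cut K v (fun c => (g c).1) (fun c => (g' c).1)
    (fun c hc => by rw [hg c hc])]

end EXV

theorem p_EXV (h1 : T_REC) : T_EXV := by
  intro V _ _ par dep r h W _ _ K Cut
  obtain ⟨-, -, -, hrec, -, -⟩ := h1 V par dep r h
  refine ⟨fun ε => ?_, ?_⟩
  · obtain ⟨s, hs⟩ := hrec (W → ℝ) inferInstance
      (fun v g y => ∏ c ∈ ch par r v \ Cut, (av (g c) + ε c * Sop K (g c) y)) (by
        intro v g g' hg
        funext y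
        refine prod_congr rfl (fun c hc => ?_)
        rw [hg c (mem_sdiff.mp hc).1])
    exact ⟨s, fun v y => congrFun (hs v) y⟩
  · intro π lab sn B hlay
    obtain ⟨s, hs⟩ := hrec ((W → ℝ) × (W → ℝ)) inferInstance
      (EXV_phi par r π sn B Cut K) (fun v g g' hg => EXV_phi_congr hlay.pr sn B Cut K v g g' hg)
    refine ⟨fun v => (s v).1, ?_, ?_⟩
    · intro v hv y
      have e1 : (s v).1 = EXV_pd par r π sn Cut K v (fun c => (s c).1) := by
        conv_lhs => rw [hs v]
        unfold EXV_phi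
        rw [if_neg hv]
      show (s v).1 y = _
      rw [e1]
      rfl
    · intro w hw hw1 hw2 y
      obtain ⟨-, b2, b3, -⟩ := hlay.Bc w hw
      have htop : Top par B Cut (par (par w)) := ⟨w, hw, rfl, hw1, hw2⟩
      have e1 : (s (par w)).2 = (s w).1 := by
        conv_lhs => rw [hs (par w)]
        unfold EXV_phi
        simp only
        rw [b2, sum_singleton]
      have e2 : (s (par (par w))).1 = fun y => av ((s w).1) * (1 + Sop K (dl K) y) := by
        conv_lhs => rw [hs (par (par w))]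
        unfold EXV_phi
        rw [if_pos htop, b3, sum_singleton, e1]
      show (s (par (par w))).1 y = _
      rw [e2]

end Pool.Agent.TFin
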