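import Pool.Agent.TFin.Targets

set_option autoImplicit false

/-!
# Large trees in tournaments: FIN, the theorem
-/

namespace Pool.Agent.TFin

open Finset
open Pool.Agent.TLT (av Krn Sop dl xx)

noncomputable section

namespace FIN_

variable {V : Type}

/-- an automorphism of the rooted tree is an automorphism of the graph -/
theorem iso {T : SimpleGraph V} {par : V → V} {r : V}
    (hadj : ∀ u v, T.Adj u v ↔ (u ≠ r ∧ par u = v) ∨ (v ≠ r ∧ par v = u)) (φ : V ≃ V)
    (hr : φ r = r) (hp : ∀ u, u ≠ r → par (φ u) = φ (par u)) (a b : V) :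
    T.Adj (φ a) (φ b) ↔ T.Adj a b := by
  have h1 : ∀ a, φ a ≠ r ↔ a ≠ r := by
    intro a
    rw [not_iff_not]
    constructor
    · intro h
      exact φ.injective (h.trans hr.symm)
    · intro h
      rw [h, hr]
  have h2 : ∀ a b, (φ a ≠ r ∧ par (φ a) = φ b) ↔ (a ≠ r ∧ par a = b) := by
    intro a b
    rw [h1]
    refine and_congr_right fun ha => ?_
    rw [hp a ha]
    exact φ.injective.eq_iff
  rw [hadj, hadj, h2, h2]

end FIN_

/-- FIN -/
theorem p_FIN (h1 : T_CORE) (h2 : T_CONV) (h3 : T_COD) (h4 : T_ISO) (h5 : T_REC) : T_FIN := by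
  constructor
  · intro κ
    obtain ⟨N, hN⟩ := h1 κ
    refine ⟨N, fun V _ _ T hT hcard htame => ?_⟩
    obtain ⟨r⟩ := hT.connected.nonempty
    obtain ⟨par, dep, hRT, _, hle, hgood⟩ := h2 V T hT r
    refine hgood (hN V par dep r hRT (fun m => ?_) hcard)
    refine le_trans (Nat.mul_le_mul_left m ?_) (htame m)
    calc ∑ v ∈ univ.filter (fun v => κ m ≤ (ch par r v).card), (ch par r v).card
        ≤ ∑ v ∈ univ.filter (fun v => κ m ≤ (ch par r v).card), (T.neighborSet v).ncard :=
          sum_le_sum fun v _ => hle v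
      _ ≤ ∑ v ∈ univ.filter (fun v => κ m ≤ (T.neighborSet v).ncard),
            (T.neighborSet v).ncard := by
          refine sum_le_sum_of_subset fun v hv => ?_
          exact mem_filter.2 ⟨mem_univ _, (mem_filter.1 hv).2.trans (hle v)⟩
  · obtain ⟨κ, hκ⟩ := h3
    obtain ⟨N, hN⟩ := h1 κ
    refine ⟨N, fun V _ _ T hT hcard haut => ?_⟩
    obtain ⟨r⟩ := hT.connected.nonempty
    obtain ⟨par, dep, hRT, hadj, _, hgood⟩ := h2 V T hT r
    obtain ⟨code, hcode⟩ := (h5 V par dep r hRT).2.2.2.1 ℕ ⟨0⟩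
      (fun v g => Encodable.encode (Multiset.map g (ch par r v).val)) (by
        intro v g g' hg
        show Encodable.encode (Multiset.map g (ch par r v).val) =
          Encodable.encode (Multiset.map g' (ch par r v).val)
        rw [Multiset.map_congr rfl fun c hc => hg c hc])
    refine hgood (hN V par dep r hRT (hκ V par dep r hRT code hcode ?_) hcard)
    intro v c hc c' hc' he
    by_contra hne
    obtain ⟨φ, hv, hφc, hφr, hφp⟩ := h4 V par dep r hRT code hcode v c hc c' hc' he hne
    have h6 := haut ⟨φ, fun {a b} => FIN_.iso hadj φ hφr hφp a b⟩ ⟨v, hv⟩ c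
    exact hne (h6.symm.trans hφc)

end

end Pool.Agent.TFin
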