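import Pool.Agent.TFin.Targets

set_option autoImplicit false

/-!
# Large trees in tournaments (MP_d27362_co): dependence of the signed numbers of descendants on
the signs
-/

namespace Pool.Agent.TFin

open Finset

section FLN

variable {V : Type} [Fintype V] [DecidableEq V] {par : V → V} {dep : V → ℕ} {r : V}

lemma FLN_mem {a b : V} : b ∈ ch par r a ↔ b ≠ r ∧ par b = a := by
  unfold ch; simp

lemma FLN_dep (h : RT par dep r) {a b : V} (hb : b ∈ ch par r a) : dep b = dep a + 1 := by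
  rw [FLN_mem] at hb
  rw [h.step b hb.1, hb.2]

lemma FLN_one (h : RT par dep r) (v w : V)
    (hw : Relation.TransGen (fun a b => b ∈ ch par r a) v w) :
    w ≠ r ∧ dep v < dep w ∧ ∃ t, par^[t + 1] w = v := by
  induction hw with
  | single hb =>
    refine ⟨(FLN_mem.mp hb).1, ?_, 0, ?_⟩
    · rw [FLN_dep h hb]; omega
    · simpa using (FLN_mem.mp hb).2
  | tail _ hc ih =>
    obtain ⟨_, h2, t, ht⟩ := ih
    refine ⟨(FLN_mem.mp hc).1, ?_, t + 1, ?_⟩
    · rw [FLN_dep h hc]; omega
    · rw [Function.iterate_succ_apply, (FLN_mem.mp hc).2]; exact ht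

lemma FLN_refl (h : RT par dep r) (c w : V)
    (hw : Relation.ReflTransGen (fun a b => b ∈ ch par r a) c w) :
    ∃ t, par^[t] w = c ∧ dep w = dep c + t := by
  induction hw with
  | refl => exact ⟨0, rfl, rfl⟩
  | tail _ hc ih =>
    obtain ⟨t, ht, hd⟩ := ih
    refine ⟨t + 1, ?_, ?_⟩
    · rw [Function.iterate_succ_apply, (FLN_mem.mp hc).2]; exact ht
    · rw [FLN_dep h hc, hd]; omega

lemma FLN_three (j : ℕ) : ∀ (v : V) (ε ε' : V → ℝ),
    (∀ w, Relation.TransGen (fun a b => b ∈ ch par r a) v w → ε w = ε' w) →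
    NN par r ε j v = NN par r ε' j v := by
  induction j with
  | zero => intro v ε ε' _; rfl
  | succ j ih =>
    intro v ε ε' hε
    show ∑ c ∈ ch par r v, ε c * NN par r ε j c = ∑ c ∈ ch par r v, ε' c * NN par r ε' j c
    refine sum_congr rfl (fun c hc => ?_)
    rw [hε c (Relation.TransGen.single hc),
      ih c ε ε' (fun w hw => hε w (Relation.TransGen.head hc hw))]

lemma FLN_five (j : ℕ) : ∀ (v : V) (J : ℕ) (ε ε' : V → ℝ),
    (∀ c, c ≠ r → (∃ t, 1 ≤ t ∧ t ≤ J ∧ par^[t] c = v) → ε c = ε' c) → j ≤ J →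
    NN par r ε j v = NN par r ε' j v := by
  induction j with
  | zero => intro v J ε ε' _ _; rfl
  | succ j ih =>
    intro v J ε ε' hε hj
    show ∑ c ∈ ch par r v, ε c * NN par r ε j c = ∑ c ∈ ch par r v, ε' c * NN par r ε' j c
    refine sum_congr rfl (fun c hc => ?_)
    rw [FLN_mem] at hc
    rw [hε c hc.1 ⟨1, le_refl _, by omega, by simpa using hc.2⟩,
      ih c (J - 1) ε ε' ?_ (by omega)]
    rintro a ha ⟨t, ht1, ht2, ht3⟩
    refine hε a ha ⟨t + 1, by omega, by omega, ?_⟩
    rw [Function.iterate_succ_apply', ht3]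
    exact hc.2

end FLN

theorem p_FLN : T_FLN := by
  intro V _ _ par dep r h
  refine ⟨FLN_one h, ?_, ?_, ?_, ?_⟩
  · intro v c c' w hc hc' hne hw hw'
    obtain ⟨t, ht, hd⟩ := FLN_refl h c w hw
    obtain ⟨t', ht', hd'⟩ := FLN_refl h c' w hw'
    rw [FLN_dep h hc] at hd
    rw [FLN_dep h hc'] at hd'
    have : t = t' := by omega
    subst this
    exact hne (ht.symm.trans ht')
  · intro v ε ε' hε j
    exact FLN_three j v ε ε' hε
  · intro v ε ε' h1 h2 j
    show ∑ c ∈ ch par r v, ε' c * NN par r ε' j c = - ∑ c ∈ ch par r v, ε c * NN par r ε j c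
    rw [← sum_neg_distrib]
    refine sum_congr rfl (fun c hc => ?_)
    rw [h1 c hc, FLN_three j c ε' ε ?_]
    · ring
    · intro w hw
      refine h2 w (Relation.TransGen.head hc hw) (fun hcon => ?_)
      have e1 := (FLN_one h c w hw).2.1
      rw [FLN_dep h hc, FLN_dep h hcon] at e1
      omega
  · intro v J ε ε' hε j hj
    exact FLN_five j v J ε ε' hε hj

end Pool.Agent.TFin
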