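import Pool.Agent.TFin.Targets

set_option autoImplicit false

/-!
# Large trees in tournaments (MP_d27362_co), FV: third order expansion at a light vertex
-/

namespace Pool.Agent.TFin

open Finset
open Pool.Agent.TLT (av Krn Sop dl xx)

noncomputable section

namespace FV_

section Av

variable {W : Type} [Fintype W]

theorem av_add (f g : W → ℝ) : av (fun y => f y + g y) = av f + av g := by
  simp only [av, Finset.sum_add_distrib, add_div]

theorem av_sub (f g : W → ℝ) : av (fun y => f y - g y) = av f - av g := by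
  simp only [av, Finset.sum_sub_distrib, sub_div]

theorem av_mul (c : ℝ) (f : W → ℝ) : av (fun y => c * f y) = c * av f := by
  simp only [av, ← Finset.mul_sum, mul_div_assoc]

theorem av_sum {I : Type} (s : Finset I) (f : I → W → ℝ) :
    av (fun y => ∑ i ∈ s, f i y) = ∑ i ∈ s, av (f i) := by
  simp only [av]
  rw [Finset.sum_comm, Finset.sum_div]

theorem av_mono {f g : W → ℝ} (h : ∀ y, f y ≤ g y) : av f ≤ av g := by
  unfold av
  exact div_le_div_of_nonneg_right (Finset.sum_le_sum fun y _ => h y) (Nat.cast_nonneg _)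

theorem av_abs (f : W → ℝ) : |av f| ≤ av fun y => |f y| := by
  unfold av
  rw [abs_div, Nat.abs_cast]
  exact div_le_div_of_nonneg_right (Finset.abs_sum_le_sum_abs _ _) (Nat.cast_nonneg _)

theorem av_bd {f g : W → ℝ} (h : ∀ y, |f y| ≤ g y) : |av f| ≤ av g :=
  (av_abs f).trans (av_mono h)

theorem av_one [Nonempty W] : av (fun _ : W => (1 : ℝ)) = 1 := by
  unfold av
  simp

end Av

variable {V W : Type} [DecidableEq V] [Fintype W] [Nonempty W]

/-- the abstract main term -/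
def TM (b : W → ℝ) (S : Finset V) (ε : V → ℝ) (e : ℝ) (g : V → W → ℝ) : ℝ :=
  (av (fun y => (∏ c ∈ S, (1 + ε c * b y)) * (1 - e * b y)) - 1) +
    ∑ c ∈ S, ∑ c' ∈ S.erase c, ε c * ε c' * av (fun y => b y * g c y) +
    1 / 2 * ∑ c ∈ S, ∑ c' ∈ S.erase c, ε c * ε c' * av (fun y => g c y * g c' y) -
    e * ∑ c ∈ S, ε c * av (fun y => b y * g c y)

theorem abs_eps {x : ℝ} (h : x = 1 ∨ x = -1) : |x| = 1 := by
  rcases h with h | h <;> simp [h]

theorem pair_bd (U : Finset V) (k : ℕ) (hUk : U.card ≤ k) (F : V → V → ℝ) (A B : V → ℝ)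
    (hA : ∀ c ∈ U, 0 ≤ A c) (hB : ∀ c ∈ U, 0 ≤ B c)
    (h : ∀ c ∈ U, ∀ c' ∈ U, |F c c'| ≤ A c + B c') :
    |∑ c ∈ U, ∑ c' ∈ U.erase c, F c c'| ≤ k * (∑ c ∈ U, A c) + k * ∑ c ∈ U, B c := by
  have hk : (U.card : ℝ) ≤ k := by exact_mod_cast hUk
  have hA' : 0 ≤ ∑ c ∈ U, A c := Finset.sum_nonneg hA
  have hB' : 0 ≤ ∑ c ∈ U, B c := Finset.sum_nonneg hB
  calc |∑ c ∈ U, ∑ c' ∈ U.erase c, F c c'| ≤ ∑ c ∈ U, ∑ c' ∈ U.erase c, |F c c'| :=
        (Finset.abs_sum_le_sum_abs _ _).trans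
          (Finset.sum_le_sum fun c _ => Finset.abs_sum_le_sum_abs _ _)
    _ ≤ ∑ c ∈ U, ∑ c' ∈ U, |F c c'| := by
        refine Finset.sum_le_sum fun c _ => ?_
        exact Finset.sum_le_sum_of_subset_of_nonneg (Finset.erase_subset _ _)
          fun _ _ _ => abs_nonneg _
    _ ≤ ∑ c ∈ U, ∑ c' ∈ U, (A c + B c') :=
        Finset.sum_le_sum fun c hc => Finset.sum_le_sum fun c' hc' => h c hc c' hc'
    _ = U.card * (∑ c ∈ U, A c) + U.card * ∑ c ∈ U, B c := by
        simp only [Finset.sum_add_distrib, Finset.sum_const, nsmul_eq_mul, ← Finset.mul_sum]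
    _ ≤ k * (∑ c ∈ U, A c) + k * ∑ c ∈ U, B c := by
        gcongr

theorem pair_diff (C U : Finset V) (hUC : U ⊆ C) (k : ℕ) (hCk : C.card ≤ k) (F : V → V → ℝ)
    (M : ℝ) (hM : 0 ≤ M) (h : ∀ c ∈ C, ∀ c' ∈ C, |F c c'| ≤ M) :
    |∑ c ∈ C, ∑ c' ∈ C.erase c, F c c' - ∑ c ∈ U, ∑ c' ∈ U.erase c, F c c'| ≤
      2 * k * ((C \ U).card * M) := by
  have key : ∀ S : Finset V, ∀ c, ∑ c' ∈ S.erase c, F c c' =
      ∑ c' ∈ S, if c' = c then 0 else F c c' := by
    intro S c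
    rw [Finset.sum_ite, Finset.sum_const_zero, zero_add]
    refine Finset.sum_congr ?_ fun _ _ => rfl
    ext x
    simp [and_comm]
  have hk : (C.card : ℝ) ≤ k := by exact_mod_cast hCk
  have hk' : (U.card : ℝ) ≤ k := by
    exact_mod_cast (Finset.card_le_card hUC).trans hCk
  have hG : ∀ c ∈ C, ∀ c' ∈ C, |if c' = c then 0 else F c c'| ≤ M := by
    intro c hc c' hc'
    split_ifs
    · simpa using hM
    · exact h c hc c' hc'
  have e1 : ∑ c ∈ C, ∑ c' ∈ C.erase c, F c c' - ∑ c ∈ U, ∑ c' ∈ U.erase c, F c c' =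
      (∑ c ∈ C \ U, ∑ c' ∈ C, if c' = c then 0 else F c c') +
      ∑ c ∈ U, ∑ c' ∈ C \ U, if c' = c then 0 else F c c' := by
    simp only [key]
    rw [← Finset.sum_sdiff hUC (f := fun c => ∑ c' ∈ C, if c' = c then 0 else F c c')]
    have : ∀ c, (∑ c' ∈ C, if c' = c then 0 else F c c') =
        (∑ c' ∈ C \ U, if c' = c then 0 else F c c') + ∑ c' ∈ U, if c' = c then 0 else F c c' :=
      fun c => (Finset.sum_sdiff hUC).symm
    have h2 : (∑ c ∈ U, ∑ c' ∈ C, if c' = c then 0 else F c c') =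
        (∑ c ∈ U, ∑ c' ∈ C \ U, if c' = c then 0 else F c c') +
        ∑ c ∈ U, ∑ c' ∈ U, if c' = c then 0 else F c c' := by
      rw [← Finset.sum_add_distrib]
      exact Finset.sum_congr rfl fun c _ => this c
    rw [h2]
    ring
  have b1 : |∑ c ∈ C \ U, ∑ c' ∈ C, if c' = c then 0 else F c c'| ≤ (C \ U).card * (C.card * M) := by
    refine (Finset.abs_sum_le_sum_abs _ _).trans ?_
    rw [← nsmul_eq_mul]
    refine Finset.sum_le_card_nsmul _ _ _ fun c hc => ?_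
    refine (Finset.abs_sum_le_sum_abs _ _).trans ?_
    rw [← nsmul_eq_mul]
    exact Finset.sum_le_card_nsmul _ _ _ fun c' hc' => hG c (Finset.mem_sdiff.1 hc).1 c' hc'
  have b2 : |∑ c ∈ U, ∑ c' ∈ C \ U, if c' = c then 0 else F c c'| ≤ U.card * ((C \ U).card * M) := by
    refine (Finset.abs_sum_le_sum_abs _ _).trans ?_
    rw [← nsmul_eq_mul]
    refine Finset.sum_le_card_nsmul _ _ _ fun c hc => ?_
    refine (Finset.abs_sum_le_sum_abs _ _).trans ?_
    rw [← nsmul_eq_mul]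
    exact Finset.sum_le_card_nsmul _ _ _ fun c' hc' => hG c (hUC hc) c' (Finset.mem_sdiff.1 hc').1
  have hN : 0 ≤ ((C \ U).card : ℝ) * M := mul_nonneg (Nat.cast_nonneg _) hM
  rw [e1]
  calc |(∑ c ∈ C \ U, ∑ c' ∈ C, if c' = c then 0 else F c c') +
      ∑ c ∈ U, ∑ c' ∈ C \ U, if c' = c then 0 else F c c'|
      ≤ (C \ U).card * (C.card * M) + U.card * ((C \ U).card * M) :=
        (abs_add_le _ _).trans (add_le_add b1 b2)
    _ = C.card * ((C \ U).card * M) + U.card * ((C \ U).card * M) := by ring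
    _ ≤ k * ((C \ U).card * M) + k * ((C \ U).card * M) := by gcongr
    _ = 2 * k * ((C \ U).card * M) := by ring

/-- the abstract expansion -/
theorem lemA (hEXP : T_EXP) (hCS : ∀ f g : W → ℝ, |av fun y => f y * g y| ≤ n2 f * n2 g)
    (hsq : ∀ f : W → ℝ, 0 ≤ n2 f ∧ n2 f ^ 2 = av fun y => f y ^ 2)
    (b h : W → ℝ) (U : Finset V) (ε : V → ℝ) (e τ : ℝ) (k : ℕ) (η g D : V → W → ℝ)
    (hUk : U.card ≤ k) (hk : 1 ≤ k) (hε : ∀ c ∈ U, ε c = 1 ∨ ε c = -1) (hb : ∀ y, |b y| ≤ 1)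
    (hb0 : av b = 0) (hbn : n2 b ≤ τ) (hτ : 0 < τ) (hτ1 : τ ≤ 1 / 1000000)
    (hη : ∀ c ∈ U, ∀ y, η c y = g c y + D c y) (hη1 : ∀ c ∈ U, ∀ y, |η c y| ≤ 2 * τ)
    (hη2 : ∀ c ∈ U, n2 (η c) ≤ 2 * τ) (hg2 : ∀ c ∈ U, n2 (g c) ≤ τ)
    (hh : ∀ y, h y = ∏ c ∈ U, (1 + ε c * b y + ε c * η c y))
    (hZ : |1 / av h - 1| ≤ 47 * τ) (he : |e| ≤ 1) (T : ℝ)
    (hT : T = av (fun y => b y ^ 2) + ∑ c ∈ U, av (fun y => η c y ^ 2)) :
    |av h - 1 - ∑ c ∈ U, ε c * av (η c) - e * (av (fun y => b y * h y) / av h) - TM b U ε e g| ≤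
      3 ^ k * (51 * τ) * T + 7 / 2 * k * τ * ∑ c ∈ U, n2 (D c) := by
  set H : W → ℝ := fun y => ∏ c ∈ U, (1 + ε c * b y) with hH
  have hk1 : (1 : ℝ) ≤ k := by exact_mod_cast hk
  have hE : ∀ y, _ := fun y => hEXP V U k ε (fun c => ε c * η c y) (b y) (2 * τ) hUk hε (hb y)
    (by linarith) (by linarith) (fun c hc => by
      rw [abs_mul, abs_eps (hε c hc), one_mul]; exact hη1 c hc y)
  have hTy : ∀ y, b y ^ 2 + ∑ c ∈ U, (ε c * η c y) ^ 2 = b y ^ 2 + ∑ c ∈ U, η c y ^ 2 := by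
    intro y
    congr 1
    refine Finset.sum_congr rfl fun c hc => ?_
    rcases hε c hc with h | h <;> rw [h] <;> ring
  have hTav : av (fun y => b y ^ 2 + ∑ c ∈ U, η c y ^ 2) = T := by
    rw [av_add, av_sum, hT]
  have hD0 : 0 ≤ ∑ c ∈ U, n2 (D c) := Finset.sum_nonneg fun c _ => (hsq _).1
  have hT0 : 0 ≤ T := by
    rw [← hTav]
    unfold av
    positivity
  -- the three error terms
  have k1 : |av fun y => h y - H y - ∑ c ∈ U, ε c * η c y -
      ∑ c ∈ U, ∑ c' ∈ U.erase c, ε c * η c y * (ε c' * b y) -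
      1 / 2 * ∑ c ∈ U, ∑ c' ∈ U.erase c, ε c * η c y * (ε c' * η c' y)| ≤
      3 ^ k * (2 * τ) * T := by
    rw [← hTav, ← av_mul]
    refine av_bd fun y => ?_
    rw [hh y, ← hTy y]
    exact (hE y).1
  have k2 : |av fun y => b y * (h y - H y - ∑ c ∈ U, ε c * η c y)| ≤ 3 ^ k * (2 * τ) * T := by
    rw [← hTav, ← av_mul]
    refine av_bd fun y => ?_
    rw [hh y, ← hTy y]
    exact (hE y).2.1
  have k3 : |av fun y => b y * (h y - 1)| ≤ 3 ^ k * T := by
    rw [← hTav, ← av_mul]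
    refine av_bd fun y => ?_
    rw [hh y, ← hTy y]
    exact (hE y).2.2.1
  -- linearity
  have i1 : (av fun y => h y - H y - ∑ c ∈ U, ε c * η c y -
      ∑ c ∈ U, ∑ c' ∈ U.erase c, ε c * η c y * (ε c' * b y) -
      1 / 2 * ∑ c ∈ U, ∑ c' ∈ U.erase c, ε c * η c y * (ε c' * η c' y)) =
      av h - av H - ∑ c ∈ U, ε c * av (η c) -
      ∑ c ∈ U, ∑ c' ∈ U.erase c, ε c * ε c' * av (fun y => b y * η c y) -
      1 / 2 * ∑ c ∈ U, ∑ c' ∈ U.erase c, ε c * ε c' * av (fun y => η c y * η c' y) := by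
    have s1 : (∑ c ∈ U, av fun y => ε c * η c y) = ∑ c ∈ U, ε c * av (η c) :=
      Finset.sum_congr rfl fun c _ => av_mul _ _
    have s2 : (∑ c ∈ U, av fun y => ∑ c' ∈ U.erase c, ε c * η c y * (ε c' * b y)) =
        ∑ c ∈ U, ∑ c' ∈ U.erase c, ε c * ε c' * av (fun y => b y * η c y) := by
      refine Finset.sum_congr rfl fun c _ => ?_
      rw [av_sum]
      refine Finset.sum_congr rfl fun c' _ => ?_
      rw [← av_mul]
      congr 1
      funext y
      ring
    have s3 : (∑ c ∈ U, av fun y => ∑ c' ∈ U.erase c, ε c * η c y * (ε c' * η c' y)) =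
        ∑ c ∈ U, ∑ c' ∈ U.erase c, ε c * ε c' * av (fun y => η c y * η c' y) := by
      refine Finset.sum_congr rfl fun c _ => ?_
      rw [av_sum]
      refine Finset.sum_congr rfl fun c' _ => ?_
      rw [← av_mul]
      congr 1
      funext y
      ring
    rw [av_sub, av_sub, av_sub, av_sub, av_mul, av_sum, av_sum, av_sum, s1, s2, s3]
  have i2 : (av fun y => b y * (h y - H y - ∑ c ∈ U, ε c * η c y)) =
      av (fun y => b y * h y) - av (fun y => b y * H y) -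
      ∑ c ∈ U, ε c * av (fun y => b y * η c y) := by
    have : (fun y => b y * (h y - H y - ∑ c ∈ U, ε c * η c y)) =
        fun y => b y * h y - b y * H y - ∑ c ∈ U, ε c * (b y * η c y) := by
      funext y
      rw [mul_sub, mul_sub, Finset.mul_sum]
      congr 1
      exact Finset.sum_congr rfl fun c _ => by ring
    rw [this, av_sub, av_sub, av_sum]
    congr 1
    exact Finset.sum_congr rfl fun c _ => av_mul _ _
  have i3 : (av fun y => b y * (h y - 1)) = av (fun y => b y * h y) := by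
    have : (fun y => b y * (h y - 1)) = fun y => b y * h y - b y := by
      funext y
      ring
    rw [this, av_sub]
    change av (fun y => b y * h y) - av b = _
    rw [hb0, sub_zero]
  have i4 : av (fun y => H y * (1 - e * b y)) = av H - e * av (fun y => b y * H y) := by
    have : (fun y => H y * (1 - e * b y)) = fun y => H y - e * (b y * H y) := by
      funext y
      ring
    rw [this, av_sub, av_mul]
  have i5 : ∀ c ∈ U, av (fun y => b y * η c y) =
      av (fun y => b y * g c y) + av (fun y => b y * D c y) := by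
    intro c hc
    rw [← av_add]
    congr 1
    funext y
    rw [hη c hc y]
    ring
  have i6 : ∀ c ∈ U, ∀ c' ∈ U, av (fun y => η c y * η c' y) =
      av (fun y => g c y * g c' y) +
        (av (fun y => D c y * η c' y) + av (fun y => g c y * D c' y)) := by
    intro c hc c' hc'
    rw [← av_add, ← av_add]
    congr 1
    funext y
    rw [hη c hc y, hη c' hc' y]
    ring
  -- the replacement errors
  have k4 : |∑ c ∈ U, ∑ c' ∈ U.erase c, ε c * ε c' * av (fun y => b y * D c y)| ≤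
      k * τ * ∑ c ∈ U, n2 (D c) := by
    have := pair_bd U k hUk (fun c c' => ε c * ε c' * av (fun y => b y * D c y))
      (fun c => τ * n2 (D c)) (fun _ => 0) (fun c _ => mul_nonneg hτ.le (hsq _).1)
      (fun _ _ => le_rfl) (fun c hc c' hc' => by
        rw [abs_mul, abs_mul, abs_eps (hε c hc), abs_eps (hε c' hc'), one_mul, one_mul, add_zero]
        exact (hCS _ _).trans (mul_le_mul_of_nonneg_right hbn (hsq _).1))
    rw [← Finset.mul_sum, Finset.sum_const_zero, mul_zero, add_zero] at this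
    linarith
  have k5 : |∑ c ∈ U, ∑ c' ∈ U.erase c, ε c * ε c' *
      (av (fun y => D c y * η c' y) + av (fun y => g c y * D c' y))| ≤
      3 * (k * τ * ∑ c ∈ U, n2 (D c)) := by
    have := pair_bd U k hUk (fun c c' => ε c * ε c' *
      (av (fun y => D c y * η c' y) + av (fun y => g c y * D c' y)))
      (fun c => (2 * τ) * n2 (D c)) (fun c => τ * n2 (D c))
      (fun c _ => mul_nonneg (by linarith) (hsq _).1)
      (fun c _ => mul_nonneg (by linarith) (hsq _).1) (fun c hc c' hc' => by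
        rw [abs_mul, abs_mul, abs_eps (hε c hc), abs_eps (hε c' hc'), one_mul, one_mul]
        refine (abs_add_le _ _).trans (add_le_add ?_ ?_)
        · refine (hCS _ _).trans ?_
          rw [mul_comm]
          exact mul_le_mul_of_nonneg_right (hη2 c' hc') (hsq _).1
        · refine (hCS _ _).trans ?_
          exact mul_le_mul_of_nonneg_right (hg2 c hc) (hsq _).1)
    rw [← Finset.mul_sum, ← Finset.mul_sum] at this
    linarith
  have k6 : |∑ c ∈ U, ε c * av (fun y => b y * D c y)| ≤ τ * ∑ c ∈ U, n2 (D c) := by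
    rw [Finset.mul_sum]
    refine (Finset.abs_sum_le_sum_abs _ _).trans (Finset.sum_le_sum fun c hc => ?_)
    rw [abs_mul, abs_eps (hε c hc), one_mul]
    exact (hCS _ _).trans (mul_le_mul_of_nonneg_right hbn (hsq _).1)
  -- expand the sums
  have j1 : ∑ c ∈ U, ∑ c' ∈ U.erase c, ε c * ε c' * av (fun y => b y * η c y) =
      ∑ c ∈ U, ∑ c' ∈ U.erase c, ε c * ε c' * av (fun y => b y * g c y) +
      ∑ c ∈ U, ∑ c' ∈ U.erase c, ε c * ε c' * av (fun y => b y * D c y) := by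
    simp only [← Finset.sum_add_distrib]
    refine Finset.sum_congr rfl fun c hc => Finset.sum_congr rfl fun c' _ => ?_
    rw [i5 c hc, mul_add]
  have j2 : ∑ c ∈ U, ∑ c' ∈ U.erase c, ε c * ε c' * av (fun y => η c y * η c' y) =
      ∑ c ∈ U, ∑ c' ∈ U.erase c, ε c * ε c' * av (fun y => g c y * g c' y) +
      ∑ c ∈ U, ∑ c' ∈ U.erase c, ε c * ε c' *
        (av (fun y => D c y * η c' y) + av (fun y => g c y * D c' y)) := by
    simp only [← Finset.sum_add_distrib]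
    refine Finset.sum_congr rfl fun c hc => Finset.sum_congr rfl fun c' hc' => ?_
    rw [i6 c hc c' (Finset.mem_of_mem_erase hc'), mul_add]
  have j3 : ∑ c ∈ U, ε c * av (fun y => b y * η c y) =
      ∑ c ∈ U, ε c * av (fun y => b y * g c y) + ∑ c ∈ U, ε c * av (fun y => b y * D c y) := by
    rw [← Finset.sum_add_distrib]
    refine Finset.sum_congr rfl fun c hc => ?_
    rw [i5 c hc, mul_add]
  have ebd : ∀ x B : ℝ, |x| ≤ B → |e * x| ≤ B := by
    intro x B hx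
    rw [abs_mul]
    calc |e| * |x| ≤ 1 * |x| := mul_le_mul_of_nonneg_right he (abs_nonneg _)
      _ ≤ B := by rw [one_mul]; exact hx
  have k7 : |av (fun y => b y * h y) * (1 / av h - 1)| ≤ 3 ^ k * (47 * τ) * T := by
    rw [abs_mul]
    rw [i3] at k3
    calc |av (fun y => b y * h y)| * |1 / av h - 1| ≤ (3 ^ k * T) * (47 * τ) :=
          mul_le_mul k3 hZ (abs_nonneg _) (by positivity)
      _ = 3 ^ k * (47 * τ) * T := by ring
  rw [i1] at k1
  have k2' := ebd _ _ k2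
  rw [i2] at k2'
  have k6' := ebd _ _ k6
  have k7' := ebd _ _ k7
  have key : av h - 1 - ∑ c ∈ U, ε c * av (η c) - e * (av (fun y => b y * h y) / av h) -
      TM b U ε e g =
      (av h - av H - ∑ c ∈ U, ε c * av (η c) -
        ∑ c ∈ U, ∑ c' ∈ U.erase c, ε c * ε c' * av (fun y => b y * η c y) -
        1 / 2 * ∑ c ∈ U, ∑ c' ∈ U.erase c, ε c * ε c' * av (fun y => η c y * η c' y)) +
      ∑ c ∈ U, ∑ c' ∈ U.erase c, ε c * ε c' * av (fun y => b y * D c y) +
      1 / 2 * ∑ c ∈ U, ∑ c' ∈ U.erase c, ε c * ε c' *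
        (av (fun y => D c y * η c' y) + av (fun y => g c y * D c' y)) -
      e * (av (fun y => b y * h y) - av (fun y => b y * H y) -
        ∑ c ∈ U, ε c * av (fun y => b y * η c y)) -
      e * (∑ c ∈ U, ε c * av (fun y => b y * D c y)) -
      e * (av (fun y => b y * h y) * (1 / av h - 1)) := by
    have hTM : TM b U ε e g = (av (fun y => H y * (1 - e * b y)) - 1) +
      ∑ c ∈ U, ∑ c' ∈ U.erase c, ε c * ε c' * av (fun y => b y * g c y) +
      1 / 2 * ∑ c ∈ U, ∑ c' ∈ U.erase c, ε c * ε c' * av (fun y => g c y * g c' y) -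
      e * ∑ c ∈ U, ε c * av (fun y => b y * g c y) := rfl
    rw [hTM, i4, j1, j2, j3]
    ring
  rw [key]
  have t0 : 0 ≤ τ * ∑ c ∈ U, n2 (D c) := mul_nonneg hτ.le hD0
  have t1 : τ * ∑ c ∈ U, n2 (D c) ≤ k * τ * ∑ c ∈ U, n2 (D c) := by
    rw [mul_assoc]
    exact le_mul_of_one_le_left t0 hk1
  rw [abs_le] at k1 k2' k4 k5 k6' k7' ⊢
  constructor <;> linarith [k1.1, k1.2, k2'.1, k2'.2, k4.1, k4.2, k5.1, k5.2, k6'.1, k6'.2,
    k7'.1, k7'.2]

theorem sq_le_three_pow (k : ℕ) : (k : ℝ) ^ 2 ≤ 3 ^ k := by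
  have : ∀ k : ℕ, k ^ 2 ≤ 3 ^ k := by
    intro k
    induction k with
    | zero => norm_num
    | succ n ih =>
      rcases Nat.lt_or_ge n 2 with h | h
      · interval_cases n <;> norm_num
      · have : (n + 1) ^ 2 ≤ 3 * n ^ 2 := by nlinarith
        calc (n + 1) ^ 2 ≤ 3 * n ^ 2 := this
          _ ≤ 3 * 3 ^ n := by omega
          _ = 3 ^ (n + 1) := by ring
  exact_mod_cast this k

/-- the pure part of the main term is small -/
theorem pure_bd (hEXP : T_EXP) (b : W → ℝ) (S : Finset V) (ε : V → ℝ) (e : ℝ) (k : ℕ)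
    (hSk : S.card ≤ k) (hε : ∀ c ∈ S, ε c = 1 ∨ ε c = -1) (hb : ∀ y, |b y| ≤ 1)
    (hb0 : av b = 0) (he : |e| ≤ 1) :
    |av (fun y => (∏ c ∈ S, (1 + ε c * b y)) * (1 - e * b y)) - 1| ≤
      2 * 3 ^ k * av (fun y => b y ^ 2) := by
  have hE : ∀ y, _ := fun y => hEXP V S k ε (fun _ => 0) (b y) 0 hSk hε (hb y) le_rfl
    zero_le_one (fun c _ => by simp)
  have e1 : av (fun y => (∏ c ∈ S, (1 + ε c * b y)) * (1 - e * b y)) - 1 =
      av (fun y => (∏ c ∈ S, (1 + ε c * b y) - 1 - (∑ c ∈ S, ε c) * b y) -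
        e * (b y * (∏ c ∈ S, (1 + ε c * b y) - 1))) := by
    have : (fun y => (∏ c ∈ S, (1 + ε c * b y) - 1 - (∑ c ∈ S, ε c) * b y) -
        e * (b y * (∏ c ∈ S, (1 + ε c * b y) - 1))) =
        fun y => (∏ c ∈ S, (1 + ε c * b y)) * (1 - e * b y) - 1 - (∑ c ∈ S, ε c) * b y +
          e * b y := by
      funext y
      ring
    rw [this, av_add, av_sub, av_sub, av_mul, av_mul, av_one]
    change _ = _ - (∑ c ∈ S, ε c) * av b + e * av b
    rw [hb0]
    ring
  rw [e1, ← av_mul]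
  refine av_bd fun y => ?_
  have h3 := (hE y).2.2.1
  have h4 := (hE y).2.2.2
  simp only [add_zero, ne_eq, OfNat.ofNat_ne_zero, not_false_eq_true, zero_pow,
    Finset.sum_const_zero] at h3
  have h23 : (2 : ℝ) ^ k ≤ 3 ^ k := pow_le_pow_left₀ (by norm_num) (by norm_num) k
  have hsq0 : 0 ≤ b y ^ 2 := sq_nonneg _
  calc _ ≤ |∏ c ∈ S, (1 + ε c * b y) - 1 - (∑ c ∈ S, ε c) * b y| +
        |e * (b y * (∏ c ∈ S, (1 + ε c * b y) - 1))| := abs_sub _ _
    _ ≤ 2 ^ k * b y ^ 2 + 3 ^ k * b y ^ 2 := by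
        refine add_le_add h4 ?_
        rw [abs_mul]
        calc |e| * |b y * (∏ c ∈ S, (1 + ε c * b y) - 1)| ≤
            1 * |b y * (∏ c ∈ S, (1 + ε c * b y) - 1)| :=
              mul_le_mul_of_nonneg_right he (abs_nonneg _)
          _ ≤ 3 ^ k * b y ^ 2 := by rw [one_mul]; exact h3
    _ ≤ 3 ^ k * b y ^ 2 + 3 ^ k * b y ^ 2 := by gcongr
    _ = 2 * 3 ^ k * b y ^ 2 := by ring

/-- the main terms over `C` and over `U` -/
theorem lemB (hEXP : T_EXP) (hCS : ∀ f g : W → ℝ, |av fun y => f y * g y| ≤ n2 f * n2 g)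
    (hsq : ∀ f : W → ℝ, 0 ≤ n2 f ∧ n2 f ^ 2 = av fun y => f y ^ 2)
    (b : W → ℝ) (C U : Finset V) (hUC : U ⊆ C) (ε : V → ℝ) (e : ℝ) (k : ℕ) (g : V → W → ℝ)
    (hCk : C.card ≤ k) (hk : 1 ≤ k) (hε : ∀ c ∈ C, ε c = 1 ∨ ε c = -1) (hb : ∀ y, |b y| ≤ 1)
    (hb0 : av b = 0) (hg : ∀ c ∈ C, n2 (g c) ^ 2 ≤ k * n2 b ^ 2) (he : |e| ≤ 1) :
    |TM b C ε e g - TM b U ε e g| ≤ 3 ^ k * 10 * (n2 b ^ 2 * (C \ U).card) := by
  rcases Finset.eq_empty_or_nonempty (C \ U) with h0 | h0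
  · have : C = U := Finset.Subset.antisymm (Finset.sdiff_eq_empty_iff_subset.1 h0) hUC
    subst this
    simp
  have hN : (1 : ℝ) ≤ (C \ U).card := by exact_mod_cast h0.card_pos
  have hk1 : (1 : ℝ) ≤ k := by exact_mod_cast hk
  have hk3 := sq_le_three_pow k
  set N : ℝ := ((C \ U).card : ℝ) with hNd
  set x : ℝ := n2 b ^ 2 with hx
  have hx0 : 0 ≤ x := sq_nonneg _
  have p1 := pure_bd hEXP b C ε e k hCk hε hb hb0 he
  have p2 := pure_bd hEXP b U ε e k ((Finset.card_le_card hUC).trans hCk)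
    (fun c hc => hε c (hUC hc)) hb hb0 he
  rw [← (hsq b).2, ← hx] at p1 p2
  -- bounds for the terms
  have m1 : ∀ c ∈ C, |av (fun y => b y * g c y)| ≤ k * x := by
    intro c hc
    refine (hCS _ _).trans ?_
    have a1 := hg c hc
    have a2 := (hsq b).1
    have a3 := (hsq (g c)).1
    have : n2 (g c) ≤ k * n2 b := by
      refine (pow_le_pow_iff_left₀ a3 (by positivity) (two_ne_zero)).1 ?_
      calc n2 (g c) ^ 2 ≤ k * n2 b ^ 2 := a1
        _ ≤ k * k * n2 b ^ 2 := by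
            have : (k : ℝ) ≤ k * k := le_mul_of_one_le_left (by linarith) hk1
            gcongr
        _ = (k * n2 b) ^ 2 := by ring
    calc n2 b * n2 (g c) ≤ n2 b * (k * n2 b) := mul_le_mul_of_nonneg_left this a2
      _ = k * x := by rw [hx]; ring
  have m2 : ∀ c ∈ C, ∀ c' ∈ C, |av (fun y => g c y * g c' y)| ≤ k * x := by
    intro c hc c' hc'
    refine (hCS _ _).trans ?_
    have a1 := hg c hc
    have a2 := hg c' hc'
    nlinarith [sq_nonneg (n2 (g c) - n2 (g c'))]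
  have ab : ∀ c ∈ C, ∀ c' ∈ C, ∀ z B : ℝ, |z| ≤ B → |ε c * ε c' * z| ≤ B := by
    intro c hc c' hc' z B hz
    rw [abs_mul, abs_mul, abs_eps (hε c hc), abs_eps (hε c' hc'), one_mul, one_mul]
    exact hz
  have q1 := pair_diff C U hUC k hCk (fun c c' => ε c * ε c' * av (fun y => b y * g c y))
    (k * x) (by positivity) (fun c hc c' hc' => ab c hc c' hc' _ _ (m1 c hc))
  have q2 := pair_diff C U hUC k hCk (fun c c' => ε c * ε c' * av (fun y => g c y * g c' y))
    (k * x) (by positivity) (fun c hc c' hc' => ab c hc c' hc' _ _ (m2 c hc c' hc'))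
  have q3 : |∑ c ∈ C, ε c * av (fun y => b y * g c y) - ∑ c ∈ U, ε c * av (fun y => b y * g c y)| ≤
      N * (k * x) := by
    rw [← Finset.sum_sdiff hUC, add_sub_cancel_right]
    refine (Finset.abs_sum_le_sum_abs _ _).trans ?_
    rw [hNd, ← nsmul_eq_mul]
    refine Finset.sum_le_card_nsmul _ _ _ fun c hc => ?_
    have hc' := (Finset.mem_sdiff.1 hc).1
    rw [abs_mul, abs_eps (hε c hc'), one_mul]
    exact m1 c hc'
  have q3' : |e * (∑ c ∈ C, ε c * av (fun y => b y * g c y) -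
      ∑ c ∈ U, ε c * av (fun y => b y * g c y))| ≤ N * (k * x) := by
    rw [abs_mul]
    calc _ ≤ 1 * |∑ c ∈ C, ε c * av (fun y => b y * g c y) -
      ∑ c ∈ U, ε c * av (fun y => b y * g c y)| := mul_le_mul_of_nonneg_right he (abs_nonneg _)
      _ ≤ _ := by rw [one_mul]; exact q3
  have key : TM b C ε e g - TM b U ε e g =
      (av (fun y => (∏ c ∈ C, (1 + ε c * b y)) * (1 - e * b y)) - 1) -
      (av (fun y => (∏ c ∈ U, (1 + ε c * b y)) * (1 - e * b y)) - 1) +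
      (∑ c ∈ C, ∑ c' ∈ C.erase c, ε c * ε c' * av (fun y => b y * g c y) -
        ∑ c ∈ U, ∑ c' ∈ U.erase c, ε c * ε c' * av (fun y => b y * g c y)) +
      1 / 2 * (∑ c ∈ C, ∑ c' ∈ C.erase c, ε c * ε c' * av (fun y => g c y * g c' y) -
        ∑ c ∈ U, ∑ c' ∈ U.erase c, ε c * ε c' * av (fun y => g c y * g c' y)) -
      e * (∑ c ∈ C, ε c * av (fun y => b y * g c y) -
        ∑ c ∈ U, ε c * av (fun y => b y * g c y)) := by
    unfold TM
    ring
  rw [key]
  have r1 : (3 : ℝ) ^ k * x ≤ 3 ^ k * x * N := le_mul_of_one_le_right (by positivity) hN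
  have r2 : (k : ℝ) * (N * (k * x)) ≤ 3 ^ k * x * N := by
    have : 0 ≤ x * N := by positivity
    calc (k : ℝ) * (N * (k * x)) = (k : ℝ) ^ 2 * (x * N) := by ring
      _ ≤ 3 ^ k * (x * N) := mul_le_mul_of_nonneg_right hk3 this
      _ = 3 ^ k * x * N := by ring
  have r3 : N * (k * x) ≤ (k : ℝ) * (N * (k * x)) :=
    le_mul_of_one_le_left (by positivity) hk1
  rw [abs_le] at p1 p2 q1 q2 q3' ⊢
  constructor <;> linarith [p1.1, p1.2, p2.1, p2.2, q1.1, q1.2, q2.1, q2.2, q3'.1, q3'.2]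

end FV_

open FV_ in
theorem p_FV (h1 : T_BAN) (h2 : T_CVA) (h3 : T_CVB) (h4 : T_EXP) : T_FV := by
  intro V W _ _ _ K C U π ε f L P Pv R Lv hK hO τ e k hτ hτ1 hX he hk hCk hRk hxk
  obtain ⟨hadd, -, hsmul, -, hsq, -, -, -, -, hn1, -, hsup, hCS', hKK⟩ := h1 W
  obtain ⟨hS1, hS2, -, -, -, -, hdl1, hdl0, hdln, hdel0, hdelsq, hxx0, -, -, -⟩ := hKK K hK
  have hCS : ∀ f g : W → ℝ, |av fun y => f y * g y| ≤ n2 f * n2 g := fun f g => (hCS' f g).2
  have hk1 : (1 : ℝ) ≤ k := by exact_mod_cast hk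
  have he' : |e| ≤ 1 := by rcases he with h | h | h <;> simp [h]
  -- R
  have hPC : ∀ c ∈ C, (1 + P c) ^ 2 ≤ R := by
    intro c hc
    have := Finset.single_le_sum (f := fun c => (1 + P c) ^ 2) (fun c _ => sq_nonneg _) hc
    have h5 := hO.hR
    have h6 := sq_nonneg (1 + Pv)
    linarith
  have hR1 : 1 + ∑ c ∈ U, P c ^ 2 ≤ R := by
    have h5 := hO.hR
    have h6 : 1 ≤ (1 + Pv) ^ 2 := by nlinarith [hO.Pv0]
    have h7 : ∑ c ∈ U, P c ^ 2 ≤ ∑ c ∈ C, (1 + P c) ^ 2 :=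
      (Finset.sum_le_sum fun c hc => by nlinarith [hO.P0 c (hO.UC hc)]).trans
        (Finset.sum_le_sum_of_subset_of_nonneg hO.UC fun _ _ _ => sq_nonneg _)
    linarith
  have hPU0 : 0 ≤ ∑ c ∈ U, P c ^ 2 := Finset.sum_nonneg fun _ _ => sq_nonneg _
  have hR0 : 1 ≤ R := by linarith
  -- X
  have hkp : 0 ≤ kp K C U P := by
    unfold kp
    refine mul_nonneg hdel0 (Finset.sum_nonneg fun c hc => ?_)
    linarith [hO.P0 c (Finset.mem_sdiff.1 hc).1]
  have hex0 : ∀ c, 0 ≤ ex f L c := fun c => (hn1 _).1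
  have hexX : ∀ c ∈ U, ex f L c ≤ τ := by
    intro c hc
    have := Finset.single_le_sum (f := fun c => ex f L c) (fun c _ => hex0 c) hc
    have h5 : 0 ≤ xx K * R := mul_nonneg hxx0 (by linarith)
    unfold XV at hX
    linarith
  have hey := (h2 V W K C U π ε f L P Pv R Lv hK hO).2.1
  have hcvb := (h3 V W K C U π ε f L P Pv R Lv hK hO (hX.trans hτ1)).1
  -- del
  have hdelτ : del K ≤ τ := by
    refine (pow_le_pow_iff_left₀ hdel0 hτ.le two_ne_zero).1 ?_
    rw [hdelsq]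
    exact (le_mul_of_one_le_right hxx0 hk1).trans hxk
  have hdelP : ∀ c ∈ C, (del K * P c) ^ 2 ≤ xx K * k := by
    intro c hc
    rw [mul_pow, hdelsq]
    refine mul_le_mul_of_nonneg_left ?_ hxx0
    nlinarith [hPC c hc, hO.P0 c hc]
  have hdelP' : ∀ c ∈ C, del K * P c ≤ τ := by
    intro c hc
    refine (pow_le_pow_iff_left₀ (mul_nonneg hdel0 (hO.P0 c hc)) hτ.le two_ne_zero).1 ?_
    exact (hdelP c hc).trans hxk
  have hg2 : ∀ c ∈ C, n2 (Sop K (L c)) ≤ 5 / 7 * (del K * P c) := by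
    intro c hc
    have := (hS2 (L c)).1
    linarith [hO.L2 c hc]
  -- eta
  have hlin : ∀ c y, Sop K (f c) y - dl K y =
      Sop K (L c) y + Sop K (fun z => f c z - 1 - L c z) y := by
    intro c y
    have : (fun z => f c z - 1 - L c z) = f c - (fun _ => 1) - L c := rfl
    rw [this, map_sub, map_sub]
    simp only [Pi.sub_apply, dl]
    ring
  have hη1 : ∀ c ∈ U, ∀ y, |Sop K (f c) y - dl K y| ≤ 2 * τ := by
    intro c hc y
    rw [hlin]
    refine (abs_add_le _ _).trans ?_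
    have a1 := hS1 (L c) y
    have a2 := hS1 (fun z => f c z - 1 - L c z) y
    have a3 := (hn1 (L c)).2.1
    have a4 := hO.L2 c (hO.UC hc)
    have a5 := hdelP' c (hO.UC hc)
    have a6 := hexX c hc
    unfold ex at a6
    linarith
  have hZ : |1 / av (hU K U ε f) - 1| ≤ 47 * τ := by
    have a1 : |av (hU K U ε f) - 1| ≤ 46 * τ := hcvb.trans (by linarith)
    have a2 := abs_le.1 a1
    have a3 : 0 < av (hU K U ε f) := by linarith [a2.1]
    have : 1 / av (hU K U ε f) - 1 = -(av (hU K U ε f) - 1) / av (hU K U ε f) := by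
      field_simp
      ring
    rw [this, abs_div, abs_neg, abs_of_pos a3, div_le_iff₀ a3]
    have a4 : 1 - 46 * τ ≤ av (hU K U ε f) := by linarith [a2.1]
    have a5 : 47 * τ * (1 - 46 * τ) ≤ 47 * τ * av (hU K U ε f) :=
      mul_le_mul_of_nonneg_left a4 (by linarith)
    nlinarith
  have hhU : ∀ y, hU K U ε f y =
      ∏ c ∈ U, (1 + ε c * dl K y + ε c * (Sop K (f c) y - dl K y)) := by
    intro y
    unfold hU
    refine Finset.prod_congr rfl fun c _ => ?_
    ring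
  have hA := lemA h4 hCS hsq (dl K) (hU K U ε f) U ε e τ k (fun c y => Sop K (f c) y - dl K y)
    (fun c => Sop K (L c)) (fun c => Sop K (fun z => f c z - 1 - L c z))
    ((Finset.card_le_card hO.UC).trans hCk) hk (fun c hc => hO.e1 c (hO.UC hc)) hdl1 hdl0
    (by rw [hdln]; exact hdelτ) hτ hτ1 (fun c _ y => hlin c y) hη1
    (fun c hc => (hsup _ _ (hη1 c hc)).1)
    (fun c hc => by
      have a1 := hg2 c (hO.UC hc)
      have a2 := hdelP' c (hO.UC hc)
      have a3 : 0 ≤ del K * P c := mul_nonneg hdel0 (hO.P0 c (hO.UC hc))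
      linarith)
    hhU hZ he' _ rfl
  have hB := lemB h4 hCS hsq (dl K) C U hO.UC ε e k (fun c => Sop K (L c)) hCk hk hO.e1 hdl1 hdl0
    (fun c hc => by
      have a1 := hg2 c hc
      have a3 : 0 ≤ del K * P c := mul_nonneg hdel0 (hO.P0 c hc)
      rw [hdln, hdelsq]
      calc n2 (Sop K (L c)) ^ 2 ≤ (del K * P c) ^ 2 :=
            pow_le_pow_left₀ (hsq _).1 (by linarith) 2
        _ ≤ xx K * k := hdelP c hc
        _ = k * xx K := mul_comm _ _) he'
  rw [hdln, hdelsq] at hB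
  have hThC : Th K C ε e L = TM (dl K) C ε e (fun c => Sop K (L c)) := rfl
  have hav : ∀ c, av (fun y => Sop K (f c) y - dl K y) = av (Sop K (f c)) := by
    intro c
    rw [av_sub]
    change av (Sop K (f c)) - av (dl K) = _
    rw [hdl0, sub_zero]
  have hdiv : (av fun y => dl K y * (hU K U ε f y / av (hU K U ε f))) =
      av (fun y => dl K y * hU K U ε f y) / av (hU K U ε f) := by
    have : (fun y => dl K y * (hU K U ε f y / av (hU K U ε f))) =
        fun y => (av (hU K U ε f))⁻¹ * (dl K y * hU K U ε f y) := by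
      funext y
      rw [div_eq_mul_inv]
      ring
    rw [this, av_mul, div_eq_mul_inv, mul_comm]
  -- T
  have hy0 : ∀ c ∈ U, 0 ≤ ey K f L c := fun c hc => (hey c hc).1
  have hyτ : ∀ c ∈ U, ey K f L c ≤ τ := fun c hc => (hey c hc).2.trans (hexX c hc)
  have hT : av (fun y => dl K y ^ 2) + ∑ c ∈ U, av (fun y => (Sop K (f c) y - dl K y) ^ 2) ≤
      50 / 49 * (xx K * R) + 2 * τ * ∑ c ∈ U, ey K f L c := by
    have a1 : ∀ c ∈ U, av (fun y => (Sop K (f c) y - dl K y) ^ 2) ≤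
        50 / 49 * xx K * P c ^ 2 + 2 * τ * ey K f L c := by
      intro c hc
      rw [← (hsq _).2]
      have b1 : n2 (fun y => Sop K (f c) y - dl K y) ≤ 5 / 7 * (del K * P c) + ey K f L c := by
        have : (fun y => Sop K (f c) y - dl K y) =
            fun y => Sop K (L c) y + Sop K (fun z => f c z - 1 - L c z) y :=
          funext fun y => hlin c y
        rw [this]
        exact (hadd _ _).trans (add_le_add (hg2 c (hO.UC hc)) le_rfl)
      have b2 := hy0 c hc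
      have b3 := hyτ c hc
      calc n2 (fun y => Sop K (f c) y - dl K y) ^ 2 ≤
          (5 / 7 * (del K * P c) + ey K f L c) ^ 2 := pow_le_pow_left₀ (hsq _).1 b1 2
        _ ≤ 50 / 49 * (del K ^ 2 * P c ^ 2) + 2 * ey K f L c ^ 2 := by
            nlinarith [sq_nonneg (5 / 7 * (del K * P c) - ey K f L c)]
        _ ≤ 50 / 49 * xx K * P c ^ 2 + 2 * τ * ey K f L c := by
            rw [hdelsq]
            nlinarith
    have a2 : ∑ c ∈ U, av (fun y => (Sop K (f c) y - dl K y) ^ 2) ≤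
        50 / 49 * xx K * ∑ c ∈ U, P c ^ 2 + 2 * τ * ∑ c ∈ U, ey K f L c := by
      rw [Finset.mul_sum, Finset.mul_sum, ← Finset.sum_add_distrib]
      exact Finset.sum_le_sum a1
    have a3 : av (fun y => dl K y ^ 2) = xx K := rfl
    have a4 : xx K * (1 + ∑ c ∈ U, P c ^ 2) ≤ xx K * R := mul_le_mul_of_nonneg_left hR1 hxx0
    rw [a3]
    nlinarith
  have hYs : 0 ≤ ∑ c ∈ U, ey K f L c := Finset.sum_nonneg hy0
  have h3k : (0 : ℝ) < 3 ^ k := by positivity
  have hk3 : (k : ℝ) ≤ 3 ^ k :=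
    (by nlinarith : (k : ℝ) ≤ (k : ℝ) ^ 2).trans (sq_le_three_pow k)
  have hxR : 0 ≤ xx K * R := mul_nonneg hxx0 (by linarith)
  simp only [hav] at hA
  rw [hdiv, hThC]
  have hfin : |av (hU K U ε f) - 1 - ∑ c ∈ U, ε c * av (Sop K (f c)) -
      e * (av (fun y => dl K y * hU K U ε f y) / av (hU K U ε f)) -
      TM (dl K) C ε e (fun c => Sop K (L c))| ≤
      3 ^ k * (51 * τ) * (av (fun y => dl K y ^ 2) +
        ∑ c ∈ U, av (fun y => (Sop K (f c) y - dl K y) ^ 2)) +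
      7 / 2 * k * τ * (∑ c ∈ U, ey K f L c) + 3 ^ k * 10 * (xx K * (C \ U).card) := by
    have e1 : av (hU K U ε f) - 1 - ∑ c ∈ U, ε c * av (Sop K (f c)) -
      e * (av (fun y => dl K y * hU K U ε f y) / av (hU K U ε f)) -
      TM (dl K) C ε e (fun c => Sop K (L c)) =
      (av (hU K U ε f) - 1 - ∑ c ∈ U, ε c * av (Sop K (f c)) -
      e * (av (fun y => dl K y * hU K U ε f y) / av (hU K U ε f)) -
      TM (dl K) U ε e (fun c => Sop K (L c))) -
      (TM (dl K) C ε e (fun c => Sop K (L c)) - TM (dl K) U ε e (fun c => Sop K (L c))) := by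
      ring
    rw [e1]
    exact (abs_sub _ _).trans (add_le_add hA hB)
  refine hfin.trans (add_le_add ?_ le_rfl)
  have c1 : 3 ^ k * (51 * τ) * (av (fun y => dl K y ^ 2) +
        ∑ c ∈ U, av (fun y => (Sop K (f c) y - dl K y) ^ 2)) ≤
      3 ^ k * (51 * τ) * (50 / 49 * (xx K * R) + 2 * τ * ∑ c ∈ U, ey K f L c) :=
    mul_le_mul_of_nonneg_left hT (by positivity)
  have c2 : (k : ℝ) * (τ * ∑ c ∈ U, ey K f L c) ≤ 3 ^ k * (τ * ∑ c ∈ U, ey K f L c) :=
    mul_le_mul_of_nonneg_right hk3 (mul_nonneg hτ.le hYs)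
  have c3 : τ * (τ * ∑ c ∈ U, ey K f L c) ≤ 1 / 1000000 * (τ * ∑ c ∈ U, ey K f L c) :=
    mul_le_mul_of_nonneg_right hτ1 (mul_nonneg hτ.le hYs)
  have c4 : 3 ^ k * (τ * (τ * ∑ c ∈ U, ey K f L c)) ≤
      3 ^ k * (1 / 1000000 * (τ * ∑ c ∈ U, ey K f L c)) := mul_le_mul_of_nonneg_left c3 h3k.le
  have c5 : 0 ≤ 3 ^ k * (τ * ∑ c ∈ U, ey K f L c) :=
    mul_nonneg h3k.le (mul_nonneg hτ.le hYs)
  have c6 : 0 ≤ 3 ^ k * (τ * (xx K * R)) := mul_nonneg h3k.le (mul_nonneg hτ.le hxR)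
  nlinarith

end

end Pool.Agent.TFin
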