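import Pool.Agent.TFin.Targets

/-!
# Large trees in tournaments (MP_d27362_co), target GAIN

The total gain for irregular kernels.
-/

set_option autoImplicit false

namespace Pool.Agent.TFin

open Finset
open Pool.Agent.TLT (av Krn Sop dl xx)

namespace GAIN_

variable {V : Type} [Fintype V] [DecidableEq V] {par : V → V} {dep : V → ℕ} {r : V}
  {π lab : V → V} {sn : V → ℝ} {B : Finset V}

lemma mem_ch {c v : V} : c ∈ ch par r v ↔ c ≠ r ∧ par c = v := by simp [ch]

lemma pi_mem_ch (hP : Pairing par r π) {c v : V} (hc : c ∈ ch par r v) : π c ∈ ch par r v := by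
  rw [mem_ch] at hc ⊢
  refine ⟨?_, ?_⟩
  · intro h
    apply hc.1
    rw [← hP.inv c, h, hP.root]
  · rw [hP.hpar c hc.1, hc.2]

/-- the positive members of the intact pairs -/
noncomputable def QQ (par : V → V) (r : V) (π : V → V) (sn : V → ℝ) (Cut : Finset V) (v : V) : Finset V :=
  haveI : DecidablePred (fun c => π c ≠ c ∧ π c ∉ Cut ∧ sn c = 1) :=
    fun _ => Classical.propDecidable _
  (ch par r v \ Cut).filter (fun c => π c ≠ c ∧ π c ∉ Cut ∧ sn c = 1)

/-- the others -/
noncomputable def OO (par : V → V) (r : V) (π : V → V) (Cut : Finset V) (v : V) : Finset V :=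
  haveI : DecidablePred (fun c => π c = c ∨ π c ∈ Cut) :=
    fun _ => Classical.propDecidable _
  (ch par r v \ Cut).filter (fun c => π c = c ∨ π c ∈ Cut)

lemma mem_QQ {Cut : Finset V} {c v : V} : c ∈ QQ par r π sn Cut v ↔
    (c ∈ ch par r v ∧ c ∉ Cut) ∧ π c ≠ c ∧ π c ∉ Cut ∧ sn c = 1 := by
  simp [QQ, mem_filter, mem_sdiff]

lemma mem_OO {Cut : Finset V} {c v : V} : c ∈ OO par r π Cut v ↔
    (c ∈ ch par r v ∧ c ∉ Cut) ∧ (π c = c ∨ π c ∈ Cut) := by
  simp [OO, mem_filter, mem_sdiff]

lemma union_eq (hL : Lay par dep r π lab sn B) (Cut : Finset V) (v : V) :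
    QQ par r π sn Cut v ∪ (QQ par r π sn Cut v).image π ∪ OO par r π Cut v =
      ch par r v \ Cut := by
  ext c
  rw [mem_union, mem_union, mem_QQ, mem_OO, mem_image, mem_sdiff]
  constructor
  · rintro ((⟨h, -⟩ | ⟨c', hc', rfl⟩) | ⟨h, -⟩)
    · exact h
    · rw [mem_QQ] at hc'
      exact ⟨pi_mem_ch hL.pr hc'.1.1, hc'.2.2.1⟩
    · exact h
  · intro h
    by_cases h1 : π c = c ∨ π c ∈ Cut
    · right; exact ⟨h, h1⟩
    · left
      push Not at h1
      rcases hL.sn1 c with hs | hs
      · left; exact ⟨h, h1.1, h1.2, hs⟩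
      · right
        refine ⟨π c, ?_, hL.pr.inv c⟩
        rw [mem_QQ]
        refine ⟨⟨pi_mem_ch hL.pr h.1, h1.2⟩, ?_, ?_, ?_⟩
        · rw [hL.pr.inv]; exact fun h' => h1.1 h'.symm
        · rw [hL.pr.inv]; exact h.2
        · rw [hL.snpi c h1.1, hs]; norm_num

lemma hasPair_iff (hL : Lay par dep r π lab sn B) (Cut : Finset V) (v : V) :
    (QQ par r π sn Cut v).Nonempty ↔ HasPair par r π Cut v := by
  constructor
  · rintro ⟨c, hc⟩
    rw [mem_QQ] at hc
    exact ⟨c, hc.1.1, hc.2.1, hc.1.2, hc.2.2.1⟩
  · rintro ⟨c, hc, h1, h2, h3⟩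
    rcases hL.sn1 c with hs | hs
    · exact ⟨c, mem_QQ.mpr ⟨⟨hc, h2⟩, h1, h3, hs⟩⟩
    · refine ⟨π c, mem_QQ.mpr ⟨⟨pi_mem_ch hL.pr hc, h3⟩, ?_, ?_, ?_⟩⟩
      · rw [hL.pr.inv]; exact fun h' => h1 h'.symm
      · rw [hL.pr.inv]; exact h2
      · rw [hL.snpi c h1, hs]; norm_num

end GAIN_

open GAIN_ in
theorem p_GAIN (h1 : T_REC) (h2 : T_BAN) (h3 : T_LAYF) (h4 : T_ONEA) : T_GAIN := by
  classical
  intro V _ _ par dep r π lab sn B hRT hL Cut hr W _ _ K hK g hg
  obtain ⟨hdep, hleaf, -, hex, -, hsumw⟩ := h1 V par dep r hRT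
  obtain ⟨-, -, -, -, -, -, -, -, -, -, -, hbd, -, hB⟩ := h2 W
  obtain ⟨hSn1, -, hSav, -, -, -, hdl1, -, -, -, -, hxx0, hxx1, -⟩ := hB K hK
  obtain ⟨-, -, hBp, hBpp, -, hBpi, hBB⟩ := h3 V par dep r π lab sn B hRT hL
  obtain ⟨hg1, hg2⟩ := hg
  -- facts on tops
  have hparInj : Set.InjOn par (B : Set V) := by
    rw [← Finset.card_image_iff]; exact hBp
  have hppInj : Set.InjOn (fun w => par (par w)) (B : Set V) := by
    rw [← Finset.card_image_iff]; exact hBpp
  have htop_pi : ∀ v, Top par B Cut v → π v = v := by
    rintro v ⟨w, hw, rfl, -, -⟩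
    exact (hBpi w hw).2.2
  have htop_ch : ∀ w ∈ B, ch par r (par (par w)) = {par w} := fun w hw => (hL.Bc w hw).2.2.1
  have htop_ch' : ∀ w ∈ B, ch par r (par w) = {w} := fun w hw => (hL.Bc w hw).2.1
  have hnotboth : ∀ v, Top par B Cut v → ¬ HasPair par r π Cut v := by
    rintro v ⟨w, hw, rfl, -, -⟩ ⟨c, hc, hpc, -, -⟩
    rw [htop_ch w hw, mem_singleton] at hc
    subst hc
    exact hpc (hBpi w hw).2.1
  -- the gain
  set a : V → ℝ := fun v => if HasPair par r π Cut v ∨ Top par B Cut v then xx K / 60 else 0
    with ha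
  have ha0 : ∀ v, 0 ≤ a v := by
    intro v; simp only [ha]; split_ifs
    · positivity
    · exact le_rfl
  have ha1 : ∀ v, a v ≤ 1 := by
    intro v; simp only [ha]; split_ifs
    · linarith
    · norm_num
  obtain ⟨Γ, hΓ⟩ := hex ℝ ⟨0⟩ (fun v s => a v + ∑ c ∈ ch par r v \ Cut, s c)
    (fun v s s' h => by
      show a v + _ = a v + _
      rw [sum_congr rfl fun c hc => h c (mem_sdiff.mp hc).1])
  have hΓ0 : ∀ v, 0 ≤ Γ v := by
    refine hleaf (fun v => 0 ≤ Γ v) ?_
    intro v ih
    rw [hΓ v]
    exact add_nonneg (ha0 v) (sum_nonneg fun c hc => ih c (mem_sdiff.mp hc).1)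
  -- main claim
  let P : V → Prop := fun v => (∀ y, 0 ≤ g v y) ∧ ∃ p : ℝ, 0 ≤ p ∧ p ≤ 1 ∧
    av (g v) ≤ Real.exp (- Γ v - 9 / 10 * p) ∧
    (¬ Top par B Cut v → ∀ y, (1 - p) * g v y ≤ av (g v))
  have hmain : ∀ v, P v ∧ ∀ c ∈ ch par r v, P c := by
    refine hleaf (fun v => P v ∧ ∀ c ∈ ch par r v, P c) ?_
    intro v ih
    refine ⟨?_, fun c hc => (ih c hc).1⟩
    by_cases hT : Top par B Cut v
    · obtain ⟨w, hw, hv, hwC, huC⟩ := hT
      have hu : par w ∈ ch par r v := by
        rw [← hv, htop_ch w hw]; exact mem_singleton_self _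
      have hw' : w ∈ ch par r (par w) := by
        rw [htop_ch' w hw]; exact mem_singleton_self _
      obtain ⟨hgw0, p, hp0, hp1, hpe, -⟩ := (ih _ hu).2 w hw'
      have hform : ∀ y, g v y = av (g w) * (1 + Sop K (dl K) y) := by
        intro y; rw [← hv]; exact hg2 w hw hwC huC y
      have havw : 0 ≤ av (g w) := by
        unfold av; exact div_nonneg (sum_nonneg fun y _ => hgw0 y) (Nat.cast_nonneg _)
      have hS1 : ∀ y, |Sop K (dl K) y| ≤ 1 := fun y =>
        (hSn1 (dl K) y).trans (hbd (dl K) 1 hdl1).2
      refine ⟨fun y => ?_, 0, le_rfl, zero_le_one, ?_, fun h => absurd ⟨w, hw, hv, hwC, huC⟩ h⟩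
      · rw [hform y]
        have := (abs_le.mp (hS1 y)).1
        exact mul_nonneg havw (by linarith)
      · have hav : av (g v) = av (g w) * (1 - xx K) := by
          have e1 : av (g v) = av (g w) * (1 + av (Sop K (dl K))) := by
            have : (g v) = fun y => av (g w) * (1 + Sop K (dl K) y) := funext hform
            rw [this]
            unfold av
            rw [← mul_sum, sum_add_distrib, mul_div_assoc, add_div]
            congr 2
            rw [sum_const, card_univ, nsmul_eq_mul, mul_one, div_self]
            exact Nat.cast_ne_zero.mpr Fintype.card_ne_zero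
          rw [e1, hSav]
          have : (av fun y => dl K y * dl K y) = xx K := by
            unfold xx; congr 1; funext y; ring
          rw [this]; ring
        -- Γ v = xx/60 + Γ w
        have hau : a (par w) = 0 := by
          simp only [ha]
          rw [if_neg]
          rintro (⟨c, hc, hpc, -, -⟩ | ⟨w', hw'B, hw'e, -, -⟩)
          · rw [htop_ch' w hw, mem_singleton] at hc
            subst hc
            exact hpc (hBpi c hw).1
          · obtain ⟨a₀, hda⟩ := hL.Bd
            have e1 := hda w hw
            have e2 := hda w' hw'B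
            obtain ⟨b1, b2, b3⟩ := hL.Br w hw
            obtain ⟨c1, c2, c3⟩ := hL.Br w' hw'B
            have d1 := hRT.step w b1
            have d2 := hRT.step w' c1
            have d3 := hRT.step (par w') c2
            rw [hw'e] at d3
            omega
        have hΓw : Γ v = xx K / 60 + Γ w := by
          rw [hΓ v]
          have e1 : ch par r v \ Cut = {par w} := by
            rw [← hv, htop_ch w hw]
            ext c; rw [mem_sdiff, mem_singleton]
            constructor
            · exact fun h => h.1
            · rintro rfl; exact ⟨rfl, huC⟩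
          have e2 : ch par r (par w) \ Cut = {w} := by
            rw [htop_ch' w hw]
            ext c; rw [mem_sdiff, mem_singleton]
            constructor
            · exact fun h => h.1
            · rintro rfl; exact ⟨rfl, hwC⟩
          have e3 : a v = xx K / 60 := by
            simp only [ha]
            rw [if_pos]
            right; exact ⟨w, hw, hv, hwC, huC⟩
          show a v + _ = _
          rw [e1, sum_singleton, hΓ (par w)]
          show a v + (a (par w) + _) = _
          rw [e2, sum_singleton, e3, hau, zero_add]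
        rw [hav, hΓw]
        have h5 : av (g w) ≤ Real.exp (- Γ w) :=
          hpe.trans (Real.exp_le_exp.mpr (by linarith))
        have h6 : 1 - xx K ≤ Real.exp (- (xx K / 60)) := by
          have := Real.add_one_le_exp (- (xx K / 60))
          linarith
        calc av (g w) * (1 - xx K) ≤ Real.exp (- Γ w) * Real.exp (- (xx K / 60)) := by
              apply mul_le_mul h5 h6 (by linarith) (Real.exp_pos _).le
          _ = Real.exp (-(xx K / 60 + Γ w) - 9 / 10 * 0) := by
              rw [← Real.exp_add]; congr 1; ring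
    · -- not top
      have hpc : ∀ c, ∃ p : ℝ, c ∈ ch par r v → 0 ≤ p ∧ p ≤ 1 ∧
          av (g c) ≤ Real.exp (- Γ c - 9 / 10 * p) ∧
          (¬ Top par B Cut c → ∀ y, (1 - p) * g c y ≤ av (g c)) := by
        intro c
        by_cases hc : c ∈ ch par r v
        · obtain ⟨-, p, hp⟩ := (ih c hc).1
          exact ⟨p, fun _ => hp⟩
        · exact ⟨0, fun h => absurd h hc⟩
      choose p hp using hpc
      have hU := union_eq hL Cut v
      have hmemch : ∀ c ∈ QQ par r π sn Cut v ∪ (QQ par r π sn Cut v).image π ∪ OO par r π Cut v,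
          c ∈ ch par r v := by
        intro c hc
        rw [hU] at hc
        exact (mem_sdiff.mp hc).1
      obtain ⟨q1, pv, q2, q3, q4, q5⟩ := h4 V W K (QQ par r π sn Cut v) (OO par r π Cut v) π g
        Γ p (g v) hK
        (by
          intro c hc hc'
          rw [mem_QQ] at hc hc'
          have := hL.snpi c hc.2.1
          rw [hc.2.2.2, hc'.2.2.2] at this
          norm_num at this)
        (by
          intro c _ c' _ h
          rw [← hL.pr.inv c, h, hL.pr.inv])
        (by
          rw [Finset.disjoint_left]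
          intro c hc hc'
          rw [mem_OO] at hc
          rw [mem_union, mem_QQ, mem_image] at hc'
          rcases hc' with hc' | ⟨c', hc', rfl⟩
          · rcases hc.2 with h | h
            · exact hc'.2.1 h
            · exact hc'.2.2.1 h
          · rw [mem_QQ] at hc'
            rw [hL.pr.inv] at hc
            rcases hc.2 with h | h
            · exact hc'.2.1 h.symm
            · exact hc'.1.2 h)
        (by
          intro c hc
          have hcc := hmemch c hc
          obtain ⟨a1, a2, a3, -⟩ := hp c hcc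
          exact ⟨(ih c hcc).1.1, a1, a2, a3⟩)
        (by
          intro c hc y
          have hcc := hmemch c (mem_union_left _ hc)
          obtain ⟨-, -, -, a4⟩ := hp c hcc
          refine a4 ?_ y
          intro hTc
          have hpi := htop_pi c hTc
          rw [mem_union, mem_QQ, mem_image] at hc
          rcases hc with hc | ⟨c', hc', rfl⟩
          · exact hc.2.1 hpi
          · rw [mem_QQ] at hc'
            rw [hL.pr.inv] at hpi
            exact hc'.2.1 hpi.symm)
        (by
          intro y
          rw [hg1 v hT y]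
          congr 1
          · apply prod_congr _ (fun _ _ => rfl)
            ext c
            rw [mem_QQ]
            simp only [mem_filter, mem_sdiff]
          · apply prod_congr _ (fun _ _ => rfl)
            ext c
            rw [mem_OO]
            simp only [mem_filter, mem_sdiff])
      refine ⟨q1, pv, q2, q3, ?_, fun _ => q4⟩
      have hav : a v = if (QQ par r π sn Cut v).Nonempty then xx K / 60 else 0 := by
        simp only [ha]
        by_cases hq : (QQ par r π sn Cut v).Nonempty
        · rw [if_pos hq, if_pos (Or.inl ((hasPair_iff hL Cut v).mp hq))]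
        · rw [if_neg hq, if_neg]
          rintro (h | h)
          · exact hq ((hasPair_iff hL Cut v).mpr h)
          · exact hT h
      have hΓv : Γ v = a v + ∑ c ∈ ch par r v \ Cut, Γ c := hΓ v
      rw [hΓv, ← hU, hav]
      convert q5 using 2
      ring
  refine ⟨Γ, hΓ0, fun v => (hmain v).1.1, ?_, ?_, ?_⟩
  · intro v
    obtain ⟨p, hp0, -, hpe, -⟩ := (hmain v).1.2
    exact hpe.trans (Real.exp_le_exp.mpr (by linarith))
  · intro K₀ ρ hK0 hρ
    refine hleaf (fun v => Γ v ≤ (K₀ + 1 : ℝ) ^ (ρ v + 1)) ?_
    intro v ih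
    have hb : (0 : ℝ) ≤ K₀ := Nat.cast_nonneg _
    have hb1 : (1 : ℝ) ≤ K₀ + 1 := by linarith
    have h5 : ∑ c ∈ ch par r v \ Cut, Γ c ≤ K₀ * (K₀ + 1 : ℝ) ^ (ρ v) := by
      calc ∑ c ∈ ch par r v \ Cut, Γ c ≤ ∑ c ∈ ch par r v \ Cut, (K₀ + 1 : ℝ) ^ (ρ v) := by
            refine sum_le_sum fun c hc => (ih c (mem_sdiff.mp hc).1).trans ?_
            exact pow_le_pow_right₀ hb1 (hρ v c hc)
        _ = ((ch par r v \ Cut).card : ℝ) * (K₀ + 1 : ℝ) ^ (ρ v) := by
            rw [sum_const, nsmul_eq_mul]
        _ ≤ K₀ * (K₀ + 1 : ℝ) ^ (ρ v) := by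
            apply mul_le_mul_of_nonneg_right _ (by positivity)
            exact_mod_cast hK0 v
    have h6 : (1 : ℝ) ≤ (K₀ + 1 : ℝ) ^ (ρ v) := one_le_pow₀ hb1
    have hΓv : Γ v = a v + ∑ c ∈ ch par r v \ Cut, Γ c := hΓ v
    rw [hΓv, pow_succ]
    have := ha1 v
    nlinarith
  · have hs := hsumw Cut hr a Γ hΓ
    rw [hs]
    have hsa : ∑ v, a v = xx K / 60 *
        ((univ.filter fun v => HasPair par r π Cut v ∨ Top par B Cut v).card : ℝ) := by
      simp only [ha]
      rw [← sum_filter, sum_const, nsmul_eq_mul, mul_comm]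
    rw [hsa]
    refine mul_le_mul_of_nonneg_left ?_ (by positivity)
    have hun : (univ.filter fun v => HasPair par r π Cut v ∨ Top par B Cut v) =
        (univ.filter fun v => HasPair par r π Cut v) ∪ univ.filter fun v => Top par B Cut v := by
      ext v; simp
    have hdisj : Disjoint (univ.filter fun v => HasPair par r π Cut v)
        (univ.filter fun v => Top par B Cut v) := by
      rw [Finset.disjoint_left]
      intro v hv hv'
      simp only [mem_filter, mem_univ, true_and] at hv hv'
      exact hnotboth v hv' hv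
    rw [hun, card_union_of_disjoint hdisj]
    -- pairs
    have hpairs : (univ.filter fun v => 2 ≤ (ch par r v).card).card ≤
        (univ.filter fun v => HasPair par r π Cut v).card + Cut.card := by
      have hsub : (univ.filter fun v => 2 ≤ (ch par r v).card) ⊆
          (univ.filter fun v => HasPair par r π Cut v) ∪ Cut.image par := by
        intro v hv
        simp only [mem_filter, mem_univ, true_and] at hv
        rw [mem_union]
        by_cases hP : HasPair par r π Cut v
        · left; simp [hP]
        · right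
          obtain ⟨c1, hc1, c2, hc2, hne⟩ := Finset.one_lt_card.mp hv
          have hex' : ∃ c ∈ ch par r v, π c ≠ c := by
            by_contra hcon
            push Not at hcon
            have m1 := mem_ch.mp hc1
            have m2 := mem_ch.mp hc2
            exact hne (hL.pr.single c1 c2 m1.1 m2.1 (m1.2.trans m2.2.symm) (hcon c1 hc1)
              (hcon c2 hc2))
          obtain ⟨c, hc, hpc⟩ := hex'
          have hcut : c ∈ Cut ∨ π c ∈ Cut := by
            by_contra hcon
            push Not at hcon
            exact hP ⟨c, hc, hpc, hcon.1, hcon.2⟩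
          rw [mem_image]
          rcases hcut with h | h
          · exact ⟨c, h, (mem_ch.mp hc).2⟩
          · exact ⟨π c, h, (mem_ch.mp (pi_mem_ch hL.pr hc)).2⟩
      calc _ ≤ _ := card_le_card hsub
        _ ≤ _ := card_union_le _ _
        _ ≤ _ := Nat.add_le_add_left card_image_le _
    have htops : B.card ≤ (univ.filter fun v => Top par B Cut v).card + 2 * Cut.card := by
      have hsub : B ⊆ (B.filter fun w => w ∉ Cut ∧ par w ∉ Cut) ∪
          (Cut ∪ B.filter fun w => par w ∈ Cut) := by
        intro w hw
        simp only [mem_union, mem_filter]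
        tauto
      have c1 : (B.filter fun w => w ∉ Cut ∧ par w ∉ Cut).card ≤
          (univ.filter fun v => Top par B Cut v).card := by
        rw [← Finset.card_image_of_injOn (s := B.filter fun w => w ∉ Cut ∧ par w ∉ Cut)
          (f := fun w => par (par w))
          (hppInj.mono (by intro w hw; exact mem_coe.mpr (mem_of_mem_filter w (mem_coe.mp hw))))]
        apply card_le_card
        intro v hv
        rw [mem_image] at hv
        obtain ⟨w, hw, rfl⟩ := hv
        rw [mem_filter] at hw
        simp only [mem_filter, mem_univ, true_and]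
        exact ⟨w, hw.1, rfl, hw.2.1, hw.2.2⟩
      have c2 : (B.filter fun w => par w ∈ Cut).card ≤ Cut.card := by
        apply Finset.card_le_card_of_injOn par
        · intro w hw
          exact mem_coe.mpr (mem_filter.mp (mem_coe.mp hw)).2
        · exact hparInj.mono
            (by intro w hw; exact mem_coe.mpr (mem_of_mem_filter w (mem_coe.mp hw)))
      have c3 := card_le_card hsub
      have c4 := card_union_le (B.filter fun w => w ∉ Cut ∧ par w ∉ Cut)
        (Cut ∪ B.filter fun w => par w ∈ Cut)
      have c5 := card_union_le Cut (B.filter fun w => par w ∈ Cut)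
      omega
    have e1 : ((univ.filter fun v => 2 ≤ (ch par r v).card).card : ℝ) ≤
        (univ.filter fun v => HasPair par r π Cut v).card + Cut.card := by
      exact_mod_cast hpairs
    have e2 : (B.card : ℝ) ≤ (univ.filter fun v => Top par B Cut v).card + 2 * Cut.card := by
      exact_mod_cast htops
    push_cast
    linarith

end Pool.Agent.TFin
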