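import Pool.Agent.TFin.Targets

set_option autoImplicit false
set_option linter.unusedSectionVars false

namespace Pool.Agent.TFin

open Finset
open Pool.Agent.TLT (av Krn Sop dl xx)

namespace INDP_

noncomputable section

variable {V : Type} [Fintype V] [DecidableEq V]

lemma mem_ch {par : V → V} {r v c : V} : c ∈ ch par r v ↔ c ≠ r ∧ par c = v := by
  unfold ch; simp

/-- the relation of being a child -/
def R0 (par : V → V) (r : V) (a b : V) : Prop := b ∈ ch par r a

/-- the relation of being an uncut child -/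
def Rl (par : V → V) (r : V) (Cut : Finset V) (a b : V) : Prop := b ∈ ch par r a \ Cut

lemma Rl_R0 {par : V → V} {r : V} {Cut : Finset V} {a b : V}
    (h : Relation.TransGen (Rl par r Cut) a b) : Relation.TransGen (R0 par r) a b :=
  Relation.TransGen.mono (r := Rl par r Cut) (p := R0 par r)
    (fun _ _ h => (mem_sdiff.mp h).1) _ _ h

lemma Rl_R0' {par : V → V} {r : V} {Cut : Finset V} {a b : V}
    (h : Relation.ReflTransGen (Rl par r Cut) a b) : Relation.ReflTransGen (R0 par r) a b :=
  Relation.ReflTransGen.mono (r := Rl par r Cut) (p := R0 par r)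
    (fun _ _ h => (mem_sdiff.mp h).1) _ _ h

lemma last {par : V → V} {r : V} {Cut : Finset V} {a b : V}
    (h : Relation.TransGen (Rl par r Cut) a b) : b ∉ Cut := by
  cases h with
  | single h => exact (mem_sdiff.mp h).2
  | tail _ h => exact (mem_sdiff.mp h).2

open Classical in
/-- labels of the strict uncut descendants -/
def lb (par : V → V) (r : V) (Cut : Finset V) (lab : V → V) (c : V) : Finset V :=
  (univ.filter (fun w => Relation.TransGen (Rl par r Cut) c w)).image lab

open Classical in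
/-- labels of the uncut descendants -/
def lc (par : V → V) (r : V) (Cut : Finset V) (lab : V → V) (c : V) : Finset V :=
  (univ.filter (fun w => Relation.ReflTransGen (Rl par r Cut) c w)).image lab

lemma mem_lb {par : V → V} {r : V} {Cut : Finset V} {lab : V → V} {c l : V} :
    l ∈ lb par r Cut lab c ↔ ∃ w, Relation.TransGen (Rl par r Cut) c w ∧ lab w = l := by
  unfold lb; simp

lemma mem_lc {par : V → V} {r : V} {Cut : Finset V} {lab : V → V} {c l : V} :
    l ∈ lc par r Cut lab c ↔ ∃ w, Relation.ReflTransGen (Rl par r Cut) c w ∧ lab w = l := by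
  unfold lc; simp

lemma lb_lc {par : V → V} {r : V} {Cut : Finset V} {lab : V → V} {c : V} :
    lb par r Cut lab c ⊆ lc par r Cut lab c := by
  intro l hl
  rw [mem_lb] at hl
  rw [mem_lc]
  obtain ⟨w, hw, e⟩ := hl
  exact ⟨w, hw.to_reflTransGen, e⟩

lemma lab_lc {par : V → V} {r : V} {Cut : Finset V} {lab : V → V} {c : V} :
    lab c ∈ lc par r Cut lab c := mem_lc.mpr ⟨c, Relation.ReflTransGen.refl, rfl⟩

section Dep

variable {par : V → V} {r : V} {Cut : Finset V} {lab : V → V} {sn : V → ℝ} {W : Type} [Fintype W]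
  {K : W → W → ℝ} {G : (V → Bool) → V → W → ℝ}

/-- dependence on the labels -/
lemma dep_only (hind : ∀ p : V → Prop, (∀ v, (∀ c ∈ ch par r v, p c) → p v) → ∀ v, p v)
    (hG : ∀ ζ, IsVal par r Cut (sg lab sn ζ) K (G ζ)) : ∀ v ζ ζ',
    (∀ l ∈ lb par r Cut lab v, ζ l = ζ' l) → G ζ v = G ζ' v := by
  apply hind (fun v => ∀ ζ ζ', (∀ l ∈ lb par r Cut lab v, ζ l = ζ' l) → G ζ v = G ζ' v)
  intro v ih ζ ζ' h
  funext y
  rw [hG ζ v y, hG ζ' v y]
  apply prod_congr rfl
  intro c hc
  have hc' := mem_sdiff.mp hc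
  have e1 : G ζ c = G ζ' c := by
    apply ih c hc'.1
    intro l hl
    apply h
    rw [mem_lb] at hl ⊢
    obtain ⟨w, hw, e⟩ := hl
    exact ⟨w, Relation.TransGen.head hc hw, e⟩
  have e2 : sg lab sn ζ c = sg lab sn ζ' c := by
    unfold sg
    rw [h (lab c) (mem_lb.mpr ⟨c, Relation.TransGen.single hc, rfl⟩)]
  rw [e1, e2]

end Dep

section Sep

variable {par : V → V} {dep : V → ℕ} {r : V} {π lab : V → V} {sn : V → ℝ} {B : Finset V}

lemma par_reach {c a : V} (h : Relation.ReflTransGen (R0 par r) c a) :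
    a = c ∨ Relation.ReflTransGen (R0 par r) c (par a) := by
  rcases Relation.ReflTransGen.cases_tail h with h | ⟨b, hb, h⟩
  · left; exact h
  · right
    have := (mem_ch.mp h).2
    rw [this]; exact hb

lemma dep_le (f1 : ∀ v w, Relation.TransGen (R0 par r) v w → w ≠ r ∧ dep v < dep w)
    {c a : V} (h : Relation.ReflTransGen (R0 par r) c a) : dep c ≤ dep a := by
  rcases Relation.reflTransGen_iff_eq_or_transGen.mp h with h | h
  · rw [h]
  · exact (f1 c a h).2.le

lemma ne_root (f1 : ∀ v w, Relation.TransGen (R0 par r) v w → w ≠ r ∧ dep v < dep w)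
    {c a : V} (hc : c ≠ r) (h : Relation.ReflTransGen (R0 par r) c a) : a ≠ r := by
  rcases Relation.reflTransGen_iff_eq_or_transGen.mp h with h | h
  · rw [h]; exact hc
  · exact (f1 c a h).1

lemma no_par (hRT : RT par dep r)
    (f1 : ∀ v w, Relation.TransGen (R0 par r) v w → w ≠ r ∧ dep v < dep w)
    (f2 : ∀ v c c' w, c ∈ ch par r v → c' ∈ ch par r v → c ≠ c' →
      Relation.ReflTransGen (R0 par r) c w → ¬ Relation.ReflTransGen (R0 par r) c' w)
    {v c c' a b : V} (hc : c ∈ ch par r v) (hc' : c' ∈ ch par r v) (hne : c ≠ c')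
    (ha : Relation.ReflTransGen (R0 par r) c a) (hb : Relation.ReflTransGen (R0 par r) c' b) :
    b ≠ par a := by
  intro h
  have hcv := mem_ch.mp hc
  have hcv' := mem_ch.mp hc'
  rcases par_reach ha with h1 | h1
  · have h2 := dep_le f1 hb
    have h3 := hRT.step c' hcv'.1
    rw [h, h1, hcv.2] at h2
    rw [hcv'.2] at h3
    omega
  · rw [← h] at h1
    exact f2 v c c' b hc hc' hne h1 hb

lemma sep (hRT : RT par dep r) (hL : Lay par dep r π lab sn B)
    (f1 : ∀ v w, Relation.TransGen (R0 par r) v w → w ≠ r ∧ dep v < dep w)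
    (f2 : ∀ v c c' w, c ∈ ch par r v → c' ∈ ch par r v → c ≠ c' →
      Relation.ReflTransGen (R0 par r) c w → ¬ Relation.ReflTransGen (R0 par r) c' w)
    {v c c' a b : V} (hc : c ∈ ch par r v) (hc' : c' ∈ ch par r v) (hne : c ≠ c')
    (ha : Relation.ReflTransGen (R0 par r) c a) (hb : Relation.ReflTransGen (R0 par r) c' b)
    (hab : lab a = lab b) : c' = π c ∧ a = c ∧ b = c' := by
  have hcv := mem_ch.mp hc
  have hcv' := mem_ch.mp hc'
  have ha0 := ne_root f1 hcv.1 ha
  have hb0 := ne_root f1 hcv'.1 hb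
  rcases hL.inj a b ha0 hb0 hab with h | h | ⟨_, h⟩ | ⟨_, h⟩
  · rw [h] at hb
    exact absurd hb (f2 v c c' a hc hc' hne ha)
  · have hp : par b = par a := by rw [h]; exact hL.pr.hpar a ha0
    rcases par_reach ha with h1 | h1 <;> rcases par_reach hb with h2 | h2
    · refine ⟨?_, h1, h2⟩
      rw [← h2, h, h1]
    · have h3 := dep_le f1 h2
      have h4 := hRT.step c' hcv'.1
      rw [hp, h1, hcv.2] at h3
      rw [hcv'.2] at h4
      omega
    · have h3 := dep_le f1 h1
      have h4 := hRT.step c hcv.1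
      rw [← hp, h2, hcv'.2] at h3
      rw [hcv.2] at h4
      omega
    · rw [hp] at h2
      exact absurd h2 (f2 v c c' (par a) hc hc' hne h1)
  · exact absurd h (no_par hRT f1 f2 hc hc' hne ha hb)
  · exact absurd h (no_par hRT f1 f2 hc' hc hne.symm hb ha)

lemma own (hRT : RT par dep r) (hL : Lay par dep r π lab sn B)
    (f1 : ∀ v w, Relation.TransGen (R0 par r) v w → w ≠ r ∧ dep v < dep w)
    {c a : V} (hc : c ≠ r) (ha : Relation.TransGen (R0 par r) c a) (hab : lab a = lab c) :
    a ∈ B ∧ par a = c := by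
  obtain ⟨ha0, hd⟩ := f1 c a ha
  have h1 := hRT.step a ha0
  have h2 := hRT.step c hc
  rcases hL.inj c a hc ha0 hab.symm with h | h | ⟨_, h⟩ | ⟨h', h⟩
  · rw [h] at hd; exact absurd hd (lt_irrefl _)
  · have hp : par a = par c := by rw [h]; exact hL.pr.hpar c hc
    rw [hp] at h1; omega
  · rw [← h] at h2; omega
  · exact ⟨h', h.symm⟩

end Sep

section Expect

lemma Ex_add (F G : (V → Bool) → ℝ) : Ex (fun ζ => F ζ + G ζ) = Ex F + Ex G := by
  unfold Ex; rw [sum_add_distrib, add_div]

lemma Ex_sub (F G : (V → Bool) → ℝ) : Ex (fun ζ => F ζ - G ζ) = Ex F - Ex G := by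
  unfold Ex; rw [sum_sub_distrib, sub_div]

lemma Ex_mul (a : ℝ) (F : (V → Bool) → ℝ) : Ex (fun ζ => a * F ζ) = a * Ex F := by
  unfold Ex; rw [← mul_sum, mul_div_assoc]

lemma Ex_S (h9 : ∀ (W : Type) [Fintype W] (F : (V → Bool) → W → ℝ),
    Ex (fun ζ => av (F ζ)) = av fun y => Ex fun ζ => F ζ y) {W : Type} [Fintype W]
    (K : W → W → ℝ) (F : (V → Bool) → W → ℝ) (y : W) :
    Ex (fun ζ => Sop K (F ζ) y) = Sop K (fun z => Ex fun ζ => F ζ z) y := by
  have h1 : ∀ f : W → ℝ, Sop K f y = av fun z => (K y z - 1) * f z := fun f => rfl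
  rw [h1]
  have h2 : (fun ζ => Sop K (F ζ) y) = fun ζ => av fun z => (K y z - 1) * F ζ z := by
    funext ζ; exact h1 _
  rw [h2, h9 W (fun ζ z => (K y z - 1) * F ζ z)]
  congr 1
  funext z
  exact Ex_mul _ _

lemma Ex_prod2 (h10 : ∀ (I : Type) [DecidableEq I] (s : Finset I) (D : I → Finset V)
    (F : I → (V → Bool) → ℝ),
    (∀ i ∈ s, ∀ ζ ζ', (∀ l ∈ D i, ζ l = ζ' l) → F i ζ = F i ζ') →
    (∀ i ∈ s, ∀ j ∈ s, i ≠ j → Disjoint (D i) (D j)) →
    Ex (fun ζ => ∏ i ∈ s, F i ζ) = ∏ i ∈ s, Ex (F i))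
    (F G : (V → Bool) → ℝ) (D E : Finset V)
    (hF : ∀ ζ ζ', (∀ l ∈ D, ζ l = ζ' l) → F ζ = F ζ')
    (hG : ∀ ζ ζ', (∀ l ∈ E, ζ l = ζ' l) → G ζ = G ζ') (hDE : Disjoint D E) :
    Ex (fun ζ => F ζ * G ζ) = Ex F * Ex G := by
  have h := h10 Bool univ (fun b => if b then D else E) (fun b => if b then F else G) ?_ ?_
  · simpa using h
  · intro b _ ζ ζ' h
    cases b
    · simpa using hG ζ ζ' (by simpa using h)
    · simpa using hF ζ ζ' (by simpa using h)
  · intro b _ b' _ hb
    cases b <;> cases b'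
    · exact absurd rfl hb
    · simpa using hDE.symm
    · simpa using hDE
    · exact absurd rfl hb

lemma Ex_prodsum (h10 : ∀ (I : Type) [DecidableEq I] (s : Finset I) (D : I → Finset V)
    (F : I → (V → Bool) → ℝ),
    (∀ i ∈ s, ∀ ζ ζ', (∀ l ∈ D i, ζ l = ζ' l) → F i ζ = F i ζ') →
    (∀ i ∈ s, ∀ j ∈ s, i ≠ j → Disjoint (D i) (D j)) →
    Ex (fun ζ => ∏ i ∈ s, F i ζ) = ∏ i ∈ s, Ex (F i))
    (Q O : Finset V) (F1 F2 : V → (V → Bool) → ℝ) (D1 D2 : V → Finset V)
    (hF1 : ∀ i ∈ Q, ∀ ζ ζ', (∀ l ∈ D1 i, ζ l = ζ' l) → F1 i ζ = F1 i ζ')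
    (hF2 : ∀ i ∈ O, ∀ ζ ζ', (∀ l ∈ D2 i, ζ l = ζ' l) → F2 i ζ = F2 i ζ')
    (h11 : ∀ i ∈ Q, ∀ j ∈ Q, i ≠ j → Disjoint (D1 i) (D1 j))
    (h22 : ∀ i ∈ O, ∀ j ∈ O, i ≠ j → Disjoint (D2 i) (D2 j))
    (h12 : ∀ i ∈ Q, ∀ j ∈ O, Disjoint (D1 i) (D2 j)) :
    Ex (fun ζ => (∏ i ∈ Q, F1 i ζ) * ∏ i ∈ O, F2 i ζ) =
      (∏ i ∈ Q, Ex (F1 i)) * ∏ i ∈ O, Ex (F2 i) := by
  have h := h10 (V ⊕ V) (Q.disjSum O) (Sum.elim D1 D2) (Sum.elim F1 F2) ?_ ?_
  · rw [prod_disjSum] at h
    simp only [Sum.elim_inl, Sum.elim_inr] at h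
    rw [← h]
    congr 1
    funext ζ
    rw [prod_disjSum]
    simp only [Sum.elim_inl, Sum.elim_inr]
  · intro i hi ζ ζ' hζ
    rw [mem_disjSum] at hi
    rcases hi with ⟨a, ha, rfl⟩ | ⟨a, ha, rfl⟩
    · exact hF1 a ha ζ ζ' hζ
    · exact hF2 a ha ζ ζ' hζ
  · intro i hi j hj hij
    rw [mem_disjSum] at hi hj
    rcases hi with ⟨a, ha, rfl⟩ | ⟨a, ha, rfl⟩ <;> rcases hj with ⟨b, hb, rfl⟩ | ⟨b, hb, rfl⟩
    · exact h11 a ha b hb (fun e => hij (by rw [e]))
    · exact h12 a ha b hb
    · exact (h12 b hb a ha).symm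
    · exact h22 a ha b hb (fun e => hij (by rw [e]))

end Expect

end

end INDP_

open INDP_ in
theorem p_INDP (h1 : T_REC) (h3 : T_CUBE) (h4 : T_LAYF) (h5 : T_FLN) : T_INDP := by
  classical
  intro V _ _ par dep r π lab sn B hRT hL Cut hrC W _ _ K hK G hG g hg
  obtain ⟨_, hind, _, _, _, _⟩ := h1 V par dep r hRT
  obtain ⟨_, _, _, _, _, _, _, h8, h9, h10⟩ := h3 V
  obtain ⟨l1, l2, l3, l4, l5, l6, l7⟩ := h4 V par dep r π lab sn B hRT hL
  obtain ⟨f1', f2', _, _, _⟩ := h5 V par dep r hRT
  have f1 : ∀ v w, Relation.TransGen (R0 par r) v w → w ≠ r ∧ dep v < dep w :=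
    fun v w h => ⟨(f1' v w h).1, (f1' v w h).2.1⟩
  have f2 : ∀ v c c' w, c ∈ ch par r v → c' ∈ ch par r v → c ≠ c' →
      Relation.ReflTransGen (R0 par r) c w → ¬ Relation.ReflTransGen (R0 par r) c' w := f2'
  have hdo := dep_only (K := K) (G := G) hind hG
  -- flipping the label of `c` does not change `G ζ c` unless there is a cherry
  have hflip : ∀ c c' : V, c ≠ r → lab c' = lab c → (∀ a ∈ B, par a = c → a ∈ Cut) →
      ∀ ζ, G (flipS {lab c'} ζ) c = G ζ c := by
    intro c c' hc hl hB ζ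
    apply hdo
    intro l hl'
    rw [mem_lb] at hl'
    obtain ⟨w, hw, rfl⟩ := hl'
    have hne : lab w ≠ lab c := by
      intro he
      obtain ⟨hwB, hwp⟩ := own hRT hL f1 hc (Rl_R0 hw) he
      exact last hw (hB w hwB hwp)
    unfold flipS
    rw [if_neg (by rw [mem_singleton, hl]; exact hne)]
  have hsgf : ∀ c ζ, sg lab sn (flipS {lab c} ζ) c = - sg lab sn ζ c := by
    intro c ζ
    rw [l2 ζ {lab c} c, if_pos (mem_singleton_self _)]
  have hsq : ∀ c ζ, sg lab sn ζ c * sg lab sn ζ c = 1 := by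
    intro c ζ
    rcases (l1 ζ).1 c with h | h <;> rw [h] <;> norm_num
  have key : ∀ v, (∀ y, Ex (fun ζ => G ζ v y) = g v y) ∧
      ∀ c ∈ ch par r v, ∀ y, Ex (fun ζ => G ζ c y) = g c y := by
    apply hind (fun v => (∀ y, Ex (fun ζ => G ζ v y) = g v y) ∧
      ∀ c ∈ ch par r v, ∀ y, Ex (fun ζ => G ζ c y) = g c y)
    intro v ih
    refine ⟨?_, fun c hc => (ih c hc).1⟩
    have ihav : ∀ c ∈ ch par r v, Ex (fun ζ => av (G ζ c)) = av (g c) := by
      intro c hc
      rw [h9 W (fun ζ => G ζ c)]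
      congr 1
      funext y
      exact (ih c hc).1 y
    have ihS : ∀ c ∈ ch par r v, ∀ y, Ex (fun ζ => Sop K (G ζ c) y) = Sop K (g c) y := by
      intro c hc y
      rw [Ex_S h9]
      have e : (fun z => Ex fun ζ => G ζ c z) = g c := by
        funext z
        exact (ih c hc).1 z
      rw [e]
    intro y
    by_cases hT : Top par B Cut v
    · -- the top of a cherry
      obtain ⟨w, hw, hwv, hwC, huC⟩ := hT
      obtain ⟨hcw, hchu, hchv, _⟩ := hL.Bc w hw
      obtain ⟨hwr, hur, _⟩ := hL.Br w hw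
      have hwu : w ∈ ch par r (par w) := mem_ch.mpr ⟨hwr, rfl⟩
      have huv : par w ∈ ch par r v := mem_ch.mpr ⟨hur, hwv⟩
      have ihw : ∀ y, Ex (fun ζ => G ζ w y) = g w y := (ih (par w) huv).2 w hwu
      have hse : ∀ ζ, sg lab sn ζ (par w) = sg lab sn ζ w := by
        intro ζ
        exact ((l5 ζ (par w) (mem_image_of_mem par hw)).2.2 w hwu).symm
      have hGu : ∀ ζ, G ζ (par w) = fun z => av (G ζ w) + sg lab sn ζ w * Sop K (G ζ w) z := by
        intro ζ
        funext z
        rw [hG ζ (par w) z, hchu, sdiff_eq_self_of_disjoint (by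
          rw [disjoint_singleton_left]; exact hwC), prod_singleton]
      have hGv : ∀ ζ, G ζ v y = av (G ζ w) + Sop K (Sop K (G ζ w)) y +
          sg lab sn ζ w * (av (Sop K (G ζ w)) + av (G ζ w) * dl K y) := by
        intro ζ
        have e0 : ch par r v \ Cut = {par w} := by
          rw [← hwv, hchv]
          exact sdiff_eq_self_of_disjoint (by rw [disjoint_singleton_left]; exact huC)
        rw [hG ζ v y, e0, prod_singleton, hse ζ, hGu ζ]
        have e1 : av (fun z => av (G ζ w) + sg lab sn ζ w * Sop K (G ζ w) z) =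
            av (G ζ w) + sg lab sn ζ w * av (Sop K (G ζ w)) := by
          have hW : (Fintype.card W : ℝ) ≠ 0 := by
            exact_mod_cast Fintype.card_ne_zero
          unfold av
          rw [sum_add_distrib, ← mul_sum, sum_const, card_univ, nsmul_eq_mul]
          field_simp
        have e2 : (fun z => av (G ζ w) + sg lab sn ζ w * Sop K (G ζ w) z) =
            av (G ζ w) • (fun _ : W => (1 : ℝ)) + sg lab sn ζ w • (Sop K (G ζ w)) := by
          funext z
          simp
        rw [e1, e2, map_add, map_smul, map_smul]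
        have e3 := hsq w ζ
        have e4 : dl K y = Sop K (fun _ => 1) y := rfl
        simp only [Pi.add_apply, Pi.smul_apply, smul_eq_mul]
        rw [← e4]
        linear_combination (Sop K (Sop K (G ζ w)) y) * e3
      have hnoB : ∀ a ∈ B, par a = w → a ∈ Cut := by
        intro a ha he
        exfalso
        exact (l7 a ha).1 (by rw [he]; exact hw)
      have hodd : Ex (fun ζ => sg lab sn ζ w *
          (av (Sop K (G ζ w)) + av (G ζ w) * dl K y)) = 0 := by
        apply h8 {lab w}
        intro ζ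
        rw [hflip w w hwr rfl hnoB ζ, hsgf]
        ring
      have hgw : ∃ a : ℝ, g w = fun _ => a := by
        have hnT : ¬ Top par B Cut w := by
          rintro ⟨w', hw', he, _, _⟩
          exact (l7 w' hw').2 (by rw [he]; exact hw)
        refine ⟨∏ c ∈ (ch par r w \ Cut).filter (fun c => π c = c ∨ π c ∈ Cut), av (g c), ?_⟩
        funext z
        rw [hg.1 w hnT z]
        rw [prod_eq_one, one_mul]
        · intro c hc
          exfalso
          simp only [mem_filter, mem_sdiff] at hc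
          obtain ⟨⟨hc1, hc2⟩, hc3, _⟩ := hc
          have hc4 := mem_ch.mp hc1
          have hc5 : π c ∈ ch par r w := by
            rw [mem_ch]
            refine ⟨?_, ?_⟩
            · intro he
              apply hc4.1
              rw [← hL.pr.inv c, he, hL.pr.root]
            · rw [hL.pr.hpar c hc4.1]; exact hc4.2
          have := card_le_one.mp hcw (π c) hc5 c hc1
          exact hc3 this
      obtain ⟨a, ha⟩ := hgw
      have hW : (Fintype.card W : ℝ) ≠ 0 := by
        exact_mod_cast Fintype.card_ne_zero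
      have hava : av (g w) = a := by
        rw [ha]
        unfold av
        rw [sum_const, card_univ, nsmul_eq_mul]
        field_simp
      have e5 : Ex (fun ζ => G ζ v y) = av (g w) + Sop K (Sop K (g w)) y := by
        have : (fun ζ => G ζ v y) = fun ζ => (av (G ζ w) + Sop K (Sop K (G ζ w)) y) +
          sg lab sn ζ w * (av (Sop K (G ζ w)) + av (G ζ w) * dl K y) := by
          funext ζ; exact hGv ζ
        rw [this, Ex_add, hodd, add_zero, Ex_add]
        congr 1
        · rw [h9 W (fun ζ => G ζ w)]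
          congr 1
          funext z
          exact ihw z
        · rw [Ex_S h9 K (fun ζ => Sop K (G ζ w))]
          have e6 : (fun z => Ex fun ζ => G ζ w z) = g w := by
            funext z'
            exact ihw z'
          have e7 : (fun z => Ex fun ζ => Sop K (G ζ w) z) = Sop K (g w) := by
            funext z
            rw [Ex_S h9, e6]
          rw [e7]
      rw [e5, ← hwv, hg.2 w hw hwC huC y, hava, ha]
      have e6 : (fun _ : W => a) = a • (fun _ : W => (1 : ℝ)) := by
        funext z; simp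
      rw [e6, map_smul, map_smul]
      simp only [Pi.smul_apply, smul_eq_mul]
      show a + a * Sop K (dl K) y = _
      ring
    · -- the other vertices
      set Q : Finset V := (ch par r v \ Cut).filter (fun c => π c ≠ c ∧ π c ∉ Cut ∧ sn c = 1)
        with hQ
      set O : Finset V := (ch par r v \ Cut).filter (fun c => π c = c ∨ π c ∈ Cut) with hO
      set m : V → (V → Bool) → ℝ := fun c ζ => av (G ζ c) + sg lab sn ζ c * Sop K (G ζ c) y
        with hm
      have hpi : ∀ c ∈ ch par r v, π c ∈ ch par r v := by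
        intro c hc
        have hc' := mem_ch.mp hc
        rw [mem_ch]
        refine ⟨?_, ?_⟩
        · intro he
          apply hc'.1
          rw [← hL.pr.inv c, he, hL.pr.root]
        · rw [hL.pr.hpar c hc'.1]; exact hc'.2
      have hQm : ∀ c ∈ Q, c ∈ ch par r v ∧ c ∉ Cut ∧ π c ∈ ch par r v ∧ π c ∉ Cut ∧ π c ≠ c ∧
          sn c = 1 ∧ sn (π c) = -1 := by
        intro c hc
        rw [hQ, mem_filter, mem_sdiff] at hc
        obtain ⟨⟨a1, a2⟩, a3, a4, a5⟩ := hc
        exact ⟨a1, a2, hpi c a1, a4, a3, a5, by rw [hL.snpi c a3, a5]⟩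
      have hOm : ∀ c ∈ O, c ∈ ch par r v ∧ c ∉ Cut ∧ (π c = c ∨ π c ∈ Cut) := by
        intro c hc
        rw [hO, mem_filter, mem_sdiff] at hc
        exact ⟨hc.1.1, hc.1.2, hc.2⟩
      -- the product
      have hprod : ∀ ζ, G ζ v y = (∏ c ∈ Q, m c ζ * m (π c) ζ) * ∏ c ∈ O, m c ζ := by
        intro ζ
        rw [hG ζ v y]
        show ∏ c ∈ ch par r v \ Cut, m c ζ = _
        set Q' : Finset V :=
          (ch par r v \ Cut).filter (fun c => π c ≠ c ∧ π c ∉ Cut ∧ sn c ≠ 1) with hQ'
        have e1 : ∏ c ∈ Q', m c ζ = ∏ c ∈ Q, m (π c) ζ := by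
          symm
          apply prod_bij (fun c _ => π c)
          · intro c hc
            obtain ⟨a1, a2, a3, a4, a5, a6, a7⟩ := hQm c hc
            rw [hQ', mem_filter, mem_sdiff, hL.pr.inv, a7]
            exact ⟨⟨a3, a4⟩, a5.symm, a2, by norm_num⟩
          · intro c _ c' _ he
            rw [← hL.pr.inv c, he, hL.pr.inv]
          · intro c hc
            rw [hQ', mem_filter, mem_sdiff] at hc
            obtain ⟨⟨a1, a2⟩, a3, a4, a5⟩ := hc
            refine ⟨π c, ?_, hL.pr.inv c⟩
            rw [hQ, mem_filter, mem_sdiff, hL.pr.inv]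
            refine ⟨⟨hpi c a1, a4⟩, a3.symm, a2, ?_⟩
            rw [hL.snpi c a3]
            rcases hL.sn1 c with h | h
            · exact absurd h a5
            · rw [h]; norm_num
          · intro c _; rfl
        have e2 : ch par r v \ Cut = (Q ∪ Q') ∪ O := by
          ext c
          simp only [hQ, hQ', hO, mem_union, mem_filter]
          tauto
        have d1 : Disjoint Q Q' := by
          rw [disjoint_left]
          intro c hc hc'
          rw [hQ, mem_filter] at hc
          rw [hQ', mem_filter] at hc'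
          exact hc'.2.2.2 hc.2.2.2
        have d2 : Disjoint (Q ∪ Q') O := by
          rw [disjoint_left]
          intro c hc hc'
          rw [mem_union, hQ, hQ', mem_filter, mem_filter] at hc
          rw [hO, mem_filter] at hc'
          tauto
        rw [e2, prod_union d2, prod_union d1, e1, ← prod_mul_distrib]
      -- dependence
      have hmdep : ∀ c, ∀ ζ ζ', (∀ l ∈ lc par r Cut lab c, ζ l = ζ' l) → m c ζ = m c ζ' := by
        intro c ζ ζ' h
        have e1 : G ζ c = G ζ' c := hdo c ζ ζ' (fun l hl => h l (lb_lc hl))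
        have e2 : sg lab sn ζ c = sg lab sn ζ' c := by
          unfold sg
          rw [h (lab c) lab_lc]
        show av (G ζ c) + sg lab sn ζ c * Sop K (G ζ c) y =
          av (G ζ' c) + sg lab sn ζ' c * Sop K (G ζ' c) y
        rw [e1, e2]
      -- disjointness
      have hdis : ∀ c ∈ ch par r v, ∀ c' ∈ ch par r v, c ≠ c' → c' ≠ π c →
          Disjoint (lc par r Cut lab c) (lc par r Cut lab c') := by
        intro c hc c' hc' hne hp
        rw [disjoint_left]
        intro l hl hl'
        rw [mem_lc] at hl hl'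
        obtain ⟨a, ha, ea⟩ := hl
        obtain ⟨b, hb, eb⟩ := hl'
        exact hp (sep hRT hL f1 f2 hc hc' hne (Rl_R0' ha) (Rl_R0' hb) (ea.trans eb.symm)).1
      have hdis2 : ∀ c ∈ ch par r v, π c ≠ c →
          Disjoint (lb par r Cut lab c) (lb par r Cut lab (π c)) := by
        intro c hc hp
        rw [disjoint_left]
        intro l hl hl'
        rw [mem_lb] at hl hl'
        obtain ⟨a, ha, ea⟩ := hl
        obtain ⟨b, hb, eb⟩ := hl'
        have h := (sep hRT hL f1 f2 hc (hpi c hc) hp.symm (Rl_R0 ha).to_reflTransGen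
          (Rl_R0 hb).to_reflTransGen (ea.trans eb.symm)).2.1
        have h' := (f1 c a (Rl_R0 ha)).2
        rw [h] at h'
        exact lt_irrefl _ h'
      have hQQ : ∀ c ∈ Q, ∀ c' ∈ Q, c' ≠ π c := by
        intro c hc c' hc' he
        have a1 := (hQm c hc).2.2.2.2.2.2
        have a2 := (hQm c' hc').2.2.2.2.2.1
        rw [he, a1] at a2
        norm_num at a2
      have hQO : ∀ c ∈ Q, ∀ c' ∈ O, c ≠ c' ∧ c' ≠ π c := by
        intro c hc c' hc'
        obtain ⟨a1, a2, a3, a4, a5, a6, a7⟩ := hQm c hc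
        obtain ⟨b1, b2, b3⟩ := hOm c' hc'
        constructor
        · intro he
          rw [← he] at b3
          rcases b3 with h | h
          · exact a5 h
          · exact a4 h
        · intro he
          rw [he, hL.pr.inv] at b3
          rcases b3 with h | h
          · exact a5 h.symm
          · exact a2 h
      have hOO : ∀ c ∈ O, ∀ c' ∈ O, c ≠ c' → c' ≠ π c := by
        intro c hc c' hc' hne he
        obtain ⟨a1, a2, a3⟩ := hOm c hc
        obtain ⟨b1, b2, b3⟩ := hOm c' hc'
        rcases a3 with h | h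
        · rw [h] at he; exact hne he.symm
        · rw [← he] at h; exact b2 h
      -- no cherry
      have hnoP : ∀ c, π c ≠ c → ∀ a ∈ B, par a = c → a ∈ Cut := by
        intro c hc a ha he
        exfalso
        have := (l6 a ha).2.1
        rw [he] at this
        exact hc this
      have hnoT : ∀ c ∈ ch par r v, c ∉ Cut → ∀ a ∈ B, par a = c → a ∈ Cut := by
        intro c hc hcC a ha he
        by_contra haC
        apply hT
        refine ⟨a, ha, ?_, haC, ?_⟩
        · rw [he]; exact (mem_ch.mp hc).2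
        · rw [he]; exact hcC
      -- expectation of one factor
      have hO1 : ∀ c ∈ O, Ex (m c) = av (g c) := by
        intro c hc
        obtain ⟨a1, a2, a3⟩ := hOm c hc
        have e1 : Ex (m c) = Ex (fun ζ => av (G ζ c)) +
            Ex (fun ζ => sg lab sn ζ c * Sop K (G ζ c) y) := Ex_add _ _
        have e2 : Ex (fun ζ => sg lab sn ζ c * Sop K (G ζ c) y) = 0 := by
          apply h8 {lab c}
          intro ζ
          rw [hflip c c (mem_ch.mp a1).1 rfl (hnoT c a1 a2) ζ, hsgf]
          ring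
        rw [e1, e2, add_zero, ihav c a1]
      have hQ1 : ∀ c ∈ Q, Ex (fun ζ => m c ζ * m (π c) ζ) =
          av (g c) * av (g (π c)) - Sop K (g c) y * Sop K (g (π c)) y := by
        intro c hc
        obtain ⟨a1, a2, a3, a4, a5, a6, a7⟩ := hQm c hc
        have a5' : π (π c) ≠ π c := by rw [hL.pr.inv]; exact a5.symm
        have e1 : (fun ζ => m c ζ * m (π c) ζ) = fun ζ =>
            (av (G ζ c) * av (G ζ (π c)) - Sop K (G ζ c) y * Sop K (G ζ (π c)) y) +
            sg lab sn ζ c * (Sop K (G ζ c) y * av (G ζ (π c)) -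
              av (G ζ c) * Sop K (G ζ (π c)) y) := by
          funext ζ
          show (av (G ζ c) + sg lab sn ζ c * Sop K (G ζ c) y) *
            (av (G ζ (π c)) + sg lab sn ζ (π c) * Sop K (G ζ (π c)) y) = _
          rw [(l1 ζ).2 c a5]
          have := hsq c ζ
          linear_combination (- Sop K (G ζ c) y * Sop K (G ζ (π c)) y) * this
        have e2 : Ex (fun ζ => sg lab sn ζ c * (Sop K (G ζ c) y * av (G ζ (π c)) -
              av (G ζ c) * Sop K (G ζ (π c)) y)) = 0 := by
          apply h8 {lab c}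
          intro ζ
          rw [hflip c c (mem_ch.mp a1).1 rfl (hnoP c a5) ζ,
            hflip (π c) c (mem_ch.mp a3).1 (hL.labpi c).symm (hnoP (π c) a5') ζ, hsgf]
          ring
        have e3 : Ex (fun ζ => av (G ζ c) * av (G ζ (π c))) = av (g c) * av (g (π c)) := by
          rw [← ihav c a1, ← ihav (π c) a3]
          apply Ex_prod2 h10 _ _ (lb par r Cut lab c) (lb par r Cut lab (π c))
          · intro ζ ζ' h; rw [hdo c ζ ζ' h]
          · intro ζ ζ' h; rw [hdo (π c) ζ ζ' h]
          · exact hdis2 c a1 a5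
        have e4 : Ex (fun ζ => Sop K (G ζ c) y * Sop K (G ζ (π c)) y) =
            Sop K (g c) y * Sop K (g (π c)) y := by
          rw [← ihS c a1, ← ihS (π c) a3]
          apply Ex_prod2 h10 _ _ (lb par r Cut lab c) (lb par r Cut lab (π c))
          · intro ζ ζ' h; rw [hdo c ζ ζ' h]
          · intro ζ ζ' h; rw [hdo (π c) ζ ζ' h]
          · exact hdis2 c a1 a5
        rw [e1, Ex_add, e2, add_zero, Ex_sub, e3, e4]
      have e1 : (fun ζ => G ζ v y) =
          fun ζ => (∏ c ∈ Q, m c ζ * m (π c) ζ) * ∏ c ∈ O, m c ζ := by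
        funext ζ; exact hprod ζ
      rw [e1, Ex_prodsum h10 Q O (fun c ζ => m c ζ * m (π c) ζ) m
        (fun c => lc par r Cut lab c ∪ lc par r Cut lab (π c)) (fun c => lc par r Cut lab c)]
      · rw [hg.1 v hT y]
        congr 1
        · rw [prod_congr rfl hQ1, hQ]
        · rw [prod_congr rfl hO1, hO]
      · intro c _ ζ ζ' h
        show m c ζ * m (π c) ζ = m c ζ' * m (π c) ζ'
        rw [hmdep c ζ ζ' (fun l hl => h l (mem_union_left _ hl)),
          hmdep (π c) ζ ζ' (fun l hl => h l (mem_union_right _ hl))]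
      · intro c _ ζ ζ' h
        exact hmdep c ζ ζ' h
      · intro c hc c' hc' hne
        obtain ⟨a1, a2, a3, a4, a5, a6, a7⟩ := hQm c hc
        obtain ⟨b1, b2, b3, b4, b5, b6, b7⟩ := hQm c' hc'
        have n1 : π c ≠ π c' := fun he => hne (by rw [← hL.pr.inv c, he, hL.pr.inv])
        rw [disjoint_union_left, disjoint_union_right, disjoint_union_right]
        refine ⟨⟨?_, ?_⟩, ?_, ?_⟩
        · exact hdis c a1 c' b1 hne (hQQ c hc c' hc')
        · exact hdis c a1 (π c') b3 (hQQ c' hc' c hc) (fun he => n1 he.symm)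
        · exact hdis (π c) a3 c' b1 (hQQ c hc c' hc').symm
            (by rw [hL.pr.inv]; exact hne.symm)
        · refine hdis (π c) a3 (π c') b3 n1 ?_
          rw [hL.pr.inv]
          exact (hQQ c' hc' c hc).symm
      · intro c hc c' hc' hne
        exact hdis c (hOm c hc).1 c' (hOm c' hc').1 hne (hOO c hc c' hc' hne)
      · intro c hc c' hc'
        obtain ⟨a1, a2, a3, a4, a5, a6, a7⟩ := hQm c hc
        obtain ⟨b1, b2, b3⟩ := hOm c' hc'
        obtain ⟨n1, n2⟩ := hQO c hc c' hc'
        rw [disjoint_union_left]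
        refine ⟨hdis c a1 c' b1 n1 n2, hdis (π c) a3 c' b1 n2.symm ?_⟩
        rw [hL.pr.inv]
        exact n1.symm
  intro v
  exact (key v).1

end Pool.Agent.TFin
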