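import Pool.Agent.TFin.Targets2

set_option autoImplicit false

/-!
# Large trees in tournaments (MP_d27362_co): invariance under isomorphism
-/

namespace Pool.Agent.TFin

open Finset

/-- invariance under isomorphism, comparison of the two definitions -/
theorem p_INV : T_INV := by
  constructor
  · intro V U _ _ T H ⟨e⟩ ⟨D, hD, hb⟩
    refine ⟨fun u v => D (e.symm u) (e.symm v), ⟨?_, ?_⟩, ?_⟩
    · intro u v huv
      exact hD.1 _ _ (e.symm.map_adj_iff.2 huv)
    · intro u v huv
      exact ⟨e.symm.map_adj_iff.1 (hD.2 _ _ huv).1, (hD.2 _ _ huv).2⟩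
    · intro m G hG
      have h1 := hb m G hG
      have hc : Fintype.card U = Fintype.card V := (Fintype.card_congr e.toEquiv).symm
      have he : H.edgeSet.ncard = T.edgeSet.ncard := by
        rw [← Nat.card_coe_set_eq, ← Nat.card_coe_set_eq]
        exact Nat.card_congr e.mapEdgeSet.symm
      have hh : Twin.homCount (fun u v => D (e.symm u) (e.symm v)) G = Twin.homCount D G := by
        unfold Twin.homCount
        symm
        refine Set.ncard_congr (fun f _ => fun u => f (e.symm u)) ?_ ?_ ?_
        · intro f hf u v huv
          exact hf _ _ huv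
        · intro f g _ _ hfg
          funext v
          have := congrFun hfg (e v)
          simpa using this
        · intro g hg
          refine ⟨fun v => g (e v), ?_, ?_⟩
          · intro u v huv
            apply hg
            simpa using huv
          · funext u
            simp
      rw [hh, hc, he]
      exact h1
  · intro V _ _ _ T ⟨D, h1, h2, h3⟩
    refine ⟨D, ⟨h1, h2⟩, ?_⟩
    intro m G hG
    rcases Nat.eq_zero_or_pos m with hm | hm
    · subst hm
      have hn : Fintype.card V ≠ 0 := Fintype.card_ne_zero
      rw [Nat.cast_zero, zero_pow hn, div_zero]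
      positivity
    · have h4 := h3 (Fin m) G ⟨⟨0, hm⟩⟩ hG
      rw [Fintype.card_fin] at h4
      have hpos : (0 : ℝ) < (m : ℝ) ^ Fintype.card V := by positivity
      rw [div_le_iff₀ hpos]
      calc (Twin.homCount D G : ℝ) ≤ _ := h4
        _ = _ := by ring

end Pool.Agent.TFin
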