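import Pool.Agent.TFin.Targets

/-!
# Large trees in tournaments (MP_d27362_co), target JEN

Jensen inequality for the logarithm on the cube.
-/

set_option autoImplicit false

namespace Pool.Agent.TFin

open Finset

theorem p_JEN : T_JEN := by
  intro V _ _ F a ha hF
  have hc : (0 : ℝ) < 2 ^ Fintype.card V := by positivity
  have hcard : ∑ _ζ : V → Bool, (1 : ℝ) = 2 ^ Fintype.card V := by
    rw [sum_const, card_univ]
    simp
  have hm0 : 0 ≤ Ex F := by
    unfold Ex
    exact div_nonneg (sum_nonneg fun ζ _ => hF ζ) hc.le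
  set m : ℝ := Ex F + a with hm
  have hmp : 0 < m := by linarith
  have key : ∀ ζ, Real.log (F ζ + a) ≤ Real.log m + (F ζ + a - m) / m := by
    intro ζ
    have hx : 0 < F ζ + a := by have := hF ζ; linarith
    have h1 := Real.log_le_sub_one_of_pos (div_pos hx hmp)
    rw [Real.log_div hx.ne' hmp.ne'] at h1
    have h2 : (F ζ + a) / m - 1 = (F ζ + a - m) / m := by
      field_simp
    linarith
  have h3 : ∑ ζ : V → Bool, Real.log (F ζ + a) ≤
      ∑ ζ : V → Bool, (Real.log m + (F ζ + a - m) / m) := sum_le_sum fun ζ _ => key ζ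
  have h4 : ∑ ζ : V → Bool, F ζ = Ex F * 2 ^ Fintype.card V := by
    unfold Ex
    field_simp
  have h5 : ∑ ζ : V → Bool, (Real.log m + (F ζ + a - m) / m) =
      Real.log m * 2 ^ Fintype.card V := by
    have h6 : ∀ ζ : V → Bool, Real.log m + (F ζ + a - m) / m =
        F ζ * (1 / m) + (Real.log m + (a - m) / m) * 1 := by
      intro ζ
      ring
    rw [sum_congr rfl fun ζ _ => h6 ζ, sum_add_distrib, ← sum_mul, ← mul_sum, hcard, h4]
    have h7 : Ex F = m - a := by rw [hm]; ring
    rw [h7]
    field_simp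
    ring
  show (∑ ζ : V → Bool, Real.log (F ζ + a)) / 2 ^ Fintype.card V ≤ Real.log m
  rw [div_le_iff₀ hc]
  linarith

end Pool.Agent.TFin
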