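import Pool.Agent.TFin.Targets

/-! LAYF: elementary facts on layouts. -/

set_option autoImplicit false

namespace Pool.Agent.TFin

open Finset

namespace LAYF_

theorem fix {V : Type} [Fintype V] [DecidableEq V] {par : V → V} {r : V} {π : V → V}
    (hp : Pairing par r π) {w : V} (hw : w ≠ r) (hc : ch par r (par w) = {w}) : π w = w := by
  have h1 : π w ≠ r := by
    intro h
    apply hw
    rw [← hp.inv w, h, hp.root]
  have h2 : π w ∈ ch par r (par w) := by
    unfold ch
    rw [mem_filter]
    exact ⟨mem_univ _, h1, hp.hpar w hw⟩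
  rw [hc, mem_singleton] at h2
  exact h2

end LAYF_

open LAYF_ in
theorem p_LAYF : T_LAYF := by
  intro V _ _ par dep r π lab sn B hRT hL
  have hch : ∀ w ∈ B, ch par r (par w) = {w} := fun w hw => (hL.Bc w hw).2.1
  have hch2 : ∀ w ∈ B, ch par r (par (par w)) = {par w} := fun w hw => (hL.Bc w hw).2.2.1
  have hch3 : ∀ w ∈ B, ch par r (par (par (par w))) = {par (par w)} :=
    fun w hw => (hL.Bc w hw).2.2.2
  have hinj : ∀ w ∈ B, ∀ w' ∈ B, par w = par w' → w = w' := by
    intro w hw w' hw' h
    have h1 := hch w hw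
    rw [h, hch w' hw'] at h1
    exact (singleton_injective h1).symm
  have hinj2 : ∀ w ∈ B, ∀ w' ∈ B, par (par w) = par (par w') → w = w' := by
    intro w hw w' hw' h
    have h1 := hch2 w hw
    rw [h, hch2 w' hw'] at h1
    exact hinj w hw w' hw' (singleton_injective h1).symm
  refine ⟨?_, ?_, ?_, ?_, ?_, ?_, ?_⟩
  · intro ζ
    refine ⟨fun c => ?_, fun c hc => ?_⟩
    · unfold sg
      rcases hL.sn1 c with h | h <;> rw [h] <;> split_ifs <;> simp
    · unfold sg
      rw [hL.labpi, hL.snpi c hc]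
      ring
  · intro ζ D c
    unfold sg flipS
    by_cases hD : lab c ∈ D
    · rw [if_pos hD, if_pos hD]
      cases ζ (lab c) <;> simp
    · rw [if_neg hD, if_neg hD]
  · apply card_image_of_injOn
    intro w hw w' hw' h
    exact hinj w hw w' hw' h
  · apply card_image_of_injOn
    intro w hw w' hw' h
    exact hinj2 w hw w' hw' h
  · intro ζ u hu
    rw [mem_image] at hu
    obtain ⟨w, hw, rfl⟩ := hu
    refine ⟨(hL.Br w hw).2.1, ?_, ?_⟩
    · rw [hch w hw, card_singleton]
    · intro c hc
      rw [hch w hw, mem_singleton] at hc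
      subst hc
      unfold sg
      rw [(hL.Bl c hw).1, (hL.Bl c hw).2]
  · intro w hw
    obtain ⟨h0, h1, h2⟩ := hL.Br w hw
    exact ⟨fix hL.pr h0 (hch w hw), fix hL.pr h1 (hch2 w hw), fix hL.pr h2 (hch3 w hw)⟩
  · intro w hw
    obtain ⟨h0, h1, h2⟩ := hL.Br w hw
    obtain ⟨a, ha⟩ := hL.Bd
    have e0 := hRT.step w h0
    have e1 := hRT.step (par w) h1
    have a0 := ha w hw
    refine ⟨fun hB => ?_, fun hB => ?_⟩
    · have a1 := ha _ hB
      omega
    · have a1 := ha _ hB
      omega

end Pool.Agent.TFin
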