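import Pool.Agent.TFin.Targets

set_option autoImplicit false

/-!
# LAYX: the layout exists and has many pairs or cherries
-/

namespace Pool.Agent.TFin

open Finset

noncomputable section

namespace LAYX_

variable {V : Type} [Fintype V] [DecidableEq V]

/-- An involution of a finite set with at most one fixed point. -/
lemma pair_set : ∀ (n : ℕ) (s : Finset V), s.card = n → ∃ σ : V → V, (∀ x, σ (σ x) = x) ∧
    (∀ x, x ∉ s → σ x = x) ∧ ∀ x ∈ s, ∀ y ∈ s, σ x = x → σ y = y → x = y := by
  intro n
  induction n using Nat.strong_induction_on with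
  | _ n ih =>
    intro s hs
    by_cases h1 : s.card ≤ 1
    · refine ⟨id, fun _ => rfl, fun _ _ => rfl, fun x hx y hy _ _ => ?_⟩
      exact Finset.card_le_one.1 h1 x hx y hy
    · push Not at h1
      obtain ⟨x, hx, y, hy, hxy⟩ := Finset.one_lt_card.1 h1
      have hc : ((s.erase x).erase y).card < n := by
        have h2 : (s.erase x).card < s.card := Finset.card_erase_lt_of_mem hx
        have h3 : ((s.erase x).erase y).card ≤ (s.erase x).card := Finset.card_erase_le
        omega
      obtain ⟨σ, i1, i2, i3⟩ := ih _ hc ((s.erase x).erase y) rfl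
      have hxt : x ∉ (s.erase x).erase y := by simp
      have hyt : y ∉ (s.erase x).erase y := by simp
      have fx := i2 x hxt
      have fy := i2 y hyt
      have nx : ∀ z, z ≠ x → σ z ≠ x := by
        intro z hz h
        apply hz
        have := i1 z
        rw [h, fx] at this
        exact this.symm
      have ny : ∀ z, z ≠ y → σ z ≠ y := by
        intro z hz h
        apply hz
        have := i1 z
        rw [h, fy] at this
        exact this.symm
      have g1 : ∀ z, z ≠ x → z ≠ y → (if z = x then y else if z = y then x else σ z) = σ z := by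
        intro z h1 h2
        rw [if_neg h1, if_neg h2]
      refine ⟨fun z => if z = x then y else if z = y then x else σ z, ?_, ?_, ?_⟩
      · intro z
        show (if (if z = x then y else if z = y then x else σ z) = x then y else
          if (if z = x then y else if z = y then x else σ z) = y then x else
            σ (if z = x then y else if z = y then x else σ z)) = z
        by_cases hz1 : z = x
        · rw [if_pos hz1, if_neg (fun h => hxy h.symm), if_pos rfl, hz1]
        · by_cases hz2 : z = y
          · rw [if_neg hz1, if_pos hz2, if_pos rfl, hz2]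
          · rw [g1 z hz1 hz2, g1 _ (nx z hz1) (ny z hz2), i1]
      · intro z hz
        have hz1 : z ≠ x := fun h => hz (h ▸ hx)
        have hz2 : z ≠ y := fun h => hz (h ▸ hy)
        show (if z = x then y else if z = y then x else σ z) = z
        rw [g1 z hz1 hz2]
        apply i2
        intro h
        exact hz (Finset.mem_of_mem_erase (Finset.mem_of_mem_erase h))
      · intro z hz w hw ez ew
        change (if z = x then y else if z = y then x else σ z) = z at ez
        change (if w = x then y else if w = y then x else σ w) = w at ew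
        have aux : ∀ u, u ∈ s → (if u = x then y else if u = y then x else σ u) = u →
            u ∈ (s.erase x).erase y ∧ σ u = u := by
          intro u hu eu
          by_cases hu1 : u = x
          · rw [if_pos hu1, hu1] at eu
            exact absurd eu.symm hxy
          · by_cases hu2 : u = y
            · rw [if_neg hu1, if_pos hu2, hu2] at eu
              exact absurd eu hxy
            · rw [g1 u hu1 hu2] at eu
              exact ⟨Finset.mem_erase.2 ⟨hu2, Finset.mem_erase.2 ⟨hu1, hu⟩⟩, eu⟩
        obtain ⟨a1, a2⟩ := aux z hz ez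
        obtain ⟨b1, b2⟩ := aux w hw ew
        exact i3 z a1 w b1 a2 b2

lemma mem_ch {par : V → V} {r v c : V} : c ∈ ch par r v ↔ c ≠ r ∧ par c = v := by
  unfold ch
  rw [Finset.mem_filter]
  exact ⟨fun h => h.2, fun h => ⟨Finset.mem_univ _, h⟩⟩

/-- The pairing. -/
lemma exists_pairing (par : V → V) (r : V) : ∃ π : V → V, Pairing par r π := by
  choose σ h1 h2 h3 using fun v : V => pair_set (ch par r v).card (ch par r v) rfl
  have hin : ∀ v c, c ∈ ch par r v → σ v c ∈ ch par r v := by
    intro v c hc
    by_contra h
    have e := h2 v _ h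
    rw [h1] at e
    rw [← e] at h
    exact h hc
  have key : ∀ c, c ≠ r → σ (par c) c ≠ r ∧ par (σ (par c) c) = par c := by
    intro c hc
    exact mem_ch.1 (hin (par c) c (mem_ch.2 ⟨hc, rfl⟩))
  refine ⟨fun c => if c = r then r else σ (par c) c, ?_, ?_, ?_, ?_⟩
  · intro c
    by_cases hc : c = r
    · simp [hc]
    · obtain ⟨k1, k2⟩ := key c hc
      show (if (if c = r then r else σ (par c) c) = r then r else
        σ (par (if c = r then r else σ (par c) c)) (if c = r then r else σ (par c) c)) = c
      rw [if_neg hc, if_neg k1, k2, h1]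
  · simp
  · intro c hc
    show par (if c = r then r else σ (par c) c) = par c
    rw [if_neg hc]
    exact (key c hc).2
  · intro c c' hc hc' hp e e'
    change (if c = r then r else σ (par c) c) = c at e
    change (if c' = r then r else σ (par c') c') = c' at e'
    rw [if_neg hc] at e
    rw [if_neg hc', ← hp] at e'
    exact h3 (par c) c (mem_ch.2 ⟨hc, rfl⟩) c' (mem_ch.2 ⟨hc', hp.symm⟩) e e'

/-- number of children of high degree vertices -/
def D2 (par : V → V) (r : V) : ℕ :=
  ∑ v ∈ univ.filter (fun v => 2 ≤ (ch par r v).card), (ch par r v).card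

/-- vertices which are the root or children of branching vertices -/
def S1 (par : V → V) (r : V) : Finset V :=
  univ.filter fun w => w = r ∨ 2 ≤ (ch par r (par w)).card

/-- second set -/
def S2 (par : V → V) (r : V) : Finset V :=
  univ.filter fun w => w ∉ S1 par r ∧ par w ∈ S1 par r

/-- third set -/
def S3 (par : V → V) (r : V) : Finset V :=
  univ.filter fun w => w ∉ S1 par r ∧ par w ∈ S2 par r

lemma card_S1 (par : V → V) (r : V) : (S1 par r).card ≤ D2 par r + 1 := by
  have h : S1 par r ⊆ ((univ.filter fun v => 2 ≤ (ch par r v).card).biUnion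
      fun v => ch par r v) ∪ {r} := by
    intro w hw
    unfold S1 at hw
    rw [Finset.mem_filter] at hw
    rw [Finset.mem_union, Finset.mem_singleton, Finset.mem_biUnion]
    by_cases hr : w = r
    · exact Or.inr hr
    · left
      refine ⟨par w, ?_, mem_ch.2 ⟨hr, rfl⟩⟩
      rw [Finset.mem_filter]
      exact ⟨Finset.mem_univ _, hw.2.resolve_left hr⟩
  calc (S1 par r).card ≤ _ := Finset.card_le_card h
    _ ≤ _ := Finset.card_union_le _ _
    _ ≤ D2 par r + 1 := by
      rw [Finset.card_singleton]
      exact Nat.add_le_add_right Finset.card_biUnion_le 1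

/-- `par` is injective outside `S1` -/
lemma inj_S1 (par : V → V) (r : V) {w w' : V} (h : w ∉ S1 par r) (h' : w' ∉ S1 par r)
    (e : par w = par w') : w = w' := by
  unfold S1 at h h'
  rw [Finset.mem_filter] at h h'
  push Not at h h'
  have a1 := h (Finset.mem_univ _)
  have a2 := h' (Finset.mem_univ _)
  have b1 : (ch par r (par w)).card ≤ 1 := by omega
  exact Finset.card_le_one.1 b1 w (mem_ch.2 ⟨a1.1, rfl⟩) w' (mem_ch.2 ⟨a2.1, e.symm⟩)

lemma card_S2 (par : V → V) (r : V) : (S2 par r).card ≤ (S1 par r).card := by
  refine Finset.card_le_card_of_injOn par ?_ ?_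
  · intro w hw
    rw [Finset.mem_coe] at hw
    unfold S2 at hw
    rw [Finset.mem_filter] at hw
    exact hw.2.2
  · intro w hw w' hw' e
    rw [Finset.mem_coe] at hw hw'
    unfold S2 at hw hw'
    rw [Finset.mem_filter] at hw hw'
    exact inj_S1 par r hw.2.1 hw'.2.1 e

lemma card_S3 (par : V → V) (r : V) : (S3 par r).card ≤ (S2 par r).card := by
  refine Finset.card_le_card_of_injOn par ?_ ?_
  · intro w hw
    rw [Finset.mem_coe] at hw
    unfold S3 at hw
    rw [Finset.mem_filter] at hw
    exact hw.2.2
  · intro w hw w' hw' e
    rw [Finset.mem_coe] at hw hw'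
    unfold S3 at hw hw'
    rw [Finset.mem_filter] at hw hw'
    exact inj_S1 par r hw.2.1 hw'.2.1 e

/-- the candidates -/
def cand (par : V → V) (r : V) : Finset V :=
  univ.filter fun w => (w ≠ r ∧ par w ≠ r ∧ par (par w) ≠ r) ∧
    ((ch par r w).card ≤ 1 ∧ ch par r (par w) = {w} ∧
    ch par r (par (par w)) = {par w} ∧ ch par r (par (par (par w))) = {par (par w)})

lemma not_S1 (par : V → V) (r : V) {w : V} (h : w ∉ S1 par r) :
    w ≠ r ∧ ch par r (par w) = {w} := by
  unfold S1 at h
  rw [Finset.mem_filter] at h
  push Not at h
  have a1 := h (Finset.mem_univ _)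
  refine ⟨a1.1, ?_⟩
  have b1 : (ch par r (par w)).card ≤ 1 := by omega
  have m : w ∈ ch par r (par w) := mem_ch.2 ⟨a1.1, rfl⟩
  ext x
  rw [Finset.mem_singleton]
  constructor
  · intro hx
    exact Finset.card_le_one.1 b1 x hx w m
  · intro hx
    rw [hx]
    exact m

lemma card_V (par : V → V) (r : V) :
    Fintype.card V ≤ (cand par r).card + (univ.filter fun v => 2 ≤ (ch par r v).card).card +
      3 * (D2 par r + 1) := by
  have h : (univ : Finset V) ⊆ (cand par r ∪ univ.filter fun v => 2 ≤ (ch par r v).card) ∪
      (S1 par r ∪ (S2 par r ∪ S3 par r)) := by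
    intro w _
    by_contra hw
    rw [Finset.mem_union, Finset.mem_union, Finset.mem_union, Finset.mem_union] at hw
    push Not at hw
    obtain ⟨⟨h1, h2⟩, h3, h4, h5⟩ := hw
    have q2 : par w ∉ S1 par r := by
      intro hh
      apply h4
      unfold S2
      rw [Finset.mem_filter]
      exact ⟨Finset.mem_univ _, h3, hh⟩
    have q3' : par w ∉ S2 par r := by
      intro hh
      apply h5
      unfold S3
      rw [Finset.mem_filter]
      exact ⟨Finset.mem_univ _, h3, hh⟩
    have q3 : par (par w) ∉ S1 par r := by
      intro hh
      apply q3'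
      unfold S2
      rw [Finset.mem_filter]
      exact ⟨Finset.mem_univ _, q2, hh⟩
    obtain ⟨u1, v1⟩ := not_S1 par r h3
    obtain ⟨u2, v2⟩ := not_S1 par r q2
    obtain ⟨u3, v3⟩ := not_S1 par r q3
    apply h1
    unfold cand
    rw [Finset.mem_filter]
    refine ⟨Finset.mem_univ _, ⟨u1, u2, u3⟩, ?_, v1, v2, v3⟩
    by_contra hh
    apply h2
    rw [Finset.mem_filter]
    exact ⟨Finset.mem_univ _, by omega⟩
  have h1 := Finset.card_le_card h
  have h2 := Finset.card_union_le (cand par r ∪ univ.filter fun v => 2 ≤ (ch par r v).card)
      (S1 par r ∪ (S2 par r ∪ S3 par r))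
  have h3 := Finset.card_union_le (cand par r) (univ.filter fun v => 2 ≤ (ch par r v).card)
  have h4 := Finset.card_union_le (S1 par r) (S2 par r ∪ S3 par r)
  have h5 := Finset.card_union_le (S2 par r) (S3 par r)
  have h6 := card_S1 par r
  have h7 := card_S2 par r
  have h8 := card_S3 par r
  rw [Finset.card_univ] at h1
  omega

lemma D2_le (κ : ℕ → ℕ) (par : V → V) (r : V) (h : Tame κ par r) :
    16 * D2 par r ≤ 16 * (κ 16 * (univ.filter fun v => 2 ≤ (ch par r v).card).card) +
      Fintype.card V := by
  have h16 := h 16
  have h1 : D2 par r ≤ κ 16 * (univ.filter fun v => 2 ≤ (ch par r v).card).card +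
      ∑ v ∈ univ.filter (fun v => κ 16 ≤ (ch par r v).card), (ch par r v).card := by
    unfold D2
    rw [← Finset.sum_filter_add_sum_filter_not (univ.filter fun v => 2 ≤ (ch par r v).card)
      (fun v => (ch par r v).card < κ 16)]
    apply Nat.add_le_add
    · calc ∑ v ∈ (univ.filter fun v => 2 ≤ (ch par r v).card).filter
            (fun v => (ch par r v).card < κ 16), (ch par r v).card ≤
          ∑ v ∈ (univ.filter fun v => 2 ≤ (ch par r v).card).filter
            (fun v => (ch par r v).card < κ 16), κ 16 := by
            refine Finset.sum_le_sum ?_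
            intro v hv
            exact (Finset.mem_filter.1 hv).2.le
        _ = ((univ.filter fun v => 2 ≤ (ch par r v).card).filter
            (fun v => (ch par r v).card < κ 16)).card * κ 16 := by
            rw [Finset.sum_const, smul_eq_mul]
        _ ≤ (univ.filter fun v => 2 ≤ (ch par r v).card).card * κ 16 :=
            Nat.mul_le_mul_right _ (Finset.card_le_card (Finset.filter_subset _ _))
        _ = _ := Nat.mul_comm _ _
    · refine Finset.sum_le_sum_of_subset ?_
      intro v hv
      rw [Finset.mem_filter] at hv ⊢
      exact ⟨Finset.mem_univ _, by have := hv.2; omega⟩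
  omega

end LAYX_

open LAYX_ in
theorem p_LAYX : T_LAYX := by
  intro V _ _ par dep r κ hRT hT hn
  obtain ⟨π, hπ⟩ := exists_pairing par r
  -- choice of the residue class
  have hpig : ∃ a, a < 3 ∧ (cand par r).card ≤
      3 * ((cand par r).filter fun w => dep w % 3 = a).card := by
    have h1 : (cand par r).card = ∑ a ∈ range 3,
        ((cand par r).filter fun w => dep w % 3 = a).card :=
      Finset.card_eq_sum_card_fiberwise (f := fun w => dep w % 3) (fun w _ => by
        rw [Finset.mem_coe, Finset.mem_range]
        exact Nat.mod_lt _ (by norm_num))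
    rw [Finset.sum_range_succ, Finset.sum_range_succ, Finset.sum_range_one] at h1
    by_contra hcon
    push Not at hcon
    have c0 := hcon 0 (by norm_num)
    have c1 := hcon 1 (by norm_num)
    have c2 := hcon 2 (by norm_num)
    omega
  obtain ⟨a, _, ha⟩ := hpig
  set B := (cand par r).filter fun w => dep w % 3 = a with hB
  have memB : ∀ w, w ∈ B → (w ≠ r ∧ par w ≠ r ∧ par (par w) ≠ r) ∧
      ((ch par r w).card ≤ 1 ∧ ch par r (par w) = {w} ∧
      ch par r (par (par w)) = {par w} ∧ ch par r (par (par (par w))) = {par (par w)}) ∧
      dep w % 3 = a := by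
    intro w hw
    rw [hB, Finset.mem_filter] at hw
    have h2 := hw.1
    unfold cand at h2
    rw [Finset.mem_filter] at h2
    exact ⟨h2.2.1, h2.2.2, hw.2⟩
  have hparB : ∀ w ∈ B, par w ∉ B := by
    intro w hw h
    have h1 := (memB w hw).2.2
    have h2 := (memB _ h).2.2
    have h3 := hRT.step w (memB w hw).1.1
    omega
  -- unpaired vertices
  have hun : ∀ w, w ≠ r → ch par r (par w) = {w} → π w = w := by
    intro w hw h
    have hne : π w ≠ r := by
      intro he
      apply hw
      have := hπ.inv w
      rw [he, hπ.root] at this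
      exact this.symm
    have hm : π w ∈ ch par r (par w) := mem_ch.2 ⟨hne, hπ.hpar w hw⟩
    rw [h, Finset.mem_singleton] at hm
    exact hm
  have unB : ∀ w ∈ B, π w = w := fun w hw => hun w (memB w hw).1.1 (memB w hw).2.1.2.1
  have unP : ∀ w ∈ B, π (par w) = par w := fun w hw =>
    hun (par w) (memB w hw).1.2.1 (memB w hw).2.1.2.2.1
  -- the order
  set e : V → ℕ := fun v => (Fintype.equivFin V v : ℕ) with he
  have einj : ∀ x y, e x = e y → x = y := by
    intro x y h
    exact (Fintype.equivFin V).injective (Fin.ext h)
  set rep : V → V := fun c => if e c ≤ e (π c) then c else π c with hrep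
  set sn : V → ℝ := fun c => if e c ≤ e (π c) then 1 else -1 with hsn
  have rep_or : ∀ c, rep c = c ∨ rep c = π c := by
    intro c
    rw [hrep]
    by_cases h : e c ≤ e (π c)
    · left; exact if_pos h
    · right; exact if_neg h
  have rep_pi : ∀ c, rep (π c) = rep c := by
    intro c
    show (if e (π c) ≤ e (π (π c)) then π c else π (π c)) = if e c ≤ e (π c) then c else π c
    rw [hπ.inv]
    by_cases h : e c ≤ e (π c)
    · by_cases h' : e (π c) ≤ e c
      · rw [if_pos h, if_pos h']
        exact einj _ _ (le_antisymm h' h)
      · rw [if_pos h, if_neg h']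
    · rw [if_neg h, if_pos (by omega)]
  have rep_un : ∀ c, π c = c → rep c = c := by
    intro c hc
    rcases rep_or c with h | h
    · exact h
    · rw [h, hc]
  have sn_un : ∀ c, π c = c → sn c = 1 := by
    intro c hc
    show (if e c ≤ e (π c) then (1 : ℝ) else -1) = 1
    rw [hc, if_pos le_rfl]
  set lab : V → V := fun c => if c ∈ B then par c else rep c with hlab
  have labB : ∀ c ∈ B, lab c = par c := fun c hc => if_pos hc
  have labN : ∀ c, c ∉ B → lab c = rep c := fun c hc => if_neg hc
  have hinj : ∀ c c', c ≠ r → c' ≠ r → lab c = lab c' →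
    c' = c ∨ c' = π c ∨ (c ∈ B ∧ c' = par c) ∨ (c' ∈ B ∧ c = par c') := by
    intro c c' hc hc' h
    by_cases h1 : c ∈ B
    · by_cases h2 : c' ∈ B
      · left
        rw [labB c h1, labB c' h2] at h
        have k1 := (memB c h1).2.1.2.1
        have k2 := (memB c' h2).2.1.2.1
        rw [h, k2] at k1
        exact Finset.singleton_injective k1
      · right; right; left
        refine ⟨h1, ?_⟩
        rw [labB c h1, labN c' h2] at h
        rcases rep_or c' with k | k
        · rw [h, k]
        · have k1 : π c' = par c := by rw [← k, ← h]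
          have k2 := hπ.inv c'
          rw [k1, unP c h1] at k2
          exact k2.symm
    · by_cases h2 : c' ∈ B
      · right; right; right
        refine ⟨h2, ?_⟩
        rw [labN c h1, labB c' h2] at h
        rcases rep_or c with k | k
        · rw [← h, k]
        · have k1 : π c = par c' := by rw [← k, h]
          have k2 := hπ.inv c
          rw [k1, unP c' h2] at k2
          exact k2.symm
      · rw [labN c h1, labN c' h2] at h
        rcases rep_or c with k | k
        · rcases rep_or c' with k' | k'
          · left; rw [← k, h, k']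
          · right; left
            rw [k, k'] at h
            rw [h, hπ.inv]
        · rcases rep_or c' with k' | k'
          · right; left; rw [← k, h, k']
          · left
            rw [k, k'] at h
            have := congrArg π h
            rw [hπ.inv, hπ.inv] at this
            exact this.symm
  refine ⟨π, lab, sn, B, ?_, ?_⟩
  · constructor
    · exact hπ
    · intro c
      by_cases h : e c ≤ e (π c)
      · left; exact if_pos h
      · right; exact if_neg h
    · intro c hc
      show (if e (π c) ≤ e (π (π c)) then (1 : ℝ) else -1) = -(if e c ≤ e (π c) then (1 : ℝ) else -1)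
      rw [hπ.inv]
      by_cases h : e c ≤ e (π c)
      · have h' : ¬ e (π c) ≤ e c := by
          intro h2
          exact hc (einj _ _ (le_antisymm h2 h))
        rw [if_pos h, if_neg h']
      · rw [if_neg h, if_pos (by omega), neg_neg]
    · intro c
      by_cases h : c ∈ B
      · rw [unB c h]
      · have h' : π c ∉ B := by
          intro h2
          have := unB _ h2
          rw [hπ.inv] at this
          rw [← this] at h2
          exact h h2
        rw [labN _ h, labN _ h', rep_pi]
    · intro w hw
      exact (memB w hw).1
    · intro w hw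
      exact (memB w hw).2.1
    · intro w hw
      refine ⟨?_, ?_⟩
      · rw [labB w hw, labN _ (hparB w hw), rep_un _ (unP w hw)]
      · rw [sn_un w (unB w hw), sn_un _ (unP w hw)]
    · exact ⟨a, fun w hw => (memB w hw).2.2⟩
    · exact hinj
    · intro l
      by_contra hcon
      push Not at hcon
      obtain ⟨x, hx, y, hy, z, hz, hxy, hxz, hyz⟩ := Finset.two_lt_card.1 hcon
      rw [Finset.mem_filter] at hx hy hz
      have key : ∀ u w, (u ≠ r ∧ lab u = l) → (w ≠ r ∧ lab w = l) → w ≠ u → u ∈ B →
          w = par u := by
        intro u w hu hw hwu huB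
        rcases hinj u w hu.1 hw.1 (hu.2.trans hw.2.symm) with k | k | k | k
        · exact absurd k hwu
        · rw [unB u huB] at k
          exact absurd k hwu
        · exact k.2
        · exact absurd (k.2 ▸ huB) (hparB w k.1)
      by_cases bx : x ∈ B
      · exact hyz ((key x y hx.2 hy.2 (Ne.symm hxy) bx).trans
          (key x z hx.2 hz.2 (Ne.symm hxz) bx).symm)
      by_cases bby : y ∈ B
      · exact hxz ((key y x hy.2 hx.2 hxy bby).trans
          (key y z hy.2 hz.2 (Ne.symm hyz) bby).symm)
      by_cases bz : z ∈ B
      · exact hxy ((key z x hz.2 hx.2 hxz bz).trans (key z y hz.2 hy.2 hyz bz).symm)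
      have k1 : y = π x := by
        rcases hinj x y hx.2.1 hy.2.1 (hx.2.2.trans hy.2.2.symm) with k | k | k | k
        · exact absurd k.symm hxy
        · exact k
        · exact absurd k.1 bx
        · exact absurd k.1 bby
      have k2 : z = π x := by
        rcases hinj x z hx.2.1 hz.2.1 (hx.2.2.trans hz.2.2.symm) with k | k | k | k
        · exact absurd k.symm hxz
        · exact k
        · exact absurd k.1 bx
        · exact absurd k.1 bz
      exact hyz (k1.trans k2.symm)
  · have c1 := card_V par r
    have c2 := D2_le κ par r hT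
    set n := Fintype.card V with hnn
    set v2 := (univ.filter fun v => 2 ≤ (ch par r v).card).card with hv2
    have e1 : 16 * (κ 16 + 1) * (v2 + B.card) =
        16 * (κ 16 * v2) + 16 * v2 + 16 * (κ 16 * B.card) + 16 * B.card := by ring
    rw [e1]
    omega

end

end Pool.Agent.TFin
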