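import Pool.Agent.TFin.Targets

set_option autoImplicit false

/-!
# Large trees in tournaments: SUMT, sums over descendants
-/

namespace Pool.Agent.TFin

open Finset
open Pool.Agent.TLT (av Krn Sop dl xx)

noncomputable section

namespace SUMT_

variable {V : Type} [Fintype V] [DecidableEq V] {par : V → V} {dep : V → ℕ} {r : V}

omit [Fintype V] [DecidableEq V] in
theorem iter_dep (h : RT par dep r) (v : V) (i : ℕ) (hi : i ≤ dep v) :
    dep (par^[i] v) + i = dep v := by
  induction i with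
  | zero => rfl
  | succ i ih =>
    have h1 := ih (by omega)
    have h2 : par^[i] v ≠ r := by
      intro h3
      rw [h3, h.root] at h1
      omega
    have h3 := h.step _ h2
    rw [Function.iterate_succ_apply']
    omega

omit [DecidableEq V] in
theorem dep_lt (h : RT par dep r) (v : V) : dep v < Fintype.card V := by
  have hinj : Function.Injective (fun i : Fin (dep v + 1) => par^[(i : ℕ)] v) := by
    intro i j hij
    have h1 := iter_dep h v i (by omega)
    have h2 := iter_dep h v j (by omega)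
    have h3 : par^[(i : ℕ)] v = par^[(j : ℕ)] v := hij
    rw [h3] at h1
    apply Fin.ext
    omega
  have h1 := Fintype.card_le_of_injective _ hinj
  rw [Fintype.card_fin] at h1
  omega

theorem mem_ch {v c : V} : c ∈ ch par r v ↔ c ≠ r ∧ par c = v := by
  unfold ch
  rw [mem_filter]
  exact ⟨fun h => h.2, fun h => ⟨mem_univ _, h⟩⟩

theorem dep_ch (h : RT par dep r) {v c : V} (hc : c ∈ ch par r v) : dep c = dep v + 1 := by
  obtain ⟨h1, h2⟩ := mem_ch.1 hc
  rw [h.step c h1, h2]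

theorem sum_ch (F : V → ℝ) : ∑ v, ∑ c ∈ ch par r v, F c = ∑ c ∈ univ.erase r, F c := by
  rw [← sum_fiberwise (univ.erase r) par F]
  refine sum_congr rfl fun v _ => sum_congr ?_ fun _ _ => rfl
  ext c
  rw [mem_ch, mem_filter, mem_erase]
  constructor
  · rintro ⟨h1, h2⟩
    exact ⟨⟨h1, mem_univ _⟩, h2⟩
  · rintro ⟨⟨h1, _⟩, h2⟩
    exact ⟨h1, h2⟩

theorem Dj_succ' (F : V → ℝ) (j : ℕ) : ∀ v,
    Dj par r F (j + 1) v = Dj par r (fun w => ∑ c ∈ ch par r w, F c) j v := by
  induction j with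
  | zero => exact fun v => rfl
  | succ j ih => exact fun v => sum_congr rfl fun c _ => ih c

theorem Dj_Dj (F : V → ℝ) (i j : ℕ) : ∀ v,
    Dj par r (Dj par r F i) j v = Dj par r F (i + j) v := by
  induction j with
  | zero => exact fun v => rfl
  | succ j ih => exact fun v => sum_congr rfl fun c _ => ih c

theorem Dj_mono {F G : V → ℝ} (h : ∀ v, F v ≤ G v) (j : ℕ) : ∀ v,
    Dj par r F j v ≤ Dj par r G j v := by
  induction j with
  | zero => exact h
  | succ j ih => exact fun v => sum_le_sum fun c _ => ih c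

theorem Dj_nonneg {F : V → ℝ} (h : ∀ v, 0 ≤ F v) (j : ℕ) : ∀ v, 0 ≤ Dj par r F j v := by
  induction j with
  | zero => exact h
  | succ j ih => exact fun v => sum_nonneg fun c _ => ih c

theorem Dj_sum {F : V → ℝ} (h : ∀ v, 0 ≤ F v) (j : ℕ) : ∑ v, Dj par r F j v ≤ ∑ v, F v := by
  induction j with
  | zero => exact le_rfl
  | succ j ih =>
    refine le_trans ?_ ih
    have h1 : ∑ v, Dj par r F (j + 1) v = ∑ c ∈ univ.erase r, Dj par r F j c :=
      sum_ch (Dj par r F j)
    rw [h1]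
    exact sum_le_sum_of_subset_of_nonneg (erase_subset _ _) fun v _ _ => Dj_nonneg h j v

theorem sum_sq {ι : Type} (s : Finset ι) (a : ι → ℝ) (h : ∀ i ∈ s, 0 ≤ a i) :
    ∑ i ∈ s, a i ^ 2 ≤ (∑ i ∈ s, a i) ^ 2 := by
  rw [sq, sum_mul]
  refine sum_le_sum fun i hi => ?_
  rw [sq]
  exact mul_le_mul_of_nonneg_left (single_le_sum h hi) (h i hi)

theorem Dj_sq {F : V → ℝ} (h : ∀ v, 0 ≤ F v) (j : ℕ) : ∀ v,
    Dj par r (fun w => F w ^ 2) j v ≤ Dj par r F j v ^ 2 := by
  induction j with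
  | zero => exact fun v => le_rfl
  | succ j ih =>
    intro v
    exact (sum_le_sum fun c _ => ih c).trans (sum_sq _ _ fun c _ => Dj_nonneg h j c)

theorem Dj_zero (h : RT par dep r) (F : V → ℝ) (j : ℕ) : ∀ v,
    Fintype.card V ≤ dep v + j → Dj par r F j v = 0 := by
  induction j with
  | zero =>
    intro v hv
    have := dep_lt h v
    omega
  | succ j ih =>
    intro v hv
    refine sum_eq_zero fun c hc => ih c ?_
    rw [dep_ch h hc]
    omega

theorem hat_rec (h : RT par dep r) (F : V → ℝ) (v : V) :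
    hat par r F v = F v + 3 / 4 * ∑ c ∈ ch par r v, hat par r F c := by
  obtain ⟨n, hn⟩ : ∃ n, Fintype.card V = n + 1 :=
    ⟨Fintype.card V - 1, by have := dep_lt h v; omega⟩
  have h1 : ∀ c ∈ ch par r v, hat par r F c =
      ∑ j ∈ range n, (3 / 4 : ℝ) ^ j * Dj par r F j c := by
    intro c hc
    unfold hat
    rw [hn, sum_range_succ, Dj_zero h F n c (by rw [dep_ch h hc]; omega), mul_zero, add_zero]
  rw [sum_congr rfl h1, sum_comm, mul_sum]
  unfold hat
  rw [hn, sum_range_succ', add_comm]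
  have h2 : (3 / 4 : ℝ) ^ 0 * Dj par r F 0 v = F v := by
    rw [pow_zero, one_mul]
    rfl
  rw [h2]
  congr 1
  refine sum_congr rfl fun j _ => ?_
  show (3 / 4 : ℝ) ^ (j + 1) * ∑ c ∈ ch par r v, Dj par r F j c = _
  rw [← mul_sum, pow_succ]
  ring

theorem hat_nonneg {F : V → ℝ} (hF : ∀ v, 0 ≤ F v) (v : V) : 0 ≤ hat par r F v :=
  sum_nonneg fun j _ => mul_nonneg (by positivity) (Dj_nonneg hF j v)

theorem geom (n : ℕ) : ∑ j ∈ range n, (3 / 4 : ℝ) ^ j ≤ 4 := by
  have h1 : ∑ j ∈ range n, (3 / 4 : ℝ) ^ j = 4 - 4 * (3 / 4 : ℝ) ^ n := by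
    induction n with
    | zero => norm_num
    | succ n ih =>
      rw [sum_range_succ, ih, pow_succ]
      ring
  rw [h1]
  have : (0 : ℝ) ≤ (3 / 4 : ℝ) ^ n := by positivity
  linarith

theorem hat_sum {F : V → ℝ} (hF : ∀ v, 0 ≤ F v) :
    ∑ v, hat par r F v ≤ 4 * ∑ v, F v := by
  unfold hat
  rw [sum_comm]
  have h0 : 0 ≤ ∑ v, F v := sum_nonneg fun v _ => hF v
  calc ∑ j ∈ range (Fintype.card V), ∑ v, (3 / 4 : ℝ) ^ j * Dj par r F j v
      ≤ ∑ j ∈ range (Fintype.card V), (3 / 4 : ℝ) ^ j * ∑ v, F v := by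
        refine sum_le_sum fun j _ => ?_
        rw [← mul_sum]
        exact mul_le_mul_of_nonneg_left (Dj_sum hF j) (by positivity)
    _ = (∑ j ∈ range (Fintype.card V), (3 / 4 : ℝ) ^ j) * ∑ v, F v := by rw [sum_mul]
    _ ≤ 4 * ∑ v, F v := mul_le_mul_of_nonneg_right (geom _) h0

theorem Dj_lin (F G : V → ℝ) (a b : ℝ) (j : ℕ) : ∀ v,
    Dj par r (fun w => a * F w + b * G w) j v = a * Dj par r F j v + b * Dj par r G j v := by
  induction j with
  | zero => exact fun v => rfl
  | succ j ih =>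
    intro v
    show ∑ c ∈ ch par r v, Dj par r (fun w => a * F w + b * G w) j c =
      a * ∑ c ∈ ch par r v, Dj par r F j c + b * ∑ c ∈ ch par r v, Dj par r G j c
    rw [mul_sum, mul_sum, ← sum_add_distrib]
    exact sum_congr rfl fun c _ => ih c

theorem hat_lin (F G : V → ℝ) (a b : ℝ) (v : V) :
    hat par r (fun w => a * F w + b * G w) v = a * hat par r F v + b * hat par r G v := by
  unfold hat
  rw [mul_sum, mul_sum, ← sum_add_distrib]
  refine sum_congr rfl fun j _ => ?_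
  rw [Dj_lin]
  ring

end SUMT_

/-- SUMT -/
theorem p_SUMT : T_SUMT := by
  intro V _ _ par dep r h
  refine ⟨SUMT_.sum_ch, fun F j v => SUMT_.Dj_succ' F j v, fun F i j v => SUMT_.Dj_Dj F i j v,
    fun F G hFG j v => SUMT_.Dj_mono hFG j v,
    fun F hF j => ⟨SUMT_.Dj_nonneg hF j, SUMT_.Dj_sum hF j⟩,
    fun F hF j v => SUMT_.Dj_sq hF j v, fun F j v hv => SUMT_.Dj_zero h F j v hv,
    SUMT_.hat_rec h, fun F hF => ⟨fun v => ?_, SUMT_.hat_sum hF⟩, SUMT_.hat_lin,
    fun F G hFG v => ?_⟩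
  · rw [SUMT_.hat_rec h F v]
    have h1 : 0 ≤ ∑ c ∈ ch par r v, hat par r F c :=
      sum_nonneg fun c _ => SUMT_.hat_nonneg hF c
    linarith
  · exact sum_le_sum fun j _ =>
      mul_le_mul_of_nonneg_left (SUMT_.Dj_mono hFG j v) (by positivity)

end

end Pool.Agent.TFin
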