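import Pool.Agent.TFin.Targets
import Pool.Agent.TFin.SUMT

set_option autoImplicit false

/-!
# Large trees in tournaments: LN, the linear field
-/

namespace Pool.Agent.TFin

open Finset
open Pool.Agent.TLT (av Krn Sop dl xx)

noncomputable section

namespace LN_

variable {V : Type} [Fintype V] [DecidableEq V] {par : V → V} {dep : V → ℕ} {r : V}

omit [DecidableEq V] in
theorem card_pos (h : RT par dep r) (v : V) : ∃ n, Fintype.card V = n + 1 :=
  ⟨Fintype.card V - 1, by have := SUMT_.dep_lt h v; omega⟩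

theorem NN_zero (h : RT par dep r) (ε : V → ℝ) (j : ℕ) : ∀ v,
    Fintype.card V ≤ dep v + j → NN par r ε j v = 0 := by
  induction j with
  | zero =>
    intro v hv
    have := SUMT_.dep_lt h v
    omega
  | succ j ih =>
    intro v hv
    refine sum_eq_zero fun c hc => ?_
    rw [ih c (by rw [SUMT_.dep_ch h hc]; omega), mul_zero]

omit [Fintype V] [DecidableEq V] in
theorem abs_eps {ε : V → ℝ} (hε : ∀ c, ε c = 1 ∨ ε c = -1) (c : V) : |ε c| = 1 := by
  rcases hε c with h | h <;> rw [h] <;> norm_num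

theorem NN_le {ε : V → ℝ} (hε : ∀ c, ε c = 1 ∨ ε c = -1) (j : ℕ) : ∀ v,
    |NN par r ε j v| ≤ dn par r j v := by
  induction j with
  | zero =>
    intro v
    show |(1 : ℝ)| ≤ 1
    rw [abs_one]
  | succ j ih =>
    intro v
    refine (abs_sum_le_sum_abs _ _).trans (sum_le_sum fun c _ => ?_)
    rw [abs_mul, abs_eps hε, one_mul]
    exact ih c

theorem PP_nonneg (ε : V → ℝ) (v : V) : 0 ≤ PP par r ε v :=
  sum_nonneg fun _ _ => mul_nonneg (by positivity) (abs_nonneg _)

theorem qq_nonneg (ε : V → ℝ) (v : V) : 0 ≤ qq par r ε v :=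
  sum_nonneg fun _ _ => mul_nonneg (by positivity) (sq_nonneg _)

theorem geom (n : ℕ) : ∑ i ∈ range n, (40 / 49 : ℝ) ^ i ≤ 49 / 9 := by
  have h1 : ∑ i ∈ range n, (40 / 49 : ℝ) ^ i = 49 / 9 - 49 / 9 * (40 / 49 : ℝ) ^ n := by
    induction n with
    | zero => norm_num
    | succ n ih =>
      rw [sum_range_succ, ih, pow_succ]
      ring
  rw [h1]
  have : (0 : ℝ) ≤ (40 / 49 : ℝ) ^ n := by positivity
  linarith

theorem PP_sq (ε : V → ℝ) (v : V) : (1 + PP par r ε v) ^ 2 ≤ 11 * qq par r ε v := by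
  set n := Fintype.card V with hn
  set S := ∑ i ∈ range (n + 1), (5 / 7 : ℝ) ^ i * |NN par r ε i v| with hS
  have h1 : S = 1 + 5 / 7 * PP par r ε v := by
    rw [hS, sum_range_succ', add_comm]
    have h2 : (5 / 7 : ℝ) ^ 0 * |NN par r ε 0 v| = 1 := by
      show (5 / 7 : ℝ) ^ 0 * |(1 : ℝ)| = 1
      norm_num
    rw [h2]
    unfold PP
    rw [mul_sum]
    congr 1
    refine sum_congr rfl fun j _ => ?_
    rw [pow_succ]
    ring
  have h2 : S ^ 2 ≤ 49 / 9 * qq par r ε v := by
    have h3 : S ^ 2 ≤ (∑ i ∈ range (n + 1), (40 / 49 : ℝ) ^ i) *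
        ∑ i ∈ range (n + 1), (5 / 8 : ℝ) ^ i * NN par r ε i v ^ 2 := by
      refine sum_sq_le_sum_mul_sum_of_sq_le_mul _ (fun _ _ => by positivity)
        (fun _ _ => mul_nonneg (by positivity) (sq_nonneg _)) fun i _ => le_of_eq ?_
      have h4 : ((5 / 7 : ℝ) ^ i) ^ 2 = (40 / 49) ^ i * (5 / 8) ^ i := by
        rw [← mul_pow, ← pow_mul, mul_comm i 2, pow_mul]
        norm_num
      rw [mul_pow, sq_abs, h4, mul_assoc]
    exact h3.trans (mul_le_mul_of_nonneg_right (geom _) (qq_nonneg ε v))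
  have hP := PP_nonneg (par := par) (r := r) ε v
  have hq := qq_nonneg (par := par) (r := r) ε v
  have h4 : 1 + PP par r ε v ≤ 7 / 5 * S := by
    rw [h1]
    linarith
  have h5 : (1 + PP par r ε v) ^ 2 ≤ (7 / 5 * S) ^ 2 := by
    apply pow_le_pow_left₀ (by linarith) h4
  nlinarith

theorem RR_ge (ε : V → ℝ) (v : V) :
    (1 + PP par r ε v) ^ 2 + ∑ c ∈ ch par r v, (1 + PP par r ε c) ^ 2 ≤ RR par r ε v := by
  unfold RR
  rw [mul_add, mul_sum]
  exact add_le_add (PP_sq ε v) (sum_le_sum fun c _ => PP_sq ε c)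

theorem shift (h : RT par dep r) (ε : V → ℝ) (v : V) :
    ∑ j ∈ range (Fintype.card V), (5 / 7 : ℝ) ^ (j + 1) * |NN par r ε (j + 2) v| ≤
      PP par r ε v := by
  set g : ℕ → ℝ := fun i => (5 / 7 : ℝ) ^ i * |NN par r ε (i + 1) v| with hg
  have h1 := sum_range_succ g (Fintype.card V)
  rw [sum_range_succ'] at h1
  have h2 : g (Fintype.card V) = 0 := by
    rw [hg]
    simp only
    rw [NN_zero h ε _ v (by omega), abs_zero, mul_zero]
  have h3 : 0 ≤ g 0 := mul_nonneg (by positivity) (abs_nonneg _)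
  have h4 : ∑ j ∈ range (Fintype.card V), g j = PP par r ε v := rfl
  have h5 : ∑ j ∈ range (Fintype.card V), g (j + 1) =
      ∑ j ∈ range (Fintype.card V), (5 / 7 : ℝ) ^ (j + 1) * |NN par r ε (j + 2) v| := rfl
  rw [h2, h4, h5] at h1
  linarith

section kernel

variable {W : Type} [Fintype W]

/-- the linear field as a sum of functions -/
theorem LL_eq (ε : V → ℝ) (K : W → W → ℝ) (v : V) :
    LL par r ε K v = ∑ j ∈ range (Fintype.card V),
      NN par r ε (j + 1) v • ((Sop K)^[j] (dl K)) := by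
  funext y
  rw [Finset.sum_apply]
  rfl

theorem Sop_LL (ε : V → ℝ) (K : W → W → ℝ) (v : V) (y : W) :
    Sop K (LL par r ε K v) y = ∑ j ∈ range (Fintype.card V),
      NN par r ε (j + 1) v * ((Sop K)^[j + 1] (dl K)) y := by
  rw [LL_eq, map_sum, Finset.sum_apply]
  refine sum_congr rfl fun j _ => ?_
  rw [map_smul, Function.iterate_succ_apply']
  rfl

theorem LL_rec (h : RT par dep r) (ε : V → ℝ) (K : W → W → ℝ) (v : V) (y : W) :
    LL par r ε K v y =
      ∑ c ∈ ch par r v, ε c * (dl K y + Sop K (LL par r ε K c) y) := by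
  obtain ⟨n, hn⟩ := card_pos h v
  have h1 : ∀ c ∈ ch par r v, dl K y + Sop K (LL par r ε K c) y =
      ∑ j ∈ range (Fintype.card V), NN par r ε j c * ((Sop K)^[j] (dl K)) y := by
    intro c hc
    rw [Sop_LL, hn, sum_range_succ, sum_range_succ',
      NN_zero h ε (n + 1) c (by omega), zero_mul, add_zero, add_comm]
    congr 1
    show dl K y = 1 * dl K y
    rw [one_mul]
  rw [sum_congr rfl fun c hc => by rw [h1 c hc]]
  unfold LL
  rw [sum_congr rfl fun c _ => mul_sum _ _ _, sum_comm]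
  refine sum_congr rfl fun j _ => ?_
  show (∑ c ∈ ch par r v, ε c * NN par r ε j c) * _ = _
  rw [sum_mul]
  exact sum_congr rfl fun c _ => mul_assoc _ _ _

theorem G_eq (ε : V → ℝ) (K : W → W → ℝ) (v : V) (y : W) :
    ∑ c ∈ ch par r v, ε c * Sop K (LL par r ε K c) y =
      ∑ j ∈ range (Fintype.card V), NN par r ε (j + 2) v * ((Sop K)^[j + 1] (dl K)) y := by
  rw [sum_congr rfl fun c _ => by rw [Sop_LL]]
  rw [sum_congr rfl fun c _ => mul_sum _ _ _, sum_comm]
  refine sum_congr rfl fun j _ => ?_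
  show _ = (∑ c ∈ ch par r v, ε c * NN par r ε (j + 1) c) * _
  rw [sum_mul]
  exact sum_congr rfl fun c _ => (mul_assoc _ _ _).symm

end kernel

end LN_

/-- LN -/
theorem p_LN (h1 : T_REC) (h2 : T_SUMT) (h3 : T_BAN) : T_LN := by
  have _ := h1
  have _ := h2
  intro V _ _ par dep r h ε hε
  refine ⟨fun v => ⟨LN_.PP_nonneg ε v, LN_.PP_sq ε v⟩, LN_.RR_ge ε, fun v => ?_,
    fun j v hv => LN_.NN_zero h ε j v hv, fun j v => LN_.NN_le hε j v, ?_⟩
  · refine le_trans ?_ (LN_.RR_ge ε v)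
    have h4 : ∀ w, (1 : ℝ) ≤ (1 + PP par r ε w) ^ 2 := by
      intro w
      have := LN_.PP_nonneg (par := par) (r := r) ε w
      nlinarith
    have h5 : ((ch par r v).card : ℝ) ≤ ∑ c ∈ ch par r v, (1 + PP par r ε c) ^ 2 := by
      calc ((ch par r v).card : ℝ) = ∑ c ∈ ch par r v, (1 : ℝ) := by simp
        _ ≤ _ := sum_le_sum fun c _ => h4 c
    exact add_le_add (h4 v) h5
  · intro W _ _ K hK v
    obtain ⟨-, -, hsm, hsum, -, -, -, -, -, -, -, -, -, hB⟩ := h3 W
    obtain ⟨-, -, -, -, -, -, -, -, -, hd0, -, -, -, hit, hitp⟩ := hB K hK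
    -- the norm of a combination of iterates
    have hn2 : ∀ (a : ℕ → ℝ) (k : ℕ),
        n2 (fun y => ∑ j ∈ range (Fintype.card V), a j * ((Sop K)^[j + k] (dl K)) y) ≤
          del K * ∑ j ∈ range (Fintype.card V), (5 / 7 : ℝ) ^ (j + k) * |a j| := by
      intro a k
      refine (hsum ℕ (range (Fintype.card V))
        (fun j y => a j * ((Sop K)^[j + k] (dl K)) y)).trans ?_
      rw [mul_sum]
      refine sum_le_sum fun j _ => ?_
      rw [hsm]
      calc |a j| * n2 ((Sop K)^[j + k] (dl K)) ≤ |a j| * ((5 / 7 : ℝ) ^ (j + k) * del K) :=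
            mul_le_mul_of_nonneg_left (hit _) (abs_nonneg _)
        _ = _ := by ring
    refine ⟨LN_.LL_rec h ε K v, LN_.Sop_LL ε K v, ?_, ?_, fun y => ?_⟩
    · exact hn2 (fun j => NN par r ε (j + 1) v) 0
    · have h4 : (fun y => ∑ c ∈ ch par r v, ε c * Sop K (LL par r ε K c) y) = fun y =>
          ∑ j ∈ range (Fintype.card V), NN par r ε (j + 2) v *
            ((Sop K)^[j + 1] (dl K)) y := by
        funext y
        exact LN_.G_eq ε K v y
      rw [h4]
      exact (hn2 (fun j => NN par r ε (j + 2) v) 1).trans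
        (mul_le_mul_of_nonneg_left (LN_.shift h ε v) hd0)
    · rw [LN_.G_eq]
      calc |∑ j ∈ range (Fintype.card V), NN par r ε (j + 2) v * ((Sop K)^[j + 1] (dl K)) y|
          ≤ ∑ j ∈ range (Fintype.card V),
              |NN par r ε (j + 2) v * ((Sop K)^[j + 1] (dl K)) y| := abs_sum_le_sum_abs _ _
        _ ≤ ∑ j ∈ range (Fintype.card V),
              7 / 5 * (del K * ((5 / 7 : ℝ) ^ (j + 1) * |NN par r ε (j + 2) v|)) := by
            refine sum_le_sum fun j _ => ?_
            rw [abs_mul]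
            calc |NN par r ε (j + 2) v| * |((Sop K)^[j + 1] (dl K)) y|
                ≤ |NN par r ε (j + 2) v| * ((5 / 7 : ℝ) ^ j * del K) :=
                  mul_le_mul_of_nonneg_left (hitp j y) (abs_nonneg _)
              _ = _ := by
                rw [pow_succ]
                ring
        _ = 7 / 5 * (del K * ∑ j ∈ range (Fintype.card V),
              (5 / 7 : ℝ) ^ (j + 1) * |NN par r ε (j + 2) v|) := by
            rw [mul_sum, mul_sum]
        _ ≤ 7 / 5 * (del K * PP par r ε v) := by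
            refine mul_le_mul_of_nonneg_left ?_ (by norm_num)
            exact mul_le_mul_of_nonneg_left (LN_.shift h ε v) hd0

end

end Pool.Agent.TFin
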