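import Pool.Agent.TFin.Targets

set_option autoImplicit false

/-!
# Large trees in tournaments: LOC, sums of local functions concentrate
-/

namespace Pool.Agent.TFin

open Finset
open Pool.Agent.TLT (av Krn Sop dl xx)

noncomputable section

namespace LOC_

variable {V : Type} [Fintype V] [DecidableEq V]

/-- the vertices whose local function may depend on the label `l` -/
def tch (par lab : V → V) (r : V) (J : ℕ) (l : V) : Finset V :=
  ((univ.filter fun c => c ≠ r ∧ lab c = l) ×ˢ range (J + 1)).image fun x => par^[x.2] x.1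

theorem card_tch {par lab : V → V} {r : V} (J : ℕ) (l : V)
    (h : (univ.filter fun c => c ≠ r ∧ lab c = l).card ≤ 2) :
    (tch par lab r J l).card ≤ 2 * (J + 1) := by
  refine card_image_le.trans ?_
  rw [card_product, card_range]
  exact Nat.mul_le_mul_right _ h

theorem flip_le {par lab : V → V} {r : V} (X : V → (V → Bool) → ℝ) (J : ℕ) (M : ℝ)
    (A : Finset V) (hM : 0 ≤ M) (hX : ∀ v ∈ A, ∀ ζ, |X v ζ| ≤ M)
    (hloc : ∀ v ∈ A, ∀ ζ ζ', (∀ c, c ≠ r → (∃ t ≤ J, par^[t] c = v) → ζ (lab c) = ζ' (lab c)) →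
      X v ζ = X v ζ') (l : V) (h : (univ.filter fun c => c ≠ r ∧ lab c = l).card ≤ 2)
    (ζ : V → Bool) :
    |∑ v ∈ A, X v (flipS {l} ζ) - ∑ v ∈ A, X v ζ| ≤ 4 * ((J : ℝ) + 1) * M := by
  rw [← sum_sub_distrib]
  have h1 : ∀ v ∈ A, v ∉ tch par lab r J l → X v (flipS {l} ζ) - X v ζ = 0 := by
    intro v hv hvt
    rw [sub_eq_zero]
    refine hloc v hv _ _ fun c hc ht => ?_
    obtain ⟨t, htJ, htv⟩ := ht
    have h2 : lab c ≠ l := by
      intro hcl
      apply hvt
      refine mem_image.2 ⟨(c, t), mem_product.2 ⟨mem_filter.2 ⟨mem_univ _, hc, hcl⟩,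
        mem_range.2 (by omega)⟩, htv⟩
    unfold flipS
    rw [if_neg (by rw [mem_singleton]; exact h2)]
  have h2 : ∑ v ∈ A, (X v (flipS {l} ζ) - X v ζ) =
      ∑ v ∈ A.filter (fun v => v ∈ tch par lab r J l), (X v (flipS {l} ζ) - X v ζ) := by
    rw [sum_filter]
    refine sum_congr rfl fun v hv => ?_
    by_cases hvt : v ∈ tch par lab r J l
    · rw [if_pos hvt]
    · rw [if_neg hvt, h1 v hv hvt]
  rw [h2]
  have h3 : (A.filter (fun v => v ∈ tch par lab r J l)).card ≤ 2 * (J + 1) := by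
    refine (card_le_card fun v hv => ?_).trans (card_tch (par := par) J l h)
    exact (mem_filter.1 hv).2
  calc |∑ v ∈ A.filter (fun v => v ∈ tch par lab r J l), (X v (flipS {l} ζ) - X v ζ)|
      ≤ ∑ v ∈ A.filter (fun v => v ∈ tch par lab r J l), |X v (flipS {l} ζ) - X v ζ| :=
        abs_sum_le_sum_abs _ _
    _ ≤ ∑ v ∈ A.filter (fun v => v ∈ tch par lab r J l), 2 * M := by
        refine sum_le_sum fun v hv => ?_
        have hvA := (mem_filter.1 hv).1
        have h4 := hX v hvA (flipS {l} ζ)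
        have h5 := hX v hvA ζ
        have h6 := abs_sub (X v (flipS {l} ζ)) (X v ζ)
        linarith
    _ = (A.filter (fun v => v ∈ tch par lab r J l)).card * (2 * M) := by
        rw [sum_const, nsmul_eq_mul]
    _ ≤ (2 * ((J : ℝ) + 1)) * (2 * M) := by
        refine mul_le_mul_of_nonneg_right ?_ (by linarith)
        exact_mod_cast h3
    _ = _ := by ring

end LOC_

/-- LOC -/
theorem p_LOC (h1 : T_ES) (h2 : T_CUBE) : T_LOC := by
  intro V _ _ par dep r π lab sn B _ hlay X J M A hM hX hloc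
  have hC : 0 ≤ 4 * ((J : ℝ) + 1) * M := by positivity
  have h3 := h1 V (fun ζ => ∑ v ∈ A, X v ζ) (4 * ((J : ℝ) + 1) * M) hC fun ζ l =>
    LOC_.flip_le X J M A hM hX hloc l (hlay.two l) ζ
  have h4 : Ex (fun ζ => ∑ v ∈ A, X v ζ) = ∑ v ∈ A, Ex (X v) := (h2 V).2.1 V A X
  rw [h4] at h3
  exact h3

end

end Pool.Agent.TFin
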