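import Pool.Agent.TFin.Targets

/-!
# Large trees in tournaments (MP_d27362_co), target MB

The bad vertices are rare.
-/

set_option autoImplicit false

namespace Pool.Agent.TFin

open Finset

namespace MB_

/-- the bound for one removed vertex -/
theorem one_cut {δ τ Kb P R H : ℝ} (hτ : 0 < τ) (hK : δ ^ 2 * Kb ≤ τ ^ 2 / 10 ^ 8)
    (hR : (1 + P) ^ 2 ≤ R) (hH : R ≤ H) :
    δ * (1 + P) ≤ τ / 8000 + 8000 * (δ ^ 2 * (if Kb < H then H else 0) / τ) := by
  have hH0 : 0 ≤ H := le_trans (sq_nonneg _) (le_trans hR hH)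
  by_cases h : δ * (1 + P) ≤ τ / 8000
  · have : 0 ≤ 8000 * (δ ^ 2 * (if Kb < H then H else 0) / τ) := by
      apply mul_nonneg (by norm_num)
      apply div_nonneg _ hτ.le
      apply mul_nonneg (sq_nonneg _)
      split_ifs
      · exact hH0
      · exact le_rfl
    linarith
  · have h1 : τ / 8000 < δ * (1 + P) := by linarith
    have hτ8 : 0 < τ / 8000 := by positivity
    have h2 : (τ / 8000) ^ 2 < (δ * (1 + P)) ^ 2 := pow_lt_pow_left₀ h1 hτ8.le (by norm_num)
    have h3 : (δ * (1 + P)) ^ 2 ≤ δ ^ 2 * H := by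
      rw [mul_pow]
      exact mul_le_mul_of_nonneg_left (le_trans hR hH) (sq_nonneg _)
    have h4 : δ ^ 2 * Kb < δ ^ 2 * H := by
      have : τ ^ 2 / 10 ^ 8 ≤ (τ / 8000) ^ 2 := by
        rw [div_pow]
        gcongr
        norm_num
      linarith
    have h5 : Kb < H := lt_of_mul_lt_mul_left h4 (sq_nonneg _)
    rw [if_pos h5]
    have h6 : δ * (1 + P) * τ ≤ 8000 * (δ ^ 2 * H) := by
      have : τ / 8000 * (δ * (1 + P)) ≤ (δ * (1 + P)) ^ 2 := by
        rw [sq]
        exact mul_le_mul_of_nonneg_right h1.le (le_trans hτ8.le h1.le)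
      nlinarith
    have h7 : δ * (1 + P) ≤ 8000 * (δ ^ 2 * H / τ) := by
      rw [← mul_div_assoc, le_div_iff₀ hτ]
      exact h6
    linarith

end MB_

theorem p_MB (h1 : T_SUMT) : T_MB := by
  intro V _ _ par dep r hT π hπ R P X Cut δ τ Kb Mb Y hP hPR hδ hτ hτ1 hKb hδK hCut hX0 hX hMb hY
  obtain ⟨s1, s2, s3, s4, s5, s6, s7, s8, s9, s10, s11⟩ := h1 V par dep r hT
  have hR0 : ∀ v, 0 ≤ R v := fun v => le_trans (sq_nonneg _) (hPR v)
  have hRh := (s9 R hR0).1
  have hY0 : 0 ≤ Y := by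
    rw [hY]
    exact sum_nonneg fun v _ => le_trans (hR0 v) (hRh v)
  set G : V → ℝ := fun c => if Kb < hat par r R c then hat par r R c else 0 with hG
  have hG0 : ∀ c, 0 ≤ G c := by
    intro c
    simp only [hG]
    split_ifs
    · exact le_trans (hR0 c) (hRh c)
    · exact le_rfl
  have hGY : ∀ S : Finset V, ∑ c ∈ S, G c ≤ Y := by
    intro S
    rw [hY, sum_filter]
    exact sum_le_sum_of_subset_of_nonneg (subset_univ _) fun c _ _ => hG0 c
  set bad := univ.filter fun v => τ < X v with hbad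
  have hbM : τ * bad.card ≤ Mb := by
    rw [hMb, mul_comm, ← nsmul_eq_mul]
    exact card_nsmul_le_sum _ _ _ fun v hv => (mem_filter.mp hv).2.le
  have hMb0 : 0 ≤ Mb := le_trans (mul_nonneg hτ.le (Nat.cast_nonneg _)) hbM
  have hsub : Cut ⊆ bad ∪ bad.image π := by
    intro v hv
    rcases ((hCut v).mp hv).2 with h | h
    · exact mem_union_left _ (mem_filter.mpr ⟨mem_univ _, h⟩)
    · exact mem_union_right _ (mem_image.mpr ⟨π v, mem_filter.mpr ⟨mem_univ _, h⟩, hπ.inv v⟩)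
  have hCc : (Cut.card : ℝ) ≤ 2 * bad.card := by
    have h2 := card_le_card hsub
    have h3 := card_union_le bad (bad.image π)
    have h4 : (bad.image π).card ≤ bad.card := card_image_le
    have : Cut.card ≤ 2 * bad.card := by omega
    exact_mod_cast this
  have hCM : τ * Cut.card ≤ 2 * Mb := by nlinarith
  set q := δ ^ 2 * Y / τ with hq
  have hW0 : 0 ≤ δ ^ 2 * Y := mul_nonneg (sq_nonneg _) hY0
  have hq0 : 0 ≤ q := div_nonneg hW0 hτ.le
  -- the contribution of the removed children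
  set κ : V → ℝ := fun v => δ * ∑ c ∈ ch par r v ∩ Cut, (1 + P c) with hκ
  have hκ0 : ∀ v, 0 ≤ κ v := fun v =>
    mul_nonneg hδ (sum_nonneg fun c _ => by have := hP c; linarith)
  have hκs : ∑ v, κ v ≤ ∑ c ∈ Cut, δ * (1 + P c) := by
    have h2 : ∑ v, κ v = ∑ v, ∑ c ∈ ch par r v, (if c ∈ Cut then δ * (1 + P c) else 0) := by
      apply sum_congr rfl
      intro v _
      simp only [hκ]
      rw [mul_sum, ← sum_filter, filter_mem_eq_inter]
    rw [h2, s1, ← sum_filter, ← mul_sum, ← mul_sum]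
    apply mul_le_mul_of_nonneg_left _ hδ
    apply sum_le_sum_of_subset_of_nonneg
    · intro c hc
      exact (mem_filter.mp hc).2
    · intro c _ _
      have := hP c
      linarith
  have hκs2 : ∑ c ∈ Cut, δ * (1 + P c) ≤ Mb / 4000 + 8000 * q := by
    have h2 : ∑ c ∈ Cut, δ * (1 + P c) ≤ ∑ c ∈ Cut, (τ / 8000 + 8000 * (δ ^ 2 * G c / τ)) :=
      sum_le_sum fun c _ => MB_.one_cut hτ hδK (hPR c) (hRh c)
    have h3 := hGY Cut
    have h4 : ∑ c ∈ Cut, (τ / 8000 + 8000 * (δ ^ 2 * G c / τ)) =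
        Cut.card * (τ / 8000) + 8000 * (δ ^ 2 * (∑ c ∈ Cut, G c) / τ) := by
      rw [sum_add_distrib, sum_const, nsmul_eq_mul, ← mul_sum, ← sum_div, ← mul_sum]
    have h5 : δ ^ 2 * (∑ c ∈ Cut, G c) / τ ≤ q :=
      div_le_div_of_nonneg_right (mul_le_mul_of_nonneg_left h3 (sq_nonneg _)) hτ.le
    have h6 : Cut.card * (τ / 8000) ≤ Mb / 4000 := by linarith
    linarith
  have hhat : ∑ v, hat par r κ v ≤ Mb / 1000 + 32000 * q := by
    have := (s9 κ hκ0).2
    linarith
  have hhat0 : ∀ v, 0 ≤ hat par r κ v := fun v => le_trans (hκ0 v) ((s9 κ hκ0).1 v)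
  have hMb2 : Mb ≤ 250 * (δ ^ 2 * (Kb * bad.card + Y)) + 250 * ∑ v, hat par r κ v := by
    have h2 : Mb ≤ ∑ v ∈ bad, 250 * (δ ^ 2 * hat par r R v + hat par r κ v) := by
      rw [hMb]
      exact sum_le_sum fun v _ => hX v
    have h3 : ∑ v ∈ bad, hat par r R v ≤ Kb * bad.card + Y := by
      have h4 : ∑ v ∈ bad, hat par r R v ≤ ∑ v ∈ bad, (Kb + G v) := by
        apply sum_le_sum
        intro v _
        simp only [hG]
        split_ifs with h
        · linarith
        · linarith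
      rw [sum_add_distrib, sum_const, nsmul_eq_mul, mul_comm] at h4
      have h5 := hGY bad
      linarith
    have h4 : ∑ v ∈ bad, hat par r κ v ≤ ∑ v, hat par r κ v :=
      sum_le_sum_of_subset_of_nonneg (subset_univ _) fun v _ _ => hhat0 v
    rw [← mul_sum, sum_add_distrib, ← mul_sum] at h2
    have h5 := mul_le_mul_of_nonneg_left h3 (sq_nonneg δ)
    linarith
  have hsm : 250 * (δ ^ 2 * (Kb * bad.card)) ≤ Mb / 4 := by
    have h2 : δ ^ 2 * Kb * bad.card ≤ τ ^ 2 / 10 ^ 8 * bad.card :=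
      mul_le_mul_of_nonneg_right hδK (Nat.cast_nonneg _)
    have h3 : τ ^ 2 / 10 ^ 8 * bad.card = τ / 10 ^ 8 * (τ * bad.card) := by ring
    have h4 : τ / 10 ^ 8 * (τ * bad.card) ≤ 1 / 1000 * Mb := by
      apply mul_le_mul _ hbM (mul_nonneg hτ.le (Nat.cast_nonneg _)) (by norm_num)
      linarith
    nlinarith
  have hWq : δ ^ 2 * Y ≤ q / 1000000 := by
    have : δ ^ 2 * Y = q * τ := by
      rw [hq]
      field_simp
    rw [this]
    nlinarith
  have hMq : Mb ≤ 2 * 10 ^ 7 * q := by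
    nlinarith
  have e1 : 2 * 10 ^ 7 / τ * (δ ^ 2 * Y) = 2 * 10 ^ 7 * q := by
    rw [hq]
    ring
  have e2 : 10 ^ 5 / τ * (δ ^ 2 * Y) = 10 ^ 5 * q := by
    rw [hq]
    ring
  refine ⟨by rw [e1]; exact hMq, by rw [e2]; linarith, ?_⟩
  rw [div_mul_eq_mul_div, le_div_iff₀ hτ]
  linarith

end Pool.Agent.TFin
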