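import Pool.Agent.TFin.Targets

/-! MOM: second moments of the signed numbers of descendants. -/

set_option autoImplicit false

namespace Pool.Agent.TFin

open Finset

namespace MOM_

theorem sg_sq {V : Type} (lab : V → V) (sn : V → ℝ) (ζ : V → Bool) (c : V)
    (h : sn c = 1 ∨ sn c = -1) : sg lab sn ζ c * sg lab sn ζ c = 1 := by
  unfold sg
  rcases h with h | h <;> rw [h] <;> split_ifs <;> norm_num

theorem sq_sum {I : Type} [DecidableEq I] (s : Finset I) (f : I → ℝ) :
    (∑ c ∈ s, f c) ^ 2 = ∑ c ∈ s, f c * f c + ∑ c ∈ s, ∑ c' ∈ s.erase c, f c * f c' := by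
  rw [sq, sum_mul_sum, ← sum_add_distrib]
  refine sum_congr rfl fun c hc => ?_
  rw [add_sum_erase s (fun c' => f c * f c') hc]

theorem geo (N : ℕ) : ∑ i ∈ range N, (5 / 8 : ℝ) ^ i ≤ 8 / 3 := by
  rw [geom_sum_eq (by norm_num)]
  have h : (0 : ℝ) < (5 / 8) ^ N := by positivity
  rw [div_le_iff_of_neg (by norm_num)]
  linarith

end MOM_

open MOM_ in
theorem p_MOM (h1 : T_CUBE) (h2 : T_SUMT) (h3 : T_MZ) : T_MOM := by
  intro V _ _ par dep r π lab sn B hRT hLay
  obtain ⟨hlin, hsum, hmono, hconst, -, -, -, -, -, -⟩ := h1 V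
  obtain ⟨hs1, -, -, -, hs5, -, -, -, -, -, -⟩ := h2 V par dep r hRT
  obtain ⟨hz1, hz2, -, -, -⟩ := h3 V par dep r π lab sn B hRT hLay
  have hmul : ∀ (a : ℝ) (F : (V → Bool) → ℝ), Ex (fun ζ => a * F ζ) = a * Ex F := by
    intro a F
    have h := hlin a 0 F F
    simpa using h
  have hadd : ∀ F G : (V → Bool) → ℝ, Ex (fun ζ => F ζ + G ζ) = Ex F + Ex G := by
    intro F G
    have h := hlin 1 1 F G
    simpa using h
  have hfirst : ∀ j v, Ex (fun ζ => NN par r (sg lab sn ζ) j v ^ 2) ≤ dn par r j v := by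
    intro j
    induction j with
    | zero =>
      intro v
      have e : (fun ζ : V → Bool => NN par r (sg lab sn ζ) 0 v ^ 2) = fun _ => 1 := by
        funext ζ
        simp [NN]
      rw [e, hconst]
      simp [dn, Dj]
    | succ j ih =>
      intro v
      have e : (fun ζ : V → Bool => NN par r (sg lab sn ζ) (j + 1) v ^ 2) = fun ζ =>
          (∑ c ∈ ch par r v, NN par r (sg lab sn ζ) j c ^ 2) +
          ∑ c ∈ ch par r v, ∑ c' ∈ (ch par r v).erase c,
            sg lab sn ζ c * sg lab sn ζ c' * NN par r (sg lab sn ζ) j c *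
              NN par r (sg lab sn ζ) j c' := by
        funext ζ
        rw [NN, sq_sum]
        congr 1
        · refine sum_congr rfl fun c _ => ?_
          have h := sg_sq lab sn ζ c (hLay.sn1 c)
          calc sg lab sn ζ c * NN par r (sg lab sn ζ) j c *
                (sg lab sn ζ c * NN par r (sg lab sn ζ) j c)
              = (sg lab sn ζ c * sg lab sn ζ c) * NN par r (sg lab sn ζ) j c ^ 2 := by ring
            _ = NN par r (sg lab sn ζ) j c ^ 2 := by rw [h, one_mul]
        · refine sum_congr rfl fun c _ => sum_congr rfl fun c' _ => ?_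
          ring
      rw [e, hadd, hsum V (ch par r v)]
      have hoff : Ex (fun ζ => ∑ c ∈ ch par r v, ∑ c' ∈ (ch par r v).erase c,
            sg lab sn ζ c * sg lab sn ζ c' * NN par r (sg lab sn ζ) j c *
              NN par r (sg lab sn ζ) j c') ≤ 0 := by
        rw [hsum V (ch par r v)]
        refine sum_nonpos fun c hc => ?_
        rw [hsum V ((ch par r v).erase c)]
        refine sum_nonpos fun c' hc' => ?_
        have hc2 : c' ∈ ch par r v := mem_of_mem_erase hc'
        have hne : c ≠ c' := (ne_of_mem_erase hc').symm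
        cases j with
        | zero =>
          have h := hz2 v c hc c' hc2 hne
          simpa [NN] using h
        | succ i => exact le_of_eq (hz1 v c hc c' hc2 hne i (i + 1))
      have hdn : dn par r (j + 1) v = ∑ c ∈ ch par r v, dn par r j c := rfl
      rw [hdn]
      have hdiag : ∑ c ∈ ch par r v, Ex (fun ζ => NN par r (sg lab sn ζ) j c ^ 2) ≤
          ∑ c ∈ ch par r v, dn par r j c := sum_le_sum fun c _ => ih c
      linarith
  refine ⟨hfirst, ?_⟩
  have hqn : ∀ (ζ : V → Bool) v, 0 ≤ qq par r (sg lab sn ζ) v := by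
    intro ζ v
    unfold qq
    exact sum_nonneg fun i _ => mul_nonneg (by positivity) (sq_nonneg _)
  have hR : ∀ ζ : V → Bool, ∑ v, RR par r (sg lab sn ζ) v ≤
      22 * ∑ v, qq par r (sg lab sn ζ) v := by
    intro ζ
    have e1 : ∑ v, RR par r (sg lab sn ζ) v = 11 * (∑ v, qq par r (sg lab sn ζ) v +
        ∑ v, ∑ c ∈ ch par r v, qq par r (sg lab sn ζ) c) := by
      unfold RR
      rw [← mul_sum, sum_add_distrib]
    rw [e1, hs1]
    have e2 : ∑ c ∈ univ.erase r, qq par r (sg lab sn ζ) c ≤ ∑ c, qq par r (sg lab sn ζ) c :=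
      sum_le_sum_of_subset_of_nonneg (erase_subset _ _) fun c _ _ => hqn ζ c
    linarith
  refine le_trans (hmono _ _ hR) ?_
  rw [hmul]
  have e3 : Ex (fun ζ => ∑ v, qq par r (sg lab sn ζ) v) =
      ∑ v, ∑ i ∈ range (Fintype.card V + 1),
        (5 / 8 : ℝ) ^ i * Ex (fun ζ => NN par r (sg lab sn ζ) i v ^ 2) := by
    rw [hsum V univ]
    refine sum_congr rfl fun v _ => ?_
    unfold qq
    rw [hsum ℕ (range (Fintype.card V + 1))]
    exact sum_congr rfl fun i _ => hmul _ _
  have e4 : Ex (fun ζ => ∑ v, qq par r (sg lab sn ζ) v) ≤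
      ∑ i ∈ range (Fintype.card V + 1), (5 / 8 : ℝ) ^ i * (Fintype.card V : ℝ) := by
    rw [e3, sum_comm]
    refine sum_le_sum fun i _ => ?_
    rw [← mul_sum]
    refine mul_le_mul_of_nonneg_left ?_ (by positivity)
    have h5 := (hs5 (fun _ => 1) (fun _ => zero_le_one) i).2
    have h6 : ∑ v, Ex (fun ζ => NN par r (sg lab sn ζ) i v ^ 2) ≤ ∑ v, dn par r i v :=
      sum_le_sum fun v _ => hfirst i v
    have h7 : ∑ v, dn par r i v = ∑ v, Dj par r (fun _ => 1) i v := rfl
    have h8 : ∑ _v : V, (1 : ℝ) = (Fintype.card V : ℝ) := by simp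
    rw [h8] at h5
    linarith
  rw [← sum_mul] at e4
  have h9 := geo (Fintype.card V + 1)
  have h10 : (0 : ℝ) ≤ Fintype.card V := Nat.cast_nonneg _
  have h11 : (∑ i ∈ range (Fintype.card V + 1), (5 / 8 : ℝ) ^ i) * (Fintype.card V : ℝ) ≤
      8 / 3 * (Fintype.card V : ℝ) := mul_le_mul_of_nonneg_right h9 h10
  linarith

end Pool.Agent.TFin
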