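import Pool.Agent.TFin.Targets

set_option autoImplicit false
set_option linter.unusedSectionVars false

namespace Pool.Agent.TFin

open Finset

namespace MZ_

variable {V : Type} [Fintype V] [DecidableEq V]

lemma mem_ch {par : V → V} {r v c : V} : c ∈ ch par r v ↔ c ≠ r ∧ par c = v := by
  unfold ch; simp

lemma Ex_sub (F G : (V → Bool) → ℝ) : Ex (fun ζ => F ζ - G ζ) = Ex F - Ex G := by
  unfold Ex; rw [sum_sub_distrib, sub_div]

variable {par : V → V} {dep : V → ℕ} {r : V} {π lab : V → V} {sn : V → ℝ} {B : Finset V}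

lemma own (hRT : RT par dep r) (hL : Lay par dep r π lab sn B)
    {c a : V} (hc : c ≠ r) (ha0 : a ≠ r) (hd : dep c < dep a) (hab : lab a = lab c) :
    a ∈ B ∧ par a = c := by
  have h1 := hRT.step a ha0
  have h2 := hRT.step c hc
  rcases hL.inj c a hc ha0 hab.symm with h | h | ⟨_, h⟩ | ⟨h', h⟩
  · rw [h] at hd; exact absurd hd (lt_irrefl _)
  · have hp : par a = par c := by rw [h]; exact hL.pr.hpar c hc
    rw [hp] at h1; omega
  · rw [← h] at h2; omega
  · exact ⟨h', h.symm⟩

end MZ_

open MZ_ in
theorem p_MZ (h1 : T_CUBE) (h2 : T_LAYF) (h3 : T_FLN) : T_MZ := by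
  intro V _ _ par dep r π lab sn B hRT hL
  obtain ⟨_, c2, _, c4, _, _, _, c8, _, _⟩ := h1 V
  obtain ⟨l1, l2, l3, l4, l5, l6, l7⟩ := h2 V par dep r π lab sn B hRT hL
  obtain ⟨f1, f2, f3, f4, _⟩ := h3 V par dep r hRT
  have hsgf : ∀ c ζ, sg lab sn (flipS {lab c} ζ) c = - sg lab sn ζ c := by
    intro c ζ
    rw [l2 ζ {lab c} c, if_pos (mem_singleton_self _)]
  have hsgn : ∀ c w ζ, lab w ≠ lab c → sg lab sn (flipS {lab c} ζ) w = sg lab sn ζ w := by
    intro c w ζ h
    rw [l2 ζ {lab c} w, if_neg (by rw [mem_singleton]; exact h)]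
  have hsq : ∀ c ζ, sg lab sn ζ c * sg lab sn ζ c = 1 := by
    intro c ζ
    rcases (l1 ζ).1 c with h | h <;> rw [h] <;> norm_num
  have hpc : ∀ c, c ≠ r → par c ≠ c := by
    intro c hc he
    have := hRT.step c hc
    rw [he] at this
    omega
  -- `Ex (sg c) = 0`
  have hone : ∀ c, Ex (fun ζ => sg lab sn ζ c) = 0 := by
    intro c
    apply c8 {lab c}
    intro ζ
    exact hsgf c ζ
  -- `Ex (sg c * sg c') = 0`
  have htwo : ∀ c c', lab c' ≠ lab c → Ex (fun ζ => sg lab sn ζ c * sg lab sn ζ c') = 0 := by
    intro c c' h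
    apply c8 {lab c}
    intro ζ
    rw [hsgf c ζ, hsgn c c' ζ h]
    ring
  have hA : ∀ c j, c ≠ r → (∀ w ∈ B, par w ≠ c) →
      Ex (fun ζ => sg lab sn ζ c * NN par r (sg lab sn ζ) j c) = 0 := by
    intro c j hc hB
    apply c8 {lab c}
    intro ζ
    have e1 : NN par r (sg lab sn (flipS {lab c} ζ)) j c = NN par r (sg lab sn ζ) j c := by
      apply f3
      intro w hw
      obtain ⟨hwr, hd, _⟩ := f1 c w hw
      apply hsgn
      intro he
      obtain ⟨hwB, hwp⟩ := own hRT hL hc hwr hd he
      exact hB w hwB hwp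
    rw [e1, hsgf]
    ring
  refine ⟨?_, ?_, ?_, ?_, ?_⟩
  · -- (1)
    intro v c hc c' hc' hne i j
    have hcv := mem_ch.mp hc
    have hcv' := mem_ch.mp hc'
    have hD : ∀ w, w ≠ r → (lab w ∈ (ch par r c).image lab ↔ w ∈ ch par r c) := by
      intro w hw
      constructor
      · intro h
        rw [mem_image] at h
        obtain ⟨a, ha, hl⟩ := h
        have ha' := mem_ch.mp ha
        rcases hL.inj a w ha'.1 hw hl with h | h | ⟨haB, h⟩ | ⟨hwB, h⟩
        · rw [h]; exact ha
        · rw [mem_ch]
          refine ⟨hw, ?_⟩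
          rw [h, hL.pr.hpar a ha'.1]; exact ha'.2
        · exfalso
          have h4 := (hL.Bc a haB).2.2.1
          rw [ha'.2, hcv.2] at h4
          rw [h4, mem_singleton] at hc'
          exact hne hc'.symm
        · exfalso
          have h4 := (hL.Bc w hwB).2.2.2
          rw [← h, ha'.2, hcv.2] at h4
          rw [h4, mem_singleton] at hc'
          exact hne hc'.symm
      · intro h; exact mem_image_of_mem lab h
    have hsg : ∀ ζ w, w ≠ r → w ∉ ch par r c →
        sg lab sn (flipS ((ch par r c).image lab) ζ) w = sg lab sn ζ w := by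
      intro ζ w hw hwc
      rw [l2, if_neg (fun h => hwc ((hD w hw).mp h))]
    have hsg' : ∀ ζ w, w ∈ ch par r c →
        sg lab sn (flipS ((ch par r c).image lab) ζ) w = - sg lab sn ζ w := by
      intro ζ w hwc
      rw [l2, if_pos (mem_image_of_mem lab hwc)]
    have hcc : c ∉ ch par r c := fun h => hpc c hcv.1 (mem_ch.mp h).2
    have hcc' : c' ∉ ch par r c := by
      intro h
      have h5 := (mem_ch.mp h).2
      rw [hcv'.2] at h5
      apply hpc c hcv.1
      rw [hcv.2, h5]
    apply c8 ((ch par r c).image lab)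
    intro ζ
    have e1 : NN par r (sg lab sn (flipS ((ch par r c).image lab) ζ)) j c' =
        NN par r (sg lab sn ζ) j c' := by
      apply f3
      intro w hw
      apply hsg ζ w (f1 c' w hw).1
      intro hwc
      exact f2 v c c' w hc hc' hne (Relation.ReflTransGen.single hwc) hw.to_reflTransGen
    have e2 : NN par r (sg lab sn (flipS ((ch par r c).image lab) ζ)) (i + 1) c =
        - NN par r (sg lab sn ζ) (i + 1) c := by
      apply f4
      · intro w hw
        exact hsg' ζ w hw
      · intro w hw hwc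
        exact hsg ζ w (f1 c w hw).1 hwc
    rw [e1, e2, hsg ζ c hcv.1 hcc, hsg ζ c' hcv'.1 hcc']
    ring
  · -- (2)
    intro v c hc c' hc' hne
    have hcv := mem_ch.mp hc
    have hcv' := mem_ch.mp hc'
    by_cases hp : c' = π c
    · have e : (fun ζ => sg lab sn ζ c * sg lab sn ζ c') = fun _ => (-1 : ℝ) := by
        funext ζ
        rw [hp, (l1 ζ).2 c (fun h => hne (by rw [hp]; exact h.symm))]
        have := hsq c ζ
        linarith
      rw [e, c4]
      norm_num
    · apply le_of_eq
      apply htwo
      intro hl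
      rcases hL.inj c c' hcv.1 hcv'.1 hl.symm with h | h | ⟨_, h⟩ | ⟨_, h⟩
      · exact hne h.symm
      · exact hp h
      · rw [hcv.2, ← hcv'.2] at h
        exact hpc c' hcv'.1 h.symm
      · rw [hcv'.2, ← hcv.2] at h
        exact hpc c hcv.1 h.symm
  · -- (3)
    intro v m
    have e : (fun ζ => NN par r (sg lab sn ζ) (m + 3) v) = fun ζ =>
        ∑ c ∈ ch par r v, sg lab sn ζ c * NN par r (sg lab sn ζ) (m + 2) c := rfl
    rw [e, c2 V (ch par r v) (fun c ζ => sg lab sn ζ c * NN par r (sg lab sn ζ) (m + 2) c)]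
    apply sum_eq_zero
    intro c hc
    have hcv := mem_ch.mp hc
    by_cases hB : ∃ w ∈ B, par w = c
    · obtain ⟨w, hw, hwc⟩ := hB
      have hchc : ch par r c = {w} := by rw [← hwc]; exact (hL.Bc w hw).2.1
      have hwch : w ∈ ch par r c := by rw [hchc]; exact mem_singleton_self _
      have hse : ∀ ζ, sg lab sn ζ w = sg lab sn ζ c := by
        intro ζ
        have := (l5 ζ (par w) (mem_image_of_mem par hw)).2.2
        rw [hwc] at this
        exact this w hwch
      have e1 : (fun ζ => sg lab sn ζ c * NN par r (sg lab sn ζ) (m + 2) c) = fun ζ =>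
          ∑ x ∈ ch par r w, sg lab sn ζ x * NN par r (sg lab sn ζ) m x := by
        funext ζ
        have e2 : NN par r (sg lab sn ζ) (m + 2) c =
            ∑ x ∈ ch par r c, sg lab sn ζ x * NN par r (sg lab sn ζ) (m + 1) x := rfl
        have e3 : NN par r (sg lab sn ζ) (m + 1) w =
            ∑ x ∈ ch par r w, sg lab sn ζ x * NN par r (sg lab sn ζ) m x := rfl
        rw [e2, hchc, sum_singleton, hse ζ, ← mul_assoc, hsq c ζ, one_mul, e3]
      rw [e1, c2 V (ch par r w) (fun x ζ => sg lab sn ζ x * NN par r (sg lab sn ζ) m x)]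
      apply sum_eq_zero
      intro x hx
      have hx' := mem_ch.mp hx
      apply hA x m hx'.1
      intro w' hw' he
      apply (l7 w' hw').2
      rw [he, hx'.2]
      exact hw
    · apply hA c (m + 2) hcv.1
      intro w hw he
      exact hB ⟨w, hw, he⟩
  · -- (4)
    intro v
    rw [Ex_sub (fun ζ => s0 par r π (sg lab sn ζ) v) (fun ζ => ev r (sg lab sn ζ) v)]
    have e1 : Ex (fun ζ => s0 par r π (sg lab sn ζ) v) = 0 := by
      have e : (fun ζ => s0 par r π (sg lab sn ζ) v) = fun ζ =>
        ∑ c ∈ (ch par r v).filter (fun c => π c = c), sg lab sn ζ c := rfl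
      rw [e, c2 V ((ch par r v).filter (fun c => π c = c)) (fun c ζ => sg lab sn ζ c)]
      exact sum_eq_zero (fun c _ => hone c)
    have e2 : Ex (fun ζ => ev r (sg lab sn ζ) v) = 0 := by
      unfold ev
      by_cases hv : v = r
      · simp only [hv, if_true]
        exact c4 0
      · simp only [hv, if_false]
        exact hone v
    rw [e1, e2, sub_zero]
  · -- (5)
    intro v
    by_cases hv : v = r
    · have e : (fun ζ => s0 par r π (sg lab sn ζ) v * ev r (sg lab sn ζ) v -
          if v ∈ B.image par then (1 : ℝ) else 0) = fun _ => 0 := by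
        funext ζ
        have h4 : v ∉ B.image par := by
          intro h
          rw [mem_image] at h
          obtain ⟨w, hw, he⟩ := h
          exact (hL.Br w hw).2.1 (he.trans hv)
        rw [if_neg h4]
        unfold ev
        rw [if_pos hv]
        ring
      rw [e, c4]
    · by_cases hvB : v ∈ B.image par
      · have e : (fun ζ => s0 par r π (sg lab sn ζ) v * ev r (sg lab sn ζ) v -
            if v ∈ B.image par then (1 : ℝ) else 0) = fun _ => 0 := by
          funext ζ
          rw [if_pos hvB]
          have h5 := (l5 ζ v hvB).2.2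
          rw [mem_image] at hvB
          obtain ⟨w, hw, he⟩ := hvB
          have hch : ch par r v = {w} := by rw [← he]; exact (hL.Bc w hw).2.1
          have h6 := h5 w (by rw [hch]; exact mem_singleton_self _)
          unfold ev s0
          rw [if_neg hv, hch, filter_singleton, if_pos (l6 w hw).1, sum_singleton, h6, hsq]
          ring
        rw [e, c4]
      · have e : (fun ζ => s0 par r π (sg lab sn ζ) v * ev r (sg lab sn ζ) v -
            if v ∈ B.image par then (1 : ℝ) else 0) = fun ζ =>
            ∑ c ∈ (ch par r v).filter (fun c => π c = c), sg lab sn ζ c * sg lab sn ζ v := by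
          funext ζ
          rw [if_neg hvB]
          unfold ev s0
          rw [if_neg hv, sum_mul, sub_zero]
        rw [e, c2 V ((ch par r v).filter (fun c => π c = c))
          (fun c ζ => sg lab sn ζ c * sg lab sn ζ v)]
        apply sum_eq_zero
        intro c hc
        rw [mem_filter] at hc
        have hcv := mem_ch.mp hc.1
        apply htwo
        intro hl
        have hd : dep v < dep c := by
          have := hRT.step c hcv.1
          rw [hcv.2] at this
          omega
        obtain ⟨hcB, _⟩ := own hRT hL hv hcv.1 hd hl.symm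
        exact hvB (mem_image.mpr ⟨c, hcB, hcv.2⟩)

end Pool.Agent.TFin
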