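import Pool.Agent.TFin.Targets

set_option autoImplicit false

/-!
# Large trees in tournaments (MP_d27362_co): the gain at one vertex for irregular kernels
-/

namespace Pool.Agent.TFin

open Finset
open Pool.Agent.TLT (av Krn Sop dl xx)

noncomputable section

namespace ONEA_

section Av

variable {W : Type} [Fintype W]

lemma av_nonneg {f : W → ℝ} (h : ∀ y, 0 ≤ f y) : 0 ≤ av f := by
  unfold av
  exact div_nonneg (Finset.sum_nonneg fun i _ => h i) (Nat.cast_nonneg _)

lemma av_mono {f g : W → ℝ} (h : ∀ y, f y ≤ g y) : av f ≤ av g := by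
  unfold av
  exact div_le_div_of_nonneg_right (Finset.sum_le_sum fun i _ => h i) (Nat.cast_nonneg _)

lemma av_mul (a : ℝ) (f : W → ℝ) : av (fun y => a * f y) = a * av f := by
  unfold av
  rw [← Finset.mul_sum, mul_div_assoc]

lemma av_div (f : W → ℝ) (a : ℝ) : av (fun y => f y / a) = av f / a := by
  have : (fun y => f y / a) = fun y => a⁻¹ * f y := by
    funext y
    rw [div_eq_inv_mul]
  rw [this, av_mul, div_eq_inv_mul]

lemma av_sub (f g : W → ℝ) : av (fun y => f y - g y) = av f - av g := by
  unfold av
  rw [Finset.sum_sub_distrib, sub_div]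

lemma av_const [Nonempty W] (a : ℝ) : av (fun _ : W => a) = a := by
  unfold av
  rw [Finset.sum_const, Finset.card_univ, nsmul_eq_mul]
  have : (Fintype.card W : ℝ) ≠ 0 := by
    exact_mod_cast Fintype.card_ne_zero
  field_simp

lemma av_zero {f : W → ℝ} [Nonempty W] (h : ∀ y, 0 ≤ f y) (h0 : av f = 0) : ∀ y, f y = 0 := by
  unfold av at h0
  have hc : (Fintype.card W : ℝ) ≠ 0 := by
    exact_mod_cast Fintype.card_ne_zero
  have hs : ∑ x, f x = 0 := by
    rcases div_eq_zero_iff.mp h0 with h1 | h1
    · exact h1
    · exact absurd h1 hc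
  intro y
  exact (Finset.sum_eq_zero_iff_of_nonneg (fun i _ => h i)).mp hs y (Finset.mem_univ y)

lemma n1_sub_one [Nonempty W] {f : W → ℝ} {p : ℝ} (hf : ∀ y, 0 ≤ f y) (h1 : av f = 1)
    (hp : 0 ≤ p) (hb : ∀ y, (1 - p) * f y ≤ 1) : n1 (fun y => f y - 1) ≤ 2 * p := by
  have hpt : ∀ y, |f y - 1| ≤ (2 * p) * f y - (f y - 1) := by
    intro y
    have h2 := hb y
    have h3 := hf y
    have h4 : 0 ≤ p * f y := mul_nonneg hp h3
    rw [abs_le]
    constructor
    · nlinarith
    · nlinarith
  have h2 : n1 (fun y => f y - 1) ≤ av fun y => (2 * p) * f y - (f y - 1) := by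
    unfold n1
    exact av_mono hpt
  have h3 : (av fun y => (2 * p) * f y - (f y - 1)) = 2 * p := by
    rw [av_sub (fun y => (2 * p) * f y) (fun y => f y - 1), av_mul, av_sub f (fun _ => 1),
      av_const, h1]
    ring
  linarith

end Av

lemma lam_le {t : ℝ} (ht : 0 ≤ t) : min (Real.log 2) (t ^ 2) ≤ 833 / 1000 * t := by
  by_cases h : t ≤ 833 / 1000
  · refine le_trans (min_le_right _ _) ?_
    nlinarith
  · push Not at h
    refine le_trans (min_le_left _ _) ?_
    have := Real.log_two_lt_d9
    nlinarith

lemma pair_exp {a a' t : ℝ} (h1 : |a| ≤ 1) (h2 : |a'| ≤ 1) (h3 : |a - a'| ≤ 2 * t) :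
    0 ≤ 1 - a * a' ∧ 1 - a * a' ≤ Real.exp (min (Real.log 2) (t ^ 2)) := by
  have h4 : |a * a'| ≤ 1 := by
    rw [abs_mul]
    exact mul_le_one₀ h1 (abs_nonneg _) h2
  rw [abs_le] at h4
  refine ⟨by linarith, ?_⟩
  rcases min_cases (Real.log 2) (t ^ 2) with ⟨h5, _⟩ | ⟨h5, _⟩
  · rw [h5, Real.exp_log (by norm_num)]
    linarith
  · rw [h5]
    have h6 : t ^ 2 + 1 ≤ Real.exp (t ^ 2) := Real.add_one_le_exp _
    have h7 : (a - a') ^ 2 ≤ (2 * t) ^ 2 := sq_le_sq' (by
      have := (abs_le.mp h3).1
      linarith) (abs_le.mp h3).2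
    nlinarith [sq_nonneg (a + a')]

lemma pair_low {a a' b p p' : ℝ} (hb : |b| ≤ 1) (h1 : |a - b| ≤ 2 * p) (h2 : |a' - b| ≤ 2 * p')
    (hp : 0 ≤ p) (hp' : 0 ≤ p') (hp1 : p ≤ 1) (hp1' : p' ≤ 1) :
    b ^ 2 - 4 * (p + p') ≤ a * a' := by
  set e := a - b with he
  set e' := a' - b with he'
  have ha : a = b + e := by rw [he]; ring
  have ha' : a' = b + e' := by rw [he']; ring
  have h3 : |b * e| ≤ 2 * p := by
    rw [abs_mul]
    calc |b| * |e| ≤ 1 * (2 * p) := mul_le_mul hb h1 (abs_nonneg _) (by norm_num)
      _ = 2 * p := by ring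
  have h4 : |b * e'| ≤ 2 * p' := by
    rw [abs_mul]
    calc |b| * |e'| ≤ 1 * (2 * p') := mul_le_mul hb h2 (abs_nonneg _) (by norm_num)
      _ = 2 * p' := by ring
  have h5 : |e * e'| ≤ (2 * p) * (2 * p') := by
    rw [abs_mul]
    exact mul_le_mul h1 h2 (abs_nonneg _) (by linarith)
  have h6 : (2 * p) * (2 * p') ≤ 2 * (p + p') := by
    nlinarith [mul_nonneg hp (sub_nonneg.mpr hp1'), mul_nonneg hp' (sub_nonneg.mpr hp1)]
  rw [ha, ha']
  have h7 := (abs_le.mp h3).1
  have h8 := (abs_le.mp h4).1
  have h9 := (abs_le.mp h5).1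
  nlinarith

end ONEA_

open ONEA_ in
theorem p_ONEA (hBAN : T_BAN) : T_ONEA := by
  intro V W _ _ _ K Q O π g Γ p gv hK hπQ hπi hdis hg hgp hgv
  obtain ⟨-, -, -, -, -, -, -, -, -, -, -, -, -, hKK⟩ := hBAN W
  obtain ⟨hS1, -, -, -, -, -, hdl1, -, -, -, -, hx0, -, -, -⟩ := hKK K hK
  classical
  set S : Finset V := Q ∪ Q.image π ∪ O with hSdef
  have hQS : ∀ c ∈ Q, c ∈ S := fun c hc =>
    Finset.mem_union_left _ (Finset.mem_union_left _ hc)
  have hPS : ∀ c ∈ Q, π c ∈ S := fun c hc =>
    Finset.mem_union_left _ (Finset.mem_union_right _ (Finset.mem_image_of_mem π hc))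
  have hOS : ∀ c ∈ O, c ∈ S := fun c hc => Finset.mem_union_right _ hc
  have hQP : Disjoint Q (Q.image π) := by
    rw [Finset.disjoint_left]
    intro a ha hb
    obtain ⟨c, hc, rfl⟩ := Finset.mem_image.mp hb
    exact hπQ c hc ha
  have hz0 : ∀ c ∈ S, 0 ≤ av (g c) := fun c hc => av_nonneg (hg c hc).1
  -- the trivial case
  by_cases hex : ∃ c ∈ S, av (g c) = 0
  · obtain ⟨c, hcS, hc0⟩ := hex
    have hgc : ∀ y, g c y = 0 := av_zero (hg c hcS).1 hc0
    have hgc' : g c = 0 := by
      funext y
      exact hgc y
    have hzero : ∀ y, gv y = 0 := by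
      intro y
      rw [hgv y]
      rcases Finset.mem_union.mp hcS with h1 | h1
      · rcases Finset.mem_union.mp h1 with h2 | h2
        · have : ∏ c ∈ Q, (av (g c) * av (g (π c)) - Sop K (g c) y * Sop K (g (π c)) y) = 0 := by
            apply Finset.prod_eq_zero h2
            rw [hc0, hgc', map_zero]
            simp
          rw [this, zero_mul]
        · obtain ⟨c', hc', hcc⟩ := Finset.mem_image.mp h2
          have : ∏ c ∈ Q, (av (g c) * av (g (π c)) - Sop K (g c) y * Sop K (g (π c)) y) = 0 := by
            apply Finset.prod_eq_zero hc'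
            rw [hcc, hc0, hgc', map_zero]
            simp
          rw [this, zero_mul]
      · rw [Finset.prod_eq_zero h1 hc0, mul_zero]
    have havz : av gv = 0 := by
      have : gv = fun _ => (0 : ℝ) := funext hzero
      rw [this, av_const]
    refine ⟨fun y => (hzero y).ge, 1, by norm_num, le_refl _, fun y => ?_, ?_⟩
    · rw [havz]
      simp
    · rw [havz]
      exact (Real.exp_pos _).le
  · push Not at hex
    have hzp : ∀ c ∈ S, 0 < av (g c) := fun c hc => lt_of_le_of_ne (hz0 c hc) (hex c hc).symm
    set f : V → W → ℝ := fun c y => g c y / av (g c) with hf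
    have hf0 : ∀ c ∈ S, ∀ y, 0 ≤ f c y := fun c hc y => div_nonneg ((hg c hc).1 y) (hz0 c hc)
    have hf1 : ∀ c ∈ S, av (f c) = 1 := by
      intro c hc
      rw [hf]
      simp only
      rw [av_div (g c) (av (g c))]
      exact div_self (hzp c hc).ne'
    set a : V → W → ℝ := fun c y => Sop K (f c) y with ha
    have hag : ∀ c ∈ S, ∀ y, Sop K (g c) y = av (g c) * a c y := by
      intro c hc y
      have h1 : g c = av (g c) • f c := by
        funext y
        rw [Pi.smul_apply, smul_eq_mul, hf]
        simp only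
        field_simp [(hzp c hc).ne']
      have h2 : Sop K (g c) = av (g c) • Sop K (f c) := by
        conv_lhs => rw [h1]
        rw [map_smul]
      rw [h2, ha]
      rfl
    have ha1 : ∀ c ∈ S, ∀ y, |a c y| ≤ 1 := by
      intro c hc y
      have h1 := hS1 (f c) y
      have h2 : n1 (f c) = 1 := by
        unfold n1
        have : (fun y => |f c y|) = f c := by
          funext y
          exact abs_of_nonneg (hf0 c hc y)
        rw [this]
        exact hf1 c hc
      rw [h2] at h1
      exact h1
    have hab : ∀ c ∈ Q ∪ Q.image π, ∀ y, |a c y - dl K y| ≤ 2 * p c := by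
      intro c hc y
      have hcS : c ∈ S := Finset.mem_union_left _ hc
      have h1 : n1 (fun y => f c y - 1) ≤ 2 * p c := by
        apply n1_sub_one (hf0 c hcS) (hf1 c hcS) (hg c hcS).2.1
        intro y
        rw [hf]
        simp only
        rw [← mul_div_assoc, div_le_one (hzp c hcS)]
        exact hgp c hc y
      have h2 : a c y - dl K y = Sop K (fun y => f c y - 1) y := by
        have h3 : (fun y => f c y - 1) = f c - fun _ => 1 := rfl
        rw [h3, map_sub, Pi.sub_apply]
        rfl
      rw [h2]
      exact le_trans (hS1 _ y) h1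
    have hp0 : ∀ c ∈ S, 0 ≤ p c := fun c hc => (hg c hc).2.1
    have hp1 : ∀ c ∈ S, p c ≤ 1 := fun c hc => (hg c hc).2.2.1
    set lam : V → ℝ := fun c => min (Real.log 2) ((p c + p (π c)) ^ 2) with hlam
    have hlam0 : ∀ c, 0 ≤ lam c := fun c => le_min (Real.log_nonneg (by norm_num)) (sq_nonneg _)
    set u : V → W → ℝ := fun c y => 1 - a c y * a (π c) y with hu
    have hpair : ∀ c ∈ Q, ∀ y, 0 ≤ u c y ∧ u c y ≤ Real.exp (lam c) := by
      intro c hc y
      apply pair_exp (ha1 c (hQS c hc) y) (ha1 (π c) (hPS c hc) y)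
      have h1 := hab c (Finset.mem_union_left _ hc) y
      have h2 := hab (π c) (Finset.mem_union_right _ (Finset.mem_image_of_mem π hc)) y
      have h3 : a c y - a (π c) y = (a c y - dl K y) - (a (π c) y - dl K y) := by ring
      rw [h3]
      refine le_trans (abs_sub _ _) ?_
      linarith
    set F : W → ℝ := fun y => ∏ c ∈ Q, u c y with hF
    set Lam : ℝ := ∑ c ∈ Q, lam c with hLam
    have hF0 : ∀ y, 0 ≤ F y := fun y => Finset.prod_nonneg fun c hc => (hpair c hc y).1
    have hFL : ∀ y, F y ≤ Real.exp Lam := by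
      intro y
      rw [hLam, Real.exp_sum]
      exact Finset.prod_le_prod (fun c hc => (hpair c hc y).1) fun c hc => (hpair c hc y).2
    set Z : ℝ := av F with hZ
    have hZ0 : 0 ≤ Z := av_nonneg hF0
    have hZL : Z ≤ Real.exp Lam := by
      have h1 : av F ≤ av fun _ : W => Real.exp Lam := av_mono hFL
      rw [av_const] at h1
      exact h1
    -- the product formula
    set z : V → ℝ := fun c => av (g c) with hz
    have hprodS : ∀ q : V → ℝ, ∏ c ∈ S, q c = (∏ c ∈ Q, q c * q (π c)) * ∏ c ∈ O, q c := by
      intro q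
      rw [hSdef, Finset.prod_union hdis.symm, Finset.prod_union hQP, Finset.prod_mul_distrib,
        Finset.prod_image (fun x hx y hy h => hπi x hx y hy h)]
    have hsumS : ∀ q : V → ℝ, ∑ c ∈ S, q c = (∑ c ∈ Q, (q c + q (π c))) + ∑ c ∈ O, q c := by
      intro q
      rw [hSdef, Finset.sum_union hdis.symm, Finset.sum_union hQP, Finset.sum_add_distrib,
        Finset.sum_image (fun x hx y hy h => hπi x hx y hy h)]
    set Pz : ℝ := ∏ c ∈ S, z c with hPz
    have hPz0 : 0 ≤ Pz := Finset.prod_nonneg fun c hc => hz0 c hc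
    have hgvF : ∀ y, gv y = Pz * F y := by
      intro y
      rw [hgv y, hPz, hprodS z, hF]
      simp only
      have h1 : ∏ c ∈ Q, (av (g c) * av (g (π c)) - Sop K (g c) y * Sop K (g (π c)) y) =
          (∏ c ∈ Q, z c * z (π c)) * ∏ c ∈ Q, u c y := by
        rw [← Finset.prod_mul_distrib]
        apply Finset.prod_congr rfl
        intro c hc
        rw [hag c (hQS c hc) y, hag (π c) (hPS c hc) y]
        simp only [hz, hu]
        ring
      rw [h1]
      ring
    have havgv : av gv = Pz * Z := by
      have : gv = fun y => Pz * F y := funext hgvF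
      rw [this, av_mul]
    have hgv0 : ∀ y, 0 ≤ gv y := by
      intro y
      rw [hgvF y]
      exact mul_nonneg hPz0 (hF0 y)
    set pv : ℝ := 1 - Z * Real.exp (-Lam) with hpv
    have hEL : Real.exp Lam * Real.exp (-Lam) = 1 := by
      rw [← Real.exp_add]
      simp
    have hZE : Z * Real.exp (-Lam) ≤ 1 := by
      rw [← hEL]
      exact mul_le_mul_of_nonneg_right hZL (Real.exp_pos _).le
    have hpv0 : 0 ≤ pv := by
      rw [hpv]
      linarith
    have hpv1 : pv ≤ 1 := by
      rw [hpv]
      have := mul_nonneg hZ0 (Real.exp_pos (-Lam)).le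
      linarith
    refine ⟨hgv0, pv, hpv0, hpv1, ?_, ?_⟩
    · intro y
      rw [havgv, hgvF y]
      have h1 : (1 - pv) * (Pz * F y) = Pz * (Z * (Real.exp (-Lam) * F y)) := by
        rw [hpv]
        ring
      rw [h1]
      apply mul_le_mul_of_nonneg_left _ hPz0
      have h2 : Real.exp (-Lam) * F y ≤ 1 := by
        rw [← hEL, mul_comm]
        exact mul_le_mul_of_nonneg_right (hFL y) (Real.exp_pos _).le
      calc Z * (Real.exp (-Lam) * F y) ≤ Z * 1 := mul_le_mul_of_nonneg_left h2 hZ0
        _ = Z := mul_one Z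
    · have h1 : Z = Real.exp Lam * (1 - pv) := by
        have h1 : Real.exp Lam * (1 - pv) = (Real.exp Lam * Real.exp (-Lam)) * Z := by
          rw [hpv]
          ring
        rw [h1, hEL, one_mul]
      have h2 : 1 - pv ≤ Real.exp (-pv) := by
        have := Real.add_one_le_exp (-pv)
        linarith
      have h3 : Pz ≤ Real.exp (∑ c ∈ S, (- Γ c - 9 / 10 * p c)) := by
        rw [Real.exp_sum, hPz]
        exact Finset.prod_le_prod (fun c hc => hz0 c hc) fun c hc => (hg c hc).2.2.2
      have h4 : av gv ≤ Real.exp (∑ c ∈ S, (- Γ c - 9 / 10 * p c)) *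
          (Real.exp Lam * Real.exp (-pv)) := by
        rw [havgv, h1]
        apply mul_le_mul h3
        · exact mul_le_mul_of_nonneg_left h2 (Real.exp_pos _).le
        · exact mul_nonneg (Real.exp_pos _).le (by linarith)
        · exact (Real.exp_pos _).le
      refine le_trans h4 ?_
      rw [← Real.exp_add, ← Real.exp_add]
      apply Real.exp_le_exp.mpr
      have h5 : ∑ c ∈ S, (- Γ c - 9 / 10 * p c) = -(∑ c ∈ S, Γ c) - 9 / 10 * ∑ c ∈ S, p c := by
        rw [Finset.sum_sub_distrib, Finset.sum_neg_distrib, Finset.mul_sum]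
      rw [h5]
      have h6 : Lam ≤ 833 / 1000 * ∑ c ∈ Q, (p c + p (π c)) := by
        rw [hLam, Finset.mul_sum]
        apply Finset.sum_le_sum
        intro c hc
        exact lam_le (add_nonneg (hp0 c (hQS c hc)) (hp0 (π c) (hPS c hc)))
      have h7 : ∑ c ∈ Q, (p c + p (π c)) ≤ ∑ c ∈ S, p c := by
        rw [hsumS p]
        have : 0 ≤ ∑ c ∈ O, p c := Finset.sum_nonneg fun c hc => hp0 c (hOS c hc)
        linarith
      have h8 : (if Q.Nonempty then xx K / 60 else 0) ≤
          1 / 10 * pv + 67 / 1000 * ∑ c ∈ Q, (p c + p (π c)) := by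
        split_ifs with hQ
        · obtain ⟨c, hc⟩ := hQ
          have hs : p c + p (π c) ≤ ∑ c ∈ Q, (p c + p (π c)) :=
            Finset.single_le_sum (f := fun c => p c + p (π c))
              (fun c hc => add_nonneg (hp0 c (hQS c hc)) (hp0 (π c) (hPS c hc))) hc
          have hFc : ∀ y, F y ≤ Real.exp (Lam - lam c) * u c y := by
            intro y
            have e1 : F y = (∏ c' ∈ Q.erase c, u c' y) * u c y := by
              rw [hF]
              simp only
              rw [Finset.prod_erase_mul _ _ hc]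
            have e2 : Lam - lam c = ∑ c' ∈ Q.erase c, lam c' := by
              rw [hLam, ← Finset.sum_erase_add _ _ hc]
              ring
            rw [e1, e2, Real.exp_sum]
            apply mul_le_mul_of_nonneg_right _ (hpair c hc y).1
            apply Finset.prod_le_prod
            · intro c' hc'
              exact (hpair c' (Finset.mem_of_mem_erase hc') y).1
            · intro c' hc'
              exact (hpair c' (Finset.mem_of_mem_erase hc') y).2
          have hZc : Z ≤ Real.exp (Lam - lam c) * av (u c) := by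
            have e1 : av F ≤ av fun y => Real.exp (Lam - lam c) * u c y := av_mono hFc
            rw [av_mul] at e1
            exact e1
          have hu0 : 0 ≤ av (u c) := av_nonneg fun y => (hpair c hc y).1
          have hpvl : 1 - av (u c) ≤ pv := by
            rw [hpv]
            have e1 : Z * Real.exp (-Lam) ≤ av (u c) := by
              calc Z * Real.exp (-Lam)
                  ≤ (Real.exp (Lam - lam c) * av (u c)) * Real.exp (-Lam) :=
                    mul_le_mul_of_nonneg_right hZc (Real.exp_pos _).le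
                _ = Real.exp (-lam c) * av (u c) := by
                    have : Real.exp (Lam - lam c) * Real.exp (-Lam) = Real.exp (-lam c) := by
                      rw [← Real.exp_add]
                      ring_nf
                    rw [mul_right_comm, this]
                _ ≤ 1 * av (u c) := by
                    apply mul_le_mul_of_nonneg_right _ hu0
                    rw [← Real.exp_zero]
                    exact Real.exp_le_exp.mpr (by linarith [hlam0 c])
                _ = av (u c) := one_mul _
            linarith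
          have hlow : xx K - 4 * (p c + p (π c)) ≤ 1 - av (u c) := by
            have e1 : 1 - av (u c) = av fun y => a c y * a (π c) y := by
              have : (fun y => a c y * a (π c) y) = fun y => (fun _ => (1 : ℝ)) y - u c y := by
                funext y
                simp only [hu]
                ring
              rw [this, av_sub (fun _ => (1 : ℝ)) (u c), av_const]
            have e2 : xx K - 4 * (p c + p (π c)) =
                av fun y => dl K y ^ 2 - 4 * (p c + p (π c)) := by
              rw [av_sub (fun y => dl K y ^ 2) (fun _ => 4 * (p c + p (π c))), av_const]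
              rfl
            rw [e1, e2]
            apply av_mono
            intro y
            exact pair_low (hdl1 y) (hab c (Finset.mem_union_left _ hc) y)
              (hab (π c) (Finset.mem_union_right _ (Finset.mem_image_of_mem π hc)) y)
              (hp0 c (hQS c hc)) (hp0 (π c) (hPS c hc)) (hp1 c (hQS c hc))
              (hp1 (π c) (hPS c hc))
          have hsum0 : 0 ≤ p c + p (π c) :=
            add_nonneg (hp0 c (hQS c hc)) (hp0 (π c) (hPS c hc))
          linarith
        · have : 0 ≤ ∑ c ∈ Q, (p c + p (π c)) := Finset.sum_nonneg fun c hc =>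
            add_nonneg (hp0 c (hQS c hc)) (hp0 (π c) (hPS c hc))
          linarith
      linarith

end

end Pool.Agent.TFin
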