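import Pool.Agent.TFin.Targets

set_option autoImplicit false

namespace Pool.Agent.TFin

open Finset
open Pool.Agent.TLT (av Krn Sop dl xx)

noncomputable section

namespace PA_

lemma abs_log_le {a x b : ℝ} (ha : 0 < a) (h1 : a ≤ x) (h2 : x ≤ b) :
    |Real.log x| ≤ max |Real.log a| |Real.log b| := by
  have hx : 0 < x := lt_of_lt_of_le ha h1
  have e1 := Real.log_le_log ha h1
  have e2 := Real.log_le_log hx h2
  rw [abs_le]
  constructor
  · have h3 := neg_abs_le (Real.log a)
    have h4 := le_max_left |Real.log a| |Real.log b|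
    linarith
  · have h3 := le_abs_self (Real.log b)
    have h4 := le_max_right |Real.log a| |Real.log b|
    linarith

lemma count_le {V T : Type} [DecidableEq V] [DecidableEq T] (R : Finset V) (f g : V → T) (t : T) :
    (R.filter fun v => f v = t).card ≤
      (R.filter fun v => g v = t).card + (R.filter fun v => f v ≠ g v).card := by
  refine le_trans (card_le_card ?_) (card_union_le _ _)
  intro v hv
  rw [mem_filter] at hv
  rw [mem_union, mem_filter, mem_filter]
  by_cases h : f v = g v
  · left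
    exact ⟨hv.1, h ▸ hv.2⟩
  · right
    exact ⟨hv.1, h⟩

lemma count_abs {V T : Type} [DecidableEq V] [DecidableEq T] (R : Finset V) (f g : V → T) (t : T)
    (h : (R.filter fun v => f v ≠ g v).card ≤ 2) :
    |(((R.filter fun v => f v = t).card : ℕ) : ℝ) - ((R.filter fun v => g v = t).card : ℕ)| ≤
      2 := by
  have h1 := count_le R f g t
  have h2 := count_le R g f t
  have h3 : (R.filter fun v => g v ≠ f v).card ≤ 2 := by
    have e : (R.filter fun v => g v ≠ f v) = R.filter fun v => f v ≠ g v := by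
      apply filter_congr
      intro v _
      exact ne_comm
    rw [e]
    exact h
  have h4 : (((R.filter fun v => f v = t).card : ℕ) : ℝ) ≤
      ((R.filter fun v => g v = t).card : ℕ) + 2 := by
    have : (R.filter fun v => f v = t).card ≤ (R.filter fun v => g v = t).card + 2 := by omega
    exact_mod_cast this
  have h5 : (((R.filter fun v => g v = t).card : ℕ) : ℝ) ≤
      ((R.filter fun v => f v = t).card : ℕ) + 2 := by
    have : (R.filter fun v => g v = t).card ≤ (R.filter fun v => f v = t).card + 2 := by omega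
    exact_mod_cast this
  rw [abs_le]
  constructor <;> linarith

lemma sum_types {V T : Type} [DecidableEq V] [Fintype T] [DecidableEq T] (R : Finset V)
    (f : V → T) (φ : T → ℝ) :
    ∑ v ∈ R, φ (f v) = ∑ t, φ t * ((R.filter fun v => f v = t).card : ℕ) := by
  rw [← sum_fiberwise R f (fun v => φ (f v))]
  apply sum_congr rfl
  intro t _
  rw [sum_congr rfl (g := fun _ => φ t)]
  · rw [sum_const, nsmul_eq_mul, mul_comm]
  · intro v hv
    rw [(mem_filter.1 hv).2]

end PA_

open PA_ in
theorem p_PA (h1 : T_CUTA) (h2 : T_PRODA) (h3 : T_EXV) (h4 : T_TYP) (h5 : T_JEN) (h6 : T_INDP)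
    (h7 : T_GAIN) (h8 : T_ES) (h9 : T_CUBE) (h10 : T_LAYF) : T_PA := by
  intro κ cs d₀ hcs hd₀
  set d1 : ℝ := min d₀ 1 with hd1
  have hd1p : 0 < d1 := lt_min hd₀ one_pos
  have hd1o : d1 ≤ 1 := min_le_right _ _
  set dc : ℝ := d1 * cs with hdc
  have hdcp : 0 < dc := mul_pos hd1p hcs
  obtain ⟨S, K₀, hcut⟩ := h1 κ (dc / 1000) (by positivity)
  obtain ⟨T, _, _, M, hM1, htyp⟩ := h4 S K₀
  set a0 : ℝ := Real.exp (-((K₀ + 1 : ℝ) ^ (S + 1))) with ha0
  have ha0p : 0 < a0 := Real.exp_pos _
  set Lc : ℝ := max |Real.log a0| |Real.log (M + a0)| + 1 with hLc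
  have hLcp : 0 < Lc := by
    have := le_max_left |Real.log a0| |Real.log (M + a0)|
    have := abs_nonneg (Real.log a0)
    linarith
  set Q : ℝ := 2000 * Lc * Fintype.card T / dc with hQ
  have hQ0 : 0 ≤ Q := by positivity
  obtain ⟨N, hN⟩ := exists_nat_ge (Q ^ 2 + 200 / dc + 1)
  refine ⟨N, ?_⟩
  intro V _ _ par dep r π lab sn B hRT hTame hLay hNV hcsV
  set n : ℝ := ((Fintype.card V : ℕ) : ℝ) with hn
  have hNn : (N : ℝ) ≤ n := by
    rw [hn]
    exact Nat.cast_le.2 hNV
  have hdc200 : 0 < 200 / dc := by positivity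
  have hQ2 : Q ^ 2 ≤ n := by nlinarith [sq_nonneg Q]
  have hn1 : 1 ≤ n := by nlinarith [sq_nonneg Q]
  have hn200 : 200 / dc ≤ n := by nlinarith [sq_nonneg Q]
  have hn0 : 0 < n := by linarith
  have hdn : 200 ≤ dc * n := by
    rw [div_le_iff₀ hdcp] at hn200
    linarith
  obtain ⟨Cut, ρ, hrC, hCc, hK0, hρS, hρ⟩ := hcut V par dep r hRT hTame
  obtain ⟨ty, hty, hval⟩ := htyp V par dep r hRT Cut ρ hK0 hρS hρ lab sn hLay.sn1 hLay.two
  obtain ⟨lin, sumE, mono, constE, absE, -, -, -, avE, -⟩ := h9 V
  have hScal : ∀ (c : ℝ) (F : (V → Bool) → ℝ), Ex (fun ζ => c * F ζ) = c * Ex F := by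
    intro c F
    have := lin c 0 F F
    simpa using this
  obtain ⟨hSgn, -, -, -, -, -, -⟩ := h10 V par dep r π lab sn B hRT hLay
  set R : Finset V := insert r Cut with hR
  set Mt : T → (V → Bool) → ℝ := fun t ζ => ((R.filter fun v => ty v ζ = t).card : ℕ) with hMt
  have hES : ∀ t, Ex (fun ζ => |Mt t ζ - Ex (Mt t)|) ≤ 2 * Real.sqrt n := by
    intro t
    apply h8 V (Mt t) 2 (by norm_num)
    intro ζ l
    exact count_abs R (fun v => ty v (flipS {l} ζ)) (fun v => ty v ζ) t (hty ζ l)
  set den : ℝ := 1 / 100 * dc * n with hden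
  have hdenp : 0 < den := by positivity
  refine ⟨fun ζ => Lc / den * ∑ t, |Mt t ζ - Ex (Mt t)|, ?_, ?_, ?_⟩
  · intro ζ
    exact mul_nonneg (by positivity) (sum_nonneg fun t _ => abs_nonneg _)
  · rw [hScal, sumE]
    have e1 : ∑ t : T, Ex (fun ζ => |Mt t ζ - Ex (Mt t)|) ≤ Fintype.card T * (2 * Real.sqrt n) := by
      calc _ ≤ ∑ _t : T, 2 * Real.sqrt n := sum_le_sum fun t _ => hES t
        _ = _ := by rw [sum_const, nsmul_eq_mul, card_univ]
    have hs0 : 0 < Real.sqrt n := Real.sqrt_pos.2 hn0
    have hss : Real.sqrt n * Real.sqrt n = n := Real.mul_self_sqrt hn0.le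
    have hQs : Q ≤ Real.sqrt n := Real.le_sqrt_of_sq_le hQ2
    have hQd : Q * dc = 2000 * Lc * Fintype.card T := by
      rw [hQ]; field_simp
    calc Lc / den * ∑ t : T, Ex (fun ζ => |Mt t ζ - Ex (Mt t)|)
        ≤ Lc / den * (Fintype.card T * (2 * Real.sqrt n)) :=
          mul_le_mul_of_nonneg_left e1 (by positivity)
      _ ≤ 1 / 10 := by
          rw [div_mul_eq_mul_div, div_le_iff₀ hdenp, hden]
          have e2 : Q * dc * Real.sqrt n ≤ Real.sqrt n * dc * Real.sqrt n := by
            have := mul_le_mul_of_nonneg_right hQs (mul_nonneg hdcp.le hs0.le)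
            nlinarith
          rw [hQd] at e2
          have e3 : Real.sqrt n * dc * Real.sqrt n = dc * n := by
            rw [mul_right_comm, hss, mul_comm]
          rw [e3] at e2
          nlinarith
  · intro ζ hD W _ _ K hK hxx F hF
    have hxd : d1 ≤ xx K := le_trans (min_le_left _ _) hxx
    obtain ⟨val, hv01, hvG⟩ := hval W K hK
    obtain ⟨hexF, hexg⟩ := h3 V par dep r hRT W K Cut
    choose G hG using fun ζ => hexF (sg lab sn ζ)
    obtain ⟨g, hg⟩ := hexg π lab sn B hLay
    obtain ⟨Γ, hΓ0, hg0, hgΓ, hΓb, hΓs⟩ := h7 V par dep r π lab sn B hRT hLay Cut hrC W K hK g hg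
    have hΓb' := hΓb K₀ ρ hK0 hρ
    have hInd := h6 V par dep r π lab sn B hRT hLay Cut hrC W K hK G hG g hg
    have hP := h2 V par dep r hRT Cut hrC (sg lab sn ζ) (hSgn ζ).1 W K hK F (G ζ) hF (hG ζ)
    -- basic facts on the values
    have hvG' : ∀ ζ v, av (G ζ v) = val (ty v ζ) := fun ζ v => hvG ζ (G ζ) (hG ζ) v
    have hExav : ∀ v, Ex (fun ζ => av (G ζ v)) = av (g v) := by
      intro v
      rw [avE W (fun ζ => G ζ v)]
      congr 1
      funext y
      exact hInd v y
    have hlog : ∀ t, |Real.log (val t + a0)| ≤ Lc := by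
      intro t
      have := abs_log_le (a := a0) (x := val t + a0) (b := M + a0) ha0p
        (by linarith [(hv01 t).1]) (by linarith [(hv01 t).2])
      linarith
    -- the sum over the roots
    have hsum : ∀ ζ, ∑ v ∈ R, Real.log (av (G ζ v) + a0) =
        ∑ t, Real.log (val t + a0) * Mt t ζ := by
      intro ζ
      rw [← sum_types R (fun v => ty v ζ) (fun t => Real.log (val t + a0))]
      apply sum_congr rfl
      intro v _
      rw [hvG']
    have hEsum : ∑ t, Real.log (val t + a0) * Ex (Mt t) ≤ ∑ v ∈ R, Real.log (av (g v) + a0) := by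
      have e1 : ∑ t, Real.log (val t + a0) * Ex (Mt t) =
          ∑ v ∈ R, Ex (fun ζ => Real.log (av (G ζ v) + a0)) := by
        rw [← sumE V R (fun v ζ => Real.log (av (G ζ v) + a0))]
        have e2 : (fun ζ => ∑ v ∈ R, Real.log (av (G ζ v) + a0)) =
            fun ζ => ∑ t, Real.log (val t + a0) * Mt t ζ := funext hsum
        rw [e2, sumE]
        apply sum_congr rfl
        intro t _
        rw [hScal]
      rw [e1]
      apply sum_le_sum
      intro v _
      have := h5 V (fun ζ => av (G ζ v)) a0 ha0p (fun ζ => by rw [hvG']; exact (hv01 _).1)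
      rw [hExav] at this
      exact this
    have hdev : ∑ v ∈ R, Real.log (av (G ζ v) + a0) ≤
        ∑ v ∈ R, Real.log (av (g v) + a0) + den := by
      rw [hsum]
      have e1 : ∑ t, Real.log (val t + a0) * Mt t ζ ≤
          ∑ t, Real.log (val t + a0) * Ex (Mt t) + Lc * ∑ t, |Mt t ζ - Ex (Mt t)| := by
        rw [mul_sum, ← sum_add_distrib]
        apply sum_le_sum
        intro t _
        have e2 : Real.log (val t + a0) * (Mt t ζ - Ex (Mt t)) ≤ Lc * |Mt t ζ - Ex (Mt t)| := by
          calc _ ≤ |Real.log (val t + a0) * (Mt t ζ - Ex (Mt t))| := le_abs_self _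
            _ = |Real.log (val t + a0)| * |Mt t ζ - Ex (Mt t)| := abs_mul _ _
            _ ≤ _ := mul_le_mul_of_nonneg_right (hlog t) (abs_nonneg _)
        nlinarith
      have e3 : Lc * ∑ t, |Mt t ζ - Ex (Mt t)| ≤ den := by
        have e4 : Lc / den * ∑ t, |Mt t ζ - Ex (Mt t)| < 1 := hD
        rw [div_mul_eq_mul_div, div_lt_one hdenp] at e4
        exact e4.le
      linarith
    have hΓlog : ∀ v, Real.log (av (g v) + a0) ≤ 7 / 10 - Γ v := by
      intro v
      have e1 : a0 ≤ Real.exp (-Γ v) := by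
        rw [ha0]
        apply Real.exp_le_exp.2
        have e2 := hΓb' v
        have e3 : ((K₀ : ℝ) + 1) ^ (ρ v + 1) ≤ ((K₀ : ℝ) + 1) ^ (S + 1) := by
          apply pow_le_pow_right₀
          · have : (0 : ℝ) ≤ K₀ := Nat.cast_nonneg _
            linarith
          · have := hρS v
            omega
        linarith
      have e0 : 0 ≤ av (g v) := by
        rw [← hExav]
        have := mono (fun _ => 0) (fun ζ => av (G ζ v)) (fun ζ => by rw [hvG']; exact (hv01 _).1)
        rwa [constE] at this
      have e4 : av (g v) + a0 ≤ 2 * Real.exp (-Γ v) := by linarith [hgΓ v]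
      calc Real.log (av (g v) + a0) ≤ Real.log (2 * Real.exp (-Γ v)) :=
            Real.log_le_log (by linarith) e4
        _ = Real.log 2 - Γ v := by
            rw [Real.log_mul (by norm_num) (Real.exp_ne_zero _), Real.log_exp]
            ring
        _ ≤ _ := by
            have := Real.log_two_lt_d9
            linarith
    have hRc : (R.card : ℝ) ≤ Cut.card + 1 := by
      have := card_insert_le r Cut
      exact_mod_cast this
    -- gain
    have hgain : dc * n * (997 / 60000) ≤ ∑ v ∈ R, Γ v := by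
      refine le_trans ?_ hΓs
      have e1 : cs * n - 3 * (dc / 1000 * n) ≤
          (((univ.filter fun v => 2 ≤ (ch par r v).card).card : ℝ) + B.card - 3 * Cut.card) := by
        linarith
      have e2 : dc ≤ cs := by
        rw [hdc]
        nlinarith
      have e3 : 997 / 1000 * (cs * n) ≤ cs * n - 3 * (dc / 1000 * n) := by
        have := mul_le_mul_of_nonneg_right e2 hn0.le
        nlinarith
      have e4 : 0 ≤ 997 / 1000 * (cs * n) := by positivity
      calc dc * n * (997 / 60000) = d1 / 60 * (997 / 1000 * (cs * n)) := by rw [hdc]; ring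
        _ ≤ xx K / 60 * (997 / 1000 * (cs * n)) := by
            apply mul_le_mul_of_nonneg_right _ e4
            linarith
        _ ≤ _ := by
            apply mul_le_mul_of_nonneg_left (by linarith)
            have : 0 ≤ d1 := hd1p.le
            linarith
    have htot : ∑ v ∈ R, Real.log (av (g v) + a0) ≤
        7 / 10 * (dc / 1000 * n + 1) - dc * n * (997 / 60000) := by
      calc _ ≤ ∑ v ∈ R, (7 / 10 - Γ v) := sum_le_sum fun v _ => hΓlog v
        _ = R.card * (7 / 10) - ∑ v ∈ R, Γ v := by
            rw [sum_sub_distrib, sum_const, nsmul_eq_mul]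
        _ ≤ _ := by
            nlinarith
    have hprod : ∏ v ∈ R, av (G ζ v) ≤ Real.exp (∑ v ∈ R, Real.log (av (G ζ v) + a0)) := by
      rw [Real.exp_sum]
      apply prod_le_prod
      · intro v _
        rw [hvG']
        exact (hv01 _).1
      · intro v _
        rw [Real.exp_log]
        · linarith
        · rw [hvG']
          linarith [(hv01 (ty v ζ)).1]
    have h2pow : (2 : ℝ) ^ Cut.card ≤ Real.exp (7 / 10 * Cut.card) := by
      have e1 : (2 : ℝ) ≤ Real.exp (7 / 10) := by
        rw [← Real.exp_log (show (0 : ℝ) < 2 by norm_num)]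
        apply Real.exp_le_exp.2
        have := Real.log_two_lt_d9
        linarith
      calc (2 : ℝ) ^ Cut.card ≤ Real.exp (7 / 10) ^ Cut.card :=
            pow_le_pow_left₀ (by norm_num) e1 _
        _ = _ := by
            rw [← Real.exp_nat_mul]
            ring_nf
    calc av (F r) ≤ 2 ^ Cut.card * ∏ v ∈ R, av (G ζ v) := hP.2
      _ ≤ Real.exp (7 / 10 * Cut.card) * Real.exp (∑ v ∈ R, Real.log (av (G ζ v) + a0)) := by
          apply mul_le_mul h2pow hprod _ (Real.exp_pos _).le
          apply prod_nonneg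
          intro v _
          rw [hvG']
          exact (hv01 _).1
      _ = Real.exp (7 / 10 * Cut.card + ∑ v ∈ R, Real.log (av (G ζ v) + a0)) := by
          rw [Real.exp_add]
      _ ≤ 1 := by
          rw [← Real.exp_zero]
          apply Real.exp_le_exp.2
          have e5 : (Cut.card : ℝ) ≤ dc / 1000 * n := hCc
          rw [hden] at hdev
          nlinarith

end

end Pool.Agent.TFin
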