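import Pool.Agent.TFin.Targets

set_option autoImplicit false

namespace Pool.Agent.TFin

open Finset
open Pool.Agent.TLT (av Krn Sop dl xx)

noncomputable section

/-- PB: nearly regular kernels, deterministic assembly. -/
theorem p_PB (h1 : T_SUMB) (h2 : T_THS) (h3 : T_TH1) (h4 : T_BAN) : T_PB := by
  intro V _ _ par dep r hRT π hπ ε hε A hA τ cs k Kb hτ hτ1 hk hkK hcs hlow hR hU1 hU2 hSEC hPUR
    hbig W _ _ K hK hxx F hF
  have e1 := h1 V par dep r hRT π hπ ε hε W K hK τ k Kb hτ hτ1 hk hkK hxx F hF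
  have e2 := h2 V par dep r hRT ε hε.1 W K hK
  have e3 := h3 V par dep r hRT π hπ ε hε A hA W K hK k hk
  obtain ⟨-, -, -, -, -, -, -, -, -, -, -, -, -, hB⟩ := h4 W
  obtain ⟨-, -, -, -, -, -, -, -, -, -, -, hx0, -⟩ := hB K hK
  refine e1.trans ?_
  rw [← Real.exp_zero]
  apply Real.exp_le_exp.2
  rw [Finset.sum_sub_distrib] at e2
  have hn : (0 : ℝ) ≤ cs * Fintype.card V := by positivity
  set TH := ∑ v, Th K (ch par r v) ε (ev r ε v) (LL par r ε K) with hTH
  set PU := ∑ v, (av (fun y => (∏ c ∈ ch par r v, (1 + ε c * dl K y)) *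
    (1 - ev r ε v * dl K y)) - 1) with hPU
  set Q := ((univ.filter fun v => 2 ≤ (ch par r v).card).card : ℝ) + A.card with hQ
  set BG := 4 * ∑ v ∈ univ.filter (fun v => k < (ch par r v).card), ((ch par r v).card : ℝ)
    with hBG
  have key : TH + xx K * (3 ^ k * 20000 * τ * ∑ v, RR par r ε v + 12000 * Ups par r ε k +
      3 ^ k * (10 ^ 10 / τ ^ 2) * Ups par r ε Kb) ≤
      xx K * (SEC par r ε + (PUR par r π A ε k + BG - Q) +
      (3 ^ k * 20000 * τ * ∑ v, RR par r ε v + 12000 * Ups par r ε k +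
      3 ^ k * (10 ^ 10 / τ ^ 2) * Ups par r ε Kb)) := by
    have : TH ≤ xx K * SEC par r ε + xx K * (PUR par r π A ε k + BG - Q) := by linarith
    linarith
  refine key.trans (mul_nonpos_of_nonneg_of_nonpos hx0 ?_)
  have e8 : cs / 8 * (Fintype.card V : ℝ) = (cs * Fintype.card V) / 8 := by ring
  rw [e8] at hR hU1 hU2 hSEC hPUR hbig
  linarith

end

end Pool.Agent.TFin
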