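import Pool.Agent.TFin.Targets

set_option autoImplicit false

/-!
# Large trees in tournaments (MP_d27362_co): nearly regular kernels, random signs
-/

namespace Pool.Agent.TFin

open Finset
open Pool.Agent.TLT (av Krn Sop dl xx)

namespace PBR_

variable {V : Type} [Fintype V] [DecidableEq V]

lemma qq_nonneg (par : V → V) (r : V) (ε : V → ℝ) (v : V) : 0 ≤ qq par r ε v :=
  Finset.sum_nonneg fun i _ => by positivity

lemma RR_nonneg (par : V → V) (r : V) (ε : V → ℝ) (v : V) : 0 ≤ RR par r ε v := by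
  unfold RR
  have := qq_nonneg par r ε v
  have h2 : 0 ≤ ∑ c ∈ ch par r v, qq par r ε c := Finset.sum_nonneg fun c _ => qq_nonneg _ _ _ _
  positivity

lemma Ups_nonneg (par : V → V) (r : V) (ε : V → ℝ) (k : ℝ) (hk : 0 ≤ k) :
    0 ≤ Ups par r ε k := by
  unfold Ups
  refine Finset.sum_nonneg fun v hv => ?_
  have := (Finset.mem_filter.1 hv).2
  linarith

lemma SEC_nonneg (par : V → V) (r : V) (ε : V → ℝ) : 0 ≤ SEC par r ε := by
  unfold SEC
  have h1 : 0 ≤ ∑ i ∈ range (Fintype.card V), (5 / 7 : ℝ) ^ (i + 1) *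
      (|BB par r ε (i + 1) 0| + |MM par r ε (i + 3)|) :=
    Finset.sum_nonneg fun i _ => by positivity
  have h2 : 0 ≤ ∑ i ∈ range (Fintype.card V), ∑ j ∈ range (Fintype.card V),
      (5 / 7 : ℝ) ^ (i + j + 2) * |BB par r ε (i + 1) (j + 1)| :=
    Finset.sum_nonneg fun i _ => Finset.sum_nonneg fun j _ => by positivity
  positivity

lemma PUR_nonneg (par : V → V) (r : V) (π : V → V) (A : Finset V) (ε : V → ℝ) (k : ℕ) :
    0 ≤ PUR par r π A ε k := by
  unfold PUR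
  exact Finset.sum_nonneg fun m _ => by positivity

lemma mul_lt {a b c : ℝ} (ha : 0 < a) (h : a * b < 1) (hc : 1 ≤ a * c) : b ≤ c := by
  by_contra hcon
  push Not at hcon
  have := mul_lt_mul_of_pos_left hcon ha
  linarith

end PBR_

open PBR_ in
/-- nearly regular kernels, random signs -/
theorem p_PBR (h1 : T_PB) (h2 : T_CUBE) (h3 : T_LAYF) (h4 : T_MOM) (h5 : T_UIR) (h6 : T_SECR)
    (h7 : T_PURR) : T_PBR := by
  intro κ cs hcs
  obtain ⟨m0, hm0⟩ := exists_nat_ge (32 / cs)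
  obtain ⟨k0, hk0⟩ := h5 κ (cs / 9600000) (by positivity)
  set k : ℕ := max k0 (κ m0) + 1 with hk
  have hkk0 : k0 ≤ k := le_trans (le_max_left _ _) (Nat.le_succ _)
  have hkκ : κ m0 ≤ k := le_trans (le_max_right _ _) (Nat.le_succ _)
  have hk1 : 1 ≤ k := Nat.succ_le_succ (Nat.zero_le _)
  set τ : ℝ := min (1 / 1000000) (cs / (8 * 3 ^ k * 20000 * 5900)) with hτ
  have hτ0 : 0 < τ := lt_min (by norm_num) (by positivity)
  have hτ1 : τ ≤ 1 / 1000000 := min_le_left _ _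
  have hτ2 : τ ≤ cs / (8 * 3 ^ k * 20000 * 5900) := min_le_right _ _
  obtain ⟨k1, hk1'⟩ := h5 κ (cs * τ ^ 2 / (8 * 3 ^ k * 10 ^ 10 * 100)) (by positivity)
  set Kb : ℕ := max k k1 with hKb
  have hkKb : k ≤ Kb := le_max_left _ _
  have hKb1 : 1 ≤ Kb := le_trans hk1 hkKb
  have hKbR : (0 : ℝ) < Kb := by exact_mod_cast hKb1
  obtain ⟨N3, hN3⟩ := h6 κ (cs / 800) (by positivity)
  obtain ⟨N4, hN4⟩ := h7 k (cs / 800) (by positivity)
  refine ⟨τ ^ 2 / (10 ^ 8 * Kb), max N3 N4 + 1, by positivity, ?_⟩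
  intro V _ _ par dep r π lab sn B hRT htame hlay hN hcnt
  have hNc : 1 ≤ Fintype.card V := le_trans (Nat.succ_le_succ (Nat.zero_le _)) hN
  set n : ℝ := (Fintype.card V : ℝ) with hn
  have hn0 : 0 < n := by
    rw [hn]; exact_mod_cast hNc
  have e3 := hN3 V par dep r π lab sn B hRT htame hlay
    (le_trans (le_trans (le_max_left _ _) (Nat.le_succ _)) hN)
  have e4 := hN4 V par dep r π lab sn B hRT hlay
    (le_trans (le_trans (le_max_right _ _) (Nat.le_succ _)) hN)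
  have e1 := (h4 V par dep r π lab sn B hRT hlay).2
  have e2 := hk0 k hkk0 V par dep r π lab sn B hRT htame hlay
  have e5 := hk1' Kb (le_max_right _ _) V par dep r π lab sn B hRT htame hlay
  obtain ⟨hlin, -⟩ := h2 V
  set F1 : (V → Bool) → ℝ := fun ζ => ∑ v, RR par r (sg lab sn ζ) v with hF1
  set F2 : (V → Bool) → ℝ := fun ζ => Ups par r (sg lab sn ζ) k with hF2
  set F3 : (V → Bool) → ℝ := fun ζ => Ups par r (sg lab sn ζ) Kb with hF3
  set F4 : (V → Bool) → ℝ := fun ζ => SEC par r (sg lab sn ζ) with hF4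
  set F5 : (V → Bool) → ℝ := fun ζ => PUR par r π (B.image par) (sg lab sn ζ) k with hF5
  set a1 : ℝ := 1 / (5900 * n) with ha1
  set a2 : ℝ := 12000 / (cs / 8 * n) with ha2
  set a3 : ℝ := 3 ^ k * (10 ^ 10 / τ ^ 2) / (cs / 8 * n) with ha3
  set a4 : ℝ := 1 / (cs / 8 * n) with ha4
  have p1 : 0 < a1 := by positivity
  have p2 : 0 < a2 := by positivity
  have p3 : 0 < a3 := by positivity
  have p4 : 0 < a4 := by positivity
  have z1 : ∀ ζ, 0 ≤ a1 * F1 ζ := fun ζ =>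
    mul_nonneg p1.le (Finset.sum_nonneg fun v _ => RR_nonneg _ _ _ _)
  have z2 : ∀ ζ, 0 ≤ a2 * F2 ζ := fun ζ =>
    mul_nonneg p2.le (Ups_nonneg _ _ _ _ (Nat.cast_nonneg _))
  have z3 : ∀ ζ, 0 ≤ a3 * F3 ζ := fun ζ =>
    mul_nonneg p3.le (Ups_nonneg _ _ _ _ (Nat.cast_nonneg _))
  have z4 : ∀ ζ, 0 ≤ a4 * F4 ζ := fun ζ => mul_nonneg p4.le (SEC_nonneg _ _ _)
  have z5 : ∀ ζ, 0 ≤ a4 * F5 ζ := fun ζ => mul_nonneg p4.le (PUR_nonneg _ _ _ _ _ _)
  refine ⟨fun ζ => 1 * (a1 * F1 ζ + a2 * F2 ζ) + 1 * (1 * (a3 * F3 ζ + a4 * F4 ζ) + a4 * F5 ζ),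
    ?_, ?_, ?_⟩
  · intro ζ
    have := z1 ζ
    have := z2 ζ
    have := z3 ζ
    have := z4 ζ
    have := z5 ζ
    linarith
  · have l1 := hlin 1 1 (fun ζ => a1 * F1 ζ + a2 * F2 ζ)
      (fun ζ => 1 * (a3 * F3 ζ + a4 * F4 ζ) + a4 * F5 ζ)
    have l2 := hlin a1 a2 F1 F2
    have l3 := hlin 1 a4 (fun ζ => a3 * F3 ζ + a4 * F4 ζ) F5
    have l4 := hlin a3 a4 F3 F4
    rw [l1, l2, l3, l4]
    have b1 : a1 * Ex F1 ≤ 1 / 100 := by
      calc a1 * Ex F1 ≤ a1 * (59 * n) := mul_le_mul_of_nonneg_left e1 p1.le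
        _ = 1 / 100 := by rw [ha1]; field_simp; norm_num
    have b2 : a2 * Ex F2 ≤ 1 / 100 := by
      calc a2 * Ex F2 ≤ a2 * (cs / 9600000 * n) := mul_le_mul_of_nonneg_left e2 p2.le
        _ = 1 / 100 := by rw [ha2]; field_simp; norm_num
    have b3 : a3 * Ex F3 ≤ 1 / 100 := by
      calc a3 * Ex F3 ≤ a3 * (cs * τ ^ 2 / (8 * 3 ^ k * 10 ^ 10 * 100) * n) :=
            mul_le_mul_of_nonneg_left e5 p3.le
        _ = 1 / 100 := by rw [ha3]; field_simp
    have b4 : a4 * Ex F4 ≤ 1 / 100 := by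
      calc a4 * Ex F4 ≤ a4 * (cs / 800 * n) := mul_le_mul_of_nonneg_left e3 p4.le
        _ = 1 / 100 := by rw [ha4]; field_simp; norm_num
    have b5 : a4 * Ex F5 ≤ 1 / 100 := by
      calc a4 * Ex F5 ≤ a4 * (cs / 800 * n) := mul_le_mul_of_nonneg_left e4 p4.le
        _ = 1 / 100 := by rw [ha4]; field_simp; norm_num
    linarith
  · intro ζ hζ W _ _ K hK hx F hF
    have y1 := z1 ζ
    have y2 := z2 ζ
    have y3 := z3 ζ
    have y4 := z4 ζ
    have y5 := z5 ζ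
    have t1 : F1 ζ ≤ 5900 * n := mul_lt p1 (by linarith) (by rw [ha1]; field_simp; exact le_refl _)
    have t2 : a2 * F2 ζ < 1 := by linarith
    have t3 : a3 * F3 ζ < 1 := by linarith
    have t4 : F4 ζ ≤ cs / 8 * n := mul_lt p4 (by linarith) (by rw [ha4]; field_simp; exact le_refl _)
    have t5 : F5 ζ ≤ cs / 8 * n := mul_lt p4 (by linarith) (by rw [ha4]; field_simp; exact le_refl _)
    obtain ⟨hS, -, hc1, -, hA, -, -⟩ := h3 V par dep r π lab sn B hRT hlay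
    refine h1 V par dep r hRT π hlay.pr (sg lab sn ζ) (hS ζ) (B.image par) (hA ζ) τ cs k Kb hτ0
      hτ1 hk1 hkKb hcs ?_ ?_ ?_ ?_ ?_ ?_ ?_ W K hK ?_ F hF
    · rw [hc1]; exact hcnt
    · calc 3 ^ k * 20000 * τ * ∑ v, RR par r (sg lab sn ζ) v
          ≤ 3 ^ k * 20000 * τ * (5900 * n) := mul_le_mul_of_nonneg_left t1 (by positivity)
        _ ≤ 3 ^ k * 20000 * (cs / (8 * 3 ^ k * 20000 * 5900)) * (5900 * n) := by
            gcongr
        _ = cs / 8 * n := by field_simp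
    · have hpos : 0 < cs / 8 * n := by positivity
      have : a2 * F2 ζ = 12000 * F2 ζ / (cs / 8 * n) := by rw [ha2]; ring
      rw [this, div_lt_one hpos] at t2
      exact t2.le
    · have hpos : 0 < cs / 8 * n := by positivity
      have : a3 * F3 ζ = 3 ^ k * (10 ^ 10 / τ ^ 2) * F3 ζ / (cs / 8 * n) := by rw [ha3]; ring
      rw [this, div_lt_one hpos] at t3
      exact t3.le
    · exact t4
    · exact t5
    · have hT := htame m0
      have hsub : univ.filter (fun v => k < (ch par r v).card) ⊆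
          univ.filter (fun v => κ m0 ≤ (ch par r v).card) := by
        intro v hv
        simp only [Finset.mem_filter, Finset.mem_univ, true_and] at hv ⊢
        omega
      have h8 : ∑ v ∈ univ.filter (fun v => k < (ch par r v).card), ((ch par r v).card : ℝ) ≤
          ∑ v ∈ univ.filter (fun v => κ m0 ≤ (ch par r v).card), ((ch par r v).card : ℝ) :=
        Finset.sum_le_sum_of_subset_of_nonneg hsub fun _ _ _ => Nat.cast_nonneg _
      have h9 : (m0 : ℝ) * ∑ v ∈ univ.filter (fun v => κ m0 ≤ (ch par r v).card),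
          ((ch par r v).card : ℝ) ≤ n := by
        rw [hn]; exact_mod_cast hT
      set S1 := ∑ v ∈ univ.filter (fun v => κ m0 ≤ (ch par r v).card), ((ch par r v).card : ℝ)
      have h10 : 0 ≤ S1 := Finset.sum_nonneg fun _ _ => Nat.cast_nonneg _
      have h11 : 32 / cs * S1 ≤ n := le_trans (mul_le_mul_of_nonneg_right hm0 h10) h9
      have h12 : 32 * S1 ≤ cs * n := by
        rw [div_mul_eq_mul_div, div_le_iff₀ hcs] at h11
        linarith
      linarith
    · calc xx K * Kb ≤ τ ^ 2 / (10 ^ 8 * Kb) * Kb := mul_le_mul_of_nonneg_right hx hKbR.le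
        _ = τ ^ 2 / 10 ^ 8 := by field_simp

end Pool.Agent.TFin
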