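import Pool.Agent.TFin.Targets

/-!
# Large trees in tournaments (MP_d27362_co), target PL

Products over pairs.
-/

set_option autoImplicit false

namespace Pool.Agent.TFin

open Finset

namespace PL_

/-- `exp T ≤ 1 + T + T ^ 2` for `T ≤ 1` -/
theorem exp_le_quad {T : ℝ} (hT : T ≤ 1) : Real.exp T ≤ 1 + T + T ^ 2 := by
  by_cases h : -1 ≤ T
  · have := Real.abs_exp_sub_one_sub_id_le (abs_le.mpr ⟨h, hT⟩)
    have := (abs_le.mp this).2
    linarith
  · have h1 : Real.exp T ≤ 1 := Real.exp_le_one_iff.mpr (by linarith)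
    nlinarith

theorem exp_le_abs {T : ℝ} (hT : T ≤ 1) : Real.exp T ≤ 1 + T + |T| := by
  by_cases h : 0 ≤ T
  · have := exp_le_quad hT
    rw [abs_of_nonneg h]
    nlinarith
  · have h1 : Real.exp T ≤ 1 := Real.exp_le_one_iff.mpr (by linarith)
    rw [abs_of_neg (by linarith)]
    linarith

/-- `exp (t - t ^ 2) ≤ 1 + t` for `|t| ≤ 1 / 2` -/
theorem exp_sub_sq_le {t : ℝ} (h1 : -(1 / 2) ≤ t) (h2 : t ≤ 1 / 2) :
    Real.exp (t - t ^ 2) ≤ 1 + t := by
  by_cases h : 0 ≤ t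
  · have h3 := exp_le_quad (T := t - t ^ 2) (by nlinarith)
    have h4 : 0 ≤ t ^ 3 * (2 - t) := mul_nonneg (pow_nonneg h 3) (by linarith)
    nlinarith
  · obtain ⟨x, rfl⟩ : ∃ x, t = -x := ⟨-t, by ring⟩
    have hx0 : 0 ≤ x := by linarith
    have hx1 : x ≤ 1 / 2 := by linarith
    have h3 := Real.quadratic_le_exp_of_nonneg (x := x + x ^ 2) (by positivity)
    have h4 : 1 ≤ (1 - x) * Real.exp (x + x ^ 2) := by
      have h5 : (1 - x) * (1 + (x + x ^ 2) + (x + x ^ 2) ^ 2 / 2) ≤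
          (1 - x) * Real.exp (x + x ^ 2) := mul_le_mul_of_nonneg_left h3 (by linarith)
      have h6 : 0 ≤ 1 - x - x ^ 2 - x ^ 3 := by
        have : x ^ 2 ≤ 1 / 4 := by nlinarith
        have : x ^ 3 ≤ 1 / 8 := by nlinarith
        linarith
      have h7 : 0 ≤ x ^ 2 * (1 - x - x ^ 2 - x ^ 3) := mul_nonneg (sq_nonneg x) h6
      nlinarith
    have h5 : Real.exp (-x - (-x) ^ 2) * Real.exp (x + x ^ 2) = 1 := by
      rw [← Real.exp_add]
      have : -x - (-x) ^ 2 + (x + x ^ 2) = 0 := by ring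
      rw [this, Real.exp_zero]
    have h6 : 0 < Real.exp (x + x ^ 2) := Real.exp_pos _
    have h7 : Real.exp (-x - (-x) ^ 2) * Real.exp (x + x ^ 2) ≤
        (1 + -x) * Real.exp (x + x ^ 2) := by
      rw [h5]
      linarith
    exact le_of_mul_le_mul_right h7 h6

variable {V : Type} [DecidableEq V]

omit [DecidableEq V] in
theorem core_exp (s : Finset V) (a b : V → ℝ) (ha : ∀ c ∈ s, |a c| ≤ 1)
    (hb : ∀ c ∈ s, |b c| ≤ 1) :
    0 ≤ ∏ c ∈ s, ((1 + a c) * (1 - b c)) ∧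
    ∏ c ∈ s, ((1 + a c) * (1 - b c)) ≤ Real.exp (∑ c ∈ s, (a c - b c) - ∑ c ∈ s, a c * b c) := by
  constructor
  · apply prod_nonneg
    intro c hc
    have h1 := abs_le.mp (ha c hc)
    have h2 := abs_le.mp (hb c hc)
    exact mul_nonneg (by linarith) (by linarith)
  · rw [← sum_sub_distrib, Real.exp_sum]
    apply prod_le_prod
    · intro c hc
      have h1 := abs_le.mp (ha c hc)
      have h2 := abs_le.mp (hb c hc)
      exact mul_nonneg (by linarith) (by linarith)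
    · intro c hc
      have := Real.add_one_le_exp (a c - b c - a c * b c)
      nlinarith

theorem core_upper {E A R Qp T : ℝ} (hE : E ≤ Real.exp T) (hT : T = A - R) (hT1 : T ≤ 1)
    (hR : |R| ≤ Qp / 2) : E ≤ 1 + A + 3 / 2 * Qp + 4 * A ^ 2 := by
  have hR' := abs_le.mp hR
  have hQ : 0 ≤ Qp := by linarith [abs_nonneg R]
  by_cases h : Qp / 2 ≤ |A|
  · have h1 := exp_le_quad hT1
    have h2 : |T| ≤ 2 * |A| := by
      rw [hT]
      exact le_trans (abs_sub _ _) (by linarith)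
    have h3 : T ^ 2 ≤ 4 * A ^ 2 := by
      rw [← sq_abs T, ← sq_abs A]
      nlinarith [abs_nonneg T]
    linarith
  · have h1 := exp_le_abs hT1
    have h2 : |T| ≤ Qp := by
      rw [hT]
      exact le_trans (abs_sub _ _) (by linarith)
    nlinarith [sq_nonneg A]

omit [DecidableEq V] in
theorem core_lower (s : Finset V) (a b : V → ℝ) (ha : ∀ c ∈ s, |a c| ≤ 1)
    (hb : ∀ c ∈ s, |b c| ≤ 1) :
    1 + ∑ c ∈ s, (a c - b c) - 5 * (∑ c ∈ s, (a c - b c)) ^ 2 - 5 * ∑ c ∈ s, (a c ^ 2 + b c ^ 2) ≤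
      ∏ c ∈ s, ((1 + a c) * (1 - b c)) := by
  by_cases h : 1 / 4 ≤ ∑ c ∈ s, (a c ^ 2 + b c ^ 2)
  · have h1 := (core_exp s a b ha hb).1
    nlinarith [sq_nonneg (10 * (∑ c ∈ s, (a c - b c)) - 1)]
  · have h0 : ∀ c ∈ s, a c ^ 2 + b c ^ 2 ≤ 1 / 4 := by
      intro c hc
      have := single_le_sum (f := fun c => a c ^ 2 + b c ^ 2)
        (fun i _ => add_nonneg (sq_nonneg _) (sq_nonneg _)) hc
      linarith
    have h1 : Real.exp (∑ c ∈ s, (a c - b c) - ∑ c ∈ s, (a c ^ 2 + b c ^ 2)) ≤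
        ∏ c ∈ s, ((1 + a c) * (1 - b c)) := by
      rw [← sum_sub_distrib, Real.exp_sum]
      apply prod_le_prod
      · intro c _
        exact (Real.exp_pos _).le
      · intro c hc
        have h2 := h0 c hc
        have h3 : |a c| ≤ 1 / 2 := by
          apply abs_le_of_sq_le_sq' _ (by norm_num) |> abs_le.mpr
          nlinarith [sq_nonneg (b c)]
        have h4 : |b c| ≤ 1 / 2 := by
          apply abs_le_of_sq_le_sq' _ (by norm_num) |> abs_le.mpr
          nlinarith [sq_nonneg (a c)]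
        have h5 := exp_sub_sq_le (abs_le.mp h3).1 (abs_le.mp h3).2
        have h6 := exp_sub_sq_le (t := - b c) (by linarith [(abs_le.mp h4).2])
          (by linarith [(abs_le.mp h4).1])
        have h7 : a c - b c - (a c ^ 2 + b c ^ 2) = (a c - a c ^ 2) + (-b c - (-b c) ^ 2) := by
          ring
        rw [h7, Real.exp_add]
        have h8 : 0 ≤ 1 + a c := le_trans (Real.exp_pos _).le h5
        calc Real.exp (a c - a c ^ 2) * Real.exp (-b c - (-b c) ^ 2)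
            ≤ (1 + a c) * (1 + - b c) := mul_le_mul h5 h6 (Real.exp_pos _).le h8
          _ = (1 + a c) * (1 - b c) := by ring
    have h2 := Real.add_one_le_exp (∑ c ∈ s, (a c - b c) - ∑ c ∈ s, (a c ^ 2 + b c ^ 2))
    have h3 : 0 ≤ ∑ c ∈ s, (a c ^ 2 + b c ^ 2) :=
      sum_nonneg fun i _ => add_nonneg (sq_nonneg _) (sq_nonneg _)
    nlinarith [sq_nonneg (∑ c ∈ s, (a c - b c))]

/-- the positive members of the pairs -/
noncomputable def Pl (U : Finset V) (π : V → V) (ε : V → ℝ) : Finset V :=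
  U.filter fun c => π c ≠ c ∧ ε c = 1

theorem pair_prod {M : Type} [CommMonoid M] (U : Finset V) (π : V → V) (ε : V → ℝ)
    (h1 : ∀ c ∈ U, π c ∈ U) (h2 : ∀ c ∈ U, π (π c) = c) (h3 : ∀ c ∈ U, ε c = 1 ∨ ε c = -1)
    (h4 : ∀ c ∈ U, π c ≠ c → ε (π c) = - ε c) (g : V → M) :
    ∏ c ∈ U, g c = (∏ c ∈ U.filter (fun c => π c = c), g c) *
      ∏ c ∈ Pl U π ε, (g c * g (π c)) := by
  rw [← prod_filter_mul_prod_filter_not U (fun c => π c = c)]
  congr 1
  rw [← prod_filter_mul_prod_filter_not (U.filter fun c => ¬ π c = c) (fun c => ε c = 1),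
    filter_filter, filter_filter, prod_mul_distrib]
  congr 1
  symm
  apply prod_bij (fun c _ => π c)
  · intro c hc
    simp only [Pl, mem_filter] at hc ⊢
    obtain ⟨hc1, hc2, hc3⟩ := hc
    refine ⟨h1 c hc1, ?_, ?_⟩
    · rw [h2 c hc1]
      exact fun h => hc2 h.symm
    · rw [h4 c hc1 hc2, hc3]
      norm_num
  · intro c hc d hd hcd
    simp only [Pl, mem_filter] at hc hd
    rw [← h2 c hc.1, ← h2 d hd.1, hcd]
  · intro d hd
    simp only [mem_filter] at hd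
    obtain ⟨hd1, hd2, hd3⟩ := hd
    refine ⟨π d, ?_, h2 d hd1⟩
    simp only [Pl, mem_filter]
    refine ⟨h1 d hd1, ?_, ?_⟩
    · rw [h2 d hd1]
      exact fun h => hd2 h.symm
    · rw [h4 d hd1 hd2]
      rcases h3 d hd1 with h | h
      · exact absurd h hd3
      · rw [h]
        norm_num
  · intro c _
    rfl

theorem pair_sum (U : Finset V) (π : V → V) (ε : V → ℝ)
    (h1 : ∀ c ∈ U, π c ∈ U) (h2 : ∀ c ∈ U, π (π c) = c) (h3 : ∀ c ∈ U, ε c = 1 ∨ ε c = -1)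
    (h4 : ∀ c ∈ U, π c ≠ c → ε (π c) = - ε c) (g : V → ℝ) :
    ∑ c ∈ U, g c = (∑ c ∈ U.filter (fun c => π c = c), g c) +
      ∑ c ∈ Pl U π ε, (g c + g (π c)) :=
  pair_prod (M := Multiplicative ℝ) U π ε h1 h2 h3 h4 g

theorem fix_part (U : Finset V) (π : V → V) (ε φ : V → ℝ)
    (h3 : ∀ c ∈ U, ε c = 1 ∨ ε c = -1)
    (h5 : ∀ c ∈ U, ∀ c' ∈ U, π c = c → π c' = c' → c = c') (h6 : ∀ c ∈ U, |φ c| ≤ 1) :
    ∃ u : ℝ, |u| ≤ 1 ∧ ∏ c ∈ U.filter (fun c => π c = c), (1 + ε c * φ c) = 1 + u ∧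
      ∑ c ∈ U.filter (fun c => π c = c), ε c * φ c = u ∧
      ∑ c ∈ U.filter (fun c => π c = c), φ c ^ 2 = u ^ 2 := by
  rcases (U.filter fun c => π c = c).eq_empty_or_nonempty with h | ⟨c0, hc0⟩
  · exact ⟨0, by simp, by simp [h], by simp [h], by simp [h]⟩
  · have hs : U.filter (fun c => π c = c) = {c0} := by
      ext c
      rw [mem_singleton]
      constructor
      · intro hc
        rw [mem_filter] at hc hc0
        exact h5 c hc.1 c0 hc0.1 hc.2 hc0.2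
      · rintro rfl
        exact hc0
    have hU := (mem_filter.mp hc0).1
    refine ⟨ε c0 * φ c0, ?_, by rw [hs, prod_singleton], by rw [hs, sum_singleton], ?_⟩
    · rw [abs_mul]
      rcases h3 c0 hU with h | h <;> simp [h, h6 c0 hU]
    · rw [hs, sum_singleton]
      rcases h3 c0 hU with h | h <;> simp [h]

end PL_

open PL_ in
theorem p_PL : T_PL := by
  intro V _ U π ε φ A Q D h1 h2 h3 h4 h5 h6 hA hQ hD
  obtain ⟨u, hu, hu1, hu2, hu3⟩ := fix_part U π ε φ h3 h5 h6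
  have hPl : ∀ c ∈ Pl U π ε, c ∈ U ∧ π c ≠ c ∧ ε c = 1 := fun c hc => mem_filter.mp hc
  have hprod : ∏ c ∈ U, (1 + ε c * φ c) =
      (1 + u) * ∏ c ∈ Pl U π ε, ((1 + φ c) * (1 - φ (π c))) := by
    rw [pair_prod U π ε h1 h2 h3 h4, hu1]
    congr 1
    apply prod_congr rfl
    intro c hc
    obtain ⟨hc1, hc2, hc3⟩ := hPl c hc
    rw [h4 c hc1 hc2, hc3]
    ring
  have hA' : A = ∑ c ∈ Pl U π ε, (φ c - φ (π c)) := by
    rw [hA, sum_filter, pair_sum U π ε h1 h2 h3 h4]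
    have : ∑ c ∈ U.filter (fun c => π c = c), (if π c ≠ c then ε c * φ c else 0) = 0 := by
      apply sum_eq_zero
      intro c hc
      rw [if_neg (not_not.mpr (mem_filter.mp hc).2)]
    rw [this, zero_add]
    apply sum_congr rfl
    intro c hc
    obtain ⟨hc1, hc2, hc3⟩ := hPl c hc
    rw [if_pos hc2, if_pos (by rw [h2 c hc1]; exact hc2.symm), h4 c hc1 hc2, hc3]
    ring
  have hQ' : Q = u ^ 2 + ∑ c ∈ Pl U π ε, (φ c ^ 2 + φ (π c) ^ 2) := by
    rw [hQ, pair_sum U π ε h1 h2 h3 h4, hu3]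
  have hD' : D = ∑ c ∈ Pl U π ε, (φ c - φ (π c)) ^ 2 := by
    rw [hD, pair_sum U π ε h1 h2 h3 h4]
    have : ∑ c ∈ U.filter (fun c => π c = c), (φ c - φ (π c)) ^ 2 / 2 = 0 := by
      apply sum_eq_zero
      intro c hc
      rw [(mem_filter.mp hc).2]
      ring
    rw [this, zero_add]
    apply sum_congr rfl
    intro c hc
    rw [h2 c (hPl c hc).1]
    ring
  have hS : ∑ c ∈ U, ε c * φ c = u + A := by
    rw [pair_sum U π ε h1 h2 h3 h4, hu2, hA']
    congr 1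
    apply sum_congr rfl
    intro c hc
    obtain ⟨hc1, hc2, hc3⟩ := hPl c hc
    rw [h4 c hc1 hc2, hc3]
    ring
  have ha : ∀ c ∈ Pl U π ε, |φ c| ≤ 1 := fun c hc => h6 c (hPl c hc).1
  have hb : ∀ c ∈ Pl U π ε, |φ (π c)| ≤ 1 := fun c hc => h6 _ (h1 c (hPl c hc).1)
  have hE := core_exp (Pl U π ε) φ (fun c => φ (π c)) ha hb
  have hR1 : - ∑ c ∈ Pl U π ε, φ c * φ (π c) ≤ D / 4 := by
    rw [hD', ← sum_neg_distrib, sum_div]
    apply sum_le_sum
    intro c _
    nlinarith [sq_nonneg (φ c + φ (π c))]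
  have hR2 : |∑ c ∈ Pl U π ε, φ c * φ (π c)| ≤
      (∑ c ∈ Pl U π ε, (φ c ^ 2 + φ (π c) ^ 2)) / 2 := by
    rw [sum_div]
    refine le_trans (abs_sum_le_sum_abs _ _) (sum_le_sum fun c _ => ?_)
    rw [abs_le]
    constructor <;> nlinarith [sq_nonneg (φ c + φ (π c)), sq_nonneg (φ c - φ (π c))]
  have hu' := abs_le.mp hu
  set E := ∏ c ∈ Pl U π ε, ((1 + φ c) * (1 - φ (π c))) with hEdef
  set R := ∑ c ∈ Pl U π ε, φ c * φ (π c) with hRdef
  set Qp := ∑ c ∈ Pl U π ε, (φ c ^ 2 + φ (π c) ^ 2) with hQpdef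
  constructor
  · rw [hprod]
    have h7 : E ≤ Real.exp (A + D / 4) := by
      refine le_trans hE.2 (Real.exp_le_exp.mpr ?_)
      rw [← hA']
      linarith
    calc (1 + u) * E ≤ 2 * E := mul_le_mul_of_nonneg_right (by linarith) hE.1
      _ ≤ 2 * Real.exp (A + D / 4) := mul_le_mul_of_nonneg_left h7 (by norm_num)
  · intro hAD
    have hup := core_upper (E := E) (A := A) (R := R) (Qp := Qp) (T := A - R)
      (by rw [hA']; exact hE.2) rfl (by linarith) hR2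
    have hlow := core_lower (Pl U π ε) φ (fun c => φ (π c)) ha hb
    rw [← hA'] at hlow
    have hQp : 0 ≤ Qp := sum_nonneg fun i _ => add_nonneg (sq_nonneg _) (sq_nonneg _)
    have hEA : |E - 1 - A| ≤ 5 * A ^ 2 + 5 * Qp := by
      rw [abs_le]
      constructor
      · linarith
      · nlinarith [sq_nonneg A]
    rw [hprod, hS, hQ']
    have h8 : (1 + u) * E - 1 - (u + A) = (1 + u) * (E - 1 - A) + u * A := by ring
    rw [h8]
    refine le_trans (abs_add_le _ _) ?_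
    rw [abs_mul, abs_mul, abs_of_nonneg (show 0 ≤ 1 + u by linarith)]
    have h9 : (1 + u) * |E - 1 - A| ≤ 2 * (5 * A ^ 2 + 5 * Qp) :=
      mul_le_mul (by linarith) hEA (abs_nonneg _) (by norm_num)
    have h10 : |u| * |A| ≤ (u ^ 2 + A ^ 2) / 2 := by
      rw [← sq_abs u, ← sq_abs A]
      nlinarith [sq_nonneg (|u| - |A|)]
    nlinarith [sq_nonneg A, sq_nonneg u]

end Pool.Agent.TFin
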