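import Pool.Agent.TFin.Targets

set_option autoImplicit false
set_option linter.unusedVariables false
set_option linter.unusedSectionVars false

namespace Pool.Agent.TFin

open Finset
open Pool.Agent.TLT (av Krn Sop dl xx)

noncomputable section

variable {V : Type} [Fintype V] [DecidableEq V]

lemma PURR_sg_abs (lab : V → V) (sn : V → ℝ) (hsn : ∀ c, sn c = 1 ∨ sn c = -1)
    (ζ : V → Bool) (c : V) : |sg lab sn ζ c| ≤ 1 := by
  unfold sg
  rcases hsn c with h | h <;> rw [h] <;> split_ifs <;> norm_num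

lemma PURR_ev_abs (r : V) (ε : V → ℝ) (h : ∀ c, |ε c| ≤ 1) (v : V) : |ev r ε v| ≤ 1 := by
  unfold ev
  split_ifs
  · norm_num
  · exact h v

lemma PURR_s0_abs {par : V → V} {r : V} {π : V → V} (hp : Pairing par r π) (ε : V → ℝ)
    (h : ∀ c, |ε c| ≤ 1) (v : V) : |s0 par r π ε v| ≤ 1 := by
  unfold s0
  have hc : ((ch par r v).filter (fun c => π c = c)).card ≤ 1 := by
    rw [card_le_one]
    intro a ha b hb
    rw [mem_filter] at ha hb
    obtain ⟨ha1, ha2⟩ := ha
    obtain ⟨hb1, hb2⟩ := hb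
    unfold ch at ha1 hb1
    rw [mem_filter] at ha1 hb1
    exact hp.single a b ha1.2.1 hb1.2.1 (ha1.2.2.trans hb1.2.2.symm) ha2 hb2
  calc |∑ c ∈ (ch par r v).filter (fun c => π c = c), ε c|
      ≤ ∑ c ∈ (ch par r v).filter (fun c => π c = c), |ε c| := abs_sum_le_sum_abs _ _
    _ ≤ ∑ c ∈ (ch par r v).filter (fun c => π c = c), (1 : ℝ) := sum_le_sum (fun c _ => h c)
    _ = (((ch par r v).filter (fun c => π c = c)).card : ℝ) := by simp
    _ ≤ 1 := by exact_mod_cast hc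

lemma PURR_sg_loc (par : V → V) (r : V) (lab : V → V) (sn : V → ℝ) (v : V) (ζ ζ' : V → Bool)
    (h : ∀ c, c ≠ r → (∃ t ≤ 1, par^[t] c = v) → ζ (lab c) = ζ' (lab c)) (π : V → V) :
    s0 par r π (sg lab sn ζ) v = s0 par r π (sg lab sn ζ') v ∧
      ev r (sg lab sn ζ) v = ev r (sg lab sn ζ') v := by
  constructor
  · unfold s0
    apply sum_congr rfl
    intro c hc
    rw [mem_filter] at hc
    obtain ⟨hc1, _⟩ := hc
    unfold ch at hc1
    rw [mem_filter] at hc1
    unfold sg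
    rw [h c hc1.2.1 ⟨1, le_refl 1, by simpa using hc1.2.2⟩]
  · unfold ev
    by_cases hv : v = r
    · rw [if_pos hv, if_pos hv]
    · rw [if_neg hv, if_neg hv]
      unfold sg
      rw [h v hv ⟨0, by norm_num, rfl⟩]

theorem p_PURR (h1 : T_CUBE) (h2 : T_LOC) (h3 : T_LAYF) (h4 : T_MZ) : T_PURR := by
  intro k η hη
  obtain ⟨N, hN⟩ := exists_nat_ge ((16 * ((k : ℝ) + 1) ^ 2 / η) ^ 2)
  refine ⟨N, ?_⟩
  intro V _ _ par dep r π lab sn B hRT hLay hn
  obtain ⟨c1, c2, c3, c4, -⟩ := h1 V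
  obtain ⟨-, -, -, m4, m5⟩ := h4 V par dep r π lab sn B hRT hLay
  have hsg : ∀ ζ c, |sg lab sn ζ c| ≤ 1 := fun ζ c => PURR_sg_abs lab sn hLay.sn1 ζ c
  have hev : ∀ ζ v, |ev r (sg lab sn ζ) v| ≤ 1 := fun ζ v => PURR_ev_abs r _ (hsg ζ) v
  have hs0 : ∀ ζ v, |s0 par r π (sg lab sn ζ) v| ≤ 1 :=
    fun ζ v => PURR_s0_abs hLay.pr _ (hsg ζ) v
  set S : ℕ → Finset V := fun m =>
    univ.filter (fun v => (ch par r v).card ≤ k ∧ np par r v = m) with hS
  have hX : ∀ m, Ex (fun ζ => |∑ v ∈ S m,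
      (s0 par r π (sg lab sn ζ) v - ev r (sg lab sn ζ) v)|) ≤
        16 * Real.sqrt (Fintype.card V) := by
    intro m
    have := h2 V par dep r π lab sn B hRT hLay
      (fun v ζ => s0 par r π (sg lab sn ζ) v - ev r (sg lab sn ζ) v) 1 2 (S m) (by norm_num)
      (fun v _ ζ => by
        have a1 := abs_le.mp (hs0 ζ v)
        have a2 := abs_le.mp (hev ζ v)
        rw [abs_le]
        constructor <;> linarith [a1.1, a1.2, a2.1, a2.2])
      (fun v _ ζ ζ' hz => by
        obtain ⟨e1, e2⟩ := PURR_sg_loc par r lab sn v ζ ζ' hz π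
        simp only [e1, e2])
    have e0 : ∑ v ∈ S m, Ex (fun ζ => s0 par r π (sg lab sn ζ) v - ev r (sg lab sn ζ) v) = 0 :=
      sum_eq_zero (fun v _ => m4 v)
    simp only [e0, sub_zero] at this
    refine this.trans (le_of_eq ?_)
    push_cast
    ring
  have hY : ∀ m, Ex (fun ζ => |∑ v ∈ S m,
      (s0 par r π (sg lab sn ζ) v * ev r (sg lab sn ζ) v - if v ∈ B.image par then 1 else 0)|) ≤
        16 * Real.sqrt (Fintype.card V) := by
    intro m
    have := h2 V par dep r π lab sn B hRT hLay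
      (fun v ζ => s0 par r π (sg lab sn ζ) v * ev r (sg lab sn ζ) v -
        if v ∈ B.image par then 1 else 0) 1 2 (S m) (by norm_num)
      (fun v _ ζ => by
        have a1 : |s0 par r π (sg lab sn ζ) v * ev r (sg lab sn ζ) v| ≤ 1 := by
          rw [abs_mul]
          have := mul_le_mul (hs0 ζ v) (hev ζ v) (abs_nonneg _) zero_le_one
          simpa using this
        have a2 := abs_le.mp a1
        rw [abs_le]
        split_ifs <;> constructor <;> linarith [a2.1, a2.2])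
      (fun v _ ζ ζ' hz => by
        obtain ⟨e1, e2⟩ := PURR_sg_loc par r lab sn v ζ ζ' hz π
        simp only [e1, e2])
    have e0 : ∑ v ∈ S m, Ex (fun ζ => s0 par r π (sg lab sn ζ) v * ev r (sg lab sn ζ) v -
        if v ∈ B.image par then 1 else 0) = 0 :=
      sum_eq_zero (fun v _ => m5 v)
    simp only [e0, sub_zero] at this
    refine this.trans (le_of_eq ?_)
    push_cast
    ring
  have hE : Ex (fun ζ => PUR par r π (B.image par) (sg lab sn ζ) k) =
      ∑ m ∈ range (k + 1), ((m : ℝ) * Ex (fun ζ => |∑ v ∈ S m,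
        (s0 par r π (sg lab sn ζ) v - ev r (sg lab sn ζ) v)|) +
        Ex (fun ζ => |∑ v ∈ S m, (s0 par r π (sg lab sn ζ) v * ev r (sg lab sn ζ) v -
          if v ∈ B.image par then 1 else 0)|)) := by
    unfold PUR
    rw [c2 ℕ (range (k + 1)) (fun m ζ => (m : ℝ) * |∑ v ∈ S m,
        (s0 par r π (sg lab sn ζ) v - ev r (sg lab sn ζ) v)| +
        |∑ v ∈ S m, (s0 par r π (sg lab sn ζ) v * ev r (sg lab sn ζ) v -
          if v ∈ B.image par then 1 else 0)|)]
    apply sum_congr rfl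
    intro m _
    have := c1 (m : ℝ) 1 (fun ζ => |∑ v ∈ S m,
        (s0 par r π (sg lab sn ζ) v - ev r (sg lab sn ζ) v)|)
        (fun ζ => |∑ v ∈ S m, (s0 par r π (sg lab sn ζ) v * ev r (sg lab sn ζ) v -
          if v ∈ B.image par then 1 else 0)|)
    simp only [one_mul] at this
    exact this
  rw [hE]
  set s := Real.sqrt (Fintype.card V) with hs
  have hs0' : 0 ≤ s := Real.sqrt_nonneg _
  have hss : s * s = Fintype.card V := Real.mul_self_sqrt (Nat.cast_nonneg _)
  have hsum : ∑ m ∈ range (k + 1), ((m : ℝ) * Ex (fun ζ => |∑ v ∈ S m,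
        (s0 par r π (sg lab sn ζ) v - ev r (sg lab sn ζ) v)|) +
        Ex (fun ζ => |∑ v ∈ S m, (s0 par r π (sg lab sn ζ) v * ev r (sg lab sn ζ) v -
          if v ∈ B.image par then 1 else 0)|)) ≤
      ∑ m ∈ range (k + 1), ((k : ℝ) + 1) * (16 * s) := by
    apply sum_le_sum
    intro m hm
    rw [mem_range] at hm
    have hm' : (m : ℝ) ≤ k := by exact_mod_cast Nat.lt_succ_iff.mp hm
    have b1 := hX m
    have b2 := hY m
    have b3 : (m : ℝ) * Ex (fun ζ => |∑ v ∈ S m,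
        (s0 par r π (sg lab sn ζ) v - ev r (sg lab sn ζ) v)|) ≤ m * (16 * s) :=
      mul_le_mul_of_nonneg_left b1 (Nat.cast_nonneg _)
    have b4 : (m : ℝ) * (16 * s) ≤ k * (16 * s) :=
      mul_le_mul_of_nonneg_right hm' (by positivity)
    linarith
  refine hsum.trans ?_
  rw [sum_const, card_range, nsmul_eq_mul]
  push_cast
  have hq : (16 * ((k : ℝ) + 1) ^ 2 / η) ^ 2 ≤ s * s := by
    rw [hss]
    exact hN.trans (by exact_mod_cast hn)
  have hq2 : 16 * ((k : ℝ) + 1) ^ 2 / η ≤ s := by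
    have hpos : 0 ≤ 16 * ((k : ℝ) + 1) ^ 2 / η := by positivity
    nlinarith
  rw [div_le_iff₀ hη] at hq2
  rw [← hss]
  nlinarith

end

end Pool.Agent.TFin
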