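import Pool.Agent.TFin.Targets

/-!
# Large trees in tournaments (MP_d27362_co), target REC

Recursion and induction on a rooted tree.
-/

set_option autoImplicit false

namespace Pool.Agent.TFin

open Finset

namespace REC_

variable {V : Type} [Fintype V] [DecidableEq V] {par : V → V} {dep : V → ℕ} {r : V}

theorem mem_ch {c v : V} : c ∈ ch par r v ↔ c ≠ r ∧ par c = v := by simp [ch]

theorem dep_ch (h : RT par dep r) {c v : V} (hc : c ∈ ch par r v) : dep c = dep v + 1 := by
  obtain ⟨h1, h2⟩ := mem_ch.mp hc
  rw [h.step c h1, h2]

omit [Fintype V] [DecidableEq V] in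
theorem ne_root (h : RT par dep r) {c : V} (hc : 1 ≤ dep c) : c ≠ r := by
  rintro rfl
  rw [h.root] at hc
  omega

theorem exists_dep (h : RT par dep r) (v : V) (k : ℕ) (hk : k ≤ dep v) : ∃ w, dep w = k := by
  have key : ∀ j ≤ dep v, ∃ w, dep w = dep v - j := by
    intro j
    induction j with
    | zero => intro _; exact ⟨v, by simp⟩
    | succ j ih =>
      intro hj
      obtain ⟨w, hw⟩ := ih (by omega)
      have hwr : w ≠ r := ne_root h (by omega)
      exact ⟨par w, by have := h.step w hwr; omega⟩
  obtain ⟨w, hw⟩ := key (dep v - k) (by omega)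
  exact ⟨w, by omega⟩

theorem dep_lt (h : RT par dep r) (v : V) : dep v < Fintype.card V := by
  have hsub : range (dep v + 1) ⊆ univ.image dep := by
    intro k hk
    rw [mem_range] at hk
    obtain ⟨w, hw⟩ := exists_dep h v k (by omega)
    exact mem_image.mpr ⟨w, mem_univ _, hw⟩
  have h1 := card_le_card hsub
  have h2 := (card_image_le : (univ.image dep).card ≤ (univ : Finset V).card)
  rw [card_range] at h1
  rw [card_univ] at h2
  omega

theorem leafInd (h : RT par dep r) (p : V → Prop) (hp : ∀ v, (∀ c ∈ ch par r v, p c) → p v) :
    ∀ v, p v := by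
  have key : ∀ k v, Fintype.card V - dep v = k → p v := by
    intro k
    induction k using Nat.strong_induction_on with
    | _ k ih =>
      intro v hv
      apply hp
      intro c hc
      have h1 := dep_ch h hc
      have h2 := dep_lt h c
      exact ih (Fintype.card V - dep c) (by omega) c rfl
  exact fun v => key _ v rfl

theorem rootInd (h : RT par dep r) (p : V → Prop) (h0 : p r)
    (hp : ∀ v, v ≠ r → p (par v) → p v) : ∀ v, p v := by
  have key : ∀ k v, dep v = k → p v := by
    intro k
    induction k with
    | zero =>
      intro v hv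
      by_cases hr : v = r
      · rw [hr]; exact h0
      · have := h.step v hr
        omega
    | succ k ih =>
      intro v hv
      have hr : v ≠ r := ne_root h (by omega)
      have := h.step v hr
      exact hp v hr (ih (par v) (by omega))
  exact fun v => key _ v rfl

theorem exists_rec (h : RT par dep r) (α : Type) (hα : Nonempty α) (Φ : V → (V → α) → α)
    (hΦ : ∀ v g g', (∀ c ∈ ch par r v, g c = g' c) → Φ v g = Φ v g') :
    ∃ s : V → α, ∀ v, s v = Φ v s := by
  obtain ⟨a0⟩ := hα
  let t : ℕ → V → α := fun k => Nat.rec (fun _ => a0) (fun _ g v => Φ v g) k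
  have ht : ∀ k v, t (k + 1) v = Φ v (t k) := fun k v => rfl
  have claim : ∀ k v, Fintype.card V ≤ dep v + k → t (k + 1) v = t k v := by
    intro k
    induction k with
    | zero =>
      intro v hv
      have := dep_lt h v
      omega
    | succ k ih =>
      intro v hv
      rw [ht (k + 1) v, ht k v]
      apply hΦ
      intro c hc
      have := dep_ch h hc
      exact ih c (by omega)
  refine ⟨t (Fintype.card V), fun v => ?_⟩
  rw [← ht, claim _ _ (by omega)]

theorem prod_rec (h : RT par dep r) (a w : V → ℝ)
    (hw : ∀ v, w v = ∏ c ∈ ch par r v, a c * w c) : w r = ∏ c ∈ univ.erase r, a c := by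
  have key : ∀ j : ℕ, w r = (∏ v ∈ univ.filter (fun v => 1 ≤ dep v ∧ dep v ≤ j), a v) *
      ∏ v ∈ univ.filter (fun v => dep v = j), w v := by
    intro j
    induction j with
    | zero =>
      have h1 : univ.filter (fun v => 1 ≤ dep v ∧ dep v ≤ 0) = ∅ := by
        ext v
        simp
        omega
      have h2 : univ.filter (fun v => dep v = 0) = {r} := by
        ext v
        simp only [mem_filter, mem_univ, true_and, mem_singleton]
        constructor
        · intro hv
          by_contra hr
          have := h.step v hr
          omega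
        · rintro rfl
          exact h.root
      rw [h1, h2]
      simp
    | succ j ih =>
      rw [ih]
      have h1 : univ.filter (fun v => 1 ≤ dep v ∧ dep v ≤ j + 1) =
          univ.filter (fun v => 1 ≤ dep v ∧ dep v ≤ j) ∪ univ.filter (fun v => dep v = j + 1) := by
        ext v
        simp only [mem_filter, mem_univ, true_and, mem_union]
        omega
      have h2 : Disjoint (univ.filter (fun v => 1 ≤ dep v ∧ dep v ≤ j))
          (univ.filter (fun v => dep v = j + 1)) := by
        rw [Finset.disjoint_left]
        intro v
        simp only [mem_filter, mem_univ, true_and]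
        omega
      rw [h1, prod_union h2, mul_assoc, ← prod_mul_distrib]
      congr 1
      have hmaps : ∀ c ∈ univ.filter (fun v => dep v = j + 1),
          par c ∈ univ.filter (fun v => dep v = j) := by
        intro c hc
        simp only [mem_filter, mem_univ, true_and] at hc ⊢
        have := h.step c (ne_root h (by omega))
        omega
      rw [← prod_fiberwise_of_maps_to hmaps]
      apply prod_congr rfl
      intro v hv
      simp only [mem_filter, mem_univ, true_and] at hv
      rw [hw v]
      apply prod_congr _ (fun _ _ => rfl)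
      ext c
      simp only [mem_filter, mem_univ, true_and, mem_ch]
      constructor
      · rintro ⟨h3, h4⟩
        have := h.step c h3
        rw [h4] at this
        exact ⟨by omega, h4⟩
      · rintro ⟨h3, h4⟩
        exact ⟨ne_root h (by omega), h4⟩
  have hk := key (Fintype.card V)
  have h1 : univ.filter (fun v => 1 ≤ dep v ∧ dep v ≤ Fintype.card V) = univ.erase r := by
    ext v
    simp only [mem_filter, mem_univ, true_and, mem_erase, and_true]
    constructor
    · rintro ⟨h3, _⟩
      exact ne_root h h3
    · intro hr
      have h3 := h.step v hr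
      have h4 := dep_lt h v
      omega
  have h2 : univ.filter (fun v => dep v = Fintype.card V) = ∅ := by
    ext v
    have := dep_lt h v
    simp only [mem_filter, mem_univ, true_and, notMem_empty, iff_false]
    omega
  rw [hk, h1, h2]
  simp

theorem sum_rec (Cut : Finset V) (a w : V → ℝ)
    (hw : ∀ v, w v = a v + ∑ c ∈ ch par r v \ Cut, w c) :
    ∑ v ∈ insert r Cut, w v = ∑ v, a v := by
  have h1 : ∑ v, w v = ∑ v, a v + ∑ v, ∑ c ∈ ch par r v \ Cut, w c := by
    rw [← sum_add_distrib]
    exact sum_congr rfl fun v _ => hw v
  have h2 : ∑ v, ∑ c ∈ ch par r v \ Cut, w c = ∑ c ∈ univ \ insert r Cut, w c := by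
    rw [← sum_fiberwise (univ \ insert r Cut) par w]
    apply sum_congr rfl
    intro v _
    apply sum_congr _ (fun _ _ => rfl)
    ext c
    simp only [mem_sdiff, mem_ch, mem_filter, mem_univ, true_and, mem_insert, not_or]
    tauto
  have h3 : ∑ c ∈ univ \ insert r Cut, w c + ∑ c ∈ insert r Cut, w c = ∑ c, w c :=
    sum_sdiff (subset_univ _)
  rw [h2] at h1
  linarith

end REC_

theorem p_REC : T_REC := by
  intro V _ _ par dep r h
  exact ⟨REC_.dep_lt h, REC_.leafInd h, REC_.rootInd h, REC_.exists_rec h, REC_.prod_rec h,
    fun Cut _ => REC_.sum_rec Cut⟩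

end Pool.Agent.TFin
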