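import Pool.Agent.TFin.Targets

set_option autoImplicit false

/-!
# RUN1: the adaptive recursion exists (MP_d27362_co)
-/

namespace Pool.Agent.TFin

open Finset
open Pool.Agent.TLT (av Krn Sop dl xx)

noncomputable section

namespace RUN1_

variable {V : Type} [Fintype V] [DecidableEq V] {W : Type} [Fintype W]

theorem mem_ch {par : V → V} {r v c : V} : c ∈ ch par r v ↔ c ≠ r ∧ par c = v := by
  unfold ch
  rw [Finset.mem_filter]
  exact ⟨fun h => h.2, fun h => ⟨Finset.mem_univ _, h⟩⟩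

theorem pi_mem {par : V → V} {r : V} {π : V → V} (hπ : Pairing par r π) {v c : V}
    (hc : c ∈ ch par r v) : π c ∈ ch par r v := by
  rw [mem_ch] at hc ⊢
  refine ⟨fun h => hc.1 ?_, by rw [hπ.hpar c hc.1, hc.2]⟩
  rw [← hπ.inv c, h, hπ.root]

open Classical in
/-- the children which are kept -/
def U (par : V → V) (r : V) (π : V → V) (τ : ℝ) (v : V) (g : V → (W → ℝ) × ℝ) : Finset V :=
  (ch par r v).filter fun c => ¬ (τ < (g c).2 ∨ τ < (g (π c)).2)

/-- the product over the children which are kept -/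
def hR (par : V → V) (r : V) (π : V → V) (ε : V → ℝ) (K : W → W → ℝ) (τ : ℝ) (v : V)
    (g : V → (W → ℝ) × ℝ) (y : W) : ℝ :=
  ∏ c ∈ U par r π τ v g, (1 + ε c * Sop K (g c).1 y)

/-- one step of the recursion -/
def Phi (par : V → V) (r : V) (π : V → V) (ε : V → ℝ) (K : W → W → ℝ) (τ : ℝ) (v : V)
    (g : V → (W → ℝ) × ℝ) : (W → ℝ) × ℝ :=
  (fun y => hR par r π ε K τ v g y / av (hR par r π ε K τ v g),
   xx K * RR par r ε v +
    ∑ c ∈ U par r π τ v g, n1 (fun y => (g c).1 y - 1 - LL par r ε K c y) +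
    del K * ∑ c ∈ ch par r v \ U par r π τ v g, (1 + PP par r ε c))

theorem Phi_congr {par : V → V} {r : V} {π : V → V} (hπ : Pairing par r π) (ε : V → ℝ)
    (K : W → W → ℝ) (τ : ℝ) (v : V) (g g' : V → (W → ℝ) × ℝ)
    (h : ∀ c ∈ ch par r v, g c = g' c) :
    Phi par r π ε K τ v g = Phi par r π ε K τ v g' := by
  have hU1 : U par r π τ v g = U par r π τ v g' := by
    classical
    unfold U
    refine Finset.filter_congr fun c hc => ?_
    rw [h c hc, h (π c) (pi_mem hπ hc)]
  have hh : hR par r π ε K τ v g = hR par r π ε K τ v g' := by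
    funext y
    unfold hR
    rw [hU1]
    refine Finset.prod_congr rfl fun c hc => ?_
    rw [h c (Finset.mem_of_mem_filter c hc)]
  unfold Phi
  rw [hh, hU1]
  have hs : ∑ c ∈ U par r π τ v g', n1 (fun y => (g c).1 y - 1 - LL par r ε K c y) =
      ∑ c ∈ U par r π τ v g', n1 (fun y => (g' c).1 y - 1 - LL par r ε K c y) := by
    refine Finset.sum_congr rfl fun c hc => ?_
    rw [h c (Finset.mem_of_mem_filter c hc)]
  rw [hs]

end RUN1_

open RUN1_ in
/-- RUN1 -/
theorem p_RUN1 (h1 : T_REC) : T_RUN1 := by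
  intro V _ _ par dep r hRT π hπ ε W _ _ K τ
  classical
  obtain ⟨s, hs⟩ := (h1 V par dep r hRT).2.2.2.1 ((W → ℝ) × ℝ) ⟨(fun _ => 0, 0)⟩
    (Phi par r π ε K τ) (fun v g g' h => Phi_congr hπ ε K τ v g g' h)
  let Cut : Finset V := univ.filter fun v => v ≠ r ∧ (τ < (s v).2 ∨ τ < (s (π v)).2)
  have hCut : ∀ v, v ∈ Cut ↔ v ≠ r ∧ (τ < (s v).2 ∨ τ < (s (π v)).2) := fun v => by
    rw [Finset.mem_filter]
    exact ⟨fun h => h.2, fun h => ⟨Finset.mem_univ _, h⟩⟩
  have hU1 : ∀ v, U par r π τ v s = ch par r v \ Cut := by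
    intro v
    ext c
    unfold U
    rw [Finset.mem_filter, Finset.mem_sdiff, hCut]
    constructor
    · rintro ⟨h2, h3⟩
      exact ⟨h2, fun h => h3 h.2⟩
    · rintro ⟨h2, h3⟩
      exact ⟨h2, fun h => h3 ⟨(mem_ch.1 h2).1, h⟩⟩
  have hU2 : ∀ v, ch par r v \ U par r π τ v s = ch par r v ∩ Cut := by
    intro v
    rw [hU1]
    ext c
    rw [Finset.mem_sdiff, Finset.mem_sdiff, Finset.mem_inter]
    tauto
  refine ⟨fun v => (s v).1, fun v => hR par r π ε K τ v s, fun v => (s v).2, Cut,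
    hCut, ?_, ?_, ?_⟩
  · intro v y
    show hR par r π ε K τ v s y = _
    unfold hR
    rw [hU1]
  · intro v y
    have h2 := congrArg Prod.fst (hs v)
    exact congrFun h2 y
  · intro v
    have h2 := congrArg Prod.snd (hs v)
    have h3 : (Phi par r π ε K τ v s).2 = xx K * RR par r ε v +
        ∑ c ∈ ch par r v \ Cut, n1 (fun y => (s c).1 y - 1 - LL par r ε K c y) +
        kap par r ε K Cut v := by
      unfold Phi kap
      rw [hU2, hU1]
    exact h2.trans h3

end

end Pool.Agent.TFin
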