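import Pool.Agent.TFin.Targets

set_option autoImplicit false

/-!
# The product bound for the adaptive recursion (TFN-RUN2)
-/

namespace Pool.Agent.TFin

open Finset
open Pool.Agent.TLT (av Krn Sop dl xx)

namespace RUN2_

lemma av_mul {W : Type} [Fintype W] (c : ℝ) (f : W → ℝ) :
    av (fun y => c * f y) = c * av f := by
  unfold av
  rw [← mul_sum, mul_div_assoc]

lemma av_mono {W : Type} [Fintype W] {f g : W → ℝ} (h : ∀ y, f y ≤ g y) : av f ≤ av g := by
  unfold av
  exact div_le_div_of_nonneg_right (sum_le_sum fun y _ => h y) (Nat.cast_nonneg _)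

lemma av_nonneg {W : Type} [Fintype W] {f : W → ℝ} (h : ∀ y, 0 ≤ f y) : 0 ≤ av f := by
  unfold av
  exact div_nonneg (sum_nonneg fun y _ => h y) (Nat.cast_nonneg _)

lemma Sop_mul {W : Type} [Fintype W] (K : W → W → ℝ) (c : ℝ) (f : W → ℝ) (y : W) :
    Sop K (fun z => c * f z) y = c * Sop K f y := by
  have h : (fun z => c * f z) = c • f := by
    funext z; simp
  rw [h, map_smul]
  simp

end RUN2_

open RUN2_ in
theorem p_RUN2 (h1 : T_REC) (h2 : T_BAN) : T_RUN2 := by
  intro V _ _ par dep r hRT π ε hε W _ _ K hK τ f h X Cut hrun hh0 hhpos F hF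
  have hr : r ∉ Cut := fun hc => ((hrun.cut r).1 hc).1 rfl
  obtain ⟨-, hleaf, -, hex, hprod, -⟩ := h1 V par dep r hRT
  obtain ⟨-, -, -, -, -, -, -, -, -, -, -, -, -, hB⟩ := h2 W
  obtain ⟨-, -, -, -, hmono, hnn, -⟩ := hB K hK
  set a : V → ℝ := fun c => (if c ∈ Cut then 2 else 1) * av (h c) with ha
  have ha0 : ∀ c, 0 ≤ a c := by
    intro c
    simp only [ha]
    have := av_nonneg (hh0 c)
    split_ifs <;> positivity
  obtain ⟨w, hw⟩ := hex ℝ ⟨0⟩ (fun v g => ∏ c ∈ ch par r v, a c * g c)
    (fun v g g' h => prod_congr rfl fun c hc => by rw [h c hc])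
  have hw0 : ∀ v, 0 ≤ w v := by
    refine hleaf (fun v => 0 ≤ w v) ?_
    intro v ih
    rw [hw v]
    exact prod_nonneg fun c hc => mul_nonneg (ha0 c) (ih c hc)
  have hwr : w r = 2 ^ Cut.card * ∏ v ∈ univ.erase r, av (h v) := by
    rw [hprod a w hw]
    simp only [ha]
    rw [prod_mul_distrib]
    congr 1
    have hsub : Cut ⊆ univ.erase r := by
      intro c hc
      refine mem_erase.mpr ⟨?_, mem_univ _⟩
      rintro rfl
      exact hr hc
    rw [← prod_subset hsub (fun c _ hc => by rw [if_neg hc])]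
    rw [prod_congr rfl (g := fun _ => (2 : ℝ)) (fun c hc => by rw [if_pos hc])]
    rw [prod_const]
  have hcl : ∀ v, ∀ y, 0 ≤ F v y ∧ F v y ≤ w v * h v y := by
    refine hleaf (fun v => ∀ y, 0 ≤ F v y ∧ F v y ≤ w v * h v y) ?_
    intro v ih y
    have hFn : ∀ c ∈ ch par r v, ∀ z, 0 ≤ F c z := fun c hc z => (ih c hc z).1
    rw [hF v y, sdiff_empty]
    refine ⟨prod_nonneg fun c hc => (hnn (F c) (hFn c hc) (ε c) (hε c) y).1, ?_⟩
    have hR : w v * h v y = ∏ c ∈ ch par r v,
        (a c * w c * (if c ∈ Cut then 1 else (1 + ε c * Sop K (f c) y))) := by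
      rw [prod_mul_distrib, ← hw v, hrun.hh v y]
      congr 1
      rw [sdiff_eq_filter, prod_filter]
      refine prod_congr rfl fun c _ => ?_
      by_cases hc : c ∈ Cut
      · simp [hc]
      · simp [hc]
    rw [hR]
    refine prod_le_prod (fun c hc => (hnn (F c) (hFn c hc) (ε c) (hε c) y).1) ?_
    intro c hc
    by_cases hcC : c ∈ Cut
    · rw [if_pos hcC, mul_one]
      have e1 := (hnn (F c) (hFn c hc) (ε c) (hε c) y).2
      have e2 : av (F c) ≤ w c * av (h c) := by
        rw [← av_mul]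
        exact av_mono fun z => (ih c hc z).2
      have e3 : a c = 2 * av (h c) := by simp only [ha]; rw [if_pos hcC]
      rw [e3]
      linarith
    · rw [if_neg hcC]
      have e3 : a c = av (h c) := by simp only [ha]; rw [if_neg hcC, one_mul]
      rw [e3]
      have hcr : c ≠ r := (mem_filter.mp hc).2.1
      have hpos : 0 < av (h c) := hhpos c hcr hcC
      have hfS : av (h c) * Sop K (f c) y = Sop K (h c) y := by
        have hfz : (fun z => av (h c) * f c z) = h c := by
          funext z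
          rw [hrun.ff c z]
          field_simp
        rw [← Sop_mul, hfz]
      have e1 := hmono (F c) (fun z => w c * h c z) (fun z => (ih c hc z).2) (ε c) (hε c) y
      rw [av_mul, Sop_mul] at e1
      calc av (F c) + ε c * Sop K (F c) y ≤ w c * av (h c) + ε c * (w c * Sop K (h c) y) := e1
        _ = av (h c) * w c * (1 + ε c * Sop K (f c) y) := by rw [← hfS]; ring
  have hfin : av (F r) ≤ w r * av (h r) := by
    rw [← av_mul]
    exact av_mono fun z => (hcl r z).2
  have hsplit : ∏ v, av (h v) = av (h r) * ∏ v ∈ univ.erase r, av (h v) :=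
    (mul_prod_erase univ (fun v => av (h v)) (mem_univ r)).symm
  rw [hsplit]
  calc av (F r) ≤ w r * av (h r) := hfin
    _ = 2 ^ Cut.card * (av (h r) * ∏ v ∈ univ.erase r, av (h v)) := by rw [hwr]; ring

end Pool.Agent.TFin
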