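import Pool.Agent.TFin.Targets
import Pool.Agent.TLT.BAS

set_option autoImplicit false

/-!
# SUMB: summation over all vertices
-/

namespace Pool.Agent.TFin

open Finset
open Pool.Agent.TLT (av Krn Sop dl xx)

noncomputable section

namespace SUMB_

open Pool.Agent.TLT.BAS_

variable {V : Type} [Fintype V] [DecidableEq V]

lemma sum_ite_zero (A : Finset V) (f : V → ℝ) :
    ∑ v, (if v ∈ A then 0 else f v) = ∑ v ∈ Aᶜ, f v := by
  rw [← Finset.sum_add_sum_compl A, Finset.sum_eq_zero (fun v hv => by rw [if_pos hv]), zero_add]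
  exact Finset.sum_congr rfl fun v hv => by rw [if_neg (Finset.mem_compl.1 hv)]

lemma sum_ite_one (A : Finset V) (f : V → ℝ) :
    ∑ v, (if v ∈ A then f v else 0) = ∑ v ∈ A, f v := by
  rw [← Finset.sum_add_sum_compl A, Finset.sum_eq_zero (s := Aᶜ) (fun v hv => by
    rw [if_neg (Finset.mem_compl.1 hv)]), add_zero]
  exact Finset.sum_congr rfl fun v hv => by rw [if_pos hv]

lemma mem_ch {par : V → V} {r v c : V} : c ∈ ch par r v ↔ c ≠ r ∧ par c = v := by
  unfold ch
  simp

/-- the first order terms -/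
lemma bsum (par : V → V) (r : V) (Cut A : Finset V) (H t ε : V → ℝ)
    (hs1 : ∀ F : V → ℝ, ∑ v, ∑ c ∈ ch par r v, F c = ∑ c ∈ univ.erase r, F c)
    (hε : ∀ c, ε c = 1 ∨ ε c = -1) (hA : ∀ v ∈ A, |t v| ≤ 1)
    (hC : ∀ c, c ≠ r → c ∉ Cut → |t c| ≤ 185 * H c) (hH0 : ∀ v, 0 ≤ H v)
    (hHc : ∀ v, ∑ c ∈ ch par r v, H c ≤ 4 / 3 * H v) :
    ∑ v ∈ A, (ev r ε v * t v - ∑ c ∈ ch par r v \ Cut, ε c * t c) ≤
      Cut.card + 432 * ∑ v ∈ Aᶜ, H v := by
  have e1 : ∑ v ∈ A, ev r ε v * t v =
      ∑ c ∈ univ.erase r, (if c ∈ A then ε c * t c else 0) := by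
    rw [← sum_ite_one A, ← Finset.sum_erase (s := univ) (a := r) (f := fun v =>
      if v ∈ A then ev r ε v * t v else 0) (by simp [ev])]
    refine Finset.sum_congr rfl fun c hc => ?_
    have hcr : c ≠ r := (Finset.mem_erase.1 hc).1
    simp only [ev, if_neg hcr]
  have e2 : ∑ v ∈ A, ∑ c ∈ ch par r v \ Cut, ε c * t c =
      ∑ c ∈ univ.erase r, (if par c ∈ A ∧ c ∉ Cut then ε c * t c else 0) := by
    rw [← hs1, ← sum_ite_one A]
    refine Finset.sum_congr rfl fun v _ => ?_
    by_cases hv : v ∈ A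
    · rw [if_pos hv, Finset.sdiff_eq_filter, Finset.sum_filter]
      refine Finset.sum_congr rfl fun c hc => ?_
      have hpc : par c = v := (mem_ch.1 hc).2
      by_cases h : c ∈ Cut
      · simp [h]
      · simp [h, hpc, hv]
    · rw [if_neg hv]
      symm
      refine Finset.sum_eq_zero fun c hc => ?_
      have hpc : par c = v := (mem_ch.1 hc).2
      rw [if_neg]
      rw [hpc]
      exact fun h => hv h.1
  have e3 : ∀ c, |ε c * t c| = |t c| := by
    intro c
    rw [abs_mul]
    rcases hε c with h | h <;> rw [h] <;> simp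
  have e4 : ∑ v ∈ A, (ev r ε v * t v - ∑ c ∈ ch par r v \ Cut, ε c * t c) ≤
      ∑ c ∈ univ.erase r, ((if c ∈ Cut then 1 else 0) + (if par c ∈ A then 0 else 185 * H c) +
        (if c ∈ A then 0 else 185 * H c)) := by
    rw [Finset.sum_sub_distrib, e1, e2, ← Finset.sum_sub_distrib]
    refine Finset.sum_le_sum fun c hc => ?_
    have hcr : c ≠ r := (Finset.mem_erase.1 hc).1
    have hH := hH0 c
    have f1 : ε c * t c ≤ |t c| := (le_abs_self _).trans (e3 c).le
    have f2 : -(ε c * t c) ≤ |t c| := (neg_le_abs _).trans (e3 c).le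
    by_cases h1 : c ∈ Cut
    · by_cases h2 : c ∈ A
      · have := hA c h2
        by_cases h3 : par c ∈ A
        · simp only [h1, h2, h3, not_true, and_false, if_true, if_false]
          linarith
        · simp only [h1, h2, h3, not_true, and_false, if_true, if_false]
          linarith
      · by_cases h3 : par c ∈ A
        · simp only [h1, h2, h3, not_true, and_false, if_true, if_false]
          linarith
        · simp only [h1, h2, h3, not_true, and_false, if_true, if_false]
          linarith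
    · have := hC c hcr h1
      by_cases h2 : c ∈ A
      · by_cases h3 : par c ∈ A
        · simp only [h1, h2, h3, not_false_eq_true, and_self, if_true, if_false]
          linarith
        · simp only [h1, h2, h3, not_false_eq_true, false_and, if_true, if_false]
          linarith
      · by_cases h3 : par c ∈ A
        · simp only [h1, h2, h3, not_false_eq_true, and_self, if_true, if_false]
          linarith
        · simp only [h1, h2, h3, not_false_eq_true, false_and, if_false]
          linarith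
  have e5 : ∑ c ∈ univ.erase r, (if c ∈ Cut then (1 : ℝ) else 0) ≤ Cut.card := by
    calc ∑ c ∈ univ.erase r, (if c ∈ Cut then (1 : ℝ) else 0)
        ≤ ∑ c, (if c ∈ Cut then (1 : ℝ) else 0) :=
          Finset.sum_le_sum_of_subset_of_nonneg (Finset.erase_subset _ _) (fun c _ _ => by
            split_ifs <;> norm_num)
      _ = Cut.card := by rw [sum_ite_one]; simp
  have e6 : ∑ c ∈ univ.erase r, (if par c ∈ A then 0 else 185 * H c) ≤
      185 * (4 / 3) * ∑ v ∈ Aᶜ, H v := by
    rw [← hs1, ← sum_ite_zero A, Finset.mul_sum]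
    refine Finset.sum_le_sum fun v _ => ?_
    by_cases hv : v ∈ A
    · rw [if_pos hv, mul_zero]
      refine (Finset.sum_eq_zero fun c hc => ?_).le
      have hpc : par c = v := (mem_ch.1 hc).2
      rw [if_pos (by rw [hpc]; exact hv)]
    · rw [if_neg hv]
      have : ∑ c ∈ ch par r v, (if par c ∈ A then 0 else 185 * H c) =
          185 * ∑ c ∈ ch par r v, H c := by
        rw [Finset.mul_sum]
        refine Finset.sum_congr rfl fun c hc => ?_
        have hpc : par c = v := (mem_ch.1 hc).2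
        rw [if_neg (by rw [hpc]; exact hv)]
      rw [this]
      have := hHc v
      linarith
  have e7 : ∑ c ∈ univ.erase r, (if c ∈ A then 0 else 185 * H c) ≤ 185 * ∑ v ∈ Aᶜ, H v := by
    rw [← sum_ite_zero A, Finset.mul_sum]
    refine (Finset.sum_le_sum_of_subset_of_nonneg (Finset.erase_subset _ _) (fun c _ _ => ?_)).trans
      (Finset.sum_le_sum fun c _ => ?_)
    · have := hH0 c
      split_ifs <;> linarith
    · split_ifs <;> linarith
  rw [Finset.sum_add_distrib, Finset.sum_add_distrib] at e4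
  have e8 : 0 ≤ ∑ v ∈ Aᶜ, H v := Finset.sum_nonneg fun v _ => hH0 v
  linarith

/-- the error terms -/
lemma errsum (par : V → V) (r : V) (Cut A : Finset V) (H R ey : V → ℝ) (a b x : ℝ)
    (hs1 : ∀ F : V → ℝ, ∑ v, ∑ c ∈ ch par r v, F c = ∑ c ∈ univ.erase r, F c)
    (ha : 0 ≤ a) (hb : 0 ≤ b) (hx : 0 ≤ x) (hR : ∀ v, 0 ≤ R v) (hH0 : ∀ v, 0 ≤ H v)
    (hC : ∀ c, c ≠ r → c ∉ Cut → ey c ≤ 46 * H c) :
    ∑ v ∈ A, (a * (x * R v + ∑ c ∈ ch par r v \ Cut, ey c) +
        b * (x * ((ch par r v \ (ch par r v \ Cut)).card : ℝ))) ≤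
      a * (x * ∑ v, R v + 46 * ∑ v, H v) + b * (x * Cut.card) := by
  have e1 : ∑ v ∈ A, (a * (x * R v + ∑ c ∈ ch par r v \ Cut, ey c) +
        b * (x * ((ch par r v \ (ch par r v \ Cut)).card : ℝ))) ≤
      ∑ v, (a * (x * R v + ∑ c ∈ ch par r v, 46 * H c) +
        b * (x * ∑ c ∈ ch par r v, (if c ∈ Cut then (1 : ℝ) else 0))) := by
    refine (Finset.sum_le_sum fun v _ => ?_).trans
      (Finset.sum_le_sum_of_subset_of_nonneg (Finset.subset_univ A) (fun v _ _ => ?_))
    · have f1 : ∑ c ∈ ch par r v \ Cut, ey c ≤ ∑ c ∈ ch par r v, 46 * H c := by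
        refine (Finset.sum_le_sum fun c hc => ?_).trans
          (Finset.sum_le_sum_of_subset_of_nonneg Finset.sdiff_subset (fun c _ _ => ?_))
        · rw [Finset.mem_sdiff, mem_ch] at hc
          exact hC c hc.1.1 hc.2
        · have := hH0 c
          positivity
      have f2 : ((ch par r v \ (ch par r v \ Cut)).card : ℝ) =
          ∑ c ∈ ch par r v, (if c ∈ Cut then (1 : ℝ) else 0) := by
        have g1 : ch par r v \ (ch par r v \ Cut) = (ch par r v).filter (fun c => c ∈ Cut) := by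
          ext c
          simp only [Finset.mem_sdiff, Finset.mem_filter]
          tauto
        rw [g1, Finset.sum_ite, Finset.sum_const_zero, add_zero, Finset.sum_const, nsmul_eq_mul,
          mul_one]
      rw [f2]
      have f3 := mul_le_mul_of_nonneg_left f1 ha
      linarith
    · have f1 : 0 ≤ ∑ c ∈ ch par r v, 46 * H c := Finset.sum_nonneg fun c _ => by
        have := hH0 c
        positivity
      have f2 : 0 ≤ ∑ c ∈ ch par r v, (if c ∈ Cut then (1 : ℝ) else 0) :=
        Finset.sum_nonneg fun c _ => by split_ifs <;> norm_num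
      have f3 := hR v
      positivity
  refine e1.trans ?_
  rw [Finset.sum_add_distrib, ← Finset.mul_sum, ← Finset.mul_sum, Finset.sum_add_distrib,
    ← Finset.mul_sum, ← Finset.mul_sum, hs1, hs1]
  have f1 : ∑ c ∈ univ.erase r, 46 * H c ≤ 46 * ∑ v, H v := by
    rw [Finset.mul_sum]
    exact Finset.sum_le_sum_of_subset_of_nonneg (Finset.erase_subset _ _) (fun c _ _ => by
      have := hH0 c
      positivity)
  have f2 : ∑ c ∈ univ.erase r, (if c ∈ Cut then (1 : ℝ) else 0) ≤ Cut.card := by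
    calc ∑ c ∈ univ.erase r, (if c ∈ Cut then (1 : ℝ) else 0)
        ≤ ∑ c, (if c ∈ Cut then (1 : ℝ) else 0) :=
          Finset.sum_le_sum_of_subset_of_nonneg (Finset.erase_subset _ _) (fun c _ _ => by
            split_ifs <;> norm_num)
      _ = Cut.card := by rw [sum_ite_one]; simp
  have f3 := mul_le_mul_of_nonneg_left f1 ha
  have f4 := mul_le_mul_of_nonneg_left (mul_le_mul_of_nonneg_left f2 hx) hb
  linarith

/-- the numbers -/
lemma numer (x τ T Rs Yk Yb Mb Kh C ThS HN : ℝ) (hx0 : 0 ≤ x) (hx1 : x ≤ 1) (hτ : 0 < τ)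
    (hτ1 : τ ≤ 1 / 1000000) (hT : 1 ≤ T) (hRs : 0 ≤ Rs) (hYk : 0 ≤ Yk) (hYb : 0 ≤ Yb)
    (hMb : Mb ≤ 2 * 10 ^ 7 / τ * (x * Yb)) (hKh0 : 0 ≤ Kh)
    (hKh : Kh ≤ 10 ^ 5 / τ * (x * Yb)) (hC : C ≤ 2 / τ * Mb)
    (hHN : HN ≤ x * Yk + x * Yb + Mb + 2 * Kh) :
    C + (3 / τ * Mb + 11500 * (x * Yk + Kh) + (ThS + 4 * HN +
      (T * (104 * τ) * (x * Rs + 46 * (4 * (x * Rs) + Kh)) + T * 10 * (x * C)) +
      (C + 432 * HN))) ≤
      ThS + x * (T * 20000 * τ * Rs + 12000 * Yk + T * (10 ^ 10 / τ ^ 2) * Yb) := by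
  have hT0 : 0 < T := by linarith
  set y := x * Yb with hy
  have hy0 : 0 ≤ y := mul_nonneg hx0 hYb
  obtain ⟨s, hs⟩ : ∃ s : ℝ, s = 1 / τ := ⟨_, rfl⟩
  have hs0 : 0 < s := by rw [hs]; positivity
  have hsτ : s * τ = 1 := by rw [hs]; field_simp
  have hs6 : 1000000 ≤ s := by
    by_contra hcon
    push Not at hcon
    have : s * τ < 1000000 * (1 / 1000000) := by
      calc s * τ ≤ s * (1 / 1000000) := mul_le_mul_of_nonneg_left hτ1 hs0.le
        _ < 1000000 * (1 / 1000000) := by
          apply mul_lt_mul_of_pos_right hcon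
          norm_num
    rw [hsτ] at this
    norm_num at this
  have g1 : Mb ≤ 20000000 * (s * y) := by
    have : (2 * 10 ^ 7 / τ * y : ℝ) = 20000000 * (s * y) := by rw [hs]; ring
    linarith
  have g2 : Kh ≤ 100000 * (s * y) := by
    have : (10 ^ 5 / τ * y : ℝ) = 100000 * (s * y) := by rw [hs]; ring
    linarith
  have g3 : C ≤ 2 * (s * Mb) := by
    have : (2 / τ * Mb : ℝ) = 2 * (s * Mb) := by rw [hs]; ring
    linarith
  have g3' : C ≤ 40000000 * (s * (s * y)) := by
    have := mul_le_mul_of_nonneg_left g1 hs0.le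
    linarith
  have e3 : 3 / τ * Mb ≤ 60000000 * (s * (s * y)) := by
    have h : (3 / τ * Mb : ℝ) = 3 * (s * Mb) := by rw [hs]; ring
    have := mul_le_mul_of_nonneg_left g1 hs0.le
    linarith
  have e4 : x * (T * (10 ^ 10 / τ ^ 2) * Yb) = 10000000000 * (T * (s * (s * y))) := by
    rw [hs, hy]
    field_simp
    ring
  have sy : s * y ≤ s * (s * y) / 1000000 := by
    have h : 0 ≤ s * y := by positivity
    have := mul_le_mul_of_nonneg_right hs6 h
    linarith
  have yy : y ≤ s * y := by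
    have := mul_le_mul_of_nonneg_right hs6 hy0
    linarith
  set q := s * (s * y) with hq
  have hq0 : 0 ≤ q := by positivity
  have hTq : q ≤ T * q := by
    have := mul_le_mul_of_nonneg_right hT hq0
    linarith
  -- the term with `C`
  have e5 : T * 10 * (x * C) ≤ 400000000 * (T * q) := by
    have h1 : x * C ≤ 40000000 * q := by
      by_cases hC0 : 0 ≤ C
      · calc x * C ≤ 1 * C := mul_le_mul_of_nonneg_right hx1 hC0
          _ ≤ _ := by linarith
      · push Not at hC0
        have : x * C ≤ 0 := mul_nonpos_of_nonneg_of_nonpos hx0 hC0.le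
        have : 0 ≤ 40000000 * q := by positivity
        linarith
    have h2 := mul_le_mul_of_nonneg_left h1 (by positivity : (0 : ℝ) ≤ T * 10)
    linarith
  have e6 : T * (104 * τ) * (x * Rs + 46 * (4 * (x * Rs) + Kh)) ≤
      x * (T * 20000 * τ * Rs) + T * Kh := by
    have h1 : T * (104 * τ) * (x * Rs + 46 * (4 * (x * Rs) + Kh)) =
        19240 * (T * τ * (x * Rs)) + 4784 * τ * (T * Kh) := by ring
    have h2 : x * (T * 20000 * τ * Rs) = 20000 * (T * τ * (x * Rs)) := by ring
    have h3 : 0 ≤ T * τ * (x * Rs) := by positivity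
    have h4 : 4784 * τ * (T * Kh) ≤ 1 * (T * Kh) := by
      apply mul_le_mul_of_nonneg_right _ (by positivity)
      linarith
    rw [h1, h2]
    linarith
  have e7 : T * Kh ≤ 100000 * (T * q) := by
    have h1 : Kh ≤ 100000 * q := by linarith
    have h2 := mul_le_mul_of_nonneg_left h1 hT0.le
    linarith
  have e8 : x * (T * 20000 * τ * Rs + 12000 * Yk + T * (10 ^ 10 / τ ^ 2) * Yb) =
      x * (T * 20000 * τ * Rs) + 12000 * (x * Yk) + x * (T * (10 ^ 10 / τ ^ 2) * Yb) := by ring
  rw [e8, e4]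
  have hxy : 0 ≤ x * Yk := mul_nonneg hx0 hYk
  linarith

end SUMB_

open SUMB_ Pool.Agent.TLT.BAS_ in
theorem p_SUMB (_h1 : T_REC) (h2 : T_SUMT) (h3 : T_BAN) (h4 : T_LN) (h5 : T_FV) (h6 : T_THB)
    (h7 : T_RUN1) (h8 : T_RUN2) (h9 : T_XH) (h10 : T_MB) : T_SUMB := by
  intro V _ _ par dep r hRT π hπ ε hε W _ _ K hK τ k Kb hτ hτ1 hk hkb hxK F hF
  obtain ⟨s1, -, -, -, -, -, -, s8, s9, s10, -⟩ := h2 V par dep r hRT
  obtain ⟨-, -, -, -, -, -, -, -, -, b10, b11, -, b13, b14⟩ := h3 W
  obtain ⟨-, -, k3, -, -, -, k7, k8, k9, k10, k11, k12, k13, -, -⟩ := b14 K hK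
  obtain ⟨l1, l2, l3, -, -, l6⟩ := h4 V par dep r hRT ε hε.1
  obtain ⟨f, h, X, Cut, hRun⟩ := h7 V par dep r hRT π hπ ε W K τ
  obtain ⟨H, hHd⟩ : ∃ H : V → ℝ, ∀ v, H v =
      hat par r (fun w => xx K * RR par r ε w + kap par r ε K Cut w) v := ⟨_, fun _ => rfl⟩
  have hX := h9 V par dep r hRT π hπ ε hε W K hK τ hτ hτ1 f h X Cut hRun H hHd
  -- elementary facts
  have hP0 : ∀ v, 0 ≤ PP par r ε v := fun v => (l1 v).1
  have hPR : ∀ v, (1 + PP par r ε v) ^ 2 ≤ RR par r ε v := by
    intro v
    refine le_trans ?_ (l2 v)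
    have : 0 ≤ ∑ c ∈ ch par r v, (1 + PP par r ε c) ^ 2 := Finset.sum_nonneg fun c _ => sq_nonneg _
    linarith
  have hR1 : ∀ v, 1 ≤ RR par r ε v := by
    intro v
    have h0 := hP0 v
    have := hPR v
    nlinarith
  have hR0 : ∀ v, 0 ≤ RR par r ε v := fun v => by linarith [hR1 v]
  have hkap0 : ∀ v, 0 ≤ kap par r ε K Cut v := fun v =>
    mul_nonneg k10 (Finset.sum_nonneg fun c _ => by linarith [hP0 c])
  have hRh := (s9 (RR par r ε) hR0).1
  have hRs := (s9 (RR par r ε) hR0).2
  have hKh0 : ∀ v, 0 ≤ hat par r (kap par r ε K Cut) v := fun v =>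
    (hkap0 v).trans ((s9 _ hkap0).1 v)
  have hH : ∀ v, H v = xx K * hat par r (RR par r ε) v + hat par r (kap par r ε K Cut) v := by
    intro v
    rw [hHd v]
    have := s10 (RR par r ε) (kap par r ε K Cut) (xx K) 1 v
    simp only [one_mul] at this
    exact this
  have hxR : ∀ v, xx K * RR par r ε v ≤ H v := by
    intro v
    rw [hH v]
    have := mul_le_mul_of_nonneg_left (hRh v) k12
    linarith [hKh0 v]
  have hH0 : ∀ v, 0 ≤ H v := fun v => (mul_nonneg k12 (hR0 v)).trans (hxR v)
  have hHc : ∀ v, ∑ c ∈ ch par r v, H c ≤ 4 / 3 * H v := by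
    intro v
    have e := s8 (fun w => xx K * RR par r ε w + kap par r ε K Cut w) v
    rw [← hHd v] at e
    have e' : ∑ c ∈ ch par r v, hat par r (fun w => xx K * RR par r ε w +
        kap par r ε K Cut w) c = ∑ c ∈ ch par r v, H c :=
      Finset.sum_congr rfl fun c _ => (hHd c).symm
    rw [e'] at e
    have : 0 ≤ xx K * RR par r ε v + kap par r ε K Cut v :=
      add_nonneg (mul_nonneg k12 (hR0 v)) (hkap0 v)
    linarith
  have hHs : ∑ v, H v ≤ 4 * (xx K * ∑ v, RR par r ε v) +
      ∑ v, hat par r (kap par r ε K Cut) v := by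
    have e : ∑ v, H v = xx K * ∑ v, hat par r (RR par r ε) v +
        ∑ v, hat par r (kap par r ε K Cut) v := by
      rw [Finset.mul_sum, ← Finset.sum_add_distrib]
      exact Finset.sum_congr rfl fun v _ => hH v
    rw [e]
    have := mul_le_mul_of_nonneg_left hRs k12
    linarith
  have hXH : ∀ v, X v ≤ 250 * H v := fun v => (hX v).2.2.2.2.1
  have hX0 : ∀ v, 0 ≤ X v := fun v => (hX v).2.2.2.1
  have hCut : ∀ c, c ≠ r → c ∉ Cut → X c ≤ τ := by
    intro c hc hcc
    by_contra hcon
    push Not at hcon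
    exact hcc ((hRun.cut c).2 ⟨hc, Or.inl hcon⟩)
  -- the rare vertices
  obtain ⟨m1, m2, m3⟩ := h10 V par dep r hRT π hπ (RR par r ε) (PP par r ε) X Cut (del K) τ Kb
    (∑ v ∈ univ.filter (fun v => τ < X v), X v) (Ups par r ε Kb) hP0 hPR k10 hτ hτ1
    (by exact_mod_cast (hk.trans hkb)) (by rw [k11]; exact hxK) hRun.cut hX0
    (by
      intro v
      have := hXH v
      rw [hH v, ← k11] at this
      exact this) rfl rfl
  rw [k11] at m1 m2
  -- the density of the whole tree
  have hh0 : ∀ v y, 0 ≤ h v y := fun v => (hX v).2.2.1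
  have hhpos : ∀ v, v ≠ r → v ∉ Cut → 0 < av (h v) := by
    intro v hv hvc
    have hXv := hCut v hv hvc
    have := ((hX v).2.2.2.2.2.2 hXv).1
    rw [abs_le] at this
    linarith
  have hmain := h8 V par dep r hRT π ε hε.1 W K hK τ f h X Cut hRun hh0 hhpos F hF
  -- the exponents
  obtain ⟨bb, hbb⟩ : ∃ bb : V → ℝ, ∀ v, bb v = if τ < X v then 3 / τ * X v else
      if (k : ℝ) < hat par r (RR par r ε) v then 11500 * H v else av (h v) - 1 :=
    ⟨_, fun _ => rfl⟩
  have hZb : ∀ v, av (h v) ≤ Real.exp (bb v) := by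
    intro v
    rw [hbb v]
    by_cases c1 : τ < X v
    · rw [if_pos c1]
      refine ((hX v).2.2.2.2.2.1).trans (Real.exp_le_exp.2 ?_)
      obtain ⟨s, hs⟩ : ∃ s : ℝ, s = X v / τ := ⟨_, rfl⟩
      have e1 : X v = s * τ := by rw [hs]; field_simp
      have e2 : 3 / τ * X v = 3 * s := by rw [hs]; ring
      have e3 : 1 < s := by rw [hs, lt_div_iff₀ hτ]; linarith
      rw [e2, e1]
      have : s * τ ≤ s * (1 / 1000000) := mul_le_mul_of_nonneg_left hτ1 (by linarith)
      linarith
    · rw [if_neg c1]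
      push Not at c1
      have e1 := ((hX v).2.2.2.2.2.2 c1).1
      rw [abs_le] at e1
      by_cases c2 : (k : ℝ) < hat par r (RR par r ε) v
      · rw [if_pos c2]
        have e2 := hXH v
        have e3 := Real.add_one_le_exp (11500 * H v)
        linarith
      · rw [if_neg c2]
        have e3 := Real.add_one_le_exp (av (h v) - 1)
        linarith
  have hbig : av (F r) ≤ Real.exp (Cut.card + ∑ v, bb v) := by
    refine hmain.trans ?_
    rw [Real.exp_add, Real.exp_sum]
    have e1 : (2 : ℝ) ^ Cut.card ≤ Real.exp Cut.card := by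
      have e2 : (2 : ℝ) ≤ Real.exp 1 := by
        have := Real.add_one_le_exp (1 : ℝ)
        linarith
      calc (2 : ℝ) ^ Cut.card ≤ Real.exp 1 ^ Cut.card :=
            pow_le_pow_left₀ (by norm_num) e2 _
        _ = Real.exp Cut.card := by
            rw [← Real.exp_nat_mul, mul_one]
    refine mul_le_mul e1 ?_ ?_ (Real.exp_pos _).le
    · exact Finset.prod_le_prod (fun v _ => div_nonneg (Finset.sum_nonneg fun y _ => hh0 v y)
        (Nat.cast_nonneg _)) (fun v _ => hZb v)
    · exact Finset.prod_nonneg (fun v _ => div_nonneg (Finset.sum_nonneg fun y _ => hh0 v y)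
        (Nat.cast_nonneg _))
  refine hbig.trans (Real.exp_le_exp.2 ?_)
  -- the light vertices
  obtain ⟨A, hA⟩ : ∃ A : Finset V, A = univ.filter (fun v => X v ≤ τ ∧
      hat par r (RR par r ε) v ≤ k) := ⟨_, rfl⟩
  have hAm : ∀ v, v ∈ A ↔ X v ≤ τ ∧ hat par r (RR par r ε) v ≤ k := by
    intro v
    rw [hA, Finset.mem_filter]
    exact ⟨fun h => h.2, fun h => ⟨Finset.mem_univ _, h⟩⟩
  obtain ⟨t, ht⟩ : ∃ t : V → ℝ, ∀ v, t v = av (fun y => dl K y * f v y) := ⟨_, fun _ => rfl⟩
  have ht1 : ∀ v, X v ≤ τ → |t v| ≤ 1 := by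
    intro v hv
    obtain ⟨-, g1, g2, -⟩ := (hX v).2.2.2.2.2.2 hv
    rw [ht v]
    refine ((b10 _).2.2).trans ((b11 _ (f v) fun y => ?_).trans g2.le)
    rw [abs_mul, abs_of_nonneg (g1 y)]
    exact mul_le_of_le_one_left (g1 y) (k7 y)
  have ht2 : ∀ v, X v ≤ τ → |t v| ≤ 185 * H v := by
    intro v hv
    obtain ⟨-, -, -, g3, -⟩ := (hX v).2.2.2.2.2.2 hv
    have e1 : t v = av (fun y => dl K y * (f v y - 1 - LL par r ε K v y)) +
        av (fun y => dl K y * LL par r ε K v y) := by
      have e2 : av (fun y => dl K y * f v y) =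
          av (fun y => (dl K y * (f v y - 1 - LL par r ε K v y) +
            dl K y * LL par r ε K v y) + dl K y) := by
        congr 1
        funext y
        ring
      rw [ht v, e2, av_add, av_add, k8, add_zero]
    have e3 : |av (fun y => dl K y * (f v y - 1 - LL par r ε K v y))| ≤ 184 * H v := by
      refine ((b10 _).2.2).trans ((b11 _ (fun y => |f v y - 1 - LL par r ε K v y|)
        fun y => ?_).trans g3)
      rw [abs_mul]
      exact mul_le_of_le_one_left (abs_nonneg _) (k7 y)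
    have e4 : |av (fun y => dl K y * LL par r ε K v y)| ≤ H v := by
      refine (b13 _ _).2.trans ?_
      rw [k9]
      have e5 := mul_le_mul_of_nonneg_left (l6 W K hK v).2.2.1 k10
      have e6 : del K * (del K * PP par r ε v) = xx K * PP par r ε v := by
        rw [← k11]; ring
      have e7 : PP par r ε v ≤ RR par r ε v := by
        have a1 := hPR v
        have a2 := hP0 v
        nlinarith
      have e8 := mul_le_mul_of_nonneg_left e7 k12
      have e9 := hxR v
      linarith
    rw [e1]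
    have := abs_add_le (av (fun y => dl K y * (f v y - 1 - LL par r ε K v y)))
      (av (fun y => dl K y * LL par r ε K v y))
    linarith
  have hlight : ∀ v ∈ A, av (h v) - 1 ≤
      (ev r ε v * t v - ∑ c ∈ ch par r v \ Cut, ε c * t c) +
      Th K (ch par r v) ε (ev r ε v) (LL par r ε K) +
      (3 ^ k * (104 * τ) * (xx K * RR par r ε v +
          ∑ c ∈ ch par r v \ Cut, ey K f (LL par r ε K) c) +
        3 ^ k * 10 * (xx K * ((ch par r v \ (ch par r v \ Cut)).card : ℝ))) := by
    intro v hv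
    obtain ⟨c1, c2⟩ := (hAm v).1 hv
    obtain ⟨o1, o2, -⟩ := hX v
    have hkr : (1 : ℝ) ≤ k := by exact_mod_cast hk
    have hkbr : (k : ℝ) ≤ Kb := by exact_mod_cast hkb
    have e0 := h5 V W K (ch par r v) (ch par r v \ Cut) π ε f (LL par r ε K) (PP par r ε)
      (PP par r ε v) (RR par r ε v) (LL par r ε K v) hK o1 τ (ev r ε v) k hτ hτ1
      (by rw [← o2]; exact c1)
      (by
        unfold ev
        split_ifs
        · exact Or.inl rfl
        · rcases hε.1 v with e | e
          · exact Or.inr (Or.inl e)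
          · exact Or.inr (Or.inr e))
      hk
      (by
        have a1 := l3 v
        have a2 := hRh v
        have : ((ch par r v).card : ℝ) ≤ k := by linarith
        exact_mod_cast this)
      ((hRh v).trans c2)
      (by
        have a1 := mul_le_mul_of_nonneg_left hkbr k12
        have a2 : τ ^ 2 / 10 ^ 8 ≤ τ ^ 2 := by
          have : 0 ≤ τ ^ 2 := sq_nonneg _
          linarith
        linarith)
    have e1 : hU K (ch par r v \ Cut) ε f = h v := by
      funext y
      rw [hRun.hh v y]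
      rfl
    rw [e1] at e0
    have e2 : (fun y => dl K y * (h v y / av (h v))) = fun y => dl K y * f v y := by
      funext y
      rw [hRun.ff v y]
    rw [e2, ← ht v] at e0
    have e3 : ∑ c ∈ ch par r v \ Cut, ε c * av (Sop K (f c)) =
        - ∑ c ∈ ch par r v \ Cut, ε c * t c := by
      rw [← Finset.sum_neg_distrib]
      refine Finset.sum_congr rfl fun c _ => ?_
      rw [k3, ← ht c]
      ring
    rw [e3] at e0
    have e4 := (abs_le.1 e0).2
    linarith
  -- sums
  have hBs := bsum par r Cut A H t ε s1 hε.1 (fun v hv => ht1 v ((hAm v).1 hv).1)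
    (fun c hc hcc => ht2 c (hCut c hc hcc)) hH0 hHc
  have hEs := errsum par r Cut A H (RR par r ε) (ey K f (LL par r ε K))
    (3 ^ k * (104 * τ)) (3 ^ k * 10) (xx K) s1 (by positivity) (by positivity) k12 hR0 hH0
    (fun c hc hcc => ((hX c).2.2.2.2.2.2 (hCut c hc hcc)).2.2.2.2.2.2)
  have hTs : ∑ v ∈ A, Th K (ch par r v) ε (ev r ε v) (LL par r ε K) ≤
      ∑ v, Th K (ch par r v) ε (ev r ε v) (LL par r ε K) + 4 * ∑ v ∈ Aᶜ, H v := by
    rw [← Finset.sum_add_sum_compl A (fun v => Th K (ch par r v) ε (ev r ε v) (LL par r ε K)),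
      Finset.mul_sum]
    have : 0 ≤ ∑ v ∈ Aᶜ, (Th K (ch par r v) ε (ev r ε v) (LL par r ε K) + 4 * H v) := by
      refine Finset.sum_nonneg fun v _ => ?_
      have a1 := h6 V W K (ch par r v) (ch par r v \ Cut) π ε f (LL par r ε K) (PP par r ε)
        (PP par r ε v) (RR par r ε v) (LL par r ε K v) hK (hX v).1 (ev r ε v)
        (by
          unfold ev
          split_ifs
          · exact Or.inl rfl
          · rcases hε.1 v with e | e
            · exact Or.inr (Or.inl e)
            · exact Or.inr (Or.inr e))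
      have a2 := (abs_le.1 a1).1
      have a3 := hxR v
      linarith
    rw [Finset.sum_add_distrib] at this
    linarith
  have hLs : ∑ v ∈ A, (av (h v) - 1) ≤
      ∑ v ∈ A, (ev r ε v * t v - ∑ c ∈ ch par r v \ Cut, ε c * t c) +
      ∑ v ∈ A, Th K (ch par r v) ε (ev r ε v) (LL par r ε K) +
      ∑ v ∈ A, (3 ^ k * (104 * τ) * (xx K * RR par r ε v +
          ∑ c ∈ ch par r v \ Cut, ey K f (LL par r ε K) c) +
        3 ^ k * 10 * (xx K * ((ch par r v \ (ch par r v \ Cut)).card : ℝ))) := by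
    rw [← Finset.sum_add_distrib, ← Finset.sum_add_distrib]
    exact Finset.sum_le_sum hlight
  -- the sums over the other classes
  have hRh0 : ∀ v, 0 ≤ hat par r (RR par r ε) v := fun v => (hR0 v).trans (hRh v)
  have hUk : xx K * Ups par r ε k =
      ∑ v, (if (k : ℝ) < hat par r (RR par r ε) v then xx K * hat par r (RR par r ε) v else 0) := by
    unfold Ups
    rw [Finset.mul_sum, Finset.sum_filter]
  have hUb : xx K * Ups par r ε Kb =
      ∑ v, (if (Kb : ℝ) < hat par r (RR par r ε) v then xx K * hat par r (RR par r ε) v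
        else 0) := by
    unfold Ups
    rw [Finset.mul_sum, Finset.sum_filter]
  have hMs : ∑ v ∈ univ.filter (fun v => τ < X v), X v = ∑ v, (if τ < X v then X v else 0) :=
    Finset.sum_filter _ _
  have hHN : ∑ v ∈ Aᶜ, H v ≤ xx K * Ups par r ε k + xx K * Ups par r ε Kb +
      ∑ v ∈ univ.filter (fun v => τ < X v), X v +
      2 * ∑ v, hat par r (kap par r ε K Cut) v := by
    rw [hUk, hUb, hMs, ← SUMB_.sum_ite_zero A, Finset.mul_sum, ← Finset.sum_add_distrib,
      ← Finset.sum_add_distrib, ← Finset.sum_add_distrib]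
    refine Finset.sum_le_sum fun v _ => ?_
    have a1 := hH v
    have a2 := hKh0 v
    have a3 : 0 ≤ xx K * hat par r (RR par r ε) v := mul_nonneg k12 (hRh0 v)
    have a4 := hX0 v
    by_cases c0 : v ∈ A
    · rw [if_pos c0]
      split_ifs <;> linarith
    · rw [if_neg c0]
      by_cases c1 : (k : ℝ) < hat par r (RR par r ε) v
      · rw [if_pos c1]
        split_ifs <;> linarith
      · have c2 : τ < X v := by
          by_contra hcon
          push Not at hcon c1
          exact c0 ((hAm v).2 ⟨hcon, c1⟩)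
        rw [if_neg c1, if_pos c2]
        by_cases c3 : (Kb : ℝ) < hat par r (RR par r ε) v
        · rw [if_pos c3]
          linarith
        · rw [if_neg c3]
          push Not at c3
          have a5 := mul_le_mul_of_nonneg_left c3 k12
          have a6 : τ ^ 2 / 10 ^ 8 ≤ τ := by
            have : τ ^ 2 ≤ 1 / 1000000 * τ := by
              rw [pow_two]
              exact mul_le_mul_of_nonneg_right hτ1 hτ.le
            linarith
          linarith
  have hbs : ∑ v, bb v ≤ 3 / τ * ∑ v ∈ univ.filter (fun v => τ < X v), X v +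
      11500 * (xx K * Ups par r ε k + ∑ v, hat par r (kap par r ε K Cut) v) +
      ∑ v ∈ A, (av (h v) - 1) := by
    rw [hUk, hMs, ← sum_ite_one A, ← Finset.sum_add_distrib, Finset.mul_sum, Finset.mul_sum,
      ← Finset.sum_add_distrib, ← Finset.sum_add_distrib]
    refine Finset.sum_le_sum fun v _ => ?_
    have a1 := hH v
    have a2 := hKh0 v
    have a3 : 0 ≤ xx K * hat par r (RR par r ε) v := mul_nonneg k12 (hRh0 v)
    rw [hbb v]
    by_cases c1 : τ < X v
    · have c0 : v ∉ A := fun hv => absurd ((hAm v).1 hv).1 (not_le.2 c1)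
      rw [if_pos c1, if_pos c1, if_neg c0]
      split_ifs <;> linarith
    · rw [if_neg c1, if_neg c1]
      by_cases c2 : (k : ℝ) < hat par r (RR par r ε) v
      · have c0 : v ∉ A := fun hv => absurd ((hAm v).1 hv).2 (not_le.2 c2)
        rw [if_pos c2, if_pos c2, if_neg c0]
        linarith
      · have c0 : v ∈ A := by
          push Not at c1 c2
          exact (hAm v).2 ⟨c1, c2⟩
        rw [if_neg c2, if_neg c2, if_pos c0]
        linarith
  have hYk0 : 0 ≤ Ups par r ε k := Finset.sum_nonneg fun v _ => hRh0 v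
  have hYb0 : 0 ≤ Ups par r ε Kb := Finset.sum_nonneg fun v _ => hRh0 v
  have hRs0 : 0 ≤ ∑ v, RR par r ε v := Finset.sum_nonneg fun v _ => hR0 v
  have hKs0 : 0 ≤ ∑ v, hat par r (kap par r ε K Cut) v := Finset.sum_nonneg fun v _ => hKh0 v
  have hnum := numer (xx K) τ (3 ^ k) (∑ v, RR par r ε v) (Ups par r ε k) (Ups par r ε Kb)
    (∑ v ∈ univ.filter (fun v => τ < X v), X v) (∑ v, hat par r (kap par r ε K Cut) v)
    Cut.card (∑ v, Th K (ch par r v) ε (ev r ε v) (LL par r ε K)) (∑ v ∈ Aᶜ, H v)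
    k12 k13 hτ hτ1 (one_le_pow₀ (by norm_num)) hRs0 hYk0 hYb0 m1 hKs0 m2 m3 hHN
  refine le_trans ?_ hnum
  have hlast : (3 : ℝ) ^ k * (104 * τ) * (xx K * ∑ v, RR par r ε v + 46 * ∑ v, H v) ≤
      3 ^ k * (104 * τ) * (xx K * ∑ v, RR par r ε v + 46 * (4 * (xx K * ∑ v, RR par r ε v) +
        ∑ v, hat par r (kap par r ε K Cut) v)) := by
    refine mul_le_mul_of_nonneg_left ?_ (by positivity)
    linarith
  linarith

end

end Pool.Agent.TFin
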