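import Pool.Agent.TFin.Targets

set_option autoImplicit false

namespace Pool.Agent.TFin

open Finset
open Pool.Agent.TLT (av Krn Sop dl xx)

namespace TH1_

section

variable {V : Type} [Fintype V] [DecidableEq V]

lemma mem_ch {par : V → V} {r v c : V} : c ∈ ch par r v ↔ c ≠ r ∧ par c = v := by
  unfold ch; simp

lemma fixed_card {par π : V → V} {r : V} (hπ : Pairing par r π) (v : V) :
    ((ch par r v).filter (fun c => π c = c)).card ≤ 1 := by
  rw [card_le_one]
  intro a ha a' ha'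
  rw [mem_filter, mem_ch] at ha ha'
  exact hπ.single a a' ha.1.1 ha'.1.1 (ha.1.2.trans ha'.1.2.symm) ha.2 ha'.2

lemma s0_abs {par π : V → V} {r : V} {ε : V → ℝ} (hπ : Pairing par r π) (hε : Sgn π ε)
    (v : V) : |s0 par r π ε v| ≤ 1 := by
  unfold s0
  rcases Nat.le_one_iff_eq_zero_or_eq_one.mp (fixed_card hπ v) with h | h
  · rw [card_eq_zero] at h
    rw [h]; simp
  · obtain ⟨a, ha⟩ := card_eq_one.mp h
    rw [ha, sum_singleton]
    rcases hε.1 a with h1 | h1 <;> rw [h1] <;> norm_num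

omit [Fintype V] in
lemma ev_abs {π : V → V} {r : V} {ε : V → ℝ} (hε : Sgn π ε) (v : V) : |ev r ε v| ≤ 1 := by
  unfold ev
  split_ifs
  · simp
  · rcases hε.1 v with h1 | h1 <;> rw [h1] <;> norm_num

lemma prod_ch {par π : V → V} {r : V} {ε : V → ℝ} (hπ : Pairing par r π) (hε : Sgn π ε)
    (v : V) (b : ℝ) :
    ∏ c ∈ ch par r v, (1 + ε c * b) =
      (1 - b ^ 2) ^ np par r v * (1 + s0 par r π ε v * b) := by
  classical
  have hstab : ∀ c ∈ ch par r v, π c ∈ ch par r v := by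
    intro c hc
    rw [mem_ch] at hc ⊢
    refine ⟨?_, ?_⟩
    · intro h
      apply hc.1
      rw [← hπ.inv c, h, hπ.root]
    · rw [hπ.hpar c hc.1, hc.2]
  have hone := fixed_card hπ v
  have hprodF : ∏ c ∈ (ch par r v).filter (fun c => π c = c), (1 + ε c * b) =
      1 + s0 par r π ε v * b := by
    unfold s0
    rcases Nat.le_one_iff_eq_zero_or_eq_one.mp hone with h | h
    · rw [card_eq_zero] at h
      rw [h]; simp
    · obtain ⟨a, ha⟩ := card_eq_one.mp h
      rw [ha]; simp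
  have hcard : (((ch par r v).filter (fun c => ¬ π c = c)).filter (fun c => ε c = 1)).card =
      (((ch par r v).filter (fun c => ¬ π c = c)).filter (fun c => ¬ ε c = 1)).card := by
    refine card_bij' (fun c _ => π c) (fun c _ => π c) ?_ ?_ ?_ ?_
    · intro c hc
      simp only [mem_filter] at hc ⊢
      refine ⟨⟨hstab c hc.1.1, ?_⟩, ?_⟩
      · rw [hπ.inv c]; exact fun h => hc.1.2 h.symm
      · rw [hε.2 c hc.1.2, hc.2]; norm_num
    · intro c hc
      simp only [mem_filter] at hc ⊢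
      refine ⟨⟨hstab c hc.1.1, ?_⟩, ?_⟩
      · rw [hπ.inv c]; exact fun h => hc.1.2 h.symm
      · rw [hε.2 c hc.1.2, (hε.1 c).resolve_left hc.2]; norm_num
    · intro c _; exact hπ.inv c
    · intro c _; exact hπ.inv c
  have hc1 := card_filter_add_card_filter_not (s := ch par r v) (fun c => π c = c)
  have hc2 := card_filter_add_card_filter_not
    (s := (ch par r v).filter (fun c => ¬ π c = c)) (fun c => ε c = 1)
  have hnp : np par r v =
      (((ch par r v).filter (fun c => ¬ π c = c)).filter (fun c => ε c = 1)).card := by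
    unfold np
    omega
  have hprodP : ∏ c ∈ (ch par r v).filter (fun c => ¬ π c = c), (1 + ε c * b) =
      (1 - b ^ 2) ^ np par r v := by
    rw [← prod_filter_mul_prod_filter_not ((ch par r v).filter (fun c => ¬ π c = c))
      (fun c => ε c = 1)]
    have e1 : ∏ c ∈ ((ch par r v).filter (fun c => ¬ π c = c)).filter (fun c => ε c = 1),
        (1 + ε c * b) = (1 + b) ^ np par r v := by
      rw [hnp, ← prod_const]
      refine prod_congr rfl fun c hc => ?_
      rw [(mem_filter.mp hc).2, one_mul]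
    have e2 : ∏ c ∈ ((ch par r v).filter (fun c => ¬ π c = c)).filter (fun c => ¬ ε c = 1),
        (1 + ε c * b) = (1 - b) ^ np par r v := by
      rw [hnp, hcard, ← prod_const]
      refine prod_congr rfl fun c hc => ?_
      rw [(hε.1 c).resolve_left (mem_filter.mp hc).2]; ring
    rw [e1, e2, ← mul_pow]
    congr 1
    ring
  rw [← prod_filter_mul_prod_filter_not (ch par r v) (fun c => π c = c), hprodF, hprodP]
  ring

lemma vert {par π : V → V} {r : V} {ε : V → ℝ} (hπ : Pairing par r π) (hε : Sgn π ε)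
    (v : V) (b : ℝ) :
    (∏ c ∈ ch par r v, (1 + ε c * b)) * (1 - ev r ε v * b) - 1 -
        (s0 par r π ε v - ev r ε v) * b =
      -(1 - (1 - b ^ 2) ^ np par r v) -
        (s0 par r π ε v - ev r ε v) * (b * (1 - (1 - b ^ 2) ^ np par r v)) -
        (s0 par r π ε v * ev r ε v) * (b ^ 2 * (1 - b ^ 2) ^ np par r v) := by
  rw [prod_ch hπ hε v b]
  ring

lemma tq (b : ℝ) (hb : |b| ≤ 1) (m : ℕ) :
    0 ≤ (1 - b ^ 2) ^ m ∧ (1 - b ^ 2) ^ m ≤ 1 ∧ 1 - (1 - b ^ 2) ^ m ≤ m * b ^ 2 ∧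
      (1 ≤ m → b ^ 2 ≤ 1 - (1 - b ^ 2) ^ m) := by
  have h1 : b ^ 2 ≤ 1 := by
    rw [sq_le_one_iff_abs_le_one]; exact hb
  have h0 : 0 ≤ b ^ 2 := sq_nonneg b
  have h2 : 0 ≤ 1 - b ^ 2 := by linarith
  have h3 : 1 - b ^ 2 ≤ 1 := by linarith
  refine ⟨pow_nonneg h2 m, pow_le_one₀ h2 h3, ?_, ?_⟩
  · have h4 := one_add_mul_le_pow (a := -b ^ 2) (by linarith) m
    have h5 : 1 + -b ^ 2 = 1 - b ^ 2 := by ring
    rw [h5] at h4
    linarith
  · intro hm
    have h4 := pow_le_of_le_one h2 h3 (by omega : m ≠ 0)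
    linarith

/-- one class -/
lemma cls {par π : V → V} {r : V} {ε : V → ℝ} (hπ : Pairing par r π) (hε : Sgn π ε)
    {A : Finset V}
    (hA : ∀ u ∈ A, u ≠ r ∧ (ch par r u).card = 1 ∧ ∀ c ∈ ch par r u, ε c = ε u)
    (b : ℝ) (hb : |b| ≤ 1) (m : ℕ) (S : Finset V) (hS : ∀ v ∈ S, np par r v = m) :
    ∑ v ∈ S, ((∏ c ∈ ch par r v, (1 + ε c * b)) * (1 - ev r ε v * b) - 1 -
        (s0 par r π ε v - ev r ε v) * b) ≤
      b ^ 2 * ((m : ℝ) * |∑ v ∈ S, (s0 par r π ε v - ev r ε v)| +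
        |∑ v ∈ S, (s0 par r π ε v * ev r ε v - if v ∈ A then 1 else 0)|) -
      b ^ 2 * ∑ v ∈ S, ((if 2 ≤ (ch par r v).card then (1 : ℝ) else 0) +
        if v ∈ A then 1 else 0) := by
  obtain ⟨hq0, hq1, ht, ht1⟩ := tq b hb m
  set q : ℝ := (1 - b ^ 2) ^ m with hq
  set X : ℝ := ∑ v ∈ S, (s0 par r π ε v - ev r ε v) with hX
  set Y : ℝ := ∑ v ∈ S, (s0 par r π ε v * ev r ε v - if v ∈ A then 1 else 0) with hY
  have hsum : ∑ v ∈ S, ((∏ c ∈ ch par r v, (1 + ε c * b)) * (1 - ev r ε v * b) - 1 -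
        (s0 par r π ε v - ev r ε v) * b) =
      - ∑ v ∈ S, ((1 - q) + b ^ 2 * q * (if v ∈ A then 1 else 0)) - X * (b * (1 - q)) -
        Y * (b ^ 2 * q) := by
    rw [hX, hY, sum_mul, sum_mul, ← sum_neg_distrib, ← sum_sub_distrib, ← sum_sub_distrib]
    refine sum_congr rfl fun v hv => ?_
    rw [vert hπ hε v b, hS v hv, ← hq]
    ring
  have hlow : b ^ 2 * ∑ v ∈ S, ((if 2 ≤ (ch par r v).card then (1 : ℝ) else 0) +
        if v ∈ A then 1 else 0) ≤
      ∑ v ∈ S, ((1 - q) + b ^ 2 * q * (if v ∈ A then 1 else 0)) := by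
    rw [mul_sum]
    refine sum_le_sum fun v hv => ?_
    have hn := hS v hv
    unfold np at hn
    by_cases hvA : v ∈ A
    · have h1 := (hA v hvA).2.1
      have hm : m = 0 := by rw [h1] at hn; omega
      have hq' : q = 1 := by rw [hq, hm, pow_zero]
      rw [if_pos hvA, h1, hq']
      norm_num
    · rw [if_neg hvA]
      by_cases h2 : 2 ≤ (ch par r v).card
      · rw [if_pos h2]
        have := ht1 (by omega)
        linarith
      · rw [if_neg h2]
        linarith
  have h1 : - (X * (b * (1 - q))) ≤ b ^ 2 * ((m : ℝ) * |X|) := by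
    have e1 : - (X * (b * (1 - q))) ≤ |X| * (|b| * (1 - q)) := by
      calc - (X * (b * (1 - q))) ≤ |X * (b * (1 - q))| := neg_le_abs _
        _ = |X| * (|b| * (1 - q)) := by
          rw [abs_mul, abs_mul, abs_of_nonneg (by linarith : 0 ≤ 1 - q)]
    have e2 : |b| * (1 - q) ≤ (m : ℝ) * b ^ 2 := by
      calc |b| * (1 - q) ≤ 1 * (1 - q) := by
            exact mul_le_mul_of_nonneg_right hb (by linarith)
        _ ≤ (m : ℝ) * b ^ 2 := by linarith
    calc - (X * (b * (1 - q))) ≤ |X| * (|b| * (1 - q)) := e1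
      _ ≤ |X| * ((m : ℝ) * b ^ 2) := mul_le_mul_of_nonneg_left e2 (abs_nonneg _)
      _ = b ^ 2 * ((m : ℝ) * |X|) := by ring
  have h2 : - (Y * (b ^ 2 * q)) ≤ b ^ 2 * |Y| := by
    have e1 : - (Y * (b ^ 2 * q)) ≤ |Y| * (b ^ 2 * q) := by
      calc - (Y * (b ^ 2 * q)) ≤ |Y * (b ^ 2 * q)| := neg_le_abs _
        _ = |Y| * (b ^ 2 * q) := by
          rw [abs_mul, abs_of_nonneg (mul_nonneg (sq_nonneg b) hq0)]
    have e2 : b ^ 2 * q ≤ b ^ 2 := by
      calc b ^ 2 * q ≤ b ^ 2 * 1 := mul_le_mul_of_nonneg_left hq1 (sq_nonneg b)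
        _ = b ^ 2 := mul_one _
    calc - (Y * (b ^ 2 * q)) ≤ |Y| * (b ^ 2 * q) := e1
      _ ≤ |Y| * b ^ 2 := mul_le_mul_of_nonneg_left e2 (abs_nonneg _)
      _ = b ^ 2 * |Y| := by ring
  rw [hsum]
  linarith

/-- one vertex with many children -/
lemma big {par π : V → V} {r : V} {ε : V → ℝ} (hπ : Pairing par r π) (hε : Sgn π ε)
    (b : ℝ) (hb : |b| ≤ 1) (v : V) (hv : 2 ≤ (ch par r v).card) :
    ((∏ c ∈ ch par r v, (1 + ε c * b)) * (1 - ev r ε v * b) - 1 -
        (s0 par r π ε v - ev r ε v) * b) ≤ b ^ 2 * (4 * ((ch par r v).card : ℝ) - 1) := by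
  obtain ⟨hq0, hq1, ht, -⟩ := tq b hb (np par r v)
  rw [vert hπ hε v b]
  set q : ℝ := (1 - b ^ 2) ^ np par r v with hq
  have hs := s0_abs hπ hε v
  have he := ev_abs (r := r) hε v
  set s := s0 par r π ε v
  set e := ev r ε v
  have h1 : - ((s - e) * (b * (1 - q))) ≤ 2 * ((np par r v : ℝ) * b ^ 2) := by
    have e0 : |s - e| ≤ 2 := by
      calc |s - e| ≤ |s| + |e| := abs_sub _ _
        _ ≤ 2 := by linarith
    have e2 : |b| * (1 - q) ≤ (np par r v : ℝ) * b ^ 2 := by
      calc |b| * (1 - q) ≤ 1 * (1 - q) := by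
            exact mul_le_mul_of_nonneg_right hb (by linarith)
        _ ≤ (np par r v : ℝ) * b ^ 2 := by linarith
    calc - ((s - e) * (b * (1 - q))) ≤ |(s - e) * (b * (1 - q))| := neg_le_abs _
      _ = |s - e| * (|b| * (1 - q)) := by
          rw [abs_mul, abs_mul, abs_of_nonneg (by linarith : 0 ≤ 1 - q)]
      _ ≤ 2 * (|b| * (1 - q)) :=
          mul_le_mul_of_nonneg_right e0 (mul_nonneg (abs_nonneg _) (by linarith))
      _ ≤ 2 * ((np par r v : ℝ) * b ^ 2) := by linarith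
  have h2 : - ((s * e) * (b ^ 2 * q)) ≤ b ^ 2 := by
    have e1 : |s * e| ≤ 1 := by
      rw [abs_mul]
      calc |s| * |e| ≤ 1 * 1 := mul_le_mul hs he (abs_nonneg _) (by norm_num)
        _ = 1 := by norm_num
    calc - ((s * e) * (b ^ 2 * q)) ≤ |(s * e) * (b ^ 2 * q)| := neg_le_abs _
      _ = |s * e| * (b ^ 2 * q) := by
          rw [abs_mul (s * e), abs_of_nonneg (mul_nonneg (sq_nonneg b) hq0)]
      _ ≤ 1 * (b ^ 2 * q) :=
          mul_le_mul_of_nonneg_right e1 (mul_nonneg (sq_nonneg b) hq0)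
      _ ≤ 1 * (b ^ 2 * 1) := by
          have := mul_le_mul_of_nonneg_left hq1 (sq_nonneg b)
          linarith
      _ = b ^ 2 := by ring
  have h3 : 2 * (np par r v : ℝ) ≤ ((ch par r v).card : ℝ) := by
    have : 2 * np par r v ≤ (ch par r v).card := by unfold np; omega
    exact_mod_cast this
  have h4 : (2 : ℝ) ≤ ((ch par r v).card : ℝ) := by exact_mod_cast hv
  have h5 : 2 * ((np par r v : ℝ) * b ^ 2) ≤ ((ch par r v).card : ℝ) * b ^ 2 := by
    have := mul_le_mul_of_nonneg_right h3 (sq_nonneg b)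
    linarith
  have h6 : 0 ≤ (3 * ((ch par r v).card : ℝ) - 2) * b ^ 2 :=
    mul_nonneg (by linarith) (sq_nonneg b)
  nlinarith [h1, h2, h5, h6]

lemma pt {par π : V → V} {r : V} {ε : V → ℝ} (hπ : Pairing par r π) (hε : Sgn π ε)
    {A : Finset V}
    (hA : ∀ u ∈ A, u ≠ r ∧ (ch par r u).card = 1 ∧ ∀ c ∈ ch par r u, ε c = ε u)
    (k : ℕ) (hk : 1 ≤ k) (b : ℝ) (hb : |b| ≤ 1) :
    ∑ v, ((∏ c ∈ ch par r v, (1 + ε c * b)) * (1 - ev r ε v * b) - 1 -
        (s0 par r π ε v - ev r ε v) * b) ≤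
      b ^ 2 * (PUR par r π A ε k +
        4 * ∑ v ∈ univ.filter (fun v => k < (ch par r v).card), ((ch par r v).card : ℝ) -
        ((univ.filter fun v => 2 ≤ (ch par r v).card).card + A.card : ℝ)) := by
  set g : V → ℝ := fun v => (∏ c ∈ ch par r v, (1 + ε c * b)) * (1 - ev r ε v * b) - 1 -
        (s0 par r π ε v - ev r ε v) * b with hg
  set h : V → ℝ := fun v => (if 2 ≤ (ch par r v).card then (1 : ℝ) else 0) +
        if v ∈ A then 1 else 0 with hh
  have hhsum : ∑ v, h v = ((univ.filter fun v => 2 ≤ (ch par r v).card).card + A.card : ℝ) := by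
    simp only [hh]
    rw [sum_add_distrib]
    congr 1
    · rw [sum_ite, sum_const_zero, add_zero, sum_const, nsmul_eq_mul, mul_one]
    · rw [sum_ite_mem, univ_inter, sum_const, nsmul_eq_mul, mul_one]
  have hmaps : ∀ v ∈ univ.filter (fun v => (ch par r v).card ≤ k), np par r v ∈ range (k + 1) := by
    intro v hv
    rw [mem_filter] at hv
    rw [mem_range]
    unfold np
    omega
  have hfil : ∀ m : ℕ, univ.filter (fun v => (ch par r v).card ≤ k ∧ np par r v = m) =
      (univ.filter (fun v => (ch par r v).card ≤ k)).filter (fun v => np par r v = m) := by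
    intro m
    rw [filter_filter]
  have hsplit : ∀ F : V → ℝ, ∑ v, F v = (∑ m ∈ range (k + 1),
      ∑ v ∈ univ.filter (fun v => (ch par r v).card ≤ k ∧ np par r v = m), F v) +
      ∑ v ∈ univ.filter (fun v => k < (ch par r v).card), F v := by
    intro F
    have e : ∑ m ∈ range (k + 1),
        ∑ v ∈ univ.filter (fun v => (ch par r v).card ≤ k ∧ np par r v = m), F v =
        ∑ v ∈ univ.filter (fun v => (ch par r v).card ≤ k), F v := by
      rw [← sum_fiberwise_of_maps_to hmaps]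
      refine sum_congr rfl fun m _ => ?_
      rw [hfil m]
    rw [e]
    have : univ.filter (fun v => k < (ch par r v).card) =
        univ.filter (fun v => ¬ (ch par r v).card ≤ k) := by
      refine filter_congr fun v _ => ?_
      rw [not_le]
    rw [this, sum_filter_add_sum_filter_not]
  have h1 : ∑ m ∈ range (k + 1),
      ∑ v ∈ univ.filter (fun v => (ch par r v).card ≤ k ∧ np par r v = m), g v ≤
      b ^ 2 * PUR par r π A ε k - b ^ 2 * ∑ m ∈ range (k + 1),
      ∑ v ∈ univ.filter (fun v => (ch par r v).card ≤ k ∧ np par r v = m), h v := by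
    unfold PUR
    rw [mul_sum, mul_sum, ← sum_sub_distrib]
    refine sum_le_sum fun m _ => ?_
    refine cls hπ hε hA b hb m _ fun v hv => ?_
    exact (mem_filter.mp hv).2.2
  have h2 : ∑ v ∈ univ.filter (fun v => k < (ch par r v).card), g v ≤
      b ^ 2 * (4 * ∑ v ∈ univ.filter (fun v => k < (ch par r v).card),
        ((ch par r v).card : ℝ)) -
      b ^ 2 * ∑ v ∈ univ.filter (fun v => k < (ch par r v).card), h v := by
    rw [← mul_sub, mul_sum, ← sum_sub_distrib, mul_sum]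
    refine sum_le_sum fun v hv => ?_
    have hv2 := (mem_filter.mp hv).2
    have hv3 : 2 ≤ (ch par r v).card := by omega
    have hvA : v ∉ A := fun h => by
      have := (hA v h).2.1
      omega
    have e1 : h v = 1 := by
      simp only [hh]
      rw [if_pos hv3, if_neg hvA, add_zero]
    rw [e1]
    exact big hπ hε b hb v hv3
  have h3 := hsplit g
  have h4 := hsplit h
  rw [← hhsum, h3, h4]
  nlinarith [h1, h2]

end

lemma av_sum {W : Type} [Fintype W] {V : Type} [Fintype V] (F : V → W → ℝ) :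
    ∑ v, av (F v) = av (fun y => ∑ v, F v y) := by
  unfold av
  rw [← sum_div, sum_comm]

lemma av_mono {W : Type} [Fintype W] {f g : W → ℝ} (h : ∀ y, f y ≤ g y) : av f ≤ av g := by
  unfold av
  exact div_le_div_of_nonneg_right (sum_le_sum fun y _ => h y) (Nat.cast_nonneg _)

lemma av_lin {W : Type} [Fintype W] [Nonempty W] (f g : W → ℝ) (c : ℝ) (hg : av g = 0) :
    av (fun y => f y - 1 - c * g y) = av f - 1 := by
  have hW : (Fintype.card W : ℝ) ≠ 0 := by
    exact_mod_cast Fintype.card_ne_zero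
  have h1 : ∑ y, g y = 0 := by
    unfold av at hg
    rw [div_eq_zero_iff] at hg
    exact hg.resolve_right hW
  unfold av
  rw [sum_sub_distrib, sum_sub_distrib, ← mul_sum, h1, mul_zero, sub_zero, sub_div]
  congr 1
  rw [sum_const, card_univ, nsmul_eq_mul, mul_one, div_self hW]

lemma av_smul {W : Type} [Fintype W] (c : ℝ) (f : W → ℝ) :
    av (fun y => f y * c) = av f * c := by
  unfold av
  rw [← sum_mul, div_mul_eq_mul_div]

end TH1_

open TH1_ in
theorem p_TH1 (h1 : T_BAN) : T_TH1 := by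
  intro V _ _ par dep r _ π hπ ε hε A hA W _ _ K hK k hk
  obtain ⟨-, -, -, -, -, -, -, -, -, -, -, -, -, hB⟩ := h1 W
  obtain ⟨-, -, -, -, -, -, hdl, hav, -⟩ := hB K hK
  have e1 : ∑ v, (av (fun y => (∏ c ∈ ch par r v, (1 + ε c * dl K y)) *
      (1 - ev r ε v * dl K y)) - 1) =
      av (fun y => ∑ v, ((∏ c ∈ ch par r v, (1 + ε c * dl K y)) * (1 - ev r ε v * dl K y) - 1 -
        (s0 par r π ε v - ev r ε v) * dl K y)) := by
    rw [← av_sum]
    refine sum_congr rfl fun v _ => ?_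
    rw [av_lin _ _ _ hav]
  rw [e1]
  unfold xx
  rw [← av_smul]
  exact av_mono fun y => pt hπ hε hA k hk (dl K y) (hdl y)

end Pool.Agent.TFin
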