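import Pool.Agent.TFin.Targets

set_option autoImplicit false

/-!
# THB: degree free bound for the main term
-/

namespace Pool.Agent.TFin

open Finset
open Pool.Agent.TLT (av Krn Sop dl xx)

noncomputable section

namespace THB_

section Av

variable {W : Type} [Fintype W]

theorem av_add (f g : W → ℝ) : (av fun x => f x + g x) = av f + av g := by
  unfold av
  rw [sum_add_distrib, add_div]

theorem av_sub (f g : W → ℝ) : (av fun x => f x - g x) = av f - av g := by
  unfold av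
  rw [sum_sub_distrib, sub_div]

theorem av_mul (c : ℝ) (f : W → ℝ) : (av fun x => c * f x) = c * av f := by
  unfold av
  rw [← mul_sum, mul_div_assoc]

theorem av_const [Nonempty W] (c : ℝ) : (av fun _ : W => c) = c := by
  unfold av
  rw [sum_const, card_univ, nsmul_eq_mul]
  have h : (Fintype.card W : ℝ) ≠ 0 := by
    exact_mod_cast Fintype.card_ne_zero
  field_simp

theorem av_mono {f g : W → ℝ} (h : ∀ x, f x ≤ g x) : av f ≤ av g := by
  unfold av
  exact div_le_div_of_nonneg_right (sum_le_sum fun x _ => h x) (Nat.cast_nonneg _)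

theorem av_sum {I : Type} (s : Finset I) (f : I → W → ℝ) :
    (av fun x => ∑ i ∈ s, f i x) = ∑ i ∈ s, av (f i) := by
  unfold av
  rw [sum_comm, sum_div]

end Av

/-- products over pairs -/
theorem pair {V : Type} [DecidableEq V] (C : Finset V) (π : V → V) (ε : V → ℝ)
    (pC : ∀ c ∈ C, π c ∈ C) (inv : ∀ c ∈ C, π (π c) = c) (e1 : ∀ c ∈ C, ε c = 1 ∨ ε c = -1)
    (e2 : ∀ c ∈ C, π c ≠ c → ε (π c) = - ε c)
    (one : ∀ c ∈ C, ∀ c' ∈ C, π c = c → π c' = c' → c = c') :
    ∃ (m : ℕ) (s : ℝ), 2 * m ≤ C.card ∧ (s = 0 ∨ s = 1 ∨ s = -1) ∧ ∑ c ∈ C, ε c = s ∧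
      ∀ b : ℝ, ∏ c ∈ C, (1 + ε c * b) = (1 - b ^ 2) ^ m * (1 + s * b) := by
  classical
  set Cf := C.filter (fun c => π c = c) with hCf
  set Cp := C.filter (fun c => π c ≠ c ∧ ε c = 1) with hCp
  set Cm := C.filter (fun c => π c ≠ c ∧ ε c = -1) with hCm
  have hcard : Cp.card = Cm.card := by
    refine card_nbij' π π ?_ ?_ ?_ ?_
    · intro c hc
      rw [hCp, mem_coe, mem_filter] at hc
      rw [hCm, mem_coe, mem_filter]
      refine ⟨pC c hc.1, ?_, ?_⟩
      · rw [inv c hc.1]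
        exact fun h => hc.2.1 h.symm
      · rw [e2 c hc.1 hc.2.1, hc.2.2]
    · intro c hc
      rw [hCm, mem_coe, mem_filter] at hc
      rw [hCp, mem_coe, mem_filter]
      refine ⟨pC c hc.1, ?_, ?_⟩
      · rw [inv c hc.1]
        exact fun h => hc.2.1 h.symm
      · rw [e2 c hc.1 hc.2.1, hc.2.2]
        norm_num
    · intro c hc
      rw [hCp, mem_coe, mem_filter] at hc
      exact inv c hc.1
    · intro c hc
      rw [hCm, mem_coe, mem_filter] at hc
      exact inv c hc.1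
  have hdis : Disjoint Cp Cm := by
    rw [disjoint_left]
    intro c h1 h2
    rw [hCp, mem_filter] at h1
    rw [hCm, mem_filter] at h2
    have h3 := h1.2.2
    rw [h2.2.2] at h3
    norm_num at h3
  have hdis2 : Disjoint Cf (Cp ∪ Cm) := by
    rw [disjoint_left]
    intro c h1 h2
    rw [hCf, mem_filter] at h1
    rw [mem_union, hCp, hCm, mem_filter, mem_filter] at h2
    rcases h2 with h2 | h2
    · exact h2.2.1 h1.2
    · exact h2.2.1 h1.2
  have hun : C = Cf ∪ (Cp ∪ Cm) := by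
    ext c
    rw [mem_union, mem_union, hCf, hCp, hCm, mem_filter, mem_filter, mem_filter]
    constructor
    · intro hc
      by_cases h : π c = c
      · exact Or.inl ⟨hc, h⟩
      · rcases e1 c hc with h1 | h1
        · exact Or.inr (Or.inl ⟨hc, h, h1⟩)
        · exact Or.inr (Or.inr ⟨hc, h, h1⟩)
    · rintro (h | h | h)
      · exact h.1
      · exact h.1
      · exact h.1
  have hC : C.card = Cf.card + (Cp.card + Cm.card) := by
    rw [← card_union_of_disjoint hdis, ← card_union_of_disjoint hdis2, ← hun]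
  have hf : ∃ s : ℝ, (s = 0 ∨ s = 1 ∨ s = -1) ∧ ∑ c ∈ Cf, ε c = s ∧
      ∀ b : ℝ, ∏ c ∈ Cf, (1 + ε c * b) = 1 + s * b := by
    rcases Cf.eq_empty_or_nonempty with h | ⟨c0, hc0⟩
    · refine ⟨0, Or.inl rfl, ?_, ?_⟩
      · rw [h, sum_empty]
      · intro b
        rw [h, prod_empty, zero_mul, add_zero]
    · have h0 := hc0
      rw [hCf, mem_filter] at h0
      have hs : Cf = {c0} := by
        ext c
        rw [mem_singleton]
        constructor
        · intro hc
          rw [hCf, mem_filter] at hc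
          exact one c hc.1 c0 h0.1 hc.2 h0.2
        · rintro rfl
          exact hc0
      refine ⟨ε c0, Or.inr (e1 c0 h0.1), ?_, ?_⟩
      · rw [hs, sum_singleton]
      · intro b
        rw [hs, prod_singleton]
  obtain ⟨s, hs, hs1, hs2⟩ := hf
  refine ⟨Cp.card, s, by omega, hs, ?_, ?_⟩
  · rw [hun, sum_union hdis2, sum_union hdis, hs1]
    have h1 : ∑ c ∈ Cp, ε c = Cp.card := by
      rw [sum_congr rfl (fun c hc => (by rw [hCp, mem_filter] at hc; exact hc.2.2 : ε c = 1))]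
      simp
    have h2 : ∑ c ∈ Cm, ε c = - Cm.card := by
      rw [sum_congr rfl (fun c hc => (by rw [hCm, mem_filter] at hc; exact hc.2.2 : ε c = -1))]
      simp
    rw [h1, h2, hcard]
    ring
  · intro b
    rw [hun, prod_union hdis2, prod_union hdis, hs2]
    have h1 : ∏ c ∈ Cp, (1 + ε c * b) = (1 + b) ^ Cp.card := by
      rw [prod_congr rfl (fun c hc => (by
        rw [hCp, mem_filter] at hc; rw [hc.2.2, one_mul] : 1 + ε c * b = 1 + b))]
      rw [prod_const]
    have h2 : ∏ c ∈ Cm, (1 + ε c * b) = (1 - b) ^ Cm.card := by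
      rw [prod_congr rfl (fun c hc => (by
        rw [hCm, mem_filter] at hc; rw [hc.2.2]; ring : 1 + ε c * b = 1 - b))]
      rw [prod_const]
    rw [h1, h2, ← hcard, ← mul_pow]
    have h3 : (1 + b) * (1 - b) = 1 - b ^ 2 := by ring
    rw [h3]
    ring

/-- the pointwise bound of the first summand -/
theorem gb (m : ℕ) (s e b : ℝ) (hs : s = 0 ∨ s = 1 ∨ s = -1) (he : e = 0 ∨ e = 1 ∨ e = -1)
    (hb : |b| ≤ 1) :
    |(1 - b ^ 2) ^ m * (1 + s * b) * (1 - e * b) - 1 - (s - e) * b| ≤ (4 * m + 1) * b ^ 2 := by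
  have hb' := abs_le.mp hb
  have hb2 : b ^ 2 ≤ 1 := by nlinarith
  have hb0 : 0 ≤ b ^ 2 := sq_nonneg b
  have h1 : (1 - b ^ 2) ^ m ≤ 1 := pow_le_one₀ (by linarith) (by linarith)
  have h0 : 0 ≤ (1 - b ^ 2) ^ m := pow_nonneg (by linarith) _
  have h2 : 1 - m * b ^ 2 ≤ (1 - b ^ 2) ^ m := by
    have h3 := one_add_mul_le_pow (show (-2 : ℝ) ≤ -(b ^ 2) by linarith) m
    have h4 : (1 + -(b ^ 2)) = 1 - b ^ 2 := by ring
    rw [h4] at h3
    linarith
  set q := (1 - b ^ 2) ^ m with hq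
  have hsb : |s * b| ≤ 1 := by
    rcases hs with h | h | h <;> rw [h] <;> rw [abs_mul] <;> simp [hb]
  have heb : |e * b| ≤ 1 := by
    rcases he with h | h | h <;> rw [h] <;> rw [abs_mul] <;> simp [hb]
  have hse : |s * e| ≤ 1 := by
    rcases hs with h | h | h <;> rcases he with h' | h' | h' <;> rw [h, h'] <;> norm_num
  have hs' := abs_le.mp hsb
  have he' := abs_le.mp heb
  have hse' := abs_le.mp hse
  have hu0 : 0 ≤ (1 + s * b) * (1 - e * b) := mul_nonneg (by linarith) (by linarith)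
  have hu4 : (1 + s * b) * (1 - e * b) ≤ 2 * 2 :=
    mul_le_mul (by linarith) (by linarith) (by linarith) (by norm_num)
  have e3 : q * (1 + s * b) * (1 - e * b) - 1 - (s - e) * b =
      -(s * e) * b ^ 2 - (1 - q) * ((1 + s * b) * (1 - e * b)) := by ring
  rw [e3]
  have h5 : (1 - q) * ((1 + s * b) * (1 - e * b)) ≤ m * b ^ 2 * (2 * 2) :=
    mul_le_mul (by linarith) hu4 hu0 (by positivity)
  have h6 : 0 ≤ (1 - q) * ((1 + s * b) * (1 - e * b)) := mul_nonneg (by linarith) hu0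
  rw [abs_le]
  constructor
  · nlinarith
  · nlinarith

end THB_

open THB_

theorem p_THB (h1 : T_BAN) : T_THB := by
  intro V W _ _ _ K C U π ε f L P Pv R Lv hK hO e he
  obtain ⟨-, -, -, -, b5, -, -, -, -, -, -, -, b13, bK⟩ := h1 W
  obtain ⟨-, k2, -, -, -, -, k7, k8, k9, k10, k11, k12, -, -, -⟩ := bK K hK
  obtain ⟨m, s, hm, hs, hsum, hprod⟩ := pair C π ε hO.pC hO.inv hO.e1 hO.e2 hO.one
  set β := dl K with hβ
  set d := del K with hd
  have hS2 : ∀ c ∈ C, n2 (Sop K (L c)) ≤ 5 / 7 * (d * P c) := fun c hc =>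
    ((k2 (L c)).1).trans (by linarith [hO.L2 c hc])
  have hPd : ∀ c ∈ C, 0 ≤ d * P c := fun c hc => mul_nonneg k10 (hO.P0 c hc)
  -- the scalar products with `β`
  have hbS : ∀ c ∈ C, |av fun y => β y * Sop K (L c) y| ≤ 5 / 7 * (xx K * P c) := by
    intro c hc
    refine ((b13 β (Sop K (L c))).2).trans ?_
    rw [k9, ← k11]
    have := mul_le_mul_of_nonneg_left (hS2 c hc) k10
    calc d * n2 (Sop K (L c)) ≤ d * (5 / 7 * (d * P c)) := this
      _ = 5 / 7 * (d ^ 2 * P c) := by ring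
  -- first summand
  have t1 : |av (fun y => (∏ c ∈ C, (1 + ε c * β y)) * (1 - e * β y)) - 1| ≤
      (2 * C.card + 1) * xx K := by
    have e1 : av (fun y => (∏ c ∈ C, (1 + ε c * β y)) * (1 - e * β y)) - 1 =
        av (fun y => (1 - β y ^ 2) ^ m * (1 + s * β y) * (1 - e * β y) - 1 -
          (s - e) * β y) := by
      rw [av_sub, av_sub, av_mul, k8, av_const, mul_zero, sub_zero]
      congr 1
      congr 1
      funext y
      rw [hprod]
    rw [e1]
    have e2 : ∀ y, |(1 - β y ^ 2) ^ m * (1 + s * β y) * (1 - e * β y) - 1 - (s - e) * β y| ≤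
        (2 * C.card + 1) * β y ^ 2 := by
      intro y
      refine (gb m s e (β y) hs he (k7 y)).trans ?_
      refine mul_le_mul_of_nonneg_right ?_ (sq_nonneg _)
      have : (2 * m : ℝ) ≤ C.card := by exact_mod_cast hm
      linarith
    rw [abs_le]
    have e3 : av (fun y => (2 * (C.card : ℝ) + 1) * β y ^ 2) = (2 * C.card + 1) * xx K := by
      rw [av_mul]
      rfl
    constructor
    · rw [← e3]
      have e4 : -av (fun y => (2 * (C.card : ℝ) + 1) * β y ^ 2) =
          av (fun y => (-1) * ((2 * (C.card : ℝ) + 1) * β y ^ 2)) := by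
        rw [av_mul (-1) (fun y => (2 * (C.card : ℝ) + 1) * β y ^ 2), neg_one_mul]
      rw [e4]
      exact av_mono (fun y => by linarith [(abs_le.mp (e2 y)).1])
    · rw [← e3]
      exact av_mono (fun y => (abs_le.mp (e2 y)).2)
  -- second summand
  have t2 : |∑ c ∈ C, ∑ c' ∈ C.erase c, ε c * ε c' * av (fun y => β y * Sop K (L c) y)| ≤
      10 / 7 * (xx K * ∑ c ∈ C, P c) := by
    have e1 : ∀ c ∈ C, ∑ c' ∈ C.erase c, ε c * ε c' * av (fun y => β y * Sop K (L c) y) =
        ε c * (s - ε c) * av (fun y => β y * Sop K (L c) y) := by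
      intro c hc
      rw [← sum_mul, ← mul_sum, ← hsum, ← add_sum_erase C ε hc]
      ring
    rw [sum_congr rfl e1]
    refine (abs_sum_le_sum_abs _ _).trans ?_
    rw [mul_sum, mul_sum]
    refine sum_le_sum (fun c hc => ?_)
    rw [abs_mul]
    have e2 : |ε c * (s - ε c)| ≤ 2 := by
      rcases hO.e1 c hc with h | h <;> rcases hs with h' | h' | h' <;> rw [h, h'] <;> norm_num
    have e3 := hbS c hc
    have e4 : 0 ≤ xx K * P c := mul_nonneg k12 (hO.P0 c hc)
    calc |ε c * (s - ε c)| * |av fun y => β y * Sop K (L c) y|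
        ≤ 2 * (5 / 7 * (xx K * P c)) := mul_le_mul e2 e3 (abs_nonneg _) (by norm_num)
      _ = 10 / 7 * (xx K * P c) := by ring
  -- third summand
  have t3 : |1 / 2 * ∑ c ∈ C, ∑ c' ∈ C.erase c,
      ε c * ε c' * av (fun y => Sop K (L c) y * Sop K (L c') y)| ≤
      1 / 2 * (xx K * (Pv ^ 2 + ∑ c ∈ C, P c ^ 2)) := by
    have e1 : (av fun y => (∑ c ∈ C, ε c * Sop K (L c) y) ^ 2) =
        ∑ c ∈ C, ∑ c' ∈ C, ε c * ε c' * av (fun y => Sop K (L c) y * Sop K (L c') y) := by
      have e2 : (fun y => (∑ c ∈ C, ε c * Sop K (L c) y) ^ 2) =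
          fun y => ∑ c ∈ C, ∑ c' ∈ C, ε c * ε c' * (Sop K (L c) y * Sop K (L c') y) := by
        funext y
        rw [sq, sum_mul_sum]
        refine sum_congr rfl (fun c _ => sum_congr rfl (fun c' _ => by ring))
      rw [e2, av_sum]
      refine sum_congr rfl (fun c _ => ?_)
      rw [av_sum]
      exact sum_congr rfl (fun c' _ => av_mul _ _)
    have e2 : ∑ c ∈ C, ∑ c' ∈ C.erase c,
        ε c * ε c' * av (fun y => Sop K (L c) y * Sop K (L c') y) =
        (av fun y => (∑ c ∈ C, ε c * Sop K (L c) y) ^ 2) -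
          ∑ c ∈ C, av fun y => Sop K (L c) y ^ 2 := by
      rw [e1, ← sum_sub_distrib]
      refine sum_congr rfl (fun c hc => ?_)
      rw [← add_sum_erase C _ hc]
      have e3 : ε c * ε c = 1 := by
        rcases hO.e1 c hc with h | h <;> rw [h] <;> norm_num
      rw [e3, one_mul]
      have e4 : (fun y => Sop K (L c) y * Sop K (L c) y) = fun y => Sop K (L c) y ^ 2 := by
        funext y; ring
      rw [e4]
      ring
    rw [e2]
    have e5 : (av fun y => (∑ c ∈ C, ε c * Sop K (L c) y) ^ 2) ≤ xx K * Pv ^ 2 := by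
      rw [← (b5 _).2, ← k11]
      have := pow_le_pow_left₀ (b5 _).1 hO.G2 2
      calc _ ≤ (d * Pv) ^ 2 := this
        _ = d ^ 2 * Pv ^ 2 := by ring
    have e6 : 0 ≤ av fun y => (∑ c ∈ C, ε c * Sop K (L c) y) ^ 2 := by
      rw [← (b5 _).2]
      positivity
    have e7 : ∑ c ∈ C, (av fun y => Sop K (L c) y ^ 2) ≤ xx K * ∑ c ∈ C, P c ^ 2 := by
      rw [mul_sum]
      refine sum_le_sum (fun c hc => ?_)
      rw [← (b5 _).2, ← k11]
      have e8 : n2 (Sop K (L c)) ≤ d * P c := (hS2 c hc).trans (by linarith [hPd c hc])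
      have := pow_le_pow_left₀ (b5 _).1 e8 2
      calc _ ≤ (d * P c) ^ 2 := this
        _ = d ^ 2 * P c ^ 2 := by ring
    have e9 : 0 ≤ ∑ c ∈ C, (av fun y => Sop K (L c) y ^ 2) := by
      refine sum_nonneg (fun c _ => ?_)
      rw [← (b5 _).2]
      positivity
    rw [abs_le]
    constructor
    · nlinarith
    · nlinarith
  -- fourth summand
  have t4 : |e * ∑ c ∈ C, ε c * av (fun y => β y * Sop K (L c) y)| ≤ xx K * Pv := by
    have e1 : ∑ c ∈ C, ε c * av (fun y => β y * Sop K (L c) y) =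
        av fun y => β y * ∑ c ∈ C, ε c * Sop K (L c) y := by
      have e2 : (fun y => β y * ∑ c ∈ C, ε c * Sop K (L c) y) =
          fun y => ∑ c ∈ C, ε c * (β y * Sop K (L c) y) := by
        funext y
        rw [mul_sum]
        exact sum_congr rfl (fun c _ => by ring)
      rw [e2, av_sum]
      exact sum_congr rfl (fun c _ => (av_mul _ _).symm)
    have e3 : |av fun y => β y * ∑ c ∈ C, ε c * Sop K (L c) y| ≤ xx K * Pv := by
      refine ((b13 β _).2).trans ?_
      rw [k9, ← k11]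
      have := mul_le_mul_of_nonneg_left hO.G2 k10
      calc _ ≤ d * (d * Pv) := this
        _ = d ^ 2 * Pv := by ring
    rw [e1, abs_mul]
    have e4 : |e| ≤ 1 := by
      rcases he with h | h | h <;> rw [h] <;> norm_num
    calc |e| * |av fun y => β y * ∑ c ∈ C, ε c * Sop K (L c) y| ≤ 1 * (xx K * Pv) :=
          mul_le_mul e4 e3 (abs_nonneg _) zero_le_one
      _ = xx K * Pv := one_mul _
  -- sum
  have hR := hO.hR
  have hR1 : (1 : ℝ) + 2 * Pv + Pv ^ 2 + (C.card + 2 * ∑ c ∈ C, P c + ∑ c ∈ C, P c ^ 2) ≤ R := by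
    have e1 : ∑ c ∈ C, (1 + P c) ^ 2 = C.card + 2 * ∑ c ∈ C, P c + ∑ c ∈ C, P c ^ 2 := by
      have e2 : ∀ c ∈ C, (1 + P c) ^ 2 = 1 + 2 * P c + P c ^ 2 := fun c _ => by ring
      rw [sum_congr rfl e2, sum_add_distrib, sum_add_distrib, ← mul_sum]
      simp
    rw [e1] at hR
    linarith
  have hP0 : 0 ≤ ∑ c ∈ C, P c := sum_nonneg hO.P0
  have hP2 : 0 ≤ ∑ c ∈ C, P c ^ 2 := sum_nonneg fun c _ => sq_nonneg _
  have hC0 : (0 : ℝ) ≤ C.card := Nat.cast_nonneg _
  have hPv2 : 0 ≤ Pv ^ 2 := sq_nonneg _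
  have hPv := hO.Pv0
  have hfin : (2 * C.card + 1) * xx K + 10 / 7 * (xx K * ∑ c ∈ C, P c) +
      1 / 2 * (xx K * (Pv ^ 2 + ∑ c ∈ C, P c ^ 2)) + xx K * Pv ≤ 4 * (xx K * R) := by
    have e1 : (2 * C.card + 1) * xx K + 10 / 7 * (xx K * ∑ c ∈ C, P c) +
      1 / 2 * (xx K * (Pv ^ 2 + ∑ c ∈ C, P c ^ 2)) + xx K * Pv =
      xx K * ((2 * C.card + 1) + 10 / 7 * ∑ c ∈ C, P c +
        1 / 2 * (Pv ^ 2 + ∑ c ∈ C, P c ^ 2) + Pv) := by ring
    rw [e1]
    have e2 : (2 * (C.card : ℝ) + 1) + 10 / 7 * ∑ c ∈ C, P c +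
        1 / 2 * (Pv ^ 2 + ∑ c ∈ C, P c ^ 2) + Pv ≤ 4 * R := by linarith
    have := mul_le_mul_of_nonneg_left e2 k12
    linarith
  unfold Th
  rw [← hβ]
  refine le_trans ?_ hfin
  have a1 := abs_le.mp t1
  have a2 := abs_le.mp t2
  have a3 := abs_le.mp t3
  have a4 := abs_le.mp t4
  rw [abs_le]
  constructor
  · linarith [a1.1, a2.1, a3.1, a4.2]
  · linarith [a1.2, a2.2, a3.2, a4.1]

end

end Pool.Agent.TFin
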