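import Pool.Agent.TFin.Targets

set_option autoImplicit false

/-!
# The second order part of the main terms (job THS)
-/

namespace Pool.Agent.TFin

open Finset
open Pool.Agent.TLT (av Krn Sop dl xx)

namespace THS_

section av

variable {W : Type} [Fintype W]

theorem av_mul (c : ℝ) (f : W → ℝ) : av (fun y => c * f y) = c * av f := by
  simp only [av, ← Finset.mul_sum, mul_div_assoc]

theorem av_sum {I : Type} (s : Finset I) (f : I → W → ℝ) :
    av (fun y => ∑ i ∈ s, f i y) = ∑ i ∈ s, av (f i) := by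
  unfold av
  rw [Finset.sum_comm, Finset.sum_div]

end av

end THS_

open THS_

theorem p_THS (h1 : T_SUMT) (h2 : T_BAN) (h3 : T_LN) : T_THS := by
  intro V _ _ par dep r hT ε hε W _ _ K hK
  obtain ⟨s1, -⟩ := h1 V par dep r hT
  obtain ⟨b1, b2, b3, b4, b5, b6, b7, b8, b9, b10, b11, b12, b13, b14⟩ := h2 W
  obtain ⟨k1, k2, k3, k4, k5, k6, k7, k8, k9, k10, k11, k12, k13, k14, k15⟩ := b14 K hK
  obtain ⟨l1, l2, l3, l4, l5, l6⟩ := h3 V par dep r hT ε hε
  obtain ⟨N, hN⟩ : ∃ N, N = Fintype.card V := ⟨_, rfl⟩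
  obtain ⟨a, ha⟩ : ∃ a : ℕ → ℝ, a = fun i => av fun y => dl K y * ((Sop K)^[i + 1] (dl K)) y :=
    ⟨_, rfl⟩
  obtain ⟨q, hq⟩ : ∃ q : ℕ → ℕ → ℝ, q = fun i j => av fun y =>
    ((Sop K)^[i + 1] (dl K)) y * ((Sop K)^[j + 1] (dl K)) y := ⟨_, rfl⟩
  have hSL : ∀ c y, Sop K (LL par r ε K c) y =
      ∑ j ∈ range N, NN par r ε (j + 1) c * ((Sop K)^[j + 1] (dl K)) y := by
    intro c y
    rw [hN]
    exact (l6 W K hK c).2.1 y
  have hav1 : ∀ c, av (fun y => dl K y * Sop K (LL par r ε K c) y) =
      ∑ j ∈ range N, NN par r ε (j + 1) c * a j := by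
    intro c
    have e : (fun y => dl K y * Sop K (LL par r ε K c) y) = fun y => ∑ j ∈ range N,
        NN par r ε (j + 1) c * (dl K y * ((Sop K)^[j + 1] (dl K)) y) := by
      funext y
      rw [hSL, Finset.mul_sum]
      refine Finset.sum_congr rfl fun j _ => ?_
      ring
    rw [e, av_sum]
    refine Finset.sum_congr rfl fun j _ => ?_
    rw [av_mul, ha]
  have hav2 : ∀ c c', av (fun y => Sop K (LL par r ε K c) y * Sop K (LL par r ε K c') y) =
      ∑ i ∈ range N, ∑ j ∈ range N, NN par r ε (i + 1) c * NN par r ε (j + 1) c' * q i j := by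
    intro c c'
    have e : (fun y => Sop K (LL par r ε K c) y * Sop K (LL par r ε K c') y) =
        fun y => ∑ i ∈ range N, ∑ j ∈ range N,
        NN par r ε (i + 1) c * NN par r ε (j + 1) c' *
          (((Sop K)^[i + 1] (dl K)) y * ((Sop K)^[j + 1] (dl K)) y) := by
      funext y
      rw [hSL, hSL, Finset.sum_mul_sum]
      refine Finset.sum_congr rfl fun i _ => Finset.sum_congr rfl fun j _ => ?_
      ring
    rw [e, av_sum]
    refine Finset.sum_congr rfl fun i _ => ?_
    rw [av_sum]
    refine Finset.sum_congr rfl fun j _ => ?_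
    rw [av_mul, hq]
  have hNN0 : ∀ c, NN par r ε 0 c = 1 := fun c => rfl
  -- second summand
  have hsec : ∑ v, ∑ c ∈ ch par r v, ∑ c' ∈ (ch par r v).erase c,
      ε c * ε c' * av (fun y => dl K y * Sop K (LL par r ε K c) y) =
      ∑ j ∈ range N, a j * BB par r ε (j + 1) 0 := by
    have e1 : ∀ v, ∑ c ∈ ch par r v, ∑ c' ∈ (ch par r v).erase c,
        ε c * ε c' * av (fun y => dl K y * Sop K (LL par r ε K c) y) =
        ∑ j ∈ range N, ∑ c ∈ ch par r v, ∑ c' ∈ (ch par r v).erase c,
        a j * (ε c * ε c' * NN par r ε (j + 1) c * NN par r ε 0 c') := by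
      intro v
      rw [Finset.sum_comm]
      refine Finset.sum_congr rfl fun c _ => ?_
      rw [Finset.sum_comm]
      refine Finset.sum_congr rfl fun c' _ => ?_
      rw [hav1, Finset.mul_sum]
      refine Finset.sum_congr rfl fun j _ => ?_
      rw [hNN0]
      ring
    rw [Finset.sum_congr rfl fun v _ => e1 v, Finset.sum_comm]
    refine Finset.sum_congr rfl fun j _ => ?_
    unfold BB
    simp only [Finset.mul_sum]
  -- third summand
  have hthi : ∑ v, ∑ c ∈ ch par r v, ∑ c' ∈ (ch par r v).erase c,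
      ε c * ε c' * av (fun y => Sop K (LL par r ε K c) y * Sop K (LL par r ε K c') y) =
      ∑ i ∈ range N, ∑ j ∈ range N, q i j * BB par r ε (i + 1) (j + 1) := by
    have e1 : ∀ v, ∑ c ∈ ch par r v, ∑ c' ∈ (ch par r v).erase c,
        ε c * ε c' * av (fun y => Sop K (LL par r ε K c) y * Sop K (LL par r ε K c') y) =
        ∑ i ∈ range N, ∑ j ∈ range N, ∑ c ∈ ch par r v, ∑ c' ∈ (ch par r v).erase c,
        q i j * (ε c * ε c' * NN par r ε (i + 1) c * NN par r ε (j + 1) c') := by
      intro v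
      have e2 : ∀ c ∈ ch par r v, ∑ c' ∈ (ch par r v).erase c,
          ε c * ε c' * av (fun y => Sop K (LL par r ε K c) y * Sop K (LL par r ε K c') y) =
          ∑ i ∈ range N, ∑ j ∈ range N, ∑ c' ∈ (ch par r v).erase c,
          q i j * (ε c * ε c' * NN par r ε (i + 1) c * NN par r ε (j + 1) c') := by
        intro c _
        have e3 : ∀ c' ∈ (ch par r v).erase c,
            ε c * ε c' * av (fun y => Sop K (LL par r ε K c) y * Sop K (LL par r ε K c') y) =
            ∑ i ∈ range N, ∑ j ∈ range N,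
            q i j * (ε c * ε c' * NN par r ε (i + 1) c * NN par r ε (j + 1) c') := by
          intro c' _
          rw [hav2, Finset.mul_sum]
          refine Finset.sum_congr rfl fun i _ => ?_
          rw [Finset.mul_sum]
          refine Finset.sum_congr rfl fun j _ => ?_
          ring
        rw [Finset.sum_congr rfl e3, Finset.sum_comm]
        refine Finset.sum_congr rfl fun i _ => ?_
        rw [Finset.sum_comm]
      rw [Finset.sum_congr rfl e2, Finset.sum_comm]
      refine Finset.sum_congr rfl fun i _ => ?_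
      rw [Finset.sum_comm]
    rw [Finset.sum_congr rfl fun v _ => e1 v, Finset.sum_comm]
    refine Finset.sum_congr rfl fun i _ => ?_
    rw [Finset.sum_comm]
    refine Finset.sum_congr rfl fun j _ => ?_
    unfold BB
    simp only [Finset.mul_sum]
  -- fourth summand
  have hfou : ∑ v, ev r ε v * ∑ c ∈ ch par r v,
      ε c * av (fun y => dl K y * Sop K (LL par r ε K c) y) =
      ∑ j ∈ range N, a j * MM par r ε (j + 3) := by
    have e1 : ∀ v, ev r ε v * ∑ c ∈ ch par r v,
        ε c * av (fun y => dl K y * Sop K (LL par r ε K c) y) =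
        ∑ j ∈ range N, a j * (ev r ε v * NN par r ε (j + 2) v) := by
      intro v
      have e2 : ∑ c ∈ ch par r v, ε c * av (fun y => dl K y * Sop K (LL par r ε K c) y) =
          ∑ j ∈ range N, a j * NN par r ε (j + 2) v := by
        have e3 : ∀ c ∈ ch par r v,
            ε c * av (fun y => dl K y * Sop K (LL par r ε K c) y) =
            ∑ j ∈ range N, a j * (ε c * NN par r ε (j + 1) c) := by
          intro c _
          rw [hav1, Finset.mul_sum]
          refine Finset.sum_congr rfl fun j _ => ?_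
          ring
        rw [Finset.sum_congr rfl e3, Finset.sum_comm]
        refine Finset.sum_congr rfl fun j _ => ?_
        rw [← Finset.mul_sum]
        rfl
      rw [e2, Finset.mul_sum]
      refine Finset.sum_congr rfl fun j _ => ?_
      ring
    rw [Finset.sum_congr rfl fun v _ => e1 v, Finset.sum_comm]
    refine Finset.sum_congr rfl fun j _ => ?_
    rw [← Finset.mul_sum]
    congr 1
    have e4 : ∑ v, ev r ε v * NN par r ε (j + 2) v =
        ∑ v ∈ univ.erase r, ε v * NN par r ε (j + 2) v := by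
      rw [← Finset.add_sum_erase _ _ (Finset.mem_univ r)]
      have e5 : ev r ε r = 0 := by
        unfold ev
        rw [if_pos rfl]
      rw [e5, zero_mul, zero_add]
      refine Finset.sum_congr rfl fun v hv => ?_
      have e6 : ev r ε v = ε v := by
        unfold ev
        rw [if_neg (Finset.ne_of_mem_erase hv)]
      rw [e6]
    rw [e4, ← s1 fun v => ε v * NN par r ε (j + 2) v]
    rfl
  -- the left side
  have hL : ∑ v, (Th K (ch par r v) ε (ev r ε v) (LL par r ε K) -
      (av (fun y => (∏ c ∈ ch par r v, (1 + ε c * dl K y)) * (1 - ev r ε v * dl K y)) - 1)) =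
      ∑ j ∈ range N, a j * BB par r ε (j + 1) 0 +
      1 / 2 * (∑ i ∈ range N, ∑ j ∈ range N, q i j * BB par r ε (i + 1) (j + 1)) -
      ∑ j ∈ range N, a j * MM par r ε (j + 3) := by
    rw [← hsec, ← hthi, ← hfou, Finset.mul_sum, ← Finset.sum_add_distrib,
      ← Finset.sum_sub_distrib]
    refine Finset.sum_congr rfl fun v _ => ?_
    unfold Th
    ring
  rw [hL]
  have haj : ∀ j, |a j| ≤ (5 / 7 : ℝ) ^ (j + 1) * xx K := by
    intro j
    rw [ha]
    have e1 := (b13 (dl K) ((Sop K)^[j + 1] (dl K))).2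
    have e2 := k14 (j + 1)
    rw [k9] at e1
    refine e1.trans ((mul_le_mul_of_nonneg_left e2 k10).trans (le_of_eq ?_))
    rw [← k11]
    ring
  have hqij : ∀ i j, |q i j| ≤ (5 / 7 : ℝ) ^ (i + j + 2) * xx K := by
    intro i j
    rw [hq]
    have e1 := (b13 ((Sop K)^[i + 1] (dl K)) ((Sop K)^[j + 1] (dl K))).2
    refine e1.trans ((mul_le_mul (k14 (i + 1)) (k14 (j + 1)) (b5 _).1
      (mul_nonneg (by positivity) k10)).trans (le_of_eq ?_))
    rw [← k11]
    ring
  have hprod : ∀ (u w c : ℝ), |u| ≤ c → u * w ≤ c * |w| := by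
    intro u w c hc
    calc u * w ≤ |u * w| := le_abs_self _
      _ = |u| * |w| := abs_mul _ _
      _ ≤ c * |w| := mul_le_mul_of_nonneg_right hc (abs_nonneg _)
  have hprod' : ∀ (u w c : ℝ), |u| ≤ c → -(u * w) ≤ c * |w| := by
    intro u w c hc
    calc -(u * w) ≤ |u * w| := neg_le_abs _
      _ = |u| * |w| := abs_mul _ _
      _ ≤ c * |w| := mul_le_mul_of_nonneg_right hc (abs_nonneg _)
  have f1 : ∑ j ∈ range N, a j * BB par r ε (j + 1) 0 - ∑ j ∈ range N, a j * MM par r ε (j + 3) ≤
      xx K * ∑ i ∈ range N, (5 / 7 : ℝ) ^ (i + 1) *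
        (|BB par r ε (i + 1) 0| + |MM par r ε (i + 3)|) := by
    rw [← Finset.sum_sub_distrib, Finset.mul_sum]
    refine Finset.sum_le_sum fun j _ => ?_
    have g1 := hprod (a j) (BB par r ε (j + 1) 0) _ (haj j)
    have g2 := hprod' (a j) (MM par r ε (j + 3)) _ (haj j)
    linarith
  have f2 : ∑ i ∈ range N, ∑ j ∈ range N, q i j * BB par r ε (i + 1) (j + 1) ≤
      xx K * ∑ i ∈ range N, ∑ j ∈ range N,
        (5 / 7 : ℝ) ^ (i + j + 2) * |BB par r ε (i + 1) (j + 1)| := by
    rw [Finset.mul_sum]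
    refine Finset.sum_le_sum fun i _ => ?_
    rw [Finset.mul_sum]
    refine Finset.sum_le_sum fun j _ => ?_
    have g1 := hprod (q i j) (BB par r ε (i + 1) (j + 1)) _ (hqij i j)
    linarith
  have f3 : xx K * SEC par r ε = xx K * (∑ i ∈ range N, (5 / 7 : ℝ) ^ (i + 1) *
        (|BB par r ε (i + 1) 0| + |MM par r ε (i + 3)|)) +
      1 / 2 * (xx K * ∑ i ∈ range N, ∑ j ∈ range N,
        (5 / 7 : ℝ) ^ (i + j + 2) * |BB par r ε (i + 1) (j + 1)|) := by
    unfold SEC
    rw [← hN]
    ring
  rw [f3]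
  linarith

end Pool.Agent.TFin
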