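import Pool.Agent.TFin.Targets2
import Pool.Agent.AntiSid.Tree

set_option autoImplicit false

/-!
# TWIN: a tree with a nontrivial automorphism fixing a vertex has twin branches
-/

namespace Pool.Agent.TFin

open Finset

namespace TWIN_

variable {V : Type}

lemma dist_iso_le {T : SimpleGraph V} (hT : T.Connected) (ψ : T ≃g T) (x y : V) :
    T.dist (ψ x) (ψ y) ≤ T.dist x y := by
  obtain ⟨p, hp⟩ := hT.exists_walk_length_eq_dist x y
  rw [← hp]
  have h := SimpleGraph.dist_le (p.map (ψ : T →g T))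
  rw [SimpleGraph.Walk.length_map] at h
  exact h

lemma dist_iso {T : SimpleGraph V} (hT : T.Connected) (φ : T ≃g T) (x y : V) :
    T.dist (φ x) (φ y) = T.dist x y := by
  apply le_antisymm (dist_iso_le hT φ x y)
  have h := dist_iso_le hT φ.symm (φ x) (φ y)
  rwa [RelIso.symm_apply_apply, RelIso.symm_apply_apply] at h

/-- descendants of `a` -/
def Dc (par : V → V) (a : V) : Set V := {x | ∃ i : ℕ, par^[i] x = a}

lemma Dc_self (par : V → V) (a : V) : a ∈ Dc par a := ⟨0, rfl⟩

lemma Dc_of_par {par : V → V} {a x : V} (h : par x ∈ Dc par a) : x ∈ Dc par a := by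
  obtain ⟨i, hi⟩ := h
  exact ⟨i + 1, by rw [Function.iterate_succ_apply]; exact hi⟩

lemma Dc_cases {par : V → V} {a x : V} (h : x ∈ Dc par a) : x = a ∨ par x ∈ Dc par a := by
  obtain ⟨i, hi⟩ := h
  cases i with
  | zero => exact Or.inl hi
  | succ i =>
    right
    exact ⟨i, by rw [Function.iterate_succ_apply] at hi; exact hi⟩

/-- the situation of a rooted tree -/
structure Rooted (T : SimpleGraph V) (b : V) (par : V → V) (dep : V → ℕ) : Prop where
  pb : par b = b
  adj : ∀ u v, T.Adj u v ↔ (u ≠ b ∧ par u = v) ∨ (v ≠ b ∧ par v = u)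
  dec : ∀ v, v ≠ b → dep (par v) < dep v

lemma dep_iter {T : SimpleGraph V} {b : V} {par : V → V} {dep : V → ℕ} (h : Rooted T b par dep)
    (i : ℕ) (x : V) : dep (par^[i] x) ≤ dep x := by
  induction i generalizing x with
  | zero => exact le_rfl
  | succ i ih =>
    rw [Function.iterate_succ_apply]
    refine (ih (par x)).trans ?_
    by_cases hx : x = b
    · rw [hx, h.pb]
    · exact (h.dec x hx).le

lemma dep_iter_lt {T : SimpleGraph V} {b : V} {par : V → V} {dep : V → ℕ}
    (h : Rooted T b par dep) (i : ℕ) {x : V} (hx : x ≠ b) : dep (par^[i + 1] x) < dep x := by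
  rw [Function.iterate_succ_apply]
  exact (dep_iter h i (par x)).trans_lt (h.dec x hx)

lemma b_notMem {T : SimpleGraph V} {b : V} {par : V → V} {dep : V → ℕ}
    (h : Rooted T b par dep) {a : V} (ha : a ≠ b) : b ∉ Dc par a := by
  rintro ⟨i, hi⟩
  have : ∀ j : ℕ, par^[j] b = b := by
    intro j
    induction j with
    | zero => rfl
    | succ j ih => rw [Function.iterate_succ_apply, h.pb, ih]
  rw [this] at hi
  exact ha hi.symm

/-- only one edge leaves the set of descendants -/
lemma edge_out {T : SimpleGraph V} {b : V} {par : V → V} {dep : V → ℕ}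
    (h : Rooted T b par dep) {a x y : V} (hx : x ∈ Dc par a) (hy : y ∉ Dc par a)
    (hxy : T.Adj x y) : x = a ∧ y = par a := by
  rcases (h.adj x y).1 hxy with h1 | h1
  · rcases Dc_cases hx with h2 | h2
    · exact ⟨h2, by rw [← h1.2, h2]⟩
    · rw [h1.2] at h2
      exact absurd h2 hy
  · exfalso
    apply hy
    apply Dc_of_par
    rw [h1.2]
    exact hx

lemma tree_Dc {T : SimpleGraph V} {b : V} {par : V → V} {dep : V → ℕ} (hT : T.IsTree)
    (h : Rooted T b par dep) {a : V} (ha : a ≠ b) : (T.induce (Dc par a)).IsTree := by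
  have hb := b_notMem h ha
  refine ⟨?_, hT.2.induce _⟩
  rw [SimpleGraph.connected_iff_exists_forall_reachable]
  refine ⟨⟨a, Dc_self par a⟩, ?_⟩
  rintro ⟨x, hx⟩
  obtain ⟨i, hi⟩ := hx
  induction i generalizing x with
  | zero =>
    have e : (⟨x, ⟨0, hi⟩⟩ : Dc par a) = ⟨a, Dc_self par a⟩ := Subtype.ext hi
    rw [e]
  | succ i ih =>
    have hi' : par^[i] (par x) = a := by rw [← Function.iterate_succ_apply]; exact hi
    have h1 := ih (par x) hi'
    refine h1.trans ?_
    have hxb : x ≠ b := by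
      intro e
      apply hb
      rw [← e]
      exact ⟨i + 1, hi⟩
    have hadj : (T.induce (Dc par a)).Adj ⟨par x, ⟨i, hi'⟩⟩ ⟨x, ⟨i + 1, hi⟩⟩ := by
      show T.Adj (par x) x
      exact (h.adj _ _).2 (Or.inr ⟨hxb, rfl⟩)
    exact hadj.reachable

lemma tree_compl {T : SimpleGraph V} {b : V} {par : V → V} {dep : V → ℕ} (hT : T.IsTree)
    (h : Rooted T b par dep) {a a' : V} (ha : a ≠ b) (ha' : a' ≠ b) :
    (T.induce ((Dc par a ∪ Dc par a')ᶜ)).IsTree := by
  have hb : b ∈ (Dc par a ∪ Dc par a')ᶜ := by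
    rintro (h1 | h1)
    · exact b_notMem h ha h1
    · exact b_notMem h ha' h1
  refine ⟨?_, hT.2.induce _⟩
  rw [SimpleGraph.connected_iff_exists_forall_reachable]
  refine ⟨⟨b, hb⟩, ?_⟩
  have key : ∀ (n : ℕ) (x : V) (hx : x ∈ (Dc par a ∪ Dc par a')ᶜ), dep x = n →
      (T.induce ((Dc par a ∪ Dc par a')ᶜ)).Reachable ⟨b, hb⟩ ⟨x, hx⟩ := by
    intro n
    induction n using Nat.strong_induction_on with
    | _ n ih =>
      intro x hx hn
      by_cases hxb : x = b
      · have e : (⟨x, hx⟩ : ((Dc par a ∪ Dc par a')ᶜ : Set V)) = ⟨b, hb⟩ := Subtype.ext hxb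
        rw [e]
      · have hp : par x ∈ (Dc par a ∪ Dc par a')ᶜ := by
          rintro (h1 | h1)
          · exact hx (Or.inl (Dc_of_par h1))
          · exact hx (Or.inr (Dc_of_par h1))
        have h1 := ih (dep (par x)) (by rw [← hn]; exact h.dec x hxb) (par x) hp rfl
        refine h1.trans ?_
        have hadj : (T.induce ((Dc par a ∪ Dc par a')ᶜ)).Adj ⟨par x, hp⟩ ⟨x, hx⟩ := by
          show T.Adj (par x) x
          exact (h.adj _ _).2 (Or.inr ⟨hxb, rfl⟩)
        exact hadj.reachable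
  rintro ⟨x, hx⟩
  exact key (dep x) x hx rfl

end TWIN_

open TWIN_ in
theorem p_TWIN : T_TWIN := by
  intro V _ _ T hT φ b w hb hw
  obtain ⟨par, pb, p1, p2⟩ := AntiSid.exists_parent hT b
  have hR : Rooted T b par (fun v => T.dist v b) := by
    refine ⟨pb, ?_, p2⟩
    intro u v
    constructor
    · exact AntiSid.adj_iff_parent hT b par p1 p2
    · rintro (⟨h1, h2⟩ | ⟨h1, h2⟩)
      · rw [← h2]; exact p1 u h1
      · rw [← h2]; exact (p1 v h1).symm
  -- the automorphism commutes with `par`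
  have hdist : ∀ x, T.dist (φ x) b = T.dist x b := by
    intro x
    have := dist_iso hT.1 φ x b
    rw [hb] at this
    exact this
  have hcomm : ∀ x, par (φ x) = φ (par x) := by
    intro x
    by_cases hx : x = b
    · rw [hx, hb, pb, hb]
    · have hadj : T.Adj (φ x) (φ (par x)) := (φ.map_adj_iff).2 (p1 x hx)
      rcases (hR.adj _ _).1 hadj with h1 | h1
      · exact h1.2
      · exfalso
        have h3 := p2 (φ (par x)) h1.1
        rw [h1.2, hdist, hdist] at h3
        have h4 := p2 x hx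
        omega
  have hcommi : ∀ (i : ℕ) x, par^[i] (φ x) = φ (par^[i] x) := by
    intro i
    induction i with
    | zero => intro x; rfl
    | succ i ih =>
      intro x
      rw [Function.iterate_succ_apply, Function.iterate_succ_apply, hcomm, ih]
  -- the moved vertex of least depth
  obtain ⟨a, ha, hmin⟩ : ∃ a, φ a ≠ a ∧ ∀ c, φ c ≠ c → T.dist a b ≤ T.dist c b := by
    obtain ⟨a, ha, hm⟩ := Finset.exists_min_image (univ.filter fun x => φ x ≠ x)
      (fun x => T.dist x b) ⟨w, by rw [Finset.mem_filter]; exact ⟨Finset.mem_univ _, hw⟩⟩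
    rw [Finset.mem_filter] at ha
    exact ⟨a, ha.2, fun c hc => hm c (by rw [Finset.mem_filter]; exact ⟨Finset.mem_univ _, hc⟩)⟩
  have hab : a ≠ b := by
    intro e
    apply ha
    rw [e, hb]
  have hu : φ (par a) = par a := by
    by_contra hne
    have h1 := hmin _ hne
    have h2 := p2 a hab
    omega
  have ha'b : φ a ≠ b := by
    intro e
    apply hab
    apply φ.injective
    rw [e, hb]
  have hpa' : par (φ a) = par a := by rw [hcomm, hu]
  have hmap : ∀ x, φ x ∈ Dc par (φ a) ↔ x ∈ Dc par a := by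
    intro x
    constructor
    · rintro ⟨i, hi⟩
      refine ⟨i, ?_⟩
      rw [hcommi] at hi
      exact φ.injective hi
    · rintro ⟨i, hi⟩
      refine ⟨i, ?_⟩
      rw [hcommi, hi]
  have hdisj : ∀ x, x ∈ Dc par a → x ∉ Dc par (φ a) := by
    rintro x ⟨i, hi⟩ ⟨j, hj⟩
    rcases lt_trichotomy i j with h | h | h
    · obtain ⟨k, rfl⟩ : ∃ k, j = (k + 1) + i := ⟨j - i - 1, by omega⟩
      rw [Function.iterate_add_apply, hi] at hj
      have h1 := dep_iter_lt hR k hab
      rw [hj] at h1
      have h2 := hdist a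
      change T.dist (φ a) b < T.dist a b at h1
      omega
    · rw [h] at hi
      exact ha (hj.symm.trans hi)
    · obtain ⟨k, rfl⟩ : ∃ k, i = (k + 1) + j := ⟨i - j - 1, by omega⟩
      rw [Function.iterate_add_apply, hj] at hi
      have h1 := dep_iter_lt hR k ha'b
      rw [hi] at h1
      have h2 := hdist a
      change T.dist a b < T.dist (φ a) b at h1
      omega
  have hu1 : par a ∉ Dc par a := by
    rintro ⟨i, hi⟩
    have h1 := dep_iter_lt hR i hab
    rw [Function.iterate_succ_apply, hi] at h1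
    exact lt_irrefl _ h1
  have hu2 : par a ∉ Dc par (φ a) := by
    rintro ⟨i, hi⟩
    have h1 := dep_iter_lt hR i ha'b
    rw [Function.iterate_succ_apply, hpa', hi] at h1
    exact lt_irrefl _ h1
  have huA : par a ∈ ((Dc par a ∪ Dc par (φ a))ᶜ : Set V) := by
    rintro (h1 | h1)
    · exact hu1 h1
    · exact hu2 h1
  refine ⟨(Dc par a ∪ Dc par (φ a))ᶜ, Dc par a, ⟨par a, huA⟩, ⟨a, Dc_self par a⟩, ?_, ?_,
    tree_compl hT hR hab ha'b, tree_Dc hT hR hab, ?_⟩
  · have h1 : ((Dc par a ∪ Dc par (φ a))ᶜ : Set V) ⊂ Set.univ := by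
      rw [Set.ssubset_univ_iff]
      intro e
      have h2 : a ∈ ((Dc par a ∪ Dc par (φ a))ᶜ : Set V) := by rw [e]; exact Set.mem_univ _
      exact h2 (Or.inl (Dc_self par a))
    have h2 := Set.ncard_lt_ncard h1 (Set.toFinite _)
    rwa [Set.ncard_univ, Nat.card_eq_fintype_card] at h2
  · have h1 : (Dc par a : Set V) ⊂ Set.univ := by
      rw [Set.ssubset_univ_iff]
      intro e
      have h2 : b ∈ (Dc par a : Set V) := by rw [e]; exact Set.mem_univ _
      exact b_notMem hR hab h2
    have h2 := Set.ncard_lt_ncard h1 (Set.toFinite _)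
    rwa [Set.ncard_univ, Nat.card_eq_fintype_card] at h2
  · set f : ((Dc par a ∪ Dc par (φ a))ᶜ : Set V) ⊕ (Dc par a ⊕ Dc par a) → V :=
      Sum.elim (fun x => x.1) (Sum.elim (fun x => x.1) (fun x => φ x.1)) with hf
    have hbij : Function.Bijective f := by
      constructor
      · rintro (x | x | x) (y | y | y) hxy
        · have : x.1 = y.1 := hxy
          rw [Subtype.ext this]
        · have h1 : x.1 = y.1 := hxy
          exact absurd (Or.inl (h1 ▸ y.2)) x.2
        · have h1 : x.1 = φ y.1 := hxy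
          have h2 := (hmap y.1).2 y.2
          rw [← h1] at h2
          exact absurd (Or.inr h2) x.2
        · have h1 : x.1 = y.1 := hxy
          exact absurd (Or.inl (h1 ▸ x.2)) y.2
        · have : x.1 = y.1 := hxy
          rw [Subtype.ext this]
        · have h1 : x.1 = φ y.1 := hxy
          have h2 := (hmap y.1).2 y.2
          rw [← h1] at h2
          exact absurd h2 (hdisj _ x.2)
        · have h1 : φ x.1 = y.1 := hxy
          have h2 := (hmap x.1).2 x.2
          rw [h1] at h2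
          exact absurd (Or.inr h2) y.2
        · have h1 : φ x.1 = y.1 := hxy
          have h2 := (hmap x.1).2 x.2
          rw [h1] at h2
          exact absurd h2 (hdisj _ y.2)
        · have h1 : φ x.1 = φ y.1 := hxy
          rw [Subtype.ext (φ.injective h1)]
      · intro z
        by_cases h1 : z ∈ Dc par a
        · exact ⟨Sum.inr (Sum.inl ⟨z, h1⟩), rfl⟩
        · by_cases h2 : z ∈ Dc par (φ a)
          · obtain ⟨y, rfl⟩ := φ.surjective z
            exact ⟨Sum.inr (Sum.inr ⟨y, (hmap y).1 h2⟩), rfl⟩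
          · exact ⟨Sum.inl ⟨z, by
              rintro (h3 | h3)
              · exact h1 h3
              · exact h2 h3⟩, rfl⟩
    have hau : T.Adj (par a) a := (p1 a hab).symm
    have hau' : T.Adj (par a) (φ a) := by
      have := p1 (φ a) ha'b
      rw [hpa'] at this
      exact this.symm
    have eAB : ∀ x y, x ∉ Dc par a → y ∈ Dc par a → (T.Adj x y ↔ x = par a ∧ y = a) := by
      intro x y hx hy
      constructor
      · intro h
        have := edge_out hR hy hx h.symm
        exact ⟨this.2, this.1⟩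
      · rintro ⟨rfl, rfl⟩
        exact hau
    have eAB' : ∀ x y, x ∉ Dc par (φ a) → φ y ∈ Dc par (φ a) →
        (T.Adj x (φ y) ↔ x = par a ∧ y = a) := by
      intro x y hx hy
      constructor
      · intro h
        have := edge_out hR hy hx h.symm
        exact ⟨by rw [this.2, hpa'], φ.injective this.1⟩
      · rintro ⟨rfl, rfl⟩
        exact hau'
    have eBB' : ∀ x y, x ∈ Dc par a → φ y ∈ Dc par (φ a) → ¬ T.Adj x (φ y) := by
      intro x y hx hy h
      have h1 := (eAB' x y (hdisj x hx) hy).1 h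
      rw [h1.1] at hx
      exact hu1 hx
    refine ⟨⟨Equiv.ofBijective f hbij, ?_⟩⟩
    have sub1 : ∀ (x : ((Dc par a ∪ Dc par (φ a))ᶜ : Set V)), x = ⟨par a, huA⟩ ↔ x.1 = par a :=
      fun x => ⟨fun h => by rw [h], fun h => Subtype.ext h⟩
    have sub2 : ∀ (x : Dc par a), x = ⟨a, Dc_self par a⟩ ↔ x.1 = a :=
      fun x => ⟨fun h => by rw [h], fun h => Subtype.ext h⟩
    rintro (x | x | x) (y | y | y)
    · exact Iff.rfl
    · show T.Adj x.1 y.1 ↔ (x = ⟨par a, huA⟩ ∧ y = ⟨a, Dc_self par a⟩)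
      rw [eAB x.1 y.1 (fun h => x.2 (Or.inl h)) y.2, sub1, sub2]
    · show T.Adj x.1 (φ y.1) ↔ (x = ⟨par a, huA⟩ ∧ y = ⟨a, Dc_self par a⟩)
      rw [eAB' x.1 y.1 (fun h => x.2 (Or.inr h)) ((hmap y.1).2 y.2), sub1, sub2]
    · show T.Adj x.1 y.1 ↔ (y = ⟨par a, huA⟩ ∧ x = ⟨a, Dc_self par a⟩)
      rw [T.adj_comm, eAB y.1 x.1 (fun h => y.2 (Or.inl h)) x.2, sub1, sub2]
    · exact Iff.rfl
    · show T.Adj x.1 (φ y.1) ↔ False
      exact iff_false_intro (eBB' x.1 y.1 x.2 ((hmap y.1).2 y.2))
    · show T.Adj (φ x.1) y.1 ↔ (y = ⟨par a, huA⟩ ∧ x = ⟨a, Dc_self par a⟩)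
      rw [T.adj_comm, eAB' y.1 x.1 (fun h => y.2 (Or.inr h)) ((hmap x.1).2 x.2), sub1, sub2]
    · show T.Adj (φ x.1) y.1 ↔ False
      exact iff_false_intro fun h => eBB' y.1 x.1 y.2 ((hmap x.1).2 x.2) h.symm
    · show T.Adj (φ x.1) (φ y.1) ↔ T.Adj x.1 y.1
      exact φ.map_adj_iff

end Pool.Agent.TFin
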