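import Pool.Agent.TFin.Targets

set_option autoImplicit false

/-!
# TYP: finitely many types of pieces
-/

namespace Pool.Agent.TFin

open Finset
open Pool.Agent.TLT (av Krn Sop dl xx)

noncomputable section

/-- the types of pieces of height at most `k` -/
def TYP_.TT (K₀ : ℕ) : ℕ → Type
  | 0 => Unit
  | k + 1 => Fin K₀ → Option (Bool × TYP_.TT K₀ k)

namespace TYP_

lemma TT_finite (K₀ : ℕ) : ∀ k, Finite (TT K₀ k) := by
  intro k
  induction k with
  | zero => exact inferInstanceAs (Finite Unit)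
  | succ k ih =>
    have := ih
    exact inferInstanceAs (Finite (Fin K₀ → Option (Bool × TT K₀ k)))

/-- the bound -/
def Mb (K₀ : ℕ) : ℕ → ℝ
  | 0 => 1
  | k + 1 => (2 * Mb K₀ k) ^ K₀

lemma Mb_one (K₀ : ℕ) : ∀ k, 1 ≤ Mb K₀ k := by
  intro k
  induction k with
  | zero => exact le_rfl
  | succ k ih =>
    show 1 ≤ (2 * Mb K₀ k) ^ K₀
    exact one_le_pow₀ (by linarith)

/-- the density of a piece, as a function on `W` -/
def vf {W : Type} [Fintype W] (K : W → W → ℝ) (K₀ : ℕ) : (k : ℕ) → TT K₀ k → W → ℝ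
  | 0, _ => fun _ => 1
  | k + 1, t => fun y => ∏ i : Fin K₀, (t i).elim 1 fun p : Bool × TT K₀ k =>
      av (vf K K₀ k p.2) + (if p.1 then 1 else -1) * Sop K (vf K K₀ k p.2) y

lemma vf_bd (hB : T_BAN) {W : Type} [Fintype W] [Nonempty W] (K : W → W → ℝ) (hK : Krn K)
    (K₀ : ℕ) : ∀ (k : ℕ) (t : TT K₀ k) (y : W), 0 ≤ vf K K₀ k t y ∧ vf K K₀ k t y ≤ Mb K₀ k := by
  obtain ⟨_, _, _, _, _, _, _, _, _, b10, _, b12, _, bK⟩ := hB W
  obtain ⟨_, _, _, _, _, k6, _⟩ := bK K hK
  intro k
  induction k with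
  | zero =>
    intro t y
    exact ⟨zero_le_one, le_rfl⟩
  | succ k ih =>
    intro t y
    have hfac : ∀ i : Fin K₀, 0 ≤ ((t i).elim 1 fun p : Bool × TT K₀ k =>
        av (vf K K₀ k p.2) + (if p.1 then 1 else -1) * Sop K (vf K K₀ k p.2) y) ∧
        ((t i).elim 1 fun p : Bool × TT K₀ k =>
        av (vf K K₀ k p.2) + (if p.1 then 1 else -1) * Sop K (vf K K₀ k p.2) y) ≤
          2 * Mb K₀ k := by
      intro i
      have hM := Mb_one K₀ k
      cases hti : t i with
      | none =>
        show (0 : ℝ) ≤ 1 ∧ (1 : ℝ) ≤ 2 * Mb K₀ k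
        exact ⟨zero_le_one, by linarith⟩
      | some p =>
        show 0 ≤ av (vf K K₀ k p.2) + (if p.1 then 1 else -1) * Sop K (vf K K₀ k p.2) y ∧
          av (vf K K₀ k p.2) + (if p.1 then 1 else -1) * Sop K (vf K K₀ k p.2) y ≤ 2 * Mb K₀ k
        have h1 : ((if p.1 then (1 : ℝ) else -1) = 1 ∨ (if p.1 then (1 : ℝ) else -1) = -1) := by
          by_cases h : p.1 = true
          · left; exact if_pos h
          · right; exact if_neg h
        have h2 := k6 (vf K K₀ k p.2) (fun z => (ih p.2 z).1) _ h1 y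
        have h3 : av (vf K K₀ k p.2) ≤ Mb K₀ k := by
          have h4 := (b12 (vf K K₀ k p.2) (Mb K₀ k) (fun z => by
            rw [abs_of_nonneg (ih p.2 z).1]
            exact (ih p.2 z).2)).2
          have h5 := (b10 (vf K K₀ k p.2)).2.2
          exact (le_abs_self _).trans (h5.trans h4)
        exact ⟨h2.1, by linarith [h2.2]⟩
    refine ⟨Finset.prod_nonneg (fun i _ => (hfac i).1), ?_⟩
    show (∏ i : Fin K₀, (t i).elim 1 fun p : Bool × TT K₀ k =>
        av (vf K K₀ k p.2) + (if p.1 then 1 else -1) * Sop K (vf K K₀ k p.2) y) ≤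
        (2 * Mb K₀ k) ^ K₀
    refine (Finset.prod_le_prod (fun i _ => (hfac i).1) (fun i _ => (hfac i).2)).trans ?_
    rw [Finset.prod_const, Finset.card_univ, Fintype.card_fin]

/-- product over the places of a list -/
lemma prod_list {α : Type} (g : Option α → ℝ) (hg : g none = 1) : ∀ (n : ℕ) (L : List α),
    L.length ≤ n → ∏ i : Fin n, g (L[(i : ℕ)]?) = (L.map fun c => g (some c)).prod := by
  intro n
  induction n with
  | zero =>
    intro L hL
    have : L = [] := List.length_eq_zero_iff.1 (Nat.le_zero.1 hL)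
    rw [this]
    simp
  | succ n ih =>
    intro L hL
    rw [Fin.prod_univ_succ]
    cases L with
    | nil =>
      simp [hg]
    | cons c L =>
      have h1 := ih L (by simpa using hL)
      rw [List.map_cons, List.prod_cons, ← h1]
      congr 1

variable {V : Type} [Fintype V] [DecidableEq V]

/-- the type of a piece -/
def tyf (par : V → V) (r : V) (Cut : Finset V) (lab : V → V) (sn : V → ℝ) (K₀ : ℕ) :
    (k : ℕ) → V → (V → Bool) → TT K₀ k
  | 0, _, _ => ()
  | k + 1, v, ζ => fun i => ((ch par r v \ Cut).toList[(i : ℕ)]?).map fun c =>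
      (decide (sg lab sn ζ c = 1), tyf par r Cut lab sn K₀ k c ζ)

lemma tyf_val (par : V → V) (r : V) (Cut : Finset V) (ρ : V → ℕ) (K₀ : ℕ)
    (h1 : ∀ v, (ch par r v \ Cut).card ≤ K₀) (h2 : ∀ v, ∀ c ∈ ch par r v \ Cut, ρ c < ρ v)
    (lab : V → V) (sn : V → ℝ) (hsn : ∀ c, sn c = 1 ∨ sn c = -1)
    {W : Type} [Fintype W] (K : W → W → ℝ) (ζ : V → Bool) (G : V → W → ℝ)
    (hG : IsVal par r Cut (sg lab sn ζ) K G) :
    ∀ (k : ℕ) (v : V), ρ v ≤ k → G v = vf K K₀ k (tyf par r Cut lab sn K₀ k v ζ) := by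
  intro k
  induction k with
  | zero =>
    intro v hv
    funext y
    have he : ch par r v \ Cut = ∅ := by
      rw [Finset.eq_empty_iff_forall_notMem]
      intro c hc
      have := h2 v c hc
      omega
    rw [hG v y, he, Finset.prod_empty]
    rfl
  | succ k ih =>
    intro v hv
    funext y
    rw [hG v y]
    show (∏ c ∈ ch par r v \ Cut, (av (G c) + sg lab sn ζ c * Sop K (G c) y)) =
      ∏ i : Fin K₀, (((ch par r v \ Cut).toList[(i : ℕ)]?).map fun c =>
        (decide (sg lab sn ζ c = 1), tyf par r Cut lab sn K₀ k c ζ)).elim 1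
          fun p : Bool × TT K₀ k =>
            av (vf K K₀ k p.2) + (if p.1 then 1 else -1) * Sop K (vf K K₀ k p.2) y
    rw [prod_list (fun o : Option V => (o.map fun c =>
        (decide (sg lab sn ζ c = 1), tyf par r Cut lab sn K₀ k c ζ)).elim 1
          fun p : Bool × TT K₀ k =>
            av (vf K K₀ k p.2) + (if p.1 then 1 else -1) * Sop K (vf K K₀ k p.2) y) rfl K₀
        (ch par r v \ Cut).toList (by rw [Finset.length_toList]; exact h1 v)]
    rw [Finset.prod_map_toList]
    refine Finset.prod_congr rfl ?_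
    intro c hc
    have hρ := h2 v c hc
    have hi := ih c (by omega)
    show _ = av (vf K K₀ k (tyf par r Cut lab sn K₀ k c ζ)) +
      (if decide (sg lab sn ζ c = 1) = true then 1 else -1) *
        Sop K (vf K K₀ k (tyf par r Cut lab sn K₀ k c ζ)) y
    rw [← hi]
    congr 2
    by_cases hs : sg lab sn ζ c = 1
    · rw [if_pos (by simpa using hs), hs]
    · rw [if_neg (by simpa using hs)]
      have hor : sg lab sn ζ c = 1 ∨ sg lab sn ζ c = -1 := by
        unfold sg
        rcases hsn c with h | h <;> rw [h] <;> by_cases hz : ζ (lab c) = true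
        · left; rw [if_pos hz]; norm_num
        · right; rw [if_neg hz]; norm_num
        · right; rw [if_pos hz]; norm_num
        · left; rw [if_neg hz]; norm_num
      exact hor.resolve_left hs

/-- the step relation inside a piece -/
def RR' (par : V → V) (r : V) (Cut : Finset V) (a b : V) : Prop := b ∈ ch par r a \ Cut

lemma tyf_flip (par : V → V) (r : V) (Cut : Finset V) (lab : V → V) (sn : V → ℝ) (K₀ : ℕ)
    (ζ : V → Bool) (l : V) : ∀ (k : ℕ) (v : V),
    (∀ c, Relation.TransGen (RR' par r Cut) v c → lab c ≠ l) →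
    tyf par r Cut lab sn K₀ k v (flipS {l} ζ) = tyf par r Cut lab sn K₀ k v ζ := by
  intro k
  induction k with
  | zero => intro v _; rfl
  | succ k ih =>
    intro v hv
    funext i
    show ((ch par r v \ Cut).toList[(i : ℕ)]?).map (fun c =>
        (decide (sg lab sn (flipS {l} ζ) c = 1), tyf par r Cut lab sn K₀ k c (flipS {l} ζ))) =
      ((ch par r v \ Cut).toList[(i : ℕ)]?).map fun c =>
        (decide (sg lab sn ζ c = 1), tyf par r Cut lab sn K₀ k c ζ)
    cases hc : (ch par r v \ Cut).toList[(i : ℕ)]? with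
    | none => rfl
    | some c =>
      have hm : c ∈ ch par r v \ Cut := by
        rw [← Finset.mem_toList]
        exact List.mem_of_getElem? hc
      have hR : RR' par r Cut v c := hm
      have hl : lab c ≠ l := hv c (Relation.TransGen.single hR)
      have h1 : sg lab sn (flipS {l} ζ) c = sg lab sn ζ c := by
        have hf : flipS {l} ζ (lab c) = ζ (lab c) := by
          unfold flipS
          exact if_neg (by rw [Finset.mem_singleton]; exact hl)
        unfold sg
        rw [hf]
      have h2 := ih c (fun c' hc' => hv c' (Relation.TransGen.head hR hc'))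
      show some (decide (sg lab sn (flipS {l} ζ) c = 1),
        tyf par r Cut lab sn K₀ k c (flipS {l} ζ)) =
        some (decide (sg lab sn ζ c = 1), tyf par r Cut lab sn K₀ k c ζ)
      rw [h1, h2]

lemma RR'_par {par : V → V} {r : V} {Cut : Finset V} {a b : V} (h : RR' par r Cut a b) :
    par b = a ∧ b ≠ r ∧ b ∉ Cut := by
  unfold RR' at h
  rw [Finset.mem_sdiff] at h
  unfold ch at h
  rw [Finset.mem_filter] at h
  exact ⟨h.1.2.2, h.1.2.1, h.2⟩

lemma TG_end {par : V → V} {r : V} {Cut : Finset V} {a b : V}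
    (h : Relation.TransGen (RR' par r Cut) a b) : b ≠ r ∧ b ∉ Cut := by
  cases h with
  | single h => exact (RR'_par h).2
  | tail _ h => exact (RR'_par h).2

lemma TG_uniq {par : V → V} {r : V} {Cut : Finset V} {v v' c : V} (hv : v ∈ insert r Cut)
    (hv' : v' ∈ insert r Cut) (h : Relation.TransGen (RR' par r Cut) v c)
    (h' : Relation.TransGen (RR' par r Cut) v' c) : v = v' := by
  have hno : ∀ a u, u ∈ insert r Cut → ¬ Relation.TransGen (RR' par r Cut) a u := by
    intro a u hu h
    have h1 := TG_end h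
    rw [Finset.mem_insert] at hu
    rcases hu with h2 | h2
    · exact h1.1 h2
    · exact h1.2 h2
  induction h with
  | single hs =>
    cases h' with
    | single hs' => exact (RR'_par hs).1.symm.trans (RR'_par hs').1
    | tail hb hs' =>
      have e := (RR'_par hs').1.symm.trans (RR'_par hs).1
      rw [e] at hb
      exact absurd hb (hno _ _ hv)
  | tail hb hs ih =>
    cases h' with
    | single hs' =>
      have e := (RR'_par hs).1.symm.trans (RR'_par hs').1
      rw [e] at hb
      exact absurd hb (hno _ _ hv')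
    | tail hb' hs' =>
      have e := (RR'_par hs').1.symm.trans (RR'_par hs).1
      rw [e] at hb'
      exact ih hb'

end TYP_

open TYP_ in
theorem p_TYP (h2 : T_BAN) : T_TYP := by
  intro S K₀
  have := TT_finite K₀ S
  have hdec : DecidableEq (TT K₀ S) := Classical.decEq _
  refine ⟨TT K₀ S, Fintype.ofFinite _, hdec, Mb K₀ S, Mb_one K₀ S, ?_⟩
  intro V _ _ par dep r _ Cut ρ hK₀ hS hρ lab sn hsn hlab
  refine ⟨tyf par r Cut lab sn K₀ S, ?_, ?_⟩
  · intro ζ l
    have hex : ∀ v, tyf par r Cut lab sn K₀ S v (flipS {l} ζ) ≠ tyf par r Cut lab sn K₀ S v ζ →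
        ∃ c, Relation.TransGen (RR' par r Cut) v c ∧ lab c = l := by
      intro v hv
      by_contra hcon
      push Not at hcon
      exact hv (tyf_flip par r Cut lab sn K₀ ζ l S v hcon)
    choose! cf hcf using hex
    refine (Finset.card_le_card_of_injOn cf ?_ ?_).trans (hlab l)
    · intro v hv
      rw [Finset.mem_coe, Finset.mem_filter] at hv
      rw [Finset.mem_coe, Finset.mem_filter]
      obtain ⟨c1, c2⟩ := hcf v hv.2
      exact ⟨Finset.mem_univ _, (TG_end c1).1, c2⟩
    · intro v hv v' hv' e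
      rw [Finset.mem_coe, Finset.mem_filter] at hv hv'
      obtain ⟨c1, _⟩ := hcf v hv.2
      obtain ⟨c1', _⟩ := hcf v' hv'.2
      rw [← e] at c1'
      exact TG_uniq hv.1 hv'.1 c1 c1'
  · intro W _ _ K hK
    refine ⟨fun t => av (vf K K₀ S t), ?_, ?_⟩
    · intro t
      have hb := vf_bd h2 K hK K₀ S t
      constructor
      · unfold Pool.Agent.TLT.av
        exact div_nonneg (Finset.sum_nonneg (fun y _ => (hb y).1)) (Nat.cast_nonneg _)
      · obtain ⟨_, _, _, _, _, _, _, _, _, b10, _, b12, _, _⟩ := h2 W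
        have h4 := (b12 (vf K K₀ S t) (Mb K₀ S) (fun z => by
          rw [abs_of_nonneg (hb z).1]
          exact (hb z).2)).2
        exact (le_abs_self _).trans ((b10 (vf K K₀ S t)).2.2.trans h4)
    · intro ζ G hG v
      show av (G v) = av (vf K K₀ S (tyf par r Cut lab sn K₀ S v ζ))
      rw [← tyf_val par r Cut ρ K₀ hK₀ hρ lab sn hsn K ζ G hG S v (hS v).le]

end

end Pool.Agent.TFin
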