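import Pool.Agent.TFin.Targets

set_option autoImplicit false

/-!
# TFin: UID, uniform integrability of the numbers of descendants
-/

namespace Pool.Agent.TFin

open Finset

/-- a common lower bound -/
private theorem UID_min (J : ℕ) (th : ℕ → ℝ) (hth : ∀ l, 0 < th l) :
    ∃ θ : ℝ, 0 < θ ∧ ∀ l ≤ J, θ ≤ th l := by
  induction J with
  | zero => exact ⟨th 0, hth 0, fun l hl => by rw [Nat.le_zero.mp hl]⟩
  | succ J ih =>
    obtain ⟨θ, h0, h1⟩ := ih
    refine ⟨min θ (th (J + 1)), lt_min h0 (hth _), fun l hl => ?_⟩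
    rcases Nat.lt_or_ge l (J + 1) with h | h
    · exact (min_le_left _ _).trans (h1 l (by omega))
    · have : l = J + 1 := by omega
      rw [this]
      exact min_le_right _ _

theorem p_UID (h1 : T_SUMT) (h2 : T_USM) : T_UID := by
  intro κ J η hη
  have hJ : (0 : ℝ) < (J : ℝ) + 1 := by positivity
  have hη' : 0 < η / ((J : ℝ) + 1) := by positivity
  choose th hth0 hth using fun l => h2 κ l (η / ((J : ℝ) + 1)) hη'
  obtain ⟨θ, hθ0, hθ⟩ := UID_min J th hth0
  obtain ⟨M, hM⟩ := exists_nat_gt (((J : ℝ) + 1) / θ)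
  have hM0 : (0 : ℝ) < M := lt_trans (by positivity) hM
  refine ⟨M, ?_⟩
  intro V _ _ par dep r hRT hT A hA
  have hS := (h1 V par dep r hRT).2.2.2.2.1 (fun _ => (1 : ℝ)) (fun _ => zero_le_one)
  have hdn0 : ∀ j v, 0 ≤ dn par r j v := fun j v => (hS j).1 v
  have hdns : ∀ j, ∑ v, dn par r j v ≤ Fintype.card V := by
    intro j
    have := (hS j).2
    simpa [dn] using this
  have hcard : (A.card : ℝ) * M ≤ ((J : ℝ) + 1) * Fintype.card V := by
    calc (A.card : ℝ) * M = ∑ v ∈ A, (M : ℝ) := by rw [Finset.sum_const, nsmul_eq_mul]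
      _ ≤ ∑ v ∈ A, ∑ i ∈ range (J + 1), dn par r i v := by
          refine Finset.sum_le_sum fun v hv => ?_
          obtain ⟨i, hi, hlt⟩ := hA v hv
          refine hlt.le.trans ?_
          exact Finset.single_le_sum (f := fun i => dn par r i v) (fun i _ => hdn0 i v)
            (Finset.mem_range.mpr (by omega))
      _ ≤ ∑ v, ∑ i ∈ range (J + 1), dn par r i v :=
          Finset.sum_le_sum_of_subset_of_nonneg (Finset.subset_univ _)
            (fun v _ _ => Finset.sum_nonneg fun i _ => hdn0 i v)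
      _ = ∑ i ∈ range (J + 1), ∑ v, dn par r i v := Finset.sum_comm
      _ ≤ ∑ i ∈ range (J + 1), (Fintype.card V : ℝ) := Finset.sum_le_sum fun i _ => hdns i
      _ = _ := by rw [Finset.sum_const, nsmul_eq_mul, Finset.card_range]; push_cast; ring
  have hn0 : (0 : ℝ) ≤ Fintype.card V := Nat.cast_nonneg _
  have hAθ : (A.card : ℝ) ≤ θ * Fintype.card V := by
    have h3 : (J : ℝ) + 1 ≤ θ * M := by
      rw [div_lt_iff₀ hθ0] at hM
      linarith
    have h4 : (A.card : ℝ) * M ≤ θ * Fintype.card V * M := by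
      calc (A.card : ℝ) * M ≤ ((J : ℝ) + 1) * Fintype.card V := hcard
        _ ≤ θ * M * Fintype.card V := mul_le_mul_of_nonneg_right h3 hn0
        _ = _ := by ring
    exact le_of_mul_le_mul_right h4 hM0
  rw [Finset.sum_comm]
  calc ∑ l ∈ range (J + 1), ∑ v ∈ A, dn par r l v
      ≤ ∑ l ∈ range (J + 1), η / ((J : ℝ) + 1) * Fintype.card V := by
        refine Finset.sum_le_sum fun l hl => ?_
        have hl' : l ≤ J := by
          have := Finset.mem_range.mp hl
          omega
        refine hth l V par dep r hRT hT A (hAθ.trans ?_)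
        exact mul_le_mul_of_nonneg_right (hθ l hl') hn0
    _ = _ := by
        rw [Finset.sum_const, nsmul_eq_mul, Finset.card_range]
        push_cast
        field_simp

end Pool.Agent.TFin
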