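import Pool.Agent.TFin.Targets

set_option autoImplicit false

/-!
# Uniform integrability of the discounted sums (job UIR)
-/

namespace Pool.Agent.TFin

open Finset
open Pool.Agent.TLT (av Krn Sop dl xx)

namespace UIR_

section

variable {V : Type} [Fintype V] [DecidableEq V]

theorem Ex_sum {I : Type} (s : Finset I) (F : I → (V → Bool) → ℝ) :
    Ex (fun ζ => ∑ i ∈ s, F i ζ) = ∑ i ∈ s, Ex (F i) := by
  unfold Ex
  rw [Finset.sum_comm, Finset.sum_div]

theorem Ex_mul (a : ℝ) (F : (V → Bool) → ℝ) : Ex (fun ζ => a * F ζ) = a * Ex F := by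
  unfold Ex
  rw [← Finset.mul_sum, mul_div_assoc]

theorem Ex_add (F G : (V → Bool) → ℝ) : Ex (fun ζ => F ζ + G ζ) = Ex F + Ex G := by
  unfold Ex
  rw [Finset.sum_add_distrib, add_div]

theorem Ex_mono (F G : (V → Bool) → ℝ) (h : ∀ ζ, F ζ ≤ G ζ) : Ex F ≤ Ex G := by
  unfold Ex
  exact div_le_div_of_nonneg_right (Finset.sum_le_sum fun ζ _ => h ζ) (by positivity)

theorem Dj_lin (par : V → V) (r : V) {I : Type} (s : Finset I) (a : I → ℝ) (F : I → V → ℝ)
    (j : ℕ) (v : V) :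
    Dj par r (fun w => ∑ i ∈ s, a i * F i w) j v = ∑ i ∈ s, a i * Dj par r (F i) j v := by
  induction j generalizing v with
  | zero => rfl
  | succ j ih =>
    show ∑ c ∈ ch par r v, Dj par r (fun w => ∑ i ∈ s, a i * F i w) j c =
      ∑ i ∈ s, a i * ∑ c ∈ ch par r v, Dj par r (F i) j c
    simp only [ih, Finset.mul_sum]
    rw [Finset.sum_comm]

theorem Ex_Dj (par : V → V) (r : V) (F : (V → Bool) → V → ℝ) (j : ℕ) (v : V) :
    Ex (fun ζ => Dj par r (F ζ) j v) = Dj par r (fun w => Ex fun ζ => F ζ w) j v := by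
  induction j generalizing v with
  | zero => rfl
  | succ j ih =>
    show Ex (fun ζ => ∑ c ∈ ch par r v, Dj par r (F ζ) j c) =
      ∑ c ∈ ch par r v, Dj par r (fun w => Ex fun ζ => F ζ w) j c
    rw [Ex_sum]
    exact Finset.sum_congr rfl fun c _ => ih c

theorem hat_ch (par : V → V) (r : V)
    (s2 : ∀ (F : V → ℝ) (j : ℕ) (v : V),
      Dj par r F (j + 1) v = Dj par r (fun w => ∑ c ∈ ch par r w, F c) j v)
    (F : V → ℝ) (v : V) :
    hat par r (fun w => ∑ c ∈ ch par r w, F c) v = ∑ c ∈ ch par r v, hat par r F c := by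
  unfold hat
  rw [Finset.sum_comm]
  refine Finset.sum_congr rfl fun j _ => ?_
  rw [← s2, ← Finset.mul_sum]
  rfl

end

theorem geo (x : ℝ) (h0 : 0 ≤ x) (h1 : x < 1) (n : ℕ) : ∑ i ∈ range n, x ^ i ≤ 1 / (1 - x) := by
  rw [le_div_iff₀ (by linarith)]
  have h := mul_neg_geom_sum x n
  have h2 := pow_nonneg h0 n
  linarith

theorem wsum (n m : ℕ) (x y : ℝ) (hx : 0 ≤ x) (hx1 : x < 1) (hy : 0 ≤ y) (hy1 : y < 1) :
    ∑ j ∈ range n, ∑ i ∈ range m, x ^ j * y ^ i ≤ 1 / (1 - x) * (1 / (1 - y)) := by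
  have e : ∑ j ∈ range n, ∑ i ∈ range m, x ^ j * y ^ i =
      (∑ j ∈ range n, x ^ j) * ∑ i ∈ range m, y ^ i := by
    rw [Finset.sum_mul_sum]
  rw [e]
  refine mul_le_mul (geo x hx hx1 n) (geo y hy hy1 m) ?_ ?_
  · exact Finset.sum_nonneg fun i _ => pow_nonneg hy i
  · exact one_div_nonneg.2 (by linarith)

theorem wfar (J j i : ℕ) (h : ¬ i + j ≤ J) :
    (3 / 4 : ℝ) ^ j * (5 / 8 : ℝ) ^ i ≤ (6 / 7 : ℝ) ^ J * ((7 / 8 : ℝ) ^ j * (35 / 48 : ℝ) ^ i) := by
  have e1 : (3 / 4 : ℝ) ^ j = (6 / 7 : ℝ) ^ j * (7 / 8 : ℝ) ^ j := by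
    rw [← mul_pow]
    norm_num
  have e2 : (5 / 8 : ℝ) ^ i = (6 / 7 : ℝ) ^ i * (35 / 48 : ℝ) ^ i := by
    rw [← mul_pow]
    norm_num
  have e3 : (6 / 7 : ℝ) ^ (i + j) ≤ (6 / 7 : ℝ) ^ J :=
    pow_le_pow_of_le_one (by norm_num) (by norm_num) (by omega)
  have e4 : (3 / 4 : ℝ) ^ j * (5 / 8 : ℝ) ^ i =
      (6 / 7 : ℝ) ^ (i + j) * ((7 / 8 : ℝ) ^ j * (35 / 48 : ℝ) ^ i) := by
    rw [e1, e2, pow_add]
    ring
  rw [e4]
  exact mul_le_mul_of_nonneg_right e3 (by positivity)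

end UIR_

open UIR_

open Classical in
theorem p_UIR (_h1 : T_CUBE) (h2 : T_SUMT) (h3 : T_UID) (h4 : T_LN) (h5 : T_MOM) : T_UIR := by
  intro κ η hη
  obtain ⟨J, hJ⟩ : ∃ J : ℕ, 1664 * (6 / 7 : ℝ) ^ J ≤ η / 2 := by
    obtain ⟨J, hJ⟩ := exists_pow_lt_of_lt_one (show (0 : ℝ) < η / 3328 by positivity)
      (show (6 / 7 : ℝ) < 1 by norm_num)
    exact ⟨J, by linarith⟩
  obtain ⟨M, hM⟩ := h3 κ J (η / 572) (by positivity)
  refine ⟨572 * M ^ 2, fun k hk V _ _ par dep r π lab sn B hT hTame hL => ?_⟩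
  have hkR : 572 * (M : ℝ) ^ 2 ≤ (k : ℝ) := by exact_mod_cast hk
  obtain ⟨s1, s2, s3, s4, s5, s6, s7, s8, s9, s10, s11⟩ := h2 V par dep r hT
  have hM' := hM V par dep r hT hTame
  obtain ⟨m1, -⟩ := h5 V par dep r π lab sn B hT hL
  obtain ⟨n, hn⟩ : ∃ n, n = Fintype.card V := ⟨_, rfl⟩
  have hsg : ∀ ζ c, sg lab sn ζ c = 1 ∨ sg lab sn ζ c = -1 := by
    intro ζ c
    unfold sg
    rcases hL.sn1 c with e | e <;> rw [e] <;> by_cases hz : ζ (lab c) = true <;> simp [hz]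
  have hLN : ∀ ζ j v, |NN par r (sg lab sn ζ) j v| ≤ dn par r j v := fun ζ =>
    (h4 V par dep r hT (sg lab sn ζ) (hsg ζ)).2.2.2.2.1
  have hdn0 : ∀ j v, 0 ≤ dn par r j v := fun j => (s5 (fun _ => 1) (fun _ => by norm_num) j).1
  have hdns : ∀ j, ∑ v, dn par r j v ≤ n := fun j => by
    refine (s5 (fun _ => 1) (fun _ => by norm_num) j).2.trans ?_
    rw [hn]
    simp
  -- the summands
  obtain ⟨T, hTdef⟩ : ∃ T : (V → Bool) → ℕ → ℕ → V → ℝ, T = fun ζ j i v =>
    Dj par r (fun w => NN par r (sg lab sn ζ) i w ^ 2) j v := ⟨_, rfl⟩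
  obtain ⟨w, hw⟩ : ∃ w : ℕ → ℕ → ℝ, w = fun j i => (3 / 4 : ℝ) ^ j * (5 / 8 : ℝ) ^ i := ⟨_, rfl⟩
  have hw0 : ∀ j i, 0 ≤ w j i := fun j i => by
    rw [hw]
    positivity
  have hT0 : ∀ ζ j i v, 0 ≤ T ζ j i v := fun ζ j i v => by
    rw [hTdef]
    exact (s5 (fun w => NN par r (sg lab sn ζ) i w ^ 2) (fun _ => sq_nonneg _) j).1 v
  have hdd : ∀ i j v, Dj par r (dn par r i) j v = dn par r (i + j) v := fun i j v =>
    s3 (fun _ => 1) i j v
  have hTE : ∀ j i v, Ex (fun ζ => T ζ j i v) ≤ dn par r (i + j) v := by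
    intro j i v
    rw [hTdef]
    show Ex (fun ζ => Dj par r (fun w => NN par r (sg lab sn ζ) i w ^ 2) j v) ≤ _
    rw [Ex_Dj par r (fun ζ w => NN par r (sg lab sn ζ) i w ^ 2) j v, ← hdd]
    exact s4 _ _ (fun w => m1 i w) j v
  have hTM : ∀ ζ j i v, T ζ j i v ≤ dn par r (i + j) v ^ 2 := by
    intro ζ j i v
    rw [hTdef, ← hdd]
    refine le_trans (s4 _ (fun w => dn par r i w ^ 2) (fun w => ?_) j v) (s6 _ (hdn0 i) j v)
    rw [← sq_abs]
    exact pow_le_pow_left₀ (abs_nonneg _) (hLN ζ i w) 2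
  -- `hat qq`
  have hq : ∀ ζ v, hat par r (qq par r (sg lab sn ζ)) v =
      ∑ j ∈ range n, ∑ i ∈ range (n + 1), w j i * T ζ j i v := by
    intro ζ v
    unfold hat
    rw [← hn]
    refine Finset.sum_congr rfl fun j _ => ?_
    have e1 : Dj par r (qq par r (sg lab sn ζ)) j v =
        ∑ i ∈ range (n + 1), (5 / 8 : ℝ) ^ i * T ζ j i v := by
      rw [hTdef]
      have e2 := Dj_lin par r (range (n + 1)) (fun i => (5 / 8 : ℝ) ^ i)
        (fun i w => NN par r (sg lab sn ζ) i w ^ 2) j v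
      rw [hn] at e2 ⊢
      exact e2
    rw [e1, Finset.mul_sum]
    refine Finset.sum_congr rfl fun i _ => ?_
    rw [hw]
    ring
  have hqq0 : ∀ ζ v, 0 ≤ qq par r (sg lab sn ζ) v := fun ζ v =>
    Finset.sum_nonneg fun i _ => mul_nonneg (by positivity) (sq_nonneg _)
  have hR : ∀ ζ v, hat par r (RR par r (sg lab sn ζ)) v ≤
      26 * hat par r (qq par r (sg lab sn ζ)) v := by
    intro ζ v
    have e1 : RR par r (sg lab sn ζ) = fun w => 11 * qq par r (sg lab sn ζ) w +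
        11 * ∑ c ∈ ch par r w, qq par r (sg lab sn ζ) c := by
      funext w
      unfold RR
      ring
    rw [e1, s10 (qq par r (sg lab sn ζ)) (fun w => ∑ c ∈ ch par r w, qq par r (sg lab sn ζ) c)
      11 11 v, hat_ch par r s2]
    have e2 := s8 (qq par r (sg lab sn ζ)) v
    have e3 := hqq0 ζ v
    have e4 := (s9 _ (hqq0 ζ)).1 v
    linarith
  -- near and far parts
  obtain ⟨near, hnear⟩ : ∃ near : (V → Bool) → V → ℝ, near = fun ζ v =>
    ∑ j ∈ range n, ∑ i ∈ range (n + 1), if i + j ≤ J then w j i * T ζ j i v else 0 := ⟨_, rfl⟩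
  obtain ⟨far, hfar⟩ : ∃ far : (V → Bool) → V → ℝ, far = fun ζ v =>
    ∑ j ∈ range n, ∑ i ∈ range (n + 1), if i + j ≤ J then 0 else w j i * T ζ j i v := ⟨_, rfl⟩
  have hnf : ∀ ζ v, hat par r (qq par r (sg lab sn ζ)) v = near ζ v + far ζ v := by
    intro ζ v
    rw [hq, hnear, hfar]
    show _ = (∑ j ∈ range n, ∑ i ∈ range (n + 1), if i + j ≤ J then w j i * T ζ j i v else 0) +
      ∑ j ∈ range n, ∑ i ∈ range (n + 1), if i + j ≤ J then 0 else w j i * T ζ j i v
    rw [← Finset.sum_add_distrib]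
    refine Finset.sum_congr rfl fun j _ => ?_
    rw [← Finset.sum_add_distrib]
    refine Finset.sum_congr rfl fun i _ => ?_
    by_cases h : i + j ≤ J
    · rw [if_pos h, if_pos h, add_zero]
    · rw [if_neg h, if_neg h, zero_add]
  have hnear0 : ∀ ζ v, 0 ≤ near ζ v := by
    intro ζ v
    rw [hnear]
    refine Finset.sum_nonneg fun j _ => Finset.sum_nonneg fun i _ => ?_
    by_cases h : i + j ≤ J
    · rw [if_pos h]
      exact mul_nonneg (hw0 j i) (hT0 ζ j i v)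
    · rw [if_neg h]
  have hfar0 : ∀ ζ v, 0 ≤ far ζ v := by
    intro ζ v
    rw [hfar]
    refine Finset.sum_nonneg fun j _ => Finset.sum_nonneg fun i _ => ?_
    by_cases h : i + j ≤ J
    · rw [if_pos h]
    · rw [if_neg h]
      exact mul_nonneg (hw0 j i) (hT0 ζ j i v)
  have hwsum : ∑ j ∈ range n, ∑ i ∈ range (n + 1), w j i ≤ 11 := by
    rw [hw]
    refine (wsum n (n + 1) (3 / 4) (5 / 8) (by norm_num) (by norm_num) (by norm_num)
      (by norm_num)).trans ?_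
    norm_num
  -- expectation of the far part
  have hEfar : ∑ v, Ex (fun ζ => far ζ v) ≤ 32 * (6 / 7 : ℝ) ^ J * n := by
    have e1 : ∀ v, Ex (fun ζ => far ζ v) ≤ ∑ j ∈ range n, ∑ i ∈ range (n + 1),
        (6 / 7 : ℝ) ^ J * ((7 / 8 : ℝ) ^ j * (35 / 48 : ℝ) ^ i) * dn par r (i + j) v := by
      intro v
      rw [hfar]
      show Ex (fun ζ => ∑ j ∈ range n, ∑ i ∈ range (n + 1),
        if i + j ≤ J then 0 else w j i * T ζ j i v) ≤ _
      rw [Ex_sum]
      refine Finset.sum_le_sum fun j _ => ?_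
      show Ex (fun ζ => ∑ i ∈ range (n + 1), if i + j ≤ J then 0 else w j i * T ζ j i v) ≤ _
      rw [Ex_sum]
      refine Finset.sum_le_sum fun i _ => ?_
      show Ex (fun ζ => if i + j ≤ J then 0 else w j i * T ζ j i v) ≤ _
      by_cases h : i + j ≤ J
      · simp only [if_pos h]
        have e2 : Ex (fun _ : V → Bool => (0 : ℝ)) = 0 := by
          unfold Ex
          simp
        rw [e2]
        exact mul_nonneg (by positivity) (hdn0 _ _)
      · simp only [if_neg h]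
        rw [Ex_mul]
        refine mul_le_mul ?_ (hTE j i v) ?_ (by positivity)
        · rw [hw]
          exact wfar J j i h
        · refine le_trans (le_of_eq ?_) (Ex_mono (fun _ => 0) _ fun ζ => hT0 ζ j i v)
          unfold Ex
          simp
    refine (Finset.sum_le_sum fun v _ => e1 v).trans ?_
    rw [Finset.sum_comm]
    have e3 : ∀ j ∈ range n, ∑ v, ∑ i ∈ range (n + 1),
        (6 / 7 : ℝ) ^ J * ((7 / 8 : ℝ) ^ j * (35 / 48 : ℝ) ^ i) * dn par r (i + j) v ≤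
        ∑ i ∈ range (n + 1), (6 / 7 : ℝ) ^ J * ((7 / 8 : ℝ) ^ j * (35 / 48 : ℝ) ^ i) * n := by
      intro j _
      rw [Finset.sum_comm]
      refine Finset.sum_le_sum fun i _ => ?_
      rw [← Finset.mul_sum]
      exact mul_le_mul_of_nonneg_left (hdns _) (by positivity)
    refine (Finset.sum_le_sum e3).trans ?_
    have e4 := wsum n (n + 1) (7 / 8) (35 / 48) (by norm_num) (by norm_num) (by norm_num)
      (by norm_num)
    have e5 : ∑ j ∈ range n, ∑ i ∈ range (n + 1),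
        (6 / 7 : ℝ) ^ J * ((7 / 8 : ℝ) ^ j * (35 / 48 : ℝ) ^ i) * (n : ℝ) =
        ((6 / 7 : ℝ) ^ J * n) * ∑ j ∈ range n, ∑ i ∈ range (n + 1),
          ((7 / 8 : ℝ) ^ j * (35 / 48 : ℝ) ^ i) := by
      rw [Finset.mul_sum]
      refine Finset.sum_congr rfl fun j _ => ?_
      rw [Finset.mul_sum]
      refine Finset.sum_congr rfl fun i _ => ?_
      ring
    rw [e5]
    have e6 : (1 : ℝ) / (1 - 7 / 8) * (1 / (1 - 35 / 48)) ≤ 32 := by norm_num
    have e7 : 0 ≤ (6 / 7 : ℝ) ^ J * n := by positivity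
    calc (6 / 7 : ℝ) ^ J * n * ∑ j ∈ range n, ∑ i ∈ range (n + 1),
          ((7 / 8 : ℝ) ^ j * (35 / 48 : ℝ) ^ i) ≤ (6 / 7 : ℝ) ^ J * n * 32 :=
        mul_le_mul_of_nonneg_left (e4.trans e6) e7
      _ = 32 * (6 / 7 : ℝ) ^ J * n := by ring
  -- the bad vertices
  obtain ⟨A, hA⟩ : ∃ A : Finset V, A = univ.filter fun v => ∃ i ≤ J, (M : ℝ) < dn par r i v :=
    ⟨_, rfl⟩
  have hAM := hM' A fun v hv => by
    rw [hA] at hv
    exact (Finset.mem_filter.1 hv).2
  have hEnear : ∑ v ∈ A, Ex (fun ζ => near ζ v) ≤ 11 * (η / 572 * n) := by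
    have e1 : ∀ v ∈ A, Ex (fun ζ => near ζ v) ≤ 11 * ∑ l ∈ range (J + 1), dn par r l v := by
      intro v _
      rw [hnear]
      show Ex (fun ζ => ∑ j ∈ range n, ∑ i ∈ range (n + 1),
        if i + j ≤ J then w j i * T ζ j i v else 0) ≤ _
      rw [Ex_sum]
      have hD0 : 0 ≤ ∑ l ∈ range (J + 1), dn par r l v :=
        Finset.sum_nonneg fun l _ => hdn0 l v
      have e2 : ∀ j ∈ range n, Ex (fun ζ => ∑ i ∈ range (n + 1),
          if i + j ≤ J then w j i * T ζ j i v else 0) ≤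
          ∑ i ∈ range (n + 1), w j i * ∑ l ∈ range (J + 1), dn par r l v := by
        intro j _
        rw [Ex_sum]
        refine Finset.sum_le_sum fun i _ => ?_
        show Ex (fun ζ => if i + j ≤ J then w j i * T ζ j i v else 0) ≤ _
        by_cases h : i + j ≤ J
        · simp only [if_pos h]
          rw [Ex_mul]
          refine mul_le_mul_of_nonneg_left ((hTE j i v).trans ?_) (hw0 j i)
          exact Finset.single_le_sum (f := fun l => dn par r l v) (fun l _ => hdn0 l v)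
            (Finset.mem_range.2 (Nat.lt_succ_of_le h))
        · simp only [if_neg h]
          have e2 : Ex (fun _ : V → Bool => (0 : ℝ)) = 0 := by
            unfold Ex
            simp
          rw [e2]
          exact mul_nonneg (hw0 j i) hD0
      refine (Finset.sum_le_sum e2).trans ?_
      have e3 : ∑ j ∈ range n, ∑ i ∈ range (n + 1), w j i * ∑ l ∈ range (J + 1), dn par r l v =
          (∑ j ∈ range n, ∑ i ∈ range (n + 1), w j i) * ∑ l ∈ range (J + 1), dn par r l v := by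
        rw [Finset.sum_mul]
        refine Finset.sum_congr rfl fun j _ => ?_
        rw [Finset.sum_mul]
      rw [e3]
      exact mul_le_mul_of_nonneg_right hwsum hD0
    refine (Finset.sum_le_sum e1).trans ?_
    rw [← Finset.mul_sum, hn]
    exact mul_le_mul_of_nonneg_left hAM (by norm_num)
  have hnearG : ∀ ζ v, v ∉ A → near ζ v ≤ 11 * (M : ℝ) ^ 2 := by
    intro ζ v hv
    have hv' : ∀ i ≤ J, dn par r i v ≤ M := by
      intro i hi
      by_contra hc
      apply hv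
      rw [hA, Finset.mem_filter]
      exact ⟨Finset.mem_univ _, i, hi, not_le.1 hc⟩
    have e2 : near ζ v ≤ ∑ j ∈ range n, ∑ i ∈ range (n + 1), w j i * (M : ℝ) ^ 2 := by
      rw [hnear]
      refine Finset.sum_le_sum fun j _ => Finset.sum_le_sum fun i _ => ?_
      by_cases h : i + j ≤ J
      · rw [if_pos h]
        refine mul_le_mul_of_nonneg_left ((hTM ζ j i v).trans ?_) (hw0 j i)
        exact pow_le_pow_left₀ (hdn0 _ _) (hv' _ h) 2
      · rw [if_neg h]
        exact mul_nonneg (hw0 j i) (by positivity)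
    have e3 : ∑ j ∈ range n, ∑ i ∈ range (n + 1), w j i * (M : ℝ) ^ 2 =
        (∑ j ∈ range n, ∑ i ∈ range (n + 1), w j i) * (M : ℝ) ^ 2 := by
      rw [Finset.sum_mul]
      refine Finset.sum_congr rfl fun j _ => ?_
      rw [Finset.sum_mul]
    rw [e3] at e2
    exact e2.trans (mul_le_mul_of_nonneg_right hwsum (by positivity))
  -- pointwise bound
  have hpt : ∀ ζ, Ups par r (sg lab sn ζ) k ≤ ∑ v, 52 * far ζ v + ∑ v ∈ A, 26 * near ζ v := by
    intro ζ
    have e1 : ∑ v ∈ A, 26 * near ζ v = ∑ v, if v ∈ A then 26 * near ζ v else 0 := by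
      rw [Finset.sum_ite_mem, Finset.univ_inter]
    rw [e1, ← Finset.sum_add_distrib]
    unfold Ups
    refine le_trans ?_ (Finset.sum_le_sum_of_subset_of_nonneg (Finset.filter_subset
      (fun v => (k : ℝ) < hat par r (RR par r (sg lab sn ζ)) v) univ) ?_)
    · refine Finset.sum_le_sum fun v hv => ?_
      have hkv := (Finset.mem_filter.1 hv).2
      have g1 := hR ζ v
      have g2 := hnf ζ v
      have g3 := hfar0 ζ v
      by_cases hvA : v ∈ A
      · rw [if_pos hvA]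
        linarith
      · rw [if_neg hvA]
        have g4 := hnearG ζ v hvA
        linarith
    · intro v _ _
      have g3 := hfar0 ζ v
      have g4 := hnear0 ζ v
      by_cases hvA : v ∈ A
      · rw [if_pos hvA]
        linarith
      · rw [if_neg hvA]
        linarith
  refine (Ex_mono _ _ hpt).trans ?_
  rw [Ex_add, Ex_sum, Ex_sum]
  have f1 : ∑ v, Ex (fun ζ => 52 * far ζ v) = 52 * ∑ v, Ex (fun ζ => far ζ v) := by
    rw [Finset.mul_sum]
    exact Finset.sum_congr rfl fun v _ => Ex_mul 52 _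
  have f2 : ∑ v ∈ A, Ex (fun ζ => 26 * near ζ v) = 26 * ∑ v ∈ A, Ex (fun ζ => near ζ v) := by
    rw [Finset.mul_sum]
    exact Finset.sum_congr rfl fun v _ => Ex_mul 26 _
  rw [f1, f2, ← hn]
  have hn0 : (0 : ℝ) ≤ n := Nat.cast_nonneg n
  have f3 := mul_le_mul_of_nonneg_right hJ hn0
  nlinarith

end Pool.Agent.TFin
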