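import Pool.Agent.TFin.Targets

set_option autoImplicit false

/-!
# USM: small sets have few descendants (MP_d27362_co)
-/

namespace Pool.Agent.TFin

open Finset
open Pool.Agent.TLT (av Krn Sop dl xx)

namespace USM_

variable {V : Type} [Fintype V] [DecidableEq V]

/-- the sets of children are disjoint -/
theorem disj (par : V → V) (r : V) (A : Finset V) :
    (A : Set V).PairwiseDisjoint (ch par r) := by
  intro v _ w _ hvw
  rw [Function.onFun, Finset.disjoint_left]
  intro c hc hc'
  unfold ch at hc hc'
  rw [Finset.mem_filter] at hc hc'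
  exact hvw (hc.2.2.symm.trans hc'.2.2)

/-- the number of children of a small set -/
theorem card_le (κ : ℕ → ℕ) (par : V → V) (r : V) (m : ℕ) (A : Finset V) :
    (A.biUnion (ch par r)).card ≤ κ m * A.card +
      ∑ v ∈ univ.filter (fun v => κ m ≤ (ch par r v).card), (ch par r v).card := by
  rw [Finset.card_biUnion (disj par r A)]
  calc ∑ v ∈ A, (ch par r v).card
      ≤ ∑ v ∈ A, (κ m + if κ m ≤ (ch par r v).card then (ch par r v).card else 0) := by
        refine Finset.sum_le_sum fun v _ => ?_
        split_ifs with h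
        · omega
        · omega
    _ = κ m * A.card + ∑ v ∈ A, (if κ m ≤ (ch par r v).card then (ch par r v).card else 0) := by
        rw [Finset.sum_add_distrib, Finset.sum_const, smul_eq_mul, mul_comm]
    _ ≤ κ m * A.card +
        ∑ v ∈ univ, (if κ m ≤ (ch par r v).card then (ch par r v).card else 0) := by
        refine Nat.add_le_add_left ?_ _
        exact Finset.sum_le_sum_of_subset (Finset.subset_univ A)
    _ = _ := by rw [Finset.sum_filter]

end USM_

open USM_ in
/-- USM -/
theorem p_USM (_h1 : T_SUMT) : T_USM := by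
  intro κ l
  induction l with
  | zero =>
    intro η hη
    refine ⟨η, hη, ?_⟩
    intro V _ _ par dep r _ _ A hA
    have h2 : ∑ v ∈ A, dn par r 0 v = A.card := by
      unfold dn Dj
      rw [Finset.sum_const, nsmul_eq_mul, mul_one]
    rw [h2]
    exact hA
  | succ l ih =>
    intro η hη
    obtain ⟨θ, hθ, hth⟩ := ih η hη
    obtain ⟨m, hm⟩ := exists_nat_gt (2 / θ)
    have hm0 : (0 : ℝ) < m := lt_trans (by positivity) hm
    have hmθ : 2 ≤ θ * m := by
      rw [div_lt_iff₀ hθ] at hm
      linarith
    refine ⟨θ / (2 * (κ m + 1)), by positivity, ?_⟩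
    intro V _ _ par dep r hRT hT A hA
    have h2 : ∑ v ∈ A, dn par r (l + 1) v = ∑ c ∈ A.biUnion (ch par r), dn par r l c := by
      rw [Finset.sum_biUnion (disj par r A)]
      rfl
    rw [h2]
    refine hth V par dep r hRT hT _ ?_
    have h3 := card_le κ par r m A
    have h4 := hT m
    set s := ∑ v ∈ univ.filter (fun v => κ m ≤ (ch par r v).card), (ch par r v).card with hs
    have h3' : ((A.biUnion (ch par r)).card : ℝ) ≤ κ m * A.card + s := by exact_mod_cast h3
    have h4' : (m : ℝ) * s ≤ Fintype.card V := by exact_mod_cast h4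
    have hk : (0 : ℝ) < κ m + 1 := by positivity
    have h5 : (κ m : ℝ) * A.card ≤ θ / 2 * Fintype.card V := by
      have h6 : (κ m : ℝ) * A.card ≤ (κ m + 1) * (θ / (2 * (κ m + 1)) * Fintype.card V) := by
        refine mul_le_mul (by linarith) hA (by positivity) hk.le
      have h7 : ((κ m : ℝ) + 1) * (θ / (2 * (κ m + 1)) * Fintype.card V) =
          θ / 2 * Fintype.card V := by
        field_simp
      linarith
    have h8 : (s : ℝ) ≤ θ / 2 * Fintype.card V := by
      have h9 : (2 : ℝ) * s ≤ θ * m * s := mul_le_mul_of_nonneg_right hmθ (by positivity)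
      have h10 : θ * (m * s) ≤ θ * Fintype.card V := mul_le_mul_of_nonneg_left h4' hθ.le
      nlinarith
    linarith

end Pool.Agent.TFin
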