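import Pool.Agent.TFin.Targets

set_option autoImplicit false

/-!
# XH: control of the adaptive recursion (MP_d27362_co)
-/

namespace Pool.Agent.TFin

open Finset
open Pool.Agent.TLT (av Krn Sop dl xx)

noncomputable section

namespace XH_

variable {V : Type} [Fintype V] [DecidableEq V] {W : Type} [Fintype W]

theorem mem_ch {par : V → V} {r v c : V} : c ∈ ch par r v ↔ c ≠ r ∧ par c = v := by
  unfold ch
  rw [Finset.mem_filter]
  exact ⟨fun h => h.2, fun h => ⟨Finset.mem_univ _, h⟩⟩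

theorem pi_mem {par : V → V} {r : V} {π : V → V} (hπ : Pairing par r π) {v c : V}
    (hc : c ∈ ch par r v) : π c ∈ ch par r v := by
  rw [mem_ch] at hc ⊢
  refine ⟨fun h => hc.1 ?_, by rw [hπ.hpar c hc.1, hc.2]⟩
  rw [← hπ.inv c, h, hπ.root]

theorem av_div (f : W → ℝ) (a : ℝ) : av (fun y => f y / a) = av f / a := by
  unfold av
  rw [← Finset.sum_div, div_right_comm]

/-- the numerical part -/
theorem arith {a k sx sy sH Hv X n1v n2v : ℝ} (ha : 0 ≤ a) (hk : 0 ≤ k)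
    (hX : X = a + sx + k) (hH : Hv = a + k + 3 / 4 * sH) (hyx : sy ≤ sx)
    (hyH : sy ≤ 46 * sH) (h1 : n1v ≤ 91 * a + 2 * k + 3 * sy)
    (h2 : n2v ≤ 46 * a + k + 3 / 4 * sy) (hsx : 0 ≤ sx) :
    n1v ≤ 184 * Hv ∧ n1v ≤ 91 * X ∧ n2v ≤ 46 * Hv := by
  subst hX hH
  refine ⟨by linarith, by linarith, by linarith⟩

end XH_

open XH_ in
/-- XH -/
theorem p_XH (h1 : T_REC) (h2 : T_SUMT) (h3 : T_BAN) (h4 : T_LN) (h5 : T_CVA) (h6 : T_CVB) :
    T_XH := by
  intro V _ _ par dep r hRT π hπ ε hε W _ _ K hK τ hτ hτ1 f h X Cut hRun H hH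
  obtain ⟨-, ind, -⟩ := h1 V par dep r hRT
  obtain ⟨-, -, -, -, -, -, -, S8, S9, -, -⟩ := h2 V par dep r hRT
  obtain ⟨-, -, -, -, B5, -, -, -, -, B10, -, -, -, B14⟩ := h3 W
  obtain ⟨-, -, -, -, -, -, -, -, -, hdel0, -, hxx0, -⟩ := B14 K hK
  obtain ⟨L1, L2, L3, -, -, L6⟩ := h4 V par dep r hRT ε hε.1
  have hP0 : ∀ v, 0 ≤ PP par r ε v := fun v => (L1 v).1
  have hR0 : ∀ v, 0 ≤ RR par r ε v := fun v => by
    have e0 : (0 : ℝ) ≤ ((ch par r v).card : ℝ) := Nat.cast_nonneg _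
    have e1 := L3 v
    linarith
  have hkap0 : ∀ v, 0 ≤ kap par r ε K Cut v := fun v =>
    mul_nonneg hdel0 (Finset.sum_nonneg fun c _ => by linarith [hP0 c])
  have hF0 : ∀ v, 0 ≤ xx K * RR par r ε v + kap par r ε K Cut v := fun v =>
    add_nonneg (mul_nonneg hxx0 (hR0 v)) (hkap0 v)
  have hH0 : ∀ v, 0 ≤ H v := fun v => by
    rw [hH v]
    exact (hF0 v).trans ((S9 _ hF0).1 v)
  have hHrec : ∀ v, H v = xx K * RR par r ε v + kap par r ε K Cut v +
      3 / 4 * ∑ c ∈ ch par r v, H c := fun v => by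
    rw [hH v, S8]
    congr 2
    exact Finset.sum_congr rfl fun c _ => (hH c).symm
  refine ind _ ?_
  intro v ih
  set C := ch par r v with hC
  set U := ch par r v \ Cut with hU'
  have hUC : U ⊆ C := Finset.sdiff_subset
  have hXc : ∀ c ∈ U, X c ≤ τ := by
    intro c hc
    rw [hU', Finset.mem_sdiff] at hc
    by_contra hlt
    rw [not_le] at hlt
    exact hc.2 ((hRun.cut c).2 ⟨(mem_ch.1 hc.1).1, Or.inl hlt⟩)
  have hpU : ∀ c ∈ U, π c ∈ U := by
    intro c hc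
    rw [hU', Finset.mem_sdiff] at hc ⊢
    refine ⟨pi_mem hπ hc.1, fun hcut => hc.2 ?_⟩
    rw [hRun.cut] at hcut ⊢
    rw [hπ.inv c] at hcut
    exact ⟨(mem_ch.1 hc.1).1, hcut.2.symm⟩
  have hIH : ∀ c ∈ U, (∀ y, 0 ≤ f c y) ∧ av (f c) = 1 ∧
      ex f (LL par r ε K) c ≤ 184 * H c ∧ ex f (LL par r ε K) c ≤ 91 * X c ∧
      0 ≤ ey K f (LL par r ε K) c ∧ ey K f (LL par r ε K) c ≤ 46 * H c := by
    intro c hc
    exact ((ih c (hUC hc)).2.2.2.2.2.2 (hXc c hc)).2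
  have hOne : OneV K C U π ε f (LL par r ε K) (PP par r ε) (PP par r ε v)
      (RR par r ε v) (LL par r ε K v) :=
    { UC := hUC
      pU := hpU
      pC := fun c hc => pi_mem hπ hc
      inv := fun c _ => hπ.inv c
      e1 := fun c _ => hε.1 c
      e2 := fun c _ hne => hε.2 c hne
      one := fun c hc c' hc' e e' => hπ.single c c' (mem_ch.1 hc).1 (mem_ch.1 hc').1
        ((mem_ch.1 hc).2.trans (mem_ch.1 hc').2.symm) e e'
      f0 := fun c hc => (hIH c hc).1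
      f1 := fun c hc => (hIH c hc).2.1
      P0 := fun c _ => hP0 c
      Pv0 := hP0 v
      L2 := fun c _ => (L6 W K hK c).2.2.1
      Lv := (L6 W K hK v).1
      G2 := (L6 W K hK v).2.2.2.1
      G1 := (L6 W K hK v).2.2.2.2
      hR := L2 v }
  have hkp : kp K C U (PP par r ε) = kap par r ε K Cut v := by
    unfold kp kap
    congr 2
    rw [hU', hC]
    exact sdiff_sdiff_right_self
  have hXV : X v = XV K C U f (LL par r ε K) (PP par r ε) (RR par r ε v) := by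
    rw [hRun.XX v]
    unfold XV ex
    rw [hkp]
  have hhU : h v = hU K U ε f := funext fun y => hRun.hh v y
  obtain ⟨A1, A2, A3, -⟩ := h5 V W K C U π ε f (LL par r ε K) (PP par r ε) (PP par r ε v)
    (RR par r ε v) (LL par r ε K v) hK hOne
  have hex0 : ∀ c, 0 ≤ ex f (LL par r ε K) c := fun c => (B10 _).1
  have hsx0 : 0 ≤ ∑ c ∈ U, ex f (LL par r ε K) c := Finset.sum_nonneg fun c _ => hex0 c
  have hX' : X v = xx K * RR par r ε v + ∑ c ∈ U, ex f (LL par r ε K) c +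
      kap par r ε K Cut v := by
    rw [hXV, ← hkp]
    rfl
  have ha0 : 0 ≤ xx K * RR par r ε v := mul_nonneg hxx0 (hR0 v)
  have hX0 : 0 ≤ X v := by
    rw [hX']
    linarith [hkap0 v]
  have hHs : ∑ c ∈ U, H c ≤ ∑ c ∈ C, H c :=
    Finset.sum_le_sum_of_subset_of_nonneg hUC fun c _ _ => hH0 c
  have hsxH : ∑ c ∈ U, ex f (LL par r ε K) c ≤ 184 * ∑ c ∈ C, H c := by
    calc ∑ c ∈ U, ex f (LL par r ε K) c ≤ ∑ c ∈ U, 184 * H c :=
          Finset.sum_le_sum fun c hc => (hIH c hc).2.2.1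
      _ = 184 * ∑ c ∈ U, H c := by rw [Finset.mul_sum]
      _ ≤ 184 * ∑ c ∈ C, H c := by linarith
  have hsyH : ∑ c ∈ U, ey K f (LL par r ε K) c ≤ 46 * ∑ c ∈ C, H c := by
    calc ∑ c ∈ U, ey K f (LL par r ε K) c ≤ ∑ c ∈ U, 46 * H c :=
          Finset.sum_le_sum fun c hc => (hIH c hc).2.2.2.2.2
      _ = 46 * ∑ c ∈ U, H c := by rw [Finset.mul_sum]
      _ ≤ 46 * ∑ c ∈ C, H c := by linarith
  have hsyx : ∑ c ∈ U, ey K f (LL par r ε K) c ≤ ∑ c ∈ U, ex f (LL par r ε K) c :=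
    Finset.sum_le_sum fun c hc => (A2 c hc).2
  have hHC0 : 0 ≤ ∑ c ∈ C, H c := Finset.sum_nonneg fun c _ => hH0 c
  have hXH : X v ≤ 250 * H v := by
    rw [hX', hHrec v]
    linarith [hkap0 v]
  have hAv : av (h v) ≤ Real.exp (2 + 2 * X v) := by
    rw [hhU, hXV]
    refine A3 fun c hc => ?_
    have e1 := (hIH c hc).2.2.2.1
    have e2 := hXc c hc
    linarith
  refine ⟨hOne, hXV, fun y => ?_, hX0, hXH, hAv, fun hXτ => ?_⟩
  · rw [hhU]
    exact A1 y
  · have hXs : XV K C U f (LL par r ε K) (PP par r ε) (RR par r ε v) ≤ 1 / 1000000 := by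
      rw [← hXV]
      linarith
    obtain ⟨C1, C2, C3⟩ := h6 V W K C U π ε f (LL par r ε K) (PP par r ε) (PP par r ε v)
      (RR par r ε v) (LL par r ε K v) hK hOne hXs
    rw [← hhU, ← hXV] at C1
    rw [← hhU, hkp] at C2 C3
    have hf : f v = fun y => h v y / av (h v) := funext fun y => hRun.ff v y
    have hpos : 0 < av (h v) := by
      have e1 := (abs_le.1 C1).1
      linarith
    have C2' : ex f (LL par r ε K) v ≤ 91 * (xx K * RR par r ε v) +
        2 * kap par r ε K Cut v + 3 * ∑ c ∈ U, ey K f (LL par r ε K) c := by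
      unfold ex
      rw [hf]
      exact C2
    have C3' : ey K f (LL par r ε K) v ≤ 46 * (xx K * RR par r ε v) +
        kap par r ε K Cut v + 3 / 4 * ∑ c ∈ U, ey K f (LL par r ε K) c := by
      unfold ey
      rw [hf]
      exact C3
    obtain ⟨D1, D2, D3⟩ := arith ha0 (hkap0 v) hX' (hHrec v) hsyx hsyH C2' C3' hsx0
    refine ⟨C1, fun y => ?_, ?_, D1, D2, (B5 _).1, D3⟩
    · rw [hRun.ff v y, hhU]
      exact div_nonneg (A1 y) (by rw [← hhU]; exact hpos.le)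
    · rw [hf, av_div, div_self hpos.ne']

end

end Pool.Agent.TFin
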