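import Pool.Agent.TFin.ALL
import Pool.Agent.TFin.BAN
import Pool.Agent.TFin.COD
import Pool.Agent.TFin.CONV
import Pool.Agent.TFin.CORE
import Pool.Agent.TFin.CUBE
import Pool.Agent.TFin.CUTA
import Pool.Agent.TFin.CVA
import Pool.Agent.TFin.CVB
import Pool.Agent.TFin.ES
import Pool.Agent.TFin.EXP
import Pool.Agent.TFin.EXV
import Pool.Agent.TFin.FIN
import Pool.Agent.TFin.FLN
import Pool.Agent.TFin.FV
import Pool.Agent.TFin.GAIN
import Pool.Agent.TFin.INDP
import Pool.Agent.TFin.INV
import Pool.Agent.TFin.ISO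
import Pool.Agent.TFin.JEN
import Pool.Agent.TFin.LAYF
import Pool.Agent.TFin.LAYX
import Pool.Agent.TFin.LN
import Pool.Agent.TFin.LOC
import Pool.Agent.TFin.MB
import Pool.Agent.TFin.MOM
import Pool.Agent.TFin.MZ
import Pool.Agent.TFin.ONEA
import Pool.Agent.TFin.PA
import Pool.Agent.TFin.PB
import Pool.Agent.TFin.PBR
import Pool.Agent.TFin.PL
import Pool.Agent.TFin.PRODA
import Pool.Agent.TFin.PURR
import Pool.Agent.TFin.REC
import Pool.Agent.TFin.RUN1
import Pool.Agent.TFin.RUN2
import Pool.Agent.TFin.SECR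
import Pool.Agent.TFin.SUMB
import Pool.Agent.TFin.SUMT
import Pool.Agent.TFin.TH1
import Pool.Agent.TFin.THB
import Pool.Agent.TFin.THS
import Pool.Agent.TFin.TWIN
import Pool.Agent.TFin.TYP
import Pool.Agent.TFin.UID
import Pool.Agent.TFin.UIR
import Pool.Agent.TFin.USM
import Pool.Agent.TFin.XH

set_option autoImplicit false

/-!
# Large trees in tournaments (MP_d27362_co): assembly
-/

namespace Pool.Agent.TFin

/-- large trees, in the language of `GoodTree` -/
theorem final_fin : T_FIN := by
  have rec' : T_REC := p_REC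
  have sumt : T_SUMT := p_SUMT
  have ban : T_BAN := p_BAN
  have usm : T_USM := p_USM sumt
  have uid : T_UID := p_UID sumt usm
  have ln : T_LN := p_LN rec' sumt ban
  have pl : T_PL := p_PL
  have cva : T_CVA := p_CVA ban pl
  have cvb : T_CVB := p_CVB ban cva
  have exp : T_EXP := p_EXP
  have fv : T_FV := p_FV ban cva cvb exp
  have thb : T_THB := p_THB ban
  have run1 : T_RUN1 := p_RUN1 rec'
  have run2 : T_RUN2 := p_RUN2 rec' ban
  have xh : T_XH := p_XH rec' sumt ban ln cva cvb
  have mb : T_MB := p_MB sumt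
  have sumb : T_SUMB := p_SUMB rec' sumt ban ln fv thb run1 run2 xh mb
  have ths : T_THS := p_THS sumt ban ln
  have th1 : T_TH1 := p_TH1 ban
  have pb : T_PB := p_PB sumb ths th1 ban
  have cube : T_CUBE := p_CUBE
  have es : T_ES := p_ES cube
  have loc : T_LOC := p_LOC es cube
  have layx : T_LAYX := p_LAYX
  have layf : T_LAYF := p_LAYF
  have fln : T_FLN := p_FLN
  have mz : T_MZ := p_MZ cube layf fln
  have mom : T_MOM := p_MOM cube sumt mz
  have uir : T_UIR := p_UIR cube sumt uid ln mom
  have secr : T_SECR := p_SECR cube sumt uid loc ln fln mz mom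
  have purr : T_PURR := p_PURR cube loc layf mz
  have pbr : T_PBR := p_PBR pb cube layf mom uir secr purr
  have cuta : T_CUTA := p_CUTA
  have proda : T_PRODA := p_PRODA rec' ban
  have exv : T_EXV := p_EXV rec'
  have typ : T_TYP := p_TYP ban
  have jen : T_JEN := p_JEN
  have indp : T_INDP := p_INDP rec' cube layf fln
  have onea : T_ONEA := p_ONEA ban
  have gain : T_GAIN := p_GAIN rec' ban layf onea
  have pa : T_PA := p_PA cuta proda exv typ jen indp gain es cube layf
  have core : T_CORE := p_CORE pbr pa layx layf cube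
  exact p_FIN core p_CONV p_COD (p_ISO rec') rec'

/-- the results -/
theorem final : T_ALL := p_ALL final_fin p_INV p_TWIN

end Pool.Agent.TFin
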