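import Pool.Agent.TFin.Targets

set_option autoImplicit false

/-!
Project TFin, piece ISO: siblings with equal codes give an automorphism.
-/

namespace Pool.Agent.TFin

open Finset

namespace ISO_

variable {V : Type}

/-- `u` lies in the branch of `x` -/
def Br (par : V → V) (dep : V → ℕ) (x u : V) : Prop := ∃ k, dep u = dep x + k ∧ par^[k] u = x

/-- isomorphism of branches -/
structure Iso (par : V → V) (dep : V → ℕ) (x x' : V) (f g : V → V) : Prop where
  fx : f x = x'
  gx : g x' = x
  fb : ∀ u, Br par dep x u → Br par dep x' (f u) ∧ g (f u) = u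
  gb : ∀ u, Br par dep x' u → Br par dep x (g u) ∧ f (g u) = u
  fp : ∀ u, Br par dep x u → u ≠ x → par (f u) = f (par u)
  gp : ∀ u, Br par dep x' u → u ≠ x' → par (g u) = g (par u)

lemma Iso.symm {par : V → V} {dep : V → ℕ} {x x' : V} {f g : V → V}
    (h : Iso par dep x x' f g) : Iso par dep x' x g f :=
  ⟨h.gx, h.fx, h.gb, h.fb, h.gp, h.fp⟩

lemma br_self (par : V → V) (dep : V → ℕ) (x : V) : Br par dep x x := ⟨0, rfl, rfl⟩

lemma br_dep {par : V → V} {dep : V → ℕ} {x u : V} (h : Br par dep x u) : dep x ≤ dep u := by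
  obtain ⟨k, h1, _⟩ := h; omega

lemma br_up {par : V → V} {dep : V → ℕ} {r : V} (hT : RT par dep r) {x u : V}
    (hu : u ≠ r) (h : Br par dep x (par u)) : Br par dep x u := by
  obtain ⟨k, h1, h2⟩ := h
  refine ⟨k + 1, ?_, ?_⟩
  · rw [hT.step u hu, h1]; ring
  · rw [Function.iterate_succ_apply]; exact h2

lemma br_ne_root {par : V → V} {dep : V → ℕ} {r : V} (hT : RT par dep r) {x u : V}
    (h : Br par dep x u) (hx : u ≠ x) : u ≠ r := by
  intro hu
  obtain ⟨k, h1, h2⟩ := h
  rw [hu, hT.root] at h1
  have hk : k = 0 := by omega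
  rw [hk] at h2
  exact hx h2

lemma br_par {par : V → V} {dep : V → ℕ} {r : V} (hT : RT par dep r) {x u : V}
    (h : Br par dep x u) (hx : u ≠ x) : Br par dep x (par u) := by
  have hu := br_ne_root hT h hx
  obtain ⟨k, h1, h2⟩ := h
  have hk : k ≠ 0 := by
    intro hk; rw [hk] at h2; exact hx h2
  obtain ⟨j, rfl⟩ := Nat.exists_eq_succ_of_ne_zero hk
  refine ⟨j, ?_, ?_⟩
  · have := hT.step u hu
    omega
  · rw [Function.iterate_succ_apply] at h2; exact h2

lemma br_eq {par : V → V} {dep : V → ℕ} {x y u : V} (h : Br par dep x u)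
    (h' : Br par dep y u) (hd : dep x = dep y) : x = y := by
  obtain ⟨k, h1, h2⟩ := h
  obtain ⟨k', h1', h2'⟩ := h'
  have : k = k' := by omega
  rw [← h2, ← h2', this]

lemma br_trans {par : V → V} {dep : V → ℕ} {x y u : V} (h : Br par dep x y)
    (h' : Br par dep y u) : Br par dep x u := by
  obtain ⟨k, h1, h2⟩ := h
  obtain ⟨k', h1', h2'⟩ := h'
  refine ⟨k + k', by omega, ?_⟩
  rw [Function.iterate_add_apply, h2', h2]

lemma mem_ch [Fintype V] [DecidableEq V] {par : V → V} {r v c : V} : c ∈ ch par r v ↔ c ≠ r ∧ par c = v := by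
  unfold ch; simp

lemma br_ch [Fintype V] [DecidableEq V] {par : V → V} {dep : V → ℕ} {r : V} (hT : RT par dep r) {x a : V}
    (h : a ∈ ch par r x) : Br par dep x a ∧ dep a = dep x + 1 := by
  rw [mem_ch] at h
  have h1 := hT.step a h.1
  rw [h.2] at h1
  exact ⟨⟨1, h1, h.2⟩, h1⟩

/-- the child of `x` above `u` -/
def top (par : V → V) (dep : V → ℕ) (x u : V) : V := par^[dep u - (dep x + 1)] u

lemma top_eq {par : V → V} {dep : V → ℕ} {x a u : V} (ha : dep a = dep x + 1)
    (h : Br par dep a u) : top par dep x u = a := by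
  obtain ⟨k, h1, h2⟩ := h
  unfold top
  have : dep u - (dep x + 1) = k := by omega
  rw [this]; exact h2

/-- every vertex of the branch of `x` other than `x` is in the branch of a child -/
lemma br_child [Fintype V] [DecidableEq V] {par : V → V} {dep : V → ℕ} {r : V} (hT : RT par dep r) {x u : V}
    (h : Br par dep x u) (hx : u ≠ x) : ∃ a ∈ ch par r x, Br par dep a u := by
  obtain ⟨k, h1, h2⟩ := h
  induction k generalizing u with
  | zero => exact absurd h2 hx
  | succ k ih =>
    have hu : u ≠ r := by
      intro hu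
      rw [hu, hT.root] at h1
      omega
    by_cases hp : par u = x
    · exact ⟨u, mem_ch.mpr ⟨hu, hp⟩, br_self _ _ _⟩
    · rw [Function.iterate_succ_apply] at h2
      have h3 := hT.step u hu
      obtain ⟨a, ha, hb⟩ := ih hp (by omega) h2
      exact ⟨a, ha, br_up hT hu hb⟩

/-- equal multisets of codes give a bijection -/
lemma bij [DecidableEq V] (code : V → ℕ) (A B : Finset V)
    (h : Multiset.map code A.val = Multiset.map code B.val) :
    ∃ σ τ : V → V, (∀ a ∈ A, σ a ∈ B ∧ code (σ a) = code a ∧ τ (σ a) = a) ∧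
      (∀ b ∈ B, τ b ∈ A ∧ code (τ b) = code b ∧ σ (τ b) = b) := by
  classical
  have hcard : ∀ y : ℕ, Fintype.card {a : A // code a = y} = Fintype.card {b : B // code b = y} := by
    intro y
    have e : ∀ C : Finset V, Fintype.card {a : C // code a = y} =
        Multiset.count y (Multiset.map code C.val) := by
      intro C
      rw [Multiset.count_map, Fintype.card_subtype]
      have e1 : (univ.filter (fun a : C => code a = y)).card =
          (C.filter (fun a => y = code a)).card := by
        rw [← Finset.card_map (Function.Embedding.subtype _)]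
        congr 1
        ext a
        simp only [Finset.mem_map, Finset.mem_filter, Finset.mem_univ, true_and,
          Function.Embedding.coe_subtype, Subtype.exists, exists_and_right, exists_eq_right]
        constructor
        · rintro ⟨h1, h2⟩; exact ⟨h1, h2.symm⟩
        · rintro ⟨h1, h2⟩; exact ⟨h1, h2.symm⟩
      rw [e1]
      rfl
    rw [e A, e B, h]
  let E : A ≃ B :=
    (Equiv.sigmaFiberEquiv (fun a : A => code a)).symm.trans
      ((Equiv.sigmaCongrRight (fun y => Fintype.equivOfCardEq (hcard y))).trans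
        (Equiv.sigmaFiberEquiv (fun b : B => code b)))
  have hE : ∀ a : A, code (E a) = code a := by
    intro a
    show code ((Fintype.equivOfCardEq (hcard (code a)) ⟨a, rfl⟩ : {b : B // code b = code a}) : B) = code a
    exact (Fintype.equivOfCardEq (hcard (code a)) ⟨a, rfl⟩).2
  refine ⟨fun a => if h : a ∈ A then E ⟨a, h⟩ else a, fun b => if h : b ∈ B then E.symm ⟨b, h⟩ else b,
    ?_, ?_⟩
  · intro a ha
    have h1 : ((E ⟨a, ha⟩ : B) : V) ∈ B := (E ⟨a, ha⟩).2
    refine ⟨?_, ?_, ?_⟩
    · simp only [dif_pos ha]; exact h1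
    · simp only [dif_pos ha]; exact hE ⟨a, ha⟩
    · simp only [dif_pos ha, dif_pos h1, Subtype.coe_eta, Equiv.symm_apply_apply]
  · intro b hb
    have h1 : ((E.symm ⟨b, hb⟩ : A) : V) ∈ A := (E.symm ⟨b, hb⟩).2
    refine ⟨?_, ?_, ?_⟩
    · simp only [dif_pos hb]; exact h1
    · simp only [dif_pos hb]
      have := hE (E.symm ⟨b, hb⟩)
      rw [Equiv.apply_symm_apply] at this
      exact this.symm
    · simp only [dif_pos hb, dif_pos h1, Subtype.coe_eta, Equiv.apply_symm_apply]

/-- half of the gluing -/
lemma glue_half [Fintype V] [DecidableEq V] {par : V → V} {dep : V → ℕ} {r : V} (hT : RT par dep r) {x x' : V}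
    (F G : V → V → V) (σ τ : V → V)
    (hσ : ∀ a ∈ ch par r x, σ a ∈ ch par r x' ∧ τ (σ a) = a)
    (hI : ∀ a ∈ ch par r x, Iso par dep a (σ a) (F a) (G a))
    (f g : V → V) (fx : f x = x') (gx : g x' = x)
    (hf : ∀ u, Br par dep x u → u ≠ x → f u = F (top par dep x u) u)
    (hg : ∀ u, Br par dep x' u → u ≠ x' → g u = G (τ (top par dep x' u)) u) :
    (∀ u, Br par dep x u → Br par dep x' (f u) ∧ g (f u) = u) ∧
    (∀ u, Br par dep x u → u ≠ x → par (f u) = f (par u)) := by
  constructor
  · intro u hu
    by_cases hx : u = x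
    · rw [hx, fx, gx]; exact ⟨br_self _ _ _, rfl⟩
    · obtain ⟨a, ha, hb⟩ := br_child hT hu hx
      have hda := (br_ch hT ha).2
      have hfu : f u = F a u := by rw [hf u hu hx, top_eq hda hb]
      obtain ⟨h1, h2⟩ := (hI a ha).fb u hb
      have hσa := (hσ a ha).1
      have hdσ := (br_ch hT hσa).2
      rw [hfu]
      have hbr := br_trans (br_ch hT hσa).1 h1
      refine ⟨hbr, ?_⟩
      have hne : F a u ≠ x' := by
        intro he
        have := br_dep h1
        rw [he] at this
        omega
      rw [hg _ hbr hne, top_eq hdσ h1, (hσ a ha).2]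
      exact h2
  · intro u hu hx
    obtain ⟨a, ha, hb⟩ := br_child hT hu hx
    have hda := (br_ch hT ha).2
    have hfu : f u = F a u := by rw [hf u hu hx, top_eq hda hb]
    by_cases hua : u = a
    · have hpu : par u = x := by rw [hua]; exact (mem_ch.mp ha).2
      rw [hpu, fx, hfu, hua, (hI a ha).fx]
      exact (mem_ch.mp (hσ a ha).1).2
    · have hbp := br_par hT hb hua
      have hpx : par u ≠ x := by
        intro he
        have := br_dep hbp
        rw [he] at this
        omega
      rw [hfu, (hI a ha).fp u hb hua, hf _ (br_trans (br_ch hT ha).1 hbp) hpx, top_eq hda hbp]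

end ISO_

open ISO_ in
theorem p_ISO (hR : T_REC) : T_ISO := by
  intro V _ _ par dep r hT code hcode
  obtain ⟨-, hind, -, -, -, -⟩ := hR V par dep r hT
  have key : ∀ x x', code x = code x' → ∃ f g, Iso par dep x x' f g := by
    intro x
    refine hind (fun x => ∀ x', code x = code x' → ∃ f g, Iso par dep x x' f g) ?_ x
    intro x ih x' hxx
    rw [hcode x, hcode x'] at hxx
    have hm := Encodable.encode_injective hxx
    obtain ⟨σ, τ, hσ, hτ⟩ := bij code (ch par r x) (ch par r x') hm
    have hch : ∀ a, ∃ f g, a ∈ ch par r x → Iso par dep a (σ a) f g := by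
      intro a
      by_cases ha : a ∈ ch par r x
      · obtain ⟨f, g, h⟩ := ih a ha (σ a) (hσ a ha).2.1.symm
        exact ⟨f, g, fun _ => h⟩
      · exact ⟨id, id, fun h => absurd h ha⟩
    choose F G hFG using hch
    classical
    let f : V → V := fun u => if u = x then x' else F (top par dep x u) u
    let g : V → V := fun u => if u = x' then x else G (τ (top par dep x' u)) u
    have fx : f x = x' := if_pos rfl
    have gx : g x' = x := if_pos rfl
    have hf : ∀ u, Br par dep x u → u ≠ x → f u = F (top par dep x u) u :=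
      fun u _ hu => if_neg hu
    have hg : ∀ u, Br par dep x' u → u ≠ x' → g u = G (τ (top par dep x' u)) u :=
      fun u _ hu => if_neg hu
    have H1 := glue_half hT F G σ τ (fun a ha => ⟨(hσ a ha).1, (hσ a ha).2.2⟩)
      (fun a ha => hFG a ha) f g fx gx hf hg
    have H2 := glue_half (x := x') (x' := x) hT (fun b => G (τ b)) (fun b => F (τ b)) τ σ
      (fun b hb => ⟨(hτ b hb).1, (hτ b hb).2.2⟩)
      (fun b hb => by
        have h := (hFG (τ b) (hτ b hb).1).symm
        rw [(hτ b hb).2.2] at h
        exact h) g f gx fx hg (fun u hu hx => by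
        show f u = F (τ (σ (top par dep x u))) u
        obtain ⟨a, ha, hb⟩ := br_child hT hu hx
        rw [hf u hu hx, top_eq (br_ch hT ha).2 hb, (hσ a ha).2.2])
    exact ⟨f, g, fx, gx, H1.1, H2.1, H1.2, H2.2⟩
  intro v c hc c' hc' hcc hne
  obtain ⟨f, g, hI⟩ := key c c' hcc
  have hd : dep c = dep v + 1 := (br_ch hT hc).2
  have hd' : dep c' = dep v + 1 := (br_ch hT hc').2
  have hdis : ∀ u, Br par dep c u → ¬ Br par dep c' u := by
    intro u h1 h2
    exact hne (br_eq h1 h2 (by omega))
  classical
  let φ : V → V := fun u => if Br par dep c u then f u else if Br par dep c' u then g u else u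
  have φ1 : ∀ u, Br par dep c u → φ u = f u := fun u h => if_pos h
  have φ2 : ∀ u, Br par dep c' u → φ u = g u := by
    intro u h
    have h1 : ¬ Br par dep c u := fun h2 => hdis u h2 h
    show (if Br par dep c u then f u else if Br par dep c' u then g u else u) = g u
    rw [if_neg h1, if_pos h]
  have φ3 : ∀ u, ¬ Br par dep c u → ¬ Br par dep c' u → φ u = u := by
    intro u h1 h2
    show (if Br par dep c u then f u else if Br par dep c' u then g u else u) = u
    rw [if_neg h1, if_neg h2]
  have hinv : Function.Involutive φ := by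
    intro u
    by_cases h1 : Br par dep c u
    · obtain ⟨h2, h3⟩ := hI.fb u h1
      rw [φ1 u h1, φ2 _ h2, h3]
    · by_cases h2 : Br par dep c' u
      · obtain ⟨h3, h4⟩ := hI.gb u h2
        rw [φ2 u h2, φ1 _ h3, h4]
      · rw [φ3 u h1 h2, φ3 u h1 h2]
  have hv1 : ¬ Br par dep c v := by
    intro h; have := br_dep h; omega
  have hv2 : ¬ Br par dep c' v := by
    intro h; have := br_dep h; omega
  have hφv : φ v = v := φ3 v hv1 hv2
  refine ⟨hinv.toPerm, hφv, ?_, ?_, ?_⟩
  · show φ c = c'
    rw [φ1 c (br_self _ _ _), hI.fx]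
  · show φ r = r
    apply φ3
    · intro h; have := br_dep h; rw [hT.root] at this; omega
    · intro h; have := br_dep h; rw [hT.root] at this; omega
  · intro u hu
    show par (φ u) = φ (par u)
    by_cases h1 : Br par dep c u
    · by_cases huc : u = c
      · rw [huc, φ1 c (br_self _ _ _), hI.fx, (mem_ch.mp hc).2, (mem_ch.mp hc').2, hφv]
      · rw [φ1 u h1, hI.fp u h1 huc, φ1 _ (br_par hT h1 huc)]
    · by_cases h2 : Br par dep c' u
      · by_cases huc : u = c'
        · rw [huc, φ2 c' (br_self _ _ _), hI.gx, (mem_ch.mp hc).2, (mem_ch.mp hc').2, hφv]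
        · rw [φ2 u h2, hI.gp u h2 huc, φ2 _ (br_par hT h2 huc)]
      · rw [φ3 u h1 h2, φ3 (par u) (fun h => h1 (br_up hT hu h)) (fun h => h2 (br_up hT hu h))]

end Pool.Agent.TFin
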