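import Pool.Agent.TFin.Targets

set_option autoImplicit false

/-!
# Large trees in tournaments (MP_d27362_co): second order sums are small in mean
-/

namespace Pool.Agent.TFin

open Finset
open Pool.Agent.TLT (av Krn Sop dl xx)

noncomputable section

namespace SECR_

lemma off_diag {V : Type} [DecidableEq V] (s : Finset V) (a b : V → ℝ) :
    ∑ c ∈ s, ∑ c' ∈ s.erase c, a c * b c' =
      (∑ c ∈ s, a c) * (∑ c ∈ s, b c) - ∑ c ∈ s, a c * b c := by
  rw [Finset.sum_mul_sum, ← Finset.sum_sub_distrib]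
  apply Finset.sum_congr rfl
  intro c hc
  have h := Finset.sum_erase_add s (fun c' => a c * b c') hc
  linarith

lemma sum_w (n : ℕ) : ∑ i ∈ range n, (5 / 7 : ℝ) ^ (i + 1) ≤ 5 / 2 := by
  have h : ∑ i ∈ range n, (5 / 7 : ℝ) ^ (i + 1) = 5 / 2 * (1 - (5 / 7 : ℝ) ^ n) := by
    induction n with
    | zero => simp
    | succ n ih =>
      rw [Finset.sum_range_succ, ih]
      ring
  rw [h]
  have : (0 : ℝ) ≤ (5 / 7 : ℝ) ^ n := by positivity
  linarith

/-- indicator of the tail -/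
def tl (J i : ℕ) : ℝ := if i < J then 0 else 1

lemma tl_nonneg (J i : ℕ) : 0 ≤ tl J i := by
  unfold tl
  split_ifs <;> norm_num

lemma sum_we (n J : ℕ) :
    ∑ i ∈ range n, (5 / 7 : ℝ) ^ (i + 1) * tl J i ≤ 5 / 2 * (5 / 7 : ℝ) ^ J := by
  have h1 : ∑ i ∈ range n, (5 / 7 : ℝ) ^ (i + 1) * tl J i ≤
      ∑ i ∈ range (J + n), (5 / 7 : ℝ) ^ (i + 1) * tl J i := by
    apply Finset.sum_le_sum_of_subset_of_nonneg
    · intro x hx
      rw [Finset.mem_range] at hx ⊢
      omega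
    · intro i _ _
      exact mul_nonneg (by positivity) (tl_nonneg J i)
  refine le_trans h1 ?_
  rw [Finset.sum_range_add]
  have h2 : ∑ i ∈ range J, (5 / 7 : ℝ) ^ (i + 1) * tl J i = 0 := by
    apply Finset.sum_eq_zero
    intro i hi
    rw [Finset.mem_range] at hi
    unfold tl
    rw [if_pos hi, mul_zero]
  have h3 : ∑ i ∈ range n, (5 / 7 : ℝ) ^ (J + i + 1) * tl J (J + i) =
      (5 / 7 : ℝ) ^ J * ∑ i ∈ range n, (5 / 7 : ℝ) ^ (i + 1) := by
    rw [Finset.mul_sum]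
    apply Finset.sum_congr rfl
    intro i _
    unfold tl
    rw [if_neg (by omega), mul_one, ← pow_add]
    congr 1
  rw [h2, h3, zero_add]
  have h4 : (0 : ℝ) ≤ (5 / 7 : ℝ) ^ J := by positivity
  have h5 := mul_le_mul_of_nonneg_left (sum_w n) h4
  linarith

section T

variable {V : Type} [Fintype V] [DecidableEq V]

/-- the term of `BB` at `v` -/
def XX (par : V → V) (r : V) (ε : V → ℝ) (i j : ℕ) (v : V) : ℝ :=
  ∑ c ∈ ch par r v, ∑ c' ∈ (ch par r v).erase c,
    ε c * ε c' * NN par r ε i c * NN par r ε j c'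

lemma XX_eq (par : V → V) (r : V) (ε : V → ℝ) (hε : ∀ c, ε c = 1 ∨ ε c = -1) (i j : ℕ) (v : V) :
    XX par r ε i j v = NN par r ε (i + 1) v * NN par r ε (j + 1) v -
      ∑ c ∈ ch par r v, NN par r ε i c * NN par r ε j c := by
  have h := off_diag (ch par r v) (fun c => ε c * NN par r ε i c) (fun c => ε c * NN par r ε j c)
  have h1 : XX par r ε i j v = ∑ c ∈ ch par r v, ∑ c' ∈ (ch par r v).erase c,
      (ε c * NN par r ε i c) * (ε c' * NN par r ε j c') := by
    unfold XX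
    apply Finset.sum_congr rfl
    intro c _
    apply Finset.sum_congr rfl
    intro c' _
    ring
  have h2 : ∑ c ∈ ch par r v, (ε c * NN par r ε i c) * (ε c * NN par r ε j c) =
      ∑ c ∈ ch par r v, NN par r ε i c * NN par r ε j c := by
    apply Finset.sum_congr rfl
    intro c _
    have h3 : ε c * ε c = 1 := by
      rcases hε c with h | h <;> rw [h] <;> norm_num
    calc (ε c * NN par r ε i c) * (ε c * NN par r ε j c)
        = (ε c * ε c) * (NN par r ε i c * NN par r ε j c) := by ring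
      _ = NN par r ε i c * NN par r ε j c := by rw [h3, one_mul]
  rw [h1, h, h2]
  rfl

lemma abs_mul_half (a b : ℝ) : |a * b| ≤ 1 / 2 * a ^ 2 + 1 / 2 * b ^ 2 := by
  rw [abs_le]
  constructor
  · nlinarith [sq_nonneg (a + b)]
  · nlinarith [sq_nonneg (a - b)]

lemma XX_sq (par : V → V) (r : V) (ε : V → ℝ) (hε : ∀ c, ε c = 1 ∨ ε c = -1) (i j : ℕ) (v : V) :
    |XX par r ε i j v| ≤ (1 / 2 * NN par r ε (i + 1) v ^ 2 + 1 / 2 * NN par r ε (j + 1) v ^ 2) +
      ∑ c ∈ ch par r v, (1 / 2 * NN par r ε i c ^ 2 + 1 / 2 * NN par r ε j c ^ 2) := by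
  rw [XX_eq par r ε hε]
  refine le_trans (abs_sub _ _) ?_
  apply add_le_add (abs_mul_half _ _)
  refine le_trans (Finset.abs_sum_le_sum_abs _ _) ?_
  exact Finset.sum_le_sum fun c _ => abs_mul_half _ _

lemma sum_mul_le {I : Type} (s : Finset I) (a b : I → ℝ) (ha : ∀ i, 0 ≤ a i) (hb : ∀ i, 0 ≤ b i) :
    ∑ i ∈ s, a i * b i ≤ (∑ i ∈ s, a i) * ∑ i ∈ s, b i := by
  rw [Finset.sum_mul]
  apply Finset.sum_le_sum
  intro i hi
  apply mul_le_mul_of_nonneg_left _ (ha i)
  exact Finset.single_le_sum (fun j _ => hb j) hi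

lemma XX_dn (par : V → V) (r : V) (ε : V → ℝ) (hε : ∀ c, ε c = 1 ∨ ε c = -1)
    (hN : ∀ j v, |NN par r ε j v| ≤ dn par r j v) (hd : ∀ j v, 0 ≤ dn par r j v) (i j : ℕ) (v : V) :
    |XX par r ε i j v| ≤ 2 * (dn par r (i + 1) v * dn par r (j + 1) v) := by
  rw [XX_eq par r ε hε]
  refine le_trans (abs_sub _ _) ?_
  have h1 : |NN par r ε (i + 1) v * NN par r ε (j + 1) v| ≤
      dn par r (i + 1) v * dn par r (j + 1) v := by
    rw [abs_mul]
    exact mul_le_mul (hN _ _) (hN _ _) (abs_nonneg _) (hd _ _)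
  have h2 : |∑ c ∈ ch par r v, NN par r ε i c * NN par r ε j c| ≤
      dn par r (i + 1) v * dn par r (j + 1) v := by
    refine le_trans (Finset.abs_sum_le_sum_abs _ _) ?_
    have h3 : ∑ c ∈ ch par r v, |NN par r ε i c * NN par r ε j c| ≤
        ∑ c ∈ ch par r v, dn par r i c * dn par r j c := by
      apply Finset.sum_le_sum
      intro c _
      rw [abs_mul]
      exact mul_le_mul (hN _ _) (hN _ _) (abs_nonneg _) (hd _ _)
    refine le_trans h3 ?_
    exact sum_mul_le (ch par r v) (fun c => dn par r i c) (fun c => dn par r j c)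
      (fun c => hd i c) (fun c => hd j c)
  linarith

end T

end SECR_

open SECR_ in
theorem p_SECR (hCUBE : T_CUBE) (hSUMT : T_SUMT) (hUID : T_UID) (hLOC : T_LOC) (hLN : T_LN)
    (hFLN : T_FLN) (hMZ : T_MZ) (hMOM : T_MOM) : T_SECR := by
  intro κ η hη
  obtain ⟨J, hJ⟩ : ∃ J : ℕ, (5 / 7 : ℝ) ^ J < η / 40 :=
    exists_pow_lt_of_lt_one (by positivity) (by norm_num)
  set e' : ℝ := η / 50 with he'
  have he'0 : 0 < e' := by rw [he']; positivity
  obtain ⟨M, hM⟩ := hUID κ (J + 3) e' he'0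
  -- the size of `n`
  obtain ⟨N, hN⟩ : ∃ N : ℕ, ∀ n : ℕ, N ≤ n →
      4 * ((J + 3 : ℕ) + 1 : ℝ) * (2 * (M : ℝ) ^ 2) * Real.sqrt n ≤ e' * n := by
    set C : ℝ := 4 * ((J + 3 : ℕ) + 1 : ℝ) * (2 * (M : ℝ) ^ 2) with hC
    have hC0 : 0 ≤ C := by rw [hC]; positivity
    obtain ⟨N, hN⟩ := exists_nat_ge ((C / e') ^ 2)
    refine ⟨N, fun n hn => ?_⟩
    have h1 : (C / e') ^ 2 ≤ (n : ℝ) := le_trans hN (by exact_mod_cast hn)
    have h2 : C / e' ≤ Real.sqrt n := Real.le_sqrt_of_sq_le h1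
    have h3 : C ≤ e' * Real.sqrt n := by
      rw [div_le_iff₀ he'0] at h2
      linarith
    calc C * Real.sqrt n ≤ (e' * Real.sqrt n) * Real.sqrt n :=
          mul_le_mul_of_nonneg_right h3 (Real.sqrt_nonneg _)
      _ = e' * (Real.sqrt n * Real.sqrt n) := by ring
      _ = e' * n := by rw [Real.mul_self_sqrt (Nat.cast_nonneg _)]
  refine ⟨N, ?_⟩
  intro V _ _ par dep r π lab sn B hRT hTame hLay hNV
  classical
  obtain ⟨hlin, hsum, hmono, hconst, habs, -, -, -, -, -⟩ := hCUBE V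
  obtain ⟨-, -, -, -, hDj0, -, -, -, -, -, -⟩ := hSUMT V par dep r hRT
  obtain ⟨hmz1, -, hmz3, -, -⟩ := hMZ V par dep r π lab sn B hRT hLay
  obtain ⟨hmom, -⟩ := hMOM V par dep r π lab sn B hRT hLay
  obtain ⟨-, -, -, -, hloc⟩ := hFLN V par dep r hRT
  set n : ℝ := (Fintype.card V : ℝ) with hn
  have hn0 : 0 ≤ n := Nat.cast_nonneg _
  set E : (V → Bool) → V → ℝ := fun ζ => sg lab sn ζ with hE
  have hE1 : ∀ ζ c, E ζ c = 1 ∨ E ζ c = -1 := by
    intro ζ c
    simp only [hE, sg]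
    rcases hLay.sn1 c with h | h <;> rw [h] <;> split_ifs <;> norm_num
  have hNN : ∀ ζ j v, |NN par r (E ζ) j v| ≤ dn par r j v := by
    intro ζ
    obtain ⟨-, -, -, -, h, -⟩ := hLN V par dep r hRT (E ζ) (hE1 ζ)
    exact h
  have hd0 : ∀ j v, 0 ≤ dn par r j v := fun j v => (hDj0 (fun _ => 1) (fun _ => zero_le_one) j).1 v
  have hdn : ∀ j, ∑ v, dn par r j v ≤ n := by
    intro j
    have h1 := (hDj0 (fun _ => 1) (fun _ => zero_le_one) j).2
    have h2 : ∑ _v : V, (1 : ℝ) = n := by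
      rw [Finset.sum_const, Finset.card_univ, nsmul_eq_mul, mul_one]
    rw [h2] at h1
    exact h1
  have hadd : ∀ F G : (V → Bool) → ℝ, Ex (fun ζ => F ζ + G ζ) = Ex F + Ex G := by
    intro F G
    have := hlin 1 1 F G
    simpa using this
  have hsmul : ∀ (a : ℝ) (F : (V → Bool) → ℝ), Ex (fun ζ => a * F ζ) = a * Ex F := by
    intro a F
    have := hlin a 0 F F
    simpa using this
  -- the mean of `|XX|`
  have hXEx : ∀ i j v, Ex (fun ζ => |XX par r (E ζ) i j v|) ≤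
      dn par r (i + 1) v + dn par r (j + 1) v := by
    intro i j v
    have h1 : Ex (fun ζ => |XX par r (E ζ) i j v|) ≤ Ex fun ζ =>
        (1 / 2 * NN par r (E ζ) (i + 1) v ^ 2 + 1 / 2 * NN par r (E ζ) (j + 1) v ^ 2) +
        ∑ c ∈ ch par r v, (1 / 2 * NN par r (E ζ) i c ^ 2 + 1 / 2 * NN par r (E ζ) j c ^ 2) :=
      hmono _ _ fun ζ => XX_sq par r (E ζ) (hE1 ζ) i j v
    refine le_trans h1 ?_
    rw [hadd (fun ζ => 1 / 2 * NN par r (E ζ) (i + 1) v ^ 2 + 1 / 2 * NN par r (E ζ) (j + 1) v ^ 2)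
      (fun ζ => ∑ c ∈ ch par r v, (1 / 2 * NN par r (E ζ) i c ^ 2 + 1 / 2 * NN par r (E ζ) j c ^ 2)),
      hlin (1 / 2) (1 / 2) (fun ζ => NN par r (E ζ) (i + 1) v ^ 2)
        (fun ζ => NN par r (E ζ) (j + 1) v ^ 2),
      hsum V (ch par r v) (fun c ζ => 1 / 2 * NN par r (E ζ) i c ^ 2 + 1 / 2 * NN par r (E ζ) j c ^ 2)]
    have h2 : ∑ c ∈ ch par r v,
        Ex (fun ζ => 1 / 2 * NN par r (E ζ) i c ^ 2 + 1 / 2 * NN par r (E ζ) j c ^ 2) ≤
        ∑ c ∈ ch par r v, (1 / 2 * dn par r i c + 1 / 2 * dn par r j c) := by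
      apply Finset.sum_le_sum
      intro c _
      rw [hlin (1 / 2) (1 / 2) (fun ζ => NN par r (E ζ) i c ^ 2) (fun ζ => NN par r (E ζ) j c ^ 2)]
      have h3 := hmom i c
      have h4 := hmom j c
      linarith
    have h5 : ∑ c ∈ ch par r v, (1 / 2 * dn par r i c + 1 / 2 * dn par r j c) =
        1 / 2 * dn par r (i + 1) v + 1 / 2 * dn par r (j + 1) v := by
      rw [Finset.sum_add_distrib, ← Finset.mul_sum, ← Finset.mul_sum]
      rfl
    have h6 := hmom (i + 1) v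
    have h7 := hmom (j + 1) v
    rw [h5] at h2
    linarith
  have hBBsum : ∀ ζ i j, BB par r (E ζ) i j = ∑ v, XX par r (E ζ) i j v := fun ζ i j => rfl
  have hBB2 : ∀ i j, Ex (fun ζ => |BB par r (E ζ) i j|) ≤ 2 * n := by
    intro i j
    have h1 : Ex (fun ζ => |BB par r (E ζ) i j|) ≤ Ex fun ζ => ∑ v, |XX par r (E ζ) i j v| :=
      hmono _ _ fun ζ => by
        rw [hBBsum]
        exact Finset.abs_sum_le_sum_abs _ _
    refine le_trans h1 ?_
    rw [hsum V univ (fun v ζ => |XX par r (E ζ) i j v|)]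
    have h2 : ∑ v, Ex (fun ζ => |XX par r (E ζ) i j v|) ≤
        ∑ v, (dn par r (i + 1) v + dn par r (j + 1) v) :=
      Finset.sum_le_sum fun v _ => hXEx i j v
    rw [Finset.sum_add_distrib] at h2
    have h3 := hdn (i + 1)
    have h4 := hdn (j + 1)
    linarith
  have hMM1 : ∀ m, Ex (fun ζ => |MM par r (E ζ) m|) ≤ n := by
    intro m
    have h1 : Ex (fun ζ => |MM par r (E ζ) m|) ≤ Ex fun _ : V → Bool => n :=
      hmono _ _ fun ζ => by
        refine le_trans (Finset.abs_sum_le_sum_abs _ _) ?_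
        exact le_trans (Finset.sum_le_sum fun v _ => hNN ζ m v) (hdn m)
    rw [hconst] at h1
    exact h1
  -- the exceptional set
  set A : Finset V := univ.filter fun v => ∃ i ≤ J + 3, (M : ℝ) < dn par r i v with hA
  have hAs : ∑ v ∈ A, ∑ l ∈ range (J + 3 + 1), dn par r l v ≤ e' * n :=
    hM V par dep r hRT hTame A fun v hv => (Finset.mem_filter.mp hv).2
  have hAl : ∀ l ≤ J + 3, ∑ v ∈ A, dn par r l v ≤ e' * n := by
    intro l hl
    refine le_trans ?_ hAs
    apply Finset.sum_le_sum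
    intro v _
    exact Finset.single_le_sum (f := fun l => dn par r l v) (fun l _ => hd0 l v)
      (Finset.mem_range.mpr (by omega))
  have hAc : ∀ v ∈ Aᶜ, ∀ i ≤ J + 3, dn par r i v ≤ M := by
    intro v hv i hi
    rw [Finset.mem_compl, hA, Finset.mem_filter] at hv
    by_contra hcon
    push Not at hcon
    exact hv ⟨Finset.mem_univ v, i, hi, hcon⟩
  have hM0 : (0 : ℝ) ≤ M := Nat.cast_nonneg _
  have hM2 : (M : ℝ) ≤ 2 * (M : ℝ) ^ 2 := by
    rcases Nat.eq_zero_or_pos M with h | h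
    · rw [h]
      norm_num
    · have h1 : (1 : ℝ) ≤ M := by exact_mod_cast h
      nlinarith
  have hNn : 4 * ((J + 3 : ℕ) + 1 : ℝ) * (2 * (M : ℝ) ^ 2) * Real.sqrt (Fintype.card V) ≤
      e' * n := hN _ hNV
  -- a general statement
  have key : ∀ (X : V → (V → Bool) → ℝ) (b : V → ℝ), (∀ v, Ex (X v) = 0) →
      (∀ v, Ex (fun ζ => |X v ζ|) ≤ b v) → (∑ v ∈ A, b v ≤ 2 * (e' * n)) →
      (∀ v ∈ Aᶜ, ∀ ζ, |X v ζ| ≤ 2 * (M : ℝ) ^ 2) →
      (∀ v, ∀ ζ ζ', (∀ c, c ≠ r → (∃ t ≤ J + 3, par^[t] c = v) → ζ (lab c) = ζ' (lab c)) →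
        X v ζ = X v ζ') → Ex (fun ζ => |∑ v, X v ζ|) ≤ 3 * (e' * n) := by
    intro X b hX0 hXb hbA hXM hXl
    have h1 := hLOC V par dep r π lab sn B hRT hLay X (J + 3) (2 * (M : ℝ) ^ 2) Aᶜ (by positivity)
      hXM (fun v _ => hXl v)
    have h2 : ∑ v ∈ Aᶜ, Ex (X v) = 0 := Finset.sum_eq_zero fun v _ => hX0 v
    rw [h2] at h1
    simp only [sub_zero] at h1
    have h3 : Ex (fun ζ => |∑ v, X v ζ|) ≤ Ex fun ζ => (∑ v ∈ A, |X v ζ|) + |∑ v ∈ Aᶜ, X v ζ| :=
      hmono _ _ fun ζ => by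
        rw [← Finset.sum_add_sum_compl A (fun v => X v ζ)]
        refine le_trans (abs_add_le _ _) ?_
        have := Finset.abs_sum_le_sum_abs (fun v => X v ζ) A
        linarith
    rw [hadd (fun ζ => ∑ v ∈ A, |X v ζ|) (fun ζ => |∑ v ∈ Aᶜ, X v ζ|),
      hsum V A (fun v ζ => |X v ζ|)] at h3
    have h4 : ∑ v ∈ A, Ex (fun ζ => |X v ζ|) ≤ ∑ v ∈ A, b v :=
      Finset.sum_le_sum fun v _ => hXb v
    have h5 := le_trans h1 hNn
    linarith
  have hsgl : ∀ ζ ζ' c, ζ (lab c) = ζ' (lab c) → E ζ c = E ζ' c := by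
    intro ζ ζ' c h
    simp only [hE, sg, h]
  have hchm : ∀ v c, c ∈ ch par r v ↔ c ≠ r ∧ par c = v := by
    intro v c
    simp [ch]
  -- `BB`
  have hBBs : ∀ i j, i < J → j ≤ J → Ex (fun ζ => |BB par r (E ζ) (i + 1) j|) ≤ 3 * (e' * n) := by
    intro i j hi hj
    have h1 := key (fun v ζ => XX par r (E ζ) (i + 1) j v)
      (fun v => dn par r (i + 1 + 1) v + dn par r (j + 1) v) ?_ ?_ ?_ ?_ ?_
    · exact h1
    · intro v
      unfold XX
      rw [hsum V (ch par r v) (fun c ζ => ∑ c' ∈ (ch par r v).erase c,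
        E ζ c * E ζ c' * NN par r (E ζ) (i + 1) c * NN par r (E ζ) j c')]
      apply Finset.sum_eq_zero
      intro c hc
      rw [hsum V ((ch par r v).erase c) (fun c' ζ =>
        E ζ c * E ζ c' * NN par r (E ζ) (i + 1) c * NN par r (E ζ) j c')]
      apply Finset.sum_eq_zero
      intro c' hc'
      rw [Finset.mem_erase] at hc'
      exact hmz1 v c hc c' hc'.2 (Ne.symm hc'.1) i j
    · intro v
      exact hXEx (i + 1) j v
    · rw [Finset.sum_add_distrib]
      have h2 := hAl (i + 1 + 1) (by omega)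
      have h3 := hAl (j + 1) (by omega)
      linarith
    · intro v hv ζ
      refine le_trans (XX_dn par r (E ζ) (hE1 ζ) (hNN ζ) hd0 (i + 1) j v) ?_
      have h2 := hAc v hv (i + 1 + 1) (by omega)
      have h3 := hAc v hv (j + 1) (by omega)
      have h4 := mul_le_mul h2 h3 (hd0 _ _) hM0
      nlinarith
    · intro v ζ ζ' hz
      have hc1 : ∀ c ∈ ch par r v, E ζ c = E ζ' c := by
        intro c hc
        rw [hchm] at hc
        exact hsgl _ _ _ (hz c hc.1 ⟨1, by omega, by simpa using hc.2⟩)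
      have hc2 : ∀ c ∈ ch par r v, ∀ k ≤ J + 2, NN par r (E ζ) k c = NN par r (E ζ') k c := by
        intro c hc k hk
        rw [hchm] at hc
        apply hloc c (J + 2) (E ζ) (E ζ') _ k hk
        intro w hw ht
        obtain ⟨t, ht1, ht2, ht3⟩ := ht
        apply hsgl
        apply hz w hw
        refine ⟨t + 1, by omega, ?_⟩
        rw [Function.iterate_succ_apply', ht3]
        exact hc.2
      simp only [XX]
      apply Finset.sum_congr rfl
      intro c hc
      apply Finset.sum_congr rfl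
      intro c' hc'
      have hc'' := Finset.mem_of_mem_erase hc'
      rw [hc1 c hc, hc1 c' hc'', hc2 c hc (i + 1) (by omega), hc2 c' hc'' j (by omega)]
  have hMMs : ∀ i, i < J → Ex (fun ζ => |MM par r (E ζ) (i + 3)|) ≤ 3 * (e' * n) := by
    intro i hi
    have h1 := key (fun v ζ => NN par r (E ζ) (i + 3) v) (fun v => dn par r (i + 3) v)
      ?_ ?_ ?_ ?_ ?_
    · exact h1
    · intro v
      exact hmz3 v i
    · intro v
      have h2 : Ex (fun ζ => |NN par r (E ζ) (i + 3) v|) ≤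
          Ex fun _ : V → Bool => dn par r (i + 3) v := hmono _ _ fun ζ => hNN ζ (i + 3) v
      rw [hconst] at h2
      exact h2
    · have h2 := hAl (i + 3) (by omega)
      have h3 : 0 ≤ e' * n := mul_nonneg he'0.le hn0
      linarith
    · intro v hv ζ
      exact le_trans (hNN ζ (i + 3) v) (le_trans (hAc v hv (i + 3) (by omega)) hM2)
    · intro v ζ ζ' hz
      apply hloc v (J + 3) (E ζ) (E ζ') _ (i + 3) (by omega)
      intro c hc ht
      obtain ⟨t, ht1, ht2, ht3⟩ := ht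
      exact hsgl _ _ _ (hz c hc ⟨t, ht2, ht3⟩)
  -- uniform bounds
  have hen : 0 ≤ e' * n := mul_nonneg he'0.le hn0
  have hb : ∀ i, Ex (fun ζ => |BB par r (E ζ) (i + 1) 0|) + Ex (fun ζ => |MM par r (E ζ) (i + 3)|) ≤
      6 * (e' * n) + 3 * n * tl J i := by
    intro i
    unfold tl
    split_ifs with h
    · have h1 := hBBs i 0 h (Nat.zero_le _)
      have h2 := hMMs i h
      linarith
    · have h1 := hBB2 (i + 1) 0
      have h2 := hMM1 (i + 3)
      linarith
  have hc : ∀ i j, Ex (fun ζ => |BB par r (E ζ) (i + 1) (j + 1)|) ≤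
      3 * (e' * n) + 2 * n * (tl J i + tl J j) := by
    intro i j
    by_cases hi : i < J
    · by_cases hj : j < J
      · have h1 := hBBs i (j + 1) hi (by omega)
        have h2 := mul_nonneg hn0 (tl_nonneg J i)
        have h3 := mul_nonneg hn0 (tl_nonneg J j)
        nlinarith
      · have h1 := hBB2 (i + 1) (j + 1)
        have h2 := mul_nonneg hn0 (tl_nonneg J i)
        have h3 : tl J j = 1 := by
          unfold tl
          rw [if_neg hj]
        rw [h3]
        nlinarith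
    · have h1 := hBB2 (i + 1) (j + 1)
      have h2 := mul_nonneg hn0 (tl_nonneg J j)
      have h3 : tl J i = 1 := by
        unfold tl
        rw [if_neg hi]
      rw [h3]
      nlinarith
  -- the expectation of `SEC`
  set m : ℕ := Fintype.card V with hm
  have hSEC : Ex (fun ζ => SEC par r (E ζ)) =
      ∑ i ∈ range m, (5 / 7 : ℝ) ^ (i + 1) *
        (Ex (fun ζ => |BB par r (E ζ) (i + 1) 0|) + Ex (fun ζ => |MM par r (E ζ) (i + 3)|)) +
      1 / 2 * ∑ i ∈ range m, ∑ j ∈ range m, (5 / 7 : ℝ) ^ (i + j + 2) *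
        Ex (fun ζ => |BB par r (E ζ) (i + 1) (j + 1)|) := by
    unfold SEC
    rw [hadd (fun ζ => ∑ i ∈ range m, (5 / 7 : ℝ) ^ (i + 1) *
        (|BB par r (E ζ) (i + 1) 0| + |MM par r (E ζ) (i + 3)|))
      (fun ζ => 1 / 2 * ∑ i ∈ range m, ∑ j ∈ range m,
        (5 / 7 : ℝ) ^ (i + j + 2) * |BB par r (E ζ) (i + 1) (j + 1)|),
      hsmul (1 / 2) (fun ζ => ∑ i ∈ range m, ∑ j ∈ range m,
        (5 / 7 : ℝ) ^ (i + j + 2) * |BB par r (E ζ) (i + 1) (j + 1)|),
      hsum ℕ (range m) (fun i ζ => (5 / 7 : ℝ) ^ (i + 1) *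
        (|BB par r (E ζ) (i + 1) 0| + |MM par r (E ζ) (i + 3)|)),
      hsum ℕ (range m) (fun i ζ => ∑ j ∈ range m,
        (5 / 7 : ℝ) ^ (i + j + 2) * |BB par r (E ζ) (i + 1) (j + 1)|)]
    congr 1
    · apply Finset.sum_congr rfl
      intro i _
      rw [hsmul ((5 / 7 : ℝ) ^ (i + 1)) (fun ζ =>
        |BB par r (E ζ) (i + 1) 0| + |MM par r (E ζ) (i + 3)|),
        hadd (fun ζ => |BB par r (E ζ) (i + 1) 0|) (fun ζ => |MM par r (E ζ) (i + 3)|)]
    · congr 1
      apply Finset.sum_congr rfl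
      intro i _
      rw [hsum ℕ (range m) (fun j ζ =>
        (5 / 7 : ℝ) ^ (i + j + 2) * |BB par r (E ζ) (i + 1) (j + 1)|)]
      apply Finset.sum_congr rfl
      intro j _
      rw [hsmul ((5 / 7 : ℝ) ^ (i + j + 2)) (fun ζ => |BB par r (E ζ) (i + 1) (j + 1)|)]
  set w : ℕ → ℝ := fun i => (5 / 7 : ℝ) ^ (i + 1) with hw
  have hw0 : ∀ i, 0 ≤ w i := fun i => by
    rw [hw]
    positivity
  set SW : ℝ := ∑ i ∈ range m, w i with hSW
  set ST : ℝ := ∑ i ∈ range m, w i * tl J i with hST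
  have hSW1 : SW ≤ 5 / 2 := sum_w m
  have hSW0 : 0 ≤ SW := Finset.sum_nonneg fun i _ => hw0 i
  have hST1 : ST ≤ 5 / 2 * (5 / 7 : ℝ) ^ J := sum_we m J
  have hST0 : 0 ≤ ST := Finset.sum_nonneg fun i _ => mul_nonneg (hw0 i) (tl_nonneg J i)
  have hfirst : ∑ i ∈ range m, (5 / 7 : ℝ) ^ (i + 1) *
        (Ex (fun ζ => |BB par r (E ζ) (i + 1) 0|) + Ex (fun ζ => |MM par r (E ζ) (i + 3)|)) ≤
      6 * (e' * n) * SW + 3 * n * ST := by
    have h1 : ∑ i ∈ range m, (5 / 7 : ℝ) ^ (i + 1) *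
        (Ex (fun ζ => |BB par r (E ζ) (i + 1) 0|) + Ex (fun ζ => |MM par r (E ζ) (i + 3)|)) ≤
        ∑ i ∈ range m, w i * (6 * (e' * n) + 3 * n * tl J i) :=
      Finset.sum_le_sum fun i _ => mul_le_mul_of_nonneg_left (hb i) (hw0 i)
    refine le_trans h1 (le_of_eq ?_)
    rw [hSW, hST, Finset.mul_sum, Finset.mul_sum, ← Finset.sum_add_distrib]
    apply Finset.sum_congr rfl
    intro i _
    ring
  have hsecond : ∑ i ∈ range m, ∑ j ∈ range m, (5 / 7 : ℝ) ^ (i + j + 2) *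
        Ex (fun ζ => |BB par r (E ζ) (i + 1) (j + 1)|) ≤
      3 * (e' * n) * (SW * SW) + 4 * n * (ST * SW) := by
    have h1 : ∑ i ∈ range m, ∑ j ∈ range m, (5 / 7 : ℝ) ^ (i + j + 2) *
        Ex (fun ζ => |BB par r (E ζ) (i + 1) (j + 1)|) ≤
        ∑ i ∈ range m, ∑ j ∈ range m,
          (w i * w j) * (3 * (e' * n) + 2 * n * (tl J i + tl J j)) := by
      apply Finset.sum_le_sum
      intro i _
      apply Finset.sum_le_sum
      intro j _
      have h2 : (5 / 7 : ℝ) ^ (i + j + 2) = w i * w j := by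
        rw [hw]
        simp only
        rw [← pow_add]
        congr 1
        ring
      rw [h2]
      exact mul_le_mul_of_nonneg_left (hc i j) (mul_nonneg (hw0 i) (hw0 j))
    refine le_trans h1 (le_of_eq ?_)
    have h2 : ∀ i ∈ range m, ∑ j ∈ range m,
        (w i * w j) * (3 * (e' * n) + 2 * n * (tl J i + tl J j)) =
        (3 * (e' * n) * SW) * w i + (2 * n * SW) * (w i * tl J i) + (2 * n * ST) * w i := by
      intro i _
      have h3 : ∀ j ∈ range m, (w i * w j) * (3 * (e' * n) + 2 * n * (tl J i + tl J j)) =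
          (3 * (e' * n) * w i + 2 * n * (w i * tl J i)) * w j + (2 * n * w i) * (w j * tl J j) := by
        intro j _
        ring
      rw [Finset.sum_congr rfl h3, Finset.sum_add_distrib, ← Finset.mul_sum, ← Finset.mul_sum,
        ← hSW, ← hST]
      ring
    rw [Finset.sum_congr rfl h2, Finset.sum_add_distrib, Finset.sum_add_distrib, ← Finset.mul_sum,
      ← Finset.mul_sum, ← Finset.mul_sum, ← hSW, ← hST]
    ring
  have hfin : Ex (fun ζ => SEC par r (E ζ)) ≤ η * n := by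
    rw [hSEC]
    have hSWSW : SW * SW ≤ 25 / 4 := by nlinarith
    have hSTSW : ST * SW ≤ 5 / 2 * (5 / 7 : ℝ) ^ J * (5 / 2) := mul_le_mul hST1 hSW1 hSW0
      (by positivity)
    have a1 : 6 * (e' * n) * SW ≤ 6 * (e' * n) * (5 / 2) :=
      mul_le_mul_of_nonneg_left hSW1 (by linarith)
    have a2 : 3 * n * ST ≤ 3 * n * (5 / 2 * (η / 40)) := by
      apply mul_le_mul_of_nonneg_left _ (by linarith)
      linarith
    have a3 : 3 * (e' * n) * (SW * SW) ≤ 3 * (e' * n) * (25 / 4) :=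
      mul_le_mul_of_nonneg_left hSWSW (by linarith)
    have a4 : 4 * n * (ST * SW) ≤ 4 * n * (5 / 2 * (η / 40) * (5 / 2)) := by
      apply mul_le_mul_of_nonneg_left _ (by linarith)
      linarith
    have hηn : 0 ≤ η * n := mul_nonneg hη.le hn0
    have a5 : e' * n = 1 / 50 * (η * n) := by
      rw [he']
      ring
    have a6 : 3 * n * (5 / 2 * (η / 40)) = 3 / 16 * (η * n) := by ring
    have a7 : 4 * n * (5 / 2 * (η / 40) * (5 / 2)) = 5 / 8 * (η * n) := by ring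
    rw [a5] at a1 a3
    rw [a6] at a2
    rw [a7] at a4
    rw [a5] at hfirst hsecond
    linarith
  exact hfin

end

end Pool.Agent.TFin
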