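import Pool.Agent.TFin.Defs

set_option autoImplicit false

/-!
# Large trees in tournaments (MP_d27362_co): exact targets

Complete proofs: `Blueprint.lean.txt`.
-/

namespace Pool.Agent.TFin

open Finset
open Pool.Agent.TLT (av Krn Sop dl xx)

noncomputable section

/-! ## Block 0: trees -/

/-- REC: recursion and induction on a rooted tree. -/
def T_REC : Prop := ∀ (V : Type) [Fintype V] [DecidableEq V] (par : V → V) (dep : V → ℕ) (r : V),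
  RT par dep r →
  (∀ v, dep v < Fintype.card V) ∧
  (∀ p : V → Prop, (∀ v, (∀ c ∈ ch par r v, p c) → p v) → ∀ v, p v) ∧
  (∀ p : V → Prop, p r → (∀ v, v ≠ r → p (par v) → p v) → ∀ v, p v) ∧
  (∀ (α : Type) (_ : Nonempty α) (Φ : V → (V → α) → α),
    (∀ v g g', (∀ c ∈ ch par r v, g c = g' c) → Φ v g = Φ v g') →
    ∃ s : V → α, ∀ v, s v = Φ v s) ∧
  (∀ a w : V → ℝ, (∀ v, w v = ∏ c ∈ ch par r v, a c * w c) → w r = ∏ c ∈ univ.erase r, a c) ∧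
  (∀ (Cut : Finset V), r ∉ Cut → ∀ a w : V → ℝ,
    (∀ v, w v = a v + ∑ c ∈ ch par r v \ Cut, w c) → ∑ v ∈ insert r Cut, w v = ∑ v, a v)

/-- SUMT: sums over descendants. -/
def T_SUMT : Prop := ∀ (V : Type) [Fintype V] [DecidableEq V] (par : V → V) (dep : V → ℕ) (r : V),
  RT par dep r →
  (∀ F : V → ℝ, ∑ v, ∑ c ∈ ch par r v, F c = ∑ c ∈ univ.erase r, F c) ∧
  (∀ (F : V → ℝ) (j : ℕ) (v : V),
    Dj par r F (j + 1) v = Dj par r (fun w => ∑ c ∈ ch par r w, F c) j v) ∧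
  (∀ (F : V → ℝ) (i j : ℕ) (v : V), Dj par r (Dj par r F i) j v = Dj par r F (i + j) v) ∧
  (∀ F G : V → ℝ, (∀ v, F v ≤ G v) → ∀ j v, Dj par r F j v ≤ Dj par r G j v) ∧
  (∀ F : V → ℝ, (∀ v, 0 ≤ F v) → ∀ j,
    (∀ v, 0 ≤ Dj par r F j v) ∧ ∑ v, Dj par r F j v ≤ ∑ v, F v) ∧
  (∀ F : V → ℝ, (∀ v, 0 ≤ F v) → ∀ j v,
    Dj par r (fun w => F w ^ 2) j v ≤ Dj par r F j v ^ 2) ∧
  (∀ (F : V → ℝ) (j : ℕ) (v : V), Fintype.card V ≤ dep v + j → Dj par r F j v = 0) ∧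
  (∀ (F : V → ℝ) (v : V),
    hat par r F v = F v + 3 / 4 * ∑ c ∈ ch par r v, hat par r F c) ∧
  (∀ F : V → ℝ, (∀ v, 0 ≤ F v) →
    (∀ v, F v ≤ hat par r F v) ∧ ∑ v, hat par r F v ≤ 4 * ∑ v, F v) ∧
  (∀ (F G : V → ℝ) (a b : ℝ) (v : V), hat par r (fun w => a * F w + b * G w) v =
    a * hat par r F v + b * hat par r G v) ∧
  (∀ F G : V → ℝ, (∀ v, F v ≤ G v) → ∀ v, hat par r F v ≤ hat par r G v)

/-- USM (from T_SUMT): small sets have few descendants. -/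
def T_USM : Prop := ∀ (κ : ℕ → ℕ) (l : ℕ) (η : ℝ), 0 < η → ∃ θ : ℝ, 0 < θ ∧
  ∀ (V : Type) [Fintype V] [DecidableEq V] (par : V → V) (dep : V → ℕ) (r : V),
  RT par dep r → Tame κ par r → ∀ A : Finset V, (A.card : ℝ) ≤ θ * Fintype.card V →
  ∑ v ∈ A, dn par r l v ≤ η * Fintype.card V

/-- UID (from T_SUMT, T_USM): uniform integrability of the numbers of descendants. -/
def T_UID : Prop := ∀ (κ : ℕ → ℕ) (J : ℕ) (η : ℝ), 0 < η → ∃ M : ℕ,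
  ∀ (V : Type) [Fintype V] [DecidableEq V] (par : V → V) (dep : V → ℕ) (r : V),
  RT par dep r → Tame κ par r → ∀ A : Finset V, (∀ v ∈ A, ∃ i ≤ J, (M : ℝ) < dn par r i v) →
  ∑ v ∈ A, ∑ l ∈ range (J + 1), dn par r l v ≤ η * Fintype.card V

/-! ## Block 1: analysis -/

/-- BAN: norms and the operator `S`. -/
def T_BAN : Prop := ∀ (W : Type) [Fintype W] [Nonempty W],
  (∀ f g : W → ℝ, n2 (fun y => f y + g y) ≤ n2 f + n2 g) ∧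
  (∀ f g : W → ℝ, n2 (fun y => f y - g y) ≤ n2 f + n2 g) ∧
  (∀ (c : ℝ) (f : W → ℝ), n2 (fun y => c * f y) = |c| * n2 f) ∧
  (∀ (I : Type) (s : Finset I) (f : I → W → ℝ),
    n2 (fun y => ∑ i ∈ s, f i y) ≤ ∑ i ∈ s, n2 (f i)) ∧
  (∀ f : W → ℝ, 0 ≤ n2 f ∧ n2 f ^ 2 = av fun y => f y ^ 2) ∧
  (∀ f g : W → ℝ, n1 (fun y => f y + g y) ≤ n1 f + n1 g) ∧
  (∀ f g : W → ℝ, n1 (fun y => f y - g y) ≤ n1 f + n1 g) ∧
  (∀ (c : ℝ) (f : W → ℝ), n1 (fun y => c * f y) = |c| * n1 f) ∧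
  (∀ (I : Type) (s : Finset I) (f : I → W → ℝ),
    n1 (fun y => ∑ i ∈ s, f i y) ≤ ∑ i ∈ s, n1 (f i)) ∧
  (∀ f : W → ℝ, 0 ≤ n1 f ∧ n1 f ≤ n2 f ∧ |av f| ≤ n1 f) ∧
  (∀ f g : W → ℝ, (∀ y, |f y| ≤ g y) → n1 f ≤ av g) ∧
  (∀ (f : W → ℝ) (M : ℝ), (∀ y, |f y| ≤ M) → n2 f ≤ M ∧ n1 f ≤ M) ∧
  (∀ f g : W → ℝ, n1 (fun y => f y * g y) ≤ n2 f * n2 g ∧
    |av fun y => f y * g y| ≤ n2 f * n2 g) ∧
  ∀ K : W → W → ℝ, Krn K →
    (∀ (f : W → ℝ) (y : W), |Sop K f y| ≤ n1 f) ∧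
    (∀ f : W → ℝ, n2 (Sop K f) ≤ 5 / 7 * n2 f ∧ n2 (Sop K f) ≤ n1 f) ∧
    (∀ f : W → ℝ, av (Sop K f) = - av fun y => dl K y * f y) ∧
    (∀ f g : W → ℝ, (av fun y => Sop K f y * g y) = - av fun y => f y * Sop K g y) ∧
    (∀ f g : W → ℝ, (∀ y, f y ≤ g y) → ∀ e : ℝ, (e = 1 ∨ e = -1) → ∀ y,
      av f + e * Sop K f y ≤ av g + e * Sop K g y) ∧
    (∀ f : W → ℝ, (∀ y, 0 ≤ f y) → ∀ e : ℝ, (e = 1 ∨ e = -1) → ∀ y,
      0 ≤ av f + e * Sop K f y ∧ av f + e * Sop K f y ≤ 2 * av f) ∧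
    (∀ y, |dl K y| ≤ 1) ∧ av (dl K) = 0 ∧ n2 (dl K) = del K ∧ 0 ≤ del K ∧ del K ^ 2 = xx K ∧
    0 ≤ xx K ∧ xx K ≤ 1 ∧
    (∀ j : ℕ, n2 ((Sop K)^[j] (dl K)) ≤ (5 / 7 : ℝ) ^ j * del K) ∧
    (∀ (j : ℕ) (y : W), |((Sop K)^[j + 1] (dl K)) y| ≤ (5 / 7 : ℝ) ^ j * del K)

/-- LN (from T_REC, T_SUMT, T_BAN): the linear field. -/
def T_LN : Prop := ∀ (V : Type) [Fintype V] [DecidableEq V] (par : V → V) (dep : V → ℕ) (r : V),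
  RT par dep r → ∀ ε : V → ℝ, (∀ c, ε c = 1 ∨ ε c = -1) →
  (∀ v, 0 ≤ PP par r ε v ∧ (1 + PP par r ε v) ^ 2 ≤ 11 * qq par r ε v) ∧
  (∀ v, (1 + PP par r ε v) ^ 2 + ∑ c ∈ ch par r v, (1 + PP par r ε c) ^ 2 ≤ RR par r ε v) ∧
  (∀ v, (1 : ℝ) + (ch par r v).card ≤ RR par r ε v) ∧
  (∀ j v, Fintype.card V ≤ dep v + j → NN par r ε j v = 0) ∧
  (∀ j v, |NN par r ε j v| ≤ dn par r j v) ∧
  (∀ (W : Type) [Fintype W] [Nonempty W] (K : W → W → ℝ), Krn K → ∀ v,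
    (∀ y, LL par r ε K v y =
      ∑ c ∈ ch par r v, ε c * (dl K y + Sop K (LL par r ε K c) y)) ∧
    (∀ y, Sop K (LL par r ε K v) y =
      ∑ j ∈ range (Fintype.card V), NN par r ε (j + 1) v * ((Sop K)^[j + 1] (dl K)) y) ∧
    n2 (LL par r ε K v) ≤ del K * PP par r ε v ∧
    n2 (fun y => ∑ c ∈ ch par r v, ε c * Sop K (LL par r ε K c) y) ≤ del K * PP par r ε v ∧
    (∀ y, |∑ c ∈ ch par r v, ε c * Sop K (LL par r ε K c) y| ≤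
      7 / 5 * (del K * PP par r ε v)))

/-- PL: products over pairs. -/
def T_PL : Prop := ∀ (V : Type) [DecidableEq V] (U : Finset V) (π : V → V) (ε φ : V → ℝ)
  (A Q D : ℝ), (∀ c ∈ U, π c ∈ U) → (∀ c ∈ U, π (π c) = c) → (∀ c ∈ U, ε c = 1 ∨ ε c = -1) →
  (∀ c ∈ U, π c ≠ c → ε (π c) = - ε c) →
  (∀ c ∈ U, ∀ c' ∈ U, π c = c → π c' = c' → c = c') → (∀ c ∈ U, |φ c| ≤ 1) →
  A = ∑ c ∈ U.filter (fun c => π c ≠ c), ε c * φ c → Q = ∑ c ∈ U, φ c ^ 2 →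
  D = ∑ c ∈ U, (φ c - φ (π c)) ^ 2 / 2 →
  ∏ c ∈ U, (1 + ε c * φ c) ≤ 2 * Real.exp (A + D / 4) ∧
  (A + D / 4 ≤ 1 →
    |∏ c ∈ U, (1 + ε c * φ c) - 1 - ∑ c ∈ U, ε c * φ c| ≤ 11 * (A ^ 2 + Q))

/-- One vertex: `C` is the set of its children, `U ⊆ C` the set of those which are kept. -/
structure OneV {V W : Type} [DecidableEq V] [Fintype W] (K : W → W → ℝ) (C U : Finset V)
    (π : V → V) (ε : V → ℝ) (f L : V → W → ℝ) (P : V → ℝ) (Pv R : ℝ) (Lv : W → ℝ) : Prop where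
  UC : U ⊆ C
  pU : ∀ c ∈ U, π c ∈ U
  pC : ∀ c ∈ C, π c ∈ C
  inv : ∀ c ∈ C, π (π c) = c
  e1 : ∀ c ∈ C, ε c = 1 ∨ ε c = -1
  e2 : ∀ c ∈ C, π c ≠ c → ε (π c) = - ε c
  one : ∀ c ∈ C, ∀ c' ∈ C, π c = c → π c' = c' → c = c'
  f0 : ∀ c ∈ U, ∀ y, 0 ≤ f c y
  f1 : ∀ c ∈ U, av (f c) = 1
  P0 : ∀ c ∈ C, 0 ≤ P c
  Pv0 : 0 ≤ Pv
  L2 : ∀ c ∈ C, n2 (L c) ≤ del K * P c
  Lv : ∀ y, Lv y = ∑ c ∈ C, ε c * (dl K y + Sop K (L c) y)
  G2 : n2 (fun y => ∑ c ∈ C, ε c * Sop K (L c) y) ≤ del K * Pv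
  G1 : ∀ y, |∑ c ∈ C, ε c * Sop K (L c) y| ≤ 7 / 5 * (del K * Pv)
  hR : (1 + Pv) ^ 2 + ∑ c ∈ C, (1 + P c) ^ 2 ≤ R

/-- `x_c` -/
def ex {V W : Type} [Fintype W] (f L : V → W → ℝ) (c : V) : ℝ := n1 fun z => f c z - 1 - L c z

/-- `y_c` -/
def ey {V W : Type} [Fintype W] (K : W → W → ℝ) (f L : V → W → ℝ) (c : V) : ℝ :=
  n2 (Sop K fun z => f c z - 1 - L c z)

/-- the contribution of the removed children -/
def kp {V W : Type} [DecidableEq V] [Fintype W] (K : W → W → ℝ) (C U : Finset V) (P : V → ℝ) : ℝ :=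
  del K * ∑ c ∈ C \ U, (1 + P c)

/-- `X_v` -/
def XV {V W : Type} [DecidableEq V] [Fintype W] (K : W → W → ℝ) (C U : Finset V)
    (f L : V → W → ℝ) (P : V → ℝ) (R : ℝ) : ℝ :=
  xx K * R + ∑ c ∈ U, ex f L c + kp K C U P

/-- `h_v` -/
def hU {V W : Type} [Fintype W] (K : W → W → ℝ) (U : Finset V) (ε : V → ℝ) (f : V → W → ℝ)
    (y : W) : ℝ := ∏ c ∈ U, (1 + ε c * Sop K (f c) y)

/-- CVA (from T_BAN, T_PL): the product at a vertex. -/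
def T_CVA : Prop := ∀ (V W : Type) [DecidableEq V] [Fintype W] [Nonempty W] (K : W → W → ℝ)
  (C U : Finset V) (π : V → V) (ε : V → ℝ) (f L : V → W → ℝ) (P : V → ℝ) (Pv R : ℝ)
  (Lv : W → ℝ), Krn K → OneV K C U π ε f L P Pv R Lv →
  (∀ y, 0 ≤ hU K U ε f y) ∧
  (∀ c ∈ U, 0 ≤ ey K f L c ∧ ey K f L c ≤ ex f L c) ∧
  ((∀ c ∈ U, ex f L c ≤ 1) → av (hU K U ε f) ≤ Real.exp (2 + 2 * XV K C U f L P R)) ∧
  (XV K C U f L P R ≤ 1 / 1000000 →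
    n1 (fun y => hU K U ε f y - 1 - ∑ c ∈ U, ε c * Sop K (f c) y) ≤
      45 * (xx K * R) + 1 / 1000 * kp K C U P + 1 / 1000 * ∑ c ∈ U, ey K f L c ∧
    n2 (fun y => ∑ c ∈ U, ε c * Sop K (f c) y) ≤ 7 / 2000)

/-- CVB (from T_BAN, T_CVA): the density at a vertex. -/
def T_CVB : Prop := ∀ (V W : Type) [DecidableEq V] [Fintype W] [Nonempty W] (K : W → W → ℝ)
  (C U : Finset V) (π : V → V) (ε : V → ℝ) (f L : V → W → ℝ) (P : V → ℝ) (Pv R : ℝ)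
  (Lv : W → ℝ), Krn K → OneV K C U π ε f L P Pv R Lv → XV K C U f L P R ≤ 1 / 1000000 →
  |av (hU K U ε f) - 1| ≤ 46 * XV K C U f L P R ∧
  n1 (fun y => hU K U ε f y / av (hU K U ε f) - 1 - Lv y) ≤
    91 * (xx K * R) + 2 * kp K C U P + 3 * ∑ c ∈ U, ey K f L c ∧
  n2 (Sop K fun y => hU K U ε f y / av (hU K U ε f) - 1 - Lv y) ≤
    46 * (xx K * R) + kp K C U P + 3 / 4 * ∑ c ∈ U, ey K f L c

/-- EXP: third order expansion of a product. -/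
def T_EXP : Prop := ∀ (V : Type) [DecidableEq V] (U : Finset V) (k : ℕ) (ε e : V → ℝ) (b θ : ℝ),
  U.card ≤ k → (∀ c ∈ U, ε c = 1 ∨ ε c = -1) → |b| ≤ 1 → 0 ≤ θ → θ ≤ 1 →
  (∀ c ∈ U, |e c| ≤ θ) →
  |∏ c ∈ U, (1 + ε c * b + e c) - ∏ c ∈ U, (1 + ε c * b) - ∑ c ∈ U, e c -
      ∑ c ∈ U, ∑ c' ∈ U.erase c, e c * (ε c' * b) -
      1 / 2 * ∑ c ∈ U, ∑ c' ∈ U.erase c, e c * e c'| ≤
    3 ^ k * θ * (b ^ 2 + ∑ c ∈ U, e c ^ 2) ∧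
  |b * (∏ c ∈ U, (1 + ε c * b + e c) - ∏ c ∈ U, (1 + ε c * b) - ∑ c ∈ U, e c)| ≤
    3 ^ k * θ * (b ^ 2 + ∑ c ∈ U, e c ^ 2) ∧
  |b * (∏ c ∈ U, (1 + ε c * b + e c) - 1)| ≤ 3 ^ k * (b ^ 2 + ∑ c ∈ U, e c ^ 2) ∧
  |∏ c ∈ U, (1 + ε c * b) - 1 - (∑ c ∈ U, ε c) * b| ≤ 2 ^ k * b ^ 2

/-- FV (from T_BAN, T_CVA, T_CVB, T_EXP): third order expansion at a light vertex. -/
def T_FV : Prop := ∀ (V W : Type) [DecidableEq V] [Fintype W] [Nonempty W] (K : W → W → ℝ)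
  (C U : Finset V) (π : V → V) (ε : V → ℝ) (f L : V → W → ℝ) (P : V → ℝ) (Pv R : ℝ)
  (Lv : W → ℝ), Krn K → OneV K C U π ε f L P Pv R Lv → ∀ (τ e : ℝ) (k : ℕ), 0 < τ →
  τ ≤ 1 / 1000000 → XV K C U f L P R ≤ τ → (e = 0 ∨ e = 1 ∨ e = -1) → 1 ≤ k → C.card ≤ k →
  R ≤ k → xx K * k ≤ τ ^ 2 →
  |av (hU K U ε f) - 1 - ∑ c ∈ U, ε c * av (Sop K (f c)) -
      e * (av fun y => dl K y * (hU K U ε f y / av (hU K U ε f))) - Th K C ε e L| ≤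
    3 ^ k * (104 * τ) * (xx K * R + ∑ c ∈ U, ey K f L c) +
      3 ^ k * 10 * (xx K * (C \ U).card)

/-- THB (from T_BAN, T_EXP): the main term is bounded without any constant depending on the
degree. -/
def T_THB : Prop := ∀ (V W : Type) [DecidableEq V] [Fintype W] [Nonempty W] (K : W → W → ℝ)
  (C U : Finset V) (π : V → V) (ε : V → ℝ) (f L : V → W → ℝ) (P : V → ℝ) (Pv R : ℝ)
  (Lv : W → ℝ), Krn K → OneV K C U π ε f L P Pv R Lv → ∀ e : ℝ, (e = 0 ∨ e = 1 ∨ e = -1) →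
  |Th K C ε e L| ≤ 4 * (xx K * R)

/-! ## Block 2: nearly regular kernels, the deterministic part -/

/-- RUN1 (from T_REC): the adaptive recursion exists. -/
def T_RUN1 : Prop := ∀ (V : Type) [Fintype V] [DecidableEq V] (par : V → V) (dep : V → ℕ) (r : V),
  RT par dep r → ∀ π, Pairing par r π → ∀ (ε : V → ℝ) (W : Type) [Fintype W] [Nonempty W]
  (K : W → W → ℝ) (τ : ℝ), ∃ (f h : V → W → ℝ) (X : V → ℝ) (Cut : Finset V),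
    Run par r π ε K τ f h X Cut

/-- RUN2 (from T_REC, T_BAN): the product bound. -/
def T_RUN2 : Prop := ∀ (V : Type) [Fintype V] [DecidableEq V] (par : V → V) (dep : V → ℕ) (r : V),
  RT par dep r → ∀ π (ε : V → ℝ), (∀ c, ε c = 1 ∨ ε c = -1) →
  ∀ (W : Type) [Fintype W] [Nonempty W] (K : W → W → ℝ), Krn K → ∀ (τ : ℝ) (f h : V → W → ℝ)
  (X : V → ℝ) (Cut : Finset V), Run par r π ε K τ f h X Cut → (∀ v y, 0 ≤ h v y) →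
  (∀ v, v ≠ r → v ∉ Cut → 0 < av (h v)) → ∀ F, IsVal par r ∅ ε K F →
  av (F r) ≤ 2 ^ Cut.card * ∏ v, av (h v)

/-- XH (from T_REC, T_SUMT, T_BAN, T_LN, T_CVA, T_CVB): control of the adaptive recursion. -/
def T_XH : Prop := ∀ (V : Type) [Fintype V] [DecidableEq V] (par : V → V) (dep : V → ℕ) (r : V),
  RT par dep r → ∀ π, Pairing par r π → ∀ ε, Sgn π ε →
  ∀ (W : Type) [Fintype W] [Nonempty W] (K : W → W → ℝ), Krn K → ∀ τ : ℝ, 0 < τ →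
  τ ≤ 1 / 1000000 → ∀ (f h : V → W → ℝ) (X : V → ℝ) (Cut : Finset V),
  Run par r π ε K τ f h X Cut → ∀ H : V → ℝ,
  (∀ v, H v = hat par r (fun w => xx K * RR par r ε w + kap par r ε K Cut w) v) → ∀ v,
  OneV K (ch par r v) (ch par r v \ Cut) π ε f (LL par r ε K) (PP par r ε) (PP par r ε v)
    (RR par r ε v) (LL par r ε K v) ∧
  X v = XV K (ch par r v) (ch par r v \ Cut) f (LL par r ε K) (PP par r ε) (RR par r ε v) ∧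
  (∀ y, 0 ≤ h v y) ∧ 0 ≤ X v ∧ X v ≤ 250 * H v ∧ av (h v) ≤ Real.exp (2 + 2 * X v) ∧
  (X v ≤ τ → |av (h v) - 1| ≤ 46 * X v ∧ (∀ y, 0 ≤ f v y) ∧ av (f v) = 1 ∧
    ex f (LL par r ε K) v ≤ 184 * H v ∧ ex f (LL par r ε K) v ≤ 91 * X v ∧
    0 ≤ ey K f (LL par r ε K) v ∧ ey K f (LL par r ε K) v ≤ 46 * H v)

/-- MB (from T_SUMT, T_REC): the bad vertices are rare. -/
def T_MB : Prop := ∀ (V : Type) [Fintype V] [DecidableEq V] (par : V → V) (dep : V → ℕ) (r : V),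
  RT par dep r → ∀ π, Pairing par r π → ∀ (R P X : V → ℝ) (Cut : Finset V) (δ τ Kb Mb Y : ℝ),
  (∀ v, 0 ≤ P v) → (∀ v, (1 + P v) ^ 2 ≤ R v) → 0 ≤ δ → 0 < τ → τ ≤ 1 / 1000000 → 1 ≤ Kb →
  δ ^ 2 * Kb ≤ τ ^ 2 / 10 ^ 8 →
  (∀ v, v ∈ Cut ↔ v ≠ r ∧ (τ < X v ∨ τ < X (π v))) → (∀ v, 0 ≤ X v) →
  (∀ v, X v ≤ 250 * (δ ^ 2 * hat par r R v +
    hat par r (fun v => δ * ∑ c ∈ ch par r v ∩ Cut, (1 + P c)) v)) →
  Mb = ∑ v ∈ univ.filter (fun v => τ < X v), X v →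
  Y = ∑ v ∈ univ.filter (fun v => Kb < hat par r R v), hat par r R v →
  Mb ≤ 2 * 10 ^ 7 / τ * (δ ^ 2 * Y) ∧
  ∑ v, hat par r (fun v => δ * ∑ c ∈ ch par r v ∩ Cut, (1 + P c)) v ≤
    10 ^ 5 / τ * (δ ^ 2 * Y) ∧
  (Cut.card : ℝ) ≤ 2 / τ * Mb

/-- SUMB (from T_REC, T_SUMT, T_BAN, T_LN, T_FV, T_THB, T_RUN1, T_RUN2, T_XH, T_MB): summation. -/
def T_SUMB : Prop := ∀ (V : Type) [Fintype V] [DecidableEq V] (par : V → V) (dep : V → ℕ) (r : V),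
  RT par dep r → ∀ π, Pairing par r π → ∀ ε, Sgn π ε →
  ∀ (W : Type) [Fintype W] [Nonempty W] (K : W → W → ℝ), Krn K → ∀ (τ : ℝ) (k Kb : ℕ), 0 < τ →
  τ ≤ 1 / 1000000 → 1 ≤ k → k ≤ Kb → xx K * Kb ≤ τ ^ 2 / 10 ^ 8 → ∀ F, IsVal par r ∅ ε K F →
  av (F r) ≤ Real.exp (∑ v, Th K (ch par r v) ε (ev r ε v) (LL par r ε K) +
    xx K * (3 ^ k * 20000 * τ * ∑ v, RR par r ε v + 12000 * Ups par r ε k +
      3 ^ k * (10 ^ 10 / τ ^ 2) * Ups par r ε Kb))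

/-- THS (from T_SUMT, T_BAN, T_LN): the second order part of the main terms. -/
def T_THS : Prop := ∀ (V : Type) [Fintype V] [DecidableEq V] (par : V → V) (dep : V → ℕ) (r : V),
  RT par dep r → ∀ ε : V → ℝ, (∀ c, ε c = 1 ∨ ε c = -1) →
  ∀ (W : Type) [Fintype W] [Nonempty W] (K : W → W → ℝ), Krn K →
  ∑ v, (Th K (ch par r v) ε (ev r ε v) (LL par r ε K) -
    (av (fun y => (∏ c ∈ ch par r v, (1 + ε c * dl K y)) * (1 - ev r ε v * dl K y)) - 1)) ≤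
    xx K * SEC par r ε

/-- TH1 (from T_BAN): the pure part of the main terms. -/
def T_TH1 : Prop := ∀ (V : Type) [Fintype V] [DecidableEq V] (par : V → V) (dep : V → ℕ) (r : V),
  RT par dep r → ∀ π, Pairing par r π → ∀ ε, Sgn π ε → ∀ A : Finset V,
  (∀ u ∈ A, u ≠ r ∧ (ch par r u).card = 1 ∧ ∀ c ∈ ch par r u, ε c = ε u) →
  ∀ (W : Type) [Fintype W] [Nonempty W] (K : W → W → ℝ), Krn K → ∀ k : ℕ, 1 ≤ k →
  ∑ v, (av (fun y => (∏ c ∈ ch par r v, (1 + ε c * dl K y)) * (1 - ev r ε v * dl K y)) - 1) ≤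
    xx K * (PUR par r π A ε k +
      4 * ∑ v ∈ univ.filter (fun v => k < (ch par r v).card), ((ch par r v).card : ℝ) -
      ((univ.filter fun v => 2 ≤ (ch par r v).card).card + A.card : ℝ))

/-- PB (from T_SUMB, T_THS, T_TH1, T_BAN): nearly regular kernels. -/
def T_PB : Prop := ∀ (V : Type) [Fintype V] [DecidableEq V] (par : V → V) (dep : V → ℕ) (r : V),
  RT par dep r → ∀ π, Pairing par r π → ∀ ε, Sgn π ε → ∀ A : Finset V,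
  (∀ u ∈ A, u ≠ r ∧ (ch par r u).card = 1 ∧ ∀ c ∈ ch par r u, ε c = ε u) →
  ∀ (τ cs : ℝ) (k Kb : ℕ), 0 < τ → τ ≤ 1 / 1000000 → 1 ≤ k → k ≤ Kb → 0 < cs →
  cs * Fintype.card V ≤ (univ.filter fun v => 2 ≤ (ch par r v).card).card + A.card →
  3 ^ k * 20000 * τ * ∑ v, RR par r ε v ≤ cs / 8 * Fintype.card V →
  12000 * Ups par r ε k ≤ cs / 8 * Fintype.card V →
  3 ^ k * (10 ^ 10 / τ ^ 2) * Ups par r ε Kb ≤ cs / 8 * Fintype.card V →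
  SEC par r ε ≤ cs / 8 * Fintype.card V →
  PUR par r π A ε k ≤ cs / 8 * Fintype.card V →
  4 * ∑ v ∈ univ.filter (fun v => k < (ch par r v).card), ((ch par r v).card : ℝ) ≤
    cs / 8 * Fintype.card V →
  ∀ (W : Type) [Fintype W] [Nonempty W] (K : W → W → ℝ), Krn K → xx K * Kb ≤ τ ^ 2 / 10 ^ 8 →
  ∀ F, IsVal par r ∅ ε K F → av (F r) ≤ 1

/-! ## Block 3: random signs -/

/-- CUBE: expectations over bits. -/
def T_CUBE : Prop := ∀ (V : Type) [Fintype V] [DecidableEq V],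
  (∀ (a b : ℝ) (F G : (V → Bool) → ℝ), Ex (fun ζ => a * F ζ + b * G ζ) = a * Ex F + b * Ex G) ∧
  (∀ (I : Type) (s : Finset I) (F : I → (V → Bool) → ℝ),
    Ex (fun ζ => ∑ i ∈ s, F i ζ) = ∑ i ∈ s, Ex (F i)) ∧
  (∀ F G : (V → Bool) → ℝ, (∀ ζ, F ζ ≤ G ζ) → Ex F ≤ Ex G) ∧
  (∀ a : ℝ, Ex (fun _ : V → Bool => a) = a) ∧
  (∀ F : (V → Bool) → ℝ, |Ex F| ≤ Ex fun ζ => |F ζ|) ∧
  (∀ F : (V → Bool) → ℝ, Ex F < 1 → ∃ ζ, F ζ < 1) ∧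
  (∀ (D : Finset V) (F : (V → Bool) → ℝ), Ex (fun ζ => F (flipS D ζ)) = Ex F) ∧
  (∀ (D : Finset V) (F : (V → Bool) → ℝ), (∀ ζ, F (flipS D ζ) = - F ζ) → Ex F = 0) ∧
  (∀ (W : Type) [Fintype W] (F : (V → Bool) → W → ℝ),
    Ex (fun ζ => av (F ζ)) = av fun y => Ex fun ζ => F ζ y) ∧
  (∀ (I : Type) [DecidableEq I] (s : Finset I) (D : I → Finset V)
    (F : I → (V → Bool) → ℝ),
    (∀ i ∈ s, ∀ ζ ζ', (∀ l ∈ D i, ζ l = ζ' l) → F i ζ = F i ζ') →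
    (∀ i ∈ s, ∀ j ∈ s, i ≠ j → Disjoint (D i) (D j)) →
    Ex (fun ζ => ∏ i ∈ s, F i ζ) = ∏ i ∈ s, Ex (F i))

/-- ES (from T_CUBE): the Efron-Stein inequality. -/
def T_ES : Prop := ∀ (V : Type) [Fintype V] [DecidableEq V] (F : (V → Bool) → ℝ) (C : ℝ), 0 ≤ C →
  (∀ ζ l, |F (flipS {l} ζ) - F ζ| ≤ C) →
  Ex (fun ζ => |F ζ - Ex F|) ≤ C * Real.sqrt (Fintype.card V)

/-- LOC (from T_ES, T_CUBE): sums of local functions concentrate. -/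
def T_LOC : Prop := ∀ (V : Type) [Fintype V] [DecidableEq V] (par : V → V) (dep : V → ℕ) (r : V)
  (π lab : V → V) (sn : V → ℝ) (B : Finset V), RT par dep r → Lay par dep r π lab sn B →
  ∀ (X : V → (V → Bool) → ℝ) (J : ℕ) (M : ℝ) (A : Finset V), 0 ≤ M →
  (∀ v ∈ A, ∀ ζ, |X v ζ| ≤ M) →
  (∀ v ∈ A, ∀ ζ ζ', (∀ c, c ≠ r → (∃ t ≤ J, par^[t] c = v) → ζ (lab c) = ζ' (lab c)) →
    X v ζ = X v ζ') →
  Ex (fun ζ => |∑ v ∈ A, X v ζ - ∑ v ∈ A, Ex (X v)|) ≤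
    4 * (J + 1) * M * Real.sqrt (Fintype.card V)

/-- LAYX (from T_REC, T_SUMT): the layout exists and has many pairs or cherries. -/
def T_LAYX : Prop := ∀ (V : Type) [Fintype V] [DecidableEq V] (par : V → V) (dep : V → ℕ) (r : V)
  (κ : ℕ → ℕ), RT par dep r → Tame κ par r → 12 ≤ Fintype.card V →
  ∃ (π lab : V → V) (sn : V → ℝ) (B : Finset V), Lay par dep r π lab sn B ∧
    Fintype.card V ≤ 16 * (κ 16 + 1) *
      ((univ.filter fun v => 2 ≤ (ch par r v).card).card + B.card)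

/-- LAYF: elementary facts on layouts. -/
def T_LAYF : Prop := ∀ (V : Type) [Fintype V] [DecidableEq V] (par : V → V) (dep : V → ℕ) (r : V)
  (π lab : V → V) (sn : V → ℝ) (B : Finset V), RT par dep r → Lay par dep r π lab sn B →
  (∀ ζ, Sgn π (sg lab sn ζ)) ∧
  (∀ ζ (D : Finset V) c, sg lab sn (flipS D ζ) c =
    if lab c ∈ D then - sg lab sn ζ c else sg lab sn ζ c) ∧
  (B.image par).card = B.card ∧ (B.image fun w => par (par w)).card = B.card ∧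
  (∀ ζ, ∀ u ∈ B.image par, u ≠ r ∧ (ch par r u).card = 1 ∧
    ∀ c ∈ ch par r u, sg lab sn ζ c = sg lab sn ζ u) ∧
  (∀ w ∈ B, π w = w ∧ π (par w) = par w ∧ π (par (par w)) = par (par w)) ∧
  (∀ w ∈ B, par w ∉ B ∧ par (par w) ∉ B)

/-- FLN: dependence of the signed numbers of descendants on the signs. -/
def T_FLN : Prop := ∀ (V : Type) [Fintype V] [DecidableEq V] (par : V → V) (dep : V → ℕ) (r : V),
  RT par dep r →
  (∀ v w, Relation.TransGen (fun a b => b ∈ ch par r a) v w → w ≠ r ∧ dep v < dep w ∧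
    ∃ t, par^[t + 1] w = v) ∧
  (∀ v c c' w, c ∈ ch par r v → c' ∈ ch par r v → c ≠ c' →
    Relation.ReflTransGen (fun a b => b ∈ ch par r a) c w →
    ¬ Relation.ReflTransGen (fun a b => b ∈ ch par r a) c' w) ∧
  (∀ (v : V) (ε ε' : V → ℝ), (∀ w, Relation.TransGen (fun a b => b ∈ ch par r a) v w →
    ε w = ε' w) → ∀ j, NN par r ε j v = NN par r ε' j v) ∧
  (∀ (v : V) (ε ε' : V → ℝ), (∀ w ∈ ch par r v, ε' w = - ε w) →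
    (∀ w, Relation.TransGen (fun a b => b ∈ ch par r a) v w → w ∉ ch par r v → ε' w = ε w) →
    ∀ j, NN par r ε' (j + 1) v = - NN par r ε (j + 1) v) ∧
  (∀ (v : V) (J : ℕ) (ε ε' : V → ℝ),
    (∀ c, c ≠ r → (∃ t, 1 ≤ t ∧ t ≤ J ∧ par^[t] c = v) → ε c = ε' c) →
    ∀ j ≤ J, NN par r ε j v = NN par r ε' j v)

/-- MZ (from T_CUBE, T_LAYF, T_FLN): expectations that vanish. -/
def T_MZ : Prop := ∀ (V : Type) [Fintype V] [DecidableEq V] (par : V → V) (dep : V → ℕ) (r : V)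
  (π lab : V → V) (sn : V → ℝ) (B : Finset V), RT par dep r → Lay par dep r π lab sn B →
  (∀ v, ∀ c ∈ ch par r v, ∀ c' ∈ ch par r v, c ≠ c' → ∀ i j,
    Ex (fun ζ => sg lab sn ζ c * sg lab sn ζ c' * NN par r (sg lab sn ζ) (i + 1) c *
      NN par r (sg lab sn ζ) j c') = 0) ∧
  (∀ v, ∀ c ∈ ch par r v, ∀ c' ∈ ch par r v, c ≠ c' →
    Ex (fun ζ => sg lab sn ζ c * sg lab sn ζ c') ≤ 0) ∧
  (∀ v m, Ex (fun ζ => NN par r (sg lab sn ζ) (m + 3) v) = 0) ∧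
  (∀ v, Ex (fun ζ => s0 par r π (sg lab sn ζ) v - ev r (sg lab sn ζ) v) = 0) ∧
  (∀ v, Ex (fun ζ => s0 par r π (sg lab sn ζ) v * ev r (sg lab sn ζ) v -
    if v ∈ B.image par then 1 else 0) = 0)

/-- MOM (from T_CUBE, T_SUMT, T_MZ): second moments. -/
def T_MOM : Prop := ∀ (V : Type) [Fintype V] [DecidableEq V] (par : V → V) (dep : V → ℕ) (r : V)
  (π lab : V → V) (sn : V → ℝ) (B : Finset V), RT par dep r → Lay par dep r π lab sn B →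
  (∀ j v, Ex (fun ζ => NN par r (sg lab sn ζ) j v ^ 2) ≤ dn par r j v) ∧
  Ex (fun ζ => ∑ v, RR par r (sg lab sn ζ) v) ≤ 59 * Fintype.card V

/-- UIR (from T_CUBE, T_SUMT, T_UID, T_LN, T_MOM): uniform integrability. -/
def T_UIR : Prop := ∀ (κ : ℕ → ℕ) (η : ℝ), 0 < η → ∃ k₀ : ℕ, ∀ k : ℕ, k₀ ≤ k →
  ∀ (V : Type) [Fintype V] [DecidableEq V] (par : V → V) (dep : V → ℕ) (r : V)
  (π lab : V → V) (sn : V → ℝ) (B : Finset V), RT par dep r → Tame κ par r →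
  Lay par dep r π lab sn B →
  Ex (fun ζ => Ups par r (sg lab sn ζ) k) ≤ η * Fintype.card V

/-- SECR (from T_CUBE, T_SUMT, T_UID, T_LOC, T_LN, T_FLN, T_MZ, T_MOM): second order sums are
small. -/
def T_SECR : Prop := ∀ (κ : ℕ → ℕ) (η : ℝ), 0 < η → ∃ N : ℕ,
  ∀ (V : Type) [Fintype V] [DecidableEq V] (par : V → V) (dep : V → ℕ) (r : V)
  (π lab : V → V) (sn : V → ℝ) (B : Finset V), RT par dep r → Tame κ par r →
  Lay par dep r π lab sn B → N ≤ Fintype.card V →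
  Ex (fun ζ => SEC par r (sg lab sn ζ)) ≤ η * Fintype.card V

/-- PURR (from T_CUBE, T_LOC, T_LAYF, T_MZ): first order sums are small. -/
def T_PURR : Prop := ∀ (k : ℕ) (η : ℝ), 0 < η → ∃ N : ℕ,
  ∀ (V : Type) [Fintype V] [DecidableEq V] (par : V → V) (dep : V → ℕ) (r : V)
  (π lab : V → V) (sn : V → ℝ) (B : Finset V), RT par dep r →
  Lay par dep r π lab sn B → N ≤ Fintype.card V →
  Ex (fun ζ => PUR par r π (B.image par) (sg lab sn ζ) k) ≤ η * Fintype.card V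

/-- PBR (from T_PB, T_CUBE, T_LAYF, T_MOM, T_UIR, T_SECR, T_PURR): nearly regular kernels,
random signs. -/
def T_PBR : Prop := ∀ (κ : ℕ → ℕ) (cs : ℝ), 0 < cs → ∃ (d₀ : ℝ) (N : ℕ), 0 < d₀ ∧
  ∀ (V : Type) [Fintype V] [DecidableEq V] (par : V → V) (dep : V → ℕ) (r : V)
  (π lab : V → V) (sn : V → ℝ) (B : Finset V), RT par dep r → Tame κ par r →
  Lay par dep r π lab sn B → N ≤ Fintype.card V →
  cs * Fintype.card V ≤ (univ.filter fun v => 2 ≤ (ch par r v).card).card + B.card →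
  ∃ D : (V → Bool) → ℝ, (∀ ζ, 0 ≤ D ζ) ∧ Ex D ≤ 1 / 10 ∧ ∀ ζ, D ζ < 1 →
  ∀ (W : Type) [Fintype W] [Nonempty W] (K : W → W → ℝ), Krn K → xx K ≤ d₀ →
  ∀ F, IsVal par r ∅ (sg lab sn ζ) K F → av (F r) ≤ 1

/-! ## Block 4: irregular kernels -/

/-- CUTA (from T_REC, T_SUMT): cutting into pieces of bounded size. -/
def T_CUTA : Prop := ∀ (κ : ℕ → ℕ) (η : ℝ), 0 < η → ∃ S K₀ : ℕ,
  ∀ (V : Type) [Fintype V] [DecidableEq V] (par : V → V) (dep : V → ℕ) (r : V),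
  RT par dep r → Tame κ par r → ∃ (Cut : Finset V) (ρ : V → ℕ), r ∉ Cut ∧
    (Cut.card : ℝ) ≤ η * Fintype.card V ∧ (∀ v, (ch par r v \ Cut).card ≤ K₀) ∧
    (∀ v, ρ v < S) ∧ ∀ v, ∀ c ∈ ch par r v \ Cut, ρ c < ρ v

/-- PRODA (from T_REC, T_BAN): removing edges. -/
def T_PRODA : Prop := ∀ (V : Type) [Fintype V] [DecidableEq V] (par : V → V) (dep : V → ℕ) (r : V),
  RT par dep r → ∀ Cut : Finset V, r ∉ Cut → ∀ ε : V → ℝ, (∀ c, ε c = 1 ∨ ε c = -1) →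
  ∀ (W : Type) [Fintype W] [Nonempty W] (K : W → W → ℝ), Krn K → ∀ F G : V → W → ℝ,
  IsVal par r ∅ ε K F → IsVal par r Cut ε K G →
  (∀ v y, 0 ≤ G v y) ∧ av (F r) ≤ 2 ^ Cut.card * ∏ v ∈ insert r Cut, av (G v)

/-- EXV (from T_REC): existence of the recursions. -/
def T_EXV : Prop := ∀ (V : Type) [Fintype V] [DecidableEq V] (par : V → V) (dep : V → ℕ) (r : V),
  RT par dep r → ∀ (W : Type) [Fintype W] [Nonempty W] (K : W → W → ℝ) (Cut : Finset V),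
  (∀ ε : V → ℝ, ∃ F, IsVal par r Cut ε K F) ∧
  ∀ (π lab : V → V) (sn : V → ℝ) (B : Finset V), Lay par dep r π lab sn B →
    ∃ g, IsMean par r π sn B Cut K g

/-- TYP (from T_REC, T_BAN): finitely many types of pieces. -/
def T_TYP : Prop := ∀ (S K₀ : ℕ), ∃ (T : Type) (_ : Fintype T) (_ : DecidableEq T) (M : ℝ),
  1 ≤ M ∧ ∀ (V : Type) [Fintype V] [DecidableEq V] (par : V → V) (dep : V → ℕ) (r : V),
  RT par dep r → ∀ (Cut : Finset V) (ρ : V → ℕ), (∀ v, (ch par r v \ Cut).card ≤ K₀) →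
  (∀ v, ρ v < S) → (∀ v, ∀ c ∈ ch par r v \ Cut, ρ c < ρ v) →
  ∀ (lab : V → V) (sn : V → ℝ), (∀ c, sn c = 1 ∨ sn c = -1) →
  (∀ l, (univ.filter fun c => c ≠ r ∧ lab c = l).card ≤ 2) →
  ∃ ty : V → (V → Bool) → T,
    (∀ ζ l, ((insert r Cut).filter fun v => ty v (flipS {l} ζ) ≠ ty v ζ).card ≤ 2) ∧
    ∀ (W : Type) [Fintype W] [Nonempty W] (K : W → W → ℝ), Krn K → ∃ val : T → ℝ,
      (∀ t, 0 ≤ val t ∧ val t ≤ M) ∧
      ∀ ζ G, IsVal par r Cut (sg lab sn ζ) K G → ∀ v, av (G v) = val (ty v ζ)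

/-- JEN (from T_CUBE): Jensen's inequality. -/
def T_JEN : Prop := ∀ (V : Type) [Fintype V] [DecidableEq V] (F : (V → Bool) → ℝ) (a : ℝ), 0 < a →
  (∀ ζ, 0 ≤ F ζ) → Ex (fun ζ => Real.log (F ζ + a)) ≤ Real.log (Ex F + a)

/-- INDP (from T_REC, T_BAN, T_CUBE, T_LAYF, T_FLN): the expected densities. -/
def T_INDP : Prop := ∀ (V : Type) [Fintype V] [DecidableEq V] (par : V → V) (dep : V → ℕ) (r : V)
  (π lab : V → V) (sn : V → ℝ) (B : Finset V), RT par dep r → Lay par dep r π lab sn B →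
  ∀ Cut : Finset V, r ∉ Cut →
  ∀ (W : Type) [Fintype W] [Nonempty W] (K : W → W → ℝ), Krn K →
  ∀ G : (V → Bool) → V → W → ℝ, (∀ ζ, IsVal par r Cut (sg lab sn ζ) K (G ζ)) →
  ∀ g, IsMean par r π sn B Cut K g → ∀ v y, Ex (fun ζ => G ζ v y) = g v y

/-- ONEA (from T_BAN): the gain at one vertex, for irregular kernels. -/
def T_ONEA : Prop := ∀ (V W : Type) [DecidableEq V] [Fintype W] [Nonempty W] (K : W → W → ℝ)
  (Q O : Finset V) (π : V → V) (g : V → W → ℝ) (Γ p : V → ℝ) (gv : W → ℝ), Krn K →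
  (∀ c ∈ Q, π c ∉ Q) → (∀ c ∈ Q, ∀ c' ∈ Q, π c = π c' → c = c') →
  Disjoint O (Q ∪ Q.image π) →
  (∀ c ∈ Q ∪ Q.image π ∪ O, (∀ y, 0 ≤ g c y) ∧ 0 ≤ p c ∧ p c ≤ 1 ∧
    av (g c) ≤ Real.exp (- Γ c - 9 / 10 * p c)) →
  (∀ c ∈ Q ∪ Q.image π, ∀ y, (1 - p c) * g c y ≤ av (g c)) →
  (∀ y, gv y = (∏ c ∈ Q, (av (g c) * av (g (π c)) - Sop K (g c) y * Sop K (g (π c)) y)) *
    ∏ c ∈ O, av (g c)) →
  (∀ y, 0 ≤ gv y) ∧ ∃ pv : ℝ, 0 ≤ pv ∧ pv ≤ 1 ∧ (∀ y, (1 - pv) * gv y ≤ av gv) ∧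
    av gv ≤ Real.exp (-(∑ c ∈ Q ∪ Q.image π ∪ O, Γ c) -
      (if Q.Nonempty then xx K / 60 else 0) - 9 / 10 * pv)

/-- GAIN (from T_REC, T_BAN, T_LAYF, T_ONEA): the gain for irregular kernels. -/
def T_GAIN : Prop := ∀ (V : Type) [Fintype V] [DecidableEq V] (par : V → V) (dep : V → ℕ) (r : V)
  (π lab : V → V) (sn : V → ℝ) (B : Finset V), RT par dep r → Lay par dep r π lab sn B →
  ∀ Cut : Finset V, r ∉ Cut →
  ∀ (W : Type) [Fintype W] [Nonempty W] (K : W → W → ℝ), Krn K → ∀ g,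
  IsMean par r π sn B Cut K g → ∃ Γ : V → ℝ, (∀ v, 0 ≤ Γ v) ∧ (∀ v y, 0 ≤ g v y) ∧
    (∀ v, av (g v) ≤ Real.exp (- Γ v)) ∧
    (∀ (K₀ : ℕ) (ρ : V → ℕ), (∀ v, (ch par r v \ Cut).card ≤ K₀) →
      (∀ v, ∀ c ∈ ch par r v \ Cut, ρ c < ρ v) → ∀ v, Γ v ≤ (K₀ + 1 : ℝ) ^ (ρ v + 1)) ∧
    xx K / 60 * (((univ.filter fun v => 2 ≤ (ch par r v).card).card : ℝ) + B.card -
      3 * Cut.card) ≤ ∑ v ∈ insert r Cut, Γ v

/-- PA (from T_CUTA, T_PRODA, T_EXV, T_TYP, T_JEN, T_INDP, T_GAIN, T_ES, T_CUBE, T_LAYF):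
irregular kernels. -/
def T_PA : Prop := ∀ (κ : ℕ → ℕ) (cs d₀ : ℝ), 0 < cs → 0 < d₀ → ∃ N : ℕ,
  ∀ (V : Type) [Fintype V] [DecidableEq V] (par : V → V) (dep : V → ℕ) (r : V)
  (π lab : V → V) (sn : V → ℝ) (B : Finset V), RT par dep r → Tame κ par r →
  Lay par dep r π lab sn B → N ≤ Fintype.card V →
  cs * Fintype.card V ≤ (univ.filter fun v => 2 ≤ (ch par r v).card).card + B.card →
  ∃ D : (V → Bool) → ℝ, (∀ ζ, 0 ≤ D ζ) ∧ Ex D ≤ 1 / 10 ∧ ∀ ζ, D ζ < 1 →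
  ∀ (W : Type) [Fintype W] [Nonempty W] (K : W → W → ℝ), Krn K → d₀ ≤ xx K →
  ∀ F, IsVal par r ∅ (sg lab sn ζ) K F → av (F r) ≤ 1

/-! ## Block 5: the theorems -/

/-- CORE (from T_PBR, T_PA, T_LAYX, T_LAYF, T_CUBE): tame trees. -/
def T_CORE : Prop := ∀ κ : ℕ → ℕ, ∃ N : ℕ,
  ∀ (V : Type) [Fintype V] [DecidableEq V] (par : V → V) (dep : V → ℕ) (r : V),
  RT par dep r → Tame κ par r → N ≤ Fintype.card V →
  ∃ ε : V → ℝ, (∀ c, ε c = 1 ∨ ε c = -1) ∧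
  ∀ (W : Type) [Fintype W] [Nonempty W] (K : W → W → ℝ), Krn K →
  ∀ F, IsVal par r ∅ ε K F → av (F r) ≤ 1

/-- a good orientation exists -/
def GoodTree {V : Type} [Fintype V] (T : SimpleGraph V) : Prop :=
  ∃ D : V → V → Prop,
    (∀ u v, T.Adj u v → (D u v ∨ D v u)) ∧
    (∀ u v, D u v → (T.Adj u v ∧ ¬ D v u)) ∧
    ∀ (W : Type) [Fintype W] (G : W → W → Prop), Nonempty W → AntiSid.Tour G →
      ({f : V → W | ∀ u v, D u v → G (f u) (f v)}.ncard : ℝ) ≤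
        (Fintype.card W : ℝ) ^ (Fintype.card V) * (1 / 2) ^ (T.edgeSet.ncard)

/-- CONV: from simple graphs to rooted trees and back. -/
def T_CONV : Prop := ∀ (V : Type) [Fintype V] [DecidableEq V] (T : SimpleGraph V), T.IsTree →
  ∀ r : V, ∃ (par : V → V) (dep : V → ℕ), RT par dep r ∧
    (∀ u v, T.Adj u v ↔ (u ≠ r ∧ par u = v) ∨ (v ≠ r ∧ par v = u)) ∧
    (∀ v, (ch par r v).card ≤ (T.neighborSet v).ncard) ∧
    ((∃ ε : V → ℝ, (∀ c, ε c = 1 ∨ ε c = -1) ∧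
      ∀ (W : Type) [Fintype W] [Nonempty W] (K : W → W → ℝ), Krn K →
      ∀ F, IsVal par r ∅ ε K F → av (F r) ≤ 1) → GoodTree T)

/-- COD: trees whose siblings have different codes are tame. -/
def T_COD : Prop := ∃ κ : ℕ → ℕ, ∀ (V : Type) [Fintype V] [DecidableEq V] (par : V → V)
  (dep : V → ℕ) (r : V), RT par dep r → ∀ code : V → ℕ,
  (∀ v, code v = Encodable.encode (Multiset.map code (ch par r v).val)) →
  (∀ v, ∀ c ∈ ch par r v, ∀ c' ∈ ch par r v, code c = code c' → c = c') → Tame κ par r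

/-- ISO (from T_REC): siblings with equal codes give an automorphism. -/
def T_ISO : Prop := ∀ (V : Type) [Fintype V] [DecidableEq V] (par : V → V)
  (dep : V → ℕ) (r : V), RT par dep r → ∀ code : V → ℕ,
  (∀ v, code v = Encodable.encode (Multiset.map code (ch par r v).val)) →
  ∀ v, ∀ c ∈ ch par r v, ∀ c' ∈ ch par r v, code c = code c' → c ≠ c' →
  ∃ φ : V ≃ V, φ v = v ∧ φ c = c' ∧ φ r = r ∧ ∀ u, u ≠ r → par (φ u) = φ (par u)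

/-- FIN (from T_CORE, T_CONV, T_COD, T_ISO, T_REC): the theorem. -/
def T_FIN : Prop :=
  (∀ κ : ℕ → ℕ, ∃ N : ℕ, ∀ (V : Type) [Fintype V] [DecidableEq V] (T : SimpleGraph V), T.IsTree →
    N ≤ Fintype.card V →
    (∀ m : ℕ, m * ∑ v ∈ univ.filter (fun v => κ m ≤ (T.neighborSet v).ncard),
      (T.neighborSet v).ncard ≤ Fintype.card V) → GoodTree T) ∧
  (∃ N : ℕ, ∀ (V : Type) [Fintype V] [DecidableEq V] (T : SimpleGraph V), T.IsTree →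
    N ≤ Fintype.card V → (∀ φ : T ≃g T, (∃ v, φ v = v) → ∀ v, φ v = v) → GoodTree T)

end

end Pool.Agent.TFin
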