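import Mathlib

set_option autoImplicit false

namespace Pool.Agent.TFin.Twin

open Finset

/-- `G` is a tournament: no loops, and exactly one arc between any two distinct vertices. -/
def IsTournament {W : Type} (G : W → W → Prop) : Prop :=
  (∀ a, ¬ G a a) ∧ ∀ a b, a ≠ b → (G a b ↔ ¬ G b a)

/-- `D` is an orientation of the graph `T`. -/
def IsOrientation {V : Type} (T : SimpleGraph V) (D : V → V → Prop) : Prop :=
  (∀ u v, T.Adj u v → (D u v ∨ D v u)) ∧ (∀ u v, D u v → (T.Adj u v ∧ ¬ D v u))

/-- The number of homomorphisms from `D` to `G`. -/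
noncomputable def homCount {V W : Type} (D : V → V → Prop) (G : W → W → Prop) : ℕ :=
  {f : V → W | ∀ u v, D u v → G (f u) (f v)}.ncard

/-- The graph `T` has an orientation whose homomorphism density in every finite tournament is
at most `2 ^ (-e(T))`. -/
def AntiSidorenko {V : Type} [Fintype V] (T : SimpleGraph V) : Prop :=
  ∃ D : V → V → Prop, IsOrientation T D ∧
    ∀ m : ℕ, ∀ G : Fin m → Fin m → Prop, IsTournament G →
      (homCount D G : ℝ) / (m : ℝ) ^ (Fintype.card V) ≤ ((1 : ℝ) / 2) ^ (T.edgeSet.ncard)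

/-- The adjacency of the graph obtained from `T` by adding two disjoint copies of `H` and joining
the vertex `v` of `T` to the vertex `y` of each copy. -/
def twinRel {V U : Type} (T : SimpleGraph V) (v : V) (H : SimpleGraph U) (y : U) :
    V ⊕ (U ⊕ U) → V ⊕ (U ⊕ U) → Prop
  | .inl a, .inl b => T.Adj a b
  | .inr (.inl a), .inr (.inl b) => H.Adj a b
  | .inr (.inr a), .inr (.inr b) => H.Adj a b
  | .inl a, .inr (.inl b) => a = v ∧ b = y
  | .inl a, .inr (.inr b) => a = v ∧ b = y
  | .inr (.inl b), .inl a => a = v ∧ b = y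
  | .inr (.inr b), .inl a => a = v ∧ b = y
  | .inr (.inl _), .inr (.inr _) => False
  | .inr (.inr _), .inr (.inl _) => False

/-- The graph obtained from `T` by attaching two copies of `H` at `v` (through the vertex `y`). -/
def attachTwins {V U : Type} (T : SimpleGraph V) (v : V) (H : SimpleGraph U) (y : U) :
    SimpleGraph (V ⊕ (U ⊕ U)) where
  Adj := twinRel T v H y
  symm := ⟨by
    rintro (a | a | a) (b | b | b) h
    · exact T.symm.symm _ _ h
    · exact h
    · exact h
    · exact h
    · exact H.symm.symm _ _ h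
    · exact h
    · exact h
    · exact h
    · exact H.symm.symm _ _ h⟩
  loopless := ⟨by
    rintro (a | a | a) h
    · exact T.loopless.irrefl _ h
    · exact H.loopless.irrefl _ h
    · exact H.loopless.irrefl _ h⟩

/-- The orientation used: both copies of `H` are oriented in the same way, one joining edge goes
out of `v`, the other one into `v`. -/
def twinDir {V U : Type} (D : V → V → Prop) (v : V) (E : U → U → Prop) (y : U) :
    V ⊕ (U ⊕ U) → V ⊕ (U ⊕ U) → Prop
  | .inl a, .inl b => D a b
  | .inr (.inl a), .inr (.inl b) => E a b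
  | .inr (.inr a), .inr (.inr b) => E a b
  | .inl a, .inr (.inl b) => a = v ∧ b = y
  | .inl _, .inr (.inr _) => False
  | .inr (.inl _), .inl _ => False
  | .inr (.inr b), .inl a => a = v ∧ b = y
  | .inr (.inl _), .inr (.inr _) => False
  | .inr (.inr _), .inr (.inl _) => False

lemma twinDir_orient {V U : Type} {T : SimpleGraph V} {v : V} {H : SimpleGraph U} {y : U}
    {D : V → V → Prop} {E : U → U → Prop} (hD : IsOrientation T D) (hE : IsOrientation H E) :
    IsOrientation (attachTwins T v H y) (twinDir D v E y) := by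
  constructor
  · rintro (a | a | a) (b | b | b) h
    · exact hD.1 a b h
    · exact Or.inl h
    · exact Or.inr h
    · exact Or.inr h
    · exact hE.1 a b h
    · exact Or.inl h
    · exact Or.inl h
    · exact Or.inl h
    · exact hE.1 a b h
  · rintro (a | a | a) (b | b | b) h
    · exact hD.2 a b h
    · exact ⟨h, fun h' => h'⟩
    · exact h.elim
    · exact h.elim
    · exact hE.2 a b h
    · exact h.elim
    · exact ⟨h, fun h' => h'⟩
    · exact h.elim
    · exact hE.2 a b h

lemma edge_le {V U : Type} [Fintype V] [Fintype U] (T : SimpleGraph V) (v : V)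
    (H : SimpleGraph U) (y : U) :
    (attachTwins T v H y).edgeSet.ncard ≤ T.edgeSet.ncard + 2 * H.edgeSet.ncard + 2 := by
  classical
  have hsub : (attachTwins T v H y).edgeSet ⊆
      (Sym2.map Sum.inl '' T.edgeSet ∪ Sym2.map (fun u => Sum.inr (Sum.inl u)) '' H.edgeSet) ∪
      (Sym2.map (fun u => Sum.inr (Sum.inr u)) '' H.edgeSet ∪
        {s(Sum.inl v, Sum.inr (Sum.inl y)), s(Sum.inl v, Sum.inr (Sum.inr y))}) := by
    intro e
    induction e using Sym2.ind with
    | _ a b =>
    rcases a with a | a | a <;> rcases b with b | b | b <;> intro h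
    · left; left; exact ⟨s(a, b), h, rfl⟩
    · right; right
      obtain ⟨rfl, rfl⟩ := h
      simp
    · right; right
      obtain ⟨rfl, rfl⟩ := h
      simp
    · right; right
      obtain ⟨rfl, rfl⟩ := h
      simp [Sym2.eq_swap]
    · left; right; exact ⟨s(a, b), h, rfl⟩
    · exact h.elim
    · right; right
      obtain ⟨rfl, rfl⟩ := h
      simp [Sym2.eq_swap]
    · exact h.elim
    · right; left; exact ⟨s(a, b), h, rfl⟩
  refine (Set.ncard_le_ncard hsub (Set.toFinite _)).trans ?_
  refine (Set.ncard_union_le _ _).trans ?_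
  have h1 := Set.ncard_union_le (Sym2.map (Sum.inl : V → V ⊕ (U ⊕ U)) '' T.edgeSet)
    (Sym2.map (fun u : U => (Sum.inr (Sum.inl u) : V ⊕ (U ⊕ U))) '' H.edgeSet)
  have h2 := Set.ncard_union_le
    (Sym2.map (fun u : U => (Sum.inr (Sum.inr u) : V ⊕ (U ⊕ U))) '' H.edgeSet)
    {s(Sum.inl v, Sum.inr (Sum.inl y)), s(Sum.inl v, Sum.inr (Sum.inr y))}
  have h3 := Set.ncard_image_le (f := Sym2.map (Sum.inl : V → V ⊕ (U ⊕ U)))
    (Set.toFinite T.edgeSet)
  have h4 := Set.ncard_image_le
    (f := Sym2.map (fun u : U => (Sum.inr (Sum.inl u) : V ⊕ (U ⊕ U))))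
    (Set.toFinite H.edgeSet)
  have h5 := Set.ncard_image_le
    (f := Sym2.map (fun u : U => (Sum.inr (Sum.inr u) : V ⊕ (U ⊕ U))))
    (Set.toFinite H.edgeSet)
  have h6 := Set.ncard_insert_le (s(Sum.inl v, Sum.inr (Sum.inl y)) : Sym2 (V ⊕ (U ⊕ U)))
    {s(Sum.inl v, Sum.inr (Sum.inr y))}
  rw [Set.ncard_singleton] at h6
  omega

/-- homomorphism count as a sum of indicators -/
lemma homCount_eq {V W : Type} [Fintype V] [Fintype W] (D : V → V → Prop) (G : W → W → Prop)
    [DecidablePred fun f : V → W => ∀ u v, D u v → G (f u) (f v)] [Fintype (V → W)] :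
    (homCount D G : ℝ) = ∑ f : V → W, if (∀ u v, D u v → G (f u) (f v)) then 1 else 0 := by
  rw [Finset.sum_boole]
  congr 1
  rw [homCount, ← Set.ncard_coe_finset]
  congr 1
  ext f
  simp

lemma twin_cond {V U W : Type} (D : V → V → Prop) (v : V) (E : U → U → Prop) (y : U)
    (G : W → W → Prop) (f : V → W) (g h : U → W) :
    (∀ a b, twinDir D v E y a b →
      G (Sum.elim f (Sum.elim g h) a) (Sum.elim f (Sum.elim g h) b)) ↔
    (∀ a b, D a b → G (f a) (f b)) ∧
      ((∀ a b, E a b → G (g a) (g b)) ∧ G (f v) (g y)) ∧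
      ((∀ a b, E a b → G (h a) (h b)) ∧ G (h y) (f v)) := by
  constructor
  · intro H
    refine ⟨fun a b hab => H (.inl a) (.inl b) hab,
      ⟨fun a b hab => H (.inr (.inl a)) (.inr (.inl b)) hab,
        H (.inl v) (.inr (.inl y)) ⟨rfl, rfl⟩⟩,
      ⟨fun a b hab => H (.inr (.inr a)) (.inr (.inr b)) hab,
        H (.inr (.inr y)) (.inl v) ⟨rfl, rfl⟩⟩⟩
  · rintro ⟨h1, ⟨h2, h3⟩, ⟨h4, h5⟩⟩
    rintro (a | a | a) (b | b | b) hab
    · exact h1 a b hab
    · obtain ⟨rfl, rfl⟩ := hab; exact h3
    · exact hab.elim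
    · exact hab.elim
    · exact h2 a b hab
    · exact hab.elim
    · obtain ⟨rfl, rfl⟩ := hab; exact h5
    · exact hab.elim
    · exact h4 a b hab

lemma count_bound {V U : Type} [Fintype V] [Fintype U] (m : ℕ) (D : V → V → Prop) (v : V)
    (E : U → U → Prop) (y : U) (G : Fin m → Fin m → Prop) (hG : IsTournament G) :
    (homCount (twinDir D v E y) G : ℝ) ≤ (homCount D G : ℝ) * ((homCount E G : ℝ) / 2) ^ 2 := by
  classical
  set P : (V → Fin m) → ℝ := fun f => if (∀ a b, D a b → G (f a) (f b)) then 1 else 0 with hP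
  set Q : (U → Fin m) → ℝ := fun g => if (∀ a b, E a b → G (g a) (g b)) then 1 else 0 with hQ
  set A : Fin m → ℝ := fun x => ∑ g : U → Fin m, Q g * (if G x (g y) then 1 else 0) with hA
  set B : Fin m → ℝ := fun x => ∑ g : U → Fin m, Q g * (if G (g y) x then 1 else 0) with hB
  have hQnn : ∀ g, 0 ≤ Q g := fun g => by simp only [hQ]; split_ifs <;> norm_num
  have hPnn : ∀ f, 0 ≤ P f := fun g => by simp only [hP]; split_ifs <;> norm_num
  have hAnn : ∀ x, 0 ≤ A x := fun x => Finset.sum_nonneg fun g _ =>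
    mul_nonneg (hQnn g) (by split_ifs <;> norm_num)
  have hBnn : ∀ x, 0 ≤ B x := fun x => Finset.sum_nonneg fun g _ =>
    mul_nonneg (hQnn g) (by split_ifs <;> norm_num)
  have e1 : (homCount (twinDir D v E y) G : ℝ) = ∑ f : V → Fin m, P f * (A (f v) * B (f v)) := by
    rw [homCount_eq]
    rw [← (Equiv.sumArrowEquivProdArrow V (U ⊕ U) (Fin m)).symm.sum_comp]
    rw [Fintype.sum_prod_type]
    refine Finset.sum_congr rfl fun f _ => ?_
    rw [← (Equiv.sumArrowEquivProdArrow U U (Fin m)).symm.sum_comp]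
    rw [Fintype.sum_prod_type]
    have e2 : ∀ g h : U → Fin m,
        (if (∀ u w, twinDir D v E y u w →
          G ((Equiv.sumArrowEquivProdArrow V (U ⊕ U) (Fin m)).symm
              (f, (Equiv.sumArrowEquivProdArrow U U (Fin m)).symm (g, h)) u)
            ((Equiv.sumArrowEquivProdArrow V (U ⊕ U) (Fin m)).symm
              (f, (Equiv.sumArrowEquivProdArrow U U (Fin m)).symm (g, h)) w))
          then (1:ℝ) else 0) =
        P f * ((Q g * (if G (f v) (g y) then 1 else 0)) *
          (Q h * (if G (h y) (f v) then 1 else 0))) := by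
      intro g h
      have key := twin_cond D v E y G f g h
      have hre : ∀ u, (Equiv.sumArrowEquivProdArrow V (U ⊕ U) (Fin m)).symm
              (f, (Equiv.sumArrowEquivProdArrow U U (Fin m)).symm (g, h)) u =
            Sum.elim f (Sum.elim g h) u := by
        rintro (a | a | a) <;> rfl
      simp only [hre]
      simp only [hP, hQ]
      by_cases c1 : ∀ a b, D a b → G (f a) (f b)
      · by_cases c2 : ∀ a b, E a b → G (g a) (g b)
        · by_cases c3 : ∀ a b, E a b → G (h a) (h b)
          · by_cases c4 : G (f v) (g y)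
            · by_cases c5 : G (h y) (f v)
              · rw [if_pos (key.2 ⟨c1, ⟨c2, c4⟩, ⟨c3, c5⟩⟩), if_pos c1, if_pos c2, if_pos c3,
                  if_pos c4, if_pos c5]; norm_num
              · rw [if_neg (fun hh => c5 (key.1 hh).2.2.2), if_neg c5]; ring
            · rw [if_neg (fun hh => c4 (key.1 hh).2.1.2), if_neg c4]; ring
          · rw [if_neg (fun hh => c3 (key.1 hh).2.2.1), if_neg c3]; ring
        · rw [if_neg (fun hh => c2 (key.1 hh).2.1.1), if_neg c2]; ring
      · rw [if_neg (fun hh => c1 (key.1 hh).1), if_neg c1]; ring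
    simp_rw [e2]
    rw [hA, hB]
    simp only
    rw [Finset.sum_mul_sum, Finset.mul_sum]
    refine Finset.sum_congr rfl fun g _ => ?_
    rw [Finset.mul_sum]
  have hAB : ∀ x, A x + B x ≤ homCount E G := by
    intro x
    rw [homCount_eq, hA, hB]
    simp only
    rw [← Finset.sum_add_distrib]
    refine Finset.sum_le_sum fun g _ => ?_
    rw [← mul_add]
    have : ((if G x (g y) then (1:ℝ) else 0) + (if G (g y) x then 1 else 0)) ≤ 1 := by
      by_cases hx : x = g y
      · have := hG.1 (g y)
        rw [hx]; simp [this]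
      · have h1 := hG.2 x (g y) hx
        by_cases h2 : G (g y) x
        · have : ¬ G x (g y) := fun h3 => (h1.1 h3) h2
          simp [this, h2]
        · have : G x (g y) := h1.2 h2
          simp [this, h2]
    calc Q g * _ ≤ Q g * 1 := mul_le_mul_of_nonneg_left this (hQnn g)
      _ = _ := by simp only [hQ, mul_one]
  rw [e1, homCount_eq D, Finset.sum_mul]
  refine Finset.sum_le_sum fun f _ => ?_
  refine mul_le_mul_of_nonneg_left ?_ (hPnn f)
  have h1 := hAB (f v)
  have h2 := hAnn (f v)
  have h3 := hBnn (f v)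
  nlinarith [sq_nonneg (A (f v) - B (f v))]

/-- Attaching two copies of an anti-Sidorenko graph at one vertex of an anti-Sidorenko graph
gives an anti-Sidorenko graph. -/
theorem closure {V U : Type} [Fintype V] [Fintype U] (T : SimpleGraph V) (v : V)
    (H : SimpleGraph U) (y : U) (hT : AntiSidorenko T) (hH : AntiSidorenko H) :
    AntiSidorenko (attachTwins T v H y) := by
  obtain ⟨D, hD, hDb⟩ := hT
  obtain ⟨E, hE, hEb⟩ := hH
  refine ⟨twinDir D v E y, twinDir_orient hD hE, ?_⟩
  intro m G hG
  have h1 := hDb m G hG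
  have h2 := hEb m G hG
  have h3 := count_bound m D v E y G hG
  have h4 := edge_le T v H y
  rcases Nat.eq_zero_or_pos m with hm | hm
  · subst hm
    have : Fintype.card (V ⊕ (U ⊕ U)) ≠ 0 := by
      rw [Ne, Fintype.card_eq_zero_iff, not_isEmpty_iff]
      exact ⟨Sum.inl v⟩
    rw [Nat.cast_zero, zero_pow this, div_zero]
    positivity
  · have hmpos : (0:ℝ) < m := by exact_mod_cast hm
    rw [div_le_iff₀ (by positivity)] at h1 h2 ⊢
    have hc : Fintype.card (V ⊕ (U ⊕ U)) =
        Fintype.card V + (Fintype.card U + Fintype.card U) := by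
      rw [Fintype.card_sum, Fintype.card_sum]
    have hEnn : (0:ℝ) ≤ homCount E G := by positivity
    calc (homCount (twinDir D v E y) G : ℝ)
        ≤ (homCount D G : ℝ) * ((homCount E G : ℝ) / 2) ^ 2 := h3
      _ ≤ ((1 / 2) ^ T.edgeSet.ncard * (m:ℝ) ^ Fintype.card V) *
          (((1 / 2) ^ H.edgeSet.ncard * (m:ℝ) ^ Fintype.card U) / 2) ^ 2 := by
          refine mul_le_mul h1 ?_ (by positivity) (by positivity)
          refine pow_le_pow_left₀ (by positivity) ?_ 2
          exact div_le_div_of_nonneg_right h2 (by norm_num)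
      _ = (1 / 2) ^ (T.edgeSet.ncard + 2 * H.edgeSet.ncard + 2) *
          (m:ℝ) ^ Fintype.card (V ⊕ (U ⊕ U)) := by
          rw [hc, pow_add ((1:ℝ) / 2), pow_add ((1:ℝ) / 2), pow_mul' ((1:ℝ) / 2), pow_add (m:ℝ),
            pow_add (m:ℝ)]
          ring
      _ ≤ (1 / 2) ^ ((attachTwins T v H y).edgeSet.ncard) *
          (m:ℝ) ^ Fintype.card (V ⊕ (U ⊕ U)) := by
          refine mul_le_mul_of_nonneg_right ?_ (by positivity)
          exact pow_le_pow_of_le_one (by norm_num) (by norm_num) h4

end Pool.Agent.TFin.Twin
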