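import Pool.Agent.TFin.Targets
import Pool.Agent.TFin.Twin

set_option autoImplicit false

/-!
# Large trees in tournaments (MP_d27362_co): targets for the reduction to finitely many trees

`Twin.AntiSidorenko T`: the graph `T` has a good orientation. `Twin.attachTwins T v H y`: two
copies of `H` attached to `v` through `y`. `Twin.closure`: if `T` and `H` have good orientations
then so has `attachTwins T v H y`.
-/

namespace Pool.Agent.TFin

open Finset

/-- INV: the property is invariant under isomorphism, and follows from `GoodTree`. -/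
def T_INV : Prop :=
  (∀ (V U : Type) [Fintype V] [Fintype U] (T : SimpleGraph V) (H : SimpleGraph U),
    Nonempty (T ≃g H) → Twin.AntiSidorenko T → Twin.AntiSidorenko H) ∧
  ∀ (V : Type) [Fintype V] [DecidableEq V] [Nonempty V] (T : SimpleGraph V),
    GoodTree T → Twin.AntiSidorenko T

/-- TWIN: a tree with a nontrivial automorphism that fixes a vertex has twin branches. -/
def T_TWIN : Prop := ∀ (V : Type) [Fintype V] [DecidableEq V] (T : SimpleGraph V), T.IsTree →
  ∀ (φ : T ≃g T) (v w : V), φ v = v → φ w ≠ w →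
  ∃ (A B : Set V) (u : A) (a : B), A.ncard < Fintype.card V ∧ B.ncard < Fintype.card V ∧
    (T.induce A).IsTree ∧ (T.induce B).IsTree ∧
    Nonempty (Twin.attachTwins (T.induce A) u (T.induce B) a ≃g T)

/-- ALL (from T_FIN, T_INV, T_TWIN): the results. -/
def T_ALL : Prop :=
  (∀ κ : ℕ → ℕ, ∃ N : ℕ, ∀ (n : ℕ) (T : SimpleGraph (Fin n)), T.IsTree → N ≤ n →
    (∀ m : ℕ, m * ∑ v ∈ univ.filter (fun v => κ m ≤ (T.neighborSet v).ncard),
      (T.neighborSet v).ncard ≤ n) → Twin.AntiSidorenko T) ∧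
  (∀ Δ : ℕ, ∃ N : ℕ, ∀ (n : ℕ) (T : SimpleGraph (Fin n)), T.IsTree → N ≤ n →
    (∀ v, (T.neighborSet v).ncard ≤ Δ) → Twin.AntiSidorenko T) ∧
  (∃ N : ℕ, (∀ (n : ℕ) (T : SimpleGraph (Fin n)), T.IsTree → N ≤ n →
      (∀ φ : T ≃g T, (∃ v, φ v = v) → ∀ v, φ v = v) → Twin.AntiSidorenko T) ∧
    ∀ (n : ℕ) (T : SimpleGraph (Fin n)), T.IsTree → ¬ Twin.AntiSidorenko T →
      ∃ k < N, ∃ T₀ : SimpleGraph (Fin k), T₀.IsTree ∧ ¬ Twin.AntiSidorenko T₀ ∧
        Nonempty (T₀ ↪g T))

end Pool.Agent.TFin
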